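import Pool.Agent.RSV.StN

/-!
# RSV, [Ca]: the sign rule from the adjugate
-/

set_option autoImplicit false

namespace Pool.Agent.RSV

open Matrix Filter Topology
open scoped ComplexConjugate

section gen

variable {m : Type} [Fintype m] [DecidableEq m]

/-- Jacobi's formula -/
private lemma Ca_jac (N E : Matrix m m ℂ) (t : ℂ) :
    HasDerivAt (fun s : ℂ => (N + s • E).det) ((N + t • E).adjugate * E).trace t := by
  have h1 : ∀ σ : Equiv.Perm m, HasDerivAt (fun s : ℂ => ∏ i, (N + s • E) (σ i) i)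
      (∑ k, (∏ j ∈ Finset.univ.erase k, (N + t • E) (σ j) j) • E (σ k) k) t := by
    intro σ
    apply HasDerivAt.fun_finsetProd
    intro i _
    have h2 : HasDerivAt (fun s : ℂ => N (σ i) i + s * E (σ i) i) (E (σ i) i) t := by
      have := ((hasDerivAt_id t).mul_const (E (σ i) i)).const_add (N (σ i) i)
      simpa using this
    exact h2
  have h3 : HasDerivAt (fun s : ℂ => ∑ σ : Equiv.Perm m,
      ((Equiv.Perm.sign σ : ℤ) : ℂ) * ∏ i, (N + s • E) (σ i) i)
      (∑ σ : Equiv.Perm m, ((Equiv.Perm.sign σ : ℤ) : ℂ) *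
        ∑ k, (∏ j ∈ Finset.univ.erase k, (N + t • E) (σ j) j) • E (σ k) k) t := by
    apply HasDerivAt.fun_sum
    intro σ _
    exact (h1 σ).const_mul _
  have h4 : (fun s : ℂ => (N + s • E).det) = fun s : ℂ => ∑ σ : Equiv.Perm m,
      ((Equiv.Perm.sign σ : ℤ) : ℂ) * ∏ i, (N + s • E) (σ i) i := by
    funext s
    rw [det_apply']
  rw [h4]
  have h5 : ((N + t • E).adjugate * E).trace = ∑ σ : Equiv.Perm m, ((Equiv.Perm.sign σ : ℤ) : ℂ) *
        ∑ k, (∏ j ∈ Finset.univ.erase k, (N + t • E) (σ j) j) • E (σ k) k := by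
    have h6 : ((N + t • E).adjugate * E).trace =
        ∑ k, ((N + t • E).updateCol k (fun i => E i k)).det := by
      rw [trace]
      refine Finset.sum_congr rfl fun k _ => ?_
      rw [← cramer_apply, cramer_eq_adjugate_mulVec]
      rfl
    rw [h6]
    simp_rw [det_apply']
    rw [Finset.sum_comm]
    refine Finset.sum_congr rfl fun σ _ => ?_
    rw [Finset.mul_sum]
    refine Finset.sum_congr rfl fun k _ => ?_
    congr 1
    rw [← Finset.mul_prod_erase Finset.univ _ (Finset.mem_univ k), smul_eq_mul, mul_comm]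
    congr 1
    · refine Finset.prod_congr rfl fun j hj => ?_
      rw [updateCol_ne (Finset.ne_of_mem_erase hj)]
    · rw [updateCol_self]
  rw [h5]
  exact h3

/-- a Hermitian matrix with `det = 0` and trace of the adjugate `0` has adjugate `0` -/
private lemma Ca_adj (H : Matrix m m ℂ) (hH : H.IsHermitian) (hd : H.det = 0)
    (ht : H.adjugate.trace.re = 0) : H.adjugate = 0 := by
  set U : Matrix m m ℂ := (hH.eigenvectorUnitary : Matrix m m ℂ) with hU
  set D : Matrix m m ℂ := diagonal (RCLike.ofReal ∘ hH.eigenvalues) with hD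
  have h1 : H = U * D * star U := by
    conv_lhs => rw [hH.spectral_theorem, Unitary.conjStarAlgAut_apply]
  have hUU : U * star U = 1 := Unitary.mul_star_self_of_mem hH.eigenvectorUnitary.2
  have hUU' : star U * U = 1 := Unitary.star_mul_self_of_mem hH.eigenvectorUnitary.2
  have h2 : H.adjugate = (star U).adjugate * (D.adjugate * U.adjugate) := by
    conv_lhs => rw [h1]
    rw [adjugate_mul_distrib, adjugate_mul_distrib]
  have h3 : H.adjugate.trace = D.adjugate.trace := by
    rw [h2, trace_mul_comm, mul_assoc, ← adjugate_mul_distrib, hUU', adjugate_one, mul_one]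
  have h4 : D.adjugate = diagonal fun i => ((∏ j ∈ Finset.univ.erase i, hH.eigenvalues j : ℝ) : ℂ) := by
    rw [hD, adjugate_diagonal]
    congr 1
    funext i
    push_cast
    rfl
  have h5 : ∏ i, hH.eigenvalues i = 0 := by
    have := hH.det_eq_prod_eigenvalues
    rw [hd] at this
    have h6 : ((∏ i, hH.eigenvalues i : ℝ) : ℂ) = 0 := by
      rw [this]
      push_cast
      rfl
    exact_mod_cast h6
  obtain ⟨k, _, hk⟩ := Finset.prod_eq_zero_iff.1 h5
  have h6 : ∀ i, i ≠ k → ∏ j ∈ Finset.univ.erase i, hH.eigenvalues j = 0 := fun i hi =>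
    Finset.prod_eq_zero (Finset.mem_erase.2 ⟨hi.symm, Finset.mem_univ k⟩) hk
  have h7 : ∏ j ∈ Finset.univ.erase k, hH.eigenvalues j = 0 := by
    rw [h3, h4, trace_diagonal, ← Complex.ofReal_sum, Complex.ofReal_re,
      Finset.sum_eq_single k (fun i _ hi => h6 i hi) (fun h => absurd (Finset.mem_univ k) h)] at ht
    exact ht
  have h8 : D.adjugate = 0 := by
    rw [h4, ← diagonal_zero]
    congr 1
    funext i
    by_cases hi : i = k
    · rw [hi, h7, Complex.ofReal_zero]
    · rw [h6 i hi, Complex.ofReal_zero]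
  rw [h2, h8, zero_mul, mul_zero]

end gen

/-- the chain rule for a polynomial in three variables -/
private lemma Ca_chain (R : TP) (v : ℂ → Fin 3 → ℂ) (v' : Fin 3 → ℂ) (t : ℂ)
    (hv : ∀ i, HasDerivAt (fun s => v s i) (v' i) t) :
    HasDerivAt (fun s => MvPolynomial.aeval (v s) R)
      (∑ i, MvPolynomial.aeval (v t) (MvPolynomial.pderiv i R) * v' i) t := by
  induction R using MvPolynomial.induction_on with
  | C a =>
    simp only [MvPolynomial.aeval_C, MvPolynomial.pderiv_C, map_zero, zero_mul,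
      Finset.sum_const_zero]
    exact hasDerivAt_const _ _
  | add p q hp hq =>
    have := hp.add hq
    simp only [map_add, add_mul, Finset.sum_add_distrib]
    exact this
  | mul_X p j hp =>
    have := hp.mul (hv j)
    simp only [map_mul, MvPolynomial.aeval_X]
    have h1 : ∑ i, MvPolynomial.aeval (v t) (MvPolynomial.pderiv i (p * MvPolynomial.X j)) * v' i =
        (∑ i, MvPolynomial.aeval (v t) (MvPolynomial.pderiv i p) * v' i) * v t j +
          MvPolynomial.aeval (v t) p * v' j := by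
      have h2 : ∀ i, MvPolynomial.aeval (v t) (MvPolynomial.pderiv i (p * MvPolynomial.X j)) *
          v' i = MvPolynomial.aeval (v t) (MvPolynomial.pderiv i p) * v' i * v t j +
            if i = j then MvPolynomial.aeval (v t) p * v' j else 0 := by
        intro i
        rw [MvPolynomial.pderiv_mul, map_add, map_mul, map_mul, MvPolynomial.aeval_X]
        by_cases h : i = j
        · subst h
          rw [MvPolynomial.pderiv_X_self, map_one, if_pos rfl]
          ring
        · rw [MvPolynomial.pderiv_X_of_ne (Ne.symm h), map_zero, if_neg h]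
          ring
      rw [Finset.sum_congr rfl fun i _ => h2 i, Finset.sum_add_distrib, Finset.sum_ite_eq',
        if_pos (Finset.mem_univ j), Finset.sum_mul]
    rw [h1]
    exact this

private lemma Ca_real (R : TP) (x y z : ℝ) :
    MvPolynomial.aeval ![(x : ℂ), (y : ℂ), (z : ℂ)] R = ((val R x y z : ℝ) : ℂ) := by
  have h : (![(x : ℂ), (y : ℂ), (z : ℂ)] : Fin 3 → ℂ) = algebraMap ℝ ℂ ∘ ![x, y, z] := by
    funext i
    fin_cases i <;> rfl
  rw [h, MvPolynomial.aeval_algebraMap_apply]
  rfl

private lemma Ca_neg {n : ℕ} (f : Fin n → ℂ) : (-1) ^ n * ∏ i, f i = ∏ i, -f i := by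
  rw [Finset.prod_congr rfl (fun i _ => neg_eq_neg_one_mul (f i)), Finset.prod_mul_distrib,
    Finset.prod_const, Finset.card_univ, Fintype.card_fin]

private lemma Ca_det {n : ℕ} {A : Matrix (Fin n) (Fin n) ℂ} {a : Fin n → ℝ} (hA : HasEig A a)
    (s : ℂ) : (A + s • (1 : Matrix (Fin n) (Fin n) ℂ)).det = ∏ i, ((a i : ℂ) + s) := by
  have h1 := congrArg (Polynomial.eval (-s)) hA.2
  rw [eval_charpoly, Polynomial.eval_prod] at h1
  have h2 : A + s • (1 : Matrix (Fin n) (Fin n) ℂ) = -(scalar (Fin n) (-s) - A) := by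
    rw [scalar_apply, ← smul_one_eq_diagonal, neg_smul]
    abel
  rw [h2, det_neg, h1, Fintype.card_fin, Ca_neg]
  refine Finset.prod_congr rfl fun i _ => ?_
  rw [Polynomial.eval_sub, Polynomial.eval_X, Polynomial.eval_C]
  ring

private lemma Ca_blk {n : ℕ} {A : Matrix (Fin n) (Fin n) ℂ} {a : Fin n → ℝ} (hA : HasEig A a)
    (B : Matrix (Fin n) (Fin n) ℂ) (l s : ℂ) :
    (HH A B l 0 + s • (1 : Matrix (Fin n ⊕ Fin n) (Fin n ⊕ Fin n) ℂ)).det =
      ∏ i, (((a i : ℂ) + s) ^ 2 - l ^ 2) := by
  have h1 : HH A B l 0 + s • (1 : Matrix (Fin n ⊕ Fin n) (Fin n ⊕ Fin n) ℂ) =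
      fromBlocks (A + (s + l) • 1) 0 0 (A + (s - l) • 1) := by
    rw [HH, ← fromBlocks_one, fromBlocks_smul, fromBlocks_add]
    congr 1
    · module
    · simp
    · simp
    · module
  rw [h1, det_fromBlocks_zero₂₁, Ca_det hA, Ca_det hA, ← Finset.prod_mul_distrib]
  refine Finset.prod_congr rfl fun i _ => ?_
  ring

theorem thm_Ca : St_HD → St_Ca := by
  intro hHD n R A B a hn hom hB hDet hSm hA ha0 haX
  classical
  have hdet := hHD n R A B hDet
  -- the form on the line z = 0
  have hline : ∀ u : ℂ, MvPolynomial.aeval ![u, 1, 0] R = ∏ i, (u - (a i : ℂ) ^ 2) := by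
    intro u
    obtain ⟨l, hl⟩ := IsAlgClosed.exists_pow_nat_eq u (n := 2) two_pos
    have h1 := hdet l 0
    have h2 := Ca_blk hA B l 0
    rw [zero_smul, add_zero] at h2
    rw [h2, hl, zero_pow two_ne_zero, neg_zero] at h1
    have h3 : (-1 : ℂ) ^ n * (-1) ^ n = 1 := by
      rw [← mul_pow]
      simp
    have h4 : MvPolynomial.aeval ![u, 1, 0] R =
        (-1 : ℂ) ^ n * ∏ i, (((a i : ℂ) + 0) ^ 2 - u) := by
      rw [h1, ← mul_assoc, h3, one_mul]
    rw [h4, Ca_neg]
    refine Finset.prod_congr rfl fun i _ => ?_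
    ring
  have hRX : ∀ i, val (MvPolynomial.pderiv 0 R) (a i ^ 2) 1 0 =
      ∏ j ∈ Finset.univ.erase i, (a i ^ 2 - a j ^ 2) := by
    intro i
    have h1 : HasDerivAt (fun u : ℂ => MvPolynomial.aeval ![u, 1, 0] R)
        (∑ k, MvPolynomial.aeval ![((a i : ℂ) ^ 2), 1, 0] (MvPolynomial.pderiv k R) *
          (![1, 0, 0] : Fin 3 → ℂ) k) ((a i : ℂ) ^ 2) := by
      refine Ca_chain R (fun u => ![u, 1, 0]) ![1, 0, 0] ((a i : ℂ) ^ 2) ?_
      intro k
      fin_cases k
      · exact hasDerivAt_id _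
      · exact hasDerivAt_const _ _
      · exact hasDerivAt_const _ _
    have h2 : HasDerivAt (fun u : ℂ => ∏ j, (u - (a j : ℂ) ^ 2))
        (∑ k, (∏ j ∈ Finset.univ.erase k, ((a i : ℂ) ^ 2 - (a j : ℂ) ^ 2)) • (1 : ℂ))
        ((a i : ℂ) ^ 2) := by
      apply HasDerivAt.fun_finsetProd
      intro k _
      exact (hasDerivAt_id _).sub_const _
    have h3 : (fun u : ℂ => MvPolynomial.aeval ![u, 1, 0] R) =
        fun u : ℂ => ∏ j, (u - (a j : ℂ) ^ 2) := funext hline
    rw [h3] at h1
    have h4 := h1.unique h2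
    rw [Finset.sum_eq_single i, Fin.sum_univ_three] at h4
    · have h5 := Ca_real (MvPolynomial.pderiv 0 R) (a i ^ 2) 1 0
      have h6 : (![((a i : ℂ) ^ 2), 1, 0] : Fin 3 → ℂ) =
          ![((a i ^ 2 : ℝ) : ℂ), ((1 : ℝ) : ℂ), ((0 : ℝ) : ℂ)] := by
        push_cast
        rfl
      rw [h6] at h4
      have h7 : ((val (MvPolynomial.pderiv 0 R) (a i ^ 2) 1 0 : ℝ) : ℂ) =
          ((∏ j ∈ Finset.univ.erase i, (a i ^ 2 - a j ^ 2) : ℝ) : ℂ) := by
        rw [← h5]
        push_cast at h4 ⊢
        simpa using h4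
      exact_mod_cast h7
    · intro k _ hk
      rw [smul_eq_mul, mul_one]
      exact Finset.prod_eq_zero (Finset.mem_erase.2 ⟨hk.symm, Finset.mem_univ i⟩) (sub_self _)
    · intro h
      exact absurd (Finset.mem_univ i) h
  have htr : ∀ i, (HH A B ((√(a i ^ 2) : ℝ) : ℂ) ((√(-0) : ℝ) : ℂ)).adjugate.trace =
      ((2 * a i * ∏ j ∈ Finset.univ.erase i, (a j ^ 2 - a i ^ 2) : ℝ) : ℂ) := by
    intro i
    have hl : (((√(a i ^ 2) : ℝ) : ℂ)) ^ 2 = (a i : ℂ) ^ 2 := by
      rw [← Complex.ofReal_pow, Real.sq_sqrt (sq_nonneg _), Complex.ofReal_pow]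
    have he : ((√(-0) : ℝ) : ℂ) = 0 := by
      rw [neg_zero, Real.sqrt_zero, Complex.ofReal_zero]
    rw [he]
    have h1 := Ca_jac (HH A B ((√(a i ^ 2) : ℝ) : ℂ) 0) 1 0
    rw [zero_smul, add_zero, mul_one] at h1
    have h3 : (fun s : ℂ => (HH A B ((√(a i ^ 2) : ℝ) : ℂ) 0 +
        s • (1 : Matrix (Fin n ⊕ Fin n) (Fin n ⊕ Fin n) ℂ)).det) =
        fun s : ℂ => ∏ j, (((a j : ℂ) + s) ^ 2 - (a i : ℂ) ^ 2) := by
      funext s
      rw [Ca_blk hA, hl]
    rw [h3] at h1
    have h2 : HasDerivAt (fun s : ℂ => ∏ j, (((a j : ℂ) + s) ^ 2 - (a i : ℂ) ^ 2))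
        (∑ k, (∏ j ∈ Finset.univ.erase k, (((a j : ℂ) + 0) ^ 2 - (a i : ℂ) ^ 2)) •
          (2 * (a k : ℂ))) 0 := by
      apply HasDerivAt.fun_finsetProd
      intro k _
      have h4 := (((hasDerivAt_id (0 : ℂ)).const_add (a k : ℂ)).pow 2).sub_const ((a i : ℂ) ^ 2)
      have h5 : (((2 : ℕ) : ℂ) * ((a k : ℂ) + id (0 : ℂ)) ^ (2 - 1) * 1) = 2 * (a k : ℂ) := by
        simp
      rw [h5] at h4
      exact h4
    rw [h1.unique h2, Finset.sum_eq_single i]
    · rw [smul_eq_mul]
      push_cast
      simp only [add_zero]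
      ring
    · intro k _ hk
      rw [Finset.prod_eq_zero (Finset.mem_erase.2 ⟨hk.symm, Finset.mem_univ i⟩), zero_smul]
      rw [add_zero, sub_self]
    · intro h
      exact absurd (Finset.mem_univ i) h
  let t : ℝ × ℝ → ℝ := fun q => (HH A B ((√q.1 : ℝ) : ℂ) ((√(-q.2) : ℝ) : ℂ)).adjugate.trace.re
  have htc : Continuous t := by
    refine Complex.continuous_re.comp (Continuous.matrix_trace (Continuous.matrix_adjugate ?_))
    have h1 : Continuous fun q : ℝ × ℝ => ((√q.1 : ℝ) : ℂ) :=
      Complex.continuous_ofReal.comp (Real.continuous_sqrt.comp continuous_fst)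
    have h2 : Continuous fun q : ℝ × ℝ => ((√(-q.2) : ℝ) : ℂ) :=
      Complex.continuous_ofReal.comp (Real.continuous_sqrt.comp continuous_snd.neg)
    unfold HH
    refine Continuous.matrix_fromBlocks ?_ ?_ ?_ ?_
    · exact continuous_const.add (h1.smul continuous_const)
    · exact h2.smul continuous_const
    · exact h2.smul continuous_const
    · exact continuous_const.sub (h1.smul continuous_const)
  have hne : ∀ x z : ℝ, 0 < x → z ≤ 0 → val R x 1 z = 0 → t (x, z) ≠ 0 := by
    intro x z hx hz h0 ht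
    set l : ℂ := ((√x : ℝ) : ℂ) with hl
    set e : ℂ := ((√(-z) : ℝ) : ℂ) with he
    have hl2 : l ^ 2 = (x : ℂ) := by
      rw [hl, ← Complex.ofReal_pow, Real.sq_sqrt hx.le]
    have he2 : -e ^ 2 = (z : ℂ) := by
      rw [he, ← Complex.ofReal_pow, Real.sq_sqrt (by linarith), ← Complex.ofReal_neg, neg_neg]
    have hl0 : l ≠ 0 := by
      rw [hl]
      exact_mod_cast (Real.sqrt_pos.2 hx).ne'
    have hconj : ∀ r : ℝ, star ((r : ℂ)) = (r : ℂ) := fun r => Complex.conj_ofReal r
    have hHerm : (HH A B l e).IsHermitian := by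
      refine IsHermitian.fromBlocks ?_ ?_ ?_
      · refine hA.1.add ?_
        rw [IsHermitian, conjTranspose_smul, conjTranspose_one, hl, hconj]
      · rw [conjTranspose_smul, hB, he, hconj]
      · refine hA.1.sub ?_
        rw [IsHermitian, conjTranspose_smul, conjTranspose_one, hl, hconj]
    have hval : (![l ^ 2, 1, -e ^ 2] : Fin 3 → ℂ) = ![(x : ℂ), ((1 : ℝ) : ℂ), (z : ℂ)] := by
      rw [hl2, he2, Complex.ofReal_one]
    have hd0 : (HH A B l e).det = 0 := by
      rw [hdet, hval, Ca_real, h0, Complex.ofReal_zero, mul_zero]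
    have hadj : (HH A B l e).adjugate = 0 := Ca_adj _ hHerm hd0 ht
    have hpm : (-1 : ℂ) ^ n ≠ 0 := pow_ne_zero _ (by norm_num)
    -- derivative in l
    have hX : val (MvPolynomial.pderiv 0 R) x 1 z = 0 := by
      have h1 := Ca_jac (HH A B 0 e) (fromBlocks 1 0 0 (-1)) l
      have h2 : ∀ s : ℂ, HH A B 0 e + s • (fromBlocks 1 0 0 (-1)) = HH A B s e := by
        intro s
        rw [HH, HH, fromBlocks_smul, fromBlocks_add]
        congr 1
        · simp
        · simp
        · simp
        · module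
      rw [h2, hadj, zero_mul, trace_zero] at h1
      have h3 : (fun s : ℂ => (HH A B 0 e + s • (fromBlocks 1 0 0 (-1))).det) =
          fun s : ℂ => (-1) ^ n * MvPolynomial.aeval ![s ^ 2, 1, -e ^ 2] R := by
        funext s
        rw [h2, hdet]
      rw [h3] at h1
      have h4 := (Ca_chain R (fun s => ![s ^ 2, 1, -e ^ 2]) ![2 * l, 0, 0] l (by
        intro k
        fin_cases k
        · have h7 := hasDerivAt_pow 2 l
          have h8 : ((2 : ℕ) : ℂ) * l ^ (2 - 1) = 2 * l := by simp
          rw [h8] at h7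
          exact h7
        · exact hasDerivAt_const _ _
        · exact hasDerivAt_const _ _)).const_mul ((-1 : ℂ) ^ n)
      have h5 := h4.unique h1
      rw [Fin.sum_univ_three, hval, Ca_real] at h5
      have h6 : ((val (MvPolynomial.pderiv 0 R) x 1 z : ℝ) : ℂ) * (2 * l) = 0 := by
        rcases mul_eq_zero.1 h5 with h | h
        · exact absurd h hpm
        · simpa using h
      rcases mul_eq_zero.1 h6 with h | h
      · exact_mod_cast h
      · exact absurd h (mul_ne_zero two_ne_zero hl0)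
    rcases eq_or_lt_of_le hz with hz0 | hz0
    · -- z = 0
      subst hz0
      have h1 := hline (x : ℂ)
      have h2 : (![(x : ℂ), 1, 0] : Fin 3 → ℂ) = ![(x : ℂ), ((1 : ℝ) : ℂ), ((0 : ℝ) : ℂ)] := by
        rw [Complex.ofReal_one, Complex.ofReal_zero]
      rw [h2, Ca_real, h0, Complex.ofReal_zero] at h1
      obtain ⟨i, _, hi⟩ := Finset.prod_eq_zero_iff.1 h1.symm
      have h3 : x = a i ^ 2 := by
        have : (x : ℂ) = ((a i ^ 2 : ℝ) : ℂ) := by
          rw [Complex.ofReal_pow]
          exact sub_eq_zero.1 hi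
        exact_mod_cast this
      rw [h3] at hX
      exact haX i hX
    · -- z < 0
      have he0 : e ≠ 0 := by
        rw [he]
        exact_mod_cast (Real.sqrt_pos.2 (by linarith)).ne'
      have hZ : val (MvPolynomial.pderiv 2 R) x 1 z = 0 := by
        have h1 := Ca_jac (HH A B l 0) (fromBlocks 0 B B 0) e
        have h2 : ∀ s : ℂ, HH A B l 0 + s • (fromBlocks 0 B B 0) = HH A B l s := by
          intro s
          rw [HH, HH, fromBlocks_smul, fromBlocks_add]
          congr 1
          · simp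
          · simp
          · simp
          · simp
        rw [h2, hadj, zero_mul, trace_zero] at h1
        have h3 : (fun s : ℂ => (HH A B l 0 + s • (fromBlocks 0 B B 0)).det) =
            fun s : ℂ => (-1) ^ n * MvPolynomial.aeval ![l ^ 2, 1, -s ^ 2] R := by
          funext s
          rw [h2, hdet]
        rw [h3] at h1
        have h4 := (Ca_chain R (fun s => ![l ^ 2, 1, -s ^ 2]) ![0, 0, -(2 * e)] e (by
          intro k
          fin_cases k
          · exact hasDerivAt_const _ _
          · exact hasDerivAt_const _ _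
          · have h7 := (hasDerivAt_pow 2 e).fun_neg
            have h8 : ((2 : ℕ) : ℂ) * e ^ (2 - 1) = 2 * e := by simp
            rw [h8] at h7
            exact h7)).const_mul ((-1 : ℂ) ^ n)
        have h5 := h4.unique h1
        rw [Fin.sum_univ_three, hval, Ca_real, Ca_real, Ca_real] at h5
        have h6 : ((val (MvPolynomial.pderiv 2 R) x 1 z : ℝ) : ℂ) * (-(2 * e)) = 0 := by
          rcases mul_eq_zero.1 h5 with h | h
          · exact absurd h hpm
          · simpa using h
        rcases mul_eq_zero.1 h6 with h | h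
        · exact_mod_cast h
        · exact absurd h (neg_ne_zero.2 (mul_ne_zero two_ne_zero he0))
      have hY : val (MvPolynomial.pderiv 1 R) x 1 z = 0 := by
        have h1 := hom.sum_X_mul_pderiv
        have h2 := congrArg (MvPolynomial.eval ![x, 1, z]) h1
        rw [Fin.sum_univ_three] at h2
        simp only [map_add, map_mul, MvPolynomial.eval_X, nsmul_eq_mul, map_natCast] at h2
        have h3 : val (MvPolynomial.pderiv 0 R) x 1 z * x + val (MvPolynomial.pderiv 1 R) x 1 z +
            z * val (MvPolynomial.pderiv 2 R) x 1 z = n * val R x 1 z := by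
          unfold val
          rw [← h2]
          simp
          ring
        rw [hX, hZ, h0] at h3
        linarith
      obtain ⟨k, hk⟩ := hSm ![(x : ℂ), ((1 : ℝ) : ℂ), (z : ℂ)] (by
        intro h
        have := congrFun h 1
        simp at this) (by rw [Ca_real, h0, Complex.ofReal_zero])
      apply hk
      rw [Ca_real]
      fin_cases k
      · exact_mod_cast hX
      · exact_mod_cast hY
      · exact_mod_cast hZ
  refine ⟨fun x z => (-1) ^ (n - 1) * (if 0 < t (x, z) then 1 else -1), ?_, ?_⟩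
  · intro x z hx hz h0
    refine ⟨?_, ?_⟩
    · rcases neg_one_pow_eq_or ℝ (n - 1) with h | h <;> simp only [h] <;> split_ifs <;> simp
    · rcases lt_or_gt_of_ne (hne x z hx hz h0) with h | h
      · filter_upwards [htc.continuousAt.eventually (gt_mem_nhds h)] with q hq _ _ _
        rw [if_neg (not_lt.2 hq.le), if_neg (not_lt.2 h.le)]
      · filter_upwards [htc.continuousAt.eventually (lt_mem_nhds h)] with q hq _ _ _
        rw [if_pos hq, if_pos h]
  · intro i
    have hw : a i * val (MvPolynomial.pderiv 0 R) (a i ^ 2) 1 0 ≠ 0 := mul_ne_zero (ha0 i) (haX i)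
    have ht : t (a i ^ 2, 0) = (-1) ^ (n - 1) *
        (2 * (a i * val (MvPolynomial.pderiv 0 R) (a i ^ 2) 1 0)) := by
      simp only [t]
      rw [htr, Complex.ofReal_re, hRX]
      have : ∏ j ∈ Finset.univ.erase i, (a j ^ 2 - a i ^ 2) =
          (-1) ^ (n - 1) * ∏ j ∈ Finset.univ.erase i, (a i ^ 2 - a j ^ 2) := by
        have hc : (Finset.univ.erase i).card = n - 1 := by
          rw [Finset.card_erase_of_mem (Finset.mem_univ i), Finset.card_univ, Fintype.card_fin]
        rw [← hc, ← Finset.prod_const, ← Finset.prod_mul_distrib]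
        refine Finset.prod_congr rfl fun j _ => ?_
        ring
      rw [this]
      ring
    show 0 < (-1) ^ (n - 1) * (if 0 < t (a i ^ 2, 0) then (1 : ℝ) else -1) *
      (a i * val (MvPolynomial.pderiv 0 R) (a i ^ 2) 1 0)
    rw [ht]
    rcases neg_one_pow_eq_or ℝ (n - 1) with h | h <;> rw [h] <;> split_ifs with h1
    · linarith
    · have : a i * val (MvPolynomial.pderiv 0 R) (a i ^ 2) 1 0 < 0 :=
        lt_of_le_of_ne (by linarith) hw
      linarith
    · linarith
    · have : 0 < a i * val (MvPolynomial.pderiv 0 R) (a i ^ 2) 1 0 :=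
        lt_of_le_of_ne (by linarith) hw.symm
      linarith

end Pool.Agent.RSV
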