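import Pool.Agent.RSV.StN

/-!
# RSV: closedness of the set of realizable triples
-/

set_option autoImplicit false

namespace Pool.Agent.RSV

open Filter Topology Module Matrix

/-- The entries of a Hermitian matrix are bounded by the sum of the absolute values of the eigenvalues. -/
private lemma Clo_bd {n : ℕ} {A : Matrix (Fin n) (Fin n) ℂ} {a : Fin n → ℝ} (h : HasEig A a)
    (i j : Fin n) : ‖A i j‖ ≤ ∑ k, |a k| := by
  obtain ⟨hA, hc⟩ := h
  have h1 := hA.charpoly_eq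
  rw [hc] at h1
  have h2 : Multiset.map (fun k => ((a k : ℝ) : ℂ)) Finset.univ.val
      = Multiset.map (fun k => ((hA.eigenvalues k : ℝ) : ℂ)) Finset.univ.val := by
    have h3 := congrArg Polynomial.roots h1
    rw [Polynomial.roots_prod _ _ (Finset.prod_ne_zero_iff.2 fun k _ => Polynomial.X_sub_C_ne_zero _),
      Polynomial.roots_prod _ _ (Finset.prod_ne_zero_iff.2 fun k _ => Polynomial.X_sub_C_ne_zero _)]
      at h3
    simpa [Polynomial.roots_X_sub_C, Multiset.bind_singleton] using h3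
  have h4 : ∑ k, |a k| = ∑ k, |hA.eigenvalues k| := by
    have h5 := congrArg (fun s => (Multiset.map (fun z : ℂ => ‖z‖) s).sum) h2
    simpa [Multiset.map_map, Finset.sum, Function.comp_def, Complex.norm_real] using h5
  rw [h4]
  set U : Matrix (Fin n) (Fin n) ℂ := (hA.eigenvectorUnitary : Matrix (Fin n) (Fin n) ℂ) with hU
  have hUm : U ∈ Matrix.unitaryGroup (Fin n) ℂ := hA.eigenvectorUnitary.2
  have hs : A = U * Matrix.diagonal (fun k => ((hA.eigenvalues k : ℝ) : ℂ)) * star U := by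
    have h6 := hA.spectral_theorem
    rw [Unitary.conjStarAlgAut_apply] at h6
    exact h6
  have he : A i j = ∑ k, U i k * ((hA.eigenvalues k : ℝ) : ℂ) * star (U j k) := by
    conv_lhs => rw [hs]
    rw [Matrix.mul_apply]
    refine Finset.sum_congr rfl fun k _ => ?_
    rw [Matrix.mul_diagonal]
    rfl
  rw [he]
  refine (norm_sum_le _ _).trans (Finset.sum_le_sum fun k _ => ?_)
  rw [norm_mul, norm_mul, norm_star, Complex.norm_real, Real.norm_eq_abs]
  have e1 := entry_norm_bound_of_unitary hUm i k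
  have e2 := entry_norm_bound_of_unitary hUm j k
  have e3 := abs_nonneg (hA.eigenvalues k)
  nlinarith [norm_nonneg (U i k), norm_nonneg (U j k), mul_le_mul e1 e2 (norm_nonneg _) zero_le_one,
    mul_nonneg (norm_nonneg (U i k)) (norm_nonneg (U j k))]

/-- Limits of matrices with prescribed eigenvalues. -/
private lemma Clo_lim {n : ℕ} {A : ℕ → Matrix (Fin n) (Fin n) ℂ} {A0 : Matrix (Fin n) (Fin n) ℂ}
    {a : ℕ → Fin n → ℝ} {a0 : Fin n → ℝ} (hA : Tendsto A atTop (𝓝 A0))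
    (ha : Tendsto a atTop (𝓝 a0)) (h : ∀ m, HasEig (A m) (a m)) : HasEig A0 a0 := by
  constructor
  · have h1 : Tendsto (fun m => (A m)ᴴ) atTop (𝓝 (A0ᴴ)) := (continuous_star.tendsto A0).comp hA
    have h2 : (fun m => (A m)ᴴ) = A := by
      ext1 m; exact (h m).1
    rw [h2] at h1
    exact tendsto_nhds_unique h1 hA
  · apply Polynomial.funext
    intro t
    rw [Matrix.eval_charpoly, Polynomial.eval_prod]
    simp only [Polynomial.eval_sub, Polynomial.eval_X, Polynomial.eval_C]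
    have h1 : Tendsto (fun m => (Matrix.scalar (Fin n) t - A m).det) atTop
        (𝓝 ((Matrix.scalar (Fin n) t - A0).det)) := by
      have hc : Continuous fun M : Matrix (Fin n) (Fin n) ℂ => (Matrix.scalar (Fin n) t - M).det :=
        Continuous.matrix_det (continuous_const.sub continuous_id)
      exact (hc.tendsto A0).comp hA
    have h2 : Tendsto (fun m => ∏ i, (t - ((a m i : ℝ) : ℂ))) atTop
        (𝓝 (∏ i, (t - ((a0 i : ℝ) : ℂ)))) := by
      refine tendsto_finsetProd _ fun i _ => tendsto_const_nhds.sub ?_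
      exact (Complex.continuous_ofReal.tendsto _).comp ((tendsto_pi_nhds.1 ha) i)
    have h3 : (fun m => (Matrix.scalar (Fin n) t - A m).det)
        = fun m => ∏ i, (t - ((a m i : ℝ) : ℂ)) := by
      ext1 m
      rw [← Matrix.eval_charpoly, (h m).2, Polynomial.eval_prod]
      simp
    rw [h3] at h1
    exact tendsto_nhds_unique h1 h2

/-- Bounded sequences of matrices have convergent subsequences. -/
private lemma Clo_sub {n : ℕ} {A : ℕ → Matrix (Fin n) (Fin n) ℂ} {R : ℝ}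
    (h : ∀ m i j, ‖A m i j‖ ≤ R) : ∃ (A0 : Matrix (Fin n) (Fin n) ℂ) (φ : ℕ → ℕ), StrictMono φ ∧
      Tendsto (fun m => A (φ m)) atTop (𝓝 A0) := by
  have hK : IsCompact (Set.pi Set.univ fun _ : Fin n => Set.pi Set.univ fun _ : Fin n =>
      Metric.closedBall (0 : ℂ) R) :=
    isCompact_univ_pi fun _ => isCompact_univ_pi fun _ => isCompact_closedBall _ _
  have key : ∀ (K : Set (Fin n → Fin n → ℂ)), IsCompact K → (∀ m, (A m : Fin n → Fin n → ℂ) ∈ K) →
      ∃ (A0 : Fin n → Fin n → ℂ) (φ : ℕ → ℕ), StrictMono φ ∧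
        Tendsto (fun m => (A (φ m) : Fin n → Fin n → ℂ)) atTop (𝓝 A0) := by
    intro K hK hA
    obtain ⟨A0, -, φ, hφ, hl⟩ := IsCompact.tendsto_subseq (X := Fin n → Fin n → ℂ) hK hA
    exact ⟨A0, φ, hφ, hl⟩
  obtain ⟨A0, φ, hφ, hl⟩ := key _ hK (fun m i _ j _ => by
      rw [mem_closedBall_zero_iff]
      exact h m i j)
  exact ⟨A0, φ, hφ, hl⟩

/-- convergent sequences of vectors are bounded in the sum norm -/
private lemma Clo_sb {n : ℕ} {a : ℕ → Fin n → ℝ} {a0 : Fin n → ℝ} (ha : Tendsto a atTop (𝓝 a0)) :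
    ∃ R : ℝ, ∀ m, ∑ k, |a m k| ≤ R := by
  have hc : Continuous fun v : Fin n → ℝ => ∑ k, |v k| := by fun_prop
  have h1 : Tendsto (fun m => ∑ k, |a m k|) atTop (𝓝 (∑ k, |a0 k|)) := (hc.tendsto a0).comp ha
  obtain ⟨R, hR⟩ := h1.bddAbove_range
  exact ⟨R, fun m => hR ⟨m, rfl⟩⟩

/-- [Clo] -/
theorem thm_Clo : St_Clo := by
  intro n
  apply IsSeqClosed.isClosed
  intro p p0 hp hlim
  have hp' : ∀ m, Rz (p m).1 (p m).2.1 (p m).2.2 := hp
  choose A B hA hB hS using hp'
  have l1 : Tendsto (fun m => (p m).1) atTop (𝓝 p0.1) := (continuous_fst.tendsto p0).comp hlim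
  have l2 : Tendsto (fun m => (p m).2.1) atTop (𝓝 p0.2.1) :=
    ((continuous_fst.comp continuous_snd).tendsto p0).comp hlim
  have l3 : Tendsto (fun m => (p m).2.2) atTop (𝓝 p0.2.2) :=
    ((continuous_snd.comp continuous_snd).tendsto p0).comp hlim
  obtain ⟨R1, hR1⟩ := Clo_sb l1
  obtain ⟨R2, hR2⟩ := Clo_sb l2
  obtain ⟨A0, φ, hφ, hA0⟩ := Clo_sub (A := A) (R := R1)
    (fun m i j => (Clo_bd (hA m) i j).trans (hR1 m))
  obtain ⟨B0, ψ, hψ, hB0⟩ := Clo_sub (A := fun m => B (φ m)) (R := R2)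
    (fun m i j => (Clo_bd (hB (φ m)) i j).trans (hR2 (φ m)))
  have hχ : Tendsto (fun m => φ (ψ m)) atTop atTop := hφ.tendsto_atTop.comp hψ.tendsto_atTop
  have hA1 : Tendsto (fun m => A (φ (ψ m))) atTop (𝓝 A0) := hA0.comp hψ.tendsto_atTop
  have hT : Tendsto (fun m => A (φ (ψ m)) + Complex.I • B (φ (ψ m))) atTop
      (𝓝 (A0 + Complex.I • B0)) := hA1.add (hB0.const_smul Complex.I)
  have hTT : Tendsto (fun m => (A (φ (ψ m)) + Complex.I • B (φ (ψ m)))ᴴ *
      (A (φ (ψ m)) + Complex.I • B (φ (ψ m)))) atTop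
      (𝓝 ((A0 + Complex.I • B0)ᴴ * (A0 + Complex.I • B0))) :=
    ((continuous_star.tendsto _).comp hT).mul hT
  have hs : Tendsto (fun m => fun i => (p (φ (ψ m))).2.2 i ^ 2) atTop
      (𝓝 (fun i => p0.2.2 i ^ 2)) := by
    rw [tendsto_pi_nhds]
    intro i
    exact ((tendsto_pi_nhds.1 (l3.comp hχ)) i).pow 2
  refine ⟨A0, B0, Clo_lim hA1 (l1.comp hχ) (fun m => hA _),
    Clo_lim hB0 (l2.comp hχ) (fun m => hB _), ?_, Clo_lim hTT hs (fun m => (hS _).2)⟩
  intro i
  exact ge_of_tendsto' ((tendsto_pi_nhds.1 (l3.comp hχ)) i) (fun m => (hS _).1 i)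

end Pool.Agent.RSV
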