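import Pool.Agent.RSV.StA

/-!
# RSV, module Cz : common zeros of forms

Statement and proof: see `St_Cz` in `Pool/Agent/RSV/StA.lean`.  (The proof follows the module
`Pool/Agent/AQS/C6.lean` of helper36.)
-/

set_option autoImplicit false
set_option linter.unusedSectionVars false

namespace Pool.Agent.RSV

section Czaux

open MvPolynomial

variable {K : Type} [Field K] {N : ℕ}

/-- set the first `j` variables to zero -/
private noncomputable def Cz_ev (K : Type) [Field K] (N j : ℕ) :
    MvPolynomial (Fin N) K →ₐ[K] MvPolynomial (Fin N) K :=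
  aeval (fun i : Fin N => if (i : ℕ) < j then 0 else X i)

private noncomputable def Cz_P (K : Type) [Field K] (N j : ℕ) : Ideal (MvPolynomial (Fin N) K) :=
  RingHom.ker (Cz_ev K N j)

private instance Cz_prime (j : ℕ) : (Cz_P K N j).IsPrime := RingHom.ker_isPrime _

private theorem Cz_comp (j : ℕ) (f : MvPolynomial (Fin N) K) :
    Cz_ev K N (j + 1) (Cz_ev K N j f) = Cz_ev K N (j + 1) f := by
  have h : (Cz_ev K N (j + 1)).comp (Cz_ev K N j) = Cz_ev K N (j + 1) := by
    refine MvPolynomial.algHom_ext fun i => ?_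
    rw [AlgHom.comp_apply]
    by_cases hi : (i : ℕ) < j
    · have hi' : (i : ℕ) < j + 1 := by omega
      simp only [Cz_ev, aeval_X, if_pos hi, if_pos hi', map_zero]
    · simp [Cz_ev, hi]
  exact congrArg (fun φ => φ f) h

private theorem Cz_lt (j : ℕ) (hj : j < N) : Cz_P K N j < Cz_P K N (j + 1) := by
  refine lt_of_le_of_ne (fun f hf => ?_) fun he => ?_
  · rw [Cz_P, RingHom.mem_ker] at hf ⊢
    have h1 := Cz_comp j f
    rw [hf, map_zero] at h1
    exact h1.symm
  · have h1 : (X (⟨j, hj⟩ : Fin N) : MvPolynomial (Fin N) K) ∈ Cz_P K N (j + 1) := by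
      rw [Cz_P, RingHom.mem_ker]
      simp [Cz_ev]
    rw [← he, Cz_P, RingHom.mem_ker] at h1
    have h2 : Cz_ev K N j (X (⟨j, hj⟩ : Fin N)) = X (⟨j, hj⟩ : Fin N) := by
      simp [Cz_ev]
    rw [h2] at h1
    exact X_ne_zero _ h1

private theorem Cz_height (j : ℕ) (hj : j ≤ N) : (j : ℕ∞) ≤ (Cz_P K N j).height := by
  induction j with
  | zero => simp
  | succ j ih =>
    have h1 := ih (by omega)
    have h2 : (Cz_P K N j).height + 1 ≤ (Cz_P K N (j + 1)).height :=
      Ideal.height_add_one_le_of_lt_of_isPrime (Cz_lt j (by omega))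
    push_cast
    exact le_trans (by gcongr) h2

end Czaux

open MvPolynomial in
private theorem Cz_main (K : Type) [Field K] [IsAlgClosed K] (N r : ℕ) (hr : r < N)
    (g : Fin r → MvPolynomial (Fin N) K) (hg : ∀ i, constantCoeff (g i) = 0) :
    ∃ x : Fin N → K, x ≠ 0 ∧ ∀ i, eval x (g i) = 0 := by
  by_contra hc
  push Not at hc
  -- the maximal ideal of the origin
  have hker : ∀ f : MvPolynomial (Fin N) K, f ∈ Cz_P K N N ↔ eval (0 : Fin N → K) f = 0 := by
    intro f
    rw [Cz_P, RingHom.mem_ker]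
    have h1 : Cz_ev K N N f = C (eval (0 : Fin N → K) f) := by
      have h2 : Cz_ev K N N = (Algebra.ofId K (MvPolynomial (Fin N) K)).comp
          (aeval (0 : Fin N → K)) := by
        refine MvPolynomial.algHom_ext fun i => ?_
        rw [AlgHom.comp_apply]
        simp [Cz_ev]
      rw [h2, AlgHom.comp_apply, aeval_eq_eval]
      rfl
    rw [h1, C_eq_zero]
  have hle : Ideal.span (Set.range g) ≤ Cz_P K N N := by
    rw [Ideal.span_le]
    rintro _ ⟨i, rfl⟩
    rw [SetLike.mem_coe, hker]
    have := hg i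
    rw [constantCoeff_eq] at this
    rw [← this, ← constantCoeff_eq, ← eval_zero]
  obtain ⟨q, hq, hqm⟩ := Ideal.exists_minimalPrimes_le hle
  have hqp : q.IsPrime := hq.1.1
  have h1 : q.height ≤ (Set.range g).ncard :=
    Ideal.height_le_card_of_mem_minimalPrimes_span (Set.finite_range g) hq
  have h2 : (Set.range g).ncard ≤ r := by
    have := Set.ncard_image_le (Set.finite_univ (α := Fin r)) (f := g)
    rw [Set.image_univ, Set.ncard_univ, Nat.card_eq_fintype_card, Fintype.card_fin] at this
    exact this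
  have h3 : (N : ℕ∞) ≤ (Cz_P K N N).height := Cz_height N le_rfl
  have hz : zeroLocus K q ⊆ ({0} : Set (Fin N → K)) := by
    intro x hx
    by_contra hx0
    obtain ⟨i, hi⟩ := hc x hx0
    refine hi ?_
    have := hx (g i) (hq.1.2 (Ideal.subset_span ⟨i, rfl⟩))
    rwa [aeval_eq_eval] at this
  have h4 : Cz_P K N N ≤ q := by
    have h5 := IsPrime.vanishingIdeal_zeroLocus (K := K) q
    rw [← h5]
    intro f hf
    rw [mem_vanishingIdeal_iff]
    intro x hx
    have hx' := hz hx
    rw [Set.mem_singleton_iff] at hx'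
    rw [hx', aeval_eq_eval]
    exact (hker f).1 hf
  have h5 : (N : ℕ∞) ≤ r := by
    refine le_trans h3 (le_trans (Ideal.height_mono h4) (le_trans h1 ?_))
    exact_mod_cast h2
  have h6 : N ≤ r := by exact_mod_cast h5
  omega


open MvPolynomial in
theorem thm_Cz : St_Cz := by
  intro N r f hr hf
  refine Cz_main ℂ N r hr f fun i => ?_
  obtain ⟨d, hd, hh⟩ := hf i
  rw [constantCoeff_eq]
  exact hh.coeff_eq_zero (by rw [map_zero]; omega)

end Pool.Agent.RSV
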