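import Pool.Agent.RSV.StN

/-!
# RSV, module Eig: continuity of eigenvalues and of singular values as tuples
-/

set_option autoImplicit false

namespace Pool.Agent.RSV

open Filter Topology Matrix Polynomial
open scoped ComplexConjugate ComplexOrder

/-- two monotone tuples with the same product are equal -/
private lemma Eig_unique {n : ℕ} {a b : Fin n → ℝ} (ha : Monotone a) (hb : Monotone b)
    (h : ∏ i, (X - C (a i : ℂ)) = ∏ i, (X - C (b i : ℂ))) : a = b := by
  have h1 : ∀ c : Fin n → ℝ, (∏ i, (X - C (c i : ℂ))).roots =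
      Multiset.map (fun i => (c i : ℂ)) Finset.univ.val := by
    intro c
    have h2 : ∏ i, (X - C (c i : ℂ)) =
        (Multiset.map (fun z => X - C z)
          (Multiset.map (fun i => (c i : ℂ)) Finset.univ.val)).prod := by
      rw [Multiset.map_map]
      rfl
    rw [h2, roots_multiset_prod_X_sub_C]
  have h3 : Multiset.map (fun i => (a i : ℂ)) Finset.univ.val =
      Multiset.map (fun i => (b i : ℂ)) Finset.univ.val := by
    rw [← h1 a, ← h1 b, h]
  have h4 : Multiset.map a Finset.univ.val = Multiset.map b Finset.univ.val := by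
    have h5 := congrArg (Multiset.map Complex.re) h3
    simpa [Multiset.map_map, Function.comp_def] using h5
  have h6 : (List.ofFn a).Perm (List.ofFn b) := by
    rw [← Multiset.coe_eq_coe, ← Fin.univ_val_map, ← Fin.univ_val_map]
    exact h4
  exact List.ofFn_injective
    (h6.eq_of_pairwise' ha.sortedLE_ofFn.pairwise hb.sortedLE_ofFn.pairwise)

/-- a bound for the eigenvalues -/
private noncomputable def Eig_F {n : ℕ} (M : Matrix (Fin n) (Fin n) ℂ) : ℝ :=
  ∑ i, ∑ j, ‖M i j‖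

private lemma Eig_F_cont {n : ℕ} : Continuous (Eig_F (n := n)) := by
  unfold Eig_F
  fun_prop

private lemma Eig_bound {n : ℕ} {M : Matrix (Fin n) (Fin n) ℂ} {a : Fin n → ℝ}
    (h : HasEig M a) (i : Fin n) : |a i| ≤ Eig_F M := by
  by_contra hc
  push Not at hc
  have h1 : (Matrix.scalar (Fin n) (a i : ℂ) - M).det = 0 := by
    rw [← eval_charpoly, h.2, eval_prod]
    exact Finset.prod_eq_zero (Finset.mem_univ i) (by simp)
  refine absurd h1 (det_ne_zero_of_sum_row_lt_diag (fun k => ?_))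
  have h2 : ∀ j ∈ Finset.univ.erase k, ‖(Matrix.scalar (Fin n) (a i : ℂ) - M) k j‖ = ‖M k j‖ := by
    intro j hj
    have hj' : k ≠ j := (Finset.ne_of_mem_erase hj).symm
    simp [Matrix.sub_apply, Matrix.diagonal_apply_ne _ hj']
  rw [Finset.sum_congr rfl h2]
  have h3 : ‖(Matrix.scalar (Fin n) (a i : ℂ) - M) k k‖ = ‖(a i : ℂ) - M k k‖ := by
    simp [Matrix.sub_apply]
  rw [h3]
  have h4 : ∑ j, ‖M k j‖ ≤ Eig_F M :=
    Finset.single_le_sum (f := fun k => ∑ j, ‖M k j‖)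
      (fun k _ => Finset.sum_nonneg (fun j _ => norm_nonneg _)) (Finset.mem_univ k)
  have h5 : ‖M k k‖ + ∑ j ∈ Finset.univ.erase k, ‖M k j‖ = ∑ j, ‖M k j‖ :=
    Finset.add_sum_erase _ (fun j => ‖M k j‖) (Finset.mem_univ k)
  have h6 : ‖(a i : ℂ)‖ = |a i| := Complex.norm_real _
  have h7 : ‖(a i : ℂ)‖ - ‖M k k‖ ≤ ‖(a i : ℂ) - M k k‖ := norm_sub_norm_le _ _
  linarith

/-- every Hermitian matrix has a monotone tuple of eigenvalues -/
private lemma Eig_exists {n : ℕ} {M : Matrix (Fin n) (Fin n) ℂ} (hM : M.IsHermitian) :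
    ∃ a : Fin n → ℝ, Monotone a ∧ HasEig M a := by
  refine ⟨hM.eigenvalues ∘ Tuple.sort hM.eigenvalues, Tuple.monotone_sort _, hM, ?_⟩
  rw [hM.charpoly_eq]
  exact (Equiv.prod_comp (Tuple.sort hM.eigenvalues)
    (fun i => X - C (hM.eigenvalues i : ℂ))).symm

/-- the limit of eigenvalues is an eigenvalue tuple -/
private lemma Eig_lim {n : ℕ} {M : ℕ → Matrix (Fin n) (Fin n) ℂ}
    {M₀ : Matrix (Fin n) (Fin n) ℂ} {α : ℕ → Fin n → ℝ} {b : Fin n → ℝ}
    (hM : Tendsto M atTop (𝓝 M₀)) (hα : ∀ m, HasEig (M m) (α m))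
    (hb : Tendsto α atTop (𝓝 b)) : M₀.charpoly = ∏ i, (X - C (b i : ℂ)) := by
  refine Polynomial.funext (fun u => ?_)
  have h1 : Tendsto (fun m => (M m).charpoly.eval u) atTop (𝓝 (M₀.charpoly.eval u)) := by
    simp only [eval_charpoly]
    have h2 : Continuous (fun N : Matrix (Fin n) (Fin n) ℂ => (Matrix.scalar (Fin n) u - N).det) := by
      fun_prop
    exact (h2.tendsto M₀).comp hM
  have h3 : Tendsto (fun m => (M m).charpoly.eval u) atTop
      (𝓝 ((∏ i, (X - C (b i : ℂ))).eval u)) := by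
    have h4 : ∀ m, (M m).charpoly.eval u = ∏ i, (u - (α m i : ℂ)) := by
      intro m
      rw [(hα m).2, eval_prod]
      simp
    simp only [h4]
    rw [eval_prod]
    have h5 : Continuous (fun c : Fin n → ℝ => ∏ i, (u - (c i : ℂ))) := by fun_prop
    have h6 := (h5.tendsto b).comp hb
    simpa [Function.comp_def] using h6
  exact tendsto_nhds_unique h1 h3

private lemma Eig_sorted {n : ℕ} {M : ℕ → Matrix (Fin n) (Fin n) ℂ}
    {M₀ : Matrix (Fin n) (Fin n) ℂ} {α : ℕ → Fin n → ℝ} {a : Fin n → ℝ}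
    (hM : Tendsto M atTop (𝓝 M₀)) (hα : ∀ m, HasEig (M m) (α m)) (hmα : ∀ m, Monotone (α m))
    (ha : HasEig M₀ a) (hma : Monotone a) : Tendsto α atTop (𝓝 a) := by
  obtain ⟨R, hR⟩ := ((Eig_F_cont.tendsto M₀).comp hM).bddAbove_range
  have hI : IsCompact (Set.Icc (fun _ : Fin n => -R) (fun _ : Fin n => R)) := isCompact_Icc
  have hmem : ∀ m, α m ∈ Set.Icc (fun _ : Fin n => -R) (fun _ : Fin n => R) := by
    intro m
    have h1 : ∀ i, |α m i| ≤ R := fun i => (Eig_bound (hα m) i).trans (hR ⟨m, rfl⟩)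
    exact ⟨fun i => (abs_le.1 (h1 i)).1, fun i => (abs_le.1 (h1 i)).2⟩
  refine tendsto_of_subseq_tendsto (fun ns hns => ?_)
  obtain ⟨b, -, φ, hφ, hl⟩ := hI.tendsto_subseq (x := α ∘ ns) (fun m => hmem _)
  refine ⟨φ, ?_⟩
  have hl' : Tendsto (fun m => α (ns (φ m))) atTop (𝓝 b) := hl
  have h2 := Eig_lim (hM.comp (hns.comp hφ.tendsto_atTop)) (fun m => hα (ns (φ m))) hl'
  have h3 : Monotone b := by
    intro i j hij
    exact le_of_tendsto_of_tendsto' ((tendsto_pi_nhds.1 hl') i) ((tendsto_pi_nhds.1 hl') j)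
      (fun m => hmα _ hij)
  have h4 : b = a := Eig_unique h3 hma (h2.symm.trans ha.2)
  rw [← h4]
  exact hl'

private lemma Eig_first (n : ℕ) (M : ℕ → Matrix (Fin n) (Fin n) ℂ)
    (M₀ : Matrix (Fin n) (Fin n) ℂ) (a : Fin n → ℝ) (hH : ∀ m, (M m).IsHermitian)
    (hM : Tendsto M atTop (𝓝 M₀)) (ha : HasEig M₀ a) :
    ∃ a' : ℕ → Fin n → ℝ, (∀ m, HasEig (M m) (a' m)) ∧ Tendsto a' atTop (𝓝 a) := by
  choose α hmα hα using fun m => Eig_exists (hH m)
  have h1 : HasEig M₀ (a ∘ Tuple.sort a) := by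
    refine ⟨ha.1, ?_⟩
    rw [ha.2]
    exact (Equiv.prod_comp (Tuple.sort a) (fun i => X - C (a i : ℂ))).symm
  have h2 := Eig_sorted hM hα hmα h1 (Tuple.monotone_sort a)
  refine ⟨fun m => α m ∘ (Tuple.sort a).symm, fun m => ⟨hH m, ?_⟩, ?_⟩
  · rw [(hα m).2]
    exact (Equiv.prod_comp (Tuple.sort a).symm (fun i => X - C (α m i : ℂ))).symm
  · rw [tendsto_pi_nhds] at h2 ⊢
    intro i
    have h3 := h2 ((Tuple.sort a).symm i)
    simpa using h3

theorem thm_Eig : St_Eig := by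
  refine ⟨Eig_first, ?_⟩
  intro n T T₀ s hT hs
  have hc : Continuous (fun N : Matrix (Fin n) (Fin n) ℂ => Nᴴ * N) := by fun_prop
  obtain ⟨a', h1, h2⟩ := Eig_first n (fun m => (T m)ᴴ * T m) (T₀ᴴ * T₀) (fun i => s i ^ 2)
    (fun m => isHermitian_conjTranspose_mul_self _) ((hc.tendsto T₀).comp hT) hs.2
  have h3 : ∀ m i, 0 ≤ a' m i := by
    intro m i
    have hp := posSemidef_conjTranspose_mul_self (T m)
    have h4 : ((T m)ᴴ * T m).charpoly.eval (a' m i : ℂ) = 0 := by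
      rw [(h1 m).2, eval_prod]
      exact Finset.prod_eq_zero (Finset.mem_univ i) (by simp)
    rw [hp.1.charpoly_eq, eval_prod, Finset.prod_eq_zero_iff] at h4
    obtain ⟨j, -, hj⟩ := h4
    have h5 : (a' m i : ℂ) = (hp.1.eigenvalues j : ℂ) := by
      simpa [sub_eq_zero] using hj
    have h6 : a' m i = hp.1.eigenvalues j := by exact_mod_cast h5
    rw [h6]
    exact hp.eigenvalues_nonneg j
  refine ⟨fun m i => √(a' m i), fun m => ⟨fun i => Real.sqrt_nonneg _, ?_⟩, ?_⟩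
  · have h4 : (fun i => √(a' m i) ^ 2) = a' m := by
      funext i
      exact Real.sq_sqrt (h3 m i)
    show HasEig _ (fun i => √(a' m i) ^ 2)
    rw [h4]
    exact h1 m
  · rw [tendsto_pi_nhds] at h2 ⊢
    intro i
    have h4 := (Real.continuous_sqrt.tendsto _).comp (h2 i)
    rw [Real.sqrt_sq (hs.1 i)] at h4
    exact h4

end Pool.Agent.RSV
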