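import Pool.Agent.RSV.StN

/-!
# RSV Ex (helper37): a good form whose restriction to `X = 0` is smooth (MP_08a990_an)
-/

set_option autoImplicit false

namespace Pool.Agent.RSV

open Filter Topology Module
open scoped ComplexConjugate

/-! ### the polynomial in one variable -/

private theorem Ex_deg {n : ℕ} {R : TP} (hR : R.IsHomogeneous n) (d : Fin 3 →₀ ℕ)
    (hd : d ∈ R.support) : d 0 + d 1 + d 2 = n := by
  by_contra hne
  have h0 : d.degree ≠ n := by
    rw [Finsupp.degree_eq_sum, Fin.sum_univ_three]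
    exact hne
  exact (MvPolynomial.mem_support_iff.mp hd) (hR.coeff_eq_zero h0)

/-- `R (t, y, z)` as a polynomial in `t` -/
private noncomputable def Ex_p (R : TP) (y z : ℝ) : Polynomial ℝ :=
  MvPolynomial.aeval ![Polynomial.X, Polynomial.C y, Polynomial.C z] R

private theorem Ex_p_eval (R : TP) (x y z : ℝ) : (Ex_p R y z).eval x = val R x y z := by
  unfold Ex_p val
  induction R using MvPolynomial.induction_on with
  | C r => simp
  | add p q hp hq => simp only [map_add, Polynomial.eval_add, hp, hq]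
  | mul_X p i hp =>
    rw [map_mul, map_mul, Polynomial.eval_mul, hp]
    fin_cases i <;> simp

private theorem Ex_p_der (R : TP) (y z : ℝ) :
    (Ex_p R y z).derivative = Ex_p (MvPolynomial.pderiv 0 R) y z := by
  unfold Ex_p
  induction R using MvPolynomial.induction_on with
  | C r => simp
  | add p q hp hq => simp only [map_add, hp, hq]
  | mul_X p i hp =>
    rw [map_mul, Polynomial.derivative_mul, hp, Derivation.leibniz]
    fin_cases i
    · simp
      ring
    · simp [mul_comm]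
    · simp [mul_comm]

private theorem Ex_p_sum (R : TP) (y z : ℝ) : Ex_p R y z =
    ∑ d ∈ R.support, Polynomial.C (MvPolynomial.coeff d R * (y ^ d 1 * z ^ d 2)) *
      Polynomial.X ^ d 0 := by
  unfold Ex_p
  rw [MvPolynomial.aeval_def, MvPolynomial.eval₂_eq']
  refine Finset.sum_congr rfl fun d _ => ?_
  rw [Fin.prod_univ_three]
  show Polynomial.C (MvPolynomial.coeff d R) *
    (Polynomial.X ^ d 0 * Polynomial.C y ^ d 1 * Polynomial.C z ^ d 2) = _
  simp only [map_mul, map_pow]
  ring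

private theorem Ex_p_coeff {n : ℕ} {R : TP} (hR : R.IsHomogeneous n) (y z : ℝ) :
    (Ex_p R y z).coeff n = MvPolynomial.coeff (Finsupp.single 0 n) R := by
  rw [Ex_p_sum, Polynomial.finsetSum_coeff]
  simp only [Polynomial.coeff_C_mul_X_pow]
  rw [Finset.sum_eq_single (Finsupp.single (0 : Fin 3) n)]
  · simp
  · intro d hd hne
    rw [if_neg]
    intro h
    have h1 := Ex_deg hR d hd
    apply hne
    ext i
    fin_cases i
    · simpa using h.symm
    · have : d 1 = 0 := by omega
      simpa using this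
    · have : d 2 = 0 := by omega
      simpa using this
  · intro h
    rw [MvPolynomial.notMem_support_iff.mp h]
    simp

private theorem Ex_p_le {n : ℕ} {R : TP} (hR : R.IsHomogeneous n) (y z : ℝ) :
    (Ex_p R y z).natDegree ≤ n := by
  rw [Polynomial.natDegree_le_iff_coeff_eq_zero]
  intro N hN
  rw [Ex_p_sum, Polynomial.finsetSum_coeff]
  refine Finset.sum_eq_zero fun d hd => ?_
  rw [Polynomial.coeff_C_mul_X_pow, if_neg]
  have := Ex_deg hR d hd
  omega

private theorem Ex_one {n : ℕ} {R : TP} (hR : R.IsHomogeneous n) (h1 : val R 1 0 0 = 1) :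
    MvPolynomial.coeff (Finsupp.single 0 n) R = 1 := by
  have h2 := Ex_p_coeff hR 0 0
  have h3 : Ex_p R 0 0 = Polynomial.C (MvPolynomial.coeff (Finsupp.single 0 n) R) *
      Polynomial.X ^ n := by
    rw [Ex_p_sum]
    rw [Finset.sum_eq_single (Finsupp.single (0 : Fin 3) n)]
    · simp
    · intro d hd hne
      have h4 := Ex_deg hR d hd
      have h5 : d 1 ≠ 0 ∨ d 2 ≠ 0 := by
        by_contra hcon
        push Not at hcon
        apply hne
        ext i
        fin_cases i
        · have : d 0 = n := by omega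
          simpa using this
        · simpa using hcon.1
        · simpa using hcon.2
      rcases h5 with h5 | h5
      · rw [zero_pow h5]
        simp
      · rw [zero_pow h5]
        simp
    · intro h
      rw [MvPolynomial.notMem_support_iff.mp h]
      simp
  have h4 := Ex_p_eval R 1 0 0
  rw [h3, h1] at h4
  simpa using h4

private theorem Ex_p_monic {n : ℕ} {R : TP} (hR : R.IsHomogeneous n) (h1 : val R 1 0 0 = 1)
    (y z : ℝ) : (Ex_p R y z).Monic ∧ (Ex_p R y z).natDegree = n := by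
  have hc : (Ex_p R y z).coeff n = 1 := by rw [Ex_p_coeff hR, Ex_one hR h1]
  have hle := Ex_p_le hR y z
  refine ⟨Polynomial.monic_of_natDegree_le_of_coeff_eq_one n hle hc, le_antisymm hle ?_⟩
  apply Polynomial.le_natDegree_of_ne_zero
  rw [hc]
  exact one_ne_zero

/-- all roots are simple -/
private theorem Ex_prod {n : ℕ} {R : TP} (hR : R.IsHomogeneous n) (h1 : val R 1 0 0 = 1)
    (y z : ℝ) (f : Fin n → ℝ) (hf : Function.Injective f) (h0 : ∀ k, val R (f k) y z = 0) :
    Ex_p R y z = ∏ k, (Polynomial.X - Polynomial.C (f k)) := by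
  obtain ⟨hm, hd⟩ := Ex_p_monic hR h1 y z
  have hdvd : (∏ k, (Polynomial.X - Polynomial.C (f k))) ∣ Ex_p R y z := by
    refine Finset.prod_dvd_of_coprime ?_ ?_
    · intro i _ j _ hij
      exact Polynomial.pairwise_coprime_X_sub_C hf hij
    · intro i _
      rw [Polynomial.dvd_iff_isRoot, Polynomial.IsRoot, Ex_p_eval]
      exact h0 i
  refine Polynomial.eq_of_monic_of_dvd_of_natDegree_le ?_ hm hdvd ?_
  · exact Polynomial.monic_prod_of_monic _ _ fun i _ => Polynomial.monic_X_sub_C _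
  · rw [hd, Polynomial.natDegree_prod_of_monic _ _ fun i _ => Polynomial.monic_X_sub_C _]
    simp only [Polynomial.natDegree_X_sub_C, Finset.sum_const, Finset.card_univ,
      Fintype.card_fin, smul_eq_mul, mul_one, le_refl]

private theorem Ex_simple {n : ℕ} {R : TP} (hR : R.IsHomogeneous n) (h1 : val R 1 0 0 = 1)
    (y z : ℝ) (f : Fin n → ℝ) (hf : Function.Injective f) (h0 : ∀ k, val R (f k) y z = 0)
    (x : ℝ) (hx : val R x y z = 0) : val (MvPolynomial.pderiv 0 R) x y z ≠ 0 := by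
  have hs : (Ex_p R y z).Separable := by
    rw [Ex_prod hR h1 y z f hf h0]
    exact Polynomial.separable_prod_X_sub_C_iff.2 hf
  have h2 := hs.aeval_derivative_ne_zero (x := x) (by
    rw [Polynomial.coe_aeval_eq_eval, Ex_p_eval]
    exact hx)
  rw [Polynomial.coe_aeval_eq_eval, Ex_p_der, Ex_p_eval] at h2
  exact h2

/-- the square roots of the roots -/
private theorem Ex_sqrt {n : ℕ} {R : TP} (hR : R.IsHomogeneous n) (h1 : val R 1 0 0 = 1)
    (y z : ℝ) (f : Fin n → ℝ) (hf : Function.Injective f) (h0 : ∀ k, val R (f k) y z = 0)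
    (hpos : ∀ k, 0 < f k) : ∃ a : Fin n → ℝ, (∀ i, 0 < a i) ∧
      (∀ t, val R t y z = ∏ i, (t - a i ^ 2)) ∧ ∀ i, val R (a i ^ 2) y z = 0 := by
  refine ⟨fun i => √(f i), fun i => Real.sqrt_pos.2 (hpos i), ?_, ?_⟩
  · intro t
    rw [← Ex_p_eval, Ex_prod hR h1 y z f hf h0, Polynomial.eval_prod]
    refine Finset.prod_congr rfl fun i _ => ?_
    rw [Polynomial.eval_sub, Polynomial.eval_X, Polynomial.eval_C, Real.sq_sqrt (hpos i).le]
  · intro i
    show val R (√(f i) ^ 2) y z = 0
    rw [Real.sq_sqrt (hpos i).le]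
    exact h0 i

/-! ### the sign rule -/

private theorem Ex_cont (F : TP) : Continuous fun q : ℝ × ℝ => val F q.1 1 q.2 := by
  unfold val
  induction F using MvPolynomial.induction_on with
  | C r => simpa using continuous_const
  | add p q hp hq =>
    simp only [map_add]
    exact hp.add hq
  | mul_X p i hp =>
    simp only [map_mul, MvPolynomial.eval_X]
    refine hp.mul ?_
    fin_cases i
    · exact continuous_fst
    · exact continuous_const
    · exact continuous_snd

private theorem Ex_arc {n : ℕ} (Q : TP) (a : Fin n → ℝ) (ha : ∀ i, 0 < a i)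
    (h : ∀ x z : ℝ, val Q x 1 z = 0 → val (MvPolynomial.pderiv 0 Q) x 1 z ≠ 0)
    (h0 : ∀ i, val Q (a i ^ 2) 1 0 = 0) : ArcSign Q a := by
  classical
  refine ⟨fun x z => if 0 < val (MvPolynomial.pderiv 0 Q) x 1 z then 1 else -1, ?_, ?_⟩
  · intro x z _ _ hxz
    refine ⟨?_, ?_⟩
    · show (if 0 < val (MvPolynomial.pderiv 0 Q) x 1 z then (1 : ℝ) else -1) = 1 ∨
        (if 0 < val (MvPolynomial.pderiv 0 Q) x 1 z then (1 : ℝ) else -1) = -1
      split_ifs
      · exact Or.inl rfl
      · exact Or.inr rfl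
    · have hne := h x z hxz
      have hc := (Ex_cont (MvPolynomial.pderiv 0 Q)).continuousAt (x := (x, z))
      rcases lt_or_gt_of_ne hne with h1 | h1
      · filter_upwards [hc.eventually_lt_const h1] with q hq _ _ _
        show (if 0 < val (MvPolynomial.pderiv 0 Q) q.1 1 q.2 then (1 : ℝ) else -1) =
          (if 0 < val (MvPolynomial.pderiv 0 Q) x 1 z then (1 : ℝ) else -1)
        rw [if_neg (not_lt.2 hq.le), if_neg (not_lt.2 h1.le)]
      · filter_upwards [hc.eventually_const_lt h1] with q hq _ _ _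
        show (if 0 < val (MvPolynomial.pderiv 0 Q) q.1 1 q.2 then (1 : ℝ) else -1) =
          (if 0 < val (MvPolynomial.pderiv 0 Q) x 1 z then (1 : ℝ) else -1)
        rw [if_pos hq, if_pos h1]
  · intro i
    have hne := h _ _ (h0 i)
    show 0 < (if 0 < val (MvPolynomial.pderiv 0 Q) (a i ^ 2) 1 0 then (1 : ℝ) else -1) *
      (a i * val (MvPolynomial.pderiv 0 Q) (a i ^ 2) 1 0)
    rcases lt_or_gt_of_ne hne with h1 | h1
    · rw [if_neg (not_lt.2 h1.le)]
      have := mul_neg_of_pos_of_neg (ha i) h1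
      linarith
    · rw [if_pos h1, one_mul]
      exact mul_pos (ha i) h1

private theorem Ex_swp (F : TP) (x y z : ℝ) : val (swp F) x y z = val F x z y := by
  unfold val swp
  rw [MvPolynomial.eval_rename]
  congr 2
  ext i
  fin_cases i <;> simp [Function.comp, Equiv.swap_apply_def]

private theorem Ex_swp_der (F : TP) (x y z : ℝ) :
    val (MvPolynomial.pderiv 0 (swp F)) x y z = val (MvPolynomial.pderiv 0 F) x z y := by
  have h0 := Ex_swp (MvPolynomial.pderiv 0 F) x y z
  rw [← h0]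
  unfold swp
  congr 1
  have h := MvPolynomial.pderiv_rename (R := ℝ) (Equiv.swap (1 : Fin 3) 2).injective
    (0 : Fin 3) F
  have e : (Equiv.swap (1 : Fin 3) 2) 0 = 0 := by decide
  rw [e] at h
  exact h

/-! ### smoothness -/

private theorem Ex_fermat (m n : ℕ) (hn : 1 ≤ n) :
    SmC (∑ i : Fin m, (MvPolynomial.X i : MvPolynomial (Fin m) ℂ) ^ n) := by
  intro v hv _
  obtain ⟨i, hi⟩ := Function.ne_iff.mp hv
  refine ⟨i, ?_⟩
  have e : MvPolynomial.pderiv i (∑ j : Fin m, (MvPolynomial.X j : MvPolynomial (Fin m) ℂ) ^ n) =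
      (n : MvPolynomial (Fin m) ℂ) * MvPolynomial.X i ^ (n - 1) := by
    rw [map_sum, Finset.sum_eq_single i]
    · rw [Derivation.leibniz_pow, MvPolynomial.pderiv_X_self]
      simp
    · intro j _ hj
      rw [Derivation.leibniz_pow, MvPolynomial.pderiv_X_of_ne hj]
      simp
    · intro h
      exact absurd (Finset.mem_univ i) h
  rw [e, map_mul, map_pow, MvPolynomial.eval_X, map_natCast]
  exact mul_ne_zero (by exact_mod_cast (by omega : n ≠ 0)) (pow_ne_zero _ hi)

/-- constants -/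
private noncomputable def Ex_j : ℝ →+* Polynomial ℂ := (Polynomial.C).comp (algebraMap ℝ ℂ)

private theorem Ex_jt (t : ℂ) : (Polynomial.evalRingHom t).comp Ex_j = algebraMap ℝ ℂ := by
  ext r
  simp [Ex_j]

/-- the restriction to `X = 0` -/
private noncomputable def Ex_r : TP →+* MvPolynomial (Fin 2) ℂ :=
  MvPolynomial.eval₂Hom ((MvPolynomial.C).comp (algebraMap ℝ ℂ)) ![0, MvPolynomial.X 0,
    MvPolynomial.X 1]

/-- the restriction to `X = 0`, with a parameter -/
private noncomputable def Ex_rt : TP →+* MvPolynomial (Fin 2) (Polynomial ℂ) :=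
  MvPolynomial.eval₂Hom ((MvPolynomial.C).comp Ex_j) ![0, MvPolynomial.X 0, MvPolynomial.X 1]

private theorem Ex_rt_map (F : TP) (t : ℂ) :
    MvPolynomial.map (Polynomial.evalRingHom t) (Ex_rt F) = Ex_r F := by
  unfold Ex_rt Ex_r
  induction F using MvPolynomial.induction_on with
  | C r =>
    have h := congrArg (fun g : ℝ →+* ℂ => g r) (Ex_jt t)
    simp only [RingHom.comp_apply] at h
    simp [h]
  | add p q hp hq => simp only [map_add, hp, hq]
  | mul_X p i hp =>
    rw [map_mul, map_mul, map_mul, hp]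
    fin_cases i <;> simp

private theorem Ex_r_eval (F : TP) (v : Fin 2 → ℂ) :
    MvPolynomial.eval v (Ex_r F) = MvPolynomial.aeval ![0, v 0, v 1] F := by
  unfold Ex_r
  induction F using MvPolynomial.induction_on with
  | C r => simp
  | add p q hp hq => simp only [map_add, hp, hq]
  | mul_X p i hp =>
    rw [map_mul, map_mul, map_mul, hp]
    fin_cases i <;> simp

private theorem Ex_r_der0 (F : TP) :
    MvPolynomial.pderiv 0 (Ex_r F) = Ex_r (MvPolynomial.pderiv 1 F) := by
  unfold Ex_r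
  induction F using MvPolynomial.induction_on with
  | C r => simp
  | add p q hp hq => simp only [map_add, hp, hq]
  | mul_X p i hp =>
    rw [map_mul, Derivation.leibniz, Derivation.leibniz, hp]
    fin_cases i <;> simp

private theorem Ex_r_der1 (F : TP) :
    MvPolynomial.pderiv 1 (Ex_r F) = Ex_r (MvPolynomial.pderiv 2 F) := by
  unfold Ex_r
  induction F using MvPolynomial.induction_on with
  | C r => simp
  | add p q hp hq => simp only [map_add, hp, hq]
  | mul_X p i hp =>
    rw [map_mul, Derivation.leibniz, Derivation.leibniz, hp]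
    fin_cases i <;> simp

private theorem Ex_r_hom {n : ℕ} (F : TP) (hF : F.IsHomogeneous n) : (Ex_rt F).IsHomogeneous n := by
  have h := hF.eval₂ ((MvPolynomial.C).comp Ex_j)
    (![0, MvPolynomial.X 0, MvPolynomial.X 1] : Fin 3 → MvPolynomial (Fin 2) (Polynomial ℂ))
    (n := 1) (fun r => MvPolynomial.isHomogeneous_C _ _) (by
      intro i
      fin_cases i
      · exact MvPolynomial.isHomogeneous_zero _ _ _
      · exact MvPolynomial.isHomogeneous_X _ _
      · exact MvPolynomial.isHomogeneous_X _ _)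
  rwa [one_mul] at h

private theorem Ex_sumhom (k : Type) [CommRing k] (m n : ℕ) :
    (∑ i : Fin m, (MvPolynomial.X i : MvPolynomial (Fin m) k) ^ n).IsHomogeneous n := by
  refine MvPolynomial.IsHomogeneous.sum _ _ _ fun i _ => ?_
  have := (MvPolynomial.isHomogeneous_X k i).pow n
  rwa [one_mul] at this

private theorem Ex_C {k : Type} [CommRing k] {m n : ℕ} (c : k) {F : MvPolynomial (Fin m) k}
    (hF : F.IsHomogeneous n) : (MvPolynomial.C c * F).IsHomogeneous n := by
  have := (MvPolynomial.isHomogeneous_C (Fin m) c).mul hF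
  rwa [zero_add] at this

private theorem Ex_real (T : Set ℂ) (hT : T.Finite) (t₀ : ℝ) (h0 : 0 < t₀) :
    ∃ t : ℝ, 0 < t ∧ t < t₀ ∧ (t : ℂ) ∉ T := by
  by_contra hcon
  push Not at hcon
  have h1 : (Set.Ioo 0 t₀) ⊆ (fun t : ℝ => (t : ℂ)) ⁻¹' T := fun t ht => hcon t ht.1 ht.2
  have h2 : ((fun t : ℝ => (t : ℂ)) ⁻¹' T).Finite :=
    hT.preimage (Complex.ofReal_injective.injOn)
  exact (Set.Ioo_infinite h0) (h2.subset h1)

theorem thm_Ex (hShy : St_Shy) (hFam : St_Fam) : St_Ex := by
  intro n hn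
  obtain ⟨R₀, hR₀, hR₁, t₀, ht₀, ht₁, hf⟩ := hShy n hn
  obtain ⟨S3, hS3⟩ : ∃ S3 : TP, S3 = MvPolynomial.X 0 ^ n + MvPolynomial.X 1 ^ n +
    MvPolynomial.X 2 ^ n := ⟨_, rfl⟩
  have hS3' : S3 = ∑ i : Fin 3, MvPolynomial.X i ^ n := by rw [hS3, Fin.sum_univ_three]
  -- three variables
  have hfin3 := hFam 3 n (MvPolynomial.C (1 - Polynomial.X) * MvPolynomial.map Ex_j R₀ +
    MvPolynomial.C Polynomial.X * ∑ i : Fin 3, MvPolynomial.X i ^ n) hn
    ((Ex_C _ (hR₀.map _)).add (Ex_C _ (Ex_sumhom _ _ _))) (by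
      have e : MvPolynomial.map (Polynomial.evalRingHom (1 : ℂ))
          (MvPolynomial.C (1 - Polynomial.X) * MvPolynomial.map Ex_j R₀ +
          MvPolynomial.C Polynomial.X * ∑ i : Fin 3, MvPolynomial.X i ^ n) =
          ∑ i : Fin 3, MvPolynomial.X i ^ n := by
        simp
      rw [e]
      exact Ex_fermat 3 n hn)
  have hfin2 := hFam 2 n (MvPolynomial.C (1 - Polynomial.X) * Ex_rt R₀ +
    MvPolynomial.C Polynomial.X * ∑ i : Fin 2, MvPolynomial.X i ^ n) hn
    ((Ex_C _ (Ex_r_hom _ hR₀)).add (Ex_C _ (Ex_sumhom _ _ _))) (by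
      have e : MvPolynomial.map (Polynomial.evalRingHom (1 : ℂ))
          (MvPolynomial.C (1 - Polynomial.X) * Ex_rt R₀ +
          MvPolynomial.C Polynomial.X * ∑ i : Fin 2, MvPolynomial.X i ^ n) =
          ∑ i : Fin 2, MvPolynomial.X i ^ n := by
        simp
      rw [e]
      exact Ex_fermat 2 n hn)
  obtain ⟨t, ht, htt, htT⟩ := Ex_real _ (hfin3.union hfin2) t₀ ht₀
  rw [Set.mem_union, not_or] at htT
  obtain ⟨hs3, hs2⟩ := htT
  rw [Set.mem_ofPred_eq, not_not] at hs3 hs2
  obtain ⟨R, hR⟩ : ∃ R : TP, R = MvPolynomial.C (1 - t) * R₀ + MvPolynomial.C t * S3 := ⟨_, rfl⟩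
  have hs3' : SmC (MvPolynomial.map (algebraMap ℝ ℂ) R) := by
    have e : MvPolynomial.map (Polynomial.evalRingHom (t : ℂ))
        (MvPolynomial.C (1 - Polynomial.X) * MvPolynomial.map Ex_j R₀ +
        MvPolynomial.C Polynomial.X * ∑ i : Fin 3, MvPolynomial.X i ^ n) =
        MvPolynomial.map (algebraMap ℝ ℂ) R := by
      rw [map_add, map_mul, map_mul, MvPolynomial.map_map, Ex_jt, hR, hS3', map_add, map_mul,
        map_mul]
      simp
    rwa [e] at hs3
  have hs2' : SmC (Ex_r R) := by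
    have e : MvPolynomial.map (Polynomial.evalRingHom (t : ℂ))
        (MvPolynomial.C (1 - Polynomial.X) * Ex_rt R₀ +
        MvPolynomial.C Polynomial.X * ∑ i : Fin 2, MvPolynomial.X i ^ n) = Ex_r R := by
      rw [map_add, map_mul, map_mul, Ex_rt_map, hR, map_add, map_mul, map_mul]
      have e1 : Ex_r (MvPolynomial.C (1 - t)) = MvPolynomial.C (1 - (t : ℂ)) := by
        simp [Ex_r]
      have e2 : Ex_r (MvPolynomial.C t) = MvPolynomial.C (t : ℂ) := by
        simp [Ex_r]
      have e3 : Ex_r S3 = ∑ i : Fin 2, MvPolynomial.X i ^ n := by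
        rw [hS3, Fin.sum_univ_two, map_add, map_add, map_pow, map_pow, map_pow]
        unfold Ex_r
        simp [zero_pow (by omega : n ≠ 0)]
      rw [e1, e2, e3]
      simp
    rwa [e] at hs2
  have hhom : R.IsHomogeneous n := by
    rw [hR, hS3']
    exact (Ex_C _ hR₀).add (Ex_C _ (Ex_sumhom _ _ _))
  have hval : val R 1 0 0 = 1 := by
    have h1 : MvPolynomial.eval ![(1 : ℝ), 0, 0] R₀ = 1 := hR₁
    unfold val
    rw [hR, hS3, map_add, map_mul, map_mul, h1]
    simp [zero_pow (by omega : n ≠ 0)]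
  have hroots : ∀ y z : ℝ, (y ≠ 0 ∨ z ≠ 0) → ∃ f : Fin n → ℝ, Function.Injective f ∧
      (∀ k, val R (f k) y z = 0) ∧ (0 ≤ y → 0 ≤ z → ∀ k, 0 < f k) := by
    intro y z hyz
    obtain ⟨f, hf1, hf2, hf3⟩ := hf t ht htt y z hyz
    refine ⟨f, hf1, fun k => ?_, hf3⟩
    rw [hR, hS3]
    exact hf2 k
  have hsimple : ∀ x y z : ℝ, (y ≠ 0 ∨ z ≠ 0) → val R x y z = 0 →
      val (MvPolynomial.pderiv 0 R) x y z ≠ 0 := by
    intro x y z hyz hx
    obtain ⟨f, hf1, hf2, _⟩ := hroots y z hyz
    exact Ex_simple hhom hval y z f hf1 hf2 x hx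
  have hsq : ∀ y z : ℝ, 0 ≤ y → 0 ≤ z → (y ≠ 0 ∨ z ≠ 0) → ∃ a : Fin n → ℝ, (∀ i, 0 < a i) ∧
      (∀ t, val R t y z = ∏ i, (t - a i ^ 2)) ∧ ∀ i, val R (a i ^ 2) y z = 0 := by
    intro y z hy hz hyz
    obtain ⟨f, hf1, hf2, hf3⟩ := hroots y z hyz
    exact Ex_sqrt hhom hval y z f hf1 hf2 (hf3 hy hz)
  obtain ⟨a, ha, hra, ha0⟩ := hsq 1 0 zero_le_one le_rfl (Or.inl one_ne_zero)
  obtain ⟨b, hb, hrb, hb0⟩ := hsq 0 1 le_rfl zero_le_one (Or.inr one_ne_zero)
  obtain ⟨s, hs, hrs, _⟩ := hsq 1 1 zero_le_one zero_le_one (Or.inl one_ne_zero)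
  have h2nd : ∀ v : Fin 2 → ℂ, v ≠ 0 → MvPolynomial.aeval ![0, v 0, v 1] R = 0 →
      MvPolynomial.aeval ![0, v 0, v 1] (MvPolynomial.pderiv 1 R) ≠ 0 ∨
      MvPolynomial.aeval ![0, v 0, v 1] (MvPolynomial.pderiv 2 R) ≠ 0 := by
    intro v hv h0
    rw [← Ex_r_eval] at h0
    obtain ⟨i, hi⟩ := hs2' v hv h0
    fin_cases i
    · left
      rw [← Ex_r_eval, ← Ex_r_der0]
      exact hi
    · right
      rw [← Ex_r_eval, ← Ex_r_der1]
      exact hi
  refine ⟨R, a, b, s, ?_, h2nd⟩
  refine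
    { hom := hhom
      ra := hra
      rb := hrb
      rs := hrs
      s0 := fun i => (hs i).le
      smooth := ?_
      hyp := ?_
      tr := ?_
      ca := ?_
      cb := ?_ }
  · intro v hv h0
    have e : ∀ F : TP, MvPolynomial.eval v (MvPolynomial.map (algebraMap ℝ ℂ) F) =
        MvPolynomial.aeval v F := by
      intro F
      rw [MvPolynomial.eval_map, MvPolynomial.aeval_def]
    rw [← e] at h0
    obtain ⟨i, hi⟩ := hs3' v hv h0
    refine ⟨i, ?_⟩
    rw [MvPolynomial.pderiv_map, e] at hi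
    exact hi
  · intro y z hy hz hyz
    obtain ⟨f, hf1, hf2, hf3⟩ := hroots y z hyz
    exact ⟨f, hf1, fun k => ⟨hf3 hy hz k, hf2 k⟩⟩
  · intro z hz hz2
    have hof : ∀ F : TP, MvPolynomial.aeval ![(0 : ℂ), 1, (z : ℂ)] F = ((val F 0 1 z : ℝ) : ℂ) := by
      intro F
      unfold val
      induction F using MvPolynomial.induction_on with
      | C r => simp
      | add p q hp hq => simp only [map_add, hp, hq, Complex.ofReal_add]
      | mul_X p i hp =>
        rw [map_mul, map_mul, hp, Complex.ofReal_mul]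
        fin_cases i <;> simp
    have hEul := congrArg (MvPolynomial.eval ![(0 : ℝ), 1, z]) hhom.sum_X_mul_pderiv
    rw [Fin.sum_univ_three, map_add, map_add, map_mul, map_mul, map_mul, map_nsmul] at hEul
    have hz' : MvPolynomial.eval ![(0 : ℝ), 1, z] R = 0 := hz
    have hz2' : MvPolynomial.eval ![(0 : ℝ), 1, z] (MvPolynomial.pderiv 2 R) = 0 := hz2
    rw [hz', hz2'] at hEul
    simp at hEul
    have h3 := h2nd ![1, (z : ℂ)] (by
      intro h
      have := congrFun h 0
      simp at this) (by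
      show MvPolynomial.aeval ![(0 : ℂ), 1, (z : ℂ)] R = 0
      rw [hof, hz, Complex.ofReal_zero])
    rcases h3 with h3 | h3
    · apply h3
      show MvPolynomial.aeval ![(0 : ℂ), 1, (z : ℂ)] _ = 0
      rw [hof]
      show ((MvPolynomial.eval ![(0 : ℝ), 1, z] (MvPolynomial.pderiv 1 R) : ℝ) : ℂ) = 0
      rw [hEul, Complex.ofReal_zero]
    · apply h3
      show MvPolynomial.aeval ![(0 : ℂ), 1, (z : ℂ)] _ = 0
      rw [hof, hz2, Complex.ofReal_zero]
  · exact Ex_arc R a ha (fun x z => hsimple x 1 z (Or.inl one_ne_zero)) ha0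
  · refine Ex_arc (swp R) b hb ?_ ?_
    · intro x z hxz
      rw [Ex_swp_der]
      rw [Ex_swp] at hxz
      exact hsimple x z 1 (Or.inr one_ne_zero) hxz
    · intro i
      rw [Ex_swp]
      exact hb0 i

end Pool.Agent.RSV
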