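import Pool.Agent.RSV.StN

/-! # [Fam] Smoothness in a family of forms -/

set_option autoImplicit false

namespace Pool.Agent.RSV

open MvPolynomial

private theorem Fam_euler {m d : ℕ} {Q : MvPolynomial (Fin m) ℂ} (hd : 1 ≤ d)
    (hQ : Q.IsHomogeneous d) {v : Fin m → ℂ} (h : ∀ i, eval v (pderiv i Q) = 0) :
    eval v Q = 0 := by
  have h1 := congrArg (eval v) hQ.sum_X_mul_pderiv
  rw [map_sum, map_nsmul, Finset.sum_eq_zero (fun i _ => by rw [map_mul, h i, mul_zero])] at h1
  have h2 : (d : ℂ) * eval v Q = 0 := by rw [← nsmul_eq_mul]; exact h1.symm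
  exact (mul_eq_zero.1 h2).resolve_left (Nat.cast_ne_zero.2 (by omega))

private theorem Fam_hc {m N e : ℕ} {q g : MvPolynomial (Fin m) ℂ} (hg : g.IsHomogeneous e)
    (he : e ≤ N) : homogeneousComponent N (q * g) = homogeneousComponent (N - e) q * g := by
  let _ := MvPolynomial.gradedAlgebra (σ := Fin m) (R := ℂ)
  have h := DirectSum.coe_decompose_mul_of_right_mem_of_le
    (𝒜 := homogeneousSubmodule (Fin m) ℂ) (a := q) (b := g) (i := e) (n := N) hg he
  have h1 : ∀ (f : MvPolynomial (Fin m) ℂ) (i : ℕ),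
      ((DirectSum.decompose (homogeneousSubmodule (Fin m) ℂ) f) i : MvPolynomial (Fin m) ℂ) =
      homogeneousComponent i f := fun f i => decomposition.decompose'_apply f i
  rw [h1, h1] at h
  exact h

private theorem Fam_monomial {m : ℕ} (κ : Fin m →₀ ℕ) :
    (monomial κ (1 : ℂ)) ∈ Ideal.span (Set.range (X : Fin m → MvPolynomial (Fin m) ℂ)) ^
      (∑ i, κ i) := by
  rw [monomial_eq, C_1, one_mul, Finsupp.prod_fintype _ _ (fun i => pow_zero _),
    ← Finset.prod_pow_eq_pow_sum]
  have h : ∀ i, (X i : MvPolynomial (Fin m) ℂ) ∈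
      Ideal.span (Set.range (X : Fin m → MvPolynomial (Fin m) ℂ)) :=
    fun i => Ideal.subset_span ⟨i, rfl⟩
  exact Ideal.prod_mem_prod fun i _ => Ideal.pow_mem_pow (h i) _

/-- Smoothness in a one parameter family. -/
theorem thm_Fam : St_Fam := by
  classical
  intro m d P hd hP h1
  set Pt : ℂ → MvPolynomial (Fin m) ℂ := fun t => MvPolynomial.map (Polynomial.evalRingHom t) P
    with hPt
  have hPtd : ∀ t, (Pt t).IsHomogeneous d := fun t => hP.map _
  -- the Nullstellensatz
  set I : Ideal (MvPolynomial (Fin m) ℂ) := Ideal.span (Set.range fun i => pderiv i (Pt 1))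
    with hI
  have hrad : Ideal.span (Set.range (X : Fin m → MvPolynomial (Fin m) ℂ)) ≤ I.radical := by
    rw [Ideal.span_le]
    rintro _ ⟨j, rfl⟩
    have h2 : X j ∈ vanishingIdeal ℂ (zeroLocus ℂ I) := by
      rw [mem_vanishingIdeal_iff]
      intro x hx
      have h3 : ∀ i, eval x (pderiv i (Pt 1)) = 0 := by
        intro i
        have h4 := mem_zeroLocus_iff.1 hx (pderiv i (Pt 1)) (Ideal.subset_span ⟨i, rfl⟩)
        rw [aeval_eq_eval] at h4
        exact h4
      have hx0 : x = 0 := by
        by_contra hne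
        obtain ⟨i, hi⟩ := h1 x hne (Fam_euler hd (hPtd 1) h3)
        exact hi (h3 i)
      rw [hx0, aeval_X]
      rfl
    rw [vanishingIdeal_zeroLocus_eq_radical] at h2
    exact h2
  obtain ⟨k, hk⟩ := Ideal.exists_pow_le_of_le_radical_of_fg_radical hrad
    (IsNoetherian.noetherian _)
  set N : ℕ := k + d with hN
  set B : Finset (Fin m →₀ ℕ) := Finset.finsuppAntidiag Finset.univ N with hB
  have hBm : ∀ κ : Fin m →₀ ℕ, κ ∈ B ↔ ∑ i, κ i = N := by
    intro κ
    rw [hB, Finset.mem_finsuppAntidiag]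
    exact ⟨fun h => h.1, fun h => ⟨h, fun i _ => Finset.mem_univ i⟩⟩
  have hq : ∀ κ : B, ∃ q : Fin m → MvPolynomial (Fin m) ℂ,
      (∀ j, (q j).IsHomogeneous (N - (d - 1))) ∧
      ∑ j, q j * pderiv j (Pt 1) = monomial (κ : Fin m →₀ ℕ) 1 := by
    intro κ
    have h2 := Fam_monomial (κ : Fin m →₀ ℕ)
    rw [(hBm κ).1 κ.2] at h2
    have h3 := hk (Ideal.pow_le_pow_right (by omega) h2)
    rw [hI, Ideal.mem_span_range_iff_exists_fun] at h3
    obtain ⟨c, hc⟩ := h3
    refine ⟨fun j => homogeneousComponent (N - (d - 1)) (c j),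
      fun j => homogeneousComponent_isHomogeneous _ _, ?_⟩
    have h4 : (monomial (κ : Fin m →₀ ℕ) (1 : ℂ)).IsHomogeneous N := by
      refine isHomogeneous_monomial _ ?_
      rw [Finsupp.degree_eq_sum]
      exact (hBm κ).1 κ.2
    rw [← homogeneousComponent_eq_self h4, ← hc, map_sum]
    refine Finset.sum_congr rfl fun j _ => ?_
    exact (Fam_hc (hPtd 1).pderiv (by omega)).symm
  choose q hqh hqs using hq
  set F : B → MvPolynomial (Fin m) (Polynomial ℂ) := fun κ =>
    ∑ j, MvPolynomial.map Polynomial.C (q κ j) * pderiv j P with hF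
  have hFh : ∀ κ, (F κ).IsHomogeneous N := by
    intro κ
    refine IsHomogeneous.sum _ _ _ fun j _ => ?_
    have h2 := ((hqh κ j).map (Polynomial.C : ℂ →+* Polynomial ℂ)).mul (hP.pderiv (i := j))
    have e : N - (d - 1) + (d - 1) = N := by omega
    rw [e] at h2
    exact h2
  have hFt : ∀ t κ, MvPolynomial.map (Polynomial.evalRingHom t) (F κ) =
      ∑ j, q κ j * pderiv j (Pt t) := by
    intro t κ
    rw [hF, map_sum]
    refine Finset.sum_congr rfl fun j _ => ?_
    rw [map_mul, MvPolynomial.map_map, ← pderiv_map]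
    have h2 : (Polynomial.evalRingHom t).comp (Polynomial.C : ℂ →+* Polynomial ℂ) =
        RingHom.id ℂ := by
      ext x
      simp
    rw [h2, MvPolynomial.map_id]
  set A : Matrix B B (Polynomial ℂ) := Matrix.of fun κ κ' => coeff (κ' : Fin m →₀ ℕ) (F κ) with hA
  have hAt : ∀ t κ κ', ((Polynomial.evalRingHom t).mapMatrix A) κ κ' =
      coeff (κ' : Fin m →₀ ℕ) (∑ j, q κ j * pderiv j (Pt t)) := by
    intro t κ κ'
    rw [← hFt, coeff_map]
    rfl
  have hdet : ∀ t, (A.det).eval t = ((Polynomial.evalRingHom t).mapMatrix A).det := by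
    intro t
    rw [← RingHom.map_det]
    rfl
  have hdet1 : (A.det).eval 1 = 1 := by
    rw [hdet]
    have h2 : (Polynomial.evalRingHom (1 : ℂ)).mapMatrix A = 1 := by
      ext κ κ'
      rw [hAt, hqs, coeff_monomial, Matrix.one_apply]
      by_cases h : κ = κ'
      · rw [if_pos h, if_pos (by rw [h])]
      · rw [if_neg h, if_neg (fun h' => h (Subtype.ext h'))]
    rw [h2, Matrix.det_one]
  have hne : A.det ≠ 0 := by
    intro h
    rw [h, Polynomial.eval_zero] at hdet1
    exact zero_ne_one hdet1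
  refine (Polynomial.finite_setOfPred_isRoot hne).subset ?_
  intro t ht
  by_contra hroot
  refine ht ?_
  intro v hv _
  by_contra hall
  push Not at hall
  have hroot' : ((Polynomial.evalRingHom t).mapMatrix A).det ≠ 0 := by
    rw [← hdet]
    exact hroot
  have hw := Matrix.eq_zero_of_mulVec_eq_zero hroot'
    (v := fun κ : B => ∏ i, v i ^ (κ : Fin m →₀ ℕ) i) (by
      ext κ
      rw [Matrix.mulVec, dotProduct, Pi.zero_apply]
      have h2 : eval v (∑ j, q κ j * pderiv j (Pt t)) = 0 := by
        rw [map_sum]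
        refine Finset.sum_eq_zero fun j _ => ?_
        have h3 : eval v (pderiv j (Pt t)) = 0 := hall j
        rw [map_mul, h3, mul_zero]
      rw [← h2]
      set G := ∑ j, q κ j * pderiv j (Pt t) with hG
      have hGh : G.IsHomogeneous N := by
        rw [hG, ← hFt]
        exact (hFh κ).map _
      have h4 : eval v G = ∑ κ' ∈ B, coeff κ' G * ∏ i, v i ^ κ' i := by
        rw [eval_eq']
        refine Finset.sum_subset ?_ ?_
        · intro κ' hκ'
          rw [hBm]
          by_contra hne'
          exact mem_support_iff.1 hκ' (hGh.coeff_eq_zero (by rw [Finsupp.degree_eq_sum]; exact hne'))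
        · intro κ' _ hκ'
          rw [notMem_support_iff.1 hκ', zero_mul]
      rw [h4, ← Finset.sum_coe_sort B]
      refine Finset.sum_congr rfl fun κ' _ => ?_
      rw [hAt])
  refine hv ?_
  ext i
  have hiB : Finsupp.single i N ∈ B := by
    rw [hBm]
    rw [Finset.sum_eq_single i]
    · rw [Finsupp.single_eq_same]
    · intro j _ hji
      rw [Finsupp.single_eq_of_ne hji]
    · intro h
      exact absurd (Finset.mem_univ i) h
  have h5 := congrFun hw ⟨Finsupp.single i N, hiB⟩
  have h6 : ∏ j, v j ^ (Finsupp.single i N : Fin m →₀ ℕ) j = v i ^ N := by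
    rw [Finset.prod_eq_single i]
    · rw [Finsupp.single_eq_same]
    · intro j _ hji
      rw [Finsupp.single_eq_of_ne hji, pow_zero]
    · intro h
      exact absurd (Finset.mem_univ i) h
  have h7 : v i ^ N = 0 := by
    rw [← h6]
    exact h5
  exact pow_eq_zero_iff (by omega) |>.1 h7

end Pool.Agent.RSV
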