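import Pool.Agent.RSV.StN

/-!
# RSV, [Gn], part `hyp`
-/

set_option autoImplicit false

namespace Pool.Agent.RSV

open Matrix Filter Topology
open scoped ComplexConjugate

section gen

variable {m : Type} [Fintype m] [DecidableEq m]

/-- Jacobi's formula -/
private lemma GnH_jac (N E : Matrix m m ℂ) (t : ℂ) :
    HasDerivAt (fun s : ℂ => (N + s • E).det) ((N + t • E).adjugate * E).trace t := by
  have h1 : ∀ σ : Equiv.Perm m, HasDerivAt (fun s : ℂ => ∏ i, (N + s • E) (σ i) i)
      (∑ k, (∏ j ∈ Finset.univ.erase k, (N + t • E) (σ j) j) • E (σ k) k) t := by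
    intro σ
    apply HasDerivAt.fun_finsetProd
    intro i _
    have h2 : HasDerivAt (fun s : ℂ => N (σ i) i + s * E (σ i) i) (E (σ i) i) t := by
      have := ((hasDerivAt_id t).mul_const (E (σ i) i)).const_add (N (σ i) i)
      simpa using this
    exact h2
  have h3 : HasDerivAt (fun s : ℂ => ∑ σ : Equiv.Perm m,
      ((Equiv.Perm.sign σ : ℤ) : ℂ) * ∏ i, (N + s • E) (σ i) i)
      (∑ σ : Equiv.Perm m, ((Equiv.Perm.sign σ : ℤ) : ℂ) *
        ∑ k, (∏ j ∈ Finset.univ.erase k, (N + t • E) (σ j) j) • E (σ k) k) t := by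
    apply HasDerivAt.fun_sum
    intro σ _
    exact (h1 σ).const_mul _
  have h4 : (fun s : ℂ => (N + s • E).det) = fun s : ℂ => ∑ σ : Equiv.Perm m,
      ((Equiv.Perm.sign σ : ℤ) : ℂ) * ∏ i, (N + s • E) (σ i) i := by
    funext s
    rw [det_apply']
  rw [h4]
  have h5 : ((N + t • E).adjugate * E).trace = ∑ σ : Equiv.Perm m, ((Equiv.Perm.sign σ : ℤ) : ℂ) *
        ∑ k, (∏ j ∈ Finset.univ.erase k, (N + t • E) (σ j) j) • E (σ k) k := by
    have h6 : ((N + t • E).adjugate * E).trace =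
        ∑ k, ((N + t • E).updateCol k (fun i => E i k)).det := by
      rw [trace]
      refine Finset.sum_congr rfl fun k _ => ?_
      rw [← cramer_apply, cramer_eq_adjugate_mulVec]
      rfl
    rw [h6]
    simp_rw [det_apply']
    rw [Finset.sum_comm]
    refine Finset.sum_congr rfl fun σ _ => ?_
    rw [Finset.mul_sum]
    refine Finset.sum_congr rfl fun k _ => ?_
    congr 1
    rw [← Finset.mul_prod_erase Finset.univ _ (Finset.mem_univ k), smul_eq_mul, mul_comm]
    congr 1
    · refine Finset.prod_congr rfl fun j hj => ?_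
      rw [updateCol_ne (Finset.ne_of_mem_erase hj)]
    · rw [updateCol_self]
  rw [h5]
  exact h3

/-- a Hermitian matrix with `det = 0` and trace of the adjugate `0` has adjugate `0` -/
private lemma GnH_adj (H : Matrix m m ℂ) (hH : H.IsHermitian) (hd : H.det = 0)
    (ht : H.adjugate.trace.re = 0) : H.adjugate = 0 := by
  set U : Matrix m m ℂ := (hH.eigenvectorUnitary : Matrix m m ℂ) with hU
  set D : Matrix m m ℂ := diagonal (RCLike.ofReal ∘ hH.eigenvalues) with hD
  have h1 : H = U * D * star U := by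
    conv_lhs => rw [hH.spectral_theorem, Unitary.conjStarAlgAut_apply]
  have hUU : U * star U = 1 := Unitary.mul_star_self_of_mem hH.eigenvectorUnitary.2
  have hUU' : star U * U = 1 := Unitary.star_mul_self_of_mem hH.eigenvectorUnitary.2
  have h2 : H.adjugate = (star U).adjugate * (D.adjugate * U.adjugate) := by
    conv_lhs => rw [h1]
    rw [adjugate_mul_distrib, adjugate_mul_distrib]
  have h3 : H.adjugate.trace = D.adjugate.trace := by
    rw [h2, trace_mul_comm, mul_assoc, ← adjugate_mul_distrib, hUU', adjugate_one, mul_one]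
  have h4 : D.adjugate = diagonal fun i => ((∏ j ∈ Finset.univ.erase i, hH.eigenvalues j : ℝ) : ℂ) := by
    rw [hD, adjugate_diagonal]
    congr 1
    funext i
    push_cast
    rfl
  have h5 : ∏ i, hH.eigenvalues i = 0 := by
    have := hH.det_eq_prod_eigenvalues
    rw [hd] at this
    have h6 : ((∏ i, hH.eigenvalues i : ℝ) : ℂ) = 0 := by
      rw [this]
      push_cast
      rfl
    exact_mod_cast h6
  obtain ⟨k, _, hk⟩ := Finset.prod_eq_zero_iff.1 h5
  have h6 : ∀ i, i ≠ k → ∏ j ∈ Finset.univ.erase i, hH.eigenvalues j = 0 := fun i hi =>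
    Finset.prod_eq_zero (Finset.mem_erase.2 ⟨hi.symm, Finset.mem_univ k⟩) hk
  have h7 : ∏ j ∈ Finset.univ.erase k, hH.eigenvalues j = 0 := by
    rw [h3, h4, trace_diagonal, ← Complex.ofReal_sum, Complex.ofReal_re,
      Finset.sum_eq_single k (fun i _ hi => h6 i hi) (fun h => absurd (Finset.mem_univ k) h)] at ht
    exact ht
  have h8 : D.adjugate = 0 := by
    rw [h4, ← diagonal_zero]
    congr 1
    funext i
    by_cases hi : i = k
    · rw [hi, h7, Complex.ofReal_zero]
    · rw [h6 i hi, Complex.ofReal_zero]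
  rw [h2, h8, zero_mul, mul_zero]

end gen
/-- the chain rule for a polynomial in three variables -/
private lemma GnH_chain (R : TP) (v : ℂ → Fin 3 → ℂ) (v' : Fin 3 → ℂ) (t : ℂ)
    (hv : ∀ i, HasDerivAt (fun s => v s i) (v' i) t) :
    HasDerivAt (fun s => MvPolynomial.aeval (v s) R)
      (∑ i, MvPolynomial.aeval (v t) (MvPolynomial.pderiv i R) * v' i) t := by
  induction R using MvPolynomial.induction_on with
  | C a =>
    simp only [MvPolynomial.aeval_C, MvPolynomial.pderiv_C, map_zero, zero_mul,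
      Finset.sum_const_zero]
    exact hasDerivAt_const _ _
  | add p q hp hq =>
    have := hp.add hq
    simp only [map_add, add_mul, Finset.sum_add_distrib]
    exact this
  | mul_X p j hp =>
    have := hp.mul (hv j)
    simp only [map_mul, MvPolynomial.aeval_X]
    have h1 : ∑ i, MvPolynomial.aeval (v t) (MvPolynomial.pderiv i (p * MvPolynomial.X j)) * v' i =
        (∑ i, MvPolynomial.aeval (v t) (MvPolynomial.pderiv i p) * v' i) * v t j +
          MvPolynomial.aeval (v t) p * v' j := by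
      have h2 : ∀ i, MvPolynomial.aeval (v t) (MvPolynomial.pderiv i (p * MvPolynomial.X j)) *
          v' i = MvPolynomial.aeval (v t) (MvPolynomial.pderiv i p) * v' i * v t j +
            if i = j then MvPolynomial.aeval (v t) p * v' j else 0 := by
        intro i
        rw [MvPolynomial.pderiv_mul, map_add, map_mul, map_mul, MvPolynomial.aeval_X]
        by_cases h : i = j
        · subst h
          rw [MvPolynomial.pderiv_X_self, map_one, if_pos rfl]
          ring
        · rw [MvPolynomial.pderiv_X_of_ne (Ne.symm h), map_zero, if_neg h]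
          ring
      rw [Finset.sum_congr rfl fun i _ => h2 i, Finset.sum_add_distrib, Finset.sum_ite_eq',
        if_pos (Finset.mem_univ j), Finset.sum_mul]
    rw [h1]
    exact this

private lemma GnH_real (R : TP) (x y z : ℝ) :
    MvPolynomial.aeval ![(x : ℂ), (y : ℂ), (z : ℂ)] R = ((val R x y z : ℝ) : ℂ) := by
  have h : (![(x : ℂ), (y : ℂ), (z : ℂ)] : Fin 3 → ℂ) = algebraMap ℝ ℂ ∘ ![x, y, z] := by
    funext i
    fin_cases i <;> rfl
  rw [h, MvPolynomial.aeval_algebraMap_apply]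
  rfl

private theorem GnH_swap (n : ℕ) :
    (fromBlocks 0 1 1 0 : Matrix (Fin n ⊕ Fin n) (Fin n ⊕ Fin n) ℂ).det = (-1) ^ n := by
  have h1 : (fromBlocks 0 1 1 0 : Matrix (Fin n ⊕ Fin n) (Fin n ⊕ Fin n) ℂ) *
      fromBlocks 1 0 1 1 = fromBlocks 1 1 1 0 := by
    rw [fromBlocks_multiply]
    simp
  have h2 := congrArg Matrix.det h1
  rw [det_mul, det_fromBlocks_zero₁₂, det_one, mul_one, mul_one, det_fromBlocks_one₁₁] at h2
  rw [h2, zero_sub, one_mul, det_neg, det_one, mul_one, Fintype.card_fin]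

private theorem GnH_two (n : ℕ) (X Y : Matrix (Fin n) (Fin n) ℂ) (l : ℂ) :
    (fromBlocks X (l • 1) (l • 1) Y).det =
      (-1) ^ n * (l ^ 2 • (1 : Matrix (Fin n) (Fin n) ℂ) - X * Y).det := by
  have hsq : ((-1 : ℂ) ^ n) * (-1) ^ n = 1 := by
    rw [← mul_pow]
    norm_num
  rcases eq_or_ne l 0 with rfl | hl
  · rw [zero_smul, det_fromBlocks_zero₂₁, zero_pow two_ne_zero, zero_smul, zero_sub, det_neg,
      det_mul, Fintype.card_fin, ← mul_assoc, hsq, one_mul]
  · have h1 : (fromBlocks 0 1 1 0 : Matrix (Fin n ⊕ Fin n) (Fin n ⊕ Fin n) ℂ) *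
        fromBlocks X (l • 1) (l • 1) Y = fromBlocks (l • 1) Y X (l • 1) := by
      rw [fromBlocks_multiply]
      simp
    have h2 : fromBlocks (l • 1) Y X (l • 1) *
        (fromBlocks 1 (-(l⁻¹ • Y)) 0 1 : Matrix (Fin n ⊕ Fin n) (Fin n ⊕ Fin n) ℂ) =
        fromBlocks (l • 1) 0 X (l • 1 - l⁻¹ • (X * Y)) := by
      rw [fromBlocks_multiply]
      simp [smul_smul, hl]
      abel
    have h3 := congrArg Matrix.det h1
    have h4 := congrArg Matrix.det h2
    rw [det_mul, GnH_swap] at h3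
    rw [det_mul, det_fromBlocks_zero₂₁, det_one, mul_one, mul_one,
      det_fromBlocks_zero₁₂, ← det_mul] at h4
    have h5 : (l • (1 : Matrix (Fin n) (Fin n) ℂ)) * (l • 1 - l⁻¹ • (X * Y)) =
        l ^ 2 • (1 : Matrix (Fin n) (Fin n) ℂ) - X * Y := by
      rw [smul_mul_assoc, one_mul, smul_sub, smul_smul, smul_smul, mul_inv_cancel₀ hl, one_smul,
        sq]
    rw [h5] at h4
    rw [← h4, ← h3, ← mul_assoc, hsq, one_mul]


/-- the Hermitian pencil for `y, z ≥ 0` -/
private noncomputable def GnH_P {n : ℕ} (A B : Matrix (Fin n) (Fin n) ℂ) (l x y : ℂ) :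
    Matrix (Fin n ⊕ Fin n) (Fin n ⊕ Fin n) ℂ :=
  fromBlocks (l • 1) (x • A + (Complex.I * y) • B) (x • A - (Complex.I * y) • B) (l • 1)

private theorem GnH_det {n : ℕ} {R : TP} {A B : Matrix (Fin n) (Fin n) ℂ} (hD : DetR R A B)
    (l x y : ℂ) : (GnH_P A B l x y).det = MvPolynomial.aeval ![l ^ 2, x ^ 2, y ^ 2] R := by
  have hsq : ((-1 : ℂ) ^ n) * (-1) ^ n = 1 := by
    rw [← mul_pow]
    norm_num
  have h1 : (fromBlocks 0 1 1 0 : Matrix (Fin n ⊕ Fin n) (Fin n ⊕ Fin n) ℂ) *
      fromBlocks (x • A - (Complex.I * y) • B) (l • 1) (l • 1) (x • A + (Complex.I * y) • B) =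
      GnH_P A B l x y := by
    rw [GnH_P, fromBlocks_multiply]
    simp
  rw [← h1, det_mul, GnH_swap, GnH_two, ← mul_assoc, hsq, one_mul, hD]

private theorem GnH_herm {n : ℕ} {A B : Matrix (Fin n) (Fin n) ℂ} (hA : A.IsHermitian)
    (hB : B.IsHermitian) (l x y : ℝ) : (GnH_P A B (l : ℂ) (x : ℂ) (y : ℂ)).IsHermitian := by
  have hconj : ∀ r : ℝ, star ((r : ℂ)) = (r : ℂ) := fun r => Complex.conj_ofReal r
  have hI : star (Complex.I * (y : ℂ)) = -(Complex.I * (y : ℂ)) := by
    rw [star_mul', hconj]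
    show (starRingEnd ℂ) Complex.I * (y : ℂ) = -(Complex.I * (y : ℂ))
    rw [Complex.conj_I]
    ring
  refine IsHermitian.fromBlocks ?_ ?_ ?_
  · rw [IsHermitian, conjTranspose_smul, conjTranspose_one, hconj]
  · rw [conjTranspose_add, conjTranspose_smul, conjTranspose_smul, hA, hB, hconj, hI, neg_smul,
      sub_eq_add_neg]
  · rw [IsHermitian, conjTranspose_smul, conjTranspose_one, hconj]

private theorem GnH_dbl {n : ℕ} {R : TP} {A B : Matrix (Fin n) (Fin n) ℂ} (hD : DetR R A B)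
    (hA : A.IsHermitian) (hB : B.IsHermitian) (l x y : ℝ) (h0 : val R (l ^ 2) (x ^ 2) (y ^ 2) = 0)
    (hX : val (MvPolynomial.pderiv 0 R) (l ^ 2) (x ^ 2) (y ^ 2) = 0) :
    x * val (MvPolynomial.pderiv 1 R) (l ^ 2) (x ^ 2) (y ^ 2) = 0 ∧
      y * val (MvPolynomial.pderiv 2 R) (l ^ 2) (x ^ 2) (y ^ 2) = 0 := by
  have hp : ∀ Q : TP, MvPolynomial.aeval ![(l : ℂ) ^ 2, (x : ℂ) ^ 2, (y : ℂ) ^ 2] Q =
      ((val Q (l ^ 2) (x ^ 2) (y ^ 2) : ℝ) : ℂ) := by
    intro Q
    rw [← GnH_real]
    congr 1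
    push_cast
    rfl
  have hd0 : (GnH_P A B (l : ℂ) (x : ℂ) (y : ℂ)).det = 0 := by
    rw [GnH_det hD, hp, h0, Complex.ofReal_zero]
  -- derivative in `l`
  have htr : (GnH_P A B (l : ℂ) (x : ℂ) (y : ℂ)).adjugate.trace = 0 := by
    have h1 := GnH_jac (GnH_P A B 0 (x : ℂ) (y : ℂ)) 1 (l : ℂ)
    have h2 : ∀ s : ℂ, GnH_P A B 0 (x : ℂ) (y : ℂ) + s • 1 = GnH_P A B s (x : ℂ) (y : ℂ) := by
      intro s
      rw [GnH_P, GnH_P, ← fromBlocks_one, fromBlocks_smul, fromBlocks_add]
      congr 1 <;> simp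
    simp only [h2, GnH_det hD, mul_one] at h1
    have h3 := GnH_chain R (fun s => ![s ^ 2, (x : ℂ) ^ 2, (y : ℂ) ^ 2]) ![2 * (l : ℂ), 0, 0] (l : ℂ)
      (by
        intro k
        fin_cases k
        · simpa using hasDerivAt_pow 2 (l : ℂ)
        · exact hasDerivAt_const _ _
        · exact hasDerivAt_const _ _)
    rw [h1.unique h3, Fin.sum_univ_three]
    simp only [hp, hX]
    simp
  have hadj : (GnH_P A B (l : ℂ) (x : ℂ) (y : ℂ)).adjugate = 0 :=
    GnH_adj _ (GnH_herm hA hB l x y) hd0 (by rw [htr, Complex.zero_re])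
  constructor
  · have h1 := GnH_jac (GnH_P A B (l : ℂ) 0 (y : ℂ)) (fromBlocks 0 A A 0) (x : ℂ)
    have h2 : ∀ s : ℂ, GnH_P A B (l : ℂ) 0 (y : ℂ) + s • (fromBlocks 0 A A 0) =
        GnH_P A B (l : ℂ) s (y : ℂ) := by
      intro s
      rw [GnH_P, GnH_P, fromBlocks_smul, fromBlocks_add]
      congr 1
      · simp
      · simp [add_comm]
      · simp [add_comm, sub_eq_add_neg]
      · simp
    simp only [h2, GnH_det hD, hadj, zero_mul, trace_zero] at h1
    have h3 := GnH_chain R (fun s => ![(l : ℂ) ^ 2, s ^ 2, (y : ℂ) ^ 2]) ![0, 2 * (x : ℂ), 0] (x : ℂ)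
      (by
        intro k
        fin_cases k
        · exact hasDerivAt_const _ _
        · simpa using hasDerivAt_pow 2 (x : ℂ)
        · exact hasDerivAt_const _ _)
    have h4 := h1.unique h3
    rw [Fin.sum_univ_three] at h4
    simp only [hp] at h4
    have h5 : ((x * val (MvPolynomial.pderiv 1 R) (l ^ 2) (x ^ 2) (y ^ 2) : ℝ) : ℂ) = 0 := by
      push_cast
      simp at h4
      rcases h4 with h4 | h4
      · rw [h4]
        simp
      · rw [h4]
        simp
    exact_mod_cast h5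
  · have h1 := GnH_jac (GnH_P A B (l : ℂ) (x : ℂ) 0)
      (fromBlocks 0 (Complex.I • B) (-(Complex.I • B)) 0) (y : ℂ)
    have h2 : ∀ s : ℂ, GnH_P A B (l : ℂ) (x : ℂ) 0 +
        s • (fromBlocks 0 (Complex.I • B) (-(Complex.I • B)) 0) =
        GnH_P A B (l : ℂ) (x : ℂ) s := by
      intro s
      rw [GnH_P, GnH_P, fromBlocks_smul, fromBlocks_add]
      congr 1
      · simp
      · simp [smul_smul, mul_comm]
      · simp [smul_smul, mul_comm, sub_eq_add_neg]
      · simp
    simp only [h2, GnH_det hD, hadj, zero_mul, trace_zero] at h1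
    have h3 := GnH_chain R (fun s => ![(l : ℂ) ^ 2, (x : ℂ) ^ 2, s ^ 2]) ![0, 0, 2 * (y : ℂ)] (y : ℂ)
      (by
        intro k
        fin_cases k
        · exact hasDerivAt_const _ _
        · exact hasDerivAt_const _ _
        · simpa using hasDerivAt_pow 2 (y : ℂ))
    have h4 := h1.unique h3
    rw [Fin.sum_univ_three] at h4
    simp only [hp] at h4
    have h5 : ((y * val (MvPolynomial.pderiv 2 R) (l ^ 2) (x ^ 2) (y ^ 2) : ℝ) : ℂ) = 0 := by
      push_cast
      simp at h4
      rcases h4 with h4 | h4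
      · rw [h4]
        simp
      · rw [h4]
        simp
    exact_mod_cast h5


private lemma GnH_hom {n : ℕ} {R : TP} (hR : R.IsHomogeneous n) (c t y z : ℝ) :
    val R (c * t) (c * y) (c * z) = c ^ n * val R t y z := by
  unfold val
  rw [MvPolynomial.eval_eq', MvPolynomial.eval_eq', Finset.mul_sum]
  refine Finset.sum_congr rfl fun d hd => ?_
  have h : d 0 + d 1 + d 2 = n := by
    have h := hR (MvPolynomial.mem_support_iff.1 hd)
    have h2 : Finsupp.degree d = n := by
      rw [← h, Finsupp.degree_eq_weight_one]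
      rfl
    rw [Finsupp.degree_eq_sum, Fin.sum_univ_three] at h2
    exact h2
  rw [Fin.prod_univ_three, Fin.prod_univ_three, ← h]
  simp only [Matrix.cons_val_zero, Matrix.cons_val_one, Matrix.cons_val]
  ring

/-- no zero with `x = 0`, `y, z > 0` -/
private theorem GnH_pos {n : ℕ} {R : TP} {A B : Matrix (Fin n) (Fin n) ℂ} (hR : R.IsHomogeneous n)
    (hD : DetR R A B) (hA : A.IsHermitian) (hB : B.IsHermitian)
    (h3 : ∀ z : ℝ, val R 0 1 z = 0 → val (MvPolynomial.pderiv 2 R) 0 1 z ≠ 0) (y z : ℝ)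
    (hy : 0 < y) (hz : 0 < z) : val R 0 y z ≠ 0 := by
  intro h0
  set w : ℝ := √(z / y) with hw
  have hw0 : 0 < w := Real.sqrt_pos.2 (div_pos hz hy)
  have hw2 : w ^ 2 = z / y := Real.sq_sqrt (div_pos hz hy).le
  have h1 : val R 0 1 (w ^ 2) = 0 := by
    have h := GnH_hom hR y 0 1 (w ^ 2)
    rw [mul_zero, mul_one, hw2, mul_div_cancel₀ _ hy.ne', h0] at h
    rw [hw2]
    rcases mul_eq_zero.1 h.symm with h' | h'
    · exact absurd h' (pow_ne_zero _ hy.ne')
    · exact h'
  apply h3 _ h1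
  have hp : ∀ Q : TP, MvPolynomial.aeval ![(0 : ℂ), 1, (w : ℂ) ^ 2] Q =
      ((val Q 0 1 (w ^ 2) : ℝ) : ℂ) := by
    intro Q
    rw [← GnH_real]
    congr 1
    push_cast
    rfl
  let δ : ℂ → ℂ := fun s => (A + s • (Complex.I • B)).det
  have hδ : ∀ s, MvPolynomial.aeval ![(0 : ℂ), 1, s ^ 2] R = (-1) ^ n * (δ (-s) * δ s) := by
    intro s
    have h := hD 0 1 s
    rw [one_pow, one_smul, zero_smul, zero_sub, det_neg, det_mul, Fintype.card_fin] at h
    rw [h]
    simp only [δ, smul_smul, mul_comm Complex.I, sub_eq_add_neg, neg_mul, neg_smul]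
  have hconj : δ (-(w : ℂ)) = star (δ (w : ℂ)) := by
    simp only [δ]
    rw [← det_conjTranspose, conjTranspose_add, conjTranspose_smul, conjTranspose_smul, hA, hB]
    have e1 : star (w : ℂ) = (w : ℂ) := Complex.conj_ofReal w
    have e2 : star Complex.I = -Complex.I := Complex.conj_I
    rw [e1, e2, smul_smul, smul_smul]
    congr 2
    ring_nf
  have hz1 : δ (w : ℂ) = 0 ∧ δ (-(w : ℂ)) = 0 := by
    have h := hδ w
    rw [hp, h1, Complex.ofReal_zero] at h
    have h' : δ (-(w : ℂ)) * δ (w : ℂ) = 0 := by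
      rcases mul_eq_zero.1 h.symm with h'' | h''
      · exact absurd h'' (pow_ne_zero _ (by norm_num))
      · exact h''
    rcases mul_eq_zero.1 h' with h'' | h''
    · refine ⟨?_, h''⟩
      rw [hconj, star_eq_zero] at h''
      exact h''
    · refine ⟨h'', ?_⟩
      rw [hconj, h'', star_zero]
  have hd1 : HasDerivAt δ ((A + (w : ℂ) • (Complex.I • B)).adjugate * (Complex.I • B)).trace (w : ℂ) :=
    GnH_jac A (Complex.I • B) (w : ℂ)
  have hd2 : HasDerivAt (fun s => δ (-s))
      (-((A + (-(w : ℂ)) • (Complex.I • B)).adjugate * (Complex.I • B)).trace) (w : ℂ) := by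
    have h := GnH_jac A (Complex.I • B) (-(w : ℂ))
    have h' := HasDerivAt.scomp (w : ℂ) h (hasDerivAt_neg (w : ℂ))
    rw [neg_smul, one_smul] at h'
    exact h'
  have hd3 := (hd2.mul hd1).const_mul ((-1 : ℂ) ^ n)
  rw [hz1.1, hz1.2, mul_zero, zero_mul, add_zero, mul_zero] at hd3
  have hd4 := GnH_chain R (fun s => ![(0 : ℂ), 1, s ^ 2]) ![0, 0, 2 * (w : ℂ)] (w : ℂ) (by
    intro k
    fin_cases k
    · exact hasDerivAt_const _ _
    · exact hasDerivAt_const _ _
    · simpa using hasDerivAt_pow 2 (w : ℂ))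
  have hfun : (fun s : ℂ => MvPolynomial.aeval ![(0 : ℂ), 1, s ^ 2] R) =
      fun s => (-1 : ℂ) ^ n * ((fun s => δ (-s)) * δ) s := by
    funext s
    rw [hδ]
    rfl
  rw [hfun] at hd4
  have h4 := hd3.unique hd4
  rw [Fin.sum_univ_three] at h4
  simp only [hp] at h4
  simp at h4
  rcases h4 with h4 | h4
  · exact h4
  · exact absurd h4 hw0.ne'

theorem Gn_hyp (n : ℕ) (R : TP) (A B : Matrix (Fin n) (Fin n) ℂ) (_hn : 1 ≤ n)
    (hR : R.IsHomogeneous n) (hD : DetR R A B) (hS : Smooth R) (hA : A.IsHermitian)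
    (hB : B.IsHermitian)
    (h1 : ∀ t : ℝ, val R t 1 0 = 0 → val (MvPolynomial.pderiv 0 R) t 1 0 ≠ 0)
    (h2 : ∀ t : ℝ, val R t 0 1 = 0 → val (MvPolynomial.pderiv 0 R) t 0 1 ≠ 0)
    (h3 : ∀ z : ℝ, val R 0 1 z = 0 → val (MvPolynomial.pderiv 2 R) 0 1 z ≠ 0)
    (h4 : val R 0 1 0 ≠ 0) (h5 : val R 0 0 1 ≠ 0) :
    ∀ y z : ℝ, 0 ≤ y → 0 ≤ z → (y ≠ 0 ∨ z ≠ 0) →
      ∃ f : Fin n → ℝ, Function.Injective f ∧ ∀ k, 0 < f k ∧ val R (f k) y z = 0 := by
  intro y z hy hz hyz
  set x' : ℝ := √y with hx'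
  set y' : ℝ := √z with hy'
  have hx2 : x' ^ 2 = y := Real.sq_sqrt hy
  have hy2 : y' ^ 2 = z := Real.sq_sqrt hz
  set T : Matrix (Fin n) (Fin n) ℂ := (x' : ℂ) • A + (Complex.I * (y' : ℂ)) • B with hT
  have hTh : Tᴴ = (x' : ℂ) • A - (Complex.I * (y' : ℂ)) • B := by
    have hI : star (Complex.I * (y' : ℂ)) = -(Complex.I * (y' : ℂ)) := by
      rw [star_mul']
      show (starRingEnd ℂ) Complex.I * (starRingEnd ℂ) (y' : ℂ) = -(Complex.I * (y' : ℂ))
      rw [Complex.conj_I, Complex.conj_ofReal]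
      ring
    have hc : star (x' : ℂ) = (x' : ℂ) := Complex.conj_ofReal x'
    rw [hT, conjTranspose_add, conjTranspose_smul, conjTranspose_smul, hA, hB, hc, hI, neg_smul,
      sub_eq_add_neg]
  have hM := isHermitian_conjTranspose_mul_self T
  set f : Fin n → ℝ := hM.eigenvalues with hf
  have hf0 : ∀ k, 0 ≤ f k := fun k => eigenvalues_conjTranspose_mul_self_nonneg T k
  have hvalc : ∀ u : ℂ, MvPolynomial.aeval ![u, (y : ℂ), (z : ℂ)] R = ∏ k, (u - (f k : ℂ)) := by
    intro u
    have h := hD u (x' : ℂ) (y' : ℂ)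
    rw [← hTh, ← hT] at h
    have h6 : (![u, (x' : ℂ) ^ 2, (y' : ℂ) ^ 2] : Fin 3 → ℂ) = ![u, (y : ℂ), (z : ℂ)] := by
      rw [← hx2, ← hy2]
      push_cast
      rfl
    rw [h6] at h
    have h7 := congrArg (Polynomial.eval u) hM.charpoly_eq
    rw [eval_charpoly, Polynomial.eval_prod] at h7
    have h8 : (scalar (Fin n) u - Tᴴ * T) = u • (1 : Matrix (Fin n) (Fin n) ℂ) - Tᴴ * T := by
      rw [scalar_apply, ← smul_one_eq_diagonal]
    rw [h8, ← h] at h7
    rw [h7]
    refine Finset.prod_congr rfl fun k _ => ?_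
    rw [Polynomial.eval_sub, Polynomial.eval_X, Polynomial.eval_C]
    rfl
  have hval : ∀ u : ℝ, val R u y z = ∏ k, (u - f k) := by
    intro u
    have h := hvalc (u : ℂ)
    rw [GnH_real] at h
    have h9 : ((val R u y z : ℝ) : ℂ) = ((∏ k, (u - f k) : ℝ) : ℂ) := by
      rw [h]
      push_cast
      rfl
    exact_mod_cast h9
  have hzero : ∀ k, val R (f k) y z = 0 := fun k => by
    rw [hval]
    exact Finset.prod_eq_zero (Finset.mem_univ k) (sub_self _)
  have hpos : ∀ k, 0 < f k := by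
    intro k
    rcases (hf0 k).lt_or_eq with h | h
    · exact h
    · exfalso
      have h6 := hzero k
      rw [← h] at h6
      rcases hy.lt_or_eq with hy1 | hy1
      · rcases hz.lt_or_eq with hz1 | hz1
        · exact GnH_pos hR hD hA hB h3 y z hy1 hz1 h6
        · have h7 := GnH_hom hR y 0 1 0
          rw [mul_zero, mul_one] at h7
          rw [← hz1] at h6
          rw [h6] at h7
          rcases mul_eq_zero.1 h7.symm with h8 | h8
          · exact pow_ne_zero _ hy1.ne' h8
          · exact h4 h8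
      · rcases hz.lt_or_eq with hz1 | hz1
        · have h7 := GnH_hom hR z 0 0 1
          rw [mul_zero, mul_one] at h7
          rw [← hy1] at h6
          rw [h6] at h7
          rcases mul_eq_zero.1 h7.symm with h8 | h8
          · exact pow_ne_zero _ hz1.ne' h8
          · exact h5 h8
        · rcases hyz with h | h
          · exact h hy1.symm
          · exact h hz1.symm
  refine ⟨f, ?_, fun k => ⟨hpos k, hzero k⟩⟩
  intro i j hij
  by_contra hne
  have hX : val (MvPolynomial.pderiv 0 R) (f i) y z = 0 := by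
    have e1 := GnH_chain R (fun s => ![s, (y : ℂ), (z : ℂ)]) ![1, 0, 0] ((f i : ℝ) : ℂ) (by
      intro k
      fin_cases k
      · exact hasDerivAt_id _
      · exact hasDerivAt_const _ _
      · exact hasDerivAt_const _ _)
    have e2 : HasDerivAt (fun s : ℂ => ∏ k, (s - (f k : ℂ)))
        (∑ k, (∏ j ∈ Finset.univ.erase k, (((f i : ℝ) : ℂ) - (f j : ℂ))) • (1 : ℂ))
        ((f i : ℝ) : ℂ) := by
      apply HasDerivAt.fun_finsetProd
      intro k _
      exact (hasDerivAt_id _).sub_const _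
    rw [funext hvalc] at e1
    have e3 := e1.unique e2
    rw [Fin.sum_univ_three] at e3
    have e4 : ∑ k, (∏ j ∈ Finset.univ.erase k, (((f i : ℝ) : ℂ) - (f j : ℂ))) • (1 : ℂ) = 0 := by
      refine Finset.sum_eq_zero fun k _ => ?_
      rw [smul_eq_mul, mul_one]
      by_cases hk : k = i
      · rw [hk]
        refine Finset.prod_eq_zero (Finset.mem_erase.2 ⟨Ne.symm hne, Finset.mem_univ j⟩) ?_
        rw [hij, sub_self]
      · refine Finset.prod_eq_zero (Finset.mem_erase.2 ⟨Ne.symm hk, Finset.mem_univ i⟩) ?_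
        rw [sub_self]
    rw [e4] at e3
    simp only [GnH_real] at e3
    simp at e3
    exact e3
  have hl : (√(f i)) ^ 2 = f i := Real.sq_sqrt (hf0 i)
  obtain ⟨hY, hZ⟩ := GnH_dbl hD hA hB (√(f i)) x' y' (by rw [hl, hx2, hy2]; exact hzero i)
    (by rw [hl, hx2, hy2]; exact hX)
  rw [hl, hx2, hy2] at hY hZ
  rcases hy.lt_or_eq with hy1 | hy1
  · rcases hz.lt_or_eq with hz1 | hz1
    · have hY' : val (MvPolynomial.pderiv 1 R) (f i) y z = 0 := by
        rcases mul_eq_zero.1 hY with h | h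
        · exact absurd h (Real.sqrt_pos.2 hy1).ne'
        · exact h
      have hZ' : val (MvPolynomial.pderiv 2 R) (f i) y z = 0 := by
        rcases mul_eq_zero.1 hZ with h | h
        · exact absurd h (Real.sqrt_pos.2 hz1).ne'
        · exact h
      obtain ⟨k, hk⟩ := hS ![((f i : ℝ) : ℂ), (y : ℂ), (z : ℂ)] (by
        intro h
        have := congrFun h 1
        simp at this
        exact hy1.ne' this) (by rw [GnH_real, hzero i, Complex.ofReal_zero])
      rw [GnH_real] at hk
      apply hk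
      fin_cases k
      · simpa using hX
      · simpa using hY'
      · simpa using hZ'
    · rw [← hz1] at hX
      have h6 := hzero i
      rw [← hz1] at h6
      have h7 := GnH_hom hR y (f i / y) 1 0
      have h8 := GnH_hom (hR.pderiv (i := 0)) y (f i / y) 1 0
      rw [mul_div_cancel₀ _ hy1.ne', mul_one, mul_zero] at h7 h8
      rw [h6] at h7
      rw [hX] at h8
      refine h1 (f i / y) ?_ ?_
      · rcases mul_eq_zero.1 h7.symm with h | h
        · exact absurd h (pow_ne_zero _ hy1.ne')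
        · exact h
      · rcases mul_eq_zero.1 h8.symm with h | h
        · exact absurd h (pow_ne_zero _ hy1.ne')
        · exact h
  · rcases hz.lt_or_eq with hz1 | hz1
    · rw [← hy1] at hX
      have h6 := hzero i
      rw [← hy1] at h6
      have h7 := GnH_hom hR z (f i / z) 0 1
      have h8 := GnH_hom (hR.pderiv (i := 0)) z (f i / z) 0 1
      rw [mul_div_cancel₀ _ hz1.ne', mul_one, mul_zero] at h7 h8
      rw [h6] at h7
      rw [hX] at h8
      refine h2 (f i / z) ?_ ?_
      · rcases mul_eq_zero.1 h7.symm with h | h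
        · exact absurd h (pow_ne_zero _ hz1.ne')
        · exact h
      · rcases mul_eq_zero.1 h8.symm with h | h
        · exact absurd h (pow_ne_zero _ hz1.ne')
        · exact h
    · rcases hyz with h | h
      · exact h hy1.symm
      · exact h hz1.symm

end Pool.Agent.RSV
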