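import Pool.Agent.RSV.GnL
import Pool.Agent.RSV.GnH

/-!
# RSV module Gn: a generic pair gives a good form
-/

set_option autoImplicit false

namespace Pool.Agent.RSV

open Matrix Filter Topology
open scoped ComplexConjugate

private lemma Gn_val (R : TP) (x y z : ℝ) : val (swp R) x y z = val R x z y := by
  unfold val swp
  rw [MvPolynomial.eval_rename]
  congr 2
  funext i
  fin_cases i
  · rfl
  · rfl
  · rfl

private lemma Gn_pderiv (R : TP) (i : Fin 3) :
    MvPolynomial.pderiv (Equiv.swap (1 : Fin 3) 2 i) (swp R) = swp (MvPolynomial.pderiv i R) := by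
  unfold swp
  exact MvPolynomial.pderiv_rename (Equiv.injective _) i R

private lemma Gn_aeval (v : Fin 3 → ℂ) (P : TP) :
    MvPolynomial.aeval v (swp P) = MvPolynomial.aeval (v ∘ Equiv.swap (1 : Fin 3) 2) P := by
  unfold swp
  rw [MvPolynomial.aeval_rename]

private lemma Gn_smooth {R : TP} (h : Smooth R) : Smooth (swp R) := by
  intro v hv h0
  rw [Gn_aeval] at h0
  have hv' : v ∘ Equiv.swap (1 : Fin 3) 2 ≠ 0 := by
    intro h1
    apply hv
    funext i
    have h2 := congrFun h1 (Equiv.swap (1 : Fin 3) 2 i)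
    simpa using h2
  obtain ⟨i, hi⟩ := h _ hv' h0
  refine ⟨Equiv.swap (1 : Fin 3) 2 i, ?_⟩
  rw [Gn_pderiv, Gn_aeval]
  exact hi

private lemma Gn_hom {R : TP} {n : ℕ} (h : R.IsHomogeneous n) : (swp R).IsHomogeneous n := by
  unfold swp
  exact h.rename_isHomogeneous

/-- the values on `z = 0` -/
private lemma Gn_ra {n : ℕ} {R : TP} {A B : Matrix (Fin n) (Fin n) ℂ} {a : Fin n → ℝ}
    (hD : DetR R A B) (hA : HasEig A a) (t : ℝ) : val R t 1 0 = ∏ i, (t - a i ^ 2) := by
  have h := hD (t : ℂ) 1 0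
  have h1 : (1 : ℂ) • A - (Complex.I * 0) • B = A := by rw [one_smul, mul_zero, zero_smul, sub_zero]
  have h2 : (1 : ℂ) • A + (Complex.I * 0) • B = A := by rw [one_smul, mul_zero, zero_smul, add_zero]
  rw [h1, h2, Gn_sq hA] at h
  have h3 := Gn_real R t 1 0
  have h4 : (![(t : ℂ), (1 : ℂ) ^ 2, (0 : ℂ) ^ 2] : Fin 3 → ℂ) =
      ![(t : ℂ), ((1 : ℝ) : ℂ), ((0 : ℝ) : ℂ)] := by
    norm_num
  rw [h4, h3] at h
  have h5 : ((val R t 1 0 : ℝ) : ℂ) = ((∏ i, (t - a i ^ 2) : ℝ) : ℂ) := by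
    rw [h]
    push_cast
    rfl
  exact_mod_cast h5

/-- the form of the exchanged pair -/
private lemma Gn_sw {n : ℕ} {R : TP} {A B : Matrix (Fin n) (Fin n) ℂ}
    (hD : DetR R A B) : DetR (swp R) B (-A) := by
  intro u x y
  rw [Gn_aeval]
  have h1 : (![u, x ^ 2, y ^ 2] : Fin 3 → ℂ) ∘ Equiv.swap (1 : Fin 3) 2 = ![u, y ^ 2, x ^ 2] := by
    funext i
    fin_cases i
    · rfl
    · rfl
    · rfl
  rw [h1, hD]
  congr 2
  have h2 : y • A - (Complex.I * x) • B = (-Complex.I) • (x • B - (Complex.I * y) • -A) := by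
    rw [smul_neg, smul_sub, smul_neg, smul_smul, smul_smul]
    have : -Complex.I * (Complex.I * y) = y := by
      rw [← mul_assoc, neg_mul, Complex.I_mul_I, neg_neg, one_mul]
    rw [this]
    module
  have h3 : y • A + (Complex.I * x) • B = (Complex.I) • (x • B + (Complex.I * y) • -A) := by
    rw [smul_neg, smul_add, smul_neg, smul_smul, smul_smul]
    have : Complex.I * (Complex.I * y) = -y := by
      rw [← mul_assoc, Complex.I_mul_I, neg_mul, one_mul]
    rw [this]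
    module
  rw [h2, h3, Matrix.smul_mul, Matrix.mul_smul, smul_smul]
  have : -Complex.I * Complex.I = 1 := by
    rw [neg_mul, Complex.I_mul_I, neg_neg]
  rw [this, one_smul]

/-- the values on `y = z` -/
private lemma Gn_rs {n : ℕ} {R : TP} {A B : Matrix (Fin n) (Fin n) ℂ} {s : Fin n → ℝ}
    (hD : DetR R A B) (hA : A.IsHermitian) (hB : B.IsHermitian)
    (hs : HasSing (A + Complex.I • B) s) (t : ℝ) : val R t 1 1 = ∏ i, (t - s i ^ 2) := by
  have h := hD (t : ℂ) 1 1
  have h1 : (1 : ℂ) • A - (Complex.I * 1) • B = (A + Complex.I • B)ᴴ := by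
    rw [one_smul, mul_one, conjTranspose_add, conjTranspose_smul, hA.eq, hB.eq, Complex.star_def,
      Complex.conj_I, neg_smul, sub_eq_add_neg]
  have h2 : (1 : ℂ) • A + (Complex.I * 1) • B = A + Complex.I • B := by rw [one_smul, mul_one]
  have h6 := congrArg (Polynomial.eval (t : ℂ)) hs.2.2
  rw [eval_charpoly, Polynomial.eval_prod, scalar_apply, ← smul_one_eq_diagonal] at h6
  rw [h1, h2, h6] at h
  have h3 := Gn_real R t 1 1
  have h4 : (![(t : ℂ), (1 : ℂ) ^ 2, (1 : ℂ) ^ 2] : Fin 3 → ℂ) =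
      ![(t : ℂ), ((1 : ℝ) : ℂ), ((1 : ℝ) : ℂ)] := by
    norm_num
  rw [h4, h3] at h
  have h5 : ((val R t 1 1 : ℝ) : ℂ) = ((∏ i, (t - s i ^ 2) : ℝ) : ℂ) := by
    rw [h]
    push_cast
    refine Finset.prod_congr rfl fun i _ => ?_
    rw [Polynomial.eval_sub, Polynomial.eval_X, Polynomial.eval_C]
  exact_mod_cast h5

theorem thm_Gn (hCa : St_Ca) : St_Gn := by
  intro n R A B a b s hn hR hD hS hA hB hs h1 h2 h3 h4 h5
  have ra := Gn_ra hD hA
  have rb : ∀ t : ℝ, val R t 0 1 = ∏ i, (t - b i ^ 2) := by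
    intro t
    have := Gn_ra (Gn_sw hD) hB t
    rw [Gn_val] at this
    exact this
  have ha0 : ∀ i, a i ≠ 0 := by
    intro i hi
    apply h4
    rw [ra]
    apply Finset.prod_eq_zero (Finset.mem_univ i)
    rw [hi]
    ring
  have hb0 : ∀ i, b i ≠ 0 := by
    intro i hi
    apply h5
    rw [rb]
    apply Finset.prod_eq_zero (Finset.mem_univ i)
    rw [hi]
    ring
  refine ⟨hR, ra, rb, Gn_rs hD hA.1 hB.1 hs, hs.1, hS,
    Gn_hyp n R A B hn hR hD hS hA.1 hB.1 h1 h2 h3 h4 h5, h3, ?_, ?_⟩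
  · apply hCa n R A B a hn hR hB.1 hD hS hA ha0
    intro i
    apply h1
    rw [ra]
    apply Finset.prod_eq_zero (Finset.mem_univ i)
    ring
  · apply hCa n (swp R) B (-A) b hn (Gn_hom hR) hA.1.neg (Gn_sw hD) (Gn_smooth hS) hB hb0
    intro i
    have h6 : MvPolynomial.pderiv 0 (swp R) = swp (MvPolynomial.pderiv 0 R) := by
      have := Gn_pderiv R 0
      rw [Equiv.swap_apply_of_ne_of_ne (by decide) (by decide)] at this
      exact this
    rw [h6, Gn_val]
    apply h2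
    rw [rb]
    apply Finset.prod_eq_zero (Finset.mem_univ i)
    ring

end Pool.Agent.RSV
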