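import Pool.Agent.RSV.StD

/-!
# RSV, module H3 (helper98): the parity
-/

set_option autoImplicit false

namespace Pool.Agent.RSV

open MvPolynomial Filter Topology Module
open scoped ComplexConjugate

/-- evaluation as a ring homomorphism -/
private noncomputable def H3_ev (x y : ℂ) : BC →+* ℂ :=
  (Polynomial.evalRingHom x).comp (Polynomial.mapRingHom (Polynomial.evalRingHom y))

private theorem H3_ev_apply (x y : ℂ) (f : BC) : H3_ev x y f = evc f x y := rfl

private theorem H3_mul (f g : BC) (x y : ℂ) : evc (f * g) x y = evc f x y * evc g x y := by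
  rw [← H3_ev_apply, map_mul]
  rfl

private theorem H3_add (f g : BC) (x y : ℂ) : evc (f + g) x y = evc f x y + evc g x y := by
  rw [← H3_ev_apply, map_add]
  rfl

private theorem H3_neg (f : BC) (x y : ℂ) : evc (-f) x y = -evc f x y := by
  rw [← H3_ev_apply, map_neg]
  rfl

private theorem H3_rho (α β : TP) (x y : ℂ) :
    evc (chc α + Polynomial.C (Polynomial.C Complex.I * Polynomial.X) * chc β) x y =
      evc (chc α) x y + Complex.I * y * evc (chc β) x y := by
  rw [H3_add, H3_mul]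
  congr 2
  simp [evc]

private theorem H3_real (F : TP) (x z : ℝ) :
    aeval ![(x : ℂ), 1, (z : ℂ)] F = ((val F x 1 z : ℝ) : ℂ) := by
  have h1 : (![(x : ℂ), 1, (z : ℂ)] : Fin 3 → ℂ) = algebraMap ℝ ℂ ∘ ![x, 1, z] := by
    funext i
    fin_cases i <;> simp
  rw [h1, aeval_algebraMap_apply]
  rfl

private theorem H3_od_neg {O : Type} [CommRing O] (p : Ideal O) (f : O) :
    od p (-f) = od p f := by
  unfold od
  congr 1
  ext k
  exact (p ^ k).neg_mem_iff

/-- the sign for `x > 0` -/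
private theorem H3_pos (S A B η k₁ k₂ : ℝ) (hAB : B ^ 2 ≤ A ^ 2) (h : |η| * |k₂| ≤ S * k₁)
    (hS : S = 1 ∨ S = -1) : 0 ≤ S * ((A - B) * (A * k₁ - η * B * k₂)) := by
  have hS1 : |S| = 1 := by rcases hS with h | h <;> simp [h]
  by_cases hA : A = 0
  · have hB : B = 0 := by
      rw [hA] at hAB
      nlinarith [sq_nonneg B]
    rw [hA, hB]
    simp
  · have h1 : 0 ≤ (A - B) * A := by
      have h2 : |B| ≤ |A| := sq_le_sq.1 hAB
      have h3 : B * A ≤ |B| * |A| := by
        rw [← abs_mul]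
        exact le_abs_self _
      have h4 : |B| * |A| ≤ |A| * |A| := mul_le_mul_of_nonneg_right h2 (abs_nonneg _)
      have h5 : |A| * |A| = A * A := abs_mul_abs_self A
      nlinarith
    have h2 : 0 ≤ S * (A * k₁ - η * B * k₂) * A := by
      have h3 : S * (η * B * k₂) * A ≤ |η| * |k₂| * (A * A) := by
        have h4 : S * (η * B * k₂) * A ≤ |S * (η * B * k₂) * A| := le_abs_self _
        have h5 : |S * (η * B * k₂) * A| = |η| * |k₂| * (|B| * |A|) := by
          rw [abs_mul, abs_mul, abs_mul, abs_mul, hS1]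
          ring
        have h6 : |B| * |A| ≤ A * A := by
          have h7 : |B| ≤ |A| := sq_le_sq.1 hAB
          have h8 : |B| * |A| ≤ |A| * |A| := mul_le_mul_of_nonneg_right h7 (abs_nonneg _)
          rwa [abs_mul_abs_self] at h8
        have h9 : |η| * |k₂| * (|B| * |A|) ≤ |η| * |k₂| * (A * A) :=
          mul_le_mul_of_nonneg_left h6 (by positivity)
        linarith
      have h4 : |η| * |k₂| * (A * A) ≤ S * k₁ * (A * A) :=
        mul_le_mul_of_nonneg_right h (mul_self_nonneg A)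
      nlinarith
    have h3 : 0 ≤ ((A - B) * A) * (S * (A * k₁ - η * B * k₂) * A) := mul_nonneg h1 h2
    have h4 : ((A - B) * A) * (S * (A * k₁ - η * B * k₂) * A) =
        (A ^ 2) * (S * ((A - B) * (A * k₁ - η * B * k₂))) := by ring
    rw [h4] at h3
    exact nonneg_of_mul_nonneg_right h3 (by positivity)

/-- the sign for `x < 0`; `σ` is the sign of `η` and `B = η β` -/
private theorem H3_negx (S σ A η β k₁ k₂ : ℝ) (hAB : A ^ 2 ≤ (η * β) ^ 2)
    (h : |k₁| ≤ S * (|η| * k₂)) (hS : S = 1 ∨ S = -1) (hσ : |η| = σ * η) (hη : η ≠ 0)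
    (hσ1 : σ = 1 ∨ σ = -1) :
    0 ≤ S * σ * ((A - η * β) * (A * k₁ - η * (η * β) * k₂)) := by
  have hS1 : |S| = 1 := by rcases hS with h | h <;> simp [h]
  have hS2 : S * S = 1 := by rcases hS with h | h <;> simp [h]
  have hσ2 : σ * σ = 1 := by rcases hσ1 with h | h <;> simp [h]
  have hη0 : 0 < |η| := abs_pos.2 hη
  by_cases hβ : β = 0
  · have hA : A = 0 := by
      rw [hβ] at hAB
      nlinarith [sq_nonneg A]
    rw [hA, hβ]
    simp
  · have h1 : 0 ≤ -(η * β) * (A - η * β) := by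
      have h2 : |A| ≤ |η * β| := sq_le_sq.1 hAB
      have h3 : (η * β) * A ≤ |η * β| * |A| := by
        rw [← abs_mul]
        exact le_abs_self _
      have h4 : |η * β| * |A| ≤ |η * β| * |η * β| := mul_le_mul_of_nonneg_left h2 (abs_nonneg _)
      have h5 : |η * β| * |η * β| = (η * β) * (η * β) := abs_mul_abs_self _
      nlinarith
    have h2 : 0 ≤ -(S * β) * (A * k₁ - η * (η * β) * k₂) := by
      have h3 : S * β * (A * k₁) ≤ |η| * (β * β) * |k₁| := by
        have h4 : S * β * (A * k₁) ≤ |S * β * (A * k₁)| := le_abs_self _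
        have h5 : |S * β * (A * k₁)| = |β| * |A| * |k₁| := by
          rw [abs_mul, abs_mul, abs_mul, hS1]
          ring
        have h6 : |β| * |A| ≤ |η| * (β * β) := by
          have h7 : |A| ≤ |η * β| := sq_le_sq.1 hAB
          rw [abs_mul] at h7
          have h8 : |β| * |A| ≤ |β| * (|η| * |β|) := mul_le_mul_of_nonneg_left h7 (abs_nonneg _)
          have h9 : |β| * (|η| * |β|) = |η| * (β * β) := by
            rw [← abs_mul_abs_self β]
            ring
          linarith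
        have h9 : |β| * |A| * |k₁| ≤ |η| * (β * β) * |k₁| :=
          mul_le_mul_of_nonneg_right h6 (abs_nonneg _)
        linarith
      have h4 : |η| * (β * β) * |k₁| ≤ |η| * (β * β) * (S * (|η| * k₂)) :=
        mul_le_mul_of_nonneg_left h (mul_nonneg (abs_nonneg η) (mul_self_nonneg β))
      have h5 : |η| * (β * β) * (S * (|η| * k₂)) = S * β * (η * (η * β) * k₂) := by
        have h6 : |η| * |η| = η * η := abs_mul_abs_self η
        calc |η| * (β * β) * (S * (|η| * k₂)) = (|η| * |η|) * (β * β) * S * k₂ := by ring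
          _ = S * β * (η * (η * β) * k₂) := by rw [h6]; ring
      nlinarith
    have h3 : 0 ≤ (-(η * β) * (A - η * β)) * (-(S * β) * (A * k₁ - η * (η * β) * k₂)) :=
      mul_nonneg h1 h2
    have h4 : (-(η * β) * (A - η * β)) * (-(S * β) * (A * k₁ - η * (η * β) * k₂)) =
        (|η| * β ^ 2) * (S * σ * ((A - η * β) * (A * k₁ - η * (η * β) * k₂))) := by
      rw [hσ]
      calc (-(η * β) * (A - η * β)) * (-(S * β) * (A * k₁ - η * (η * β) * k₂)) =
          η * β ^ 2 * (S * ((A - η * β) * (A * k₁ - η * (η * β) * k₂))) := by ring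
        _ = (σ * σ) * (η * β ^ 2 * (S * ((A - η * β) * (A * k₁ - η * (η * β) * k₂)))) := by
          rw [hσ2, one_mul]
        _ = _ := by ring
    rw [h4] at h3
    exact nonneg_of_mul_nonneg_right h3 (by positivity)

/-- [H3] -/
theorem thm_H3 : St_Mon → St_Ped → St_Od → St_Sym → St_Par → St_H3 := by
  intro hMon hPed hOd hSym hPar n R a b s' hn hR d α β ζ e κ₁ κ₂ S hNF hK s τ hs hτ p hp hpe hX
  obtain ⟨_, _, _, _, hev⟩ := hMon n R a b s' hn hR
  have hP := hPed n R a b s' hn hR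
  have hded : IsDedekindDomain (AdjoinRoot (chc R)) := hP.ded
  obtain ⟨hod1, hod2, _, _, _⟩ := hOd (AdjoinRoot (chc R))
  obtain ⟨hbot, x₀, y₀, hF, hpt⟩ := hP.pt p hp
  obtain ⟨⟨s1, τ1, hs1, hτ1, hss, hττ, hsτ⟩, hsym2, hevs, hevc⟩ := hSym R
  have hmk : Function.Surjective (AdjoinRoot.mk (chc R)) := AdjoinRoot.mk_surjective
  have hs_eq : ∀ x, s x = s1 x := by
    intro x
    obtain ⟨f, rfl⟩ := hmk x
    rw [hs, hs1]
  have hssx : ∀ x, s (s x) = x := by
    intro x
    rw [hs_eq, hs_eq, hss]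
  have hmemτ : ∀ x, τ x ∈ p.map τ ↔ x ∈ p := by
    intro x
    constructor
    · intro h
      obtain ⟨x', h1, h2⟩ := (Ideal.mem_map_of_equiv τ _).1 h
      exact (τ.injective h2) ▸ h1
    · intro h
      exact Ideal.mem_map_of_mem _ h
  have hmems : ∀ x, x ∈ p.map s ↔ s x ∈ p := by
    intro x
    constructor
    · intro h
      obtain ⟨x', h1, h2⟩ := (Ideal.mem_map_of_equiv s _).1 h
      rw [← h2, hssx]
      exact h1
    · intro h
      have h1 := Ideal.mem_map_of_mem s h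
      rwa [hssx] at h1
  have hkey : ∀ f : BC, evc f x₀ y₀ = 0 ↔ evc f (conj x₀) (-conj y₀) = 0 := by
    intro f
    rw [← hpt f, ← hmemτ, hpe, hmems, hτ, hs, hpt, hevs, hevc, map_neg]
    exact map_eq_zero _
  have hx1 : conj x₀ = x₀ := by
    have h1 := (hkey (Polynomial.X - Polynomial.C (Polynomial.C x₀))).1 (by simp [evc])
    have h2 : evc (Polynomial.X - Polynomial.C (Polynomial.C x₀)) (conj x₀) (-conj y₀) =
        conj x₀ - x₀ := by simp [evc]
    rw [h2] at h1
    exact sub_eq_zero.1 h1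
  have hy1 : -conj y₀ = y₀ := by
    have h1 := (hkey (Polynomial.C (Polynomial.X - Polynomial.C y₀))).1 (by simp [evc])
    have h2 : evc (Polynomial.C (Polynomial.X - Polynomial.C y₀)) (conj x₀) (-conj y₀) =
        -conj y₀ - y₀ := by simp [evc]
    rw [h2] at h1
    exact sub_eq_zero.1 h1
  obtain ⟨x, rfl⟩ := Complex.conj_eq_iff_real.1 hx1
  obtain ⟨η, rfl⟩ : ∃ η : ℝ, y₀ = η * Complex.I := by
    refine ⟨y₀.im, ?_⟩
    have h1 := congrArg Complex.re hy1
    simp at h1
    apply Complex.ext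
    · simp
      linarith
    · simp
  have hsq : ∀ η : ℝ, ((η : ℂ) * Complex.I) ^ 2 = ((-η ^ 2 : ℝ) : ℂ) := by
    intro η
    rw [mul_pow, Complex.I_sq]
    push_cast
    ring
  have hval : ∀ (F : TP) (x η : ℝ), evc (chc F) x (η * Complex.I) =
      ((val F x 1 (-η ^ 2) : ℝ) : ℂ) := by
    intro F x η
    rw [hev, hsq]
    exact H3_real F x _
  have hF' : val R x 1 (-η ^ 2) = 0 := by
    rw [hval] at hF
    exact_mod_cast hF
  have hx0 : x ≠ 0 := by
    intro h
    apply hX
    rw [hpt]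
    simp [evc, h]
  have hGv : ∀ x z : ℝ, val (X 1 * α * κ₁ + X 2 * β * κ₂) x 1 z =
      val α x 1 z * val κ₁ x 1 z + z * val β x 1 z * val κ₂ x 1 z := by
    intro x z
    simp [val]
  have hρv : ∀ x η : ℝ, evc (chc α +
      Polynomial.C (Polynomial.C Complex.I * Polynomial.X) * chc β) x (η * Complex.I) =
      ((val α x 1 (-η ^ 2) - η * val β x 1 (-η ^ 2) : ℝ) : ℂ) := by
    intro x η
    rw [H3_rho, hval, hval]
    have h1 : Complex.I * ((η : ℂ) * Complex.I) = -(η : ℂ) := by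
      calc Complex.I * ((η : ℂ) * Complex.I) = (η : ℂ) * (Complex.I * Complex.I) := by ring
        _ = -(η : ℂ) := by rw [Complex.I_mul_I]; ring
    rw [h1]
    push_cast
    ring
  have hmem : ∀ f : BC, evc f x (η * Complex.I) ≠ 0 → od p (AdjoinRoot.mk (chc R) f) = 0 := by
    intro f hf
    have h1 : AdjoinRoot.mk (chc R) f ∉ p := fun h => hf ((hpt f).1 h)
    by_contra h2
    have h3 : AdjoinRoot.mk (chc R) f ≠ 0 := fun h => h1 (h ▸ p.zero_mem)
    have h4 := (hod1 p hp hbot _ h3 1).2 (Nat.one_le_iff_ne_zero.2 h2)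
    rw [pow_one] at h4
    exact h1 h4
  have hA : ∀ x1 : ℝ, 0 < x1 → val R x1 1 0 = 0 → val α x1 1 0 ≠ 0 ∧
      val (X 1 * α * κ₁ + X 2 * β * κ₂) x1 1 0 ≠ 0 := by
    intro x1 h1 h2
    have h3 := hK.hI x1 1 0 h1 zero_le_one le_rfl (Or.inl one_ne_zero) h2
    have h4 : val α x1 1 0 * val κ₁ x1 1 0 ≠ 0 := by
      intro h4
      rw [one_mul, h4, zero_mul, zero_mul, add_zero, mul_zero] at h3
      exact lt_irrefl _ h3
    refine ⟨left_ne_zero_of_mul h4, ?_⟩
    rw [hGv, zero_mul, zero_mul, add_zero]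
    exact h4
  by_cases hη : η = 0
  · subst hη
    have h1 : val R x 1 0 = 0 := by simpa using hF'
    have hxp : 0 < x := by
      have h2 := h1
      rw [hR.ra x] at h2
      obtain ⟨i, _, hi⟩ := Finset.prod_eq_zero_iff.1 h2
      have h3 : x = a i ^ 2 := by linarith
      exact lt_of_le_of_ne (h3 ▸ sq_nonneg _) (Ne.symm hx0)
    obtain ⟨h2, h3⟩ := hA x hxp h1
    rw [hmem _ (by rw [hval]; simpa using h3), hmem _ (by rw [hρv]; simpa using h2)]
  · have hz : -η ^ 2 < 0 := by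
      have := sq_pos_of_ne_zero hη
      linarith
    obtain ⟨hS, hSev⟩ := hK.loc x (-η ^ 2) hx0 hz hF'
    have ht : Tendsto (fun q : ℝ × ℝ => (q.1, -q.2 ^ 2)) (𝓝 (x, η)) (𝓝 (x, -η ^ 2)) :=
      (by fun_prop : Continuous fun q : ℝ × ℝ => (q.1, -q.2 ^ 2)).tendsto' _ _ rfl
    have hSev' := ht.eventually hSev
    have hrel : ∀ x z : ℝ, val R x 1 z = 0 →
        val α x 1 z ^ 2 + z * val β x 1 z ^ 2 = x * val ζ x 1 z ^ 2 := by
      intro x z h
      obtain ⟨W, hW⟩ := hNF.rel
      have h1 : eval ![x, 1, z] (X 1 * α ^ 2 + X 2 * β ^ 2 - X 0 * ζ ^ 2) =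
          eval ![x, 1, z] (R * W) := by rw [hW]
      have h2 : eval ![x, 1, z] R = 0 := h
      rw [map_mul, h2, zero_mul] at h1
      simp at h1
      unfold val
      linarith
    have hfv : ∀ x η : ℝ, evc ((chc α +
        Polynomial.C (Polynomial.C Complex.I * Polynomial.X) * chc β) *
          chc (X 1 * α * κ₁ + X 2 * β * κ₂)) x (η * Complex.I) =
        (((val α x 1 (-η ^ 2) - η * val β x 1 (-η ^ 2)) *
          val (X 1 * α * κ₁ + X 2 * β * κ₂) x 1 (-η ^ 2) : ℝ) : ℂ) := by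
      intro x η
      rw [H3_mul, hρv, hval]
      push_cast
      ring
    have hdiv : ¬ chc R ∣ (chc α +
        Polynomial.C (Polynomial.C Complex.I * Polynomial.X) * chc β) *
          chc (X 1 * α * κ₁ + X 2 * β * κ₂) := by
      rintro ⟨W, hW⟩
      obtain ⟨g, _, hg⟩ := hR.hyp 1 0 zero_le_one le_rfl (Or.inl one_ne_zero)
      obtain ⟨hg1, hg2⟩ := hg ⟨0, hn⟩
      obtain ⟨h2, h3⟩ := hA _ hg1 hg2
      have h4 := hfv (g ⟨0, hn⟩) 0
      rw [hW, H3_mul, hval] at h4
      have h5 : val R (g ⟨0, hn⟩) 1 (-0 ^ 2) = 0 := by simpa using hg2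
      rw [h5] at h4
      have h6 : (-(0 : ℝ) ^ 2) = 0 := by norm_num
      rw [h6, Complex.ofReal_zero, zero_mul, zero_mul, sub_zero] at h4
      have h7 := Complex.ofReal_eq_zero.1 h4.symm
      exact mul_ne_zero h2 h3 h7
    have hfin : ∀ ε : ℝ, (ε = 1 ∨ ε = -1) → (∀ᶠ q : ℝ × ℝ in 𝓝 (x, η),
        val R q.1 1 (-q.2 ^ 2) = 0 → 0 ≤ ε * ((val α q.1 1 (-q.2 ^ 2) -
          q.2 * val β q.1 1 (-q.2 ^ 2)) *
            val (X 1 * α * κ₁ + X 2 * β * κ₂) q.1 1 (-q.2 ^ 2))) →
        Even (od p (AdjoinRoot.mk (chc R) ((chc α +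
          Polynomial.C (Polynomial.C Complex.I * Polynomial.X) * chc β) *
            chc (X 1 * α * κ₁ + X 2 * β * κ₂)))) := by
      intro ε hε hq
      rcases hε with rfl | rfl
      · refine hPar n R a b s' hn hR x η hη hF' p hp hpt _ ?_ hdiv ?_
        · intro x η
          rw [hfv]
          exact Complex.ofReal_im _
        · filter_upwards [hq] with q hq1 hq2
          rw [hfv, Complex.ofReal_re]
          have := hq1 hq2
          linarith
      · have h1 := hPar n R a b s' hn hR x η hη hF' p hp hpt (-((chc α +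
          Polynomial.C (Polynomial.C Complex.I * Polynomial.X) * chc β) *
            chc (X 1 * α * κ₁ + X 2 * β * κ₂))) ?_ (fun h => hdiv ((dvd_neg).1 h)) ?_
        · rw [map_neg, H3_od_neg] at h1
          exact h1
        · intro x η
          rw [H3_neg, hfv, ← Complex.ofReal_neg]
          exact Complex.ofReal_im _
        · filter_upwards [hq] with q hq1 hq2
          rw [H3_neg, hfv, ← Complex.ofReal_neg, Complex.ofReal_re]
          have := hq1 hq2
          linarith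
    have heven : Even (od p (AdjoinRoot.mk (chc R) ((chc α +
          Polynomial.C (Polynomial.C Complex.I * Polynomial.X) * chc β) *
            chc (X 1 * α * κ₁ + X 2 * β * κ₂)))) := by
      have hηn : ∀ᶠ q : ℝ × ℝ in 𝓝 (x, η), q.2 ≠ 0 :=
        (continuous_snd.tendsto (x, η)).eventually (isOpen_ne.mem_nhds hη)
      rcases lt_or_gt_of_ne hx0 with hx | hx
      · have hxe : ∀ᶠ q : ℝ × ℝ in 𝓝 (x, η), q.1 < 0 :=
          (continuous_fst.tendsto (x, η)).eventually (gt_mem_nhds hx)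
        obtain ⟨σ, hσ1, hσe⟩ : ∃ σ : ℝ, (σ = 1 ∨ σ = -1) ∧
            ∀ᶠ q : ℝ × ℝ in 𝓝 (x, η), |q.2| = σ * q.2 := by
          rcases lt_or_gt_of_ne hη with h | h
          · refine ⟨-1, Or.inr rfl, ?_⟩
            filter_upwards [(continuous_snd.tendsto (x, η)).eventually (gt_mem_nhds h)] with q hq
            rw [abs_of_neg hq]
            ring
          · refine ⟨1, Or.inl rfl, ?_⟩
            filter_upwards [(continuous_snd.tendsto (x, η)).eventually (lt_mem_nhds h)] with q hq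
            rw [abs_of_pos hq]
            ring
        refine hfin (S x (-η ^ 2) * σ) ?_ ?_
        · rcases hS with h | h <;> rcases hσ1 with h' | h' <;> rw [h, h'] <;> norm_num
        · filter_upwards [hSev', hxe, hσe, hηn] with q h1 h2 h3 h4 h5
          have hzq : -q.2 ^ 2 < 0 := by
            have := sq_pos_of_ne_zero h4
            linarith
          have h6 := h1 h2.ne hzq h5
          have h7 := hK.hIII q.1 (-q.2 ^ 2) h2 hzq h5
          rw [neg_neg, Real.sqrt_sq_eq_abs, h6] at h7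
          have h8 := hrel q.1 (-q.2 ^ 2) h5
          have h9 : val α q.1 1 (-q.2 ^ 2) ^ 2 ≤ (q.2 * val β q.1 1 (-q.2 ^ 2)) ^ 2 := by
            have h10 : q.1 * val ζ q.1 1 (-q.2 ^ 2) ^ 2 ≤ 0 :=
              mul_nonpos_of_nonpos_of_nonneg h2.le (sq_nonneg _)
            nlinarith
          have h10 := H3_negx (S x (-η ^ 2)) σ (val α q.1 1 (-q.2 ^ 2)) q.2
            (val β q.1 1 (-q.2 ^ 2)) (val κ₁ q.1 1 (-q.2 ^ 2)) (val κ₂ q.1 1 (-q.2 ^ 2)) h9 h7 hS
            h3 h4 hσ1
          rw [hGv]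
          have h11 : val α q.1 1 (-q.2 ^ 2) * val κ₁ q.1 1 (-q.2 ^ 2) +
              -q.2 ^ 2 * val β q.1 1 (-q.2 ^ 2) * val κ₂ q.1 1 (-q.2 ^ 2) =
              val α q.1 1 (-q.2 ^ 2) * val κ₁ q.1 1 (-q.2 ^ 2) -
                q.2 * (q.2 * val β q.1 1 (-q.2 ^ 2)) * val κ₂ q.1 1 (-q.2 ^ 2) := by ring
          rw [h11]
          exact h10
      · have hxe : ∀ᶠ q : ℝ × ℝ in 𝓝 (x, η), 0 < q.1 :=
          (continuous_fst.tendsto (x, η)).eventually (lt_mem_nhds hx)
        refine hfin (S x (-η ^ 2)) hS ?_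
        filter_upwards [hSev', hxe, hηn] with q h1 h2 h4 h5
        have hzq : -q.2 ^ 2 < 0 := by
          have := sq_pos_of_ne_zero h4
          linarith
        have h6 := h1 h2.ne' hzq h5
        have h7 := hK.hII q.1 (-q.2 ^ 2) h2 hzq h5
        rw [neg_neg, Real.sqrt_sq_eq_abs, h6] at h7
        have h8 := hrel q.1 (-q.2 ^ 2) h5
        have h9 : (q.2 * val β q.1 1 (-q.2 ^ 2)) ^ 2 ≤ val α q.1 1 (-q.2 ^ 2) ^ 2 := by
          have h10 : 0 ≤ q.1 * val ζ q.1 1 (-q.2 ^ 2) ^ 2 :=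
            mul_nonneg h2.le (sq_nonneg _)
          nlinarith
        have h10 := H3_pos (S x (-η ^ 2)) (val α q.1 1 (-q.2 ^ 2))
          (q.2 * val β q.1 1 (-q.2 ^ 2)) q.2 (val κ₁ q.1 1 (-q.2 ^ 2))
          (val κ₂ q.1 1 (-q.2 ^ 2)) h9 h7 hS
        rw [hGv]
        have h11 : val α q.1 1 (-q.2 ^ 2) * val κ₁ q.1 1 (-q.2 ^ 2) +
            -q.2 ^ 2 * val β q.1 1 (-q.2 ^ 2) * val κ₂ q.1 1 (-q.2 ^ 2) =
            val α q.1 1 (-q.2 ^ 2) * val κ₁ q.1 1 (-q.2 ^ 2) -
              q.2 * (q.2 * val β q.1 1 (-q.2 ^ 2)) * val κ₂ q.1 1 (-q.2 ^ 2) := by ring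
        rw [h11]
        exact h10
    have hne : AdjoinRoot.mk (chc R) (chc α +
          Polynomial.C (Polynomial.C Complex.I * Polynomial.X) * chc β) *
        AdjoinRoot.mk (chc R) (chc (X 1 * α * κ₁ + X 2 * β * κ₂)) ≠ 0 := by
      rw [← map_mul]
      intro h
      exact hdiv (AdjoinRoot.mk_eq_zero.1 h)
    rw [map_mul, hod2 p hp hbot _ _ (left_ne_zero_of_mul hne) (right_ne_zero_of_mul hne)] at heven
    rw [add_comm]
    exact Nat.even_iff.1 heven

end Pool.Agent.RSV
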