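import Pool.Agent.RSV.StN

/-!
# RSV HD: the determinant of the Hermitian pencil (MP_08a990_an)
-/

set_option autoImplicit false

namespace Pool.Agent.RSV

open Matrix

private theorem HD_swap (n : ℕ) :
    (fromBlocks 0 1 1 0 : Matrix (Fin n ⊕ Fin n) (Fin n ⊕ Fin n) ℂ).det = (-1) ^ n := by
  have h1 : (fromBlocks 0 1 1 0 : Matrix (Fin n ⊕ Fin n) (Fin n ⊕ Fin n) ℂ) *
      fromBlocks 1 0 1 1 = fromBlocks 1 1 1 0 := by
    rw [fromBlocks_multiply]
    simp
  have h2 := congrArg Matrix.det h1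
  rw [det_mul, det_fromBlocks_zero₁₂, det_one, mul_one, mul_one, det_fromBlocks_one₁₁] at h2
  rw [h2, zero_sub, one_mul, det_neg, det_one, mul_one, Fintype.card_fin]

private theorem HD_two (n : ℕ) (X Y : Matrix (Fin n) (Fin n) ℂ) (l : ℂ) :
    (fromBlocks X (l • 1) (l • 1) Y).det =
      (-1) ^ n * (l ^ 2 • (1 : Matrix (Fin n) (Fin n) ℂ) - X * Y).det := by
  have hsq : ((-1 : ℂ) ^ n) * (-1) ^ n = 1 := by
    rw [← mul_pow]
    norm_num
  rcases eq_or_ne l 0 with rfl | hl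
  · rw [zero_smul, det_fromBlocks_zero₂₁, zero_pow two_ne_zero, zero_smul, zero_sub, det_neg,
      det_mul, Fintype.card_fin, ← mul_assoc, hsq, one_mul]
  · have h1 : (fromBlocks 0 1 1 0 : Matrix (Fin n ⊕ Fin n) (Fin n ⊕ Fin n) ℂ) *
        fromBlocks X (l • 1) (l • 1) Y = fromBlocks (l • 1) Y X (l • 1) := by
      rw [fromBlocks_multiply]
      simp
    have h2 : fromBlocks (l • 1) Y X (l • 1) *
        (fromBlocks 1 (-(l⁻¹ • Y)) 0 1 : Matrix (Fin n ⊕ Fin n) (Fin n ⊕ Fin n) ℂ) =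
        fromBlocks (l • 1) 0 X (l • 1 - l⁻¹ • (X * Y)) := by
      rw [fromBlocks_multiply]
      simp [smul_smul, hl]
      abel
    have h3 := congrArg Matrix.det h1
    have h4 := congrArg Matrix.det h2
    rw [det_mul, HD_swap] at h3
    rw [det_mul, det_fromBlocks_zero₂₁, det_one, mul_one, mul_one,
      det_fromBlocks_zero₁₂, ← det_mul] at h4
    have h5 : (l • (1 : Matrix (Fin n) (Fin n) ℂ)) * (l • 1 - l⁻¹ • (X * Y)) =
        l ^ 2 • (1 : Matrix (Fin n) (Fin n) ℂ) - X * Y := by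
      rw [smul_mul_assoc, one_mul, smul_sub, smul_smul, smul_smul, mul_inv_cancel₀ hl, one_smul,
        sq]
    rw [h5] at h4
    rw [← h4, ← h3, ← mul_assoc, hsq, one_mul]

private theorem HD_conj (n : ℕ) (A B : Matrix (Fin n) (Fin n) ℂ) (l e : ℂ) :
    (HH A B l e).det = (fromBlocks (A + e • B) (l • 1) (l • 1) (A - e • B)).det := by
  have h1 : (fromBlocks 1 1 1 (-1) : Matrix (Fin n ⊕ Fin n) (Fin n ⊕ Fin n) ℂ) * HH A B l e =
      fromBlocks (A + e • B) (l • 1) (l • 1) (A - e • B) * fromBlocks 1 1 1 (-1) := by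
    unfold HH
    rw [fromBlocks_multiply, fromBlocks_multiply, fromBlocks_inj]
    refine ⟨?_, ?_, ?_, ?_⟩
    · simp only [one_mul, mul_one]
      abel
    · simp only [one_mul, mul_one, mul_neg]
      abel
    · simp only [one_mul, mul_one, neg_mul]
      abel
    · simp only [one_mul, mul_one, neg_mul, mul_neg]
      abel
  have h2 := congrArg Matrix.det h1
  rw [det_mul, det_mul, mul_comm _ (fromBlocks 1 1 1 (-1) :
    Matrix (Fin n ⊕ Fin n) (Fin n ⊕ Fin n) ℂ).det] at h2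
  have h3 : (fromBlocks 1 1 1 (-1) : Matrix (Fin n ⊕ Fin n) (Fin n ⊕ Fin n) ℂ).det ≠ 0 := by
    rw [det_fromBlocks_one₁₁]
    have h4 : (-1 - 1 * 1 : Matrix (Fin n) (Fin n) ℂ) = (-2 : ℂ) • 1 := by
      rw [one_mul, neg_smul, two_smul]
      abel
    rw [h4, det_smul, det_one, mul_one]
    exact pow_ne_zero _ (by norm_num)
  exact mul_left_cancel₀ h3 h2

theorem thm_HD : St_HD := by
  intro n R A B hD l e
  have h1 := hD (l ^ 2) 1 (Complex.I * e)
  have h2 : (Complex.I * e) ^ 2 = -e ^ 2 := by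
    rw [mul_pow, Complex.I_sq, neg_one_mul]
  have h3 : Complex.I * (Complex.I * e) = -e := by
    rw [← mul_assoc, Complex.I_mul_I, neg_one_mul]
  rw [h2, h3, one_pow, one_smul, neg_smul, sub_neg_eq_add, ← sub_eq_add_neg] at h1
  rw [h1, HD_conj, HD_two]

end Pool.Agent.RSV
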