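import Pool.Agent.RSV.StD

/-!
# RSV, module Hlf: half of the dimension
-/

set_option autoImplicit false

namespace Pool.Agent.RSV

open Module
open scoped ComplexConjugate

/-- cancellation: if the multiples of `h` by `z` lie in `z w`, then `h ∈ w` -/
private theorem Hlf_cancel {O : Type} [CommRing O] [IsDedekindDomain O] {z w : Ideal O}
    (hz : z ≠ ⊥) {h : O} (H : ∀ x ∈ z, x * h ∈ z * w) : h ∈ w := by
  have h1 : z * Ideal.span {h} ≤ z * w := by
    rw [Ideal.mul_le]
    intro x hx y hy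
    obtain ⟨r, rfl⟩ := Ideal.mem_span_singleton'.1 hy
    have h2 := (z * w).mul_mem_left r (H x hx)
    have h3 : x * (r * h) = r * (x * h) := by ring
    rw [h3]; exact h2
  have h4 : z * w ∣ z * Ideal.span {h} := Ideal.dvd_iff_le.2 h1
  have h5 : w ∣ Ideal.span {h} := (mul_dvd_mul_iff_left hz).1 h4
  exact (Ideal.span_singleton_le_iff_mem w).1 (Ideal.dvd_iff_le.1 h5)

/-- the main exact sequence -/
private theorem Hlf_seq {O : Type} [CommRing O] [IsDedekindDomain O] [Algebra ℂ O]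
    (z w : Ideal O) (hz : z ≠ ⊥) (hw : w ≠ ⊥) (hf : Module.Finite ℂ (O ⧸ (z * w))) :
    Module.Finite ℂ (O ⧸ z) ∧ finrank ℂ (O ⧸ z) + finrank ℂ (O ⧸ w) = finrank ℂ (O ⧸ (z * w)) := by
  have hle : z * w ≤ z := Ideal.mul_le_left
  have hzw : z * w ≠ 0 := mul_ne_zero hz hw
  obtain ⟨c, hc⟩ := IsDedekindDomain.exists_sup_span_eq hle hzw
  have hcz : c ∈ z := by
    rw [← hc]
    exact Ideal.mem_sup_right (Ideal.mem_span_singleton_self c)
  let π : (O ⧸ (z * w)) →ₗ[ℂ] (O ⧸ z) := (Ideal.Quotient.factorₐ ℂ hle).toLinearMap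
  have hπ : Function.Surjective π := Ideal.Quotient.factor_surjective hle
  have hfin : Module.Finite ℂ (O ⧸ z) := Module.Finite.of_surjective π hπ
  let g : O →ₗ[ℂ] (O ⧸ (z * w)) :=
    (Ideal.Quotient.mkₐ ℂ (z * w)).toLinearMap ∘ₗ (LinearMap.mulLeft ℂ c)
  have hg : ∀ h, g h = Ideal.Quotient.mk (z * w) (c * h) := fun h => rfl
  have hgk : ∀ h, g h = 0 ↔ h ∈ w := by
    intro h
    rw [hg, Ideal.Quotient.eq_zero_iff_mem]
    constructor
    · intro hh
      refine Hlf_cancel hz (fun x hx => ?_)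
      rw [← hc] at hx
      obtain ⟨y, hy, t, ht, rfl⟩ := Submodule.mem_sup.1 hx
      obtain ⟨r, rfl⟩ := Ideal.mem_span_singleton'.1 ht
      have e : (y + r * c) * h = h * y + r * (c * h) := by ring
      rw [e]
      exact (z * w).add_mem ((z * w).mul_mem_left h hy) ((z * w).mul_mem_left r hh)
    · intro hh
      exact Ideal.mul_mem_mul hcz hh
  have hker : LinearMap.ker g = w.restrictScalars ℂ := by
    ext h
    rw [LinearMap.mem_ker, hgk, Submodule.restrictScalars_mem]
  have hrange : LinearMap.range g = LinearMap.ker π := by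
    ext u
    obtain ⟨u, rfl⟩ := Ideal.Quotient.mk_surjective u
    rw [LinearMap.mem_ker]
    have hp : π (Ideal.Quotient.mk (z * w) u) = Ideal.Quotient.mk z u := rfl
    rw [hp, Ideal.Quotient.eq_zero_iff_mem]
    constructor
    · rintro ⟨h, hh⟩
      rw [hg, Ideal.Quotient.eq] at hh
      have h1 := hle hh
      have h2 : u = c * h - (c * h - u) := by ring
      rw [h2]
      exact z.sub_mem (z.mul_mem_right h hcz) h1
    · intro hu
      rw [← hc] at hu
      obtain ⟨y, hy, t, ht, rfl⟩ := Submodule.mem_sup.1 hu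
      obtain ⟨r, rfl⟩ := Ideal.mem_span_singleton'.1 ht
      refine ⟨r, ?_⟩
      rw [hg, Ideal.Quotient.eq]
      have e : c * r - (y + r * c) = - y := by ring
      rw [e]
      exact (z * w).neg_mem hy
  have e1 : (O ⧸ LinearMap.ker g) ≃ₗ[ℂ] LinearMap.range g := g.quotKerEquivRange
  have e2 : finrank ℂ (O ⧸ LinearMap.ker g) = finrank ℂ (O ⧸ w) := by
    rw [hker]
    exact LinearEquiv.finrank_eq (Submodule.Quotient.restrictScalarsEquiv ℂ w)
  have e3 : finrank ℂ (LinearMap.range g) = finrank ℂ (O ⧸ w) := by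
    rw [← e1.finrank_eq, e2]
  refine ⟨hfin, ?_⟩
  have h6 := LinearMap.finrank_range_add_finrank_ker π
  rw [LinearMap.range_eq_top.2 hπ, finrank_top, ← hrange, e3] at h6
  exact h6

/-- half of the dimension -/
theorem thm_Hlf : St_Hlf := by
  intro O _ _ _ τ hτ z hz hf
  have hw : z.map τ ≠ ⊥ := by
    intro h
    apply hz
    rw [Ideal.map_eq_bot_iff_of_injective (f := τ) τ.injective] at h
    exact h
  obtain ⟨h1, h2⟩ := Hlf_seq z (z.map τ) hz hw hf
  refine ⟨h1, ?_⟩
  have h3 : Module.rank ℂ (O ⧸ z) = Module.rank ℂ (O ⧸ (z.map τ)) := by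
    let j : (O ⧸ z) ≃+* (O ⧸ (z.map τ)) := Ideal.quotientEquiv z (z.map τ) τ rfl
    refine rank_eq_of_equiv_equiv (fun c : ℂ => conj c) j.toAddEquiv
      (starRingAut (R := ℂ)).bijective ?_
    intro r m
    obtain ⟨m, rfl⟩ := Ideal.Quotient.mk_surjective m
    have e1 : r • Ideal.Quotient.mk z m = Ideal.Quotient.mk z (r • m) := rfl
    have e2 : ∀ x, j.toAddEquiv (Ideal.Quotient.mk z x) = Ideal.Quotient.mk (z.map τ) (τ x) :=
      fun x => rfl
    rw [e1, e2, e2, hτ]
    rfl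
  have h4 : finrank ℂ (O ⧸ z) = finrank ℂ (O ⧸ (z.map τ)) := by
    unfold Module.finrank
    rw [h3]
  rw [← h2, ← h4, two_mul]

end Pool.Agent.RSV
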