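import Pool.Agent.RSV.StA

/-!
# RSV: homogenization (Hmz)
-/

set_option autoImplicit false

namespace Pool.Agent.RSV

open MvPolynomial

/-- the value of the chart -/
private theorem Hmz_ev (F : TP) (x z : ℝ) : evr (ch F) x z = val F x 1 z := by
  unfold evr ch val
  induction F using MvPolynomial.induction_on with
  | C a => simp [Polynomial.algebraMap_apply]
  | add p q hp hq => simp only [map_add, Polynomial.map_add, Polynomial.eval_add, hp, hq]
  | mul_X p i hp =>
    rw [map_mul, Polynomial.map_mul, Polynomial.eval_mul, hp, map_mul]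
    congr 1
    fin_cases i <;> simp

/-- values of forms -/
private theorem Hmz_smul {e : ℕ} {F : TP} (hF : F.IsHomogeneous e) (c : ℝ) (v : Fin 3 → ℝ) :
    eval (fun i => c * v i) F = c ^ e * eval v F := by
  rw [eval_eq', eval_eq', Finset.mul_sum]
  refine Finset.sum_congr rfl fun d hd => ?_
  have h1 : ∑ i, d i = e := by
    have h2 := hF (mem_support_iff.mp hd)
    rw [← h2, Finsupp.weight_apply, Finsupp.sum_fintype _ _ (by simp)]
    simp
  simp only [mul_pow, Finset.prod_mul_distrib, Finset.prod_pow_eq_pow_sum, h1]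
  ring

/-- a form with chart `0` is `0` -/
private theorem Hmz_zero {e : ℕ} {F : TP} (hF : F.IsHomogeneous e) (h : ch F = 0) : F = 0 := by
  have h1 : ∀ x z : ℝ, val F x 1 z = 0 := fun x z => by
    rw [← Hmz_ev, h]
    simp [evr]
  have h2 : X 1 * F = 0 := by
    refine MvPolynomial.funext fun v => ?_
    rw [map_mul, eval_X, map_zero]
    by_cases hv : v 1 = 0
    · rw [hv, zero_mul]
    · have h3 : v = fun i => v 1 * (![v 0 / v 1, 1, v 2 / v 1] : Fin 3 → ℝ) i := by
        ext i
        fin_cases i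
        · simp [mul_div_cancel₀, hv]
        · simp
        · simp [mul_div_cancel₀, hv]
      rw [h3, Hmz_smul hF]
      have h4 := h1 (v 0 / v 1) (v 2 / v 1)
      unfold val at h4
      rw [h4, mul_zero, mul_zero]
  exact (mul_eq_zero.mp h2).resolve_left (X_ne_zero 1)

/-- the homogenization -/
private noncomputable def Hmz_hm (e : ℕ) (f : BR) : TP :=
  ∑ j ∈ Finset.range (e + 1), ∑ i ∈ Finset.range (e + 1 - j),
    C ((f.coeff j).coeff i) * X 0 ^ j * X 1 ^ (e - i - j) * X 2 ^ i

private theorem Hmz_hom (e : ℕ) (f : BR) : (Hmz_hm e f).IsHomogeneous e := by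
  unfold Hmz_hm
  refine IsHomogeneous.sum _ _ _ fun j hj => IsHomogeneous.sum _ _ _ fun i hi => ?_
  rw [Finset.mem_range] at hj hi
  have h1 := (((isHomogeneous_C (Fin 3) ((f.coeff j).coeff i)).mul
    (isHomogeneous_X_pow (R := ℝ) (0 : Fin 3) j)).mul
    (isHomogeneous_X_pow (R := ℝ) (1 : Fin 3) (e - i - j))).mul
    (isHomogeneous_X_pow (R := ℝ) (2 : Fin 3) i)
  rwa [show 0 + j + (e - i - j) + i = e by omega] at h1

private theorem Hmz_ch {e : ℕ} {f : BR} (h : WD 1 f e) : ch (Hmz_hm e f) = f := by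
  have h1 : ∀ j ∈ Finset.range (e + 1), ch (∑ i ∈ Finset.range (e + 1 - j),
      C ((f.coeff j).coeff i) * X 0 ^ j * X 1 ^ (e - i - j) * X 2 ^ i) =
      Polynomial.C (f.coeff j) * Polynomial.X ^ j := by
    intro j hj
    rw [Finset.mem_range] at hj
    have h2 : (f.coeff j).natDegree < e + 1 - j := by
      by_cases h0 : f.coeff j = 0
      · rw [h0, Polynomial.natDegree_zero]
        omega
      · have := h j h0
        omega
    have h3 := Polynomial.as_sum_range_C_mul_X_pow' (f.coeff j) h2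
    conv_rhs => rw [h3]
    rw [map_sum, Finset.sum_mul]
    unfold ch
    rw [map_sum]
    refine Finset.sum_congr rfl fun i _ => ?_
    simp [Polynomial.algebraMap_apply]
    ring
  have h4 : f.natDegree < e + 1 := by
    by_cases h0 : f = 0
    · rw [h0, Polynomial.natDegree_zero]
      omega
    · have := h f.natDegree (by rwa [Polynomial.coeff_natDegree, Polynomial.leadingCoeff_ne_zero])
      omega
  have h5 : ch (Hmz_hm e f) = ∑ j ∈ Finset.range (e + 1), ch (∑ i ∈ Finset.range (e + 1 - j),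
      C ((f.coeff j).coeff i) * X 0 ^ j * X 1 ^ (e - i - j) * X 2 ^ i) := by
    unfold Hmz_hm ch
    rw [map_sum]
  rw [h5, Finset.sum_congr rfl h1]
  exact (Polynomial.as_sum_range_C_mul_X_pow' f h4).symm

private theorem Hmz_wd (f : BR) : ∃ e₀ : ℕ, ∀ e, e₀ ≤ e → WD 1 f e := by
  refine ⟨f.natDegree + f.support.sup fun j => (f.coeff j).natDegree, fun e he j hj => ?_⟩
  have h1 : (f.coeff j).natDegree ≤ f.support.sup fun j => (f.coeff j).natDegree :=
    Finset.le_sup (f := fun j => (f.coeff j).natDegree) (Polynomial.mem_support_iff.mpr hj)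
  have h2 := Polynomial.le_natDegree_of_ne_zero hj
  omega

private theorem Hmz_inj {F G : TP} {e : ℕ} (hF : F.IsHomogeneous e) (hG : G.IsHomogeneous e)
    (h : ch F = ch G) : F = G := by
  refine sub_eq_zero.mp (Hmz_zero (hF.sub hG) ?_)
  unfold ch at h ⊢
  rw [map_sub, h, sub_self]

theorem thm_Hmz : St_Hmz := by
  refine ⟨fun f => ?_, fun f e h => ⟨Hmz_hm e f, Hmz_hom e f, Hmz_ch h⟩,
    fun F G e hF hG h => Hmz_inj hF hG h, fun n R e F hR hR1 hF => ⟨fun h => ?_, fun h => ?_⟩⟩
  · obtain ⟨e₀, h⟩ := Hmz_wd f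
    exact ⟨e₀, fun e he => ⟨Hmz_hm e f, Hmz_hom e f, Hmz_ch (h e he)⟩⟩
  · obtain ⟨g, hg⟩ := h
    obtain ⟨e₀, h⟩ := Hmz_wd g
    set m := e₀ + e with hm
    have h1 := Hmz_ch (h m (by omega))
    have h2 : F * X 1 ^ (m + n - e) = R * Hmz_hm m g := by
      refine Hmz_inj (e := m + n) ?_ ?_ ?_
      · have h3 := hF.mul (isHomogeneous_X_pow (R := ℝ) (1 : Fin 3) (m + n - e))
        rwa [show e + (m + n - e) = m + n by omega] at h3
      · have h3 := hR.mul (Hmz_hom m g)
        rwa [add_comm n m] at h3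
      · have h3 : ch (F * X 1 ^ (m + n - e)) = ch F := by
          unfold ch
          rw [map_mul, map_pow, aeval_X]
          simp
        have h4 : ch (R * Hmz_hm m g) = ch R * ch (Hmz_hm m g) := by
          unfold ch
          rw [map_mul]
        rw [h3, h4, h1, hg]
    have h3 : ¬ (X 1 : TP) ∣ R := by
      rintro ⟨Q, rfl⟩
      unfold val at hR1
      rw [map_mul, eval_X] at hR1
      simp at hR1
    obtain ⟨G, hG⟩ := (X_prime (R := ℝ) (i := (1 : Fin 3))).pow_dvd_of_dvd_mul_left (m + n - e) h3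
      (Dvd.intro_left F h2)
    refine ⟨G, ?_⟩
    have h4 : F * X 1 ^ (m + n - e) = R * G * X 1 ^ (m + n - e) := by
      rw [h2, hG]
      ring
    exact mul_right_cancel₀ (pow_ne_zero _ (X_ne_zero 1)) h4
  · obtain ⟨Q, rfl⟩ := h
    refine ⟨ch Q, ?_⟩
    unfold ch
    rw [map_mul]

end Pool.Agent.RSV
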