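import Pool.Agent.RSV.StA

/-! RSV, module Hst: properties of the function field. -/

set_option autoImplicit false

namespace Pool.Agent.RSV

open MvPolynomial Module
open scoped ComplexConjugate

/-- evaluation as a homomorphism -/
private noncomputable def Hst_e (x z : ℝ) : BR →+* ℝ :=
  (Polynomial.evalRingHom x).comp (Polynomial.mapRingHom (Polynomial.evalRingHom z))

private theorem Hst_evr (f : BR) (x z : ℝ) : evr f x z = Hst_e x z f := rfl

private theorem Hst_zero {n : ℕ} {R : TP} {a b s : Fin n → ℝ} (hn : 1 ≤ n) (hG : Good R a b s)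
    (hM : (ch R).Monic) (hd : (ch R).natDegree = n)
    (hev : ∀ (F : TP) (x z : ℝ), evr (ch F) x z = val F x 1 z) (g : BR)
    (h : ∀ x z, 0 < z → val R x 1 z = 0 → evr g x z = 0) : ch R ∣ g := by
  rw [← Polynomial.modByMonic_eq_zero_iff_dvd hM]
  have h1 : ch R ≠ 1 := by
    intro h1
    rw [h1, Polynomial.natDegree_one] at hd
    omega
  have hlt : (g %ₘ ch R).natDegree < n := by
    rw [← hd]
    exact Polynomial.natDegree_modByMonic_lt g hM h1
  have hz : ∀ z : ℝ, 0 < z → (g %ₘ ch R).map (Polynomial.evalRingHom z) = 0 := by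
    intro z hz
    obtain ⟨f, hfi, hf⟩ := hG.hyp 1 z zero_le_one hz.le (Or.inl one_ne_zero)
    refine Polynomial.eq_zero_of_natDegree_lt_card_of_eval_eq_zero _ hfi ?_ ?_
    · intro k
      have h2 : Hst_e (f k) z (g %ₘ ch R + ch R * (g /ₘ ch R)) = Hst_e (f k) z g := by
        rw [Polynomial.modByMonic_add_div g]
      rw [map_add, map_mul, ← Hst_evr (ch R), hev, (hf k).2, zero_mul, add_zero,
        ← Hst_evr g, h _ _ hz (hf k).2] at h2
      exact h2
    · rw [Fintype.card_fin]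
      exact (Polynomial.natDegree_map_le).trans_lt hlt
  ext1 j
  rw [Polynomial.coeff_zero]
  refine Polynomial.eq_zero_of_infinite_isRoot _ ((Set.Ioi_infinite (0 : ℝ)).mono ?_)
  intro z hz'
  have h3 := congrArg (fun q => q.coeff j) (hz z hz')
  simp only [Polynomial.coeff_map, Polynomial.coeff_zero] at h3
  exact h3

/-- complexification as a homomorphism -/
private noncomputable def Hst_c : BR →+* BC :=
  Polynomial.mapRingHom (Polynomial.mapRingHom (algebraMap ℝ ℂ))

private theorem Hst_cx (f : BR) : cx f = Hst_c f := rfl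

/-- the constant `i` -/
private noncomputable def Hst_i : BC := Polynomial.C (Polynomial.C Complex.I)

private theorem Hst_ii : Hst_i * Hst_i = -1 := by
  unfold Hst_i
  rw [← map_mul, ← map_mul, Complex.I_mul_I, map_neg, map_neg, map_one, map_one]

private theorem Hst_split1 (p : Polynomial ℂ) : ∃ a b : Polynomial ℝ,
    p = a.map (algebraMap ℝ ℂ) + Polynomial.C Complex.I * b.map (algebraMap ℝ ℂ) := by
  induction p using Polynomial.induction_on' with
  | add p q hp hq =>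
    obtain ⟨a, b, rfl⟩ := hp
    obtain ⟨a', b', rfl⟩ := hq
    refine ⟨a + a', b + b', ?_⟩
    rw [Polynomial.map_add, Polynomial.map_add]
    ring
  | monomial n z =>
    refine ⟨Polynomial.monomial n z.re, Polynomial.monomial n z.im, ?_⟩
    rw [Polynomial.map_monomial, Polynomial.map_monomial, Polynomial.C_mul_monomial,
      ← map_add]
    congr 1
    apply Complex.ext <;> simp

private theorem Hst_split (p : BC) : ∃ a b : BR, p = Hst_c a + Hst_i * Hst_c b := by
  induction p using Polynomial.induction_on' with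
  | add p q hp hq =>
    obtain ⟨a, b, rfl⟩ := hp
    obtain ⟨a', b', rfl⟩ := hq
    refine ⟨a + a', b + b', ?_⟩
    rw [map_add, map_add]
    ring
  | monomial n z =>
    obtain ⟨a, b, rfl⟩ := Hst_split1 z
    refine ⟨Polynomial.monomial n a, Polynomial.monomial n b, ?_⟩
    unfold Hst_c Hst_i
    rw [Polynomial.coe_mapRingHom, Polynomial.map_monomial, Polynomial.map_monomial,
      Polynomial.C_mul_monomial, ← map_add]
    rfl

private theorem Hst_indep (a b : BR) (h : Hst_c a + Hst_i * Hst_c b = 0) : a = 0 ∧ b = 0 := by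
  have key : ∀ i j, (((a.coeff j).coeff i : ℝ) : ℂ) + Complex.I * (((b.coeff j).coeff i : ℝ) : ℂ)
      = 0 := by
    intro i j
    have h1 := congrArg (fun q : BC => (q.coeff j).coeff i) h
    simp only [Polynomial.coeff_add, Hst_i, Polynomial.coeff_C_mul, Polynomial.coeff_zero] at h1
    have e : ∀ f : BR, ((Hst_c f).coeff j).coeff i = (((f.coeff j).coeff i : ℝ) : ℂ) := by
      intro f
      unfold Hst_c
      rw [Polynomial.coe_mapRingHom, Polynomial.coeff_map, Polynomial.coe_mapRingHom,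
        Polynomial.coeff_map]
      rfl
    rw [e, e] at h1
    exact h1
  constructor
  · ext j i
    have := congrArg Complex.re (key i j)
    simpa using this
  · ext j i
    have := congrArg Complex.im (key i j)
    simpa using this

private theorem Hst_dvd (P a b : BR) (h : Hst_c P ∣ Hst_c a + Hst_i * Hst_c b) : P ∣ a ∧ P ∣ b := by
  obtain ⟨q, hq⟩ := h
  obtain ⟨q₁, q₂, rfl⟩ := Hst_split q
  have h1 : Hst_c (a - P * q₁) + Hst_i * Hst_c (b - P * q₂) = 0 := by
    rw [map_sub, map_sub, map_mul, map_mul]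
    linear_combination hq
  obtain ⟨h2, h3⟩ := Hst_indep _ _ h1
  exact ⟨⟨q₁, sub_eq_zero.1 h2⟩, ⟨q₂, sub_eq_zero.1 h3⟩⟩

theorem thm_Hst : St_Mon → St_Nst → St_Tsn → St_Hst := by
  intro hMon hNst hTsn n R a b s hn hG K _ _ φ hφ hfr
  obtain ⟨⟨hM, hd, hW⟩, ⟨hM', hd', hW'⟩, _, hev, _⟩ := hMon n R a b s hn hG
  have hroot : ∀ x z : ℝ, val R x 1 z = 0 → Hst_e x z (ch R) = 0 := by
    intro x z h
    rw [← Hst_evr, hev, h]
  have part1 : ∀ x : K, x ^ 2 ≠ -1 := by
    intro x hx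
    obtain ⟨f, g, hg, rfl⟩ := hfr x
    apply hg
    rw [hφ]
    refine Hst_zero hn hG hM hd hev g fun x z hz hv => ?_
    have h1 : φ (f ^ 2 + g ^ 2) = 0 := by
      rw [div_pow, div_eq_iff (pow_ne_zero 2 hg)] at hx
      rw [map_add, map_pow, map_pow, hx]
      ring
    obtain ⟨q, hq⟩ := (hφ _).1 h1
    have h2 := congrArg (Hst_e x z) hq
    rw [map_mul, hroot x z hv, zero_mul, map_add, map_pow, map_pow] at h2
    rw [Hst_evr]
    nlinarith [sq_nonneg (Hst_e x z f), sq_nonneg (Hst_e x z g)]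
  refine ⟨part1, ?_, ?_⟩
  · intro c t hc
    obtain ⟨c₁, c₂, hc₂, rfl⟩ := hfr c
    obtain ⟨t₁, t₂, ht₂, rfl⟩ := hfr t
    obtain ⟨p, q, w, hne, hdv⟩ := hTsn n (cx (ch R)) hn hM' hd' hW' (Hst_c (c₂ * t₂))
      (Hst_c (c₁ * t₂)) (-(Hst_c c₂ * (Hst_c t₂ + Hst_i * Hst_c t₁)))
    obtain ⟨p₁, p₂, rfl⟩ := Hst_split p
    obtain ⟨q₁, q₂, rfl⟩ := Hst_split q
    obtain ⟨w₁, w₂, rfl⟩ := Hst_split w
    have h1 : Hst_c (ch R) ∣
        Hst_c (c₂ * t₂ * (p₁ ^ 2 - p₂ ^ 2) + c₁ * t₂ * (q₁ ^ 2 - q₂ ^ 2) -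
          c₂ * (t₂ * (w₁ ^ 2 - w₂ ^ 2) - t₁ * (2 * w₁ * w₂))) +
        Hst_i * Hst_c (c₂ * t₂ * (2 * p₁ * p₂) + c₁ * t₂ * (2 * q₁ * q₂) -
          c₂ * (t₂ * (2 * w₁ * w₂) + t₁ * (w₁ ^ 2 - w₂ ^ 2))) := by
      refine hdv.trans (dvd_of_eq ?_)
      simp only [map_sub, map_add, map_mul, map_pow, map_ofNat]
      linear_combination (Hst_c c₂ * Hst_c t₂ * Hst_c p₂ ^ 2 +
        Hst_c c₁ * Hst_c t₂ * Hst_c q₂ ^ 2 - Hst_c c₂ * Hst_c t₂ * Hst_c w₂ ^ 2 -
        2 * Hst_c c₂ * Hst_c t₁ * Hst_c w₁ * Hst_c w₂ -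
        Hst_i * Hst_c c₂ * Hst_c t₁ * Hst_c w₂ ^ 2) * Hst_ii
    obtain ⟨h2, h3⟩ := Hst_dvd _ _ _ h1
    have h4 := (hφ _).2 h2
    have h5 := (hφ _).2 h3
    simp only [map_sub, map_add, map_mul, map_pow, map_ofNat] at h4 h5
    refine hNst K part1 _ _ hc (φ p₁) (φ p₂) (φ q₁) (φ q₂) (φ w₁) (φ w₂) ?_ ?_ ?_
    · by_contra hcon
      push Not at hcon
      obtain ⟨e1, e2, e3, e4, e5, e6⟩ := hcon
      have hd2 : ∀ u v : BR, φ u = 0 → φ v = 0 → cx (ch R) ∣ Hst_c u + Hst_i * Hst_c v := by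
        intro u v hu hv
        obtain ⟨u', rfl⟩ := (hφ u).1 hu
        obtain ⟨v', rfl⟩ := (hφ v).1 hv
        refine ⟨Hst_c u' + Hst_i * Hst_c v', ?_⟩
        rw [Hst_cx, map_mul, map_mul]
        ring
      exact hne ⟨hd2 _ _ e1 e2, hd2 _ _ e3 e4, hd2 _ _ e5 e6⟩
    · field_simp
      linear_combination h4
    · field_simp
      linear_combination h5
  · intro r s' hrs
    obtain ⟨f, u, hu, rfl⟩ := hfr r
    obtain ⟨g, v, hv, rfl⟩ := hfr s'
    have h1 : φ ((f * v) ^ 2 + Polynomial.C Polynomial.X * (g * u) ^ 2) = 0 := by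
      simp only [map_add, map_mul, map_pow]
      field_simp at hrs
      linear_combination hrs
    obtain ⟨q, hq⟩ := (hφ _).1 h1
    have key : ∀ x z : ℝ, 0 < z → val R x 1 z = 0 → Hst_e x z (f * v) = 0 ∧
        Hst_e x z (g * u) = 0 := by
      intro x z hz hv'
      have h2 := congrArg (Hst_e x z) hq
      have h3 : Hst_e x z (Polynomial.C Polynomial.X) = z := by
        unfold Hst_e
        simp
      rw [map_mul (Hst_e x z) (ch R), hroot x z hv', zero_mul, map_add, map_pow,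
        map_mul (Hst_e x z) (Polynomial.C Polynomial.X), map_pow, h3] at h2
      have h4 := sq_nonneg (Hst_e x z (f * v))
      have h5 := mul_nonneg hz.le (sq_nonneg (Hst_e x z (g * u)))
      have h6 : Hst_e x z (f * v) ^ 2 = 0 := by linarith
      have h7 : z * Hst_e x z (g * u) ^ 2 = 0 := by linarith
      exact ⟨pow_eq_zero_iff (two_ne_zero) |>.1 h6,
        pow_eq_zero_iff (two_ne_zero) |>.1 ((mul_eq_zero.1 h7).resolve_left hz.ne')⟩
    have d1 : ch R ∣ f * v := Hst_zero hn hG hM hd hev _ fun x z hz h => (key x z hz h).1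
    have d2 : ch R ∣ g * u := Hst_zero hn hG hM hd hev _ fun x z hz h => (key x z hz h).2
    have e1 := (hφ _).2 d1
    have e2 := (hφ _).2 d2
    rw [map_mul] at e1 e2
    have e3 : φ f = 0 := (mul_eq_zero.1 e1).resolve_right hv
    have e4 : φ g = 0 := (mul_eq_zero.1 e2).resolve_right hu
    rw [e3, e4, zero_div, zero_div]
    exact ⟨rfl, rfl⟩

end Pool.Agent.RSV
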