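import Pool.Agent.RSV.StD

/-!
# RSV, part D: the ideal `z` with `z * τ z = (G)` and `ρ s(z) ⊆ ζ z`
-/

set_option autoImplicit false

namespace Pool.Agent.RSV

open MvPolynomial Filter Topology Module
open scoped ComplexConjugate

/-! ### combinatorics -/

private theorem Idl_d (e e' g : ℤ) (g0 : 0 ≤ g) (h0 : 0 ≤ e + e') (h1 : -2 * e ≤ g)
    (h1' : -2 * e' ≤ g) (h3 : e + e' = 0 → (g + e) % 2 = 0) :
    ∃ d : ℤ, -e' ≤ d ∧ d ≤ e ∧ -g ≤ d ∧ d ≤ g ∧ (g + d) % 2 = 0 := by
  by_cases h : e + e' = 0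
  · exact ⟨e, by omega, le_rfl, by omega, by omega, h3 h⟩
  · by_cases he : e < 0
    · by_cases hp : (g + e) % 2 = 0
      · exact ⟨e, by omega, by omega, by omega, by omega, hp⟩
      · exact ⟨e - 1, by omega, by omega, by omega, by omega, by omega⟩
    · by_cases he' : e' < 0
      · by_cases hp : (g + e') % 2 = 0
        · exact ⟨-e', by omega, by omega, by omega, by omega, by omega⟩
        · exact ⟨-e' + 1, by omega, by omega, by omega, by omega, by omega⟩
      · by_cases hp : g % 2 = 0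
        · exact ⟨0, by omega, by omega, by omega, by omega, by omega⟩
        · by_cases h1e : 1 ≤ e
          · exact ⟨1, by omega, by omega, by omega, by omega, by omega⟩
          · exact ⟨-1, by omega, by omega, by omega, by omega, by omega⟩

private theorem Idl_loc {α : Type} (s τ : α → α) (hs : ∀ a, s (s a) = a) (hτ : ∀ a, τ (τ a) = a)
    (hc : ∀ a, s (τ a) = τ (s a)) (g e : α → ℤ) (g0 : ∀ a, 0 ≤ g a) (gs : ∀ a, g (s a) = g a)
    (gτ : ∀ a, g (τ a) = g a) (eτ : ∀ a, e (τ a) = e (s a)) (h0 : ∀ a, 0 ≤ e a + e (s a))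
    (h1 : ∀ a, -2 * e a ≤ g a) (h2 : ∀ a, τ a = a → g a = 0 ∧ e a = 0)
    (h3 : ∀ a, τ a = s a → e a + e (s a) = 0 → (g a + e a) % 2 = 0) (r : α) :
    ∃ φ : α → ℤ, ∀ b, (b = r ∨ b = s r ∨ b = τ r ∨ b = s (τ r)) →
      0 ≤ φ b ∧ φ b + φ (τ b) = g b ∧ φ b - φ (s b) ≤ e b := by
  classical
  by_cases hA : τ r = r
  · refine ⟨fun _ => 0, fun b hb => ?_⟩
    have hb' : τ b = b := by
      rcases hb with rfl | rfl | rfl | rfl
      · exact hA
      · rw [← hc, hA]
      · rw [hA, hA]
      · rw [hA, ← hc, hA]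
    obtain ⟨k1, k2⟩ := h2 b hb'
    rw [k1, k2]
    simp
  · by_cases hB : τ r = s r
    · have hsr : s r ≠ r := fun h => hA (hB.trans h)
      have hτs : τ (s r) = r := by rw [← hB, hτ]
      obtain ⟨d, d1, d2, d3, d4, d5⟩ := Idl_d (e r) (e (s r)) (g r) (g0 r) (h0 r) (h1 r)
        (by have := h1 (s r); rw [gs] at this; exact this) (h3 r hB)
      refine ⟨fun b => if b = r then (g r + d) / 2 else (g r - d) / 2, fun b hb => ?_⟩
      have hb' : b = r ∨ b = s r := by
        rcases hb with h | h | h | h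
        · exact Or.inl h
        · exact Or.inr h
        · exact Or.inr (h.trans hB)
        · left; rw [h, hB, hs]
      rcases hb' with rfl | rfl
      · simp only [if_true, hB, if_neg hsr]
        refine ⟨by omega, by omega, by omega⟩
      · simp only [if_neg hsr, hτs, hs, if_true, gs]
        refine ⟨by omega, by omega, by omega⟩
    · set U : α → Prop := fun b => b = r ∨ b = s r with hU
      have u1 : ∀ b, U b → ¬ U (τ b) := by
        rintro b (rfl | rfl) (h | h)
        · exact hA h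
        · exact hB h
        · rw [← hc] at h
          apply hB
          rw [← hs (τ r), h]
        · rw [← hc] at h
          apply hA
          rw [← hs (τ r), h, hs]
      have u2 : ∀ b, U b → U (s b) := by
        rintro b (rfl | rfl)
        · exact Or.inr rfl
        · exact Or.inl (hs r)
      have u3 : ∀ b, ¬ U b → ¬ U (s b) := by
        intro b hb h
        apply hb
        have := u2 _ h
        rwa [hs] at this
      refine ⟨fun b => if U b then max 0 (-e (s b)) else g b - max 0 (-e (s (τ b))),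
        fun b hb => ?_⟩
      by_cases hUb : U b
      · have k1 := u1 b hUb
        have k2 := u2 b hUb
        simp only [if_pos hUb, if_neg k1, if_pos k2, hτ, hs, gτ]
        have := h0 b
        refine ⟨by omega, by omega, by omega⟩
      · have k1 : U (τ b) := by
          rcases hb with h | h | h | h
          · exact absurd (Or.inl h) hUb
          · exact absurd (Or.inr h) hUb
          · left; rw [h, hτ]
          · right; rw [h, ← hc, hτ]
        have k2 := u3 b hUb
        simp only [if_neg hUb, if_pos k1, if_neg k2]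
        have k3 : s (τ (s b)) = τ b := by rw [hc, hs]
        have k4 : e b = e (s (τ b)) := by
          have := eτ (τ b)
          rwa [hτ] at this
        have k5 := h0 (τ b)
        have k6 := h1 (s (τ b))
        rw [gs, gτ] at k6
        have k7 := g0 b
        rw [k3, gs]
        refine ⟨by omega, by omega, by omega⟩

private theorem Idl_comb {α : Type} (s τ : α → α) (hs : ∀ a, s (s a) = a) (hτ : ∀ a, τ (τ a) = a)
    (hc : ∀ a, s (τ a) = τ (s a)) (g e : α → ℤ) (g0 : ∀ a, 0 ≤ g a) (gs : ∀ a, g (s a) = g a)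
    (gτ : ∀ a, g (τ a) = g a) (eτ : ∀ a, e (τ a) = e (s a)) (h0 : ∀ a, 0 ≤ e a + e (s a))
    (h1 : ∀ a, -2 * e a ≤ g a) (h2 : ∀ a, τ a = a → g a = 0 ∧ e a = 0)
    (h3 : ∀ a, τ a = s a → e a + e (s a) = 0 → (g a + e a) % 2 = 0) :
    ∃ z : α → ℤ, (∀ a, 0 ≤ z a) ∧ (∀ a, z a + z (τ a) = g a) ∧ ∀ a, z a - z (s a) ≤ e a := by
  choose φ hφ using Idl_loc s τ hs hτ hc g e g0 gs gτ eτ h0 h1 h2 h3
  let S : Setoid α := 
    { r := fun a b => b = a ∨ b = s a ∨ b = τ a ∨ b = s (τ a)
      iseqv := 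
        { refl := fun a => Or.inl rfl
          symm := by
            rintro a b (rfl | rfl | rfl | rfl)
            · exact Or.inl rfl
            · exact Or.inr (Or.inl (hs a).symm)
            · exact Or.inr (Or.inr (Or.inl (hτ a).symm))
            · refine Or.inr (Or.inr (Or.inr ?_))
              rw [hc (s (τ a)), hs, hτ]
          trans := by
            rintro a b c (rfl | rfl | rfl | rfl) (rfl | rfl | rfl | rfl) <;>
              simp [hs, hτ, hc] } }
  let r : α → α := fun a => Quotient.out (Quotient.mk S a)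
  have hr : ∀ a, a = r a ∨ a = s (r a) ∨ a = τ (r a) ∨ a = s (τ (r a)) := by
    intro a
    have h := Quotient.mk_out (s := S) a
    exact h
  have hrs : ∀ a, r (s a) = r a := by
    intro a
    have h : Quotient.mk S (s a) = Quotient.mk S a := by
      apply Quotient.sound
      exact Or.inr (Or.inl (hs a).symm)
    show Quotient.out (Quotient.mk S (s a)) = Quotient.out (Quotient.mk S a)
    rw [h]
  have hrτ : ∀ a, r (τ a) = r a := by
    intro a
    have h : Quotient.mk S (τ a) = Quotient.mk S a := by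
      apply Quotient.sound
      exact Or.inr (Or.inr (Or.inl (hτ a).symm))
    show Quotient.out (Quotient.mk S (τ a)) = Quotient.out (Quotient.mk S a)
    rw [h]
  refine ⟨fun a => φ (r a) a, fun a => (hφ (r a) a (hr a)).1, fun a => ?_, fun a => ?_⟩
  · show φ (r a) a + φ (r (τ a)) (τ a) = g a
    rw [hrτ]
    exact (hφ (r a) a (hr a)).2.1
  · show φ (r a) a - φ (r (s a)) (s a) ≤ e a
    rw [hrs]
    exact (hφ (r a) a (hr a)).2.2

/-! ### ideals -/

private theorem Idl_mem {O : Type} [CommRing O] (s : O ≃+* O) (hs : ∀ x, s (s x) = x)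
    (I : Ideal O) (x : O) : x ∈ I.map s ↔ s x ∈ I := by
  rw [Ideal.mem_map_of_equiv]
  constructor
  · rintro ⟨w, hw, rfl⟩
    rw [hs]
    exact hw
  · intro h
    exact ⟨s x, h, hs x⟩

private theorem Idl_inv {O : Type} [CommRing O] (s : O ≃+* O) (hs : ∀ x, s (s x) = x)
    (I : Ideal O) : (I.map s).map s = I := by
  ext x
  rw [Idl_mem s hs, Idl_mem s hs, hs]

private theorem Idl_mono {O : Type} [CommRing O] (s : O ≃+* O) (hs : ∀ x, s (s x) = x)
    (I J : Ideal O) : I.map s ≤ J ↔ I ≤ J.map s := by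
  constructor
  · intro h x hx
    rw [Idl_mem s hs]
    apply h
    rw [Idl_mem s hs, hs]
    exact hx
  · intro h x hx
    rw [Idl_mem s hs] at hx
    have h1 := h hx
    rw [Idl_mem s hs, hs] at h1
    exact h1

private theorem Idl_em {O : Type} [CommRing O] [IsDedekindDomain O] (q I : Ideal O) (n : ℕ)
    (h : ∀ k : ℕ, I ≤ q ^ k ↔ k ≤ n) : emultiplicity q I = n :=
  emultiplicity_eq_coe.2 ⟨Ideal.dvd_iff_le.2 ((h n).2 le_rfl),
    fun hh => absurd ((h (n + 1)).1 (Ideal.dvd_iff_le.1 hh)) (by omega)⟩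

private theorem Idl_em' {O : Type} [CommRing O] [IsDedekindDomain O] (q I : Ideal O) (n : ℕ)
    (h : emultiplicity q I = n) (k : ℕ) : I ≤ q ^ k ↔ k ≤ n := by
  rw [← Ideal.dvd_iff_le, pow_dvd_iff_le_emultiplicity, h, Nat.cast_le]

private theorem Idl_span {O : Type} [CommRing O] (x : O) (I : Ideal O) :
    Ideal.span {x} ≤ I ↔ x ∈ I := by
  rw [Ideal.span_le, Set.singleton_subset_iff, SetLike.mem_coe]

/-- [Idl] the ideal -/
theorem thm_Idl : St_Od → St_Idl := by
  intro hOd O _ _ s τ hs hτ hc G ρ ζ x₀ hG hρ hζ sG τG sζ τζ τρ hx h1 h2 h3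
  classical
  obtain ⟨od1, od2, od3, od4, od5⟩ := hOd O
  let α := {p : Ideal O // p.IsMaximal ∧ p ≠ ⊥}
  have hmax : ∀ (σ : O ≃+* O), (∀ x, σ (σ x) = x) → ∀ p : α,
      (p.1.map σ).IsMaximal ∧ p.1.map σ ≠ ⊥ := by
    intro σ hσ p
    have hp := p.2.1
    refine ⟨inferInstance, ?_⟩
    intro h
    apply p.2.2
    rw [← Idl_inv σ hσ p.1, h, Ideal.map_bot]
  let sa : α → α := fun p => ⟨p.1.map s, hmax s hs p⟩
  let ta : α → α := fun p => ⟨p.1.map τ, hmax τ hτ p⟩
  have hsρ : s ρ ≠ 0 := by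
    intro h
    apply hρ
    rw [← hs ρ, h, map_zero]
  have hx₀ : x₀ ≠ 0 := by
    intro h
    rw [h, zero_mul] at hx
    rcases mul_eq_zero.1 hx with h' | h'
    · exact hρ h'
    · exact hsρ h'
  have osp : ∀ (p : α) (f : O), od (sa p).1 f = od p.1 (s f) := by
    intro p f
    have := od3 s p.1 (s f)
    rw [hs] at this
    exact this
  have otp : ∀ (p : α) (f : O), od (ta p).1 f = od p.1 (τ f) := by
    intro p f
    have := od3 τ p.1 (τ f)
    rw [hτ] at this
    exact this
  have ox : ∀ p : α, od p.1 ρ + od p.1 (s ρ) = od p.1 x₀ + 2 * od p.1 ζ := by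
    intro p
    have k1 := od2 p.1 p.2.1 p.2.2 ρ (s ρ) hρ hsρ
    rw [hx, od2 p.1 p.2.1 p.2.2 x₀ (ζ ^ 2) hx₀ (pow_ne_zero 2 hζ), sq,
      od2 p.1 p.2.1 p.2.2 ζ ζ hζ hζ] at k1
    omega
  have ox₀ : ∀ p : α, od p.1 x₀ = 0 → x₀ ∉ p.1 := by
    intro p h hm
    have := (od1 p.1 p.2.1 p.2.2 x₀ hx₀ 1).1 (by rw [pow_one]; exact hm)
    omega
  obtain ⟨z, z0, z1, z2⟩ := Idl_comb (α := α) sa ta
    (fun p => Subtype.ext (Idl_inv s hs p.1)) (fun p => Subtype.ext (Idl_inv τ hτ p.1))
    (fun p => Subtype.ext (by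
      show (p.1.map τ).map s = (p.1.map s).map τ
      ext x
      rw [Idl_mem s hs, Idl_mem τ hτ, Idl_mem τ hτ, Idl_mem s hs, hc]))
    (fun p => (od p.1 G : ℤ)) (fun p => (od p.1 ρ : ℤ) - od p.1 ζ)
    (fun p => by positivity)
    (fun p => by show ((od (sa p).1 G : ℕ) : ℤ) = od p.1 G; rw [osp, sG])
    (fun p => by show ((od (ta p).1 G : ℕ) : ℤ) = od p.1 G; rw [otp, τG])
    (fun p => by
      show ((od (ta p).1 ρ : ℕ) : ℤ) - (od (ta p).1 ζ : ℕ) =
        (od (sa p).1 ρ : ℕ) - (od (sa p).1 ζ : ℕ)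
      rw [otp, otp, osp, osp, τρ, τζ, sζ])
    (fun p => by
      show (0 : ℤ) ≤ ((od p.1 ρ : ℕ) : ℤ) - (od p.1 ζ : ℕ) +
        ((od (sa p).1 ρ : ℕ) - (od (sa p).1 ζ : ℕ))
      rw [osp, osp, sζ]
      have := ox p
      omega)
    (fun p => by
      have := (h1 p.1 p.2.1 p.2.2).1
      show -2 * (((od p.1 ρ : ℕ) : ℤ) - (od p.1 ζ : ℕ)) ≤ (od p.1 G : ℕ)
      omega)
    (fun p hp => by
      obtain ⟨k1, k2, k3⟩ := h2 p.1 p.2.1 p.2.2 (congrArg Subtype.val hp)
      show ((od p.1 G : ℕ) : ℤ) = 0 ∧ ((od p.1 ρ : ℕ) : ℤ) - (od p.1 ζ : ℕ) = 0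
      omega)
    (fun p hp hz => by
      have hz' : ((od p.1 ρ : ℕ) : ℤ) - (od p.1 ζ : ℕ) +
        ((od (sa p).1 ρ : ℕ) - (od (sa p).1 ζ : ℕ)) = 0 := hz
      rw [osp, osp, sζ] at hz'
      have k0 := ox p
      have k1 : od p.1 x₀ = 0 := by omega
      have k2 := h3 p.1 p.2.1 p.2.2 (congrArg Subtype.val hp) (ox₀ p k1)
      show (((od p.1 G : ℕ) : ℤ) + (((od p.1 ρ : ℕ) : ℤ) - (od p.1 ζ : ℕ))) % 2 = 0
      omega)
  let w : Ideal O → ℕ := fun p => if h : p.IsMaximal ∧ p ≠ ⊥ then (z ⟨p, h⟩).toNat else 0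
  have hw : ∀ p : α, (w p.1 : ℤ) = z p := by
    intro p
    show ((if h : p.1.IsMaximal ∧ p.1 ≠ ⊥ then (z ⟨p.1, h⟩).toNat else 0 : ℕ) : ℤ) = z p
    rw [dif_pos p.2]
    exact Int.toNat_of_nonneg (z0 p)
  have w1 : ∀ p : α, w p.1 + w (ta p).1 = od p.1 G := by
    intro p
    have h := z1 p
    rw [← hw p, ← hw (ta p)] at h
    exact_mod_cast h
  have w2 : ∀ p : α, w p.1 + od p.1 ζ ≤ w (sa p).1 + od p.1 ρ := by
    intro p
    have h := z2 p
    rw [← hw p, ← hw (sa p)] at h
    have h' : (w p.1 : ℤ) - w (sa p).1 ≤ (od p.1 ρ : ℕ) - (od p.1 ζ : ℕ) := h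
    omega
  set T : Finset (Ideal O) := (od4 G hG).toFinset with hT
  set Z : Ideal O := ∏ p ∈ T, p ^ w p with hZ
  have hprime : ∀ p : α, Prime p.1 := fun p =>
    Ideal.prime_of_isPrime p.2.2 p.2.1.isPrime
  have hemZ : ∀ q : α, emultiplicity q.1 Z = w q.1 := by
    intro q
    rw [hZ, Finset.emultiplicity_prod (hprime q), Finset.sum_eq_single q.1]
    · exact emultiplicity_pow_self q.2.2 (hprime q).not_isUnit _
    · intro p hp hpq
      rw [hT, Set.Finite.mem_toFinset] at hp
      apply emultiplicity_eq_zero.2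
      intro hd
      have k1 := (hprime q).dvd_of_dvd_pow hd
      have k2 : p ≤ q.1 := Ideal.dvd_iff_le.1 k1
      exact hpq (hp.1.eq_of_le q.2.1.ne_top k2)
    · intro hq
      have k0 : w q.1 = 0 := by
        have k1 : od q.1 G = 0 := by
          by_contra hne
          apply hq
          rw [hT, Set.Finite.mem_toFinset]
          exact ⟨q.2.1, q.2.2, hne⟩
        have := w1 q
        omega
      rw [k0, pow_zero]
      apply emultiplicity_eq_zero.2
      intro hd
      exact (hprime q).not_isUnit (isUnit_of_dvd_one hd)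
  have hZk : ∀ (q : α) (k : ℕ), Z ≤ q.1 ^ k ↔ k ≤ w q.1 := fun q k => Idl_em' _ _ _ (hemZ q) k
  have hemZt : ∀ q : α, emultiplicity q.1 (Z.map τ) = w (ta q).1 := by
    intro q
    apply Idl_em
    intro k
    rw [Idl_mono τ hτ, Ideal.map_pow]
    exact hZk (ta q) k
  have hZ0 : Z ≠ ⊥ := by
    rw [hZ]
    have : (∏ p ∈ T, p ^ w p) ≠ 0 := by
      rw [Finset.prod_ne_zero_iff]
      intro p hp
      rw [hT, Set.Finite.mem_toFinset] at hp
      exact pow_ne_zero _ hp.2.1
    exact this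
  have hZt0 : Z.map τ ≠ ⊥ := by
    intro h
    apply hZ0
    rw [← Idl_inv τ hτ Z, h, Ideal.map_bot]
  refine ⟨Z, ?_, ?_⟩
  · apply od5
    · exact mul_ne_zero hZ0 hZt0
    · rw [Ne, Ideal.span_singleton_eq_bot]
      exact hG
    · intro p hp1 hp2 k
      let q : α := ⟨p, hp1, hp2⟩
      have k1 : emultiplicity q.1 (Z * Z.map τ) = ((w q.1 + w (ta q).1 : ℕ) : ℕ∞) := by
        rw [emultiplicity_mul (hprime q), hemZ, hemZt, Nat.cast_add]
      have k2 := Idl_em' _ _ _ k1 k
      rw [w1] at k2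
      rw [Idl_span, od1 p hp1 hp2 G hG]
      exact k2
  · intro f hf
    by_cases hf0 : f = 0
    · exact ⟨0, Z.zero_mem, by rw [hf0, map_zero, mul_zero, mul_zero]⟩
    have hsf : s f ≠ 0 := by
      intro h
      apply hf0
      rw [← hs f, h, map_zero]
    have hJ0 : Ideal.span {ζ} * Z ≠ ⊥ := by
      apply mul_ne_zero _ hZ0
      rw [Ne, Ideal.zero_eq_bot, Ideal.span_singleton_eq_bot]
      exact hζ
    have hle : Ideal.span {ρ * s f} ≤ Ideal.span {ζ} * Z := by
      have key : Ideal.span {ρ * s f} ⊔ Ideal.span {ζ} * Z = Ideal.span {ζ} * Z := by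
        apply od5
        · intro h
          apply hJ0
          rw [eq_bot_iff, ← h]
          exact le_sup_right
        · exact hJ0
        · intro p hp1 hp2 k
          rw [sup_le_iff]
          constructor
          · exact fun h => h.2
          · intro h
            refine ⟨?_, h⟩
            let q : α := ⟨p, hp1, hp2⟩
            have k0 : emultiplicity q.1 (Ideal.span {ζ}) = od q.1 ζ := by
              apply Idl_em
              intro k
              rw [Idl_span]
              exact od1 p hp1 hp2 ζ hζ k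
            have k1 : emultiplicity q.1 (Ideal.span {ζ} * Z) = ((od q.1 ζ + w q.1 : ℕ) : ℕ∞) := by
              rw [emultiplicity_mul (hprime q), k0, hemZ, Nat.cast_add]
            have k2 := (Idl_em' _ _ _ k1 k).1 h
            rw [Idl_span, od1 p hp1 hp2 _ (mul_ne_zero hρ hsf), od2 p hp1 hp2 _ _ hρ hsf]
            have k3 : w (sa q).1 ≤ od q.1 (s f) := by
              rw [← osp q f]
              apply (od1 (sa q).1 (sa q).2.1 (sa q).2.2 f hf0 _).1
              exact (hZk (sa q) _).2 le_rfl hf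
            have k4 := w2 q
            have k5 : od q.1 (s f) = od p (s f) := rfl
            have k6 : od q.1 ρ = od p ρ := rfl
            omega
      rw [← key]
      exact le_sup_left
    have hmem := (Idl_span _ _).1 hle
    rw [Ideal.mem_span_singleton_mul] at hmem
    exact hmem

end Pool.Agent.RSV
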