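import Pool.Agent.RSV.StA

/-!
# RSV, module Ira (the curve is irreducible over the complex numbers), helper26; after module Irb (helper63)
-/

set_option autoImplicit false

namespace Pool.Agent.RSV

open Finset

/-! ### the total degree -/

/-- `x ↦ x T`, `z ↦ z T` -/
private noncomputable def Ira_th : BC →+* Polynomial BC :=
  Polynomial.eval₂RingHom (Polynomial.eval₂RingHom
    (((Polynomial.C : BC →+* Polynomial BC).comp (Polynomial.C : Polynomial ℂ →+* BC)).comp
      (Polynomial.C : ℂ →+* Polynomial ℂ))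
    (Polynomial.C (Polynomial.C (Polynomial.X : Polynomial ℂ)) * Polynomial.X : Polynomial BC))
    (Polynomial.C (Polynomial.X : BC) * Polynomial.X)

private theorem Ira_th_mono (j k : ℕ) (a : ℂ) :
    Ira_th (Polynomial.monomial j (Polynomial.monomial k a)) =
      Polynomial.monomial (j + k) (Polynomial.monomial j (Polynomial.monomial k a)) := by
  have h1 : (Polynomial.monomial j (Polynomial.monomial k a) : BC) =
      Polynomial.C (Polynomial.C a) * (Polynomial.C Polynomial.X) ^ k * Polynomial.X ^ j := by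
    rw [← Polynomial.C_mul_X_pow_eq_monomial, ← Polynomial.C_mul_X_pow_eq_monomial,
      Polynomial.C_mul, Polynomial.C_pow]
  rw [← Polynomial.C_mul_X_pow_eq_monomial (n := j + k), h1]
  simp only [map_mul, map_pow]
  simp only [Ira_th, Polynomial.coe_eval₂RingHom, Polynomial.eval₂_C, Polynomial.eval₂_X,
    RingHom.comp_apply]
  ring

private theorem Ira_th_coeff (f : BC) (N j k : ℕ) :
    (((Ira_th f).coeff N).coeff j).coeff k =
      if j + k = N then (f.coeff j).coeff k else 0 := by
  induction f using Polynomial.induction_on' with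
  | add p q hp hq =>
    simp only [map_add, Polynomial.coeff_add, hp, hq]
    split_ifs <;> simp
  | monomial j' g =>
    induction g using Polynomial.induction_on' with
    | add p q hp hq =>
      simp only [map_add, Polynomial.coeff_add, hp, hq]
      split_ifs <;> simp
    | monomial k' a =>
      rw [Ira_th_mono, Polynomial.coeff_monomial]
      by_cases h1 : j' + k' = N
      · rw [if_pos h1]
        by_cases h2 : j + k = N
        · rw [if_pos h2]
        · rw [if_neg h2]
          rw [Polynomial.coeff_monomial]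
          by_cases h3 : j' = j
          · rw [if_pos h3, Polynomial.coeff_monomial, if_neg]
            intro h4; apply h2; omega
          · rw [if_neg h3, Polynomial.coeff_zero]
      · rw [if_neg h1, Polynomial.coeff_zero, Polynomial.coeff_zero]
        by_cases h2 : j + k = N
        · rw [if_pos h2, Polynomial.coeff_monomial]
          by_cases h3 : j' = j
          · rw [if_pos h3, Polynomial.coeff_monomial, if_neg]
            intro h4; apply h1; omega
          · rw [if_neg h3, Polynomial.coeff_zero]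
        · rw [if_neg h2]

private theorem Ira_deg_le {f : BC} {c : ℕ} (h : WD 1 f c) : (Ira_th f).natDegree ≤ c := by
  rw [Polynomial.natDegree_le_iff_coeff_eq_zero]
  intro N hN
  ext j k
  rw [Ira_th_coeff, Polynomial.coeff_zero, Polynomial.coeff_zero]
  split_ifs with h1
  · by_contra h2
    have h3 : f.coeff j ≠ 0 := by
      intro h4; rw [h4] at h2; simp at h2
    have h4 := h j h3
    have h5 := Polynomial.le_natDegree_of_ne_zero h2
    omega
  · rfl

private theorem Ira_le_deg {f : BC} {j : ℕ} (h : f.coeff j ≠ 0) :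
    (f.coeff j).natDegree + 1 * j ≤ (Ira_th f).natDegree := by
  have h1 : (Ira_th f).coeff (j + (f.coeff j).natDegree) ≠ 0 := by
    intro h2
    have h3 := Ira_th_coeff f (j + (f.coeff j).natDegree) j (f.coeff j).natDegree
    rw [h2, if_pos rfl, Polynomial.coeff_zero, Polynomial.coeff_zero] at h3
    exact h (Polynomial.leadingCoeff_eq_zero.mp h3.symm)
  have := Polynomial.le_natDegree_of_ne_zero h1
  omega

private theorem Ira_wd {P Q F : BC} (hP : P.Monic) (hQ : Q.Monic) (hF : P * Q = F)
    (h : WD 1 F (P.natDegree + Q.natDegree)) : WD 1 P P.natDegree := by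
  have hQ1 : Q.coeff Q.natDegree ≠ 0 := by
    rw [hQ.coeff_natDegree]; exact one_ne_zero
  have hP1 : P.coeff P.natDegree ≠ 0 := by
    rw [hP.coeff_natDegree]; exact one_ne_zero
  have h1 := Ira_deg_le h
  have h2 := Ira_le_deg hQ1
  have h2' := Ira_le_deg hP1
  rw [hQ.coeff_natDegree] at h2
  rw [hP.coeff_natDegree] at h2'
  rw [← hF, map_mul, Polynomial.natDegree_mul] at h1
  · intro j hj
    have h3 := Ira_le_deg hj
    omega
  · intro h0
    have := Ira_th_coeff P (P.natDegree + (P.coeff P.natDegree).natDegree) P.natDegree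
      (P.coeff P.natDegree).natDegree
    rw [h0, if_pos rfl, Polynomial.coeff_zero, Polynomial.coeff_zero, Polynomial.coeff_zero] at this
    exact hP1 (Polynomial.leadingCoeff_eq_zero.mp this.symm)
  · intro h0
    have := Ira_th_coeff Q (Q.natDegree + (Q.coeff Q.natDegree).natDegree) Q.natDegree
      (Q.coeff Q.natDegree).natDegree
    rw [h0, if_pos rfl, Polynomial.coeff_zero, Polynomial.coeff_zero, Polynomial.coeff_zero] at this
    exact hQ1 (Polynomial.leadingCoeff_eq_zero.mp this.symm)

/-! ### homogenization -/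

/-- homogenization -/
private noncomputable def Ira_H (c : ℕ) (f : BC) : MvPolynomial (Fin 3) ℂ :=
  ∑ j ∈ range (f.natDegree + 1), ∑ k ∈ range (c + 1),
    MvPolynomial.C ((f.coeff j).coeff k) * MvPolynomial.X 0 ^ j *
      MvPolynomial.X 1 ^ (c - j - k) * MvPolynomial.X 2 ^ k

private theorem Ira_hom {c : ℕ} {f : BC} (h : WD 1 f c) : (Ira_H c f).IsHomogeneous c := by
  refine MvPolynomial.IsHomogeneous.sum _ _ _ fun j _ => MvPolynomial.IsHomogeneous.sum _ _ _ fun k _ => ?_
  by_cases h0 : (f.coeff j).coeff k = 0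
  · rw [h0]; simp [MvPolynomial.isHomogeneous_zero]
  · have h3 : f.coeff j ≠ 0 := by
      intro h4; rw [h4] at h0; simp at h0
    have h4 := h j h3
    have h5 := Polynomial.le_natDegree_of_ne_zero h0
    have h6 : c = 0 + j + (c - j - k) + k := by omega
    conv => rw [h6]
    have e : c - j - k = 0 + j + (c - j - k) + k - j - k := by omega
    rw [← e]
    exact (((MvPolynomial.isHomogeneous_C _ _).mul (MvPolynomial.isHomogeneous_X_pow 0 _)).mul
      (MvPolynomial.isHomogeneous_X_pow 1 _)).mul (MvPolynomial.isHomogeneous_X_pow 2 _)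

private theorem Ira_evc (f : BC) (x y : ℂ) (c : ℕ) (h : WD 1 f c) :
    evc f x y = ∑ j ∈ range (f.natDegree + 1), ∑ k ∈ range (c + 1),
      (f.coeff j).coeff k * y ^ k * x ^ j := by
  rw [evc, Polynomial.eval_map, Polynomial.eval₂_eq_sum_range]
  refine sum_congr rfl fun j _ => ?_
  rw [Polynomial.coe_evalRingHom]
  have hd : (f.coeff j).natDegree < c + 1 := by
    by_cases h0 : f.coeff j = 0
    · rw [h0]; simp
    · have := h j h0; omega
  rw [Polynomial.eval_eq_sum_range' hd, sum_mul]

private theorem Ira_H1 {c : ℕ} {f : BC} (h : WD 1 f c) (x y z : ℂ) (hy : y ≠ 0) :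
    MvPolynomial.eval ![x, y, z] (Ira_H c f) = y ^ c * evc f (x / y) (z / y) := by
  rw [Ira_evc f _ _ c h]
  simp only [Ira_H, map_sum, map_mul, map_pow, MvPolynomial.eval_C, MvPolynomial.eval_X, mul_sum]
  refine sum_congr rfl fun j _ => sum_congr rfl fun k _ => ?_
  simp only [Matrix.cons_val_zero, Matrix.cons_val_one, Matrix.cons_val]
  by_cases h0 : (f.coeff j).coeff k = 0
  · rw [h0]; simp
  · have h3 : f.coeff j ≠ 0 := by
      intro h4; rw [h4] at h0; simp at h0
    have h4 := h j h3
    have h5 := Polynomial.le_natDegree_of_ne_zero h0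
    obtain ⟨r, hr⟩ : ∃ r, c = r + j + k := ⟨c - j - k, by omega⟩
    have e : c - j - k = r := by omega
    have hx1 : y ^ k ≠ 0 := pow_ne_zero _ hy
    have hx2 : y ^ j ≠ 0 := pow_ne_zero _ hy
    rw [e, hr, div_pow, div_pow, pow_add, pow_add]
    field_simp

/-! ### the chart over the complex numbers -/

private theorem Ira_ev (R : TP) (x z : ℂ) :
    evc (cx (ch R)) x z = MvPolynomial.aeval ![x, 1, z] R := by
  induction R using MvPolynomial.induction_on with
  | C a =>
    simp [evc, cx, ch, MvPolynomial.algHom_C, Polynomial.algebraMap_apply]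
  | add p q hp hq =>
    simp only [evc, cx, ch, map_add, Polynomial.map_add, Polynomial.eval_add] at hp hq ⊢
    rw [hp, hq]
  | mul_X p i hp =>
    simp only [evc, cx, ch, map_mul, Polynomial.map_mul, Polynomial.eval_mul,
      MvPolynomial.aeval_X] at hp ⊢
    rw [hp]
    congr 1
    fin_cases i <;> simp

private theorem Ira_smul {n : ℕ} {f : MvPolynomial (Fin 3) ℂ} (hf : f.IsHomogeneous n) (c : ℂ)
    (v : Fin 3 → ℂ) : MvPolynomial.eval (fun i => c * v i) f = c ^ n * MvPolynomial.eval v f := by
  rw [MvPolynomial.eval_eq, MvPolynomial.eval_eq, mul_sum]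
  refine sum_congr rfl fun d hd => ?_
  have h1 : ∑ i ∈ d.support, d i = n := by
    have := hf.degree_eq_sum_deg_support hd
    exact this.symm
  simp only [mul_pow, prod_mul_distrib]
  rw [prod_pow_eq_pow_sum, h1]
  ring

/-! ### the product identity -/

private theorem Ira_id {n : ℕ} {R : TP} (hR : R.IsHomogeneous n) {P Q : BC}
    (hwP : WD 1 P P.natDegree) (hwQ : WD 1 Q Q.natDegree)
    (hPQ : P * Q = cx (ch R)) (hpq : P.natDegree + Q.natDegree = n) :
    Ira_H P.natDegree P * Ira_H Q.natDegree Q = MvPolynomial.map (algebraMap ℝ ℂ) R := by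
  have hX : (MvPolynomial.X 1 : MvPolynomial (Fin 3) ℂ) ≠ 0 := MvPolynomial.X_ne_zero 1
  apply mul_left_cancel₀ hX
  apply MvPolynomial.funext
  intro u
  simp only [map_mul, MvPolynomial.eval_X]
  by_cases hx : u 1 = 0
  · rw [hx, zero_mul, zero_mul]
  · congr 1
    have hu : u = ![u 0, u 1, u 2] := by
      ext i; fin_cases i <;> rfl
    have e1 := Ira_H1 hwP (u 0) (u 1) (u 2) hx
    have e2 := Ira_H1 hwQ (u 0) (u 1) (u 2) hx
    rw [← hu] at e1 e2
    rw [e1, e2]
    have e3 : evc P (u 0 / u 1) (u 2 / u 1) * evc Q (u 0 / u 1) (u 2 / u 1) =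
        MvPolynomial.aeval ![u 0 / u 1, 1, u 2 / u 1] R := by
      rw [← Ira_ev, ← hPQ]
      simp only [evc, Polynomial.map_mul, Polynomial.eval_mul]
    have e5 := Ira_smul (hR.map (algebraMap ℝ ℂ)) (u 1) ![u 0 / u 1, 1, u 2 / u 1]
    have e6 : (fun i => u 1 * (![u 0 / u 1, 1, u 2 / u 1] : Fin 3 → ℂ) i) = u := by
      ext i; fin_cases i
      · simp; field_simp
      · simp
      · simp; field_simp
    rw [e6] at e5
    rw [e5, MvPolynomial.eval_map, ← MvPolynomial.aeval_def, ← e3, ← hpq]
    ring

/-- **Ira** -/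
theorem thm_Ira : St_Cz → St_Mon → St_Ira := by
  intro hCz hMon n R a b s hn hG
  obtain ⟨⟨hm1, hd1, -⟩, ⟨hm, hd, hw⟩, -, -, -⟩ := hMon n R a b s hn hG
  have hirr : Irreducible (cx (ch R)) := by
    rw [hm.irreducible_iff_natDegree]
    refine ⟨?_, ?_⟩
    · intro h1; rw [h1] at hd; simp at hd; omega
    · intro P Q hP hQ hPQ
      by_contra hc
      push Not at hc
      obtain ⟨hp0, hq0⟩ := hc
      have hpq : P.natDegree + Q.natDegree = n := by rw [← hd, ← hPQ, hP.natDegree_mul hQ]
      have hwP : WD 1 P P.natDegree := Ira_wd hP hQ hPQ (by rw [hpq]; exact hw)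
      have hwQ : WD 1 Q Q.natDegree :=
        Ira_wd (F := cx (ch R)) hQ hP (by rw [mul_comm]; exact hPQ)
          (by rw [add_comm, hpq]; exact hw)
      obtain ⟨v, hv0, hv⟩ := hCz 3 2 ![Ira_H P.natDegree P, Ira_H Q.natDegree Q]
        (by norm_num) (by
          intro i; fin_cases i
          · exact ⟨P.natDegree, by omega, Ira_hom hwP⟩
          · exact ⟨Q.natDegree, by omega, Ira_hom hwQ⟩)
      have hvP : MvPolynomial.eval v (Ira_H P.natDegree P) = 0 := hv 0
      have hvQ : MvPolynomial.eval v (Ira_H Q.natDegree Q) = 0 := hv 1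
      have hid := Ira_id hG.hom hwP hwQ hPQ hpq
      have hreal : ∀ F : TP, MvPolynomial.eval v (MvPolynomial.map (algebraMap ℝ ℂ) F) =
          MvPolynomial.aeval v F := by
        intro F
        rw [MvPolynomial.eval_map, ← MvPolynomial.aeval_def]
      have hR0 : MvPolynomial.aeval v R = 0 := by
        rw [← hreal, ← hid, map_mul, hvP, zero_mul]
      obtain ⟨i, hi⟩ := hG.smooth v hv0 hR0
      apply hi
      rw [← hreal, ← MvPolynomial.pderiv_map, ← hid, MvPolynomial.pderiv_mul, map_add, map_mul,
        map_mul, hvP, hvQ, mul_zero, zero_mul, add_zero]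
  refine ⟨hirr, ?_⟩
  exact Polynomial.Monic.irreducible_of_irreducible_map
    (Polynomial.mapRingHom (algebraMap ℝ ℂ)) (ch R) hm1 hirr

end Pool.Agent.RSV
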