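import Pool.Agent.RSV.StA

/-!
# RSV, module Irb (the double cover is irreducible), helper63
-/

set_option autoImplicit false

namespace Pool.Agent.RSV

open Finset

/-! ### the weighted degree -/

/-- `x ↦ x T²`, `y ↦ y T` -/
private noncomputable def Irb_th : BC →+* Polynomial BC :=
  Polynomial.eval₂RingHom (Polynomial.eval₂RingHom
    (((Polynomial.C : BC →+* Polynomial BC).comp (Polynomial.C : Polynomial ℂ →+* BC)).comp
      (Polynomial.C : ℂ →+* Polynomial ℂ))
    (Polynomial.C (Polynomial.C (Polynomial.X : Polynomial ℂ)) * Polynomial.X : Polynomial BC))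
    (Polynomial.C (Polynomial.X : BC) * Polynomial.X ^ 2)

private theorem Irb_th_mono (j k : ℕ) (a : ℂ) :
    Irb_th (Polynomial.monomial j (Polynomial.monomial k a)) =
      Polynomial.monomial (2 * j + k) (Polynomial.monomial j (Polynomial.monomial k a)) := by
  have h1 : (Polynomial.monomial j (Polynomial.monomial k a) : BC) =
      Polynomial.C (Polynomial.C a) * (Polynomial.C Polynomial.X) ^ k * Polynomial.X ^ j := by
    rw [← Polynomial.C_mul_X_pow_eq_monomial, ← Polynomial.C_mul_X_pow_eq_monomial,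
      Polynomial.C_mul, Polynomial.C_pow]
  rw [← Polynomial.C_mul_X_pow_eq_monomial (n := 2 * j + k), h1]
  simp only [map_mul, map_pow]
  simp only [Irb_th, Polynomial.coe_eval₂RingHom, Polynomial.eval₂_C, Polynomial.eval₂_X,
    RingHom.comp_apply]
  ring

private theorem Irb_th_coeff (f : BC) (N j k : ℕ) :
    (((Irb_th f).coeff N).coeff j).coeff k =
      if 2 * j + k = N then (f.coeff j).coeff k else 0 := by
  induction f using Polynomial.induction_on' with
  | add p q hp hq =>
    simp only [map_add, Polynomial.coeff_add, hp, hq]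
    split_ifs <;> simp
  | monomial j' g =>
    induction g using Polynomial.induction_on' with
    | add p q hp hq =>
      simp only [map_add, Polynomial.coeff_add, hp, hq]
      split_ifs <;> simp
    | monomial k' a =>
      rw [Irb_th_mono, Polynomial.coeff_monomial]
      by_cases h1 : 2 * j' + k' = N
      · rw [if_pos h1]
        by_cases h2 : 2 * j + k = N
        · rw [if_pos h2]
        · rw [if_neg h2]
          rw [Polynomial.coeff_monomial]
          by_cases h3 : j' = j
          · rw [if_pos h3, Polynomial.coeff_monomial, if_neg]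
            intro h4; apply h2; omega
          · rw [if_neg h3, Polynomial.coeff_zero]
      · rw [if_neg h1, Polynomial.coeff_zero, Polynomial.coeff_zero]
        by_cases h2 : 2 * j + k = N
        · rw [if_pos h2, Polynomial.coeff_monomial]
          by_cases h3 : j' = j
          · rw [if_pos h3, Polynomial.coeff_monomial, if_neg]
            intro h4; apply h1; omega
          · rw [if_neg h3, Polynomial.coeff_zero]
        · rw [if_neg h2]

private theorem Irb_deg_le {f : BC} {c : ℕ} (h : WD 2 f c) : (Irb_th f).natDegree ≤ c := by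
  rw [Polynomial.natDegree_le_iff_coeff_eq_zero]
  intro N hN
  ext j k
  rw [Irb_th_coeff, Polynomial.coeff_zero, Polynomial.coeff_zero]
  split_ifs with h1
  · by_contra h2
    have h3 : f.coeff j ≠ 0 := by
      intro h4; rw [h4] at h2; simp at h2
    have h4 := h j h3
    have h5 := Polynomial.le_natDegree_of_ne_zero h2
    omega
  · rfl

private theorem Irb_le_deg {f : BC} {j : ℕ} (h : f.coeff j ≠ 0) :
    (f.coeff j).natDegree + 2 * j ≤ (Irb_th f).natDegree := by
  have h1 : (Irb_th f).coeff (2 * j + (f.coeff j).natDegree) ≠ 0 := by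
    intro h2
    have h3 := Irb_th_coeff f (2 * j + (f.coeff j).natDegree) j (f.coeff j).natDegree
    rw [h2, if_pos rfl, Polynomial.coeff_zero, Polynomial.coeff_zero] at h3
    exact h (Polynomial.leadingCoeff_eq_zero.mp h3.symm)
  have := Polynomial.le_natDegree_of_ne_zero h1
  omega

private theorem Irb_wd {P Q F : BC} (hP : P.Monic) (hQ : Q.Monic) (hF : P * Q = F)
    (h : WD 2 F (2 * (P.natDegree + Q.natDegree))) : WD 2 P (2 * P.natDegree) := by
  have hQ1 : Q.coeff Q.natDegree ≠ 0 := by
    rw [hQ.coeff_natDegree]; exact one_ne_zero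
  have hP1 : P.coeff P.natDegree ≠ 0 := by
    rw [hP.coeff_natDegree]; exact one_ne_zero
  have h1 := Irb_deg_le h
  have h2 := Irb_le_deg hQ1
  have h2' := Irb_le_deg hP1
  rw [hQ.coeff_natDegree] at h2
  rw [hP.coeff_natDegree] at h2'
  rw [← hF, map_mul, Polynomial.natDegree_mul] at h1
  · intro j hj
    have h3 := Irb_le_deg hj
    omega
  · intro h0
    have := Irb_th_coeff P (2 * P.natDegree + (P.coeff P.natDegree).natDegree) P.natDegree
      (P.coeff P.natDegree).natDegree
    rw [h0, if_pos rfl, Polynomial.coeff_zero, Polynomial.coeff_zero, Polynomial.coeff_zero] at this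
    exact hP1 (Polynomial.leadingCoeff_eq_zero.mp this.symm)
  · intro h0
    have := Irb_th_coeff Q (2 * Q.natDegree + (Q.coeff Q.natDegree).natDegree) Q.natDegree
      (Q.coeff Q.natDegree).natDegree
    rw [h0, if_pos rfl, Polynomial.coeff_zero, Polynomial.coeff_zero, Polynomial.coeff_zero] at this
    exact hQ1 (Polynomial.leadingCoeff_eq_zero.mp this.symm)

/-! ### homogenization -/

/-- homogenization with the weights `w`, `1` -/
private noncomputable def Irb_H (w c : ℕ) (f : BC) : MvPolynomial (Fin 3) ℂ :=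
  ∑ j ∈ range (f.natDegree + 1), ∑ k ∈ range (c + 1),
    MvPolynomial.C ((f.coeff j).coeff k) * MvPolynomial.X 0 ^ (w * j) *
      MvPolynomial.X 1 ^ (c - 2 * j - k) * MvPolynomial.X 2 ^ k

private theorem Irb_hom {c : ℕ} {f : BC} (h : WD 2 f c) : (Irb_H 2 c f).IsHomogeneous c := by
  refine MvPolynomial.IsHomogeneous.sum _ _ _ fun j _ => MvPolynomial.IsHomogeneous.sum _ _ _ fun k _ => ?_
  by_cases h0 : (f.coeff j).coeff k = 0
  · rw [h0]; simp [MvPolynomial.isHomogeneous_zero]
  · have h3 : f.coeff j ≠ 0 := by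
      intro h4; rw [h4] at h0; simp at h0
    have h4 := h j h3
    have h5 := Polynomial.le_natDegree_of_ne_zero h0
    have h6 : c = 0 + 2 * j + (c - 2 * j - k) + k := by omega
    conv => rw [h6]
    have e : c - 2 * j - k = 0 + 2 * j + (c - 2 * j - k) + k - 2 * j - k := by omega
    rw [← e]
    exact (((MvPolynomial.isHomogeneous_C _ _).mul (MvPolynomial.isHomogeneous_X_pow 0 _)).mul
      (MvPolynomial.isHomogeneous_X_pow 1 _)).mul (MvPolynomial.isHomogeneous_X_pow 2 _)

private theorem Irb_H2 (c : ℕ) (f : BC) (w x y : ℂ) :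
    MvPolynomial.eval ![w, x, y] (Irb_H 2 c f) = MvPolynomial.eval ![w ^ 2, x, y] (Irb_H 1 c f) := by
  simp only [Irb_H, map_sum, map_mul, map_pow, MvPolynomial.eval_C, MvPolynomial.eval_X]
  refine sum_congr rfl fun j _ => sum_congr rfl fun k _ => ?_
  simp only [Matrix.cons_val_zero, Matrix.cons_val_one, Matrix.cons_val]
  rw [one_mul, ← pow_mul]

private theorem Irb_evc (f : BC) (x y : ℂ) (c : ℕ) (h : WD 2 f c) :
    evc f x y = ∑ j ∈ range (f.natDegree + 1), ∑ k ∈ range (c + 1),
      (f.coeff j).coeff k * y ^ k * x ^ j := by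
  rw [evc, Polynomial.eval_map, Polynomial.eval₂_eq_sum_range]
  refine sum_congr rfl fun j _ => ?_
  rw [Polynomial.coe_evalRingHom]
  have hd : (f.coeff j).natDegree < c + 1 := by
    by_cases h0 : f.coeff j = 0
    · rw [h0]; simp
    · have := h j h0; omega
  rw [Polynomial.eval_eq_sum_range' hd, sum_mul]

private theorem Irb_H1 {c : ℕ} {f : BC} (h : WD 2 f c) (X x y : ℂ) (hx : x ≠ 0) :
    MvPolynomial.eval ![X, x, y] (Irb_H 1 c f) = x ^ c * evc f (X / x ^ 2) (y / x) := by
  rw [Irb_evc f _ _ c h]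
  simp only [Irb_H, map_sum, map_mul, map_pow, MvPolynomial.eval_C, MvPolynomial.eval_X, mul_sum]
  refine sum_congr rfl fun j _ => sum_congr rfl fun k _ => ?_
  simp only [Matrix.cons_val_zero, Matrix.cons_val_one, Matrix.cons_val]
  by_cases h0 : (f.coeff j).coeff k = 0
  · rw [h0]; simp
  · have h3 : f.coeff j ≠ 0 := by
      intro h4; rw [h4] at h0; simp at h0
    have h4 := h j h3
    have h5 := Polynomial.le_natDegree_of_ne_zero h0
    obtain ⟨r, hr⟩ : ∃ r, c = r + 2 * j + k := ⟨c - 2 * j - k, by omega⟩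
    have e : c - 2 * j - k = r := by omega
    have hx1 : x ^ k ≠ 0 := pow_ne_zero _ hx
    have hx2 : x ^ (2 * j) ≠ 0 := pow_ne_zero _ hx
    rw [e, hr, div_pow, div_pow, ← pow_mul, pow_add, pow_add, one_mul]
    field_simp

private theorem Irb_H0 {P : BC} (hP : P.Monic) (w : ℂ) :
    MvPolynomial.eval ![w, 0, 0] (Irb_H 2 (2 * P.natDegree) P) = w ^ (2 * P.natDegree) := by
  simp only [Irb_H, map_sum, map_mul, map_pow, MvPolynomial.eval_C, MvPolynomial.eval_X]
  simp only [Matrix.cons_val_zero, Matrix.cons_val_one, Matrix.cons_val]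
  rw [sum_eq_single P.natDegree]
  · rw [sum_eq_single 0]
    · simp [hP.coeff_natDegree]
    · intro k _ hk
      rw [zero_pow hk, mul_zero]
    · intro h; simp at h
  · intro j hj hne
    refine sum_eq_zero fun k _ => ?_
    rcases Nat.eq_zero_or_pos k with rfl | hk
    · have hj' : j < P.natDegree := by
        have := mem_range.mp hj; omega
      rw [zero_pow (n := 2 * P.natDegree - 2 * j - 0) (by omega)]
      ring
    · rw [zero_pow (n := k) (by omega)]; ring
  · intro h; simp at h

/-! ### the chain rule and homogeneity -/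

private theorem Irb_chain {k σ A : Type} [Fintype σ] [CommRing k] [CommRing A] [Algebra k A]
    (D : Derivation k A A) (g : σ → A) (R : MvPolynomial σ k) :
    D (MvPolynomial.aeval g R) =
      ∑ j, MvPolynomial.aeval g (MvPolynomial.pderiv j R) * D (g j) := by
  classical
  induction R using MvPolynomial.induction_on with
  | C a =>
    simp [MvPolynomial.algHom_C]
  | add p q hp hq =>
    simp only [map_add, hp, hq, add_mul, sum_add_distrib]
  | mul_X p i hp =>
    rw [map_mul, MvPolynomial.aeval_X, Derivation.leibniz, hp]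
    simp only [MvPolynomial.pderiv_mul, map_add, map_mul, MvPolynomial.aeval_X, add_mul,
      sum_add_distrib, smul_eq_mul, MvPolynomial.pderiv_X]
    rw [add_comm]
    congr 1
    · rw [mul_sum]; refine sum_congr rfl fun j _ => ?_; ring
    · rw [sum_eq_single i]
      · simp
      · intro j _ hj
        simp [hj.symm]
      · intro h; exact absurd (mem_univ i) h

private theorem Irb_smul {n : ℕ} {f : MvPolynomial (Fin 3) ℂ} (hf : f.IsHomogeneous n) (c : ℂ)
    (v : Fin 3 → ℂ) : MvPolynomial.eval (fun i => c * v i) f = c ^ n * MvPolynomial.eval v f := by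
  rw [MvPolynomial.eval_eq, MvPolynomial.eval_eq, mul_sum]
  refine sum_congr rfl fun d hd => ?_
  have h1 : ∑ i ∈ d.support, d i = n := by
    have := hf.degree_eq_sum_deg_support hd
    exact this.symm
  simp only [mul_pow, prod_mul_distrib]
  rw [prod_pow_eq_pow_sum, h1]
  ring

/-! ### double roots -/

private theorem Irb_inj {n : ℕ} (a f : Fin n → ℝ) (hf : Function.Injective f)
    (h : ∀ k, ∏ i, (f k - a i ^ 2) = 0) : Function.Injective (fun i => a i ^ 2) := by
  have h' : ∀ k, ∃ i, f k = a i ^ 2 := by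
    intro k
    obtain ⟨i, _, hi⟩ := prod_eq_zero_iff.mp (h k)
    exact ⟨i, sub_eq_zero.mp hi⟩
  choose σ hσ using h'
  have hinj : Function.Injective σ := by
    intro k l hkl
    apply hf
    rw [hσ k, hσ l, hkl]
  have hsur : Function.Surjective σ := Finite.surjective_of_injective hinj
  intro i j hij
  obtain ⟨k, rfl⟩ := hsur i
  obtain ⟨l, rfl⟩ := hsur j
  have : f k = f l := by rw [hσ k, hσ l]; exact hij
  rw [hf this]

private theorem Irb_dbl {n : ℕ} (a : Fin n → ℝ) (ha : Function.Injective (fun i => a i ^ 2))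
    (R : TP) (y z : ℝ) (hR : ∀ t : ℝ, val R t y z = ∏ i, (t - a i ^ 2)) (t : ℂ)
    (h0 : MvPolynomial.aeval ![t, (y : ℂ), (z : ℂ)] R = 0)
    (h1 : MvPolynomial.aeval ![t, (y : ℂ), (z : ℂ)] (MvPolynomial.pderiv 0 R) = 0) : False := by
  set w : Fin 3 → Polynomial ℝ := ![Polynomial.X, Polynomial.C y, Polynomial.C z] with hw
  have hval : ∀ (F : TP), Polynomial.aeval t (MvPolynomial.aeval w F) =
      MvPolynomial.aeval ![t, (y : ℂ), (z : ℂ)] F := by
    intro F
    rw [MvPolynomial.comp_aeval_apply]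
    have : (fun i => Polynomial.aeval t (w i)) = ![t, (y : ℂ), (z : ℂ)] := by
      ext i; fin_cases i <;> simp [hw]
    rw [this]
  have hval2 : ∀ t : ℝ, (MvPolynomial.aeval w R).eval t = val R t y z := by
    intro t
    have h2 := MvPolynomial.comp_aeval_apply w (Polynomial.aeval t : Polynomial ℝ →ₐ[ℝ] ℝ) R
    rw [Polynomial.coe_aeval_eq_eval] at h2
    rw [h2, val, ← MvPolynomial.coe_aeval_eq_eval]
    have : (fun i => Polynomial.eval t (w i)) = ![t, y, z] := by
      ext i; fin_cases i <;> simp [hw]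
    rw [this]; rfl
  have hg : MvPolynomial.aeval w R = ∏ i, (Polynomial.X - Polynomial.C (a i ^ 2)) := by
    apply Polynomial.funext
    intro t
    rw [hval2, hR, Polynomial.eval_prod]
    simp
  have hder : Polynomial.derivative (MvPolynomial.aeval w R) =
      MvPolynomial.aeval w (MvPolynomial.pderiv 0 R) := by
    have h3 := Irb_chain (Polynomial.derivative' : Derivation ℝ (Polynomial ℝ) (Polynomial ℝ)) w R
    rw [Fin.sum_univ_three] at h3
    have h4 : (Polynomial.derivative' : Derivation ℝ (Polynomial ℝ) (Polynomial ℝ)) (w 0) = 1 := by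
      change Polynomial.derivative (Polynomial.X : Polynomial ℝ) = 1
      exact Polynomial.derivative_X
    have h5 : (Polynomial.derivative' : Derivation ℝ (Polynomial ℝ) (Polynomial ℝ)) (w 1) = 0 := by
      change Polynomial.derivative (Polynomial.C y : Polynomial ℝ) = 0
      exact Polynomial.derivative_C
    have h6 : (Polynomial.derivative' : Derivation ℝ (Polynomial ℝ) (Polynomial ℝ)) (w 2) = 0 := by
      change Polynomial.derivative (Polynomial.C z : Polynomial ℝ) = 0
      exact Polynomial.derivative_C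
    rw [h4, h5, h6, mul_one, mul_zero, mul_zero, add_zero, add_zero] at h3
    exact h3
  have hsep : (MvPolynomial.aeval w R : Polynomial ℝ).Separable := by
    rw [hg]
    exact Polynomial.separable_prod_X_sub_C_iff.mpr ha
  obtain ⟨u, v, huv⟩ := hsep
  have h7 := congrArg (Polynomial.aeval t) huv
  rw [map_add, map_mul, map_mul, hder, hval, hval, h0, h1, mul_zero, mul_zero, add_zero,
    map_one] at h7
  exact zero_ne_one h7

/-! ### the product identity -/

private theorem Irb_id {n : ℕ} {R : TP} (hR : R.IsHomogeneous n) {P Q : BC}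
    (hwP : WD 2 P (2 * P.natDegree)) (hwQ : WD 2 Q (2 * Q.natDegree))
    (hPQ : P * Q = chc R) (hpq : P.natDegree + Q.natDegree = n)
    (hev : ∀ (x y : ℂ), evc (chc R) x y = MvPolynomial.aeval ![x, 1, y ^ 2] R) :
    Irb_H 1 (2 * P.natDegree) P * Irb_H 1 (2 * Q.natDegree) Q =
      MvPolynomial.aeval ![MvPolynomial.X 0, MvPolynomial.X 1 ^ 2, MvPolynomial.X 2 ^ 2]
        (MvPolynomial.map (algebraMap ℝ ℂ) R) := by
  have hX : (MvPolynomial.X 1 : MvPolynomial (Fin 3) ℂ) ≠ 0 := MvPolynomial.X_ne_zero 1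
  apply mul_left_cancel₀ hX
  apply MvPolynomial.funext
  intro u
  simp only [map_mul, MvPolynomial.eval_X]
  by_cases hx : u 1 = 0
  · rw [hx, zero_mul, zero_mul]
  · congr 1
    have hu : u = ![u 0, u 1, u 2] := by
      ext i; fin_cases i <;> rfl
    have e1 := Irb_H1 hwP (u 0) (u 1) (u 2) hx
    have e2 := Irb_H1 hwQ (u 0) (u 1) (u 2) hx
    rw [← hu] at e1 e2
    rw [e1, e2]
    have e3 : evc P (u 0 / u 1 ^ 2) (u 2 / u 1) * evc Q (u 0 / u 1 ^ 2) (u 2 / u 1) =
        MvPolynomial.aeval ![u 0 / u 1 ^ 2, 1, (u 2 / u 1) ^ 2] R := by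
      rw [← hev, ← hPQ]
      simp only [evc, Polynomial.map_mul, Polynomial.eval_mul]
    have e4 : MvPolynomial.eval u (MvPolynomial.aeval
        ![MvPolynomial.X 0, MvPolynomial.X 1 ^ 2, MvPolynomial.X 2 ^ 2]
        (MvPolynomial.map (algebraMap ℝ ℂ) R)) =
        MvPolynomial.eval ![u 0, u 1 ^ 2, u 2 ^ 2] (MvPolynomial.map (algebraMap ℝ ℂ) R) := by
      rw [← MvPolynomial.coe_aeval_eq_eval u]
      change MvPolynomial.aeval u _ = _
      rw [MvPolynomial.comp_aeval_apply, ← MvPolynomial.coe_aeval_eq_eval]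
      change _ = MvPolynomial.aeval _ _
      congr 1
      congr 1
      ext i; fin_cases i <;> simp
    have e5 := Irb_smul (hR.map (algebraMap ℝ ℂ)) (u 1 ^ 2) ![u 0 / u 1 ^ 2, 1, (u 2 / u 1) ^ 2]
    have e6 : (fun i => u 1 ^ 2 * (![u 0 / u 1 ^ 2, 1, (u 2 / u 1) ^ 2] : Fin 3 → ℂ) i) =
        ![u 0, u 1 ^ 2, u 2 ^ 2] := by
      ext i; fin_cases i
      · simp; field_simp
      · simp
      · simp; field_simp
    rw [e6] at e5
    rw [e4, e5, MvPolynomial.eval_map, ← MvPolynomial.aeval_def, ← e3, ← hpq]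
    ring

/-- **Irb** -/
theorem thm_Irb : St_Cz → St_Mon → St_Irb := by
  intro hCz hMon n R a b s hn hG
  obtain ⟨-, -, ⟨hm, hd, hw⟩, -, hev⟩ := hMon n R a b s hn hG
  rw [hm.irreducible_iff_natDegree]
  refine ⟨?_, ?_⟩
  · intro h1; rw [h1] at hd; simp at hd; omega
  · intro P Q hP hQ hPQ
    by_contra hc
    push Not at hc
    obtain ⟨hp0, hq0⟩ := hc
    have hpq : P.natDegree + Q.natDegree = n := by rw [← hd, ← hPQ, hP.natDegree_mul hQ]
    have hwP : WD 2 P (2 * P.natDegree) := Irb_wd hP hQ hPQ (by rw [hpq]; exact hw)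
    have hwQ : WD 2 Q (2 * Q.natDegree) :=
      Irb_wd (F := chc R) hQ hP (by rw [mul_comm]; exact hPQ) (by rw [add_comm, hpq]; exact hw)
    obtain ⟨v, hv0, hv⟩ := hCz 3 2 ![Irb_H 2 (2 * P.natDegree) P, Irb_H 2 (2 * Q.natDegree) Q]
      (by norm_num) (by
        intro i; fin_cases i
        · exact ⟨2 * P.natDegree, by omega, Irb_hom hwP⟩
        · exact ⟨2 * Q.natDegree, by omega, Irb_hom hwQ⟩)
    have hvP : MvPolynomial.eval v (Irb_H 2 (2 * P.natDegree) P) = 0 := hv 0
    have hvQ : MvPolynomial.eval v (Irb_H 2 (2 * Q.natDegree) Q) = 0 := hv 1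
    obtain ⟨w, x, y, rfl⟩ : ∃ w x y : ℂ, v = ![w, x, y] :=
      ⟨v 0, v 1, v 2, by ext i; fin_cases i <;> rfl⟩
    have hxy : ¬ (x = 0 ∧ y = 0) := by
      rintro ⟨rfl, rfl⟩
      rw [Irb_H0 hP] at hvP
      have : w = 0 := pow_eq_zero_iff (by omega) |>.mp hvP
      apply hv0
      rw [this]
      ext i; fin_cases i <;> rfl
    rw [Irb_H2] at hvP hvQ
    have hid := Irb_id hG.hom hwP hwQ hPQ hpq (fun x y => hev R x y)
    set u : Fin 3 → ℂ := ![w ^ 2, x, y] with hu
    set RC := MvPolynomial.map (algebraMap ℝ ℂ) R with hRC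
    set gs : Fin 3 → MvPolynomial (Fin 3) ℂ :=
      ![MvPolynomial.X 0, MvPolynomial.X 1 ^ 2, MvPolynomial.X 2 ^ 2] with hgs
    set q : Fin 3 → ℂ := ![w ^ 2, x ^ 2, y ^ 2] with hq
    have heval : ∀ F : MvPolynomial (Fin 3) ℂ, MvPolynomial.eval u (MvPolynomial.aeval gs F) =
        MvPolynomial.eval q F := by
      intro F
      rw [← MvPolynomial.coe_aeval_eq_eval u]
      change MvPolynomial.aeval u _ = _
      rw [MvPolynomial.comp_aeval_apply, ← MvPolynomial.coe_aeval_eq_eval]
      change _ = MvPolynomial.aeval _ _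
      congr 1
      congr 1
      ext i; fin_cases i <;> simp [hgs, hu, hq]
    have hreal : ∀ F : TP, MvPolynomial.eval q (MvPolynomial.map (algebraMap ℝ ℂ) F) =
        MvPolynomial.aeval q F := by
      intro F
      rw [MvPolynomial.eval_map, ← MvPolynomial.aeval_def]
    have hR0 : MvPolynomial.aeval q R = 0 := by
      rw [← hreal, ← heval, ← hRC, ← hid, map_mul, hvP, zero_mul]
    have hder : ∀ i : Fin 3, ∑ j, MvPolynomial.aeval q (MvPolynomial.pderiv j R) *
        MvPolynomial.eval u (MvPolynomial.pderiv i (gs j)) = 0 := by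
      intro i
      have h1 := Irb_chain (MvPolynomial.pderiv i : Derivation ℂ (MvPolynomial (Fin 3) ℂ)
        (MvPolynomial (Fin 3) ℂ)) gs RC
      rw [← hid, MvPolynomial.pderiv_mul] at h1
      have h2 := congrArg (MvPolynomial.eval u) h1
      rw [map_add, map_mul, map_mul, hvP, hvQ, mul_zero, zero_mul, add_zero, map_sum] at h2
      rw [h2]
      refine sum_congr rfl fun j _ => ?_
      rw [map_mul, heval, hRC, MvPolynomial.pderiv_map, hreal]
    have d0 : MvPolynomial.aeval q (MvPolynomial.pderiv 0 R) = 0 := by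
      have h1 := hder 0
      rw [Fin.sum_univ_three] at h1
      simpa [hgs, MvPolynomial.pderiv_pow] using h1
    have d1 : MvPolynomial.aeval q (MvPolynomial.pderiv 1 R) = 0 ∨ x = 0 := by
      have h1 := hder 1
      rw [Fin.sum_univ_three] at h1
      simpa [hgs, MvPolynomial.pderiv_pow, hu] using h1
    have d2 : MvPolynomial.aeval q (MvPolynomial.pderiv 2 R) = 0 ∨ y = 0 := by
      have h1 := hder 2
      rw [Fin.sum_univ_three] at h1
      simpa [hgs, MvPolynomial.pderiv_pow, hu] using h1
    -- scaling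
    have hsc : ∀ (F : TP) (m : ℕ), F.IsHomogeneous m → ∀ (c : ℂ) (p : Fin 3 → ℂ), c ≠ 0 →
        (fun i => c * p i) = q → MvPolynomial.aeval q F = 0 → MvPolynomial.aeval p F = 0 := by
      intro F m hF c p hc hp h0
      have h1 := Irb_smul (hF.map (algebraMap ℝ ℂ)) c p
      rw [hp, hreal, h0, MvPolynomial.eval_map, ← MvPolynomial.aeval_def] at h1
      exact (mul_eq_zero.mp h1.symm).resolve_left (pow_ne_zero _ hc)
    by_cases hx : x = 0
    · -- `x = 0`
      have hy : y ≠ 0 := fun h => hxy ⟨hx, h⟩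
      have hq' : (fun i => y ^ 2 * (![w ^ 2 / y ^ 2, ((0 : ℝ) : ℂ), ((1 : ℝ) : ℂ)] : Fin 3 → ℂ) i) = q := by
        ext i; fin_cases i
        · simp [hq]; field_simp
        · simp [hq, hx]
        · simp [hq]
      obtain ⟨f, hf, hf'⟩ := hG.hyp 0 1 le_rfl zero_le_one (Or.inr one_ne_zero)
      have hb : Function.Injective (fun i => b i ^ 2) := by
        apply Irb_inj b f hf
        intro k
        rw [← hG.rb]; exact (hf' k).2
      exact Irb_dbl b hb R 0 1 hG.rb (w ^ 2 / y ^ 2)
        (hsc R n hG.hom _ _ (pow_ne_zero 2 hy) hq' hR0)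
        (hsc _ (n - 1) hG.hom.pderiv _ _ (pow_ne_zero 2 hy) hq' d0)
    · by_cases hy : y = 0
      · have hq' : (fun i => x ^ 2 * (![w ^ 2 / x ^ 2, ((1 : ℝ) : ℂ), ((0 : ℝ) : ℂ)] : Fin 3 → ℂ) i) = q := by
          ext i; fin_cases i
          · simp [hq]; field_simp
          · simp [hq]
          · simp [hq, hy]
        obtain ⟨f, hf, hf'⟩ := hG.hyp 1 0 zero_le_one le_rfl (Or.inl one_ne_zero)
        have ha : Function.Injective (fun i => a i ^ 2) := by
          apply Irb_inj a f hf
          intro k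
          rw [← hG.ra]; exact (hf' k).2
        exact Irb_dbl a ha R 1 0 hG.ra (w ^ 2 / x ^ 2)
          (hsc R n hG.hom _ _ (pow_ne_zero 2 hx) hq' hR0)
          (hsc _ (n - 1) hG.hom.pderiv _ _ (pow_ne_zero 2 hx) hq' d0)
      · have hq0 : q ≠ 0 := by
          intro h
          have h1 := congrFun h 1
          simp [hq] at h1
          exact hx h1
        obtain ⟨i, hi⟩ := hG.smooth q hq0 hR0
        apply hi
        fin_cases i
        · exact d0
        · exact d1.resolve_right hx
        · exact d2.resolve_right hy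

end Pool.Agent.RSV
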