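import Pool.Agent.RSV.StJ

/-!
# RSV, module Jn: the sign rule in terms of arcs
-/

set_option autoImplicit false

namespace Pool.Agent.RSV

open MvPolynomial Filter Topology Set

/-- A continuous family of strictly increasing functions: the zero is a continuous function. -/
private theorem Jn_imp (g : ℝ × ℝ → ℝ) (hg : Continuous g) (s₀ t₀ δ : ℝ) (hδ : 0 < δ)
    (h0 : g (s₀, t₀) = 0)
    (hmono : ∀ s ∈ Icc (s₀ - δ) (s₀ + δ),
      StrictMonoOn (fun t => g (s, t)) (Icc (t₀ - δ) (t₀ + δ))) :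
    ∃ δ' : ℝ, 0 < δ' ∧ δ' ≤ δ ∧ ∃ φ : ℝ → ℝ, ContinuousOn φ (Icc (s₀ - δ') (s₀ + δ')) ∧
      ∀ s ∈ Icc (s₀ - δ') (s₀ + δ'), φ s ∈ Icc (t₀ - δ) (t₀ + δ) ∧ g (s, φ s) = 0 ∧
        ∀ t ∈ Icc (t₀ - δ) (t₀ + δ), g (s, t) = 0 → t = φ s := by
  have hs₀ : s₀ ∈ Icc (s₀ - δ) (s₀ + δ) := ⟨by linarith, by linarith⟩
  have ht₀ : t₀ ∈ Icc (t₀ - δ) (t₀ + δ) := ⟨by linarith, by linarith⟩
  have hta : t₀ - δ ∈ Icc (t₀ - δ) (t₀ + δ) := ⟨le_rfl, by linarith⟩
  have htb : t₀ + δ ∈ Icc (t₀ - δ) (t₀ + δ) := ⟨by linarith, le_rfl⟩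
  have h1 : g (s₀, t₀ - δ) < 0 := by
    have := hmono s₀ hs₀ hta ht₀ (by linarith)
    simpa [h0] using this
  have h2 : 0 < g (s₀, t₀ + δ) := by
    have := hmono s₀ hs₀ ht₀ htb (by linarith)
    simpa [h0] using this
  have hc : ∀ t : ℝ, Continuous fun s : ℝ => g (s, t) := fun t => by fun_prop
  have hev : ∀ᶠ s in 𝓝 s₀, g (s, t₀ - δ) < 0 ∧ 0 < g (s, t₀ + δ) :=
    (((hc (t₀ - δ)).tendsto s₀).eventually_lt_const h1).and
      (((hc (t₀ + δ)).tendsto s₀).eventually_const_lt h2)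
  obtain ⟨ε, hε, hball⟩ := Metric.eventually_nhds_iff.1 hev
  refine ⟨min δ (ε / 2), lt_min hδ (by linarith), min_le_left _ _, ?_⟩
  have hex : ∀ s, s ∈ Icc (s₀ - min δ (ε / 2)) (s₀ + min δ (ε / 2)) →
      s ∈ Icc (s₀ - δ) (s₀ + δ) ∧ g (s, t₀ - δ) < 0 ∧ 0 < g (s, t₀ + δ) := by
    intro s hs
    have ha := min_le_left δ (ε / 2)
    have hb := min_le_right δ (ε / 2)
    refine ⟨⟨by linarith [hs.1], by linarith [hs.2]⟩, ?_⟩
    refine hball ?_
    rw [Real.dist_eq, abs_lt]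
    constructor <;> linarith [hs.1, hs.2]
  have hroot : ∀ s, s ∈ Icc (s₀ - min δ (ε / 2)) (s₀ + min δ (ε / 2)) →
      ∃ t, t ∈ Icc (t₀ - δ) (t₀ + δ) ∧ g (s, t) = 0 := by
    intro s hs
    obtain ⟨_, h3, h4⟩ := hex s hs
    have hcs : ContinuousOn (fun t : ℝ => g (s, t)) (Icc (t₀ - δ) (t₀ + δ)) := by fun_prop
    obtain ⟨t, ht, hgt⟩ := intermediate_value_Icc (by linarith) hcs ⟨h3.le, h4.le⟩
    exact ⟨t, ht, hgt⟩
  choose! φ hφ using hroot
  refine ⟨φ, ?_, ?_⟩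
  · intro s₁ hs₁
    obtain ⟨hs₁', _, _⟩ := hex s₁ hs₁
    obtain ⟨hφ1, hφ2⟩ := hφ s₁ hs₁
    rw [ContinuousWithinAt, tendsto_order]
    constructor
    · intro b hb
      by_cases hb' : b < t₀ - δ
      · filter_upwards [self_mem_nhdsWithin] with s hs
        exact lt_of_lt_of_le hb' (hφ s hs).1.1
      · have hbI : b ∈ Icc (t₀ - δ) (t₀ + δ) := ⟨not_lt.1 hb', (hb.trans_le hφ1.2).le⟩
        have h5 : g (s₁, b) < 0 := by
          have := hmono s₁ hs₁' hbI hφ1 hb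
          simpa [hφ2] using this
        have h6 : ∀ᶠ s in 𝓝[Icc (s₀ - min δ (ε / 2)) (s₀ + min δ (ε / 2))] s₁, g (s, b) < 0 :=
          (((hc b).tendsto s₁).eventually_lt_const h5).filter_mono nhdsWithin_le_nhds
        filter_upwards [self_mem_nhdsWithin, h6] with s hs h7
        by_contra hcon
        have h8 := (hmono s (hex s hs).1).monotoneOn (hφ s hs).1 hbI (not_lt.1 hcon)
        simp only [(hφ s hs).2] at h8
        linarith
    · intro b hb
      by_cases hb' : t₀ + δ < b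
      · filter_upwards [self_mem_nhdsWithin] with s hs
        exact lt_of_le_of_lt (hφ s hs).1.2 hb'
      · have hbI : b ∈ Icc (t₀ - δ) (t₀ + δ) := ⟨(hφ1.1.trans_lt hb).le, not_lt.1 hb'⟩
        have h5 : 0 < g (s₁, b) := by
          have := hmono s₁ hs₁' hφ1 hbI hb
          simpa [hφ2] using this
        have h6 : ∀ᶠ s in 𝓝[Icc (s₀ - min δ (ε / 2)) (s₀ + min δ (ε / 2))] s₁, 0 < g (s, b) :=
          (((hc b).tendsto s₁).eventually_const_lt h5).filter_mono nhdsWithin_le_nhds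
        filter_upwards [self_mem_nhdsWithin, h6] with s hs h7
        by_contra hcon
        have h8 := (hmono s (hex s hs).1).monotoneOn hbI (hφ s hs).1 (not_lt.1 hcon)
        simp only [(hφ s hs).2] at h8
        linarith
  · intro s hs
    refine ⟨(hφ s hs).1, (hφ s hs).2, fun t ht hgt => ?_⟩
    refine (hmono s (hex s hs).1).injOn ht (hφ s hs).1 ?_
    simp only [hgt, (hφ s hs).2]

/-- The implicit function theorem in the plane, positive derivative. -/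
private theorem Jn_ift_pos (g g' : ℝ × ℝ → ℝ) (hg : Continuous g) (hg' : Continuous g')
    (hd : ∀ s t, HasDerivAt (fun t => g (s, t)) (g' (s, t)) t) (s₀ t₀ ε : ℝ) (hε : 0 < ε)
    (h0 : g (s₀, t₀) = 0) (h1 : 0 < g' (s₀, t₀)) :
    ∃ δ δ' : ℝ, 0 < δ' ∧ δ' ≤ δ ∧ δ ≤ ε ∧ ∃ φ : ℝ → ℝ,
      ContinuousOn φ (Icc (s₀ - δ') (s₀ + δ')) ∧
      ∀ s ∈ Icc (s₀ - δ') (s₀ + δ'), φ s ∈ Icc (t₀ - δ) (t₀ + δ) ∧ g (s, φ s) = 0 ∧
        ∀ t ∈ Icc (t₀ - δ) (t₀ + δ), g (s, t) = 0 → t = φ s := by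
  have hev : ∀ᶠ p in 𝓝 (s₀, t₀), 0 < g' p := (hg'.tendsto (s₀, t₀)).eventually_const_lt h1
  obtain ⟨r, hr, hball⟩ := Metric.eventually_nhds_iff.1 hev
  have hδ : 0 < min ε (r / 2) := lt_min hε (by linarith)
  obtain ⟨δ', h2, h3, h4⟩ := Jn_imp g hg s₀ t₀ (min ε (r / 2)) hδ h0 (by
    intro s hs
    have hb := min_le_right ε (r / 2)
    refine strictMonoOn_of_deriv_pos (convex_Icc _ _) (by fun_prop) ?_
    intro t ht
    rw [interior_Icc] at ht
    rw [(hd s t).deriv]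
    refine hball ?_
    rw [Prod.dist_eq, max_lt_iff, Real.dist_eq, Real.dist_eq, abs_lt, abs_lt]
    refine ⟨⟨?_, ?_⟩, ⟨?_, ?_⟩⟩ <;> linarith [hs.1, hs.2, ht.1, ht.2])
  exact ⟨min ε (r / 2), δ', h2, h3, min_le_left _ _, h4⟩

/-- The implicit function theorem in the plane. -/
private theorem Jn_ift (g g' : ℝ × ℝ → ℝ) (hg : Continuous g) (hg' : Continuous g')
    (hd : ∀ s t, HasDerivAt (fun t => g (s, t)) (g' (s, t)) t) (s₀ t₀ ε : ℝ) (hε : 0 < ε)
    (h0 : g (s₀, t₀) = 0) (h1 : g' (s₀, t₀) ≠ 0) :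
    ∃ δ δ' : ℝ, 0 < δ' ∧ δ' ≤ δ ∧ δ ≤ ε ∧ ∃ φ : ℝ → ℝ,
      ContinuousOn φ (Icc (s₀ - δ') (s₀ + δ')) ∧
      ∀ s ∈ Icc (s₀ - δ') (s₀ + δ'), φ s ∈ Icc (t₀ - δ) (t₀ + δ) ∧ g (s, φ s) = 0 ∧
        ∀ t ∈ Icc (t₀ - δ) (t₀ + δ), g (s, t) = 0 → t = φ s := by
  rcases lt_or_gt_of_ne h1 with h | h
  · obtain ⟨δ, δ', h2, h3, h4, φ, h5, h6⟩ := Jn_ift_pos (fun p => - g p) (fun p => - g' p)
      hg.neg hg'.neg (fun s t => (hd s t).neg) s₀ t₀ ε hε (by simp [h0]) (by simpa using h)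
    refine ⟨δ, δ', h2, h3, h4, φ, h5, fun s hs => ?_⟩
    obtain ⟨h7, h8, h9⟩ := h6 s hs
    exact ⟨h7, by simpa using h8, fun t ht h => h9 t ht (by simp [h])⟩
  · exact Jn_ift_pos g g' hg hg' hd s₀ t₀ ε hε h0 h

/-- Chain rule for polynomials. -/
private theorem Jn_chain (R : TP) (v : ℝ → Fin 3 → ℝ) (v' : Fin 3 → ℝ) (t : ℝ)
    (hv : ∀ i, HasDerivAt (fun s => v s i) (v' i) t) :
    HasDerivAt (fun s => eval (v s) R) (∑ i, eval (v t) (pderiv i R) * v' i) t := by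
  induction R using MvPolynomial.induction_on with
  | C r =>
    simp only [eval_C, pderiv_C, map_zero, zero_mul, Finset.sum_const_zero]
    exact hasDerivAt_const t r
  | add p q hp hq =>
    simp only [map_add, add_mul, Finset.sum_add_distrib]
    exact hp.add hq
  | mul_X p j hp =>
    have h := hp.mul (hv j)
    simp only [map_mul, eval_X]
    refine h.congr_deriv ?_
    have e : ∀ i, eval (v t) (pderiv i (p * X j)) * v' i =
        (eval (v t) (pderiv i p) * v' i) * v t j +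
          eval (v t) p * (if i = j then v' i else 0) := by
      intro i
      rw [pderiv_mul, map_add, map_mul, map_mul, eval_X, pderiv_X]
      by_cases hij : i = j
      · subst hij
        simp
        ring
      · rw [Pi.single_eq_of_ne (Ne.symm hij)]
        simp [hij]
        ring
    rw [Finset.sum_congr rfl fun i _ => e i, Finset.sum_add_distrib, ← Finset.sum_mul,
      ← Finset.mul_sum]
    simp

private theorem Jn_dx (R : TP) (x z : ℝ) :
    HasDerivAt (fun x => val R x 1 z) (val (pderiv 0 R) x 1 z) x := by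
  have h := Jn_chain R (fun s => ![s, 1, z]) ![1, 0, 0] x (by
    intro i
    fin_cases i
    · exact hasDerivAt_id x
    · exact hasDerivAt_const x (1 : ℝ)
    · exact hasDerivAt_const x z)
  simpa [Fin.sum_univ_three, val] using h

private theorem Jn_dz (R : TP) (x z : ℝ) :
    HasDerivAt (fun z => val R x 1 z) (val (pderiv 2 R) x 1 z) z := by
  have h := Jn_chain R (fun s => ![x, 1, s]) ![0, 0, 1] z (by
    intro i
    fin_cases i
    · exact hasDerivAt_const z x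
    · exact hasDerivAt_const z (1 : ℝ)
    · exact hasDerivAt_id z)
  simpa [Fin.sum_univ_three, val] using h

private theorem Jn_cont (R : TP) : Continuous fun p : ℝ × ℝ => val R p.1 1 p.2 := by
  unfold val
  refine (MvPolynomial.continuous_eval R).comp ?_
  refine continuous_pi fun i => ?_
  fin_cases i
  · exact continuous_fst
  · exact continuous_const
  · exact continuous_snd

private theorem Jn_cont' (R : TP) : Continuous fun p : ℝ × ℝ => val R p.2 1 p.1 :=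
  (Jn_cont R).comp continuous_swap

/-- At a real point of the curve one of the partial derivatives in `x` and `z` does not vanish. -/
private theorem Jn_grad {n : ℕ} {R : TP} (hR : R.IsHomogeneous n) (hS : Smooth R) (x z : ℝ)
    (h : val R x 1 z = 0) : val (pderiv 0 R) x 1 z ≠ 0 ∨ val (pderiv 2 R) x 1 z ≠ 0 := by
  by_contra hcon
  push Not at hcon
  obtain ⟨hx, hz⟩ := hcon
  have hE := congrArg (eval ![x, 1, z]) hR.sum_X_mul_pderiv
  have hy : val (pderiv 1 R) x 1 z = 0 := by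
    simp only [Fin.sum_univ_three, map_add, map_mul, eval_X, map_nsmul] at hE
    simp only [val] at h hx hz ⊢
    rw [h, hx, hz] at hE
    simpa using hE
  have hae : ∀ P : TP, aeval (fun i => ((![x, 1, z] i : ℝ) : ℂ)) P = ((val P x 1 z : ℝ) : ℂ) := by
    intro P
    have := MvPolynomial.aeval_algebraMap_apply (B := ℂ) ![x, 1, z] P
    have h2 : (aeval ![x, 1, z]) P = eval ![x, 1, z] P := by
      rw [← MvPolynomial.coe_aeval_eq_eval]
      rfl
    rw [h2] at this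
    exact this
  obtain ⟨i, hi⟩ := hS (fun i => ((![x, 1, z] i : ℝ) : ℂ)) (by
    intro h0
    have := congrFun h0 1
    simp at this) (by rw [hae, h, Complex.ofReal_zero])
  rw [hae] at hi
  fin_cases i
  · exact hi (by simpa using hx)
  · exact hi (by simpa using hy)
  · exact hi (by simpa using hz)

/-- The curve is locally path connected. -/
private theorem Jn_loc {n : ℕ} {R : TP} (hR : R.IsHomogeneous n) (hS : Smooth R)
    (h0 : ∀ x : ℝ, 0 < x → val R x 1 0 = 0 → val (pderiv 0 R) x 1 0 ≠ 0) (x₀ z₀ : ℝ)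
    (hx₀ : 0 < x₀) (hz₀ : z₀ ≤ 0) (hv : val R x₀ 1 z₀ = 0) :
    ∀ᶠ q in 𝓝 (x₀, z₀), q ∈ Gam R → JoinedIn (Gam R) (x₀, z₀) q := by
  by_cases hX : val (pderiv 0 R) x₀ 1 z₀ = 0
  · have hz : z₀ < 0 := by
      refine lt_of_le_of_ne hz₀ ?_
      rintro rfl
      exact h0 x₀ hx₀ hv hX
    have hZ : val (pderiv 2 R) x₀ 1 z₀ ≠ 0 := by
      rcases Jn_grad hR hS x₀ z₀ hv with h | h
      · exact absurd hX h
      · exact h
    obtain ⟨δ, δ', h1, h2, h3, φ, h4, h5⟩ := Jn_ift (fun p => val R p.1 1 p.2)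
      (fun p => val (pderiv 2 R) p.1 1 p.2) (Jn_cont R) (Jn_cont _) (fun s t => Jn_dz R s t)
      x₀ z₀ (min (x₀ / 2) (-z₀)) (lt_min (by linarith) (by linarith)) hv hZ
    have h6 := min_le_left (x₀ / 2) (-z₀)
    have h7 := min_le_right (x₀ / 2) (-z₀)
    have hpc : IsPathConnected ((fun s => (s, φ s)) '' Icc (x₀ - δ') (x₀ + δ')) :=
      ((convex_Icc _ _).isPathConnected ⟨x₀, by linarith, by linarith⟩).image'
        (continuousOn_id.prodMk h4)
    have hsub : (fun s => (s, φ s)) '' Icc (x₀ - δ') (x₀ + δ') ⊆ Gam R := by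
      rintro _ ⟨s, hs, rfl⟩
      obtain ⟨h8, h9, _⟩ := h5 s hs
      exact ⟨by show 0 < s; linarith [hs.1], by show φ s ≤ 0; linarith [h8.2], h9⟩
    have hmem : ∀ q : ℝ × ℝ, q.1 ∈ Icc (x₀ - δ') (x₀ + δ') → q.2 ∈ Icc (z₀ - δ) (z₀ + δ) →
        val R q.1 1 q.2 = 0 → q ∈ (fun s => (s, φ s)) '' Icc (x₀ - δ') (x₀ + δ') := by
      intro q hq1 hq2 hq
      refine ⟨q.1, hq1, ?_⟩
      have := (h5 q.1 hq1).2.2 q.2 hq2 hq
      exact Prod.ext rfl this.symm
    have hp := hmem (x₀, z₀) ⟨by simp; linarith, by simp; linarith⟩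
      ⟨by simp; linarith, by simp; linarith⟩ hv
    have hnb : ∀ᶠ q : ℝ × ℝ in 𝓝 (x₀, z₀), q.1 ∈ Icc (x₀ - δ') (x₀ + δ') ∧
        q.2 ∈ Icc (z₀ - δ) (z₀ + δ) := by
      have e1 : ∀ᶠ x in 𝓝 x₀, x ∈ Icc (x₀ - δ') (x₀ + δ') :=
        Icc_mem_nhds (by linarith) (by linarith)
      have e2 : ∀ᶠ z in 𝓝 z₀, z ∈ Icc (z₀ - δ) (z₀ + δ) :=
        Icc_mem_nhds (by linarith) (by linarith)
      rw [nhds_prod_eq]
      exact e1.prod_mk e2
    filter_upwards [hnb] with q hq hqG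
    exact (hpc.joinedIn _ hp _ (hmem q hq.1 hq.2 hqG.2.2)).mono hsub
  · obtain ⟨δ, δ', h1, h2, h3, φ, h4, h5⟩ := Jn_ift (fun p => val R p.2 1 p.1)
      (fun p => val (pderiv 0 R) p.2 1 p.1) (Jn_cont' R) (Jn_cont' _) (fun s t => Jn_dx R t s)
      z₀ x₀ (x₀ / 2) (by linarith) hv hX
    have hpc : IsPathConnected ((fun s => (φ s, s)) '' (Icc (z₀ - δ') (z₀ + δ') ∩ Iic 0)) :=
      (((convex_Icc _ _).inter (convex_Iic 0)).isPathConnected
        ⟨z₀, ⟨by linarith, by linarith⟩, hz₀⟩).image'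
        ((h4.mono inter_subset_left).prodMk continuousOn_id)
    have hsub : (fun s => (φ s, s)) '' (Icc (z₀ - δ') (z₀ + δ') ∩ Iic 0) ⊆ Gam R := by
      rintro _ ⟨s, hs, rfl⟩
      obtain ⟨h8, h9, _⟩ := h5 s hs.1
      exact ⟨by show 0 < φ s; linarith [h8.1], hs.2, h9⟩
    have hmem : ∀ q : ℝ × ℝ, q.2 ∈ Icc (z₀ - δ') (z₀ + δ') → q.1 ∈ Icc (x₀ - δ) (x₀ + δ) →
        q.2 ≤ 0 → val R q.1 1 q.2 = 0 →
        q ∈ (fun s => (φ s, s)) '' (Icc (z₀ - δ') (z₀ + δ') ∩ Iic 0) := by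
      intro q hq1 hq2 hq0 hq
      refine ⟨q.2, ⟨hq1, hq0⟩, ?_⟩
      have := (h5 q.2 hq1).2.2 q.1 hq2 hq
      exact Prod.ext this.symm rfl
    have hp := hmem (x₀, z₀) ⟨by simp; linarith, by simp; linarith⟩
      ⟨by simp; linarith, by simp; linarith⟩ hz₀ hv
    have hnb : ∀ᶠ q : ℝ × ℝ in 𝓝 (x₀, z₀), q.1 ∈ Icc (x₀ - δ) (x₀ + δ) ∧
        q.2 ∈ Icc (z₀ - δ') (z₀ + δ') := by
      have e1 : ∀ᶠ x in 𝓝 x₀, x ∈ Icc (x₀ - δ) (x₀ + δ) :=
        Icc_mem_nhds (by linarith) (by linarith)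
      have e2 : ∀ᶠ z in 𝓝 z₀, z ∈ Icc (z₀ - δ') (z₀ + δ') :=
        Icc_mem_nhds (by linarith) (by linarith)
      rw [nhds_prod_eq]
      exact e1.prod_mk e2
    filter_upwards [hnb] with q hq hqG
    exact (hpc.joinedIn _ hp _ (hmem q hq.2 hq.1 hqG.2.1 hqG.2.2)).mono hsub

theorem thm_Jn : St_Jn := by
  classical
  intro n R a hn hR hS h0 ha
  have hG : ∀ i, (a i ^ 2, (0 : ℝ)) ∈ Gam R := fun i =>
    ⟨by have := (ha i).2; positivity, le_rfl, (ha i).1⟩
  constructor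
  · rintro ⟨c, hc, hs⟩ i j ⟨γ, hγ⟩
    have hloc : IsLocallyConstant fun t => c (γ t).1 (γ t).2 := by
      rw [IsLocallyConstant.iff_eventually_eq]
      intro t
      have h1 := (hc (γ t).1 (γ t).2 (hγ t).1 (hγ t).2.1 (hγ t).2.2).2
      have h2 := (γ.continuous.tendsto t).eventually h1
      filter_upwards [h2] with s h3
      exact h3 (hγ s).1 (hγ s).2.1 (hγ s).2.2
    have h1 := hloc.apply_eq_of_preconnectedSpace 0 1
    simp only [γ.source, γ.target] at h1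
    have hi := hs i
    have hj := hs j
    rw [← h1] at hj
    rcases (hc (a i ^ 2) 0 (hG i).1 le_rfl (ha i).1).1 with h | h
    · rw [h] at hi hj
      rw [one_mul] at hi hj
      exact mul_pos hi hj
    · rw [h] at hi hj
      nlinarith
  · intro h
    have hne : ∀ i, a i * val (pderiv 0 R) (a i ^ 2) 1 0 ≠ 0 := fun i =>
      mul_ne_zero (ha i).2 (h0 _ (hG i).1 (ha i).1)
    refine ⟨fun x z => if ∃ i, JoinedIn (Gam R) (a i ^ 2, 0) (x, z) ∧
      a i * val (pderiv 0 R) (a i ^ 2) 1 0 < 0 then -1 else 1, ?_, ?_⟩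
    · intro x z hx hz hv
      refine ⟨?_, ?_⟩
      · simp only
        split_ifs
        · exact Or.inr rfl
        · exact Or.inl rfl
      · filter_upwards [Jn_loc hR hS h0 x z hx hz hv] with q hq h1 h2 h3
        have h4 := hq ⟨h1, h2, h3⟩
        have h5 : (∃ i, JoinedIn (Gam R) (a i ^ 2, 0) (q.1, q.2) ∧
            a i * val (pderiv 0 R) (a i ^ 2) 1 0 < 0) ↔
            ∃ i, JoinedIn (Gam R) (a i ^ 2, 0) (x, z) ∧
            a i * val (pderiv 0 R) (a i ^ 2) 1 0 < 0 := by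
          constructor
          · rintro ⟨i, h6, h7⟩
            exact ⟨i, h6.trans h4.symm, h7⟩
          · rintro ⟨i, h6, h7⟩
            exact ⟨i, h6.trans h4, h7⟩
        simp only [h5]
    · intro i
      simp only
      split_ifs with h1
      · obtain ⟨j, h2, h3⟩ := h1
        have h4 := h j i h2
        have h5 : a i * val (pderiv 0 R) (a i ^ 2) 1 0 < 0 := by
          by_contra h6
          rcases (not_lt.1 h6).lt_or_eq with h7 | h7
          · nlinarith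
          · exact hne i h7.symm
        linarith
      · rw [one_mul]
        by_contra h6
        refine h1 ⟨i, JoinedIn.refl (hG i), lt_of_le_of_ne (not_lt.1 h6) (hne i)⟩

end Pool.Agent.RSV
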