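import Pool.Agent.RSV.StC

/-!
# RSV, module Kap (helper69): the sign forms
-/

set_option autoImplicit false

namespace Pool.Agent.RSV

open MvPolynomial Filter Topology

/-! ### elementary facts on forms -/

private theorem Kap_scale {P : TP} {m : ℕ} (hP : P.IsHomogeneous m) (r : ℝ) (v : Fin 3 → ℝ) :
    eval (fun i => r * v i) P = r ^ m * eval v P := by
  rw [eval_eq', eval_eq', Finset.mul_sum]
  refine Finset.sum_congr rfl fun d hd => ?_
  have h1 := hP.degree_eq_sum_deg_support hd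
  have h2 : ∑ i ∈ d.support, d i = ∑ i, d i := by
    apply Finset.sum_subset (Finset.subset_univ _)
    intro i _ hi
    exact Finsupp.notMem_support_iff.1 hi
  have h3 : ∏ i, (r * v i) ^ d i = r ^ m * ∏ i, v i ^ d i := by
    simp only [mul_pow]
    rw [Finset.prod_mul_distrib, Finset.prod_pow_eq_pow_sum, ← h2, ← h1]
  rw [h3]
  ring

private theorem Kap_neg {P : TP} {m : ℕ} (hP : P.IsHomogeneous m) (v : Fin 3 → ℝ) :
    eval (-v) P = (-1) ^ m * eval v P := by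
  have h := Kap_scale hP (-1) v
  have h1 : (fun i => (-1 : ℝ) * v i) = -v := by
    funext i
    simp
  rw [h1] at h
  exact h

private theorem Kap_negE {P : TP} {m : ℕ} (hP : P.IsHomogeneous m) (hm : Even m)
    (v : Fin 3 → ℝ) : eval (-v) P = eval v P := by
  rw [Kap_neg hP, hm.neg_one_pow, one_mul]

private theorem Kap_swp (R : TP) (x y z : ℝ) : val (swp R) x y z = val R x z y := by
  unfold val swp
  rw [eval_rename]
  congr 1
  congr 1
  funext i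
  fin_cases i
  · show ![x, y, z] (Equiv.swap (1 : Fin 3) 2 0) = x
    rw [show Equiv.swap (1 : Fin 3) 2 0 = 0 by decide]
    rfl
  · show ![x, y, z] (Equiv.swap (1 : Fin 3) 2 1) = z
    rw [show Equiv.swap (1 : Fin 3) 2 1 = 2 by decide]
    rfl
  · show ![x, y, z] (Equiv.swap (1 : Fin 3) 2 2) = y
    rw [show Equiv.swap (1 : Fin 3) 2 2 = 1 by decide]
    rfl

/-- value at a vector given by its coordinates -/
private theorem Kap_val (R : TP) (v : Fin 3 → ℝ) : eval v R = val R (v 0) (v 1) (v 2) := by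
  unfold val
  congr 1
  congr 1
  funext i
  fin_cases i <;> rfl

private theorem Kap_vscale {P : TP} {m : ℕ} (hP : P.IsHomogeneous m) (r x y z : ℝ) :
    val P (r * x) (r * y) (r * z) = r ^ m * val P x y z := by
  have h := Kap_scale hP r ![x, y, z]
  have h1 : (fun i => r * ![x, y, z] i) = ![r * x, r * y, r * z] := by
    funext i
    fin_cases i <;> rfl
  rw [h1] at h
  exact h

/-- the chart polynomial in the first variable -/
private theorem Kap_deg {R : TP} {n : ℕ} (hR : R.IsHomogeneous n) (y z : ℝ) :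
    ∃ p : Polynomial ℝ, p.natDegree ≤ n ∧ ∀ t, p.eval t = val R t y z := by
  refine ⟨∑ d ∈ R.support, Polynomial.C (R.coeff d * (y ^ d 1 * z ^ d 2)) * Polynomial.X ^ d 0,
    ?_, ?_⟩
  · apply Polynomial.natDegree_sum_le_of_forall_le
    intro d hd
    refine (Polynomial.natDegree_C_mul_X_pow_le _ _).trans ?_
    have h1 := hR.degree_eq_sum_deg_support hd
    rw [h1]
    by_cases h0 : (0 : Fin 3) ∈ d.support
    · exact Finset.single_le_sum (f := fun i => d i) (fun i _ => Nat.zero_le _) h0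
    · rw [Finsupp.notMem_support_iff.1 h0]
      exact Nat.zero_le _
  · intro t
    unfold val
    rw [eval_eq', Polynomial.eval_finsetSum]
    refine Finset.sum_congr rfl fun d _ => ?_
    rw [Polynomial.eval_mul, Polynomial.eval_C, Polynomial.eval_pow, Polynomial.eval_X,
      Fin.prod_univ_three]
    show _ = R.coeff d * (t ^ d 0 * y ^ d 1 * z ^ d 2)
    ring

private theorem Kap_cont3 (R : TP) : Continuous fun q : ℝ × ℝ × ℝ => val R q.1 q.2.1 q.2.2 := by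
  have h : Continuous fun q : ℝ × ℝ × ℝ => (![q.1, q.2.1, q.2.2] : Fin 3 → ℝ) := by
    refine continuous_pi fun i => ?_
    fin_cases i
    · exact continuous_fst
    · exact continuous_fst.comp continuous_snd
    · exact continuous_snd.comp continuous_snd
  exact (MvPolynomial.continuous_eval R).comp h

/-- composition, with an abstract function of three variables -/
private theorem Kap_comp (F : ℝ → ℝ → ℝ → ℝ) (f g k : ℝ → ℝ) (hf : Continuous f)
    (hg : Continuous g) (hk : Continuous k)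
    (h : Continuous fun q : ℝ × ℝ × ℝ => F q.1 q.2.1 q.2.2) :
    Continuous fun u : ℝ => F (f u) (g u) (k u) := by
  have hg : Continuous fun u : ℝ => (f u, g u, k u) := by fun_prop
  exact h.comp hg

/-- `R (1, 0, 0) = 1` -/
private theorem Kap_one {n : ℕ} {R : TP} {a b s : Fin n → ℝ} (hG : Good R a b s) :
    val R 1 0 0 = 1 := by
  have hc : Continuous fun u : ℝ => val R 1 u 0 :=
    Kap_comp (val R) (fun _ => 1) (fun u => u) (fun _ => 0) (by fun_prop) (by fun_prop)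
      (by fun_prop) (Kap_cont3 R)
  have h1 : Tendsto (fun u : ℝ => val R 1 u 0) (𝓝[>] 0) (𝓝 (val R 1 0 0)) :=
    (hc.tendsto 0).mono_left nhdsWithin_le_nhds
  have hc2 : Continuous fun u : ℝ => ∏ i, (1 - u * a i ^ 2) := by
    refine continuous_finsetProd _ fun i _ => ?_
    exact continuous_const.sub (continuous_id.mul continuous_const)
  have h2 : Tendsto (fun u : ℝ => ∏ i, (1 - u * a i ^ 2)) (𝓝[>] 0)
      (𝓝 (∏ i : Fin n, (1 - 0 * a i ^ 2))) :=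
    (hc2.tendsto 0).mono_left nhdsWithin_le_nhds
  have h3 : ∏ i : Fin n, (1 - 0 * a i ^ 2) = 1 := by simp
  rw [h3] at h2
  have heq : (fun u : ℝ => ∏ i, (1 - u * a i ^ 2)) =ᶠ[𝓝[>] (0 : ℝ)]
      fun u : ℝ => val R 1 u 0 := by
    filter_upwards [self_mem_nhdsWithin] with u hu
    have hu' : (0 : ℝ) < u := hu
    have h4 := Kap_vscale hG.hom u u⁻¹ 1 0
    rw [mul_inv_cancel₀ hu'.ne', mul_one, mul_zero, hG.ra] at h4
    rw [h4]
    have h5 : u ^ n = ∏ _i : Fin n, u := by simp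
    rw [h5, ← Finset.prod_mul_distrib]
    apply Finset.prod_congr rfl
    intro i _
    field_simp
  exact tendsto_nhds_unique h1 (Tendsto.congr' heq h2)

/-- no zero with `x = 0`, `y, z ≥ 0` -/
private theorem Kap_ne {n : ℕ} {R : TP} {a b s : Fin n → ℝ} (hG : Good R a b s) {y z : ℝ}
    (hy : 0 ≤ y) (hz : 0 ≤ z) (h : y ≠ 0 ∨ z ≠ 0) : val R 0 y z ≠ 0 := by
  intro h0
  obtain ⟨f, hf, hf2⟩ := hG.hyp y z hy hz h
  obtain ⟨p, hp1, hp2⟩ := Kap_deg hG.hom y z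
  have hp : p = 0 := by
    refine Polynomial.eq_zero_of_natDegree_lt_card_of_eval_eq_zero' p
      (insert 0 (Finset.univ.image f)) ?_ ?_
    · intro t ht
      rw [hp2]
      rcases Finset.mem_insert.1 ht with h1 | h1
      · rw [h1]
        exact h0
      · obtain ⟨k, -, rfl⟩ := Finset.mem_image.1 h1
        exact (hf2 k).2
    · rw [Finset.card_insert_of_notMem, Finset.card_image_of_injective _ hf, Finset.card_univ,
        Fintype.card_fin]
      · omega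
      · intro h1
        obtain ⟨k, -, hk⟩ := Finset.mem_image.1 h1
        exact (hf2 k).1.ne' hk
  have hv : ∀ t, val R t y z = 0 := by
    intro t
    rw [← hp2, hp, Polynomial.eval_zero]
  have hc : Continuous fun u : ℝ => val R 1 (u * y) (u * z) :=
    Kap_comp (val R) (fun _ => 1) (fun u => u * y) (fun u => u * z) (by fun_prop) (by fun_prop)
      (by fun_prop) (Kap_cont3 R)
  have h1 : Tendsto (fun u : ℝ => val R 1 (u * y) (u * z)) (𝓝[>] 0)
      (𝓝 (val R 1 (0 * y) (0 * z))) :=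
    (hc.tendsto 0).mono_left nhdsWithin_le_nhds
  rw [zero_mul, zero_mul, Kap_one hG] at h1
  have heq : (fun u : ℝ => val R 1 (u * y) (u * z)) =ᶠ[𝓝[>] (0 : ℝ)]
      fun _ : ℝ => (0 : ℝ) := by
    filter_upwards [self_mem_nhdsWithin] with u hu
    have hu' : (0 : ℝ) < u := hu
    have h4 := Kap_vscale hG.hom u u⁻¹ y z
    rw [mul_inv_cancel₀ hu'.ne', hv, mul_zero] at h4
    exact h4
  have h2 : Tendsto (fun _ : ℝ => (0 : ℝ)) (𝓝[>] (0 : ℝ)) (𝓝 1) := Tendsto.congr' heq h1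
  exact zero_ne_one (tendsto_nhds_unique tendsto_const_nhds h2)

/-- at a zero with `x = 0` the other coordinates have opposite signs -/
private theorem Kap_opp {n : ℕ} {R : TP} {a b s : Fin n → ℝ} (hG : Good R a b s)
    {v : Fin 3 → ℝ} (h0 : v 0 = 0) (hv : v 1 ≠ 0 ∨ v 2 ≠ 0) (hR : eval v R = 0) :
    (0 < v 1 ∧ v 2 < 0) ∨ (v 1 < 0 ∧ 0 < v 2) := by
  have h1 : val R 0 (v 1) (v 2) = 0 := by
    have h := Kap_val R v
    rw [h0, hR] at h
    exact h.symm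
  have h2 : val R 0 (-v 1) (-v 2) = 0 := by
    have h := Kap_vscale hG.hom (-1) 0 (v 1) (v 2)
    rw [h1, mul_zero, mul_zero, neg_one_mul, neg_one_mul] at h
    exact h
  rcases lt_or_ge 0 (v 1) with h3 | h3
  · rcases lt_or_ge (v 2) 0 with h4 | h4
    · exact Or.inl ⟨h3, h4⟩
    · exact absurd h1 (Kap_ne hG h3.le h4 hv)
  · rcases lt_or_ge 0 (v 2) with h4 | h4
    · rcases h3.lt_or_eq with h5 | h5
      · exact Or.inr ⟨h5, h4⟩
      · exact absurd h1 (Kap_ne hG h5.symm.le h4.le hv)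
    · refine absurd h2 (Kap_ne hG (neg_nonneg.2 h3) (neg_nonneg.2 h4) ?_)
      rcases hv with h | h
      · exact Or.inl (neg_ne_zero.2 h)
      · exact Or.inr (neg_ne_zero.2 h)

/-! ### homogenization -/

private noncomputable def Kap_hz (q : Polynomial ℝ) (e : ℕ) : TP :=
  ∑ j ∈ Finset.range (e + 1), C (q.coeff j) * (X 1 ^ (e - j) * X 2 ^ j)

private theorem Kap_hz_hom (q : Polynomial ℝ) (e : ℕ) : (Kap_hz q e).IsHomogeneous e := by
  refine IsHomogeneous.sum _ _ _ fun j hj => ?_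
  have h := (isHomogeneous_C (Fin 3) (q.coeff j)).mul
    (((isHomogeneous_X ℝ (1 : Fin 3)).pow (e - j)).mul ((isHomogeneous_X ℝ (2 : Fin 3)).pow j))
  have hj' : j < e + 1 := Finset.mem_range.1 hj
  rw [show 0 + (1 * (e - j) + 1 * j) = e by omega] at h
  exact h

private theorem Kap_hz_val (q : Polynomial ℝ) (e : ℕ) (h : q.natDegree ≤ e) (x z : ℝ) :
    val (Kap_hz q e) x 1 z = q.eval z := by
  rw [Polynomial.eval_eq_sum_range' (Nat.lt_succ_of_le h)]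
  unfold val Kap_hz
  rw [map_sum]
  refine Finset.sum_congr rfl fun j _ => ?_
  rw [map_mul, map_mul, map_pow, map_pow, eval_C, eval_X, eval_X]
  show q.coeff j * (1 ^ (e - j) * z ^ j) = q.coeff j * z ^ j
  rw [one_pow, one_mul]

/-! ### the sets of admissible pairs -/

private theorem Kap_pos {u w p q : ℝ} (hu : 0 < u) (hw : 0 < w) (hp : 0 ≤ p) (hq : 0 ≤ q)
    (hpq : p + q = 1) : 0 < p * u + q * w := by
  rcases hp.eq_or_lt with h | h
  · have : q = 1 := by linarith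
    rw [← h, this]
    linarith
  · have h1 := mul_pos h hu
    have h2 := mul_nonneg hq hw.le
    linarith

private theorem Kap_cl {s t g a b a' b' p q : ℝ} (hs : 0 ≤ s) (h : s * |b| < t * (g * a))
    (h' : s * |b'| < t * (g * a')) (hp : 0 ≤ p) (hq : 0 ≤ q) (hpq : p + q = 1) :
    s * |p * b + q * b'| < t * (g * (p * a + q * a')) := by
  have h1 : |p * b + q * b'| ≤ p * |b| + q * |b'| := by
    refine (abs_add_le _ _).trans ?_
    rw [abs_mul, abs_mul, abs_of_nonneg hp, abs_of_nonneg hq]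
  have h2 := mul_le_mul_of_nonneg_left h1 hs
  have h3 := Kap_pos (sub_pos.2 h) (sub_pos.2 h') hp hq hpq
  have h4 : p * (t * (g * a) - s * |b|) + q * (t * (g * a') - s * |b'|) =
      t * (g * (p * a + q * a')) - s * (p * |b| + q * |b'|) := by ring
  rw [h4] at h3
  linarith

private theorem Kap_conv (R α β : TP) (c S : ℝ → ℝ → ℝ) (v : Fin 3 → ℝ) :
    Convex ℝ (Adm R α β c S v) := by
  rintro k ⟨a1, a2, a3, a4⟩ k' ⟨b1, b2, b3, b4⟩ p q hp hq hpq
  refine ⟨fun h1 h2 => ?_, fun h1 h2 => ?_, fun h1 h2 => ?_, fun h1 h2 => ?_⟩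
  · have h := Kap_pos (a1 h1 h2) (b1 h1 h2) hp hq hpq
    show 0 < eval v (pderiv 0 R) * (v 1 * eval v α * (p * k.1 + q * k'.1) +
      v 2 * eval v β * (p * k.2 + q * k'.2))
    refine h.trans_eq ?_
    ring
  · have h := Kap_pos (a2 h1 h2) (b2 h1 h2) hp hq hpq
    show 0 < eval (-v) (pderiv 0 R) * (-v 1 * eval (-v) α * (p * k.1 + q * k'.1) +
      -v 2 * eval (-v) β * (p * k.2 + q * k'.2))
    refine h.trans_eq ?_
    ring
  · exact Kap_cl (Real.sqrt_nonneg _) (a3 h1 h2) (b3 h1 h2) hp hq hpq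
  · exact Kap_cl (Real.sqrt_nonneg _) (a4 h1 h2) (b4 h1 h2) hp hq hpq

private theorem Kap_adm_neg {R α β : TP} {c S : ℝ → ℝ → ℝ} {v : Fin 3 → ℝ} {k : ℝ × ℝ}
    (h : k ∈ Adm R α β c S v) : k ∈ Adm R α β c S (-v) := by
  obtain ⟨a1, a2, a3, a4⟩ := h
  refine ⟨fun h1 h2 => ?_, fun h1 h2 => ?_, fun h1 h2 => ?_, fun h1 h2 => ?_⟩
  · exact a2 (neg_nonneg.1 h1) (neg_nonneg.1 h2)
  · have e1 : -(-v) 1 = v 1 := neg_neg _
    have e2 : -(-v) 2 = v 2 := neg_neg _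
    rw [neg_neg, e1, e2]
    exact a1 (by rw [← e1]; exact neg_nonneg.2 h1) (by rw [← e2]; exact neg_nonneg.2 h2)
  · simp only [Pi.neg_apply, abs_neg, neg_div_neg_eq, neg_mul_neg] at h1 h2 ⊢
    exact a3 h1 h2
  · simp only [Pi.neg_apply, abs_neg, neg_div_neg_eq, neg_mul_neg] at h1 h2 ⊢
    exact a4 h1 h2

private theorem Kap_adm_scale {R α β : TP} {n d : ℕ} (hR : R.IsHomogeneous n)
    (hα : α.IsHomogeneous d) (hβ : β.IsHomogeneous d) {c S : ℝ → ℝ → ℝ} {v : Fin 3 → ℝ}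
    {k : ℝ × ℝ} (h : k ∈ Adm R α β c S v) {r : ℝ} (hr : 0 < r) (e : ℕ) :
    (r ^ e * k.1, r ^ e * k.2) ∈ Adm R α β c S (fun i => r * v i) := by
  obtain ⟨a1, a2, a3, a4⟩ := h
  have hD : (pderiv 0 R).IsHomogeneous (n - 1) := hR.pderiv
  have hneg : -(fun i => r * v i) = fun i => r * (-v) i := by
    funext i
    show -(r * v i) = r * -v i
    ring
  have hsq : ∀ t : ℝ, √|r * t| = √r * √|t| := by
    intro t
    rw [abs_mul, abs_of_pos hr, Real.sqrt_mul hr.le]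
  have hpos : 0 < r ^ (n - 1) * (r * r ^ d * r ^ e) := by positivity
  have hpos2 : 0 < √r * r ^ e := mul_pos (Real.sqrt_pos.2 hr) (pow_pos hr e)
  have hre : |r ^ e| = r ^ e := abs_of_pos (pow_pos hr e)
  refine ⟨fun h1 h2 => ?_, fun h1 h2 => ?_, fun h1 h2 => ?_, fun h1 h2 => ?_⟩
  · have g1 := a1 ((mul_nonneg_iff_of_pos_left hr).1 h1) ((mul_nonneg_iff_of_pos_left hr).1 h2)
    rw [Kap_scale hD, Kap_scale hα, Kap_scale hβ]
    refine (mul_pos hpos g1).trans_eq ?_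
    ring
  · have l1 : v 1 ≤ 0 := by
      by_contra hcon
      exact absurd (mul_pos hr (not_le.1 hcon)) (not_lt.2 h1)
    have l2 : v 2 ≤ 0 := by
      by_contra hcon
      exact absurd (mul_pos hr (not_le.1 hcon)) (not_lt.2 h2)
    have g1 := a2 l1 l2
    rw [hneg, Kap_scale hD, Kap_scale hα, Kap_scale hβ]
    refine (mul_pos hpos g1).trans_eq ?_
    ring
  · have l1 : 0 < v 0 * v 1 := by
      have : 0 < (r * r) * (v 0 * v 1) := by
        refine h1.trans_eq ?_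
        ring
      exact (mul_pos_iff_of_pos_left (mul_pos hr hr)).1 this
    have l2 : v 1 * v 2 < 0 := by
      by_contra hcon
      have : 0 ≤ (r * r) * (v 1 * v 2) := mul_nonneg (mul_pos hr hr).le (not_lt.1 hcon)
      have h3 : r * v 1 * (r * v 2) = (r * r) * (v 1 * v 2) := by ring
      have h4 : r * v 1 * (r * v 2) < 0 := h2
      rw [h3] at h4
      exact absurd this (not_le.2 h4)
    have g1 := a3 l1 l2
    show √|r * v 2| * |r ^ e * k.2| <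
      √|r * v 1| * (c (r * v 0 / (r * v 1)) (r * v 2 / (r * v 1)) * (r ^ e * k.1))
    rw [hsq, hsq, mul_div_mul_left _ _ hr.ne', mul_div_mul_left _ _ hr.ne', abs_mul, hre]
    have g2 := mul_lt_mul_of_pos_left g1 hpos2
    refine lt_of_le_of_lt (le_of_eq ?_) (g2.trans_eq ?_) <;> ring
  · have l1 : 0 < v 0 * v 2 := by
      have : 0 < (r * r) * (v 0 * v 2) := by
        refine h1.trans_eq ?_
        ring
      exact (mul_pos_iff_of_pos_left (mul_pos hr hr)).1 this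
    have l2 : v 1 * v 2 < 0 := by
      by_contra hcon
      have : 0 ≤ (r * r) * (v 1 * v 2) := mul_nonneg (mul_pos hr hr).le (not_lt.1 hcon)
      have h3 : r * v 1 * (r * v 2) = (r * r) * (v 1 * v 2) := by ring
      have h4 : r * v 1 * (r * v 2) < 0 := h2
      rw [h3] at h4
      exact absurd this (not_le.2 h4)
    have g1 := a4 l1 l2
    show √|r * v 1| * |r ^ e * k.1| <
      √|r * v 2| * (S (r * v 0 / (r * v 2)) (r * v 1 / (r * v 2)) * (r ^ e * k.2))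
    rw [hsq, hsq, mul_div_mul_left _ _ hr.ne', mul_div_mul_left _ _ hr.ne', abs_mul, hre]
    have g2 := mul_lt_mul_of_pos_left g1 hpos2
    refine lt_of_le_of_lt (le_of_eq ?_) (g2.trans_eq ?_) <;> ring

/-! ### the local condition -/

/-- the pairs `k` for which `κ⁰ (v) + x k` is admissible -/
private def Kap_T (R α β : TP) (c S : ℝ → ℝ → ℝ) (F G : (Fin 3 → ℝ) → ℝ) (v : Fin 3 → ℝ) :
    Set (ℝ × ℝ) := {k | (F v + v 0 * k.1, G v + v 0 * k.2) ∈ Adm R α β c S v}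

private theorem Kap_T_conv (R α β : TP) (c S : ℝ → ℝ → ℝ) (F G : (Fin 3 → ℝ) → ℝ)
    (v : Fin 3 → ℝ) : Convex ℝ (Kap_T R α β c S F G v) := by
  intro k hk k' hk' p q hp hq hpq
  have h := Kap_conv R α β c S v hk hk' hp hq hpq
  have e : (F v + v 0 * (p • k + q • k').1, G v + v 0 * (p • k + q • k').2) =
      p • (F v + v 0 * k.1, G v + v 0 * k.2) + q • (F v + v 0 * k'.1, G v + v 0 * k'.2) := by
    have hq' : q = 1 - p := by linarith
    subst hq'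
    apply Prod.ext
    · show F v + v 0 * (p * k.1 + (1 - p) * k'.1) =
        p * (F v + v 0 * k.1) + (1 - p) * (F v + v 0 * k'.1)
      ring
    · show G v + v 0 * (p * k.2 + (1 - p) * k'.2) =
        p * (G v + v 0 * k.2) + (1 - p) * (G v + v 0 * k'.2)
      ring
  show (F v + v 0 * (p • k + q • k').1, G v + v 0 * (p • k + q • k').2) ∈ Adm R α β c S v
  rw [e]
  exact h

private theorem Kap_T_neg {R α β : TP} {c S : ℝ → ℝ → ℝ} {F G : (Fin 3 → ℝ) → ℝ}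
    (hF : ∀ v, F (-v) = F v) (hG : ∀ v, G (-v) = G v) {v : Fin 3 → ℝ} {k : ℝ × ℝ}
    (hk : k ∈ Kap_T R α β c S F G v) : -k ∈ Kap_T R α β c S F G (-v) := by
  have h := Kap_adm_neg hk
  have e : (F (-v) + (-v) 0 * (-k).1, G (-v) + (-v) 0 * (-k).2) =
      (F v + v 0 * k.1, G v + v 0 * k.2) := by
    rw [hF, hG]
    apply Prod.ext
    · show F v + -v 0 * -k.1 = F v + v 0 * k.1
      ring
    · show G v + -v 0 * -k.2 = G v + v 0 * k.2
      ring
  show (F (-v) + (-v) 0 * (-k).1, G (-v) + (-v) 0 * (-k).2) ∈ Adm R α β c S (-v)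
  rw [e]
  exact h

private theorem Kap_near (F G : (Fin 3 → ℝ) → ℝ) (hF : Continuous F) (hG : Continuous G)
    (v₀ : Fin 3 → ℝ) (hx : v₀ 0 ≠ 0) (k : ℝ × ℝ) (ε : ℝ) (hε : 0 < ε) :
    ∃ (k₁ : ℝ × ℝ) (ε₁ : ℝ), 0 < ε₁ ∧ ∀ᶠ v in 𝓝 v₀, ∀ k' : ℝ × ℝ, dist k' k₁ < ε₁ →
      dist (F v + v 0 * k'.1, G v + v 0 * k'.2) k < ε := by
  let k₁ : ℝ × ℝ := ((k.1 - F v₀) / v₀ 0, (k.2 - G v₀) / v₀ 0)
  let Φ : (Fin 3 → ℝ) × (ℝ × ℝ) → ℝ × ℝ := fun p =>
    (F p.1 + p.1 0 * p.2.1, G p.1 + p.1 0 * p.2.2)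
  have hc0 : Continuous fun p : (Fin 3 → ℝ) × (ℝ × ℝ) => p.1 0 :=
    (continuous_apply 0).comp continuous_fst
  have hc1 : Continuous fun p : (Fin 3 → ℝ) × (ℝ × ℝ) => F p.1 := hF.comp continuous_fst
  have hc2 : Continuous fun p : (Fin 3 → ℝ) × (ℝ × ℝ) => G p.1 := hG.comp continuous_fst
  have hc3 : Continuous fun p : (Fin 3 → ℝ) × (ℝ × ℝ) => p.2.1 :=
    continuous_fst.comp continuous_snd
  have hc4 : Continuous fun p : (Fin 3 → ℝ) × (ℝ × ℝ) => p.2.2 :=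
    continuous_snd.comp continuous_snd
  have hΦ : Continuous Φ := (hc1.add (hc0.mul hc3)).prodMk (hc2.add (hc0.mul hc4))
  have hv : Φ (v₀, k₁) = k := by
    apply Prod.ext
    · show F v₀ + v₀ 0 * ((k.1 - F v₀) / v₀ 0) = k.1
      rw [mul_div_cancel₀ _ hx]
      ring
    · show G v₀ + v₀ 0 * ((k.2 - G v₀) / v₀ 0) = k.2
      rw [mul_div_cancel₀ _ hx]
      ring
  have h1 : ∀ᶠ p in 𝓝 (v₀, k₁), dist (Φ p) k < ε := by
    have h2 := (hΦ.tendsto (v₀, k₁)).eventually (Metric.ball_mem_nhds (Φ (v₀, k₁)) hε)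
    rw [hv] at h2
    exact h2
  rw [nhds_prod_eq, Filter.eventually_prod_iff] at h1
  obtain ⟨pa, hpa, pb, hpb, h3⟩ := h1
  obtain ⟨ε₁, hε₁, h4⟩ := Metric.eventually_nhds_iff.1 hpb
  refine ⟨k₁, ε₁, hε₁, ?_⟩
  filter_upwards [hpa] with v hv k' hk'
  exact h3 hv (h4 hk')

/-- a neighbourhood from an eventual statement -/
private theorem Kap_nbhd {K : Set (Fin 3 → ℝ)} {T : (Fin 3 → ℝ) → Set (ℝ × ℝ)}
    {v : Fin 3 → ℝ} {k : ℝ × ℝ} {ε : ℝ} (hε : 0 < ε)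
    (h : ∀ᶠ v' in 𝓝 v, v' ∈ K → ∀ k' : ℝ × ℝ, dist k' k < ε → k' ∈ T v') :
    ∃ (U : Set (Fin 3 → ℝ)) (k : ℝ × ℝ) (ε : ℝ), IsOpen U ∧ v ∈ U ∧ 0 < ε ∧
    ∀ v' ∈ U ∩ K, ∀ k' : ℝ × ℝ, dist k' k < ε → k' ∈ T v' := by
  obtain ⟨U, hU1, hU2, hU3⟩ := eventually_nhds_iff.1 h
  exact ⟨U, k, ε, hU2, hU3, hε, fun v' hv' => hU1 v' hv'.1 hv'.2⟩

/-! ### the compact curve -/

private def Kap_K (R : TP) : Set (Fin 3 → ℝ) :=
  {v | v 0 ^ 2 + v 1 ^ 2 + v 2 ^ 2 = 1 ∧ eval v R = 0}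

private theorem Kap_K_compact (R : TP) : IsCompact (Kap_K R) := by
  refine Metric.isCompact_of_isClosed_isBounded ?_ ?_
  · have c1 : Continuous fun v : Fin 3 → ℝ => v 0 ^ 2 + v 1 ^ 2 + v 2 ^ 2 :=
      (((continuous_apply 0).pow 2).add ((continuous_apply 1).pow 2)).add
        ((continuous_apply 2).pow 2)
    exact (isClosed_eq c1 continuous_const).inter
      (isClosed_eq (MvPolynomial.continuous_eval R) continuous_const)
  · refine (Metric.isBounded_closedBall (x := (0 : Fin 3 → ℝ)) (r := 1)).subset ?_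
    rintro v ⟨hv, -⟩
    rw [mem_closedBall_zero_iff, pi_norm_le_iff_of_nonneg zero_le_one]
    intro i
    rw [Real.norm_eq_abs, abs_le_one_iff_mul_self_le_one]
    have h0 := sq_nonneg (v 0)
    have h1 := sq_nonneg (v 1)
    have h2 := sq_nonneg (v 2)
    fin_cases i
    · show v 0 * v 0 ≤ 1
      nlinarith
    · show v 1 * v 1 ≤ 1
      nlinarith
    · show v 2 * v 2 ≤ 1
      nlinarith

private theorem Kap_K_neg {R : TP} {n : ℕ} (hR : R.IsHomogeneous n) {v : Fin 3 → ℝ}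
    (hv : v ∈ Kap_K R) : -v ∈ Kap_K R := by
  refine ⟨?_, ?_⟩
  · show (-v 0) ^ 2 + (-v 1) ^ 2 + (-v 2) ^ 2 = 1
    rw [neg_sq, neg_sq, neg_sq]
    exact hv.1
  · rw [Kap_neg hR, hv.2, mul_zero]

/-- from the compact curve to all real points of the curve -/
private theorem Kap_all {R α β κ₁ κ₂ : TP} {n d e : ℕ} (hR : R.IsHomogeneous n)
    (hα : α.IsHomogeneous d) (hβ : β.IsHomogeneous d) (h₁ : κ₁.IsHomogeneous e)
    (h₂ : κ₂.IsHomogeneous e) {c S : ℝ → ℝ → ℝ}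
    (hK : ∀ v ∈ Kap_K R, (eval v κ₁, eval v κ₂) ∈ Adm R α β c S v) {w : Fin 3 → ℝ}
    (hw : w 0 ≠ 0 ∨ w 1 ≠ 0 ∨ w 2 ≠ 0) (hw2 : eval w R = 0) :
    (eval w κ₁, eval w κ₂) ∈ Adm R α β c S w := by
  have hs : 0 < w 0 ^ 2 + w 1 ^ 2 + w 2 ^ 2 := by
    rcases hw with h | h | h
    · have := sq_nonneg (w 1); have := sq_nonneg (w 2)
      have := lt_of_le_of_ne (sq_nonneg (w 0)) (pow_ne_zero 2 h).symm
      linarith
    · have := sq_nonneg (w 0); have := sq_nonneg (w 2)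
      have := lt_of_le_of_ne (sq_nonneg (w 1)) (pow_ne_zero 2 h).symm
      linarith
    · have := sq_nonneg (w 0); have := sq_nonneg (w 1)
      have := lt_of_le_of_ne (sq_nonneg (w 2)) (pow_ne_zero 2 h).symm
      linarith
  obtain ⟨r, hr, hr2⟩ : ∃ r : ℝ, 0 < r ∧ r ^ 2 = w 0 ^ 2 + w 1 ^ 2 + w 2 ^ 2 :=
    ⟨√(w 0 ^ 2 + w 1 ^ 2 + w 2 ^ 2), Real.sqrt_pos.2 hs, Real.sq_sqrt hs.le⟩
  obtain ⟨v, hv⟩ : ∃ v : Fin 3 → ℝ, v = fun i => r⁻¹ * w i := ⟨_, rfl⟩
  have hwv : (fun i => r * v i) = w := by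
    funext i
    rw [hv]
    show r * (r⁻¹ * w i) = w i
    rw [← mul_assoc, mul_inv_cancel₀ hr.ne', one_mul]
  have hvK : v ∈ Kap_K R := by
    refine ⟨?_, ?_⟩
    · rw [hv]
      show (r⁻¹ * w 0) ^ 2 + (r⁻¹ * w 1) ^ 2 + (r⁻¹ * w 2) ^ 2 = 1
      rw [mul_pow, mul_pow, mul_pow, ← mul_add, ← mul_add, ← hr2, ← mul_pow,
        inv_mul_cancel₀ hr.ne', one_pow]
    · rw [hv, Kap_scale hR, hw2, mul_zero]
  have h := Kap_adm_scale hR hα hβ (hK v hvK) hr e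
  rw [hwv] at h
  have e1 : eval w κ₁ = r ^ e * eval v κ₁ := by rw [← hwv, Kap_scale h₁]
  have e2 : eval w κ₂ = r ^ e * eval v κ₂ := by rw [← hwv, Kap_scale h₂]
  rw [e1, e2]
  exact h

theorem thm_Kap : St_Nn → St_LcA → St_LcN → St_Sel → St_Kap := by
  intro hNn hLcA hLcN hSel n R a b s hn hG d α β ζ hNF e₀
  obtain ⟨c, hc, hc2⟩ := hG.ca
  obtain ⟨c', hc', hc'2⟩ := hG.cb
  -- the zeros of `R (0, 1, z)`
  have hneg : ∀ z : ℝ, val R 0 1 z = 0 → z < 0 := by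
    intro z hz
    by_contra hcon
    exact Kap_ne hG zero_le_one (not_lt.1 hcon) (Or.inl one_ne_zero) hz
  have hN : ∀ z₀ : ℝ, ∃ sA sB δ C : ℝ, val R 0 1 z₀ = 0 →
      (sA = 1 ∨ sA = -1) ∧ (sB = 1 ∨ sB = -1) ∧ 0 < δ ∧ ∀ x z : ℝ, |x| < δ →
      |z - z₀| < δ → val R x 1 z = 0 →
      |z - z₀| ≤ C * |x| ∧ (0 < x → c x z = sA) ∧ (x < 0 → c' (x / z) (1 / z) = sB) := by
    intro z₀
    by_cases h : val R 0 1 z₀ = 0
    · obtain ⟨sA, sB, δ, C, h'⟩ := hNn n R a b s hn hG c c' hc hc' z₀ (hneg z₀ h) h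
      exact ⟨sA, sB, δ, C, fun _ => h'⟩
    · exact ⟨0, 0, 0, 0, fun h' => absurd h' h⟩
  choose sA sB δ C hN using hN
  -- the finite set of the zeros
  obtain ⟨Z, hZ⟩ : ∃ Z : Finset ℝ, ∀ z, val R 0 1 z = 0 → z ∈ Z := by
    obtain ⟨p, -, hp⟩ := Kap_deg (R := rename (Equiv.swap (0 : Fin 3) 2) R)
      (IsHomogeneous.rename_isHomogeneous hG.hom) 1 0
    have hpv : ∀ z, p.eval z = val R 0 1 z := by
      intro z
      rw [hp]
      unfold val
      rw [eval_rename]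
      congr 1
      congr 1
      funext i
      fin_cases i
      · show ![z, 1, 0] (Equiv.swap (0 : Fin 3) 2 0) = 0
        rw [show Equiv.swap (0 : Fin 3) 2 0 = 2 by decide]
        rfl
      · show ![z, 1, 0] (Equiv.swap (0 : Fin 3) 2 1) = 1
        rw [show Equiv.swap (0 : Fin 3) 2 1 = 1 by decide]
        rfl
      · show ![z, 1, 0] (Equiv.swap (0 : Fin 3) 2 2) = z
        rw [show Equiv.swap (0 : Fin 3) 2 2 = 0 by decide]
        rfl
    have hp0 : p ≠ 0 := by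
      intro h
      have h1 := hpv 0
      rw [h, Polynomial.eval_zero] at h1
      exact Kap_ne hG zero_le_one le_rfl (Or.inl one_ne_zero) h1.symm
    refine ⟨p.roots.toFinset, fun z hz => ?_⟩
    rw [Multiset.mem_toFinset, Polynomial.mem_roots hp0]
    show p.eval z = 0
    rw [hpv, hz]
  -- interpolation
  obtain ⟨q₁, hq₁⟩ : ∃ q₁ : Polynomial ℝ, ∀ z ∈ Z, q₁.eval z = sA z * √(-z) :=
    ⟨Lagrange.interpolate Z id fun z => sA z * √(-z), fun z hz =>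
      Lagrange.eval_interpolate_at_node _ (Function.injective_id.injOn) hz⟩
  obtain ⟨q₂, hq₂⟩ : ∃ q₂ : Polynomial ℝ, ∀ z ∈ Z, q₂.eval z = (-1) ^ n * sB z :=
    ⟨Lagrange.interpolate Z id fun z => (-1) ^ n * sB z, fun z hz =>
      Lagrange.eval_interpolate_at_node _ (Function.injective_id.injOn) hz⟩
  obtain ⟨m, hm₁, hm₂⟩ : ∃ m : ℕ, q₁.natDegree ≤ 2 * m ∧ q₂.natDegree ≤ 2 * m :=
    ⟨q₁.natDegree + q₂.natDegree, by omega, by omega⟩
  obtain ⟨F₁, hF₁⟩ : ∃ F₁ : TP, F₁ = Kap_hz q₁ (2 * m) := ⟨_, rfl⟩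
  obtain ⟨F₂, hF₂⟩ : ∃ F₂ : TP, F₂ = Kap_hz q₂ (2 * m) := ⟨_, rfl⟩
  have hF₁h : F₁.IsHomogeneous (2 * m) := hF₁ ▸ Kap_hz_hom q₁ (2 * m)
  have hF₂h : F₂.IsHomogeneous (2 * m) := hF₂ ▸ Kap_hz_hom q₂ (2 * m)
  have hev : Even (2 * m) := even_two_mul m
  have hE₁ : ∀ v : Fin 3 → ℝ, eval (-v) F₁ = eval v F₁ := fun v => Kap_negE hF₁h hev v
  have hE₂ : ∀ v : Fin 3 → ℝ, eval (-v) F₂ = eval v F₂ := fun v => Kap_negE hF₂h hev v
  obtain ⟨S', hS'⟩ : ∃ S' : ℝ → ℝ → ℝ, S' = fun x y => (-1) ^ n * c' x y := ⟨_, rfl⟩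
  let T : (Fin 3 → ℝ) → Set (ℝ × ℝ) :=
    Kap_T R α β c S' (fun v => eval v F₁) (fun v => eval v F₂)
  have hTneg : ∀ (v : Fin 3 → ℝ) (k : ℝ × ℝ), k ∈ T v → -k ∈ T (-v) :=
    fun v k hk => Kap_T_neg hE₁ hE₂ hk
  -- near a point with `x = 0`, `y > 0 > z`
  have hloc0 : ∀ v : Fin 3 → ℝ, v 0 = 0 → 0 < v 1 → v 2 < 0 → eval v R = 0 →
      ∃ (k : ℝ × ℝ) (ε : ℝ), 0 < ε ∧ ∀ᶠ v' in 𝓝 v, eval v' R = 0 →
        ∀ k' : ℝ × ℝ, dist k' k < ε → k' ∈ T v' := by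
    intro v h0 h1 h2 hR
    have hz : val R 0 1 (v 2 / v 1) = 0 := by
      have h3 := Kap_vscale hG.hom (v 1) 0 1 (v 2 / v 1)
      rw [mul_zero, mul_one, mul_div_cancel₀ _ h1.ne'] at h3
      have h4 := Kap_val R v
      rw [h0, hR, h3] at h4
      exact (mul_eq_zero.1 h4.symm).resolve_left (pow_ne_zero n h1.ne')
    obtain ⟨g1, g2, g3, g4⟩ := hN (v 2 / v 1) hz
    have i1 : val F₁ 0 1 (v 2 / v 1) = sA (v 2 / v 1) * √(-(v 2 / v 1)) := by
      rw [hF₁, Kap_hz_val _ _ hm₁]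
      exact hq₁ _ (hZ _ hz)
    have i2 : val F₂ 0 1 (v 2 / v 1) = (-1) ^ n * sB (v 2 / v 1) := by
      rw [hF₂, Kap_hz_val _ _ hm₂]
      exact hq₂ _ (hZ _ hz)
    have h5 := hLcN n R c c' α β (2 * m) F₁ F₂ v (sA (v 2 / v 1)) (sB (v 2 / v 1))
      (δ (v 2 / v 1)) (C (v 2 / v 1)) hG.hom hev hF₁h hF₂h h0 h1 h2 g1 g2 g3 g4 i1 i2
    rw [← hS'] at h5
    exact h5
  have hlocal : ∀ v ∈ Kap_K R, ∃ (U : Set (Fin 3 → ℝ)) (k : ℝ × ℝ) (ε : ℝ), IsOpen U ∧ v ∈ U ∧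
      0 < ε ∧ ∀ v' ∈ U ∩ Kap_K R, ∀ k' : ℝ × ℝ, dist k' k < ε → k' ∈ T v' := by
    intro v hv
    by_cases hx : v 0 = 0
    · have hv12 : v 1 ≠ 0 ∨ v 2 ≠ 0 := by
        by_contra hcon
        push Not at hcon
        have := hv.1
        rw [hx, hcon.1, hcon.2] at this
        norm_num at this
      rcases Kap_opp hG hx hv12 hv.2 with ⟨h1, h2⟩ | ⟨h1, h2⟩
      · obtain ⟨k, ε, hε, h3⟩ := hloc0 v hx h1 h2 hv.2
        refine Kap_nbhd (k := k) hε ?_
        filter_upwards [h3] with v' h4 h5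
        exact h4 h5.2
      · obtain ⟨k, ε, hε, h3⟩ := hloc0 (-v) (by show -v 0 = 0; rw [hx, neg_zero])
          (neg_pos.2 h1) (neg_neg_of_pos h2) (Kap_K_neg hG.hom hv).2
        have h4 : ∀ᶠ v' in 𝓝 v, eval (-v') R = 0 →
            ∀ k' : ℝ × ℝ, dist k' k < ε → k' ∈ T (-v') :=
          (continuous_neg.tendsto v).eventually h3
        refine Kap_nbhd (k := -k) hε ?_
        filter_upwards [h4] with v' h5 h6 k' hk'
        have h7 : dist (-k') k < ε := by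
          rw [← dist_neg_neg, neg_neg]
          exact hk'
        have h8 := hTneg _ _ (h5 (Kap_K_neg hG.hom h6).2 (-k') h7)
        rw [neg_neg, neg_neg] at h8
        exact h8
    · obtain ⟨k, ε, hε, h3⟩ := hLcA n R a b s hn hG c c' hc hc' hc2 hc'2 d α β ζ hNF v hx hv.2
      rw [← hS'] at h3
      obtain ⟨k₁, ε₁, hε₁, h4⟩ := Kap_near (fun v => eval v F₁) (fun v => eval v F₂)
        (MvPolynomial.continuous_eval F₁) (MvPolynomial.continuous_eval F₂) v hx k ε hε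
      refine Kap_nbhd (k := k₁) hε₁ ?_
      filter_upwards [h3, h4] with v' h5 h6 h7 k' hk'
      exact h5 h7.2 _ (h6 k' hk')
  obtain ⟨D₀, hD₀⟩ := hSel (Kap_K R) T (Kap_K_compact R) (fun v hv => hv.1)
    (fun v hv => Kap_K_neg hG.hom hv) (fun v _ => Kap_T_conv R α β c S' _ _ v)
    (fun v _ k hk => hTneg v k hk) hlocal
  obtain ⟨M, hM1, hM2, hM3⟩ : ∃ M : ℕ, D₀ ≤ 2 * M + 1 ∧ e₀ ≤ 2 * M + 2 ∧ m ≤ M + 1 :=
    ⟨D₀ + e₀ + m, by omega, by omega, by omega⟩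
  obtain ⟨k₁, k₂, hk₁, hk₂, hk⟩ := hD₀ (2 * M + 1) hM1 (odd_two_mul_add_one M)
  obtain ⟨Q, hQ⟩ : ∃ Q : TP, Q = X 0 ^ 2 + X 1 ^ 2 + X 2 ^ 2 := ⟨_, rfl⟩
  have hQh : Q.IsHomogeneous 2 := by
    rw [hQ]
    exact (((isHomogeneous_X ℝ (0 : Fin 3)).pow 2).add ((isHomogeneous_X ℝ (1 : Fin 3)).pow 2)).add
      ((isHomogeneous_X ℝ (2 : Fin 3)).pow 2)
  have hQv : ∀ v ∈ Kap_K R, eval v Q = 1 := by
    intro v hv
    rw [hQ, map_add, map_add, map_pow, map_pow, map_pow, eval_X, eval_X, eval_X]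
    exact hv.1
  have hgen : ∀ F k : TP, F.IsHomogeneous (2 * m) → k.IsHomogeneous (2 * M + 1) →
      (F * Q ^ (M + 1 - m) + X 0 * k).IsHomogeneous (2 * M + 2) := by
    intro F k hF hk
    have j1 := hF.mul (hQh.pow (M + 1 - m))
    have j2 := (isHomogeneous_X ℝ (0 : Fin 3)).mul hk
    rw [show 2 * m + 2 * (M + 1 - m) = 2 * M + 2 by omega] at j1
    rw [show 1 + (2 * M + 1) = 2 * M + 2 by omega] at j2
    exact j1.add j2
  have hgv : ∀ (F k : TP) (v : Fin 3 → ℝ), v ∈ Kap_K R →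
      eval v (F * Q ^ (M + 1 - m) + X 0 * k) = eval v F + v 0 * eval v k := by
    intro F k v hv
    rw [map_add, map_mul, map_mul, map_pow, hQv v hv, one_pow, mul_one, eval_X]
  obtain ⟨κ₁, hκ₁⟩ : ∃ κ₁ : TP, κ₁ = F₁ * Q ^ (M + 1 - m) + X 0 * k₁ := ⟨_, rfl⟩
  obtain ⟨κ₂, hκ₂⟩ : ∃ κ₂ : TP, κ₂ = F₂ * Q ^ (M + 1 - m) + X 0 * k₂ := ⟨_, rfl⟩
  have hh₁ : κ₁.IsHomogeneous (2 * M + 2) := hκ₁ ▸ hgen F₁ k₁ hF₁h hk₁
  have hh₂ : κ₂.IsHomogeneous (2 * M + 2) := hκ₂ ▸ hgen F₂ k₂ hF₂h hk₂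
  have hAK : ∀ v ∈ Kap_K R, (eval v κ₁, eval v κ₂) ∈ Adm R α β c S' v := by
    intro v hv
    rw [hκ₁, hκ₂, hgv _ _ v hv, hgv _ _ v hv]
    exact hk v hv
  have hAll : ∀ w : Fin 3 → ℝ, (w 0 ≠ 0 ∨ w 1 ≠ 0 ∨ w 2 ≠ 0) → eval w R = 0 →
      (eval w κ₁, eval w κ₂) ∈ Adm R α β c S' w := fun w hw hw2 =>
    Kap_all hG.hom hNF.hα hNF.hβ hh₁ hh₂ hAK hw hw2
  -- the sign function
  obtain ⟨S, hSp, hSn⟩ : ∃ S : ℝ → ℝ → ℝ, (∀ x z, 0 < x → S x z = c x z) ∧
      (∀ x z, x < 0 → S x z = S' (x / z) (1 / z)) := by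
    refine ⟨fun x z => if 0 < x then c x z else S' (x / z) (1 / z), ?_, ?_⟩
    · intro x z hx
      exact if_pos hx
    · intro x z hx
      exact if_neg (not_lt.2 hx.le)
  have hswp0 : ∀ x z : ℝ, z < 0 → val R x 1 z = 0 → val (swp R) (x / z) 1 (1 / z) = 0 := by
    intro x z hz hR
    rw [Kap_swp]
    have h3 := Kap_vscale hG.hom z⁻¹ x 1 z
    rw [hR, mul_zero, inv_mul_cancel₀ hz.ne, mul_one] at h3
    rw [div_eq_inv_mul, one_div]
    exact h3
  refine ⟨2 * M + 2, κ₁, κ₂, S, hM2, ?_⟩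
  refine
    { even := ⟨M + 1, by ring⟩
      h₁ := hh₁
      h₂ := hh₂
      hI := ?_
      loc := ?_
      hII := ?_
      hIII := ?_ }
  · intro x y z hx hy hz _ hR
    have h := hAll ![x, y, z] (Or.inl hx.ne') hR
    exact h.1 hy hz
  · intro x z hx hz hR
    rcases lt_or_gt_of_ne hx with h | h
    · have h1 := hc' (x / z) (1 / z) (div_pos_of_neg_of_neg h hz)
        (one_div_nonpos.2 hz.le) (hswp0 x z hz hR)
      refine ⟨?_, ?_⟩
      · rw [hSn x z h, hS']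
        show (-1 : ℝ) ^ n * c' (x / z) (1 / z) = 1 ∨ (-1 : ℝ) ^ n * c' (x / z) (1 / z) = -1
        rcases neg_one_pow_eq_or ℝ n with h2 | h2 <;> rcases h1.1 with h3 | h3 <;>
          rw [h2, h3] <;> norm_num
      · have hφ : ContinuousAt (fun q : ℝ × ℝ => (q.1 / q.2, 1 / q.2)) (x, z) := by
          refine ContinuousAt.prodMk ?_ ?_
          · exact continuousAt_fst.div continuousAt_snd hz.ne
          · exact continuousAt_const.div continuousAt_snd hz.ne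
        have h4 := hφ.eventually h1.2
        have h5 : ∀ᶠ q : ℝ × ℝ in 𝓝 (x, z), q.1 < 0 :=
          continuousAt_fst.eventually (gt_mem_nhds h)
        filter_upwards [h4, h5] with q g1 g2 _ g3 g4
        have g5 := g1 (div_pos_of_neg_of_neg g2 g3) (one_div_nonpos.2 g3.le)
          (hswp0 q.1 q.2 g3 g4)
        rw [hSn _ _ g2, hSn _ _ h, hS']
        show (-1 : ℝ) ^ n * c' (q.1 / q.2) (1 / q.2) = (-1 : ℝ) ^ n * c' (x / z) (1 / z)
        rw [g5]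
    · have h1 := hc x z h hz.le hR
      refine ⟨?_, ?_⟩
      · rw [hSp x z h]
        exact h1.1
      · have h5 : ∀ᶠ q : ℝ × ℝ in 𝓝 (x, z), 0 < q.1 :=
          continuousAt_fst.eventually (lt_mem_nhds h)
        filter_upwards [h1.2, h5] with q g1 g2 _ g3 g4
        rw [hSp _ _ g2, hSp _ _ h]
        exact g1 g2 g3.le g4
  · intro x z hx hz hR
    have h := (hAll ![x, 1, z] (Or.inl hx.ne') hR).2.2.1
      (show 0 < x * 1 by linarith) (show 1 * z < 0 by linarith)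
    have h' : √|z| * |val κ₂ x 1 z| < √|(1 : ℝ)| * (c (x / 1) (z / 1) * val κ₁ x 1 z) := h
    rw [abs_one, Real.sqrt_one, one_mul, div_one, div_one, abs_of_neg hz] at h'
    rw [hSp x z hx]
    exact h'.le
  · intro x z hx hz hR
    have h := (hAll ![x, 1, z] (Or.inl hx.ne) hR).2.2.2
      (show 0 < x * z from mul_pos_of_neg_of_neg hx hz) (show 1 * z < 0 by linarith)
    have h' : √|(1 : ℝ)| * |val κ₁ x 1 z| < √|z| * (S' (x / z) (1 / z) * val κ₂ x 1 z) := h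
    rw [abs_one, Real.sqrt_one, one_mul, abs_of_neg hz] at h'
    rw [hSn x z hx]
    refine h'.le.trans_eq ?_
    ring

end Pool.Agent.RSV
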