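import Pool.Agent.RSV.StC

/-!
# RSV, part C: admissible pairs near a point with `x ≠ 0`
-/

set_option autoImplicit false

namespace Pool.Agent.RSV

open MvPolynomial Filter Topology

/-- homogeneity -/
private theorem LcA_hom {n : ℕ} {F : TP} (hF : F.IsHomogeneous n) (r x y z : ℝ) :
    val F (r * x) (r * y) (r * z) = r ^ n * val F x y z := by
  unfold val
  rw [MvPolynomial.eval_eq', MvPolynomial.eval_eq', Finset.mul_sum]
  refine Finset.sum_congr rfl fun m hm => ?_
  have h1 : m 0 + m 1 + m 2 = n := by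
    have h2 := hF (mem_support_iff.1 hm)
    rw [Finsupp.weight_apply, Finsupp.sum_fintype _ _ (fun i => by simp), Fin.sum_univ_three] at h2
    simpa using h2
  rw [Fin.prod_univ_three, Fin.prod_univ_three, ← h1]
  simp only [Matrix.cons_val_zero, Matrix.cons_val_one, Matrix.cons_val_two, Matrix.head_cons,
    Matrix.tail_cons]
  rw [mul_pow, mul_pow, mul_pow, pow_add, pow_add]
  ring

private theorem LcA_eval (v : Fin 3 → ℝ) (F : TP) : eval v F = val F (v 0) (v 1) (v 2) := by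
  unfold val
  congr 2
  ext i
  fin_cases i <;> rfl

/-- the restriction to a line -/
private noncomputable def LcA_P (R : TP) (y z : ℝ) : Polynomial ℝ :=
  aeval ![Polynomial.X, Polynomial.C y, Polynomial.C z] R

private theorem LcA_P_eval (R : TP) (y z t : ℝ) : (LcA_P R y z).eval t = val R t y z := by
  unfold LcA_P val
  induction R using MvPolynomial.induction_on with
  | C a => simp
  | add p q hp hq => simp [hp, hq]
  | mul_X p i h =>
    rw [map_mul, Polynomial.eval_mul, h, map_mul, aeval_X, eval_X]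
    congr 1
    fin_cases i <;> simp

private theorem LcA_P_der (R : TP) (y z : ℝ) :
    Polynomial.derivative (LcA_P R y z) = LcA_P (pderiv 0 R) y z := by
  unfold LcA_P
  induction R using MvPolynomial.induction_on with
  | C a => simp
  | add p q hp hq => simp [hp, hq]
  | mul_X p i h =>
    rw [map_mul, Polynomial.derivative_mul, h, pderiv_mul, map_add, map_mul, map_mul, aeval_X]
    congr 2
    fin_cases i
    · simp
    · simp
    · simp

private theorem LcA_coeff (R : TP) (y z : ℝ) (j : ℕ) : (LcA_P R y z).coeff j =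
    ∑ m ∈ R.support, if m 0 = j then coeff m R * (y ^ m 1 * z ^ m 2) else 0 := by
  unfold LcA_P
  rw [MvPolynomial.aeval_def, MvPolynomial.eval₂_eq', Polynomial.finsetSum_coeff]
  refine Finset.sum_congr rfl fun m _ => ?_
  rw [Fin.prod_univ_three]
  simp only [Matrix.cons_val_zero, Matrix.cons_val_one, Matrix.cons_val_two, Matrix.head_cons,
    Matrix.tail_cons, Polynomial.algebraMap_eq]
  rw [← Polynomial.C_pow, ← Polynomial.C_pow, mul_assoc, ← Polynomial.C_mul, mul_comm (Polynomial.X ^ _),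
    ← mul_assoc, ← Polynomial.C_mul, Polynomial.coeff_C_mul, Polynomial.coeff_X_pow]
  by_cases h : m 0 = j
  · rw [if_pos h, if_pos h.symm, mul_one]
  · rw [if_neg h, if_neg (Ne.symm h), mul_zero]

private theorem LcA_deg {n : ℕ} {R : TP} (hR : R.IsHomogeneous n) (y z : ℝ) :
    (LcA_P R y z).natDegree ≤ n ∧ (LcA_P R y z).coeff n = (LcA_P R 1 0).coeff n := by
  have key : ∀ m ∈ R.support, m 0 + m 1 + m 2 = n := by
    intro m hm
    have h2 := hR (mem_support_iff.1 hm)
    rw [Finsupp.weight_apply, Finsupp.sum_fintype _ _ (fun i => by simp), Fin.sum_univ_three] at h2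
    simpa using h2
  constructor
  · rw [Polynomial.natDegree_le_iff_coeff_eq_zero]
    intro j hj
    rw [LcA_coeff]
    refine Finset.sum_eq_zero fun m hm => if_neg ?_
    have := key m hm
    omega
  · rw [LcA_coeff, LcA_coeff]
    refine Finset.sum_congr rfl fun m hm => ?_
    by_cases h : m 0 = n
    · rw [if_pos h, if_pos h]
      have := key m hm
      have h1 : m 1 = 0 := by omega
      have h2 : m 2 = 0 := by omega
      rw [h1, h2]
      simp
    · rw [if_neg h, if_neg h]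

private theorem LcA_one {n : ℕ} {R : TP} {a b s : Fin n → ℝ} (hR : Good R a b s) :
    (LcA_P R 1 0).coeff n = 1 := by
  have h1 : LcA_P R 1 0 = ∏ i, (Polynomial.X - Polynomial.C (a i ^ 2)) := by
    apply Polynomial.funext
    intro t
    rw [LcA_P_eval, hR.ra, Polynomial.eval_prod]
    simp
  have h2 : (∏ i, (Polynomial.X - Polynomial.C (a i ^ 2))).Monic :=
    Polynomial.monic_prod_of_monic _ _ fun i _ => Polynomial.monic_X_sub_C _
  have h3 : (∏ i, (Polynomial.X - Polynomial.C (a i ^ 2))).natDegree = n := by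
    rw [Polynomial.natDegree_prod_of_monic _ _ fun i _ => Polynomial.monic_X_sub_C _]
    simp only [Polynomial.natDegree_X_sub_C]
    simp
  rw [h1]
  have h4 := h2.coeff_natDegree
  rwa [h3] at h4

/-- the product formula -/
private theorem LcA_prod {n : ℕ} {R : TP} {a b s : Fin n → ℝ} (hR : Good R a b s) (y z : ℝ)
    (f : Fin n → ℝ) (hf : Function.Injective f) (hf0 : ∀ k, val R (f k) y z = 0) :
    LcA_P R y z = ∏ k, (Polynomial.X - Polynomial.C (f k)) := by
  obtain ⟨h1, h2⟩ := LcA_deg hR.hom y z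
  rw [LcA_one hR] at h2
  have h3 : (LcA_P R y z).Monic := Polynomial.monic_of_natDegree_le_of_coeff_eq_one n h1 h2
  have h4 : (∏ i, (Polynomial.X - Polynomial.C (f i))).Monic :=
    Polynomial.monic_prod_of_monic _ _ fun i _ => Polynomial.monic_X_sub_C _
  have h5 : (∏ i, (Polynomial.X - Polynomial.C (f i))).natDegree = n := by
    rw [Polynomial.natDegree_prod_of_monic _ _ fun i _ => Polynomial.monic_X_sub_C _]
    simp only [Polynomial.natDegree_X_sub_C]
    simp
  have h6 : (LcA_P R y z).natDegree = n :=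
    le_antisymm h1 (Polynomial.le_natDegree_of_ne_zero (by rw [h2]; exact one_ne_zero))
  refine Polynomial.eq_of_degree_le_of_eval_index_eq (s := Finset.univ) (v := f) hf.injOn ?_ ?_ ?_ ?_
  · rw [Polynomial.degree_eq_natDegree h3.ne_zero, h6]
    simp
  · rw [Polynomial.degree_eq_natDegree h3.ne_zero, Polynomial.degree_eq_natDegree h4.ne_zero, h5, h6]
  · rw [h3.leadingCoeff, h4.leadingCoeff]
  · intro i _
    rw [LcA_P_eval, hf0, Polynomial.eval_prod]
    exact (Finset.prod_eq_zero (Finset.mem_univ i) (by simp)).symm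

/-- facts on the curve for nonnegative `y`, `z` -/
private theorem LcA_fact {n : ℕ} {R : TP} {a b s : Fin n → ℝ} (hR : Good R a b s) (x y z : ℝ)
    (hy : 0 ≤ y) (hz : 0 ≤ z) (hyz : y ≠ 0 ∨ z ≠ 0) (h : val R x y z = 0) :
    0 < x ∧ val (pderiv 0 R) x y z ≠ 0 := by
  obtain ⟨f, hf, hf0⟩ := hR.hyp y z hy hz hyz
  have hP := LcA_prod hR y z f hf fun k => (hf0 k).2
  have h1 : ∏ k, (x - f k) = 0 := by
    rw [← h, ← LcA_P_eval, hP, Polynomial.eval_prod]
    simp
  obtain ⟨k, -, hk⟩ := Finset.prod_eq_zero_iff.1 h1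
  have hk' : x = f k := by linarith
  refine ⟨hk' ▸ (hf0 k).1, ?_⟩
  rw [← LcA_P_eval, ← LcA_P_der, hP, ← Finset.mul_prod_erase Finset.univ _ (Finset.mem_univ k),
    Polynomial.derivative_mul, Polynomial.eval_add, Polynomial.eval_mul, Polynomial.eval_mul,
    Polynomial.eval_prod]
  simp only [Polynomial.derivative_X_sub_C, Polynomial.eval_one, one_mul, Polynomial.eval_sub,
    Polynomial.eval_X, Polynomial.eval_C]
  rw [hk', sub_self, zero_mul, add_zero, Finset.prod_ne_zero_iff]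
  intro j hj
  rw [sub_ne_zero]
  exact fun h' => (Finset.mem_erase.1 hj).1 (hf h').symm

/-- the point `(x, 0, 0)` -/
private theorem LcA_x00 {n : ℕ} {R : TP} {a b s : Fin n → ℝ} (hR : Good R a b s) (x : ℝ)
    (hx : x ≠ 0) : val R x 0 0 ≠ 0 := by
  have h1 : ∀ t : ℝ, val R t 0 0 = t ^ n * val R 1 0 0 := by
    intro t
    have := LcA_hom hR.hom t 1 0 0
    simpa using this
  have h2 : LcA_P R 0 0 = Polynomial.C (val R 1 0 0) * Polynomial.X ^ n := by
    apply Polynomial.funext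
    intro t
    rw [LcA_P_eval, h1, Polynomial.eval_mul, Polynomial.eval_C, Polynomial.eval_pow,
      Polynomial.eval_X, mul_comm]
  have h3 := (LcA_deg hR.hom 0 0).2
  rw [LcA_one hR, h2, Polynomial.coeff_C_mul_X_pow, if_pos rfl] at h3
  rw [h1, h3, mul_one]
  exact pow_ne_zero _ hx

/-- no point with `x > 0 ≥ y, z` -/
private theorem LcA_no {n : ℕ} {R : TP} {a b s : Fin n → ℝ} (hR : Good R a b s) (x y z : ℝ)
    (hx : 0 < x) (hy : y ≤ 0) (hz : z ≤ 0) (h : val R x y z = 0) : False := by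
  by_cases hyz : y = 0 ∧ z = 0
  · obtain ⟨rfl, rfl⟩ := hyz
    exact LcA_x00 hR x hx.ne' h
  · have h1 := LcA_hom hR.hom (-1) x y z
    rw [h, mul_zero] at h1
    have h2 := (LcA_fact hR (-1 * x) (-1 * y) (-1 * z) (by linarith) (by linarith) ?_ h1).1
    · linarith
    · rw [not_and_or] at hyz
      rcases hyz with h3 | h3
      · exact Or.inl (mul_ne_zero (by norm_num) h3)
      · exact Or.inr (mul_ne_zero (by norm_num) h3)

private theorem LcA_prodev {v₀ : Fin 3 → ℝ} {P : (Fin 3 → ℝ) → (ℝ × ℝ) → Prop} (k : ℝ × ℝ)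
    (h : ∀ᶠ p : (Fin 3 → ℝ) × (ℝ × ℝ) in 𝓝 (v₀, k), P p.1 p.2) :
    ∃ ε : ℝ, 0 < ε ∧ ∀ᶠ v in 𝓝 v₀, ∀ k' : ℝ × ℝ, dist k' k < ε → P v k' := by
  rw [nhds_prod_eq, Filter.eventually_prod_iff] at h
  obtain ⟨pa, ha, pb, hb, hab⟩ := h
  rw [Metric.eventually_nhds_iff] at hb
  obtain ⟨ε, hε, hb⟩ := hb
  exact ⟨ε, hε, ha.mono fun v hv k' hk' => hab hv (hb hk')⟩

private theorem LcA_swp (R : TP) (x y z : ℝ) : val (swp R) x y z = val R x z y := by
  unfold val swp
  rw [eval_rename]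
  congr 2
  ext i
  fin_cases i <;> rfl

private theorem LcA_swp_der (R : TP) : pderiv 0 (swp R) = swp (pderiv 0 R) := by
  unfold swp
  have h := pderiv_rename (Equiv.swap (1 : Fin 3) 2).injective 0 R
  have h0 : (Equiv.swap (1 : Fin 3) 2) 0 = 0 := by decide
  rwa [h0] at h

/-- the main case `x > 0` -/
private theorem LcA_main {n : ℕ} {R : TP} {a b s : Fin n → ℝ} (hR : Good R a b s)
    {c c' : ℝ → ℝ → ℝ} (hc : LocC R c) (hc' : LocC (swp R) c')
    (hca : ∀ i, 0 < c (a i ^ 2) 0 * (a i * val (pderiv 0 R) (a i ^ 2) 1 0))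
    (hcb : ∀ i, 0 < c' (b i ^ 2) 0 * (b i * val (pderiv 0 (swp R)) (b i ^ 2) 1 0))
    {d : ℕ} {α β ζ : TP} (hN : NF R a b d α β ζ (fun _ => 1) (fun _ => (-1) ^ n))
    (v₀ : Fin 3 → ℝ) (hx : 0 < v₀ 0) (h0 : eval v₀ R = 0) :
    ∃ k : ℝ × ℝ, ∀ᶠ p : (Fin 3 → ℝ) × (ℝ × ℝ) in 𝓝 (v₀, k), eval p.1 R = 0 →
      p.2 ∈ Adm R α β c (fun x y => (-1) ^ n * c' x y) p.1 := by
  have hcα : Continuous fun p : (Fin 3 → ℝ) × (ℝ × ℝ) => eval p.1 α :=
    (MvPolynomial.continuous_eval α).comp continuous_fst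
  have hcβ : Continuous fun p : (Fin 3 → ℝ) × (ℝ × ℝ) => eval p.1 β :=
    (MvPolynomial.continuous_eval β).comp continuous_fst
  have hcR : Continuous fun p : (Fin 3 → ℝ) × (ℝ × ℝ) => eval p.1 (pderiv 0 R) :=
    (MvPolynomial.continuous_eval (pderiv 0 R)).comp continuous_fst
  have hcv : ∀ i : Fin 3, Continuous fun p : (Fin 3 → ℝ) × (ℝ × ℝ) => p.1 i := fun i =>
    (continuous_apply i).comp continuous_fst
  have hk1 : Continuous fun p : (Fin 3 → ℝ) × (ℝ × ℝ) => p.2.1 := by fun_prop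
  have hk2 : Continuous fun p : (Fin 3 → ℝ) × (ℝ × ℝ) => p.2.2 := by fun_prop
  let F : (Fin 3 → ℝ) × (ℝ × ℝ) → ℝ := fun p => eval p.1 (pderiv 0 R) *
    (p.1 1 * eval p.1 α * p.2.1 + p.1 2 * eval p.1 β * p.2.2)
  have hF : Continuous F :=
    hcR.mul ((((hcv 1).mul hcα).mul hk1).add (((hcv 2).mul hcβ).mul hk2))
  have h0' : val R (v₀ 0) (v₀ 1) (v₀ 2) = 0 := by rw [← LcA_eval]; exact h0
  have evpos : ∀ (i : Fin 3) (k : ℝ × ℝ), 0 < v₀ i →
      ∀ᶠ p : (Fin 3 → ℝ) × (ℝ × ℝ) in 𝓝 (v₀, k), 0 < p.1 i := fun i k hi =>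
    (hcv i).continuousAt.eventually (lt_mem_nhds hi)
  have evneg : ∀ (i : Fin 3) (k : ℝ × ℝ), v₀ i < 0 →
      ∀ᶠ p : (Fin 3 → ℝ) × (ℝ × ℝ) in 𝓝 (v₀, k), p.1 i < 0 := fun i k hi =>
    (hcv i).continuousAt.eventually (gt_mem_nhds hi)
  rcases lt_or_ge 0 (v₀ 1) with hy | hy
  · rcases lt_or_ge 0 (v₀ 2) with hz | hz
    · -- (a)
      obtain ⟨-, h1⟩ := LcA_fact hR _ _ _ hy.le hz.le (Or.inl hy.ne') h0'
      rw [← LcA_eval] at h1
      refine ⟨(eval v₀ (pderiv 0 R) * eval v₀ α, eval v₀ (pderiv 0 R) * eval v₀ β), ?_⟩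
      set k : ℝ × ℝ := (eval v₀ (pderiv 0 R) * eval v₀ α, eval v₀ (pderiv 0 R) * eval v₀ β) with hk
      have hrel : v₀ 1 * eval v₀ α ^ 2 + v₀ 2 * eval v₀ β ^ 2 = v₀ 0 * eval v₀ ζ ^ 2 := by
        obtain ⟨q, hq⟩ := hN.rel
        have h2 := congrArg (eval v₀) hq
        simp only [map_sub, map_add, map_mul, map_pow, eval_X] at h2
        rw [h0, zero_mul] at h2
        linarith
      have hζ : 0 < eval v₀ ζ := by
        rw [LcA_eval, hN.ζx]
        exact hN.pos _ _ hy.le hz.le (Or.inl hy.ne')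
      have hF0 : 0 < F (v₀, k) := by
        have h2 : F (v₀, k) = eval v₀ (pderiv 0 R) ^ 2 * (v₀ 0 * eval v₀ ζ ^ 2) := by
          rw [← hrel]
          simp only [F, hk]
          ring
        rw [h2]
        have h3 : 0 < eval v₀ (pderiv 0 R) ^ 2 := by positivity
        positivity
      filter_upwards [evpos 1 k hy, evpos 2 k hz, hF.continuousAt.eventually (lt_mem_nhds hF0)]
        with p p1 p2 p3 _
      have p12 : 0 < p.1 1 * p.1 2 := mul_pos p1 p2
      refine ⟨fun _ _ => p3, fun h' => absurd h' (not_le.2 p1), fun _ h' => absurd h' (not_lt.2 p12.le),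
        fun _ h' => absurd h' (not_lt.2 p12.le)⟩
    · -- (b), (d)
      set c₀ : ℝ := c (v₀ 0 / v₀ 1) (v₀ 2 / v₀ 1) with hc₀
      refine ⟨(c₀, 0), ?_⟩
      have hx1 : 0 < v₀ 0 / v₀ 1 := div_pos hx hy
      have hz1 : v₀ 2 / v₀ 1 ≤ 0 := div_nonpos_of_nonpos_of_nonneg hz hy.le
      have hdiv : ∀ x y z : ℝ, y ≠ 0 → val R x y z = 0 → val R (x / y) 1 (z / y) = 0 := by
        intro x y z hy' h
        have h1 := LcA_hom hR.hom y⁻¹ x y z
        rw [h, mul_zero, inv_mul_cancel₀ hy'] at h1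
        rw [div_eq_inv_mul, div_eq_inv_mul]
        exact h1
      obtain ⟨hs, hloc⟩ := hc _ _ hx1 hz1 (hdiv _ _ _ hy.ne' h0')
      have hcc : c₀ * c₀ = 1 := by
        rcases hs with h' | h' <;> rw [hc₀, h'] <;> norm_num
      have hdc : ContinuousAt (fun p : (Fin 3 → ℝ) × (ℝ × ℝ) => (p.1 0 / p.1 1, p.1 2 / p.1 1))
          (v₀, ((c₀, 0) : ℝ × ℝ)) :=
        (((hcv 0).continuousAt).div (hcv 1).continuousAt hy.ne').prodMk
          (((hcv 2).continuousAt).div (hcv 1).continuousAt hy.ne')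
      have hev := hdc.eventually hloc
      let G : (Fin 3 → ℝ) × (ℝ × ℝ) → ℝ := fun p =>
        √|p.1 1| * (c₀ * p.2.1) - √|p.1 2| * |p.2.2|
      have hG : Continuous G := by
        refine Continuous.sub ?_ ?_
        · exact (((hcv 1).abs).sqrt).mul (continuous_const.mul hk1)
        · exact (((hcv 2).abs).sqrt).mul hk2.abs
      have hG0 : 0 < G (v₀, (c₀, 0)) := by
        have h2 : G (v₀, (c₀, 0)) = √|v₀ 1| := by
          simp only [G]
          rw [hcc, abs_zero, mul_zero, mul_one, sub_zero]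
        rw [h2, abs_of_pos hy]
        exact Real.sqrt_pos.2 hy
      have hF1 : ∀ᶠ p : (Fin 3 → ℝ) × (ℝ × ℝ) in 𝓝 (v₀, ((c₀, 0) : ℝ × ℝ)), 0 ≤ p.1 2 → 0 < F p := by
        rcases hz.lt_or_eq with hz' | hz'
        · exact (evneg 2 _ hz').mono fun p hp h' => absurd h' (not_le.2 hp)
        · have hroot := hdiv _ _ _ hy.ne' h0'
          rw [hz', zero_div, hR.ra] at hroot
          obtain ⟨i, -, hi⟩ := Finset.prod_eq_zero_iff.1 hroot
          have hi' : v₀ 0 = v₀ 1 * a i ^ 2 := by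
            have : v₀ 0 / v₀ 1 = a i ^ 2 := by linarith
            rw [← this]
            field_simp
          have e1 : eval v₀ (pderiv 0 R) = v₀ 1 ^ (n - 1) * val (pderiv 0 R) (a i ^ 2) 1 0 := by
            rw [LcA_eval, ← LcA_hom hR.hom.pderiv, ← hi', hz', mul_one, mul_zero]
          have e2 : eval v₀ α = v₀ 1 ^ d * (a i * val ζ 0 1 0) := by
            have := hN.sa i
            rw [one_mul] at this
            rw [LcA_eval, ← this, ← LcA_hom hN.hα, ← hi', hz', mul_one, mul_zero]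
          have e3 : c₀ = c (a i ^ 2) 0 := by
            have : v₀ 0 / v₀ 1 = a i ^ 2 := by linarith
            rw [hc₀, this, hz', zero_div]
          have hζ : 0 < val ζ 0 1 0 := hN.pos 1 0 zero_le_one le_rfl (Or.inl one_ne_zero)
          have hF0 : 0 < F (v₀, (c₀, 0)) := by
            have h2 : F (v₀, (c₀, 0)) = v₀ 1 ^ (n - 1) * v₀ 1 ^ d * v₀ 1 * val ζ 0 1 0 *
                (c (a i ^ 2) 0 * (a i * val (pderiv 0 R) (a i ^ 2) 1 0)) := by
              simp only [F]
              rw [e1, e2, e3]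
              ring
            rw [h2]
            have := hca i
            positivity
          exact (hF.continuousAt.eventually (lt_mem_nhds hF0)).mono fun p hp _ => hp
      filter_upwards [evpos 1 _ hy, evpos 0 _ hx, hev, hG.continuousAt.eventually (lt_mem_nhds hG0), hF1]
        with p p1 p0 p3 p4 p5 p6
      have p6' : val R (p.1 0) (p.1 1) (p.1 2) = 0 := by rw [← LcA_eval]; exact p6
      refine ⟨fun _ h' => p5 h', fun h' => absurd h' (not_le.2 p1), ?_, ?_⟩
      · intro _ h'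
        have hz2 : p.1 2 < 0 := by
          by_contra hcon
          exact absurd h' (not_lt.2 (mul_nonneg p1.le (not_lt.1 hcon)))
        have h3 := p3 (div_pos p0 p1) (div_nonpos_of_nonpos_of_nonneg hz2.le p1.le)
          (hdiv _ _ _ p1.ne' p6')
        have h4 : 0 < √|p.1 1| * (c₀ * p.2.1) - √|p.1 2| * |p.2.2| := p4
        show √|p.1 2| * |p.2.2| < √|p.1 1| * (c (p.1 0 / p.1 1) (p.1 2 / p.1 1) * p.2.1)
        have h5 : c (p.1 0 / p.1 1) (p.1 2 / p.1 1) = c₀ := h3
        rw [h5]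
        linarith
      · intro h1 h2
        exfalso
        have hz2 : 0 < p.1 2 := by
          by_contra hcon
          exact absurd h1 (not_lt.2 (mul_nonpos_of_nonneg_of_nonpos p0.le (not_lt.1 hcon)))
        exact absurd h2 (not_lt.2 (mul_pos p1 hz2).le)
  · rcases lt_or_ge 0 (v₀ 2) with hz | hz
    · -- (c), (e)
      set c₀ : ℝ := (-1) ^ n * c' (v₀ 0 / v₀ 2) (v₀ 1 / v₀ 2) with hc₀
      refine ⟨(0, c₀), ?_⟩
      have hx1 : 0 < v₀ 0 / v₀ 2 := div_pos hx hz
      have hz1 : v₀ 1 / v₀ 2 ≤ 0 := div_nonpos_of_nonpos_of_nonneg hy hz.le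
      have hdiv : ∀ x y z : ℝ, z ≠ 0 → val R x y z = 0 → val R (x / z) (y / z) 1 = 0 := by
        intro x y z hz' h
        have h1 := LcA_hom hR.hom z⁻¹ x y z
        rw [h, mul_zero, inv_mul_cancel₀ hz'] at h1
        rw [div_eq_inv_mul, div_eq_inv_mul]
        exact h1
      obtain ⟨hs, hloc⟩ := hc' _ _ hx1 hz1 (by rw [LcA_swp]; exact hdiv _ _ _ hz.ne' h0')
      have h11 : ((-1 : ℝ) ^ n) * (-1) ^ n = 1 := by
        rw [← mul_pow]
        norm_num
      have hcc : c₀ * c₀ = 1 := by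
        have h3 : c' (v₀ 0 / v₀ 2) (v₀ 1 / v₀ 2) * c' (v₀ 0 / v₀ 2) (v₀ 1 / v₀ 2) = 1 := by
          rcases hs with h' | h' <;> rw [h'] <;> norm_num
        rw [hc₀]
        calc (-1) ^ n * c' (v₀ 0 / v₀ 2) (v₀ 1 / v₀ 2) *
            ((-1) ^ n * c' (v₀ 0 / v₀ 2) (v₀ 1 / v₀ 2)) = ((-1 : ℝ) ^ n * (-1) ^ n) *
              (c' (v₀ 0 / v₀ 2) (v₀ 1 / v₀ 2) * c' (v₀ 0 / v₀ 2) (v₀ 1 / v₀ 2)) := by ring
          _ = 1 := by rw [h11, h3, one_mul]
      have hdc : ContinuousAt (fun p : (Fin 3 → ℝ) × (ℝ × ℝ) => (p.1 0 / p.1 2, p.1 1 / p.1 2))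
          (v₀, ((0, c₀) : ℝ × ℝ)) :=
        (((hcv 0).continuousAt).div (hcv 2).continuousAt hz.ne').prodMk
          (((hcv 1).continuousAt).div (hcv 2).continuousAt hz.ne')
      have hev := hdc.eventually hloc
      let G : (Fin 3 → ℝ) × (ℝ × ℝ) → ℝ := fun p =>
        √|p.1 2| * (c₀ * p.2.2) - √|p.1 1| * |p.2.1|
      have hG : Continuous G := by
        refine Continuous.sub ?_ ?_
        · exact (((hcv 2).abs).sqrt).mul (continuous_const.mul hk2)
        · exact (((hcv 1).abs).sqrt).mul hk1.abs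
      have hG0 : 0 < G (v₀, (0, c₀)) := by
        have h2 : G (v₀, (0, c₀)) = √|v₀ 2| := by
          simp only [G]
          rw [hcc, abs_zero, mul_zero, mul_one, sub_zero]
        rw [h2, abs_of_pos hz]
        exact Real.sqrt_pos.2 hz
      have hF1 : ∀ᶠ p : (Fin 3 → ℝ) × (ℝ × ℝ) in 𝓝 (v₀, ((0, c₀) : ℝ × ℝ)), 0 ≤ p.1 1 → 0 < F p := by
        rcases hy.lt_or_eq with hy' | hy'
        · exact (evneg 1 _ hy').mono fun p hp h' => absurd h' (not_le.2 hp)
        · have hroot := hdiv _ _ _ hz.ne' h0'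
          rw [hy', zero_div, hR.rb] at hroot
          obtain ⟨i, -, hi⟩ := Finset.prod_eq_zero_iff.1 hroot
          have hi' : v₀ 0 = v₀ 2 * b i ^ 2 := by
            have : v₀ 0 / v₀ 2 = b i ^ 2 := by linarith
            rw [← this]
            field_simp
          have e1 : eval v₀ (pderiv 0 R) =
              v₀ 2 ^ (n - 1) * val (pderiv 0 (swp R)) (b i ^ 2) 1 0 := by
            rw [LcA_swp_der, LcA_swp, LcA_eval, ← LcA_hom hR.hom.pderiv, ← hi', hy', mul_one,
              mul_zero]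
          have e2 : eval v₀ β = v₀ 2 ^ d * ((-1) ^ n * b i * val ζ 0 0 1) := by
            have := hN.sb i
            rw [LcA_eval, ← this, ← LcA_hom hN.hβ, ← hi', hy', mul_one, mul_zero]
          have e3 : c₀ = (-1) ^ n * c' (b i ^ 2) 0 := by
            have : v₀ 0 / v₀ 2 = b i ^ 2 := by linarith
            rw [hc₀, this, hy', zero_div]
          have hζ : 0 < val ζ 0 0 1 := hN.pos 0 1 le_rfl zero_le_one (Or.inr one_ne_zero)
          have hF0 : 0 < F (v₀, (0, c₀)) := by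
            have h2 : F (v₀, (0, c₀)) = (((-1 : ℝ) ^ n) * (-1) ^ n) *
                (v₀ 2 ^ (n - 1) * v₀ 2 ^ d * v₀ 2 * val ζ 0 0 1 *
                (c' (b i ^ 2) 0 * (b i * val (pderiv 0 (swp R)) (b i ^ 2) 1 0))) := by
              simp only [F]
              rw [e1, e2, e3]
              ring
            rw [h2, h11, one_mul]
            have := hcb i
            positivity
          exact (hF.continuousAt.eventually (lt_mem_nhds hF0)).mono fun p hp _ => hp
      filter_upwards [evpos 2 _ hz, evpos 0 _ hx, hev, hG.continuousAt.eventually (lt_mem_nhds hG0), hF1]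
        with p p2 p0 p3 p4 p5 p6
      have p6' : val R (p.1 0) (p.1 1) (p.1 2) = 0 := by rw [← LcA_eval]; exact p6
      refine ⟨fun h' _ => p5 h', fun _ h' => absurd h' (not_le.2 p2), ?_, ?_⟩
      · intro h1 h2
        exfalso
        have hy2 : 0 < p.1 1 := by
          by_contra hcon
          exact absurd h1 (not_lt.2 (mul_nonpos_of_nonneg_of_nonpos p0.le (not_lt.1 hcon)))
        exact absurd h2 (not_lt.2 (mul_pos hy2 p2).le)
      · intro _ h'
        have hy2 : p.1 1 < 0 := by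
          by_contra hcon
          exact absurd h' (not_lt.2 (mul_nonneg (not_lt.1 hcon) p2.le))
        have h3 := p3 (div_pos p0 p2) (div_nonpos_of_nonpos_of_nonneg hy2.le p2.le)
          (by rw [LcA_swp]; exact hdiv _ _ _ p2.ne' p6')
        have h4 : 0 < √|p.1 2| * (c₀ * p.2.2) - √|p.1 1| * |p.2.1| := p4
        show √|p.1 1| * |p.2.1| < √|p.1 2| * ((-1) ^ n * c' (p.1 0 / p.1 2) (p.1 1 / p.1 2) * p.2.2)
        have h5 : (-1) ^ n * c' (p.1 0 / p.1 2) (p.1 1 / p.1 2) = c₀ := by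
          rw [hc₀]
          exact congrArg _ h3
        rw [h5]
        linarith
    · exact (LcA_no hR _ _ _ hx hy hz h0').elim

/-- symmetry -/
private theorem LcA_neg (R α β : TP) (c S : ℝ → ℝ → ℝ) (v : Fin 3 → ℝ) (k : ℝ × ℝ)
    (h : k ∈ Adm R α β c S (-v)) : k ∈ Adm R α β c S v := by
  obtain ⟨h1, h2, h3, h4⟩ := h
  simp only [Pi.neg_apply, neg_neg, neg_mul_neg, neg_div_neg_eq, abs_neg, neg_nonneg, neg_nonpos] at h1 h2 h3 h4
  exact ⟨h2, h1, h3, h4⟩

/-- [LcA] admissible pairs near a point with `x ≠ 0` -/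
theorem thm_LcA : St_LcA := by
  intro n R a b s _ hR c c' hc hc' hca hcb d α β ζ hN v₀ hx h0
  rcases lt_or_gt_of_ne hx with hx | hx
  · have h0' : eval (-v₀) R = 0 := by
      have h1 := LcA_hom hR.hom (-1) (v₀ 0) (v₀ 1) (v₀ 2)
      rw [← LcA_eval, h0, mul_zero] at h1
      rw [LcA_eval]
      simpa using h1
    obtain ⟨k, hk⟩ := LcA_main hR hc hc' hca hcb hN (-v₀) (by simpa using hx) h0'
    obtain ⟨ε, hε, h⟩ := LcA_prodev (P := fun v k' => eval v R = 0 →
      k' ∈ Adm R α β c (fun x y => (-1) ^ n * c' x y) v) k hk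
    refine ⟨k, ε, hε, ?_⟩
    have h2 : Tendsto (fun v : Fin 3 → ℝ => -v) (𝓝 v₀) (𝓝 (-v₀)) := continuous_neg.continuousAt
    filter_upwards [h2.eventually h] with v hv hv0 k' hk'
    refine LcA_neg _ _ _ _ _ _ _ (hv k' hk' ?_)
    have h1 := LcA_hom hR.hom (-1) (v 0) (v 1) (v 2)
    rw [← LcA_eval, hv0, mul_zero] at h1
    rw [LcA_eval]
    simpa using h1
  · obtain ⟨k, hk⟩ := LcA_main hR hc hc' hca hcb hN v₀ hx h0
    obtain ⟨ε, hε, h⟩ := LcA_prodev (P := fun v k' => eval v R = 0 →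
      k' ∈ Adm R α β c (fun x y => (-1) ^ n * c' x y) v) k hk
    exact ⟨k, ε, hε, h.mono fun v hv hv0 k' hk' => hv k' hk' hv0⟩

end Pool.Agent.RSV
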