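import Pool.Agent.RSV.StC

/-!
# RSV, part C: admissible pairs near a point with `x = 0`
-/

set_option autoImplicit false

namespace Pool.Agent.RSV

open MvPolynomial Filter Topology

/-- homogeneity -/
private theorem LcN_hom {n : ℕ} {F : TP} (hF : F.IsHomogeneous n) (r x y z : ℝ) :
    val F (r * x) (r * y) (r * z) = r ^ n * val F x y z := by
  unfold val
  rw [MvPolynomial.eval_eq', MvPolynomial.eval_eq', Finset.mul_sum]
  refine Finset.sum_congr rfl fun m hm => ?_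
  have h1 : m 0 + m 1 + m 2 = n := by
    have h2 := hF (mem_support_iff.1 hm)
    rw [Finsupp.weight_apply, Finsupp.sum_fintype _ _ (fun i => by simp), Fin.sum_univ_three] at h2
    simpa using h2
  rw [Fin.prod_univ_three, Fin.prod_univ_three, ← h1]
  simp only [Matrix.cons_val_zero, Matrix.cons_val_one, Matrix.cons_val_two, Matrix.head_cons,
    Matrix.tail_cons]
  rw [mul_pow, mul_pow, mul_pow, pow_add, pow_add]
  ring

private theorem LcN_eval (v : Fin 3 → ℝ) (F : TP) : eval v F = val F (v 0) (v 1) (v 2) := by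
  unfold val
  congr 2
  ext i
  fin_cases i <;> rfl

/-- dehomogenization -/
private theorem LcN_chart {n : ℕ} {F : TP} (hF : F.IsHomogeneous n) (v : Fin 3 → ℝ)
    (hv : v 1 ≠ 0) : eval v F = v 1 ^ n * val F (v 0 / v 1) 1 (v 2 / v 1) := by
  rw [LcN_eval, ← LcN_hom hF, mul_div_cancel₀ _ hv, mul_one, mul_div_cancel₀ _ hv]

private theorem LcN_diff (F : TP) : Differentiable ℝ (fun p : ℝ × ℝ => val F p.1 1 p.2) := by
  unfold val
  simp only [MvPolynomial.eval_eq', Fin.prod_univ_three, Matrix.cons_val_zero,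
    Matrix.cons_val_one, Matrix.cons_val_two, Matrix.head_cons, Matrix.tail_cons]
  fun_prop

/-- the final sign consideration -/
private theorem LcN_fin (x ry rz sA S K₁ K₂ D₀ k₁ k₂ A₁ A₂ Q M : ℝ) (hry : 0 < ry) (hrz : 0 < rz)
    (hA₁ : K₁ = A₁ + x * k₁) (hA₂ : K₂ = A₂ + x * k₂) (hD : D₀ = ry * (sA * A₁) - rz * (S * A₂))
    (hDQ : |D₀| ≤ Q * |x|) (hQ : Q < (M - 1) * (ry + rz)) (h₁ : M - 1 < sA * k₁)
    (h₂ : M - 1 < -(S * k₂)) :
    (0 < x → rz * (S * K₂) < ry * (sA * K₁)) ∧ (x < 0 → ry * (sA * K₁) < rz * (S * K₂)) := by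
  have h3 : (M - 1) * ry < (sA * k₁) * ry := by
    exact mul_lt_mul_of_pos_right h₁ hry
  have h4 : (M - 1) * rz < (-(S * k₂)) * rz := mul_lt_mul_of_pos_right h₂ hrz
  have h5 : Q < (sA * k₁) * ry + (-(S * k₂)) * rz := by linarith
  have h6 := abs_le.1 hDQ
  have e : ry * (sA * K₁) - rz * (S * K₂) = D₀ + ((sA * k₁) * ry + (-(S * k₂)) * rz) * x := by
    rw [hA₁, hA₂, hD]; ring
  constructor
  · intro hx
    rw [abs_of_pos hx] at h6
    have h7 := mul_lt_mul_of_pos_right h5 hx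
    linarith [h6.1]
  · intro hx
    rw [abs_of_neg hx] at h6
    have h7 := mul_lt_mul_of_pos_right h5 (neg_pos.2 hx)
    linarith [h6.2]

theorem thm_LcN : St_LcN := by
  intro n R c c' α β e₀ κ₁ κ₂ v₀ sA sB δ C hR he h1 h2 hv0 hv1 hv2 hsA hsB hδ hN hk1 hk2
  set z₀ := v₀ 2 / v₀ 1 with hz₀d
  have hz₀ : z₀ < 0 := div_neg_of_neg_of_pos hv2 hv1
  set S : ℝ := (-1) ^ n * sB with hSd
  have hS : S = 1 ∨ S = -1 := by
    rcases neg_one_pow_eq_or ℝ n with h | h <;> rcases hsB with h' | h' <;>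
      rw [hSd, h, h'] <;> norm_num
  have hS2 : S * S = 1 := by rcases hS with h | h <;> rw [h] <;> norm_num
  have hsA2 : sA * sA = 1 := by rcases hsA with h | h <;> rw [h] <;> norm_num
  have hSabs : |S| = 1 := by rcases hS with h | h <;> rw [h] <;> norm_num
  have hsAabs : |sA| = 1 := by rcases hsA with h | h <;> rw [h] <;> norm_num
  -- the function G
  set G : ℝ × ℝ → ℝ := fun p => sA * val κ₁ p.1 1 p.2 - √(-p.2) * (S * val κ₂ p.1 1 p.2) with hGd
  have hGdiff : DifferentiableAt ℝ G ((0 : ℝ), z₀) := by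
    have hs : DifferentiableAt ℝ (fun p : ℝ × ℝ => √(-p.2)) ((0 : ℝ), z₀) := by
      refine DifferentiableAt.sqrt ?_ ?_
      · fun_prop
      · simpa using hz₀.ne
    exact (((LcN_diff κ₁) _).const_mul sA).sub (hs.mul (((LcN_diff κ₂) _).const_mul S))
  have hG0 : G ((0 : ℝ), z₀) = 0 := by
    simp only [hGd]
    rw [hk1, hk2]
    have e1 : sA * (sA * √(-z₀)) = √(-z₀) := by rw [← mul_assoc, hsA2, one_mul]
    rw [e1, hS2, mul_one, sub_self]
  obtain ⟨L, hL⟩ := hGdiff.isBigO_sub.bound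
  -- the chart
  have hP : Tendsto (fun v : Fin 3 → ℝ => (v 0 / v 1, v 2 / v 1)) (𝓝 v₀) (𝓝 ((0 : ℝ), z₀)) := by
    have hc : ContinuousAt (fun v : Fin 3 → ℝ => (v 0 / v 1, v 2 / v 1)) v₀ := by
      refine ContinuousAt.prodMk ?_ ?_
      · exact (continuous_apply 0).continuousAt.div (continuous_apply 1).continuousAt hv1.ne'
      · exact (continuous_apply 2).continuousAt.div (continuous_apply 1).continuousAt hv1.ne'
    have h := hc.tendsto
    simp only [hv0, zero_div] at h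
    exact h
  have hP1 : Tendsto (fun v : Fin 3 → ℝ => v 0 / v 1) (𝓝 v₀) (𝓝 (0 : ℝ)) :=
    (continuous_fst.tendsto ((0 : ℝ), z₀)).comp hP
  have hP2 : Tendsto (fun v : Fin 3 → ℝ => v 2 / v 1) (𝓝 v₀) (𝓝 z₀) :=
    (continuous_snd.tendsto ((0 : ℝ), z₀)).comp hP
  set Lp : ℝ := |L| * (1 + |C|) with hLp
  have hLp0 : 0 ≤ Lp := by positivity
  set B : (Fin 3 → ℝ) → ℝ := fun v => √(v 1) * v 1 ^ e₀ * Lp / v 1 with hB
  set Q : ℝ := B v₀ + 1 with hQ
  set m₀ : ℝ := √(v₀ 1) + √(-v₀ 2) with hm₀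
  have hm₀p : 0 < m₀ := by
    have : 0 < √(v₀ 1) := Real.sqrt_pos.2 hv1
    have : 0 ≤ √(-v₀ 2) := Real.sqrt_nonneg _
    rw [hm₀]; linarith
  have hB0 : 0 ≤ B v₀ := by
    rw [hB]; positivity
  have hQ0 : 0 < Q := by rw [hQ]; linarith
  set M : ℝ := 1 + 2 * (Q + 1) / m₀ with hM
  have hM1 : 0 < M - 1 := by
    rw [hM]; have : 0 < 2 * (Q + 1) / m₀ := by positivity
    linarith
  have hMm : (M - 1) * (m₀ / 2) = Q + 1 := by
    rw [hM]; field_simp; ring
  refine ⟨(sA * M, -(S * M)), 1, one_pos, ?_⟩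
  have c0 : Continuous (fun v : Fin 3 → ℝ => v 0) := continuous_apply 0
  have c1 : Continuous (fun v : Fin 3 → ℝ => v 1) := continuous_apply 1
  have c2 : Continuous (fun v : Fin 3 → ℝ => v 2) := continuous_apply 2
  have E1 : ∀ᶠ v in 𝓝 v₀, 0 < v 1 := c1.continuousAt.eventually (lt_mem_nhds hv1)
  have E2 : ∀ᶠ v in 𝓝 v₀, v 2 < 0 := c2.continuousAt.eventually (gt_mem_nhds hv2)
  have E3 : ∀ᶠ v in 𝓝 v₀, |v 0 / v 1| < δ := by
    have h := (hP1.abs).eventually (gt_mem_nhds (by rw [abs_zero]; exact hδ : |(0 : ℝ)| < δ))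
    exact h
  have E4 : ∀ᶠ v in 𝓝 v₀, |v 2 / v 1 - z₀| < δ := by
    have h := ((hP2.sub_const z₀).abs).eventually
      (gt_mem_nhds (by rw [sub_self, abs_zero]; exact hδ : |z₀ - z₀| < δ))
    exact h
  have E5 := hP.eventually hL
  have E6 : ∀ᶠ v in 𝓝 v₀, B v < Q := by
    have hBc : ContinuousAt B v₀ := by
      refine ContinuousAt.div ?_ c1.continuousAt hv1.ne'
      fun_prop
    exact hBc.eventually (gt_mem_nhds (by rw [hQ]; linarith))
  have E7 : ∀ᶠ v in 𝓝 v₀, m₀ / 2 < √(v 1) + √(-v 2) := by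
    have hc : Continuous (fun v : Fin 3 → ℝ => √(v 1) + √(-v 2)) := by fun_prop
    exact hc.continuousAt.eventually (lt_mem_nhds (by show m₀ / 2 < m₀; linarith))
  have E8 : ∀ᶠ v in 𝓝 v₀, 0 < S * eval v κ₂ - |v 0| * (M + 1) := by
    have hc : Continuous (fun v : Fin 3 → ℝ => S * eval v κ₂ - |v 0| * (M + 1)) :=
      (continuous_const.mul (MvPolynomial.continuous_eval κ₂)).sub (c0.abs.mul continuous_const)
    refine hc.continuousAt.eventually (lt_mem_nhds ?_)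
    show 0 < S * eval v₀ κ₂ - |v₀ 0| * (M + 1)
    rw [hv0, abs_zero, zero_mul, sub_zero, LcN_chart h2 v₀ hv1.ne', hv0, zero_div, ← hz₀d, hk2]
    have : S * (v₀ 1 ^ e₀ * S) = v₀ 1 ^ e₀ := by
      rw [mul_left_comm, hS2, mul_one]
    rw [this]; positivity
  have E9 : ∀ᶠ v in 𝓝 v₀, 0 < sA * eval v κ₁ - |v 0| * (M + 1) := by
    have hc : Continuous (fun v : Fin 3 → ℝ => sA * eval v κ₁ - |v 0| * (M + 1)) :=
      (continuous_const.mul (MvPolynomial.continuous_eval κ₁)).sub (c0.abs.mul continuous_const)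
    refine hc.continuousAt.eventually (lt_mem_nhds ?_)
    show 0 < sA * eval v₀ κ₁ - |v₀ 0| * (M + 1)
    rw [hv0, abs_zero, zero_mul, sub_zero, LcN_chart h1 v₀ hv1.ne', hv0, zero_div, ← hz₀d, hk1]
    have : sA * (v₀ 1 ^ e₀ * (sA * √(-z₀))) = v₀ 1 ^ e₀ * √(-z₀) := by
      rw [mul_left_comm, ← mul_assoc sA, hsA2, one_mul]
    rw [this]
    have : 0 < √(-z₀) := Real.sqrt_pos.2 (by linarith)
    positivity
  filter_upwards [E1, E2, E3, E4, E5, E6, E7, E8, E9] with v e1 e2 e3 e4 e5 e6 e7 e8 e9 hRv k' hk'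
  -- the curve
  have hcurve : val R (v 0 / v 1) 1 (v 2 / v 1) = 0 := by
    have h := LcN_chart hR v e1.ne'
    rw [hRv] at h
    rcases mul_eq_zero.1 h.symm with h | h
    · exact absurd h (pow_ne_zero _ e1.ne')
    · exact h
  obtain ⟨g1, g2, g3⟩ := hN _ _ e3 e4 hcurve
  have hk1' : |k'.1 - sA * M| < 1 := by
    have h := (max_lt_iff.1 (by rw [Prod.dist_eq] at hk'; exact hk')).1
    rwa [Real.dist_eq] at h
  have hk2' : |k'.2 - -(S * M)| < 1 := by
    have h := (max_lt_iff.1 (by rw [Prod.dist_eq] at hk'; exact hk')).2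
    rwa [Real.dist_eq] at h
  have hka : M - 1 < sA * k'.1 := by
    have h : |sA * k'.1 - M| < 1 := by
      have e : sA * k'.1 - M = sA * (k'.1 - sA * M) := by
        rw [mul_sub, ← mul_assoc, hsA2, one_mul]
      rw [e, abs_mul, hsAabs, one_mul]; exact hk1'
    have := (abs_lt.1 h).1
    linarith
  have hkb : M - 1 < -(S * k'.2) := by
    have h : |S * k'.2 + M| < 1 := by
      have e : S * k'.2 + M = S * (k'.2 - -(S * M)) := by
        rw [sub_neg_eq_add, mul_add, ← mul_assoc, hS2, one_mul]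
      rw [e, abs_mul, hSabs, one_mul]; exact hk2'
    have := (abs_lt.1 h).2
    linarith
  have hkA : |k'.1| < M + 1 := by
    have h := abs_sub_abs_le_abs_sub k'.1 (sA * M)
    rw [abs_mul, hsAabs, one_mul, abs_of_pos (by linarith : (0 : ℝ) < M)] at h
    linarith
  have hkB : |k'.2| < M + 1 := by
    have h := abs_sub_abs_le_abs_sub k'.2 (-(S * M))
    rw [abs_neg, abs_mul, hSabs, one_mul, abs_of_pos (by linarith : (0 : ℝ) < M)] at h
    linarith
  -- signs of K₁, K₂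
  have p1 : 0 < sA * (eval v κ₁ + v 0 * k'.1) := by
    have h : |sA * (v 0 * k'.1)| ≤ |v 0| * (M + 1) := by
      rw [abs_mul, hsAabs, one_mul, abs_mul]
      exact mul_le_mul_of_nonneg_left hkA.le (abs_nonneg _)
    have := (abs_le.1 h).1
    rw [mul_add]; linarith
  have p2 : 0 < S * (eval v κ₂ + v 0 * k'.2) := by
    have h : |S * (v 0 * k'.2)| ≤ |v 0| * (M + 1) := by
      rw [abs_mul, hSabs, one_mul, abs_mul]
      exact mul_le_mul_of_nonneg_left hkB.le (abs_nonneg _)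
    have := (abs_le.1 h).1
    rw [mul_add]; linarith
  have q1 : |eval v κ₁ + v 0 * k'.1| = sA * (eval v κ₁ + v 0 * k'.1) := by
    rw [← abs_of_pos p1, abs_mul, hsAabs, one_mul]
  have q2 : |eval v κ₂ + v 0 * k'.2| = S * (eval v κ₂ + v 0 * k'.2) := by
    rw [← abs_of_pos p2, abs_mul, hSabs, one_mul]
  -- the bound for D₀
  have hry : 0 < √(v 1) := Real.sqrt_pos.2 e1
  have hrz : 0 < √(-v 2) := Real.sqrt_pos.2 (by linarith)
  have hrzy : √(-v 2) = √(v 1) * √(-(v 2 / v 1)) := by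
    rw [← Real.sqrt_mul e1.le]
    congr 1
    field_simp
  have hD0 : √(v 1) * (sA * eval v κ₁) - √(-v 2) * (S * eval v κ₂)
      = √(v 1) * v 1 ^ e₀ * G (v 0 / v 1, v 2 / v 1) := by
    rw [hrzy, LcN_chart h1 v e1.ne', LcN_chart h2 v e1.ne']
    simp only [hGd]
    ring
  have hGb : |G (v 0 / v 1, v 2 / v 1)| ≤ Lp * |v 0 / v 1| := by
    have e5' : |G (v 0 / v 1, v 2 / v 1)| ≤ L * ‖((v 0 / v 1, v 2 / v 1) : ℝ × ℝ) - (0, z₀)‖ := by
      have h := e5
      rw [hG0, sub_zero, Real.norm_eq_abs] at h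
      exact h
    have hn : ‖((v 0 / v 1, v 2 / v 1) : ℝ × ℝ) - (0, z₀)‖ ≤ (1 + |C|) * |v 0 / v 1| := by
      rw [Prod.norm_def]
      simp only [Prod.fst_sub, Prod.snd_sub, sub_zero, Real.norm_eq_abs]
      have h0 : 0 ≤ |v 0 / v 1| := abs_nonneg _
      have h3 : C * |v 0 / v 1| ≤ |C| * |v 0 / v 1| :=
        mul_le_mul_of_nonneg_right (le_abs_self C) h0
      have h4 : 0 ≤ |C| * |v 0 / v 1| := mul_nonneg (abs_nonneg _) h0
      rw [add_mul, one_mul]
      refine max_le ?_ ?_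
      · linarith
      · linarith
    calc |G (v 0 / v 1, v 2 / v 1)| ≤ L * ‖((v 0 / v 1, v 2 / v 1) : ℝ × ℝ) - (0, z₀)‖ := e5'
      _ ≤ |L| * ‖((v 0 / v 1, v 2 / v 1) : ℝ × ℝ) - (0, z₀)‖ :=
        mul_le_mul_of_nonneg_right (le_abs_self L) (norm_nonneg _)
      _ ≤ |L| * ((1 + |C|) * |v 0 / v 1|) := mul_le_mul_of_nonneg_left hn (abs_nonneg _)
      _ = Lp * |v 0 / v 1| := by rw [hLp]; ring
  have hDQ : |√(v 1) * (sA * eval v κ₁) - √(-v 2) * (S * eval v κ₂)| ≤ Q * |v 0| := by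
    rw [hD0, abs_mul, abs_of_pos (by positivity : 0 < √(v 1) * v 1 ^ e₀)]
    calc √(v 1) * v 1 ^ e₀ * |G (v 0 / v 1, v 2 / v 1)|
        ≤ √(v 1) * v 1 ^ e₀ * (Lp * |v 0 / v 1|) :=
          mul_le_mul_of_nonneg_left hGb (by positivity)
      _ = B v * |v 0| := by
          rw [hB, abs_div, abs_of_pos e1]; field_simp
      _ ≤ Q * |v 0| := mul_le_mul_of_nonneg_right e6.le (abs_nonneg _)
  have hQM : Q < (M - 1) * (√(v 1) + √(-v 2)) := by
    have h := mul_lt_mul_of_pos_left e7 hM1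
    rw [hMm] at h
    linarith
  obtain ⟨f1, f2⟩ := LcN_fin (v 0) (√(v 1)) (√(-v 2)) sA S _ _ _ k'.1 k'.2 (eval v κ₁) (eval v κ₂)
    Q M hry hrz rfl rfl rfl hDQ hQM hka hkb
  have hab1 : |v 1| = v 1 := abs_of_pos e1
  have hab2 : |v 2| = -v 2 := abs_of_neg e2
  refine ⟨fun _ h => absurd h (not_le.2 e2), fun h _ => absurd h (not_le.2 e1), ?_, ?_⟩
  · intro hx _
    have hx0 : 0 < v 0 := by
      rcases pos_and_pos_or_neg_and_neg_of_mul_pos hx with h | h
      · exact h.1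
      · exact absurd h.2 (not_lt.2 e1.le)
    have hc := g2 (div_pos hx0 e1)
    show √|v 2| * |eval v κ₂ + v 0 * k'.2|
      < √|v 1| * (c (v 0 / v 1) (v 2 / v 1) * (eval v κ₁ + v 0 * k'.1))
    rw [hc, hab1, hab2, q2]
    exact f1 hx0
  · intro hx _
    have hx0 : v 0 < 0 := by
      rcases pos_and_pos_or_neg_and_neg_of_mul_pos hx with h | h
      · exact absurd h.2 (not_lt.2 e2.le)
      · exact h.1
    have hc := g3 (div_neg_of_neg_of_pos hx0 e1)
    have t1 : v 0 / v 1 / (v 2 / v 1) = v 0 / v 2 := by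
      have := e2.ne
      have := e1.ne'
      field_simp
    have t2 : 1 / (v 2 / v 1) = v 1 / v 2 := by
      rw [one_div_div]
    rw [t1, t2] at hc
    show √|v 1| * |eval v κ₁ + v 0 * k'.1|
      < √|v 2| * ((-1) ^ n * c' (v 0 / v 2) (v 1 / v 2) * (eval v κ₂ + v 0 * k'.2))
    rw [hc, hab1, hab2, q1, ← hSd]
    exact f2 hx0

end Pool.Agent.RSV
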