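import Pool.Agent.RSV.StE

/-!
# RSV, module Lim (helper89): limits for `y → ∞`
-/

set_option autoImplicit false

namespace Pool.Agent.RSV

open Filter Topology Module
open scoped ComplexConjugate

/-- homogeneity -/
private theorem Lim_hom {d : ℕ} (P : TP) (hP : P.IsHomogeneous d) (c x y z : ℝ) :
    val P (c * x) (c * y) (c * z) = c ^ d * val P x y z := by
  unfold val
  have e : (![c * x, c * y, c * z] : Fin 3 → ℝ) = fun i => c * (![x, y, z] : Fin 3 → ℝ) i := by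
    ext i
    fin_cases i <;> simp
  rw [e, MvPolynomial.eval_eq', MvPolynomial.eval_eq', Finset.mul_sum]
  refine Finset.sum_congr rfl fun m hm => ?_
  have h1 : ∑ i, m i = d := by
    have h2 := hP (MvPolynomial.mem_support_iff.mp hm)
    rw [← h2, Finsupp.weight_apply, Finsupp.sum_fintype _ _ (by simp)]
    simp
  simp only [mul_pow, Finset.prod_mul_distrib, Finset.prod_pow_eq_pow_sum, h1]
  ring

variable {n : ℕ} {R : TP} {x : Fin n → ℝ → ℝ → ℝ}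

private theorem Lim_sc (hx : Rts n R x) (k : Fin n) {y : ℝ} (hy : 0 < y) :
    x k 1 (y ^ 2) = y ^ 2 * x k ((y ^ 2)⁻¹) 1 := by
  have hy2 : y ^ 2 ≠ 0 := by positivity
  have h := hx.hom ((y ^ 2)⁻¹) 1 (y ^ 2) (by positivity) zero_le_one (Or.inr one_ne_zero)
    (by positivity) k
  rw [mul_inv_cancel₀ hy2, mul_one] at h
  exact h

private theorem Lim_tp : Tendsto (fun y : ℝ => (y ^ 2)⁻¹) atTop (𝓝 0) :=
  tendsto_inv_atTop_zero.comp (tendsto_pow_atTop two_ne_zero)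

private theorem Lim_x (hx : Rts n R x) (k : Fin n) :
    Tendsto (fun y : ℝ => x k ((y ^ 2)⁻¹) 1) atTop (𝓝 (x k 0 1)) := by
  have h1 := hx.cont k (0, 1) ⟨le_refl _, zero_le_one, Or.inr one_ne_zero⟩
  have h2 : Tendsto (fun y : ℝ => ((y ^ 2)⁻¹, (1 : ℝ))) atTop
      (𝓝[{p : ℝ × ℝ | 0 ≤ p.1 ∧ 0 ≤ p.2 ∧ (p.1 ≠ 0 ∨ p.2 ≠ 0)}] (0, 1)) := by
    refine tendsto_nhdsWithin_iff.2 ⟨Lim_tp.prodMk_nhds tendsto_const_nhds, ?_⟩
    exact Eventually.of_forall fun y => ⟨inv_nonneg.2 (sq_nonneg y), zero_le_one,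
      Or.inr one_ne_zero⟩
  exact Tendsto.comp h1 h2

private theorem Lim_val (hx : Rts n R x) (P : TP) (k : Fin n) :
    Tendsto (fun y : ℝ => val P (x k ((y ^ 2)⁻¹) 1) ((y ^ 2)⁻¹) 1) atTop
      (𝓝 (val P (x k 0 1) 0 1)) := by
  have h : Tendsto (fun y : ℝ => (![x k ((y ^ 2)⁻¹) 1, (y ^ 2)⁻¹, 1] : Fin 3 → ℝ)) atTop
      (𝓝 ![x k 0 1, 0, 1]) := by
    rw [tendsto_pi_nhds]
    intro i
    fin_cases i
    · exact Lim_x hx k
    · exact Lim_tp
    · exact tendsto_const_nhds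
  exact ((MvPolynomial.continuous_eval P).tendsto _).comp h

private theorem Lim_vsc (hx : Rts n R x) {d : ℕ} (P : TP) (hP : P.IsHomogeneous d) (k : Fin n)
    {y : ℝ} (hy : 0 < y) : val P (x k 1 (y ^ 2)) 1 (y ^ 2) =
      (y ^ 2) ^ d * val P (x k ((y ^ 2)⁻¹) 1) ((y ^ 2)⁻¹) 1 := by
  have hy2 : y ^ 2 ≠ 0 := by positivity
  have h := Lim_hom P hP (y ^ 2) (x k ((y ^ 2)⁻¹) 1) ((y ^ 2)⁻¹) 1
  rw [mul_inv_cancel₀ hy2, mul_one, ← Lim_sc hx k hy] at h
  exact h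

/-! ### Part 1 -/

private theorem Lim_pow (i D : ℕ) (hi : i ≤ D) :
    Tendsto (fun y : ℝ => (y : ℂ) ^ i / (y : ℂ) ^ D) atTop (𝓝 (if i = D then 1 else 0)) := by
  split_ifs with h
  · subst h
    refine tendsto_const_nhds.congr' ?_
    filter_upwards [eventually_gt_atTop 0] with y hy
    have hy' : (y : ℂ) ≠ 0 := by exact_mod_cast hy.ne'
    rw [div_self (pow_ne_zero _ hy')]
  · have h2 := tendsto_pow_div_pow_atTop_zero (𝕜 := ℝ) (lt_of_le_of_ne hi h)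
    have h3 := (Complex.continuous_ofReal.tendsto 0).comp h2
    rw [Complex.ofReal_zero] at h3
    refine h3.congr fun y => ?_
    simp

private theorem Lim_q (σ : ℂ) (D : ℕ) (q : Polynomial ℂ) (hq : q.natDegree ≤ D) :
    Tendsto (fun y : ℝ => q.eval (σ * (y : ℂ)) / (y : ℂ) ^ D) atTop
      (𝓝 (σ ^ D * q.coeff D)) := by
  have h1 : ∀ y : ℝ, ∑ i ∈ Finset.range (D + 1), q.coeff i * σ ^ i * ((y : ℂ) ^ i / (y : ℂ) ^ D) =
      q.eval (σ * (y : ℂ)) / (y : ℂ) ^ D := by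
    intro y
    rw [Polynomial.eval_eq_sum_range' (Nat.lt_succ_of_le hq), Finset.sum_div]
    refine Finset.sum_congr rfl fun i _ => ?_
    rw [mul_pow]
    ring
  have h2 : Tendsto (fun y : ℝ => ∑ i ∈ Finset.range (D + 1),
      q.coeff i * σ ^ i * ((y : ℂ) ^ i / (y : ℂ) ^ D)) atTop
      (𝓝 (∑ i ∈ Finset.range (D + 1), q.coeff i * σ ^ i * (if i = D then 1 else 0))) :=
    tendsto_finsetSum _ fun i hi =>
      (Lim_pow i D (Nat.lt_succ_iff.1 (Finset.mem_range.1 hi))).const_mul _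
  have h3 : ∑ i ∈ Finset.range (D + 1), q.coeff i * σ ^ i * (if i = D then 1 else 0) =
      σ ^ D * q.coeff D := by
    rw [Finset.sum_eq_single D]
    · rw [if_pos rfl, mul_one, mul_comm]
    · intro i _ hi
      rw [if_neg hi, mul_zero]
    · intro h
      exact absurd (Finset.mem_range.2 (Nat.lt_succ_self D)) h
  rw [h3] at h2
  exact h2.congr h1

private theorem Lim_evc (f : BC) (u v : ℂ) :
    evc f u v = ∑ j ∈ f.support, (f.coeff j).eval v * u ^ j := by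
  unfold evc
  rw [Polynomial.eval_map, Polynomial.eval₂_eq_sum, Polynomial.sum]
  rfl

private theorem Lim_one (hx : Rts n R x) (M : ℕ) (f : BC) (hf : WD 2 f M) (k : Fin n) (σ : ℂ) :
    Tendsto (fun y : ℝ => evc f (x k 1 (y ^ 2) : ℝ) (σ * y) / y ^ M) atTop
      (𝓝 (∑ j ∈ f.support, σ ^ (M - 2 * j) * (f.coeff j).coeff (M - 2 * j) *
        ((x k 0 1 : ℝ) : ℂ) ^ j)) := by
  have h1 : Tendsto (fun y : ℝ => ∑ j ∈ f.support, (f.coeff j).eval (σ * y) / (y : ℂ) ^ (M - 2 * j) *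
      ((x k ((y ^ 2)⁻¹) 1 : ℝ) : ℂ) ^ j) atTop
      (𝓝 (∑ j ∈ f.support, σ ^ (M - 2 * j) * (f.coeff j).coeff (M - 2 * j) *
        ((x k 0 1 : ℝ) : ℂ) ^ j)) := by
    refine tendsto_finsetSum _ fun j hj => ?_
    have hd := hf j (Polynomial.mem_support_iff.1 hj)
    exact (Lim_q σ _ _ (by omega)).mul
      (((Complex.continuous_ofReal.tendsto _).comp (Lim_x hx k)).pow j)
  refine h1.congr' ?_
  filter_upwards [eventually_gt_atTop 0] with y hy
  rw [Lim_evc, Finset.sum_div]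
  refine Finset.sum_congr rfl fun j hj => ?_
  have hd := hf j (Polynomial.mem_support_iff.1 hj)
  have hy' : (y : ℂ) ≠ 0 := by exact_mod_cast hy.ne'
  have hM : (y : ℂ) ^ M = (y : ℂ) ^ (M - 2 * j) * ((y : ℂ) ^ 2) ^ j := by
    rw [← pow_mul, ← pow_add]
    congr 1
    omega
  have h2 : ((y : ℂ) ^ 2) ^ j ≠ 0 := pow_ne_zero _ (pow_ne_zero _ hy')
  have h3 : (y : ℂ) ^ (M - 2 * j) ≠ 0 := pow_ne_zero _ hy'
  rw [Lim_sc hx k hy, hM, Complex.ofReal_mul, Complex.ofReal_pow, mul_pow]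
  field_simp

theorem thm_Lim : St_Lim := by
  intro n R a b s hn hR x hx
  refine ⟨?_, ?_, ?_⟩
  · intro M f hf
    refine ⟨fun k => ∑ j ∈ f.support, (f.coeff j).coeff (M - 2 * j) * ((x k 0 1 : ℝ) : ℂ) ^ j,
      fun k => ⟨?_, ?_⟩⟩
    · have h := Lim_one hx M f hf k 1
      simp only [one_pow, one_mul] at h
      exact h
    · have h := Lim_one hx M f hf k (-1)
      have e : ∑ j ∈ f.support, (-1 : ℂ) ^ (M - 2 * j) * (f.coeff j).coeff (M - 2 * j) *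
          ((x k 0 1 : ℝ) : ℂ) ^ j =
          (-1) ^ M * ∑ j ∈ f.support, (f.coeff j).coeff (M - 2 * j) * ((x k 0 1 : ℝ) : ℂ) ^ j := by
        rw [Finset.mul_sum]
        refine Finset.sum_congr rfl fun j hj => ?_
        have hd := hf j (Polynomial.mem_support_iff.1 hj)
        have e1 : (-1 : ℂ) ^ M = (-1) ^ (M - 2 * j) := by
          have e2 : M = (M - 2 * j) + 2 * j := by omega
          conv_lhs => rw [e2]
          rw [pow_add, pow_mul, neg_one_sq, one_pow, mul_one]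
        rw [e1, mul_assoc]
      rw [e] at h
      refine h.congr fun y => ?_
      rw [neg_one_mul]
  · intro m G hG hpos k
    refine ⟨(val (MvPolynomial.pderiv 0 R) (x k 0 1) 0 1 * val G (x k 0 1) 0 1)⁻¹,
      inv_pos.2 (hpos k), ?_⟩
    have h1 := ((Lim_val hx (MvPolynomial.pderiv 0 R) k).mul (Lim_val hx G k)).inv₀ (hpos k).ne'
    refine h1.congr' ?_
    filter_upwards [eventually_gt_atTop 0] with y hy
    rw [Lim_vsc hx _ (hR.hom.pderiv) k hy, Lim_vsc hx G hG k hy]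
    have hy' : y ≠ 0 := hy.ne'
    have e : y ^ (2 * (m + n - 1)) = (y ^ 2) ^ (n - 1) * (y ^ 2) ^ m := by
      rw [← pow_mul, ← pow_mul, ← pow_add]
      congr 1
      omega
    rw [e]
    have h2 : (y ^ 2) ^ (n - 1) * (y ^ 2) ^ m ≠ 0 := by positivity
    generalize val (MvPolynomial.pderiv 0 R) (x k ((y ^ 2)⁻¹) 1) ((y ^ 2)⁻¹) 1 = A
    generalize val G (x k ((y ^ 2)⁻¹) 1) ((y ^ 2)⁻¹) 1 = B
    rw [show (y ^ 2) ^ (n - 1) * A * ((y ^ 2) ^ m * B) =
      ((y ^ 2) ^ (n - 1) * (y ^ 2) ^ m) * (A * B) by ring, div_mul_eq_div_div, div_self h2,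
      one_div]
  · intro d α β ζ hN
    have h0 : ∀ k, ∃ i, x k 0 1 = b i ^ 2 := by
      intro k
      have h1 := hx.prod 0 1 le_rfl zero_le_one (Or.inr one_ne_zero) (x k 0 1)
      rw [Finset.prod_eq_zero (Finset.mem_univ k) (sub_self _), hR.rb] at h1
      obtain ⟨i, _, hi⟩ := Finset.prod_eq_zero_iff.1 h1
      exact ⟨i, by linarith⟩
    choose j hj using h0
    refine ⟨j, ?_, fun k => ⟨hj k, ?_⟩⟩
    · intro k k' h
      have h1 : x k 0 1 = x k' 0 1 := by rw [hj k, hj k', h]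
      exact (hx.mono 0 1 le_rfl zero_le_one (Or.inr one_ne_zero)).injective h1
    · have hζ0 : 0 < val ζ 0 0 1 := hN.pos 0 1 le_rfl zero_le_one (Or.inr one_ne_zero)
      have hζk : val ζ (x k 0 1) 0 1 = val ζ 0 0 1 := hN.ζx _ _ _
      have hβk : val β (x k 0 1) 0 1 = (-1) ^ n * b (j k) * val ζ 0 0 1 := by
        rw [hj k]
        exact hN.sb (j k)
      have cr : ∀ (P : TP), Tendsto (fun y : ℝ =>
          ((val P (x k ((y ^ 2)⁻¹) 1) ((y ^ 2)⁻¹) 1 : ℝ) : ℂ)) atTop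
          (𝓝 ((val P (x k 0 1) 0 1 : ℝ) : ℂ)) := fun P =>
        (Complex.continuous_ofReal.tendsto _).comp (Lim_val hx P k)
      have hζc : ((val ζ (x k 0 1) 0 1 : ℝ) : ℂ) ≠ 0 := by
        rw [hζk]
        exact_mod_cast hζ0.ne'
      have hinv : Tendsto (fun y : ℝ => ((y⁻¹ : ℝ) : ℂ)) atTop (𝓝 0) := by
        have := (Complex.continuous_ofReal.tendsto 0).comp (tendsto_inv_atTop_zero (𝕜 := ℝ))
        rwa [Complex.ofReal_zero] at this
      have h1 := ((((cr α).div (cr ζ) hζc).mul hinv).const_mul (-Complex.I)).add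
        ((cr β).div (cr ζ) hζc)
      have e : -Complex.I * (((val α (x k 0 1) 0 1 : ℝ) : ℂ) / ((val ζ (x k 0 1) 0 1 : ℝ) : ℂ) * 0) +
          ((val β (x k 0 1) 0 1 : ℝ) : ℂ) / ((val ζ (x k 0 1) 0 1 : ℝ) : ℂ) =
          (-1) ^ n * (b (j k) : ℂ) := by
        rw [mul_zero, mul_zero, zero_add, hβk, hζk]
        rw [hζk] at hζc
        push_cast
        rw [mul_div_assoc, div_self hζc, mul_one]
      rw [e] at h1
      have hev : ∀ᶠ y : ℝ in atTop, val ζ (x k ((y ^ 2)⁻¹) 1) ((y ^ 2)⁻¹) 1 ≠ 0 :=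
        (Lim_val hx ζ k).eventually_ne (by rw [hζk]; exact hζ0.ne')
      refine h1.congr' ?_
      filter_upwards [eventually_gt_atTop 0, hev] with y hy hy2
      simp only [Pi.div_apply]
      rw [Lim_vsc hx α hN.hα k hy, Lim_vsc hx β hN.hβ k hy, Lim_vsc hx ζ hN.hζ k hy]
      have hy' : (y : ℂ) ≠ 0 := by exact_mod_cast hy.ne'
      have hy3 : ((val ζ (x k ((y ^ 2)⁻¹) 1) ((y ^ 2)⁻¹) 1 : ℝ) : ℂ) ≠ 0 := by exact_mod_cast hy2
      generalize val α (x k ((y ^ 2)⁻¹) 1) ((y ^ 2)⁻¹) 1 = A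
      generalize val β (x k ((y ^ 2)⁻¹) 1) ((y ^ 2)⁻¹) 1 = B
      generalize val ζ (x k ((y ^ 2)⁻¹) 1) ((y ^ 2)⁻¹) 1 = Z at hy3
      push_cast
      have hI : Complex.I ≠ 0 := Complex.I_ne_zero
      have hp : ((y : ℂ) ^ 2) ^ d ≠ 0 := pow_ne_zero _ (pow_ne_zero _ hy')
      generalize ((y : ℂ) ^ 2) ^ d = W at hp
      field_simp
      ring_nf
      rw [Complex.I_sq]
      ring

end Pool.Agent.RSV
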