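import Pool.Agent.RSV.StA

/-!
# RSV Mon: the charts are monic (MP_08a990_an)
-/

set_option autoImplicit false

namespace Pool.Agent.RSV

open MvPolynomial Module
open scoped ComplexConjugate

private theorem Mon_evr (F : TP) (x z : ℝ) : evr (ch F) x z = val F x 1 z := by
  unfold evr ch val
  induction F using MvPolynomial.induction_on with
  | C r => simp
  | add p q hp hq => simp only [map_add, Polynomial.map_add, Polynomial.eval_add, hp, hq]
  | mul_X p i hp =>
    rw [map_mul, map_mul, Polynomial.map_mul, Polynomial.eval_mul, hp]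
    fin_cases i <;> simp

private theorem Mon_evc (F : TP) (x y : ℂ) : evc (chc F) x y = aeval ![x, 1, y ^ 2] F := by
  unfold evc chc
  induction F using MvPolynomial.induction_on with
  | C r => simp
  | add p q hp hq =>
    rw [eval₂_add, map_add, Polynomial.map_add, Polynomial.eval_add, hp, hq]
  | mul_X p i hp =>
    rw [eval₂_mul, map_mul, Polynomial.map_mul, Polynomial.eval_mul, hp]
    fin_cases i <;> simp

private theorem Mon_deg {n : ℕ} {R : TP} (hR : R.IsHomogeneous n) (d : Fin 3 →₀ ℕ)
    (hd : d ∈ R.support) : d 0 + d 1 + d 2 = n := by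
  by_contra hne
  have h0 : d.degree ≠ n := by
    rw [Finsupp.degree_eq_sum, Fin.sum_univ_three]
    exact hne
  exact (MvPolynomial.mem_support_iff.mp hd) (hR.coeff_eq_zero h0)

private theorem Mon_term {A : Type} [CommRing A] (y z c : A) (a b e : ℕ) :
    (Polynomial.C c * (Polynomial.X ^ a * Polynomial.C y ^ b * Polynomial.C z ^ e) :
      Polynomial A) = Polynomial.C (c * (y ^ b * z ^ e)) * Polynomial.X ^ a := by
  simp only [map_mul, map_pow]
  ring

private theorem Mon_sum {A : Type} [CommRing A] (g : ℝ →+* A) (y z : A) (R : TP) :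
    eval₂ ((Polynomial.C).comp g) ![Polynomial.X, Polynomial.C y, Polynomial.C z] R
      = ∑ d ∈ R.support, Polynomial.C (g (coeff d R) * (y ^ d 1 * z ^ d 2)) *
          Polynomial.X ^ d 0 := by
  rw [MvPolynomial.eval₂_eq']
  refine Finset.sum_congr rfl fun d _ => ?_
  rw [Fin.prod_univ_three]
  exact Mon_term y z (g (coeff d R)) (d 0) (d 1) (d 2)

private theorem Mon_coeff {A : Type} [CommRing A] (g : ℝ →+* A) (y z : A) {n : ℕ} {R : TP}
    (hR : R.IsHomogeneous n) :
    (eval₂ ((Polynomial.C).comp g) ![Polynomial.X, Polynomial.C y, Polynomial.C z] R).coeff n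
      = g (coeff (Finsupp.single 0 n) R) := by
  rw [Mon_sum, Polynomial.finsetSum_coeff]
  simp only [Polynomial.coeff_C_mul_X_pow]
  rw [Finset.sum_eq_single (Finsupp.single (0 : Fin 3) n)]
  · simp
  · intro d hd hne
    rw [if_neg]
    intro h
    have h1 := Mon_deg hR d hd
    apply hne
    ext i
    fin_cases i
    · simpa using h.symm
    · have : d 1 = 0 := by omega
      simpa using this
    · have : d 2 = 0 := by omega
      simpa using this
  · intro h
    rw [MvPolynomial.notMem_support_iff.mp h]
    simp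

private theorem Mon_WD {k : Type} [CommRing k] (w : ℕ) (h : ℝ →+* k) (y z : Polynomial k)
    (hy : y.natDegree ≤ w) (hz : z.natDegree ≤ w) {n : ℕ} {R : TP} (hR : R.IsHomogeneous n) :
    WD w (eval₂ ((Polynomial.C).comp ((Polynomial.C).comp h))
      ![Polynomial.X, Polynomial.C y, Polynomial.C z] R) (w * n) := by
  intro j hj
  have hle : j ≤ n := by
    by_contra hlt
    apply hj
    rw [Mon_sum, Polynomial.finsetSum_coeff]
    refine Finset.sum_eq_zero fun d hd => ?_
    rw [Polynomial.coeff_C_mul_X_pow, if_neg]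
    have := Mon_deg hR d hd
    omega
  have hdeg : ((eval₂ ((Polynomial.C).comp ((Polynomial.C).comp h))
      ![Polynomial.X, Polynomial.C y, Polynomial.C z] R).coeff j).natDegree ≤ w * (n - j) := by
    rw [Mon_sum, Polynomial.finsetSum_coeff]
    refine Polynomial.natDegree_sum_le_of_forall_le _ _ fun d hd => ?_
    rw [Polynomial.coeff_C_mul_X_pow]
    split_ifs with hjd
    · have h1 := Mon_deg hR d hd
      have e1 : (((Polynomial.C).comp h) (coeff d R)).natDegree = 0 := by
        rw [RingHom.comp_apply, Polynomial.natDegree_C]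
      have e2 : (y ^ d 1).natDegree ≤ d 1 * w :=
        (Polynomial.natDegree_pow_le).trans (Nat.mul_le_mul_left _ hy)
      have e3 : (z ^ d 2).natDegree ≤ d 2 * w :=
        (Polynomial.natDegree_pow_le).trans (Nat.mul_le_mul_left _ hz)
      have e4 : (y ^ d 1 * z ^ d 2).natDegree ≤ d 1 * w + d 2 * w :=
        (Polynomial.natDegree_mul_le).trans (Nat.add_le_add e2 e3)
      have e5 := Polynomial.natDegree_mul_le (p := ((Polynomial.C).comp h) (coeff d R))
        (q := y ^ d 1 * z ^ d 2)
      have e6 : n - j = d 1 + d 2 := by omega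
      rw [e6]
      calc _ ≤ _ := e5
        _ ≤ 0 + (d 1 * w + d 2 * w) := Nat.add_le_add e1.le e4
        _ = w * (d 1 + d 2) := by ring
    · simp
  calc _ ≤ w * (n - j) + w * j := Nat.add_le_add_right hdeg _
    _ = w * n := by rw [← Nat.mul_add, Nat.sub_add_cancel hle]

private theorem Mon_le {k : Type} [CommRing k] {w c n : ℕ} (hw : 0 < w)
    {f : Polynomial (Polynomial k)} (hf : WD w f c) (hc : c = w * n) : f.natDegree ≤ n := by
  rw [Polynomial.natDegree_le_iff_coeff_eq_zero]
  intro N hN
  by_contra hne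
  have h1 := hf N hne
  subst hc
  have h2 : w * N ≤ w * n := by omega
  exact absurd (Nat.le_of_mul_le_mul_left h2 hw) (by omega)

private theorem Mon_one {n : ℕ} {R : TP} {a b s : Fin n → ℝ} (hg : Good R a b s) :
    coeff (Finsupp.single 0 n) R = 1 := by
  have h0 := Mon_coeff (RingHom.id ℝ) 1 0 hg.hom
  rw [RingHom.id_apply] at h0
  rw [← h0]
  have h1 : eval₂ ((Polynomial.C).comp (RingHom.id ℝ))
      ![Polynomial.X, Polynomial.C 1, Polynomial.C 0] R
      = ∏ i, (Polynomial.X - Polynomial.C (a i ^ 2)) := by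
    apply Polynomial.funext
    intro t
    rw [Polynomial.eval_prod]
    simp only [Polynomial.eval_sub, Polynomial.eval_X, Polynomial.eval_C]
    rw [← hg.ra t]
    unfold val
    generalize R = F
    induction F using MvPolynomial.induction_on with
    | C r => simp
    | add p q hp hq => rw [eval₂_add, Polynomial.eval_add, map_add, hp, hq]
    | mul_X p i hp =>
      rw [eval₂_mul, Polynomial.eval_mul, map_mul, hp]
      fin_cases i <;> simp
  rw [h1]
  have h2 : (∏ i, (Polynomial.X - Polynomial.C (a i ^ 2))).Monic :=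
    Polynomial.monic_prod_of_monic _ _ fun i _ => Polynomial.monic_X_sub_C _
  have h3 : (∏ i, (Polynomial.X - Polynomial.C (a i ^ 2))).natDegree = n := by
    rw [Polynomial.natDegree_prod_of_monic _ _ fun i _ => Polynomial.monic_X_sub_C _]
    simp only [Polynomial.natDegree_X_sub_C, Finset.sum_const, Finset.card_univ,
      Fintype.card_fin, smul_eq_mul, mul_one]
  have h4 := h2.coeff_natDegree
  rwa [h3] at h4

private theorem Mon_all {k : Type} [CommRing k] [Nontrivial k] (w : ℕ) (hw : 0 < w)
    (h : ℝ →+* k) (y z : Polynomial k)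
    (hy : y.natDegree ≤ w) (hz : z.natDegree ≤ w) {n : ℕ} {R : TP} (hR : R.IsHomogeneous n)
    (h1 : coeff (Finsupp.single 0 n) R = 1) (f : Polynomial (Polynomial k))
    (hf : f = eval₂ ((Polynomial.C).comp ((Polynomial.C).comp h))
      ![Polynomial.X, Polynomial.C y, Polynomial.C z] R) :
    f.Monic ∧ f.natDegree = n ∧ WD w f (w * n) := by
  have hW : WD w f (w * n) := by
    rw [hf]
    exact Mon_WD w h y z hy hz hR
  have hle := Mon_le hw hW rfl
  have hc : f.coeff n = 1 := by
    rw [hf, Mon_coeff ((Polynomial.C).comp h) y z hR, h1, map_one]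
  have hm : f.Monic := Polynomial.monic_of_natDegree_le_of_coeff_eq_one n hle hc
  refine ⟨hm, le_antisymm hle ?_, hW⟩
  apply Polynomial.le_natDegree_of_ne_zero
  rw [hc]
  exact one_ne_zero

theorem thm_Mon : St_Mon := by
  intro n R a b s _ hg
  have h1 := Mon_one hg
  have hA := Mon_all (k := ℝ) 1 one_pos (RingHom.id ℝ) 1 Polynomial.X (by simp) (by simp) hg.hom
    h1 (ch R) (by
      unfold ch
      rw [MvPolynomial.aeval_def, RingHom.comp_id, Polynomial.C_1]
      rfl)
  rw [one_mul] at hA
  have hC := Mon_all (k := ℂ) 2 two_pos (algebraMap ℝ ℂ) 1 (Polynomial.X ^ 2) (by simp)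
    (by simp) hg.hom h1 (chc R) (by
      unfold chc
      rw [Polynomial.C_1])
  refine ⟨hA, ⟨hA.1.map _, ?_, ?_⟩, hC, fun F x z => Mon_evr F x z, fun F x y => Mon_evc F x y⟩
  · unfold cx
    rw [hA.1.natDegree_map]
    exact hA.2.1
  · intro j hj
    unfold cx at hj ⊢
    rw [Polynomial.coeff_map] at hj ⊢
    have hne : (ch R).coeff j ≠ 0 := by
      intro h0
      rw [h0, map_zero] at hj
      exact hj rfl
    have h2 := hA.2.2 j hne
    have h3 : ((Polynomial.mapRingHom (algebraMap ℝ ℂ)) ((ch R).coeff j)).natDegree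
        ≤ ((ch R).coeff j).natDegree := by
      rw [Polynomial.coe_mapRingHom]
      exact Polynomial.natDegree_map_le
    omega

end Pool.Agent.RSV
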