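import Pool.Agent.RSV.StA

/-! # [NF0] Normal form of a point of the conic over the curve `R = 0` -/

set_option autoImplicit false

namespace Pool.Agent.RSV

open MvPolynomial Module
open scoped ComplexConjugate

/-! ### forms and their charts -/

private theorem NF0_ch_monomial (m : Fin 3 →₀ ℕ) (c : ℝ) :
    ch (monomial m c) = Polynomial.monomial (m 0) (Polynomial.monomial (m 2) c) := by
  unfold ch
  rw [aeval_monomial, Finsupp.prod_fintype _ _ (fun i => pow_zero _), Fin.prod_univ_three]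
  simp only [Matrix.cons_val_zero, Matrix.cons_val_one, Matrix.cons_val]
  rw [one_pow, mul_one, ← Polynomial.C_mul_X_pow_eq_monomial, ← Polynomial.C_mul_X_pow_eq_monomial]
  rw [IsScalarTower.algebraMap_apply ℝ (Polynomial ℝ) (Polynomial (Polynomial ℝ))]
  rw [Polynomial.algebraMap_apply, Polynomial.algebraMap_apply]
  simp only [Algebra.algebraMap_self, RingHom.id_apply, map_mul, map_pow]
  ring

private theorem NF0_ch_eq (G : TP) : ch G =
    ∑ m ∈ G.support, Polynomial.monomial (m 0) (Polynomial.monomial (m 2) (coeff m G)) := by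
  conv_lhs => rw [G.as_sum]
  have h : ch (∑ v ∈ G.support, monomial v (coeff v G)) =
      ∑ v ∈ G.support, ch (monomial v (coeff v G)) := by
    unfold ch
    exact map_sum _ _ _
  rw [h]
  exact Finset.sum_congr rfl fun m _ => NF0_ch_monomial m _

private theorem NF0_deg {G : TP} {D : ℕ} (hG : G.IsHomogeneous D) {m : Fin 3 →₀ ℕ}
    (hm : coeff m G ≠ 0) : m 0 + m 1 + m 2 = D := by
  by_contra h
  refine hm (hG.coeff_eq_zero ?_)
  rw [Finsupp.degree_eq_sum, Fin.sum_univ_three]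
  exact h

private theorem NF0_fin3 {m m' : Fin 3 →₀ ℕ} (h0 : m 0 = m' 0) (h1 : m 1 = m' 1)
    (h2 : m 2 = m' 2) : m = m' := by
  ext i
  fin_cases i
  · exact h0
  · exact h1
  · exact h2

private theorem NF0_coeff {G : TP} {D : ℕ} (hG : G.IsHomogeneous D) (m : Fin 3 →₀ ℕ)
    (hm : m 0 + m 1 + m 2 = D) : ((ch G).coeff (m 0)).coeff (m 2) = coeff m G := by
  rw [NF0_ch_eq, Polynomial.finsetSum_coeff, Polynomial.finsetSum_coeff]
  rw [Finset.sum_eq_single m]
  · rw [Polynomial.coeff_monomial, if_pos rfl, Polynomial.coeff_monomial, if_pos rfl]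
  · intro m' hm' hne
    rw [Polynomial.coeff_monomial]
    by_cases h0 : m' 0 = m 0
    · rw [if_pos h0, Polynomial.coeff_monomial]
      by_cases h2 : m' 2 = m 2
      · exfalso
        have := NF0_deg hG (mem_support_iff.1 hm')
        exact hne (NF0_fin3 h0 (by omega) h2)
      · rw [if_neg h2]
    · rw [if_neg h0, Polynomial.coeff_zero]
  · intro h
    rw [notMem_support_iff.1 h]
    simp

/-- the value at the line `Y = 0` -/
private theorem NF0_val_mon (G : TP) (x y z : ℝ) :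
    val G x y z = ∑ m ∈ G.support, coeff m G * (x ^ m 0 * y ^ m 1 * z ^ m 2) := by
  unfold val
  rw [eval_eq']
  refine Finset.sum_congr rfl fun m _ => ?_
  rw [Fin.prod_univ_three]
  simp

/-- a form with `n` different zeros on `Y = 0`, whose chart has degree `< n`, is divisible by `Y` -/
private theorem NF0_div {n : ℕ} {G : TP} {D : ℕ} (hG : G.IsHomogeneous (D + 1))
    (hn : (ch G).natDegree < n) (t : Fin n → ℝ) (ht : Function.Injective t)
    (h0 : ∀ k, val G (t k) 0 1 = 0) : ∃ G' : TP, G'.IsHomogeneous D ∧ G = X 1 * G' := by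
  classical
  set g : Polynomial ℝ := ∑ m ∈ G.support,
    (if m 1 = 0 then Polynomial.monomial (m 0) (coeff m G) else 0) with hg
  have hlt : ∀ m ∈ G.support, m 0 < n := by
    intro m hm
    have h1 := mem_support_iff.1 hm
    rw [← NF0_coeff hG m (NF0_deg hG h1)] at h1
    refine lt_of_le_of_lt (Polynomial.le_natDegree_of_ne_zero ?_) hn
    intro h2
    rw [h2, Polynomial.coeff_zero] at h1
    exact h1 rfl
  have hgz : g = 0 := by
    by_cases hg0 : g = 0
    · exact hg0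
    refine Polynomial.eq_zero_of_natDegree_lt_card_of_eval_eq_zero g ht ?_ ?_
    · intro k
      have h1 := h0 k
      rw [NF0_val_mon] at h1
      rw [hg, Polynomial.eval_finsetSum, ← h1]
      refine Finset.sum_congr rfl fun m _ => ?_
      by_cases h : m 1 = 0
      · rw [if_pos h, h, Polynomial.eval_monomial, pow_zero, one_pow, mul_one, mul_one]
      · rw [if_neg h, zero_pow h]
        simp
    · rw [Fintype.card_fin, Polynomial.natDegree_lt_iff_degree_lt hg0,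
        Polynomial.degree_lt_iff_coeff_zero]
      intro j hj
      rw [hg, Polynomial.finsetSum_coeff]
      refine Finset.sum_eq_zero fun m hm => ?_
      by_cases h : m 1 = 0
      · rw [if_pos h, Polynomial.coeff_monomial, if_neg]
        have := hlt m hm
        omega
      · rw [if_neg h, Polynomial.coeff_zero]
  have hm1 : ∀ m, coeff m G ≠ 0 → m 1 ≠ 0 := by
    intro m hm h1
    have hd := NF0_deg hG hm
    have h2 : g.coeff (m 0) = coeff m G := by
      rw [hg, Polynomial.finsetSum_coeff, Finset.sum_eq_single m]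
      · rw [if_pos h1, Polynomial.coeff_monomial, if_pos rfl]
      · intro m' hm' hne
        by_cases h : m' 1 = 0
        · rw [if_pos h, Polynomial.coeff_monomial]
          by_cases h0 : m' 0 = m 0
          · exfalso
            have := NF0_deg hG (mem_support_iff.1 hm')
            exact hne (NF0_fin3 h0 (by omega) (by omega))
          · rw [if_neg h0]
        · rw [if_neg h, Polynomial.coeff_zero]
      · intro h
        exact absurd (mem_support_iff.2 hm) h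
    rw [hgz, Polynomial.coeff_zero] at h2
    exact hm h2.symm
  have hdvd : (X 1 : TP) ∣ G := by
    rw [X_dvd_iff_modMonomial_eq_zero]
    ext m
    rw [coeff_zero]
    by_cases h : Finsupp.single (1 : Fin 3) 1 ≤ m
    · exact coeff_modMonomial_of_le _ h
    · rw [coeff_modMonomial_of_not_le _ h]
      by_contra hc
      refine h ?_
      rw [Finsupp.single_le_iff]
      exact Nat.one_le_iff_ne_zero.2 (hm1 m hc)
  obtain ⟨G', hG'⟩ := hdvd
  refine ⟨G', ?_, hG'⟩
  intro m hm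
  have h1 : coeff (Finsupp.single 1 1 + m) G ≠ 0 := by
    rw [hG', coeff_X_mul]
    exact hm
  have h2 := NF0_deg hG h1
  have h3 : m.degree = D := by
    rw [Finsupp.degree_eq_sum, Fin.sum_univ_three]
    simp only [Finsupp.add_apply, Finsupp.single_apply] at h2
    simp at h2
    omega
  rw [← h3]
  exact (DFunLike.congr_fun (Finsupp.degree_eq_weight_one (σ := Fin 3) (R := ℕ)) m).symm

/-! ### evaluations -/

private theorem NF0_evr_add (f g : BR) (x z : ℝ) : evr (f + g) x z = evr f x z + evr g x z := by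
  unfold evr
  rw [Polynomial.map_add, Polynomial.eval_add]

private theorem NF0_evr_sub (f g : BR) (x z : ℝ) : evr (f - g) x z = evr f x z - evr g x z := by
  unfold evr
  rw [Polynomial.map_sub, Polynomial.eval_sub]

private theorem NF0_evr_mul (f g : BR) (x z : ℝ) : evr (f * g) x z = evr f x z * evr g x z := by
  unfold evr
  rw [Polynomial.map_mul, Polynomial.eval_mul]

private theorem NF0_evr_pow (f : BR) (k : ℕ) (x z : ℝ) : evr (f ^ k) x z = evr f x z ^ k := by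
  unfold evr
  rw [Polynomial.map_pow, Polynomial.eval_pow]

private theorem NF0_evr_X (x z : ℝ) : evr Polynomial.X x z = x := by
  unfold evr
  rw [Polynomial.map_X, Polynomial.eval_X]

private theorem NF0_evr_C (c : Polynomial ℝ) (x z : ℝ) : evr (Polynomial.C c) x z = c.eval z := by
  unfold evr
  rw [Polynomial.map_C, Polynomial.eval_C]
  rfl

private theorem NF0_evr_dvd {P f : BR} (h : P ∣ f) {x z : ℝ} (h0 : evr P x z = 0) :
    evr f x z = 0 := by
  obtain ⟨g, rfl⟩ := h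
  rw [NF0_evr_mul, h0, zero_mul]

private theorem NF0_Cdvd {n : ℕ} (f : BR) (hf : f.natDegree < n) (z₀ : ℝ) (t : Fin n → ℝ)
    (ht : Function.Injective t) (h : ∀ k, evr f (t k) z₀ = 0) :
    Polynomial.C (Polynomial.X - Polynomial.C z₀) ∣ f := by
  have h1 : f.map (Polynomial.evalRingHom z₀) = 0 := by
    refine Polynomial.eq_zero_of_natDegree_lt_card_of_eval_eq_zero _ ht h ?_
    rw [Fintype.card_fin]
    exact lt_of_le_of_lt Polynomial.natDegree_map_le hf
  rw [Polynomial.C_dvd_iff_dvd_coeff]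
  intro i
  rw [Polynomial.dvd_iff_isRoot, Polynomial.IsRoot.def]
  have h2 := congrArg (fun q => Polynomial.coeff q i) h1
  simp only [Polynomial.coeff_map, Polynomial.coeff_zero] at h2
  exact h2

/-! ### triples -/

/-- the triples in the chart -/
private structure NF0_T (n : ℕ) (P A B U α β : BR) (ζ : Polynomial ℝ) : Prop where
  dα : α.natDegree < n
  dβ : β.natDegree < n
  ne : ζ ≠ 0
  rel : P ∣ α ^ 2 + Polynomial.C Polynomial.X * β ^ 2 - Polynomial.X * Polynomial.C ζ ^ 2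
  ra : P ∣ A * Polynomial.C ζ - α * U
  rb : P ∣ B * Polynomial.C ζ - β * U

private theorem NF0_T_neg {n : ℕ} {P A B U α β : BR} {ζ : Polynomial ℝ}
    (h : NF0_T n P A B U α β ζ) : NF0_T n P A B U (-α) (-β) (-ζ) where
  dα := by rw [Polynomial.natDegree_neg]; exact h.dα
  dβ := by rw [Polynomial.natDegree_neg]; exact h.dβ
  ne := neg_ne_zero.2 h.ne
  rel := by
    have h1 : (-α) ^ 2 + Polynomial.C Polynomial.X * (-β) ^ 2 -
        Polynomial.X * Polynomial.C (-ζ) ^ 2 =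
        α ^ 2 + Polynomial.C Polynomial.X * β ^ 2 - Polynomial.X * Polynomial.C ζ ^ 2 := by
      rw [Polynomial.C_neg]
      ring
    rw [h1]
    exact h.rel
  ra := by
    have h1 : A * Polynomial.C (-ζ) - -α * U = -(A * Polynomial.C ζ - α * U) := by
      rw [Polynomial.C_neg]
      ring
    rw [h1]
    exact (dvd_neg).2 h.ra
  rb := by
    have h1 : B * Polynomial.C (-ζ) - -β * U = -(B * Polynomial.C ζ - β * U) := by
      rw [Polynomial.C_neg]
      ring
    rw [h1]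
    exact (dvd_neg).2 h.rb

private theorem NF0_cancel {P c E : BR} (hP : Prime P) (hc : ¬ P ∣ c) (h : P ∣ c * E) : P ∣ E :=
  (hP.dvd_or_dvd h).resolve_left hc

/-- a triple with a root `z₀ ≥ 0` of `ζ` can be divided by `z - z₀` -/
private theorem NF0_red {n : ℕ} {P A B U α β : BR} {ζ : Polynomial ℝ} (hP : Prime P)
    (hC : ∀ c : Polynomial ℝ, c ≠ 0 → ¬ P ∣ Polynomial.C c)
    (hroots : ∀ z : ℝ, 0 ≤ z → ∃ t : Fin n → ℝ, Function.Injective t ∧ ∀ k, evr P (t k) z = 0)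
    (h : NF0_T n P A B U α β ζ) (z₀ : ℝ) (hz : 0 ≤ z₀) (h0 : ζ.eval z₀ = 0) :
    ∃ α' β' ζ', NF0_T n P A B U α' β' ζ' ∧ ζ'.natDegree < ζ.natDegree := by
  obtain ⟨t, ht, hPt⟩ := hroots z₀ hz
  set c : Polynomial ℝ := Polynomial.X - Polynomial.C z₀ with hc
  have hc0 : c ≠ 0 := Polynomial.X_sub_C_ne_zero z₀
  have hPc := hC c hc0
  have hCc0 : (Polynomial.C c : BR) ≠ 0 := Polynomial.C_ne_zero.2 hc0
  obtain ⟨ζ', hζ'⟩ : c ∣ ζ := Polynomial.dvd_iff_isRoot.2 h0
  have hζ0 : ζ' ≠ 0 := by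
    rintro rfl
    exact h.ne (by rw [hζ', mul_zero])
  have hE : ∀ k, evr α (t k) z₀ ^ 2 + z₀ * evr β (t k) z₀ ^ 2 = 0 := by
    intro k
    have h1 := NF0_evr_dvd h.rel (hPt k)
    rw [NF0_evr_sub, NF0_evr_add, NF0_evr_mul, NF0_evr_mul, NF0_evr_pow, NF0_evr_pow, NF0_evr_pow,
      NF0_evr_C, NF0_evr_C, NF0_evr_X, h0, Polynomial.eval_X] at h1
    linarith
  have hα : Polynomial.C c ∣ α := by
    refine NF0_Cdvd α h.dα z₀ t ht fun k => ?_
    have h1 := hE k
    have h2 : 0 ≤ z₀ * evr β (t k) z₀ ^ 2 := by positivity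
    have h3 : evr α (t k) z₀ ^ 2 = 0 := by nlinarith [sq_nonneg (evr α (t k) z₀)]
    exact pow_eq_zero_iff (two_ne_zero) |>.1 h3
  obtain ⟨α', hα'⟩ := hα
  have hβ : Polynomial.C c ∣ β := by
    refine NF0_Cdvd β h.dβ z₀ t ht fun k => ?_
    rcases hz.eq_or_lt with hz0 | hz0
    · have hcX : c = Polynomial.X := by rw [hc, ← hz0, Polynomial.C_0, sub_zero]
      have h1 : P ∣ Polynomial.C c * (Polynomial.C c * α' ^ 2 + β ^ 2 -
          Polynomial.X * Polynomial.C c * Polynomial.C ζ' ^ 2) := by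
        have h2 := h.rel
        rw [hα', hζ', ← hcX, Polynomial.C_mul] at h2
        have h3 : (Polynomial.C c * α') ^ 2 + Polynomial.C c * β ^ 2 -
            Polynomial.X * (Polynomial.C c * Polynomial.C ζ') ^ 2 =
            Polynomial.C c * (Polynomial.C c * α' ^ 2 + β ^ 2 -
          Polynomial.X * Polynomial.C c * Polynomial.C ζ' ^ 2) := by ring
        rw [h3] at h2
        exact h2
      have h4 := NF0_evr_dvd (NF0_cancel hP hPc h1) (hPt k)
      rw [NF0_evr_sub, NF0_evr_add, NF0_evr_mul, NF0_evr_mul, NF0_evr_mul, NF0_evr_pow,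
        NF0_evr_C, hcX, Polynomial.eval_X, ← hz0] at h4
      have h5 : evr β (t k) 0 ^ 2 = 0 := by
        rw [NF0_evr_pow] at h4
        linarith
      rw [← hz0]
      exact pow_eq_zero_iff (two_ne_zero) |>.1 h5
    · have h1 := hE k
      have h2 : evr β (t k) z₀ ^ 2 = 0 := by
        by_contra hne
        have h3 : 0 < evr β (t k) z₀ ^ 2 := lt_of_le_of_ne (sq_nonneg _) (Ne.symm hne)
        nlinarith [sq_nonneg (evr α (t k) z₀), mul_pos hz0 h3]
      exact pow_eq_zero_iff (two_ne_zero) |>.1 h2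
  obtain ⟨β', hβ'⟩ := hβ
  refine ⟨α', β', ζ', ?_, ?_⟩
  · refine ⟨?_, ?_, hζ0, ?_, ?_, ?_⟩
    · have h1 := h.dα
      rw [hα', Polynomial.natDegree_C_mul hc0] at h1
      exact h1
    · have h1 := h.dβ
      rw [hβ', Polynomial.natDegree_C_mul hc0] at h1
      exact h1
    · have h1 := h.rel
      have h2 : α ^ 2 + Polynomial.C Polynomial.X * β ^ 2 - Polynomial.X * Polynomial.C ζ ^ 2 =
          Polynomial.C c * (Polynomial.C c * (α' ^ 2 + Polynomial.C Polynomial.X * β' ^ 2 -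
            Polynomial.X * Polynomial.C ζ' ^ 2)) := by
        rw [hα', hβ', hζ', Polynomial.C_mul]
        ring
      rw [h2] at h1
      exact NF0_cancel hP hPc (NF0_cancel hP hPc h1)
    · have h1 := h.ra
      have h2 : A * Polynomial.C ζ - α * U = Polynomial.C c * (A * Polynomial.C ζ' - α' * U) := by
        rw [hα', hζ', Polynomial.C_mul]
        ring
      rw [h2] at h1
      exact NF0_cancel hP hPc h1
    · have h1 := h.rb
      have h2 : B * Polynomial.C ζ - β * U = Polynomial.C c * (B * Polynomial.C ζ' - β' * U) := by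
        rw [hβ', hζ', Polynomial.C_mul]
        ring
      rw [h2] at h1
      exact NF0_cancel hP hPc h1
  · rw [hζ', Polynomial.natDegree_mul hc0 hζ0, hc, Polynomial.natDegree_X_sub_C]
    omega

private theorem NF0_noroot {n : ℕ} {P A B U : BR} (hP : Prime P)
    (hC : ∀ c : Polynomial ℝ, c ≠ 0 → ¬ P ∣ Polynomial.C c)
    (hroots : ∀ z : ℝ, 0 ≤ z → ∃ t : Fin n → ℝ, Function.Injective t ∧ ∀ k, evr P (t k) z = 0)
    (N : ℕ) : ∀ (α β : BR) (ζ : Polynomial ℝ), ζ.natDegree ≤ N → NF0_T n P A B U α β ζ →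
    ∃ α' β' ζ', NF0_T n P A B U α' β' ζ' ∧ ∀ z : ℝ, 0 ≤ z → ζ'.eval z ≠ 0 := by
  induction N with
  | zero =>
    intro α β ζ hN h
    refine ⟨α, β, ζ, h, fun z hz h0 => ?_⟩
    obtain ⟨α', β', ζ', -, h1⟩ := NF0_red hP hC hroots h z hz h0
    omega
  | succ N ih =>
    intro α β ζ hN h
    by_cases hr : ∀ z : ℝ, 0 ≤ z → ζ.eval z ≠ 0
    · exact ⟨α, β, ζ, h, hr⟩
    · push Not at hr
      obtain ⟨z, hz, h0⟩ := hr
      obtain ⟨α', β', ζ', h1, h2⟩ := NF0_red hP hC hroots h z hz h0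
      exact ih α' β' ζ' (by omega) h1

/-- the sign of a polynomial without roots on `[0, ∞)` -/
private theorem NF0_sign (ζ : Polynomial ℝ) (h : ∀ z : ℝ, 0 ≤ z → ζ.eval z ≠ 0)
    (h0 : 0 < ζ.eval 0) : ∀ z : ℝ, 0 ≤ z → 0 < ζ.eval z := by
  intro z hz
  by_contra hneg
  have h1 : ζ.eval z ≤ 0 := not_lt.1 hneg
  have h2 := intermediate_value_Icc' hz (f := fun z => ζ.eval z)
    (ζ.continuous.continuousOn) (show (0 : ℝ) ∈ Set.Icc (ζ.eval z) (ζ.eval 0) from ⟨h1, h0.le⟩)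
  obtain ⟨w, hw, hw0⟩ := h2
  exact h w hw.1 hw0

private theorem NF0_pos {n : ℕ} {P A B U : BR} {α β : BR} {ζ : Polynomial ℝ}
    (h : NF0_T n P A B U α β ζ) (hr : ∀ z : ℝ, 0 ≤ z → ζ.eval z ≠ 0) :
    ∃ α' β' ζ', NF0_T n P A B U α' β' ζ' ∧ ∀ z : ℝ, 0 ≤ z → 0 < ζ'.eval z := by
  rcases lt_or_gt_of_ne (hr 0 le_rfl) with h0 | h0
  · refine ⟨-α, -β, -ζ, NF0_T_neg h, NF0_sign (-ζ) ?_ ?_⟩
    · intro z hz
      rw [Polynomial.eval_neg]
      exact neg_ne_zero.2 (hr z hz)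
    · rw [Polynomial.eval_neg]
      linarith
  · exact ⟨α, β, ζ, h, NF0_sign ζ hr h0⟩

/-- existence of a triple -/
private theorem NF0_ex {n : ℕ} (hn : 1 ≤ n) {P A B U : BR} (hP : Prime P) (hm : P.Monic)
    (hd : P.natDegree = n)
    (hrel : P ∣ A ^ 2 + Polynomial.C Polynomial.X * B ^ 2 - Polynomial.X * U ^ 2) (hU : ¬ P ∣ U) :
    ∃ α β ζ, NF0_T n P A B U α β ζ := by
  have : IsDomain (AdjoinRoot P) := AdjoinRoot.isDomain_of_prime hP
  have : Module.Finite (Polynomial ℝ) (AdjoinRoot P) := hm.finite_adjoinRoot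
  have hU0 : AdjoinRoot.mk P U ≠ 0 := fun h => hU (AdjoinRoot.mk_eq_zero.1 h)
  have halg : IsAlgebraic (Polynomial ℝ) (AdjoinRoot.mk P U) :=
    (Algebra.IsIntegral.isIntegral (R := Polynomial ℝ) (AdjoinRoot.mk P U)).isAlgebraic
  obtain ⟨r, hr, w, hw⟩ := halg.exists_nonzero_dvd (mem_nonZeroDivisors_of_ne_zero hU0)
  obtain ⟨v, rfl⟩ := AdjoinRoot.mk_surjective w
  have hr' : AdjoinRoot.mk P (Polynomial.C r) = AdjoinRoot.mk P U * AdjoinRoot.mk P v := hw
  have hmod : ∀ f : BR, AdjoinRoot.mk P (f %ₘ P) = AdjoinRoot.mk P f := by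
    intro f
    conv_rhs => rw [← Polynomial.modByMonic_add_div f P]
    rw [map_add, map_mul, AdjoinRoot.mk_self, zero_mul, add_zero]
  have hP1 : P ≠ 1 := by
    rintro rfl
    rw [Polynomial.natDegree_one] at hd
    omega
  have hrel' := AdjoinRoot.mk_eq_zero.2 hrel
  refine ⟨(A * v) %ₘ P, (B * v) %ₘ P, r, ?_, ?_, hr, ?_, ?_, ?_⟩
  · rw [← hd]
    exact Polynomial.natDegree_modByMonic_lt _ hm hP1
  · rw [← hd]
    exact Polynomial.natDegree_modByMonic_lt _ hm hP1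
  · rw [← AdjoinRoot.mk_eq_zero]
    rw [map_sub, map_add, map_mul, map_mul, map_pow, map_pow, map_pow] at hrel' ⊢
    rw [hmod, hmod, hr', map_mul, map_mul]
    linear_combination (AdjoinRoot.mk P v) ^ 2 * hrel'
  · rw [← AdjoinRoot.mk_eq_zero, map_sub, map_mul, map_mul, hmod, hr', map_mul]
    ring
  · rw [← AdjoinRoot.mk_eq_zero, map_sub, map_mul, map_mul, hmod, hr', map_mul]
    ring

/-! ### values of forms -/

private theorem NF0_val_add (F G : TP) (x y z : ℝ) : val (F + G) x y z = val F x y z + val G x y z :=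
  map_add _ _ _

private theorem NF0_val_sub (F G : TP) (x y z : ℝ) : val (F - G) x y z = val F x y z - val G x y z :=
  map_sub _ _ _

private theorem NF0_val_mul (F G : TP) (x y z : ℝ) : val (F * G) x y z = val F x y z * val G x y z :=
  map_mul _ _ _

private theorem NF0_val_pow (F : TP) (k : ℕ) (x y z : ℝ) : val (F ^ k) x y z = val F x y z ^ k :=
  map_pow _ _ _

private theorem NF0_val_X0 (x y z : ℝ) : val (X 0) x y z = x := by
  unfold val
  rw [eval_X]
  rfl

private theorem NF0_val_X1 (x y z : ℝ) : val (X 1) x y z = y := by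
  unfold val
  rw [eval_X]
  rfl

private theorem NF0_val_X2 (x y z : ℝ) : val (X 2) x y z = z := by
  unfold val
  rw [eval_X]
  rfl

private theorem NF0_val_dvd {R F : TP} (h : R ∣ F) {x y z : ℝ} (h0 : val R x y z = 0) :
    val F x y z = 0 := by
  obtain ⟨G, rfl⟩ := h
  rw [NF0_val_mul, h0, zero_mul]

private theorem NF0_ch_add (F G : TP) : ch (F + G) = ch F + ch G := map_add _ _ _

private theorem NF0_ch_sub (F G : TP) : ch (F - G) = ch F - ch G := map_sub _ _ _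

private theorem NF0_ch_mul (F G : TP) : ch (F * G) = ch F * ch G := map_mul _ _ _

private theorem NF0_ch_pow (F : TP) (k : ℕ) : ch (F ^ k) = ch F ^ k := map_pow _ _ _

private theorem NF0_ch_X0 : ch (X 0) = Polynomial.X := by
  unfold ch
  rw [aeval_X]
  rfl

private theorem NF0_ch_X1 : ch (X 1) = 1 := by
  unfold ch
  rw [aeval_X]
  rfl

private theorem NF0_ch_X2 : ch (X 2) = Polynomial.C Polynomial.X := by
  unfold ch
  rw [aeval_X]
  rfl

private theorem NF0_scale {G : TP} {D : ℕ} (hG : G.IsHomogeneous D) (c x y z : ℝ) :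
    val G (c * x) (c * y) (c * z) = c ^ D * val G x y z := by
  rw [NF0_val_mon, NF0_val_mon, Finset.mul_sum]
  refine Finset.sum_congr rfl fun m hm => ?_
  rw [← NF0_deg hG (mem_support_iff.1 hm), mul_pow, mul_pow, mul_pow, pow_add, pow_add]
  ring

private theorem NF0_val100 {G : TP} {D : ℕ} (hG : G.IsHomogeneous D) :
    val G 1 0 0 = ((ch G).coeff D).coeff 0 := by
  set m : Fin 3 →₀ ℕ := Finsupp.single 0 D with hm
  have h0 : m 0 = D := by simp [hm]
  have h1 : m 1 = 0 := by simp [hm]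
  have h2 : m 2 = 0 := by simp [hm]
  have h3 := NF0_coeff hG m (by rw [h0, h1, h2]; rfl)
  rw [h0, h2] at h3
  rw [h3, NF0_val_mon, Finset.sum_eq_single m]
  · rw [h1, h2]
    simp
  · intro m' hm' hne
    have hd := NF0_deg hG (mem_support_iff.1 hm')
    by_cases h1' : m' 1 = 0
    · by_cases h2' : m' 2 = 0
      · exfalso
        exact hne (NF0_fin3 (by omega) (by omega) (by omega))
      · rw [zero_pow h2', mul_zero, mul_zero]
    · rw [zero_pow h1']
      ring
  · intro h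
    rw [notMem_support_iff.1 h, zero_mul]

private theorem NF0_val001 {G : TP} {D : ℕ} (hG : G.IsHomogeneous D) :
    val G 0 0 1 = ((ch G).coeff 0).coeff D := by
  set m : Fin 3 →₀ ℕ := Finsupp.single 2 D with hm
  have h0 : m 0 = 0 := by simp [hm]
  have h1 : m 1 = 0 := by simp [hm]
  have h2 : m 2 = D := by simp [hm]
  have h3 := NF0_coeff hG m (by rw [h0, h1, h2]; omega)
  rw [h0, h2] at h3
  rw [h3, NF0_val_mon, Finset.sum_eq_single m]
  · rw [h0, h1]
    simp
  · intro m' hm' hne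
    have hd := NF0_deg hG (mem_support_iff.1 hm')
    by_cases h1' : m' 1 = 0
    · by_cases h0' : m' 0 = 0
      · exfalso
        exact hne (NF0_fin3 (by omega) (by omega) (by omega))
      · rw [zero_pow h0']
        ring
    · rw [zero_pow h1']
      ring
  · intro h
    rw [notMem_support_iff.1 h, zero_mul]

/-- a form whose chart does not contain `x` does not contain `X` -/
private theorem NF0_nox {W : TP} {d : ℕ} (hW : W.IsHomogeneous d) {ζ : Polynomial ℝ}
    (hc : ch W = Polynomial.C ζ) (x y z : ℝ) : val W x y z = val W 0 y z := by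
  rw [NF0_val_mon, NF0_val_mon]
  refine Finset.sum_congr rfl fun m hm => ?_
  have h1 := mem_support_iff.1 hm
  rw [← NF0_coeff hW m (NF0_deg hW h1), hc, Polynomial.coeff_C] at h1
  have h0 : m 0 = 0 := by
    by_contra h
    rw [if_neg h, Polynomial.coeff_zero] at h1
    exact h1 rfl
  rw [h0, pow_zero, pow_zero]

private theorem NF0_hom_rel {F G W : TP} {d : ℕ} (hF : F.IsHomogeneous d) (hG : G.IsHomogeneous d)
    (hW : W.IsHomogeneous d) :
    (X 1 * F ^ 2 + X 2 * G ^ 2 - X 0 * W ^ 2 : TP).IsHomogeneous (1 + d * 2) :=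
  (((isHomogeneous_X ℝ 1).mul (hF.pow 2)).add ((isHomogeneous_X ℝ 2).mul (hG.pow 2))).sub
    ((isHomogeneous_X ℝ 0).mul (hW.pow 2))

/-- one step of the degree argument -/
private theorem NF0_step {n : ℕ} {R : TP} {a b s : Fin n → ℝ} (hR : Good R a b s)
    (h1 : val R 1 0 0 = 1) (hHmz : St_Hmz) {α β : BR} {ζ : Polynomial ℝ} {W : TP} {d : ℕ}
    (dα : α.natDegree < n) (dβ : β.natDegree < n)
    (hrel : ch R ∣ α ^ 2 + Polynomial.C Polynomial.X * β ^ 2 - Polynomial.X * Polynomial.C ζ ^ 2)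
    (hW : W.IsHomogeneous d) (hWc : ch W = Polynomial.C ζ) {k : ℕ} {F G : TP}
    (hF : F.IsHomogeneous (d + k + 1)) (hG : G.IsHomogeneous (d + k + 1)) (hFc : ch F = α)
    (hGc : ch G = β) :
    ∃ F' G' : TP, F'.IsHomogeneous (d + k) ∧ G'.IsHomogeneous (d + k) ∧ ch F' = α ∧ ch G' = β := by
  obtain ⟨t, ht, htR⟩ := hR.hyp 0 1 le_rfl zero_le_one (Or.inr one_ne_zero)
  have hW' : (X 1 ^ (k + 1) * W : TP).IsHomogeneous (d + k + 1) := by
    have h := (isHomogeneous_X_pow (R := ℝ) (1 : Fin 3) (k + 1)).mul hW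
    have e : k + 1 + d = d + k + 1 := by omega
    rw [e] at h
    exact h
  have hW'c : ch (X 1 ^ (k + 1) * W) = Polynomial.C ζ := by
    rw [NF0_ch_mul, NF0_ch_pow, NF0_ch_X1, one_pow, one_mul, hWc]
  have hE : R ∣ X 1 * F ^ 2 + X 2 * G ^ 2 - X 0 * (X 1 ^ (k + 1) * W) ^ 2 := by
    refine (hHmz.2.2.2 n R _ _ hR.hom h1 (NF0_hom_rel hF hG hW')).1 ?_
    rw [NF0_ch_sub, NF0_ch_add, NF0_ch_mul, NF0_ch_mul, NF0_ch_mul, NF0_ch_pow, NF0_ch_pow,
      NF0_ch_pow, NF0_ch_X0, NF0_ch_X1, NF0_ch_X2, hW'c, hFc, hGc, one_mul]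
    exact hrel
  obtain ⟨G', hG', hGG⟩ := NF0_div hG (by rw [hGc]; exact dβ) t ht (by
    intro j
    have h2 := NF0_val_dvd hE (htR j).2
    rw [NF0_val_sub, NF0_val_add, NF0_val_mul, NF0_val_mul, NF0_val_mul, NF0_val_pow, NF0_val_pow,
      NF0_val_pow, NF0_val_mul, NF0_val_pow, NF0_val_X0, NF0_val_X1, NF0_val_X2,
      zero_pow (Nat.succ_ne_zero k)] at h2
    have h3 : val G (t j) 0 1 ^ 2 = 0 := by linarith
    exact pow_eq_zero_iff (two_ne_zero) |>.1 h3)
  have hG'c : ch G' = β := by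
    rw [← hGc, hGG, NF0_ch_mul, NF0_ch_X1, one_mul]
  have hE' : R ∣ F ^ 2 + X 2 * (X 1 * G' ^ 2) - X 0 * (X 1 ^ (2 * k + 1) * W ^ 2) := by
    have hh : (F ^ 2 + X 2 * (X 1 * G' ^ 2) - X 0 * (X 1 ^ (2 * k + 1) * W ^ 2) : TP).IsHomogeneous
        ((d + k + 1) * 2) := by
      refine ((hF.pow 2).add ?_).sub ?_
      · have h := (isHomogeneous_X ℝ (2 : Fin 3)).mul ((isHomogeneous_X ℝ (1 : Fin 3)).mul (hG'.pow 2))
        have e : 1 + (1 + (d + k) * 2) = (d + k + 1) * 2 := by omega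
        rw [e] at h
        exact h
      · have h := (isHomogeneous_X ℝ (0 : Fin 3)).mul
          ((isHomogeneous_X_pow (R := ℝ) (1 : Fin 3) (2 * k + 1)).mul (hW.pow 2))
        have e : 1 + (2 * k + 1 + d * 2) = (d + k + 1) * 2 := by omega
        rw [e] at h
        exact h
    refine (hHmz.2.2.2 n R _ _ hR.hom h1 hh).1 ?_
    rw [NF0_ch_sub, NF0_ch_add, NF0_ch_mul, NF0_ch_mul, NF0_ch_mul, NF0_ch_mul, NF0_ch_pow,
      NF0_ch_pow, NF0_ch_pow, NF0_ch_pow, NF0_ch_X0, NF0_ch_X1, NF0_ch_X2, hWc, hFc, hG'c, one_mul,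
      one_pow, one_mul]
    exact hrel
  obtain ⟨F', hF', hFF⟩ := NF0_div hF (by rw [hFc]; exact dα) t ht (by
    intro j
    have h2 := NF0_val_dvd hE' (htR j).2
    rw [NF0_val_sub, NF0_val_add, NF0_val_mul, NF0_val_mul, NF0_val_mul, NF0_val_mul, NF0_val_pow,
      NF0_val_pow, NF0_val_pow, NF0_val_X0, NF0_val_X1, NF0_val_X2,
      zero_pow (Nat.succ_ne_zero (2 * k))] at h2
    have h3 : val F (t j) 0 1 ^ 2 = 0 := by linarith
    exact pow_eq_zero_iff (two_ne_zero) |>.1 h3)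
  refine ⟨F', G', hF', hG', ?_, hG'c⟩
  rw [← hFc, hFF, NF0_ch_mul, NF0_ch_X1, one_mul]

/-- the degree argument -/
private theorem NF0_forms {n : ℕ} {R : TP} {a b s : Fin n → ℝ} (hR : Good R a b s)
    (h1 : val R 1 0 0 = 1) (hHmz : St_Hmz) {α β : BR} {ζ : Polynomial ℝ} {W : TP} {d : ℕ}
    (dα : α.natDegree < n) (dβ : β.natDegree < n)
    (hrel : ch R ∣ α ^ 2 + Polynomial.C Polynomial.X * β ^ 2 - Polynomial.X * Polynomial.C ζ ^ 2)
    (hW : W.IsHomogeneous d) (hWc : ch W = Polynomial.C ζ) :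
    ∃ F G : TP, F.IsHomogeneous d ∧ G.IsHomogeneous d ∧ ch F = α ∧ ch G = β := by
  have key : ∀ k : ℕ, (∃ F G : TP, F.IsHomogeneous (d + k) ∧ G.IsHomogeneous (d + k) ∧ ch F = α ∧
      ch G = β) → ∃ F G : TP, F.IsHomogeneous d ∧ G.IsHomogeneous d ∧ ch F = α ∧ ch G = β := by
    intro k
    induction k with
    | zero => intro h; exact h
    | succ k ih =>
      rintro ⟨F, G, hF, hG, hFc, hGc⟩
      exact ih (NF0_step hR h1 hHmz dα dβ hrel hW hWc hF hG hFc hGc)
  obtain ⟨e₁, h₁⟩ := hHmz.1 α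
  obtain ⟨e₂, h₂⟩ := hHmz.1 β
  obtain ⟨F, hF, hFc⟩ := h₁ (d + (e₁ + e₂)) (by omega)
  obtain ⟨G, hG, hGc⟩ := h₂ (d + (e₁ + e₂)) (by omega)
  exact key (e₁ + e₂) ⟨F, G, hF, hG, hFc, hGc⟩

private theorem NF0_lead (ζ : Polynomial ℝ) (h : ∀ z : ℝ, 0 ≤ z → 0 < ζ.eval z) :
    0 < ζ.leadingCoeff := by
  have hne : ζ ≠ 0 := by
    rintro rfl
    have := h 0 le_rfl
    rw [Polynomial.eval_zero] at this
    exact lt_irrefl _ this
  by_contra hneg
  have h1 : ζ.leadingCoeff ≤ 0 := not_lt.1 hneg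
  by_cases hd : 0 < ζ.degree
  · have h2 := Polynomial.tendsto_atBot_of_leadingCoeff_nonpos ζ hd h1
    have h3 := (h2.eventually (Filter.eventually_lt_atBot (0 : ℝ))).and
      (Filter.eventually_ge_atTop (0 : ℝ))
    obtain ⟨z, hz1, hz2⟩ := h3.exists
    exact absurd (h z hz2) (not_lt.2 hz1.le)
  · have h2 : ζ = Polynomial.C (ζ.coeff 0) := Polynomial.eq_C_of_degree_le_zero (not_lt.1 hd)
    have h3 := h 0 le_rfl
    rw [h2, Polynomial.eval_C] at h3
    rw [h2, Polynomial.leadingCoeff_C] at h1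
    exact absurd h3 (not_lt.2 h1)

/-- Normal form of a point of the conic. -/
theorem thm_NF0 : St_Mon → St_Ira → St_Hmz → St_NF0 := by
  intro hMon hIra hHmz n R a b s hn hR e α₀ β₀ u₀ hα₀ hβ₀ hu₀ hrel₀ hu₀R
  obtain ⟨⟨hm, hd, -⟩, -, -, hev, -⟩ := hMon n R a b s hn hR
  obtain ⟨-, hirr⟩ := hIra n R a b s hn hR
  have hP : Prime (ch R) := hirr.prime
  have h1 : val R 1 0 0 = 1 := by
    rw [NF0_val100 hR.hom]
    have h2 : (ch R).coeff n = 1 := by
      rw [← hd]
      exact hm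
    rw [h2, Polynomial.coeff_one_zero]
  have hC : ∀ c : Polynomial ℝ, c ≠ 0 → ¬ ch R ∣ Polynomial.C c := by
    intro c hc hdvd
    have h2 := Polynomial.natDegree_le_of_dvd hdvd (Polynomial.C_ne_zero.2 hc)
    rw [hd, Polynomial.natDegree_C] at h2
    omega
  have hroots : ∀ z : ℝ, 0 ≤ z → ∃ t : Fin n → ℝ, Function.Injective t ∧
      ∀ k, evr (ch R) (t k) z = 0 := by
    intro z hz
    obtain ⟨t, ht, htR⟩ := hR.hyp 1 z zero_le_one hz (Or.inl one_ne_zero)
    exact ⟨t, ht, fun k => by rw [hev]; exact (htR k).2⟩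
  have hU : ¬ ch R ∣ ch u₀ := fun h => hu₀R ((hHmz.2.2.2 n R e u₀ hR.hom h1 hu₀).1 h)
  have hrelc : ch R ∣ ch α₀ ^ 2 + Polynomial.C Polynomial.X * ch β₀ ^ 2 -
      Polynomial.X * ch u₀ ^ 2 := by
    have h2 := (hHmz.2.2.2 n R _ _ hR.hom h1 (NF0_hom_rel hα₀ hβ₀ hu₀)).2 hrel₀
    rw [NF0_ch_sub, NF0_ch_add, NF0_ch_mul, NF0_ch_mul, NF0_ch_mul, NF0_ch_pow, NF0_ch_pow,
      NF0_ch_pow, NF0_ch_X0, NF0_ch_X1, NF0_ch_X2, one_mul] at h2
    exact h2
  obtain ⟨α₁, β₁, ζ₁, hT₁⟩ := NF0_ex hn hP hm hd hrelc hU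
  obtain ⟨α₂, β₂, ζ₂, hT₂, hr₂⟩ := NF0_noroot hP hC hroots ζ₁.natDegree α₁ β₁ ζ₁ le_rfl hT₁
  obtain ⟨α, β, ζ, hT, hpos⟩ := NF0_pos hT₂ hr₂
  obtain ⟨W, hW, hWc⟩ := hHmz.2.1 (Polynomial.C ζ) ζ.natDegree (by
    intro j hj
    have hj0 : j = 0 := by
      by_contra h
      rw [Polynomial.coeff_C, if_neg h] at hj
      exact hj rfl
    rw [hj0, Polynomial.coeff_C_zero]
    omega)
  obtain ⟨F, G, hF, hG, hFc, hGc⟩ := NF0_forms hR h1 hHmz hT.dα hT.dβ hT.rel hW hWc
  have hrel : R ∣ X 1 * F ^ 2 + X 2 * G ^ 2 - X 0 * W ^ 2 := by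
    refine (hHmz.2.2.2 n R _ _ hR.hom h1 (NF0_hom_rel hF hG hW)).1 ?_
    rw [NF0_ch_sub, NF0_ch_add, NF0_ch_mul, NF0_ch_mul, NF0_ch_mul, NF0_ch_pow, NF0_ch_pow,
      NF0_ch_pow, NF0_ch_X0, NF0_ch_X1, NF0_ch_X2, hWc, hFc, hGc, one_mul]
    exact hT.rel
  have hsa : ∀ i, ∃ ε : ℝ, (ε = 1 ∨ ε = -1) ∧ val F (a i ^ 2) 1 0 = ε * a i * val W 0 1 0 := by
    intro i
    have h2 : val R (a i ^ 2) 1 0 = 0 := by
      rw [hR.ra]
      exact Finset.prod_eq_zero (Finset.mem_univ i) (sub_self _)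
    have h3 := NF0_val_dvd hrel h2
    rw [NF0_val_sub, NF0_val_add, NF0_val_mul, NF0_val_mul, NF0_val_mul, NF0_val_pow, NF0_val_pow,
      NF0_val_pow, NF0_val_X0, NF0_val_X1, NF0_val_X2, NF0_nox hW hWc (a i ^ 2) 1 0] at h3
    have h4 : (val F (a i ^ 2) 1 0 - a i * val W 0 1 0) *
        (val F (a i ^ 2) 1 0 + a i * val W 0 1 0) = 0 := by nlinarith
    rcases mul_eq_zero.1 h4 with h5 | h5
    · exact ⟨1, Or.inl rfl, by linarith⟩
    · exact ⟨-1, Or.inr rfl, by linarith⟩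
  have hsb : ∀ j, ∃ δ : ℝ, (δ = 1 ∨ δ = -1) ∧ val G (b j ^ 2) 0 1 = δ * b j * val W 0 0 1 := by
    intro j
    have h2 : val R (b j ^ 2) 0 1 = 0 := by
      rw [hR.rb]
      exact Finset.prod_eq_zero (Finset.mem_univ j) (sub_self _)
    have h3 := NF0_val_dvd hrel h2
    rw [NF0_val_sub, NF0_val_add, NF0_val_mul, NF0_val_mul, NF0_val_mul, NF0_val_pow, NF0_val_pow,
      NF0_val_pow, NF0_val_X0, NF0_val_X1, NF0_val_X2, NF0_nox hW hWc (b j ^ 2) 0 1] at h3
    have h4 : (val G (b j ^ 2) 0 1 - b j * val W 0 0 1) *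
        (val G (b j ^ 2) 0 1 + b j * val W 0 0 1) = 0 := by nlinarith
    rcases mul_eq_zero.1 h4 with h5 | h5
    · exact ⟨1, Or.inl rfl, by linarith⟩
    · exact ⟨-1, Or.inr rfl, by linarith⟩
  choose ε hε hεa using hsa
  choose δ hδ hδb using hsb
  have hpos1 : ∀ z : ℝ, 0 ≤ z → 0 < val W 0 1 z := by
    intro z hz
    rw [← hev, hWc, NF0_evr_C]
    exact hpos z hz
  refine ⟨ζ.natDegree, F, G, W, ε, δ, ⟨hF, hG, hW, NF0_nox hW hWc, ?_, hrel, hε, hδ, hεa, hδb⟩,
    ?_, ?_⟩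
  · intro y z hy hz hyz
    rcases hy.eq_or_lt with hy0 | hy0
    · have hz0 : 0 < z := by
        rcases hyz with h | h
        · exact absurd hy0.symm h
        · exact lt_of_le_of_ne hz (Ne.symm h)
      have h2 := NF0_scale hW z 0 0 1
      rw [mul_zero, mul_one] at h2
      rw [← hy0, h2, NF0_val001 hW, hWc, Polynomial.coeff_C_zero]
      exact mul_pos (pow_pos hz0 _) (NF0_lead ζ hpos)
    · have h2 := NF0_scale hW y 0 1 (z / y)
      rw [mul_zero, mul_one, mul_div_cancel₀ z hy0.ne'] at h2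
      rw [h2]
      exact mul_pos (pow_pos hy0 _) (hpos1 _ (div_nonneg hz hy))
  · refine (hHmz.2.2.2 n R (e + ζ.natDegree) _ hR.hom h1 ?_).1 ?_
    · refine (hα₀.mul hW).sub ?_
      rw [add_comm]
      exact hF.mul hu₀
    · rw [NF0_ch_sub, NF0_ch_mul, NF0_ch_mul, hWc, hFc]
      exact hT.ra
  · refine (hHmz.2.2.2 n R (e + ζ.natDegree) _ hR.hom h1 ?_).1 ?_
    · refine (hβ₀.mul hW).sub ?_
      rw [add_comm]
      exact hG.mul hu₀
    · rw [NF0_ch_sub, NF0_ch_mul, NF0_ch_mul, hWc, hGc]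
      exact hT.rb

end Pool.Agent.RSV
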