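import Pool.Agent.RSV.StA

/-!
# RSV, module NFa: all signs occur
-/

set_option autoImplicit false

namespace Pool.Agent.RSV

theorem thm_NFa : St_Wit → St_NF0 → St_Tw → St_Sw → St_NFa := by
  intro hWit hNF0 hTw hSw n R a b s hn hR ε δ hε hδ
  obtain ⟨hS1, hS2, hS3⟩ := hSw
  obtain ⟨e, α₀, β₀, u₀, h1, h2, h3, h4, h5⟩ := hWit n R a b s hn hR
  obtain ⟨d, α, β, ζ, ε₁, δ₁, hNF, _, _⟩ := hNF0 n R a b s hn hR e α₀ β₀ u₀ h1 h2 h3 h4 h5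
  obtain ⟨d₁, α₁, β₁, ζ₁, hNF₁⟩ := hTw n R a b s hn hR d α β ζ ε₁ δ₁ hNF ε hε
  have hR' : Good (swp R) b a s := hS1 n R a b s hR
  have hNF₂ : NF (swp R) b a d₁ (swp β₁) (swp α₁) (swp ζ₁) δ₁ ε :=
    hS2 n R a b d₁ α₁ β₁ ζ₁ ε δ₁ hNF₁
  obtain ⟨d₃, α₃, β₃, ζ₃, hNF₃⟩ :=
    hTw n (swp R) b a s hn hR' d₁ (swp β₁) (swp α₁) (swp ζ₁) δ₁ ε hNF₂ δ hδ
  have hNF₄ := hS2 n (swp R) b a d₃ α₃ β₃ ζ₃ δ ε hNF₃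
  rw [hS3] at hNF₄
  exact ⟨d₃, swp β₃, swp α₃, swp ζ₃, hNF₄⟩

end Pool.Agent.RSV
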