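import Pool.Agent.RSV.StN

/-!
# RSV, module Nec (necessity), helper63
-/

set_option autoImplicit false

namespace Pool.Agent.RSV

open Finset Filter Topology

/-! ### the chain rule, homogeneity, double roots -/

private theorem Nec_chain {k σ A : Type} [Fintype σ] [CommRing k] [CommRing A] [Algebra k A]
    (D : Derivation k A A) (g : σ → A) (R : MvPolynomial σ k) :
    D (MvPolynomial.aeval g R) =
      ∑ j, MvPolynomial.aeval g (MvPolynomial.pderiv j R) * D (g j) := by
  classical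
  induction R using MvPolynomial.induction_on with
  | C a =>
    simp [MvPolynomial.algHom_C]
  | add p q hp hq =>
    simp only [map_add, hp, hq, add_mul, sum_add_distrib]
  | mul_X p i hp =>
    rw [map_mul, MvPolynomial.aeval_X, Derivation.leibniz, hp]
    simp only [MvPolynomial.pderiv_mul, map_add, map_mul, MvPolynomial.aeval_X, add_mul,
      sum_add_distrib, smul_eq_mul, MvPolynomial.pderiv_X]
    rw [add_comm]
    congr 1
    · rw [mul_sum]; refine sum_congr rfl fun j _ => ?_; ring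
    · rw [sum_eq_single i]
      · simp
      · intro j _ hj
        simp [hj.symm]
      · intro h; exact absurd (mem_univ i) h

private theorem Nec_smul {k : Type} [CommRing k] {n : ℕ} {f : MvPolynomial (Fin 3) k}
    (hf : f.IsHomogeneous n) (c : k)
    (v : Fin 3 → k) : MvPolynomial.eval (fun i => c * v i) f = c ^ n * MvPolynomial.eval v f := by
  rw [MvPolynomial.eval_eq, MvPolynomial.eval_eq, mul_sum]
  refine sum_congr rfl fun d hd => ?_
  have h1 : ∑ i ∈ d.support, d i = n := by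
    have := hf.degree_eq_sum_deg_support hd
    exact this.symm
  simp only [mul_pow, prod_mul_distrib]
  rw [prod_pow_eq_pow_sum, h1]
  ring

private theorem Nec_inj {n : ℕ} (a f : Fin n → ℝ) (hf : Function.Injective f)
    (h : ∀ k, ∏ i, (f k - a i ^ 2) = 0) :
    Function.Injective (fun i => a i ^ 2) ∧ ∀ i, ∃ k, a i ^ 2 = f k := by
  have h' : ∀ k, ∃ i, f k = a i ^ 2 := by
    intro k
    obtain ⟨i, _, hi⟩ := prod_eq_zero_iff.mp (h k)
    exact ⟨i, sub_eq_zero.mp hi⟩
  choose σ hσ using h'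
  have hinj : Function.Injective σ := by
    intro k l hkl
    apply hf
    rw [hσ k, hσ l, hkl]
  have hsur : Function.Surjective σ := Finite.surjective_of_injective hinj
  constructor
  · intro i j hij
    obtain ⟨k, rfl⟩ := hsur i
    obtain ⟨l, rfl⟩ := hsur j
    have : f k = f l := by rw [hσ k, hσ l]; exact hij
    rw [hf this]
  · intro i
    obtain ⟨k, rfl⟩ := hsur i
    exact ⟨k, (hσ k).symm⟩

private theorem Nec_dbl {n : ℕ} (a : Fin n → ℝ) (ha : Function.Injective (fun i => a i ^ 2))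
    (R : TP) (y z : ℝ) (hR : ∀ t : ℝ, val R t y z = ∏ i, (t - a i ^ 2)) (t : ℂ)
    (h0 : MvPolynomial.aeval ![t, (y : ℂ), (z : ℂ)] R = 0)
    (h1 : MvPolynomial.aeval ![t, (y : ℂ), (z : ℂ)] (MvPolynomial.pderiv 0 R) = 0) : False := by
  set w : Fin 3 → Polynomial ℝ := ![Polynomial.X, Polynomial.C y, Polynomial.C z] with hw
  have hval : ∀ (F : TP), Polynomial.aeval t (MvPolynomial.aeval w F) =
      MvPolynomial.aeval ![t, (y : ℂ), (z : ℂ)] F := by
    intro F
    rw [MvPolynomial.comp_aeval_apply]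
    have : (fun i => Polynomial.aeval t (w i)) = ![t, (y : ℂ), (z : ℂ)] := by
      ext i; fin_cases i <;> simp [hw]
    rw [this]
  have hval2 : ∀ t : ℝ, (MvPolynomial.aeval w R).eval t = val R t y z := by
    intro t
    have h2 := MvPolynomial.comp_aeval_apply w (Polynomial.aeval t : Polynomial ℝ →ₐ[ℝ] ℝ) R
    rw [Polynomial.coe_aeval_eq_eval] at h2
    rw [h2, val, ← MvPolynomial.coe_aeval_eq_eval]
    have : (fun i => Polynomial.eval t (w i)) = ![t, y, z] := by
      ext i; fin_cases i <;> simp [hw]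
    rw [this]; rfl
  have hg : MvPolynomial.aeval w R = ∏ i, (Polynomial.X - Polynomial.C (a i ^ 2)) := by
    apply Polynomial.funext
    intro t
    rw [hval2, hR, Polynomial.eval_prod]
    simp
  have hder : Polynomial.derivative (MvPolynomial.aeval w R) =
      MvPolynomial.aeval w (MvPolynomial.pderiv 0 R) := by
    have h3 := Nec_chain (Polynomial.derivative' : Derivation ℝ (Polynomial ℝ) (Polynomial ℝ)) w R
    rw [Fin.sum_univ_three] at h3
    have h4 : (Polynomial.derivative' : Derivation ℝ (Polynomial ℝ) (Polynomial ℝ)) (w 0) = 1 := by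
      change Polynomial.derivative (Polynomial.X : Polynomial ℝ) = 1
      exact Polynomial.derivative_X
    have h5 : (Polynomial.derivative' : Derivation ℝ (Polynomial ℝ) (Polynomial ℝ)) (w 1) = 0 := by
      change Polynomial.derivative (Polynomial.C y : Polynomial ℝ) = 0
      exact Polynomial.derivative_C
    have h6 : (Polynomial.derivative' : Derivation ℝ (Polynomial ℝ) (Polynomial ℝ)) (w 2) = 0 := by
      change Polynomial.derivative (Polynomial.C z : Polynomial ℝ) = 0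
      exact Polynomial.derivative_C
    rw [h4, h5, h6, mul_one, mul_zero, mul_zero, add_zero, add_zero] at h3
    exact h3
  have hsep : (MvPolynomial.aeval w R : Polynomial ℝ).Separable := by
    rw [hg]
    exact Polynomial.separable_prod_X_sub_C_iff.mpr ha
  obtain ⟨u, v, huv⟩ := hsep
  have h7 := congrArg (Polynomial.aeval t) huv
  rw [map_add, map_mul, map_mul, hder, hval, hval, h0, h1, mul_zero, mul_zero, add_zero,
    map_one] at h7
  exact zero_ne_one h7

/-- the value at `(1, 0, 0)` -/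
private theorem Nec_one {n : ℕ} {a : Fin n → ℝ} {R : TP} (hom : R.IsHomogeneous n)
    (hR : ∀ t : ℝ, val R t 1 0 = ∏ i, (t - a i ^ 2)) : val R 1 0 0 = 1 := by
  set w : Fin 3 → Polynomial ℝ := ![1, Polynomial.X, 0] with hw
  have hval2 : ∀ t : ℝ, (MvPolynomial.aeval w R).eval t = val R 1 t 0 := by
    intro t
    have h2 := MvPolynomial.comp_aeval_apply w (Polynomial.aeval t : Polynomial ℝ →ₐ[ℝ] ℝ) R
    rw [Polynomial.coe_aeval_eq_eval] at h2
    rw [h2, val, ← MvPolynomial.coe_aeval_eq_eval]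
    have : (fun i => Polynomial.eval t (w i)) = ![1, t, 0] := by
      ext i; fin_cases i <;> simp [hw]
    rw [this]; rfl
  have h1 : Polynomial.X * MvPolynomial.aeval w R =
      Polynomial.X * ∏ i, (1 - Polynomial.C (a i ^ 2) * Polynomial.X) := by
    apply Polynomial.funext
    intro c
    rw [Polynomial.eval_mul, Polynomial.eval_mul, Polynomial.eval_X, hval2, Polynomial.eval_prod]
    by_cases hc : c = 0
    · rw [hc, zero_mul, zero_mul]
    · congr 1
      have h2 := Nec_smul hom c ![1 / c, 1, 0]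
      have h3 : (fun i => c * (![1 / c, 1, 0] : Fin 3 → ℝ) i) = ![1, c, 0] := by
        ext i; fin_cases i
        · simp; field_simp
        · simp
        · simp
      rw [h3] at h2
      have h4 : MvPolynomial.eval ![1 / c, 1, 0] R = ∏ i, (1 / c - a i ^ 2) := hR (1 / c)
      have h6 : c ^ n = ∏ _i : Fin n, c := by simp
      rw [h4, h6, ← Finset.prod_mul_distrib] at h2
      rw [val, h2]
      refine prod_congr rfl fun i _ => ?_
      simp
      field_simp
  have h5 := mul_left_cancel₀ Polynomial.X_ne_zero h1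
  rw [← hval2, h5, Polynomial.eval_prod]
  simp

/-! ### complexification -/

private theorem Nec_ev (R : TP) (v : Fin 3 → ℂ) :
    MvPolynomial.eval v (MvPolynomial.map (algebraMap ℝ ℂ) R) = MvPolynomial.aeval v R := by
  rw [MvPolynomial.eval_map, ← MvPolynomial.aeval_def]

private theorem Nec_smulc {n : ℕ} {R : TP} (hom : R.IsHomogeneous n) (c : ℂ) (hc : c ≠ 0)
    (p q : Fin 3 → ℂ) (hp : (fun i => c * p i) = q) (h0 : MvPolynomial.aeval q R = 0) :
    MvPolynomial.aeval p R = 0 := by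
  have h1 := Nec_smul (hom.map (algebraMap ℝ ℂ)) c p
  rw [hp, Nec_ev, h0, Nec_ev] at h1
  exact (mul_eq_zero.mp h1.symm).resolve_left (pow_ne_zero _ hc)

private theorem Nec_val (R : TP) (x y z : ℝ) :
    MvPolynomial.aeval ![(x : ℂ), (y : ℂ), (z : ℂ)] R = (val R x y z : ℂ) := by
  have h1 := MvPolynomial.comp_aeval_apply ![x, y, z] (Complex.ofRealAm : ℝ →ₐ[ℝ] ℂ) R
  have h2 : (fun i => Complex.ofRealAm ((![x, y, z] : Fin 3 → ℝ) i)) =
      ![(x : ℂ), (y : ℂ), (z : ℂ)] := by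
    ext i; fin_cases i <;> simp
  rw [h2] at h1
  rw [← h1, val, ← MvPolynomial.coe_aeval_eq_eval]
  rfl

/-- Euler -/
private theorem Nec_eul {n : ℕ} {R : TP} (hom : R.IsHomogeneous n) (x y z : ℝ) :
    x * val (MvPolynomial.pderiv 0 R) x y z + y * val (MvPolynomial.pderiv 1 R) x y z +
      z * val (MvPolynomial.pderiv 2 R) x y z = n * val R x y z := by
  have h1 := congrArg (MvPolynomial.eval ![x, y, z]) hom.sum_X_mul_pderiv
  rw [map_sum, Fin.sum_univ_three] at h1
  simpa [val] using h1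

/-! ### binary forms -/

/-- the substitution `X_(e j) ↦ X_j`, the other variables `↦ 0` -/
private noncomputable def Nec_g {K : Type} [CommRing K] (e : Fin 2 → Fin 3) (i : Fin 3) :
    MvPolynomial (Fin 2) K := ∑ j, if e j = i then MvPolynomial.X j else 0

/-- the point with the coordinates `v` -/
private def Nec_p (e : Fin 2 → Fin 3) (v : Fin 2 → ℂ) (i : Fin 3) : ℂ :=
  ∑ j, if e j = i then v j else 0

private theorem Nec_gh {K : Type} [CommRing K] (e : Fin 2 → Fin 3) (i : Fin 3) :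
    (Nec_g e i : MvPolynomial (Fin 2) K).IsHomogeneous 1 := by
  refine MvPolynomial.IsHomogeneous.sum _ _ _ fun j _ => ?_
  split_ifs
  · exact MvPolynomial.isHomogeneous_X _ _
  · exact MvPolynomial.isHomogeneous_zero _ _ _

private theorem Nec_ge (e : Fin 2 → Fin 3) (v : Fin 2 → ℂ) (F : MvPolynomial (Fin 3) ℂ) :
    MvPolynomial.eval v (MvPolynomial.aeval (Nec_g e) F) = MvPolynomial.eval (Nec_p e v) F := by
  rw [← MvPolynomial.coe_aeval_eq_eval v]
  change MvPolynomial.aeval v _ = _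
  rw [MvPolynomial.comp_aeval_apply, ← MvPolynomial.coe_aeval_eq_eval]
  change _ = MvPolynomial.aeval _ _
  congr 1
  congr 1
  ext i
  simp only [Nec_g, Nec_p, map_sum]
  refine sum_congr rfl fun j _ => ?_
  split_ifs <;> simp

private theorem Nec_gd (e : Fin 2 → Fin 3) (v : Fin 2 → ℂ) (k : Fin 2)
    (F : MvPolynomial (Fin 3) ℂ) :
    MvPolynomial.eval v (MvPolynomial.pderiv k (MvPolynomial.aeval (Nec_g e) F)) =
      MvPolynomial.eval (Nec_p e v) (MvPolynomial.pderiv (e k) F) := by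
  have h1 := Nec_chain (MvPolynomial.pderiv k : Derivation ℂ (MvPolynomial (Fin 2) ℂ)
    (MvPolynomial (Fin 2) ℂ)) (Nec_g e) F
  rw [h1, map_sum, sum_eq_single (e k)]
  · rw [map_mul, Nec_ge]
    have h2 : MvPolynomial.pderiv k (Nec_g e (e k) : MvPolynomial (Fin 2) ℂ) = 1 := by
      rw [Nec_g, map_sum, sum_eq_single k]
      · simp
      · intro j _ hj
        split_ifs
        · exact MvPolynomial.pderiv_X_of_ne hj
        · simp
      · intro h; exact absurd (mem_univ k) h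
    rw [h2, map_one, mul_one]
  · intro i _ hi
    have h2 : MvPolynomial.pderiv k (Nec_g e i : MvPolynomial (Fin 2) ℂ) = 0 := by
      rw [Nec_g, map_sum]
      refine sum_eq_zero fun j _ => ?_
      split_ifs with h3
      · apply MvPolynomial.pderiv_X_of_ne
        rintro rfl
        exact hi h3.symm
      · simp
    rw [h2, mul_zero, map_zero]
  · intro h; exact absurd (mem_univ _) h

private theorem Nec_map {K L : Type} [CommRing K] [CommRing L] (φ : K →+* L) (e : Fin 2 → Fin 3)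
    (F : MvPolynomial (Fin 3) K) : MvPolynomial.map φ (MvPolynomial.aeval (Nec_g e) F) =
      MvPolynomial.aeval (Nec_g e) (MvPolynomial.map φ F) := by
  have h1 := MvPolynomial.map_bind₁ φ (Nec_g e) F
  have h2 : (fun i => MvPolynomial.map φ (Nec_g e i : MvPolynomial (Fin 2) K)) =
      (Nec_g e : Fin 3 → MvPolynomial (Fin 2) L) := by
    ext1 i
    simp only [Nec_g, map_sum]
    refine sum_congr rfl fun j _ => ?_
    split_ifs <;> simp
  rw [h2] at h1
  exact h1

/-- smoothness of a binary form obtained from `R` -/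
private theorem Nec_sb {e : Fin 2 → Fin 3} {R : TP}
    (h : SmC (MvPolynomial.aeval (Nec_g e) (MvPolynomial.map (algebraMap ℝ ℂ) R) :
      MvPolynomial (Fin 2) ℂ)) (v : Fin 2 → ℂ) (hv : v ≠ 0)
    (h0 : MvPolynomial.aeval (Nec_p e v) R = 0) :
    ∃ k, MvPolynomial.aeval (Nec_p e v) (MvPolynomial.pderiv (e k) R) ≠ 0 := by
  obtain ⟨k, hk⟩ := h v hv (by rw [Nec_ge, Nec_ev]; exact h0)
  refine ⟨k, ?_⟩
  rw [Nec_gd, MvPolynomial.pderiv_map, Nec_ev] at hk
  exact hk

private theorem Nec_bs {e : Fin 2 → Fin 3} {R : TP}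
    (h : ∀ v : Fin 2 → ℂ, v ≠ 0 → MvPolynomial.aeval (Nec_p e v) R = 0 →
      ∃ k, MvPolynomial.aeval (Nec_p e v) (MvPolynomial.pderiv (e k) R) ≠ 0) :
    SmC (MvPolynomial.aeval (Nec_g e) (MvPolynomial.map (algebraMap ℝ ℂ) R) :
      MvPolynomial (Fin 2) ℂ) := by
  intro v hv h0
  rw [Nec_ge, Nec_ev] at h0
  obtain ⟨k, hk⟩ := h v hv h0
  refine ⟨k, ?_⟩
  rw [Nec_gd, MvPolynomial.pderiv_map, Nec_ev]
  exact hk

private theorem Nec_p01 (v : Fin 2 → ℂ) : Nec_p ![0, 1] v = ![v 0, v 1, 0] := by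
  ext i; fin_cases i <;> simp [Nec_p, Fin.sum_univ_two]

private theorem Nec_p02 (v : Fin 2 → ℂ) : Nec_p ![0, 2] v = ![v 0, 0, v 1] := by
  ext i; fin_cases i <;> simp [Nec_p, Fin.sum_univ_two]

private theorem Nec_p12 (v : Fin 2 → ℂ) : Nec_p ![1, 2] v = ![0, v 0, v 1] := by
  ext i; fin_cases i <;> simp [Nec_p, Fin.sum_univ_two]

/-- the binary forms of a good form -/
private theorem Nec_good {n : ℕ} {R : TP} {a b s : Fin n → ℝ} (h : Good R a b s) :
    SmC (MvPolynomial.aeval (Nec_g ![0, 1]) (MvPolynomial.map (algebraMap ℝ ℂ) R) :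
      MvPolynomial (Fin 2) ℂ) ∧
    SmC (MvPolynomial.aeval (Nec_g ![0, 2]) (MvPolynomial.map (algebraMap ℝ ℂ) R) :
      MvPolynomial (Fin 2) ℂ) ∧ val R 0 1 0 ≠ 0 ∧ val R 0 0 1 ≠ 0 := by
  obtain ⟨f, hf, hf'⟩ := h.hyp 1 0 zero_le_one le_rfl (Or.inl one_ne_zero)
  obtain ⟨g, hg, hg'⟩ := h.hyp 0 1 le_rfl zero_le_one (Or.inr one_ne_zero)
  obtain ⟨ha, ha'⟩ := Nec_inj a f hf (fun k => by rw [← h.ra]; exact (hf' k).2)
  obtain ⟨hb, hb'⟩ := Nec_inj b g hg (fun k => by rw [← h.rb]; exact (hg' k).2)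
  have h1 : val R 1 0 0 = 1 := Nec_one h.hom h.ra
  have h1' : MvPolynomial.aeval ![(1 : ℂ), 0, 0] R = 1 := by
    have := Nec_val R 1 0 0
    rw [h1] at this
    simpa using this
  have hx : ∀ x : ℂ, x ≠ 0 → MvPolynomial.aeval ![x, 0, 0] R ≠ 0 := by
    intro x hx h0
    have h2 := Nec_smulc h.hom x hx ![1, 0, 0] ![x, 0, 0]
      (by ext i; fin_cases i <;> simp) h0
    rw [h1'] at h2
    exact one_ne_zero h2
  refine ⟨?_, ?_, ?_, ?_⟩
  · apply Nec_bs
    intro v hv h0
    rw [Nec_p01] at h0 ⊢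
    refine ⟨0, ?_⟩
    intro hc
    by_cases hy : v 1 = 0
    · have hx0 : v 0 ≠ 0 := by
        intro hx0; apply hv; ext i; fin_cases i
        · exact hx0
        · exact hy
      rw [hy] at h0
      exact hx _ hx0 h0
    · have hq : (fun i => v 1 * (![v 0 / v 1, ((1 : ℝ) : ℂ), ((0 : ℝ) : ℂ)] : Fin 3 → ℂ) i) =
          ![v 0, v 1, 0] := by
        ext i; fin_cases i
        · simp; field_simp
        · simp
        · simp
      exact Nec_dbl a ha R 1 0 h.ra (v 0 / v 1) (Nec_smulc h.hom _ hy _ _ hq h0)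
        (Nec_smulc h.hom.pderiv _ hy _ _ hq hc)
  · apply Nec_bs
    intro v hv h0
    rw [Nec_p02] at h0 ⊢
    refine ⟨0, ?_⟩
    intro hc
    by_cases hy : v 1 = 0
    · have hx0 : v 0 ≠ 0 := by
        intro hx0; apply hv; ext i; fin_cases i
        · exact hx0
        · exact hy
      rw [hy] at h0
      exact hx _ hx0 h0
    · have hq : (fun i => v 1 * (![v 0 / v 1, ((0 : ℝ) : ℂ), ((1 : ℝ) : ℂ)] : Fin 3 → ℂ) i) =
          ![v 0, 0, v 1] := by
        ext i; fin_cases i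
        · simp; field_simp
        · simp
        · simp
      exact Nec_dbl b hb R 0 1 h.rb (v 0 / v 1) (Nec_smulc h.hom _ hy _ _ hq h0)
        (Nec_smulc h.hom.pderiv _ hy _ _ hq hc)
  · rw [h.ra, prod_ne_zero_iff]
    intro i _
    obtain ⟨k, hk⟩ := ha' i
    rw [hk, zero_sub, neg_ne_zero]
    exact (hf' k).1.ne'
  · rw [h.rb, prod_ne_zero_iff]
    intro i _
    obtain ⟨k, hk⟩ := hb' i
    rw [hk, zero_sub, neg_ne_zero]
    exact (hg' k).1.ne'

/-! ### the theorem -/

private theorem Nec_det {n : ℕ} {R R' : TP} {A B : Matrix (Fin n) (Fin n) ℂ} (h : DetR R A B)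
    (h' : DetR R' A B) : R = R' := by
  apply MvPolynomial.map_injective (algebraMap ℝ ℂ) (algebraMap ℝ ℂ).injective
  apply MvPolynomial.funext
  intro w
  obtain ⟨x, hx⟩ := IsAlgClosed.exists_pow_nat_eq (w 1) (n := 2) (by norm_num)
  obtain ⟨y, hy⟩ := IsAlgClosed.exists_pow_nat_eq (w 2) (n := 2) (by norm_num)
  have hw : w = ![w 0, x ^ 2, y ^ 2] := by
    rw [hx, hy]; ext i; fin_cases i <;> rfl
  rw [hw, Nec_ev, Nec_ev, h, h']

/-- **Nec** -/
theorem thm_Nec : St_Fam → St_RR → St_Gn → St_Ex → St_Suf → St_Eig → St_Nec := by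
  intro hFam hRR hGn hEx hSuf hEig n a b s hn hRz
  obtain ⟨A₀, B₀, hA₀, hB₀, hT₀⟩ := hRz
  obtain ⟨R₁, a₁, b₁, s₁, hG₁, hE₁⟩ := hEx n hn
  obtain ⟨A₁, B₁, hA₁, hB₁, -, hD₁⟩ := hSuf n R₁ a₁ b₁ s₁ hn hG₁
  obtain ⟨P, hP, hPt⟩ := hRR n A₀ B₀ A₁ B₁ hA₀.1 hB₀.1 hA₁.1 hB₁.1
  set Rt : ℝ → TP := fun t => MvPolynomial.map (Polynomial.evalRingHom t) P with hRt
  have hR1 : Rt 1 = R₁ := by
    have h1 := hPt 1
    rw [sub_self, Complex.ofReal_zero, Complex.ofReal_one, zero_smul, zero_smul, one_smul, one_smul,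
      zero_add, zero_add] at h1
    exact Nec_det h1 hD₁
  set PC : MvPolynomial (Fin 3) (Polynomial ℂ) :=
    MvPolynomial.map (Polynomial.mapRingHom (algebraMap ℝ ℂ)) P with hPC
  have hPCh : PC.IsHomogeneous n := hP.map _
  have hPCt : ∀ t : ℝ, MvPolynomial.map (Polynomial.evalRingHom (t : ℂ)) PC =
      MvPolynomial.map (algebraMap ℝ ℂ) (Rt t) := by
    intro t
    rw [hPC, hRt, MvPolynomial.map_map, MvPolynomial.map_map]
    have h1 : (Polynomial.evalRingHom (t : ℂ)).comp (Polynomial.mapRingHom (algebraMap ℝ ℂ)) =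
        (algebraMap ℝ ℂ).comp (Polynomial.evalRingHom t) := by
      apply Polynomial.ringHom_ext
      · intro r; simp
      · simp
    rw [h1]
  have hPC1 : MvPolynomial.map (Polynomial.evalRingHom (1 : ℂ)) PC =
      MvPolynomial.map (algebraMap ℝ ℂ) R₁ := by
    have h1 := hPCt 1
    rw [hR1, Complex.ofReal_one] at h1
    exact h1
  -- smooth
  have hS : {t : ℂ | ¬ SmC (MvPolynomial.map (Polynomial.evalRingHom t) PC)}.Finite := by
    apply hFam 3 n PC hn hPCh
    rw [hPC1]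
    intro v hv h0
    rw [Nec_ev] at h0
    obtain ⟨i, hi⟩ := hG₁.smooth v hv h0
    exact ⟨i, by rw [MvPolynomial.pderiv_map, Nec_ev]; exact hi⟩
  -- binary forms
  have hBin : ∀ e : Fin 2 → Fin 3, SmC (MvPolynomial.aeval (Nec_g e)
      (MvPolynomial.map (algebraMap ℝ ℂ) R₁) : MvPolynomial (Fin 2) ℂ) →
      {t : ℂ | ¬ SmC (MvPolynomial.aeval (Nec_g e)
        (MvPolynomial.map (Polynomial.evalRingHom t) PC) : MvPolynomial (Fin 2) ℂ)}.Finite := by
    intro e he
    have h1 := hFam 2 n (MvPolynomial.aeval (Nec_g e) PC : MvPolynomial (Fin 2) (Polynomial ℂ)) hn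
      (by
        have := hPCh.aeval (Nec_g e : Fin 3 → MvPolynomial (Fin 2) (Polynomial ℂ)) (Nec_gh e)
        rwa [one_mul] at this)
      (by rw [Nec_map, hPC1]; exact he)
    simp only [Nec_map] at h1
    exact h1
  obtain ⟨g1, g2, g4, g5⟩ := Nec_good hG₁
  have g3 : SmC (MvPolynomial.aeval (Nec_g ![1, 2]) (MvPolynomial.map (algebraMap ℝ ℂ) R₁) :
      MvPolynomial (Fin 2) ℂ) := by
    apply Nec_bs
    intro v hv h0
    rw [Nec_p12] at h0 ⊢
    rcases hE₁ v hv h0 with h | h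
    · exact ⟨0, h⟩
    · exact ⟨1, h⟩
  have hB1 := hBin _ g1
  have hB2 := hBin _ g2
  have hB3 := hBin _ g3
  -- two values
  have hval : ∀ (x y z t : ℝ), (MvPolynomial.eval
      ![Polynomial.C x, Polynomial.C y, Polynomial.C z] P).eval t = val (Rt t) x y z := by
    intro x y z t
    rw [val, hRt]
    change Polynomial.evalRingHom t _ = _
    rw [MvPolynomial.eval_map, MvPolynomial.eval, MvPolynomial.coe_eval₂Hom]
    rw [MvPolynomial.hom_eval₂]
    congr 1
    ext i; fin_cases i <;> simp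
  have hroot : ∀ x y z : ℝ, val R₁ x y z ≠ 0 → {t : ℝ | val (Rt t) x y z = 0}.Finite := by
    intro x y z h
    have h0 : MvPolynomial.eval ![Polynomial.C x, Polynomial.C y, Polynomial.C z] P ≠ 0 := by
      intro h0
      have h1 := hval x y z 1
      rw [h0, Polynomial.eval_zero, hR1] at h1
      exact h h1.symm
    refine (Polynomial.finite_setOfPred_isRoot h0).subset ?_
    intro t ht
    change Polynomial.eval t _ = 0
    rw [hval]; exact ht
  have hB4 := hroot 0 1 0 g4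
  have hB5 := hroot 0 0 1 g5
  have hfin : ({t : ℝ | (t : ℂ) ∈ {t : ℂ | ¬ SmC (MvPolynomial.map (Polynomial.evalRingHom t) PC)}} ∪
      {t : ℝ | (t : ℂ) ∈ {t : ℂ | ¬ SmC (MvPolynomial.aeval (Nec_g ![0, 1])
        (MvPolynomial.map (Polynomial.evalRingHom t) PC) : MvPolynomial (Fin 2) ℂ)}} ∪
      {t : ℝ | (t : ℂ) ∈ {t : ℂ | ¬ SmC (MvPolynomial.aeval (Nec_g ![0, 2])
        (MvPolynomial.map (Polynomial.evalRingHom t) PC) : MvPolynomial (Fin 2) ℂ)}} ∪
      {t : ℝ | (t : ℂ) ∈ {t : ℂ | ¬ SmC (MvPolynomial.aeval (Nec_g ![1, 2])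
        (MvPolynomial.map (Polynomial.evalRingHom t) PC) : MvPolynomial (Fin 2) ℂ)}} ∪
      {t : ℝ | val (Rt t) 0 1 0 = 0} ∪ {t : ℝ | val (Rt t) 0 0 1 = 0}).Finite := by
    refine ((((Set.Finite.union ?_ ?_).union ?_).union ?_).union hB4).union hB5
    · exact hS.preimage Complex.ofReal_injective.injOn
    · exact hB1.preimage Complex.ofReal_injective.injOn
    · exact hB2.preimage Complex.ofReal_injective.injOn
    · exact hB3.preimage Complex.ofReal_injective.injOn
  have hex : ∀ m : ℕ, ∃ t : ℝ, 0 < t ∧ t < 1 / ((m : ℝ) + 1) ∧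
      SmC (MvPolynomial.map (algebraMap ℝ ℂ) (Rt t)) ∧
      SmC (MvPolynomial.aeval (Nec_g ![0, 1]) (MvPolynomial.map (algebraMap ℝ ℂ) (Rt t)) :
        MvPolynomial (Fin 2) ℂ) ∧
      SmC (MvPolynomial.aeval (Nec_g ![0, 2]) (MvPolynomial.map (algebraMap ℝ ℂ) (Rt t)) :
        MvPolynomial (Fin 2) ℂ) ∧
      SmC (MvPolynomial.aeval (Nec_g ![1, 2]) (MvPolynomial.map (algebraMap ℝ ℂ) (Rt t)) :
        MvPolynomial (Fin 2) ℂ) ∧ val (Rt t) 0 1 0 ≠ 0 ∧ val (Rt t) 0 0 1 ≠ 0 := by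
    intro m
    have hm : (0 : ℝ) < 1 / ((m : ℝ) + 1) := by positivity
    obtain ⟨t, ht, ht'⟩ := (Set.Ioo_infinite hm).exists_notMem_finite hfin
    simp only [Set.mem_union, Set.mem_ofPred_eq, not_or, not_not, hPCt] at ht'
    obtain ⟨⟨⟨⟨⟨h1, h2⟩, h3⟩, h4⟩, h5⟩, h6⟩ := ht'
    exact ⟨t, ht.1, ht.2, h1, h2, h3, h4, h5, h6⟩
  choose t ht0 ht1 k0 k1 k2 k3 k4 k5 using hex
  have htt : Tendsto t atTop (𝓝 0) :=
    squeeze_zero (fun m => (ht0 m).le) (fun m => (ht1 m).le) tendsto_one_div_add_atTop_nhds_zero_nat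
  have hseg : ∀ M₀ M₁ : Matrix (Fin n) (Fin n) ℂ, Tendsto (fun m =>
      ((1 - t m : ℝ) : ℂ) • M₀ + ((t m : ℝ) : ℂ) • M₁) atTop (𝓝 M₀) := by
    intro M₀ M₁
    have hc : Continuous fun r : ℝ => ((1 - r : ℝ) : ℂ) • M₀ + ((r : ℝ) : ℂ) • M₁ := by
      fun_prop
    have h1 := (hc.tendsto 0).comp htt
    simpa [Function.comp_def] using h1
  have hher : ∀ (M₀ M₁ : Matrix (Fin n) (Fin n) ℂ), M₀.IsHermitian → M₁.IsHermitian → ∀ r : ℝ,
      (((1 - r : ℝ) : ℂ) • M₀ + ((r : ℝ) : ℂ) • M₁).IsHermitian := by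
    intro M₀ M₁ h0 h1 r
    unfold Matrix.IsHermitian
    rw [Matrix.conjTranspose_add, Matrix.conjTranspose_smul, Matrix.conjTranspose_smul, h0, h1]
    simp [Complex.conj_ofReal]
  obtain ⟨α, hα, hαt⟩ := hEig.1 n _ A₀ a (fun m => hher A₀ A₁ hA₀.1 hA₁.1 (t m)) (hseg A₀ A₁) hA₀
  obtain ⟨β, hβ, hβt⟩ := hEig.1 n _ B₀ b (fun m => hher B₀ B₁ hB₀.1 hB₁.1 (t m)) (hseg B₀ B₁) hB₀
  obtain ⟨γ, hγ, hγt⟩ := hEig.2 n (fun m => (((1 - t m : ℝ) : ℂ) • A₀ + ((t m : ℝ) : ℂ) • A₁) +
    Complex.I • (((1 - t m : ℝ) : ℂ) • B₀ + ((t m : ℝ) : ℂ) • B₁)) (A₀ + Complex.I • B₀) s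
    ((hseg A₀ A₁).add ((hseg B₀ B₁).const_smul Complex.I)) hT₀
  refine mem_closure_of_tendsto (hαt.prodMk_nhds (hβt.prodMk_nhds hγt))
    (Filter.Eventually.of_forall fun m => ⟨Rt (t m), ?_⟩)
  have hhom : (Rt (t m)).IsHomogeneous n := hP.map _
  refine hGn n (Rt (t m)) _ _ (α m) (β m) (γ m) hn hhom (hPt (t m)) ?_ (hα m) (hβ m) (hγ m)
    ?_ ?_ ?_ (k4 m) (k5 m)
  · intro v hv h0
    obtain ⟨i, hi⟩ := k0 m v hv (by rw [Nec_ev]; exact h0)
    rw [MvPolynomial.pderiv_map, Nec_ev] at hi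
    exact ⟨i, hi⟩
  · intro r h0 hc
    have he := Nec_eul hhom r 1 0
    rw [h0, hc] at he
    have h1 : val (MvPolynomial.pderiv 1 (Rt (t m))) r 1 0 = 0 := by linarith
    obtain ⟨k, hk⟩ := Nec_sb (k1 m) ![(r : ℂ), 1] (by
      intro h; have := congrFun h 1; simp at this) (by
      rw [Nec_p01]
      have := Nec_val (Rt (t m)) r 1 0
      rw [h0] at this
      simpa using this)
    apply hk
    rw [Nec_p01]
    fin_cases k
    · have := Nec_val (MvPolynomial.pderiv 0 (Rt (t m))) r 1 0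
      rw [hc] at this
      simpa using this
    · have := Nec_val (MvPolynomial.pderiv 1 (Rt (t m))) r 1 0
      rw [h1] at this
      simpa using this
  · intro r h0 hc
    have he := Nec_eul hhom r 0 1
    rw [h0, hc] at he
    have h1 : val (MvPolynomial.pderiv 2 (Rt (t m))) r 0 1 = 0 := by linarith
    obtain ⟨k, hk⟩ := Nec_sb (k2 m) ![(r : ℂ), 1] (by
      intro h; have := congrFun h 1; simp at this) (by
      rw [Nec_p02]
      have := Nec_val (Rt (t m)) r 0 1
      rw [h0] at this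
      simpa using this)
    apply hk
    rw [Nec_p02]
    fin_cases k
    · have := Nec_val (MvPolynomial.pderiv 0 (Rt (t m))) r 0 1
      rw [hc] at this
      simpa using this
    · have := Nec_val (MvPolynomial.pderiv 2 (Rt (t m))) r 0 1
      rw [h1] at this
      simpa using this
  · intro r h0 hc
    have he := Nec_eul hhom 0 1 r
    rw [h0, hc] at he
    have h1 : val (MvPolynomial.pderiv 1 (Rt (t m))) 0 1 r = 0 := by linarith
    obtain ⟨k, hk⟩ := Nec_sb (k3 m) ![1, (r : ℂ)] (by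
      intro h; have := congrFun h 0; simp at this) (by
      rw [Nec_p12]
      have := Nec_val (Rt (t m)) 0 1 r
      rw [h0] at this
      simpa using this)
    apply hk
    rw [Nec_p12]
    fin_cases k
    · have := Nec_val (MvPolynomial.pderiv 1 (Rt (t m))) 0 1 r
      rw [h1] at this
      simpa using this
    · have := Nec_val (MvPolynomial.pderiv 2 (Rt (t m))) 0 1 r
      rw [hc] at this
      simpa using this

end Pool.Agent.RSV
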