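import Pool.Agent.RSV.StD

/-!
# RSV NmD: the dimension of the quotient by a form (MP_08a990_an)
-/

set_option autoImplicit false

namespace Pool.Agent.RSV

open MvPolynomial Filter Topology Module
open scoped ComplexConjugate

private theorem NmD_det {d : ℕ} (M : Matrix (Fin d) (Fin d) ℂ) (x : Fin d → ℂ)
    (hM : M.charpoly = ∏ k, (Polynomial.X - Polynomial.C (x k))) (g : Polynomial ℂ) :
    (Polynomial.aeval M g).det = ∏ k, g.eval (x k) := by
  have hlin : ∀ c : ℂ, (Polynomial.aeval M (Polynomial.X - Polynomial.C c)).det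
      = ∏ k, (Polynomial.X - Polynomial.C c).eval (x k) := by
    intro c
    have h1 : Polynomial.aeval M (Polynomial.X - Polynomial.C c)
        = - (Matrix.scalar (Fin d) c - M) := by
      rw [map_sub, Polynomial.aeval_X, Polynomial.aeval_C, Matrix.algebraMap_eq_diagonal]
      simp [Matrix.scalar_apply]
    have h2 : (Matrix.scalar (Fin d) c - M).det = M.charpoly.eval c := by
      rw [Matrix.eval_charpoly]
    rw [h1, Matrix.det_neg, h2, hM, Polynomial.eval_prod, Fintype.card_fin]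
    simp only [Polynomial.eval_sub, Polynomial.eval_X, Polynomial.eval_C]
    rw [show (-1 : ℂ) ^ d = ∏ _k : Fin d, (-1 : ℂ) by simp, ← Finset.prod_mul_distrib]
    refine Finset.prod_congr rfl fun k _ => ?_
    ring
  have hsplit := IsAlgClosed.splits g
  have hg := hsplit.eq_prod_roots
  rw [hg, map_mul, Matrix.det_mul]
  simp only [Polynomial.eval_mul, Polynomial.eval_C, Finset.prod_mul_distrib]
  congr 1
  · rw [Polynomial.aeval_C, Matrix.algebraMap_eq_diagonal]
    simp
  · generalize g.roots = s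
    induction s using Multiset.induction_on with
    | empty => simp
    | cons c s ih =>
      rw [Multiset.map_cons, Multiset.prod_cons, map_mul, Matrix.det_mul, ih, hlin]
      simp only [Polynomial.eval_mul, Finset.prod_mul_distrib]

private theorem NmD_ofReal (F : TP) (t y : ℝ) :
    aeval ![(t : ℂ), 1, (y : ℂ) ^ 2] F = ((val F t 1 (y ^ 2) : ℝ) : ℂ) := by
  unfold val
  induction F using MvPolynomial.induction_on with
  | C r => simp
  | add p q hp hq => rw [map_add, map_add, hp, hq, Complex.ofReal_add]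
  | mul_X p i hp =>
    rw [map_mul, map_mul, Complex.ofReal_mul, hp]
    fin_cases i <;> simp

private theorem NmD_fin {n : ℕ} (F : BC) (hF : F.Monic) (hn : F.natDegree = n) (x : Fin n → ℂ)
    (y : ℂ) (hx : F.map (Polynomial.evalRingHom y) = ∏ k, (Polynomial.X - Polynomial.C (x k)))
    (g : BC) :
    (Algebra.norm (Polynomial ℂ) (AdjoinRoot.mk F g)).eval y = ∏ k, evc g (x k) y := by
  let pb := AdjoinRoot.powerBasis' hF
  have hd : pb.dim = n := by simpa [pb] using hn
  subst hd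
  have hgen : pb.gen = AdjoinRoot.root F := rfl
  set M := Algebra.leftMulMatrix pb.basis (AdjoinRoot.root F) with hMdef
  have hch : M.charpoly = F := by
    have h0 : Polynomial.aeval (AdjoinRoot.root F) M.charpoly = 0 := by
      apply Algebra.leftMulMatrix_injective pb.basis
      rw [map_zero, ← Polynomial.aeval_algHom_apply]
      exact Matrix.aeval_self_charpoly M
    rw [AdjoinRoot.aeval_eq, AdjoinRoot.mk_eq_zero] at h0
    have h1 : M.charpoly.natDegree = F.natDegree := by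
      rw [Matrix.charpoly_natDegree_eq_dim, Fintype.card_fin]
      simp [pb]
    exact Polynomial.eq_of_monic_of_dvd_of_natDegree_le hF (Matrix.charpoly_monic M) h0 h1.le
  have h2 : Algebra.norm (Polynomial ℂ) (AdjoinRoot.mk F g) = (Polynomial.aeval M g).det := by
    rw [Algebra.norm_eq_matrix_det pb.basis, hMdef, Polynomial.aeval_algHom_apply,
      AdjoinRoot.aeval_eq]
  have h3 : (Polynomial.aeval M g).det.eval y
      = (Polynomial.aeval (M.map (Polynomial.evalRingHom y))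
          (g.map (Polynomial.evalRingHom y))).det := by
    rw [← Polynomial.coe_evalRingHom, RingHom.map_det]
    congr 1
    have := Polynomial.map_aeval_eq_aeval_map (φ := Polynomial.evalRingHom y)
      (ψ := (Polynomial.evalRingHom y).mapMatrix (m := Fin pb.dim)) (by
        ext i j k
        · simp [Matrix.algebraMap_eq_diagonal, Matrix.diagonal_apply]
          split_ifs <;> simp
        · simp [Matrix.algebraMap_eq_diagonal, Matrix.diagonal_apply]
          split_ifs <;> simp) g M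
    simpa using this
  rw [h2, h3, NmD_det _ x (by rw [Matrix.charpoly_map, hch, hx])]
  rfl

private theorem NmD_hom {m : ℕ} {G : TP} (hG : G.IsHomogeneous m) (c x y z : ℝ) :
    val G (c * x) (c * y) (c * z) = c ^ m * val G x y z := by
  unfold val
  rw [MvPolynomial.eval_eq', MvPolynomial.eval_eq', Finset.mul_sum]
  refine Finset.sum_congr rfl fun d hd => ?_
  have h : d 0 + d 1 + d 2 = m := by
    by_contra hne
    have h0 : d.degree ≠ m := by
      rw [Finsupp.degree_eq_sum, Fin.sum_univ_three]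
      exact hne
    exact (MvPolynomial.mem_support_iff.mp hd) (hG.coeff_eq_zero h0)
  rw [Fin.prod_univ_three, Fin.prod_univ_three, ← h]
  simp only [Matrix.cons_val_zero, Matrix.cons_val_one, Matrix.cons_val, mul_pow, pow_add]
  ring

private theorem NmD_cont {G : TP} {f : ℝ → ℝ} {L : ℝ} (hf : Tendsto f (𝓝[>] 0) (𝓝 L)) :
    Tendsto (fun t : ℝ => val G (f t) (t ^ 2) 1) (𝓝[>] 0) (𝓝 (val G L 0 1)) := by
  unfold val
  have hc : Continuous fun v : Fin 3 → ℝ => eval v G := MvPolynomial.continuous_eval G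
  refine (hc.tendsto ![L, 0, 1]).comp ?_
  rw [tendsto_pi_nhds]
  intro i
  fin_cases i
  · simpa using hf
  · have : Tendsto (fun t : ℝ => t ^ 2) (𝓝[>] 0) (𝓝 (0 ^ 2)) :=
      (tendsto_nhdsWithin_of_tendsto_nhds tendsto_id).pow 2
    simpa using this
  · simp

private theorem NmD_poly (N : Polynomial ℂ) (E : ℕ) (Q : ℝ → ℝ) (Q₀ : ℝ) (hQ₀ : Q₀ ≠ 0)
    (hQ : Tendsto Q (𝓝[>] 0) (𝓝 Q₀))
    (hN : ∀ t : ℝ, 0 < t → N.eval ((t⁻¹ : ℝ) : ℂ) = (((t⁻¹) ^ E * Q t : ℝ) : ℂ)) :
    N ≠ 0 ∧ N.natDegree = E := by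
  have key : ∀ t : ℝ, 0 < t → N.reverse.eval (t : ℂ) * (t : ℂ) ^ E
      = (Q t : ℂ) * (t : ℂ) ^ N.natDegree := by
    intro t ht
    have ht' : (t : ℂ) ≠ 0 := by exact_mod_cast ht.ne'
    let _ : Invertible ((t : ℂ)⁻¹) := invertibleOfNonzero (inv_ne_zero ht')
    have h1 := Polynomial.eval₂_reverse_mul_pow (RingHom.id ℂ) ((t : ℂ)⁻¹) N
    rw [invOf_eq_inv, inv_inv] at h1
    have h2 := hN t ht
    rw [Complex.ofReal_inv] at h2
    change Polynomial.eval₂ (RingHom.id ℂ) _ N = _ at h2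
    rw [← h1] at h2
    change N.reverse.eval (t : ℂ) * _ = _ at h2
    push_cast at h2
    have hD : ((t : ℂ)⁻¹) ^ N.natDegree * (t : ℂ) ^ N.natDegree = 1 := by
      rw [← mul_pow, inv_mul_cancel₀ ht', one_pow]
    have hE : ((t : ℂ)⁻¹) ^ E * (t : ℂ) ^ E = 1 := by
      rw [← mul_pow, inv_mul_cancel₀ ht', one_pow]
    generalize ((t : ℂ)⁻¹) ^ N.natDegree = u at h2 hD
    generalize ((t : ℂ)⁻¹) ^ E = w at h2 hE
    linear_combination ((t : ℂ) ^ N.natDegree * (t : ℂ) ^ E) * h2
      - N.reverse.eval (t : ℂ) * (t : ℂ) ^ E * hD + (Q t : ℂ) * (t : ℂ) ^ N.natDegree * hE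
  have hid : Tendsto (fun t : ℝ => (t : ℂ)) (𝓝[>] 0) (𝓝 0) := by
    have := (Complex.continuous_ofReal.tendsto (0 : ℝ))
    rw [Complex.ofReal_zero] at this
    exact tendsto_nhdsWithin_of_tendsto_nhds this
  have hQc : Tendsto (fun t : ℝ => (Q t : ℂ)) (𝓝[>] 0) (𝓝 (Q₀ : ℂ)) :=
    (Complex.continuous_ofReal.tendsto Q₀).comp hQ
  have hQ0 : (Q₀ : ℂ) ≠ 0 := by exact_mod_cast hQ₀
  have hrev : Tendsto (fun t : ℝ => N.reverse.eval (t : ℂ)) (𝓝[>] 0) (𝓝 (N.reverse.eval 0)) :=
    (N.reverse.continuous.tendsto 0).comp hid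
  have hne : N ≠ 0 := by
    rintro rfl
    have h : Tendsto (fun t : ℝ => (Q t : ℂ)) (𝓝[>] 0) (𝓝 0) := by
      refine tendsto_const_nhds.congr' ?_
      filter_upwards [self_mem_nhdsWithin] with t ht
      have := key t ht
      simp only [Polynomial.reverse_zero, Polynomial.eval_zero, zero_mul,
        Polynomial.natDegree_zero, pow_zero, mul_one] at this
      exact this
    exact hQ0 (tendsto_nhds_unique hQc h)
  refine ⟨hne, ?_⟩
  have hlead : N.reverse.eval 0 ≠ 0 := by
    rw [← Polynomial.coeff_zero_eq_eval_zero, Polynomial.coeff_zero_reverse]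
    exact Polynomial.leadingCoeff_ne_zero.mpr hne
  rcases lt_trichotomy N.natDegree E with h | h | h
  · exfalso
    have h1 : Tendsto (fun t : ℝ => N.reverse.eval (t : ℂ) * (t : ℂ) ^ (E - N.natDegree))
        (𝓝[>] 0) (𝓝 (N.reverse.eval 0 * 0 ^ (E - N.natDegree))) := hrev.mul (hid.pow _)
    rw [zero_pow (by omega), mul_zero] at h1
    have h2 : Tendsto (fun t : ℝ => (Q t : ℂ)) (𝓝[>] 0) (𝓝 0) := by
      refine h1.congr' ?_
      filter_upwards [self_mem_nhdsWithin] with t ht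
      have ht' : (t : ℂ) ≠ 0 := by exact_mod_cast (ne_of_gt (show (0 : ℝ) < t from ht))
      have h3 := key t ht
      have h4 : (t : ℂ) ^ E = (t : ℂ) ^ (E - N.natDegree) * (t : ℂ) ^ N.natDegree := by
        rw [← pow_add]
        congr 1
        omega
      rw [h4, ← mul_assoc] at h3
      exact mul_right_cancel₀ (pow_ne_zero _ ht') h3
    exact hQ0 (tendsto_nhds_unique hQc h2)
  · exact h
  · exfalso
    have h1 : Tendsto (fun t : ℝ => (Q t : ℂ) * (t : ℂ) ^ (N.natDegree - E))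
        (𝓝[>] 0) (𝓝 ((Q₀ : ℂ) * 0 ^ (N.natDegree - E))) := hQc.mul (hid.pow _)
    rw [zero_pow (by omega), mul_zero] at h1
    have h2 : Tendsto (fun t : ℝ => N.reverse.eval (t : ℂ)) (𝓝[>] 0) (𝓝 0) := by
      refine h1.congr' ?_
      filter_upwards [self_mem_nhdsWithin] with t ht
      have ht' : (t : ℂ) ≠ 0 := by exact_mod_cast (ne_of_gt (show (0 : ℝ) < t from ht))
      have h3 := key t ht
      have h4 : (t : ℂ) ^ N.natDegree = (t : ℂ) ^ (N.natDegree - E) * (t : ℂ) ^ E := by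
        rw [← pow_add]
        congr 1
        omega
      rw [h4, ← mul_assoc] at h3
      exact (mul_right_cancel₀ (pow_ne_zero _ ht') h3).symm
    exact hlead (tendsto_nhds_unique hrev h2)

theorem thm_NmD : St_Mon → St_Irb → St_Rt → St_NmD := by
  intro hMon hIrb hRt n R a b s hn hG m G hGm hGb
  obtain ⟨-, -, ⟨hmon, hdeg, -⟩, -, hev⟩ := hMon n R a b s hn hG
  have hirr := hIrb n R a b s hn hG
  obtain ⟨x, hx⟩ := hRt n R a b s hn hG
  have hdom : IsDomain (AdjoinRoot (chc R)) :=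
    AdjoinRoot.isDomain_of_prime (UniqueFactorizationMonoid.irreducible_iff_prime.mp hirr)
  set g := AdjoinRoot.mk (chc R) (chc G) with hg
  set N := Algebra.norm (Polynomial ℂ) g with hNdef
  have hsplit : ∀ y : ℝ, (chc R).map (Polynomial.evalRingHom (y : ℂ))
      = ∏ k, (Polynomial.X - Polynomial.C ((x k 1 (y ^ 2) : ℝ) : ℂ)) := by
    intro y
    apply Polynomial.eq_of_infinite_eval_eq
    refine Set.Infinite.mono ?_ (Set.infinite_range_of_injective Complex.ofReal_injective)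
    rintro _ ⟨t, rfl⟩
    have h1 : evc (chc R) (t : ℂ) (y : ℂ) = ((val R t 1 (y ^ 2) : ℝ) : ℂ) := by
      rw [hev, NmD_ofReal]
    have h2 := hx.prod 1 (y ^ 2) zero_le_one (sq_nonneg y) (Or.inl one_ne_zero) t
    change evc (chc R) (t : ℂ) (y : ℂ) = _
    rw [h1, h2, Polynomial.eval_prod]
    push_cast
    simp
  have hval : ∀ y : ℝ, N.eval (y : ℂ)
      = ((∏ k, val G (x k 1 (y ^ 2)) 1 (y ^ 2) : ℝ) : ℂ) := by
    intro y
    rw [hNdef, hg, NmD_fin (chc R) hmon hdeg _ _ (hsplit y) (chc G)]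
    push_cast
    refine Finset.prod_congr rfl fun k _ => ?_
    rw [hev, NmD_ofReal]
  let Q : ℝ → ℝ := fun t => ∏ k, val G (x k (t ^ 2) 1) (t ^ 2) 1
  let Q₀ : ℝ := ∏ k, val G (x k 0 1) 0 1
  have hQ0 : Q₀ ≠ 0 := by
    refine Finset.prod_ne_zero_iff.mpr fun k _ => ?_
    have h1 : val R (x k 0 1) 0 1 = 0 := by
      rw [hx.prod 0 1 le_rfl zero_le_one (Or.inr one_ne_zero) (x k 0 1)]
      exact Finset.prod_eq_zero (Finset.mem_univ k) (sub_self _)
    rw [hG.rb] at h1
    obtain ⟨j, -, hj⟩ := Finset.prod_eq_zero_iff.mp h1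
    rw [sub_eq_zero.mp hj]
    exact hGb j
  have hQ : Tendsto Q (𝓝[>] 0) (𝓝 Q₀) := by
    refine tendsto_finsetProd _ fun k _ => NmD_cont ?_
    have h1 := hx.cont k (0, 1) ⟨le_rfl, zero_le_one, Or.inr one_ne_zero⟩
    refine Tendsto.comp (f := fun t : ℝ => ((t ^ 2, 1) : ℝ × ℝ)) h1.tendsto ?_
    rw [tendsto_nhdsWithin_iff]
    constructor
    · refine Tendsto.prodMk_nhds ?_ tendsto_const_nhds
      have : Tendsto (fun t : ℝ => t ^ 2) (𝓝[>] 0) (𝓝 (0 ^ 2)) :=
        (tendsto_nhdsWithin_of_tendsto_nhds tendsto_id).pow 2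
      simpa using this
    · exact Eventually.of_forall fun t => ⟨sq_nonneg t, zero_le_one, Or.inr one_ne_zero⟩
  have hN : ∀ t : ℝ, 0 < t →
      N.eval ((t⁻¹ : ℝ) : ℂ) = (((t⁻¹) ^ (2 * n * m) * Q t : ℝ) : ℂ) := by
    intro t ht
    rw [hval]
    congr 1
    have h1 : ∀ k, val G (x k 1 (t⁻¹ ^ 2)) 1 (t⁻¹ ^ 2)
        = (t⁻¹ ^ 2) ^ m * val G (x k (t ^ 2) 1) (t ^ 2) 1 := by
      intro k
      have hc : (0 : ℝ) < t⁻¹ ^ 2 := by positivity
      have h2 := hx.hom (t ^ 2) 1 (t⁻¹ ^ 2) (sq_nonneg t) zero_le_one (Or.inr one_ne_zero) hc k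
      have h3 : t⁻¹ ^ 2 * t ^ 2 = 1 := by
        rw [← mul_pow, inv_mul_cancel₀ ht.ne', one_pow]
      rw [h3, mul_one] at h2
      have h4 := NmD_hom hGm (t⁻¹ ^ 2) (x k (t ^ 2) 1) (t ^ 2) 1
      rw [h3, mul_one, ← h2] at h4
      exact h4
    rw [Finset.prod_congr rfl fun k _ => h1 k, Finset.prod_mul_distrib, Finset.prod_const,
      Finset.card_univ, Fintype.card_fin]
    congr 1
    rw [← pow_mul, ← pow_mul]
    congr 1
    ring
  obtain ⟨hN0, hNd⟩ := NmD_poly N (2 * n * m) Q Q₀ hQ0 hQ hN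
  have hfree : Module.Free (Polynomial ℂ) (AdjoinRoot (chc R)) :=
    Module.Free.of_basis (AdjoinRoot.powerBasis' hmon).basis
  have hfin : Module.Finite (Polynomial ℂ) (AdjoinRoot (chc R)) :=
    Module.Finite.of_basis (AdjoinRoot.powerBasis' hmon).basis
  have hg0 : g ≠ 0 := by
    intro h
    apply hN0
    rw [hNdef, h, Algebra.norm_zero]
  have hrank : finrank ℂ (AdjoinRoot (chc R) ⧸ Ideal.span {g}) = 2 * n * m := by
    rw [finrank_quotient_span_eq_natDegree_norm (AdjoinRoot.powerBasis' hmon).basis hg0]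
    exact hNd
  refine ⟨hg0, ?_, hrank⟩
  rcases Nat.eq_zero_or_pos m with hm | hm
  · subst hm
    have hGC : G = C (coeff 0 G) := by
      rw [← MvPolynomial.totalDegree_eq_zero_iff_eq_C]
      exact Nat.le_zero.mp hGm.totalDegree_le
    have hc : coeff 0 G ≠ 0 := by
      intro h
      rw [h, map_zero] at hGC
      apply hGb ⟨0, hn⟩
      rw [hGC]
      simp [val]
    have hu : IsUnit g := by
      rw [hg, hGC]
      apply IsUnit.map
      unfold chc
      rw [eval₂_C]
      exact IsUnit.map _ (isUnit_iff_ne_zero.mpr hc)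
    rw [Ideal.span_singleton_eq_top.mpr hu]
    infer_instance
  · apply Module.finite_of_finrank_pos
    rw [hrank]
    positivity

end Pool.Agent.RSV
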