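import Pool.Agent.RSV.StC

set_option autoImplicit false

namespace Pool.Agent.RSV

open MvPolynomial Filter Topology

private lemma Nn_deriv (p : TP) (v : ℝ → Fin 3 → ℝ) (v' : Fin 3 → ℝ) (t : ℝ)
    (h : ∀ i, HasDerivAt (fun s => v s i) (v' i) t) :
    HasDerivAt (fun s => eval (v s) p) (∑ i, v' i * eval (v t) (pderiv i p)) t := by
  induction p using MvPolynomial.induction_on with
  | C a => simpa using hasDerivAt_const t a
  | add p q hp hq =>
    have h1 := hp.add hq
    have e1 : (∑ i, v' i * eval (v t) (pderiv i p)) + (∑ i, v' i * eval (v t) (pderiv i q))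
        = ∑ i, v' i * eval (v t) (pderiv i (p + q)) := by
      rw [← Finset.sum_add_distrib]
      refine Finset.sum_congr rfl fun i _ => ?_
      rw [map_add, map_add]; ring
    rw [← e1]
    refine h1.congr_of_eventuallyEq (Eventually.of_forall fun s => ?_)
    simp
  | mul_X p j hp =>
    have h1 := hp.mul (h j)
    have e1 : (∑ i, v' i * eval (v t) (pderiv i p)) * v t j + eval (v t) p * v' j
        = ∑ i, v' i * eval (v t) (pderiv i (p * X j)) := by
      have e2 : ∀ i, v' i * eval (v t) (pderiv i (p * X j))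
          = v' i * eval (v t) (pderiv i p) * v t j + (if i = j then eval (v t) p * v' j else 0) := by
        intro i
        rw [Derivation.leibniz, pderiv_X, smul_eq_mul, smul_eq_mul, map_add, map_mul, map_mul, eval_X]
        by_cases hij : i = j
        · subst hij; simp; ring
        · rw [if_neg hij, Pi.single_eq_of_ne (Ne.symm hij)]; simp; ring
      rw [Finset.sum_congr rfl fun i _ => e2 i, Finset.sum_add_distrib, ← Finset.sum_mul]
      simp
    rw [← e1]
    refine h1.congr_of_eventuallyEq (Eventually.of_forall fun s => ?_)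
    simp

private lemma Nn_dz (p : TP) (x z : ℝ) :
    HasDerivAt (fun s => val p x 1 s) (val (pderiv 2 p) x 1 z) z := by
  have h := Nn_deriv p (fun s => ![x, 1, s]) ![0, 0, 1] z (by
    intro i
    fin_cases i
    · simpa using hasDerivAt_const z x
    · simpa using hasDerivAt_const z (1 : ℝ)
    · exact hasDerivAt_id z)
  simpa [Fin.sum_univ_three, val] using h

private lemma Nn_dx (p : TP) (x z : ℝ) :
    HasDerivAt (fun s => val p s 1 z) (val (pderiv 0 p) x 1 z) x := by
  have h := Nn_deriv p (fun s => ![s, 1, z]) ![1, 0, 0] x (by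
    intro i
    fin_cases i
    · exact hasDerivAt_id x
    · simpa using hasDerivAt_const x (1 : ℝ)
    · simpa using hasDerivAt_const x z)
  simpa [Fin.sum_univ_three, val] using h

private lemma Nn_cont (p : TP) : Continuous fun q : ℝ × ℝ => val p q.1 1 q.2 := by
  unfold val
  refine (MvPolynomial.continuous_eval p).comp ?_
  refine continuous_pi fun i => ?_
  fin_cases i
  · simpa using continuous_fst
  · simpa using continuous_const
  · simpa using continuous_snd

/-- homogeneity -/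
private lemma Nn_hom {n : ℕ} (p : TP) (hp : p.IsHomogeneous n) (c x y z : ℝ) :
    val p (c * x) (c * y) (c * z) = c ^ n * val p x y z := by
  unfold val
  have e : (![c * x, c * y, c * z] : Fin 3 → ℝ) = c • ![x, y, z] := by
    ext i; fin_cases i <;> simp
  rw [e, eval_eq', eval_eq', Finset.mul_sum]
  refine Finset.sum_congr rfl fun d hd => ?_
  have hn : ∑ i, d i = n := by
    have h1 := hp (mem_support_iff.mp hd)
    rw [← h1, Finsupp.weight_apply, Finsupp.sum_fintype _ _ (fun i => by simp)]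
    simp
  have h2 : ∏ i, (c • ![x, y, z]) i ^ d i = c ^ n * ∏ i, ![x, y, z] i ^ d i := by
    rw [← hn, ← Finset.prod_pow_eq_pow_sum, ← Finset.prod_mul_distrib]
    refine Finset.prod_congr rfl fun i _ => ?_
    rw [Pi.smul_apply, smul_eq_mul, mul_pow]
  rw [h2]; ring

private lemma Nn_swp (p : TP) (x y z : ℝ) : val (swp p) x y z = val p x z y := by
  unfold val swp
  rw [eval_rename]
  have e : (![x, y, z] : Fin 3 → ℝ) ∘ (Equiv.swap (1 : Fin 3) 2) = ![x, z, y] := by
    ext i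
    fin_cases i
    · rfl
    · rfl
    · rfl
  rw [e]

private lemma Nn_box (g gx gz : ℝ → ℝ → ℝ) (hx : ∀ x z, HasDerivAt (fun s => g s z) (gx x z) x)
    (hz : ∀ x z, HasDerivAt (fun s => g x s) (gz x z) z)
    (cx : Continuous fun q : ℝ × ℝ => gx q.1 q.2) (cz : Continuous fun q : ℝ × ℝ => gz q.1 q.2)
    (z₀ η₀ : ℝ) (hη : 0 < η₀) (h0 : g 0 z₀ = 0) (h1 : gz 0 z₀ ≠ 0) :
    ∃ (δ η K : ℝ) (φ : ℝ → ℝ), 0 < δ ∧ 0 < η ∧ η ≤ η₀ ∧ 0 ≤ K ∧
      (∀ x, |x| < δ → |φ x - z₀| < η ∧ g x (φ x) = 0) ∧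
      (∀ x z, |x| < δ → |z - z₀| < η → g x z = 0 → z = φ x) ∧
      (∀ x x', |x| < δ → |x'| < δ → |φ x - φ x'| ≤ K * |x - x'|) := by
  obtain ⟨L, hL⟩ : ∃ L, L = gz 0 z₀ := ⟨_, rfl⟩
  obtain ⟨M, hM⟩ : ∃ M, M = |gx 0 z₀| + 1 := ⟨_, rfl⟩
  rw [← hL] at h1
  have hLp : 0 < |L| := abs_pos.2 h1
  have hMp : 0 < M := by rw [hM]; positivity
  obtain ⟨ρ₁, hρ₁, k₁⟩ := Metric.continuousAt_iff.1 (cz.continuousAt (x := (0, z₀))) (|L| / 2)
    (by positivity)
  obtain ⟨ρ₂, hρ₂, k₂⟩ := Metric.continuousAt_iff.1 (cx.continuousAt (x := (0, z₀))) 1 one_pos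
  obtain ⟨ρ, hρ⟩ : ∃ ρ, ρ = min ρ₁ ρ₂ := ⟨_, rfl⟩
  have hρp : 0 < ρ := by rw [hρ]; exact lt_min hρ₁ hρ₂
  have bz : ∀ x z, |x| < ρ → |z - z₀| < ρ → |gz x z - L| ≤ |L| / 2 := by
    intro x z h h'
    have e := @k₁ (x, z) (by
      rw [Prod.dist_eq, Real.dist_eq, Real.dist_eq]
      simp only [sub_zero]
      exact max_lt (lt_of_lt_of_le h (hρ ▸ min_le_left _ _)) (lt_of_lt_of_le h' (hρ ▸ min_le_left _ _)))
    rw [Real.dist_eq] at e
    simp only at e
    rw [← hL] at e
    exact e.le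
  have bx : ∀ x z, |x| < ρ → |z - z₀| < ρ → |gx x z| ≤ M := by
    intro x z h h'
    have e := @k₂ (x, z) (by
      rw [Prod.dist_eq, Real.dist_eq, Real.dist_eq]
      simp only [sub_zero]
      exact max_lt (lt_of_lt_of_le h (hρ ▸ min_le_right _ _)) (lt_of_lt_of_le h' (hρ ▸ min_le_right _ _)))
    rw [Real.dist_eq] at e
    simp only at e
    rw [hM]
    have e2 := abs_sub_abs_le_abs_sub (gx x z) (gx 0 z₀)
    linarith
  -- mean value estimates
  have mz : ∀ x z z', |x| < ρ → |z - z₀| < ρ → |z' - z₀| < ρ →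
      |g x z - g x z' - L * (z - z')| ≤ |L| / 2 * |z - z'| := by
    intro x z z' h h1 h2
    have e := (convex_ball z₀ ρ).norm_image_sub_le_of_norm_hasDerivWithin_le
      (f := fun s => g x s - L * s) (f' := fun s => gz x s - L) (C := |L| / 2) (x := z') (y := z)
      (fun s _ => ((hz x s).sub (by simpa using (hasDerivAt_id s).const_mul L)).hasDerivWithinAt)
      (fun s hs => by
        rw [Real.norm_eq_abs]
        exact bz x s h (by rwa [Metric.mem_ball, Real.dist_eq] at hs))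
      (by rwa [Metric.mem_ball, Real.dist_eq]) (by rwa [Metric.mem_ball, Real.dist_eq])
    rw [Real.norm_eq_abs, Real.norm_eq_abs] at e
    have e2 : g x z - g x z' - L * (z - z') = g x z - L * z - (g x z' - L * z') := by ring
    rw [e2]
    exact e
  have mx : ∀ x x' z, |x| < ρ → |x'| < ρ → |z - z₀| < ρ → |g x z - g x' z| ≤ M * |x - x'| := by
    intro x x' z h h1 h2
    have e := (convex_ball (0 : ℝ) ρ).norm_image_sub_le_of_norm_hasDerivWithin_le
      (f := fun s => g s z) (f' := fun s => gx s z) (C := M) (x := x') (y := x)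
      (fun s _ => (hx s z).hasDerivWithinAt)
      (fun s hs => by
        rw [Real.norm_eq_abs]
        exact bx s z (by rwa [Metric.mem_ball, Real.dist_eq, sub_zero] at hs) h2)
      (by rwa [Metric.mem_ball, Real.dist_eq, sub_zero]) (by rwa [Metric.mem_ball, Real.dist_eq, sub_zero])
    rw [Real.norm_eq_abs, Real.norm_eq_abs] at e
    exact e
  -- lower bound
  have lz : ∀ x z z', |x| < ρ → |z - z₀| < ρ → |z' - z₀| < ρ → |L| / 2 * |z - z'| ≤ |g x z - g x z'| := by
    intro x z z' h h1 h2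
    have e := mz x z z' h h1 h2
    have e2 := abs_sub_abs_le_abs_sub (L * (z - z')) (g x z - g x z')
    rw [abs_mul, abs_sub_comm (L * (z - z'))] at e2
    linarith
  obtain ⟨η, hηd⟩ : ∃ η, η = min η₀ (ρ / 2) := ⟨_, rfl⟩
  have hηp : 0 < η := by rw [hηd]; exact lt_min hη (by positivity)
  have hηρ : η < ρ := by
    have : η ≤ ρ / 2 := hηd ▸ min_le_right _ _
    linarith
  obtain ⟨δ, hδd⟩ : ∃ δ, δ = min ρ (|L| / 2 * η / M) := ⟨_, rfl⟩
  have hδp : 0 < δ := by rw [hδd]; exact lt_min hρp (by positivity)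
  have hδρ : δ ≤ ρ := hδd ▸ min_le_left _ _
  have hδM : M * δ ≤ |L| / 2 * η := by
    have : δ ≤ |L| / 2 * η / M := hδd ▸ min_le_right _ _
    rw [le_div_iff₀ hMp] at this
    linarith
  have hz0 : |z₀ - z₀| < ρ := by simpa using hρp
  -- existence
  have ex : ∀ x, |x| < δ → ∃ z, |z - z₀| < η ∧ g x z = 0 := by
    intro x h
    have hxρ := lt_of_lt_of_le h hδρ
    have e0 : |g x z₀| < |L| / 2 * η := by
      have e := mx x 0 z₀ hxρ (by simpa using hρp) hz0
      rw [h0, sub_zero, sub_zero] at e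
      have : M * |x| < M * δ := mul_lt_mul_of_pos_left h hMp
      linarith
    have ep := mz x (z₀ + η) z₀ hxρ (by rw [add_sub_cancel_left, abs_of_pos hηp]; exact hηρ) hz0
    have em := mz x (z₀ - η) z₀ hxρ (by rw [sub_sub_cancel_left, abs_neg, abs_of_pos hηp]; exact hηρ) hz0
    rw [add_sub_cancel_left, abs_of_pos hηp] at ep
    rw [sub_sub_cancel_left, abs_neg, abs_of_pos hηp] at em
    have hcont : ContinuousOn (fun s => L * g x s) (Set.Icc (z₀ - η) (z₀ + η)) :=
      fun s _ => ((hz x s).continuousAt.const_mul L |>.continuousWithinAt)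
    have hp : 0 < L * g x (z₀ + η) := by
      have e1 : |g x (z₀ + η) - L * η| < |L| * η := by
        have : g x (z₀ + η) - L * η = (g x (z₀ + η) - g x z₀ - L * η) + g x z₀ := by ring
        rw [this]
        refine lt_of_le_of_lt (abs_add_le _ _) ?_
        linarith
      have e2 : |L * (g x (z₀ + η) - L * η)| < |L| * (|L| * η) := by
        rw [abs_mul]; exact mul_lt_mul_of_pos_left e1 hLp
      have e3 := (abs_lt.1 e2).1
      have e4 : |L| * (|L| * η) = L * (L * η) := by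
        rw [← mul_assoc, abs_mul_abs_self]; ring
      rw [e4] at e3
      linarith
    have hm : L * g x (z₀ - η) < 0 := by
      have e1 : |g x (z₀ - η) - L * -η| < |L| * η := by
        have : g x (z₀ - η) - L * -η = (g x (z₀ - η) - g x z₀ - L * -η) + g x z₀ := by ring
        rw [this]
        refine lt_of_le_of_lt (abs_add_le _ _) ?_
        linarith
      have e2 : |L * (g x (z₀ - η) - L * -η)| < |L| * (|L| * η) := by
        rw [abs_mul]; exact mul_lt_mul_of_pos_left e1 hLp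
      have e3 := (abs_lt.1 e2).2
      have e4 : |L| * (|L| * η) = L * (L * η) := by
        rw [← mul_assoc, abs_mul_abs_self]; ring
      rw [e4] at e3
      linarith
    obtain ⟨s, hs, hs'⟩ := intermediate_value_Ioo (by linarith : z₀ - η ≤ z₀ + η) hcont
      (show (0 : ℝ) ∈ Set.Ioo (L * g x (z₀ - η)) (L * g x (z₀ + η)) from ⟨hm, hp⟩)
    refine ⟨s, abs_lt.2 ⟨by linarith [hs.1], by linarith [hs.2]⟩, ?_⟩
    rcases mul_eq_zero.1 hs' with h2 | h2
    · exact absurd h2 h1
    · exact h2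
  choose! φ hφ using ex
  have key : ∀ x x' z z', |x| < δ → |x'| < δ → |z - z₀| < η → |z' - z₀| < η → g x z = 0 → g x' z' = 0 →
      |L| / 2 * |z - z'| ≤ M * |x - x'| := by
    intro x x' z z' h h' hz1 hz2 e e'
    have a1 := lz x z z' (lt_of_lt_of_le h hδρ) (hz1.trans hηρ) (hz2.trans hηρ)
    have a2 := mx x x' z' (lt_of_lt_of_le h hδρ) (lt_of_lt_of_le h' hδρ) (hz2.trans hηρ)
    rw [e, zero_sub, abs_neg] at a1
    rw [e', sub_zero] at a2
    linarith
  refine ⟨δ, η, M / (|L| / 2), φ, hδp, hηp, hηd ▸ min_le_left _ _, by positivity, hφ, ?_, ?_⟩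
  · intro x z h hz1 e
    have a := key x x z (φ x) h h hz1 (hφ x h).1 e (hφ x h).2
    rw [sub_self, abs_zero, mul_zero] at a
    have a2 : |z - φ x| ≤ 0 := by
      by_contra hc
      push Not at hc
      have : 0 < |L| / 2 * |z - φ x| := by positivity
      linarith
    have a3 := abs_nonpos_iff.1 a2
    linarith
  · intro x x' h h'
    have a := key x x' (φ x) (φ x') h h' (hφ x h).1 (hφ x' h').1 (hφ x h).2 (hφ x' h').2
    rw [div_mul_eq_mul_div, le_div_iff₀ (by positivity)]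
    linarith

theorem thm_Nn : St_Nn := by
  intro n R a b s _ hG c c' hc hc' z₀ hz₀ h0
  obtain ⟨δ, η, K, φ, hδ, hη, hη0, hK, hφ, huniq, hLip⟩ := Nn_box (fun x z => val R x 1 z)
    (fun x z => val (pderiv 0 R) x 1 z) (fun x z => val (pderiv 2 R) x 1 z) (Nn_dx R) (Nn_dz R)
    (Nn_cont _) (Nn_cont _) z₀ (-z₀ / 2) (by linarith) h0 (hG.tr z₀ h0)
  have hneg : ∀ x, |x| < δ → φ x < 0 := by
    intro x h
    have := (abs_lt.1 (hφ x h).1).2
    linarith
  have hφ0 : φ 0 = z₀ := (huniq 0 z₀ (by simpa using hδ) (by simpa using hη) h0).symm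
  have hcont : ∀ x, |x| < δ → ContinuousAt φ x := by
    intro x h
    rw [ContinuousAt, tendsto_iff_dist_tendsto_zero]
    have hev : ∀ᶠ y in 𝓝 x, |y| < δ := (continuous_abs.isOpen_preimage _ isOpen_Iio).mem_nhds h
    refine squeeze_zero' (g := fun y => K * |y - x|) (Eventually.of_forall fun _ => dist_nonneg) ?_ ?_
    · filter_upwards [hev] with y hy
      rw [Real.dist_eq]
      exact hLip y x hy h
    · have : Continuous fun y : ℝ => K * |y - x| := by fun_prop
      have := this.tendsto x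
      simpa using this
  have hpos : ∀ x ∈ Set.Ioo (0 : ℝ) δ, |x| < δ := fun x hx => by rw [abs_of_pos hx.1]; exact hx.2
  have hnegm : ∀ x ∈ Set.Ioo (-δ) (0 : ℝ), |x| < δ := fun x hx => by
    rw [abs_of_neg hx.2]; linarith [hx.1]
  have hsw : ∀ x, |x| < δ → val (swp R) (x / φ x) 1 (1 / φ x) = 0 := by
    intro x h
    have hne := (hneg x h).ne
    have e := Nn_hom R hG.hom (1 / φ x) x 1 (φ x)
    rw [(hφ x h).2, mul_zero] at e
    rw [Nn_swp]
    have e1 : 1 / φ x * x = x / φ x := by ring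
    have e2 : 1 / φ x * φ x = 1 := by field_simp
    rw [e1, e2, mul_one] at e
    exact e
  have k1 : ∀ x ∈ Set.Ioo (0 : ℝ) δ, ∀ y ∈ Set.Ioo (0 : ℝ) δ, c x (φ x) = c y (φ y) := by
    intro x hx y hy
    refine isPreconnected_Ioo.induction₂ (fun x y => c x (φ x) = c y (φ y)) ?_
      (fun _ _ _ _ _ _ h h' => h.trans h') (fun _ _ _ _ h => h.symm) hx hy
    intro w hw
    have e := (hc w (φ w) hw.1 (hneg w (hpos w hw)).le (hφ w (hpos w hw)).2).2
    have t : Tendsto (fun y => (y, φ y)) (𝓝[Set.Ioo (0 : ℝ) δ] w) (𝓝 (w, φ w)) :=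
      (tendsto_id.prodMk_nhds (hcont w (hpos w hw))).mono_left nhdsWithin_le_nhds
    filter_upwards [t.eventually e, self_mem_nhdsWithin] with y hy hys
    exact (hy hys.1 (hneg y (hpos y hys)).le (hφ y (hpos y hys)).2).symm
  have k2 : ∀ x ∈ Set.Ioo (-δ) (0 : ℝ), ∀ y ∈ Set.Ioo (-δ) (0 : ℝ),
      c' (x / φ x) (1 / φ x) = c' (y / φ y) (1 / φ y) := by
    intro x hx y hy
    refine isPreconnected_Ioo.induction₂
      (fun x y => c' (x / φ x) (1 / φ x) = c' (y / φ y) (1 / φ y)) ?_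
      (fun _ _ _ _ _ _ h h' => h.trans h') (fun _ _ _ _ h => h.symm) hx hy
    intro w hw
    have hwn := hneg w (hnegm w hw)
    have e := (hc' (w / φ w) (1 / φ w) (div_pos_of_neg_of_neg hw.2 hwn) (one_div_neg.2 hwn).le
      (hsw w (hnegm w hw))).2
    have hcw := hcont w (hnegm w hw)
    have t : Tendsto (fun y => (y / φ y, 1 / φ y)) (𝓝[Set.Ioo (-δ) (0 : ℝ)] w)
        (𝓝 (w / φ w, 1 / φ w)) := by
      refine Tendsto.mono_left ?_ nhdsWithin_le_nhds
      exact (Tendsto.div tendsto_id hcw hwn.ne).prodMk_nhds (Tendsto.div tendsto_const_nhds hcw hwn.ne)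
    filter_upwards [t.eventually e, self_mem_nhdsWithin] with y hy hys
    have hyn := hneg y (hnegm y hys)
    exact (hy (div_pos_of_neg_of_neg hys.2 hyn) (one_div_neg.2 hyn).le (hsw y (hnegm y hys))).symm
  have m1 : δ / 2 ∈ Set.Ioo (0 : ℝ) δ := ⟨by linarith, by linarith⟩
  have m2 : -(δ / 2) ∈ Set.Ioo (-δ) (0 : ℝ) := ⟨by linarith, by linarith⟩
  refine ⟨c (δ / 2) (φ (δ / 2)), c' (-(δ / 2) / φ (-(δ / 2))) (1 / φ (-(δ / 2))), min δ η, K, ?_, ?_,
    lt_min hδ hη, ?_⟩
  · exact (hc _ _ m1.1 (hneg _ (hpos _ m1)).le (hφ _ (hpos _ m1)).2).1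
  · have hwn := hneg _ (hnegm _ m2)
    exact (hc' _ _ (div_pos_of_neg_of_neg m2.2 hwn) (one_div_neg.2 hwn).le (hsw _ (hnegm _ m2))).1
  · intro x z hx hz e
    have hxδ := lt_of_lt_of_le hx (min_le_left _ _)
    have hzφ := huniq x z hxδ (lt_of_lt_of_le hz (min_le_right _ _)) e
    subst hzφ
    refine ⟨?_, fun hx0 => ?_, fun hx0 => ?_⟩
    · have l := hLip x 0 hxδ (by simpa using hδ)
      rwa [hφ0, sub_zero] at l
    · exact k1 x ⟨hx0, lt_of_le_of_lt (le_abs_self x) hxδ⟩ _ m1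
    · exact k2 x ⟨by have := (abs_lt.1 hxδ).1; linarith, hx0⟩ _ m2

end Pool.Agent.RSV
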