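import Pool.Agent.RSV.StA

/-!
# RSV, module Nst : algebra in `K(i)`

Statement and proof: see `St_Nst` in `Pool/Agent/RSV/StA.lean`.
-/

set_option autoImplicit false

namespace Pool.Agent.RSV

private theorem Nst_sq {K : Type} [Field K] (hK : ∀ x : K, x ^ 2 ≠ -1) {a b : K}
    (h : a ^ 2 + b ^ 2 = 0) : a = 0 ∧ b = 0 := by
  have hb : b = 0 := by
    by_contra hb
    refine hK (a / b) ?_
    rw [div_pow, div_eq_iff (pow_ne_zero 2 hb)]
    linear_combination h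
  subst hb
  refine ⟨?_, rfl⟩
  have : a ^ 2 = 0 := by linear_combination h
  exact pow_eq_zero_iff (two_ne_zero) |>.1 this

theorem thm_Nst : St_Nst := by
  intro K _ _ hK c t hc p₁ p₂ q₁ q₂ w₁ w₂ hne h1 h2
  have h20 : (2 : K) ≠ 0 := two_ne_zero
  by_cases hN : w₁ ^ 2 + w₂ ^ 2 = 0
  · obtain ⟨hw1, hw2⟩ := Nst_sq hK hN
    subst hw1 hw2
    have e1 : p₁ ^ 2 - p₂ ^ 2 + c * (q₁ ^ 2 - q₂ ^ 2) = 0 := by linear_combination h1
    have e2 : 2 * p₁ * p₂ + 2 * c * q₁ * q₂ = 0 := by linear_combination h2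
    have hM : q₁ ^ 2 + q₂ ^ 2 ≠ 0 := by
      intro hM
      obtain ⟨hq1, hq2⟩ := Nst_sq hK hM
      subst hq1 hq2
      have e3 : p₁ * p₂ = 0 := by
        have : 2 * (p₁ * p₂) = 0 := by linear_combination e2
        exact (mul_eq_zero.1 this).resolve_left h20
      have e4 : p₁ ^ 2 = p₂ ^ 2 := by linear_combination e1
      have e5 : p₁ = 0 ∧ p₂ = 0 := by
        rcases mul_eq_zero.1 e3 with h | h
        · refine ⟨h, ?_⟩
          rw [h] at e4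
          exact pow_eq_zero_iff (two_ne_zero) |>.1 (by rw [← e4]; ring)
        · refine ⟨?_, h⟩
          rw [h] at e4
          exact pow_eq_zero_iff (two_ne_zero) |>.1 (by rw [e4]; ring)
      obtain ⟨h3, h4⟩ := e5
      rcases hne with h | h | h | h | h | h
      · exact h h3
      · exact h h4
      · exact h rfl
      · exact h rfl
      · exact h rfl
      · exact h rfl
    have hA : (p₁ * q₁ + p₂ * q₂) ^ 2 - (p₂ * q₁ - p₁ * q₂) ^ 2 =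
        -c * (q₁ ^ 2 + q₂ ^ 2) ^ 2 := by
      linear_combination (q₁ ^ 2 - q₂ ^ 2) * e1 + 2 * q₁ * q₂ * e2
    have hB : (p₁ * q₁ + p₂ * q₂) * (p₂ * q₁ - p₁ * q₂) = 0 := by
      have : 2 * ((p₁ * q₁ + p₂ * q₂) * (p₂ * q₁ - p₁ * q₂)) = 0 := by
        linear_combination (q₁ ^ 2 - q₂ ^ 2) * e2 - 2 * q₁ * q₂ * e1
      exact (mul_eq_zero.1 this).resolve_left h20
    rcases mul_eq_zero.1 hB with h | h
    · -- `c` is a square
      have hc' : (p₂ * q₁ - p₁ * q₂) ^ 2 = c * (q₁ ^ 2 + q₂ ^ 2) ^ 2 := by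
        rw [h] at hA
        linear_combination -hA
      have hx : p₂ * q₁ - p₁ * q₂ ≠ 0 := by
        intro h0
        rw [h0] at hc'
        have : c * (q₁ ^ 2 + q₂ ^ 2) ^ 2 = 0 := by rw [← hc']; ring
        exact (mul_ne_zero hc (pow_ne_zero 2 hM)) this
      refine ⟨1, t * (q₁ ^ 2 + q₂ ^ 2) / (p₂ * q₁ - p₁ * q₂), ?_⟩
      rw [div_pow, mul_div_assoc', eq_comm, one_pow, ← eq_sub_iff_add_eq', div_eq_iff
        (pow_ne_zero 2 hx)]
      linear_combination (-t ^ 2) * hc'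
    · have hc' : (p₁ * q₁ + p₂ * q₂) ^ 2 = -c * (q₁ ^ 2 + q₂ ^ 2) ^ 2 := by
        rw [h] at hA
        linear_combination hA
      have hx : p₁ * q₁ + p₂ * q₂ ≠ 0 := by
        intro h0
        rw [h0] at hc'
        have : c * (q₁ ^ 2 + q₂ ^ 2) ^ 2 = 0 := by linear_combination hc'
        exact (mul_ne_zero hc (pow_ne_zero 2 hM)) this
      refine ⟨1 + t ^ 2 / 2, t ^ 2 * (q₁ ^ 2 + q₂ ^ 2) / (2 * (p₁ * q₁ + p₂ * q₂)), ?_⟩
      have hx2 : 2 * (p₁ * q₁ + p₂ * q₂) ≠ 0 := mul_ne_zero h20 hx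
      have key : c * (t ^ 2 * (q₁ ^ 2 + q₂ ^ 2) / (2 * (p₁ * q₁ + p₂ * q₂))) ^ 2 =
          -(t ^ 4 / 4) := by
        rw [div_pow, mul_div_assoc', div_eq_iff (pow_ne_zero 2 hx2)]
        have h4 : (4 : K) ≠ 0 := by norm_num
        have : -(t ^ 4 / 4) * (2 * (p₁ * q₁ + p₂ * q₂)) ^ 2 =
            -(t ^ 4) * (p₁ * q₁ + p₂ * q₂) ^ 2 := by
          field_simp
          ring
        rw [this, hc']
        ring
      rw [key]
      field_simp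
      ring
  · refine ⟨(p₁ ^ 2 + p₂ ^ 2 - c * (q₁ ^ 2 + q₂ ^ 2)) / (w₁ ^ 2 + w₂ ^ 2),
      2 * (p₁ * q₁ + p₂ * q₂) / (w₁ ^ 2 + w₂ ^ 2), ?_⟩
    rw [div_pow, div_pow, mul_div_assoc', ← add_div, eq_div_iff (pow_ne_zero 2 hN)]
    linear_combination (-(p₁ ^ 2 - p₂ ^ 2 + c * (q₁ ^ 2 - q₂ ^ 2)) -
      (w₁ ^ 2 - w₂ ^ 2 - 2 * t * w₁ * w₂)) * h1 +
      (-(2 * p₁ * p₂ + 2 * c * q₁ * q₂) - (2 * w₁ * w₂ + t * (w₁ ^ 2 - w₂ ^ 2))) * h2

end Pool.Agent.RSV
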