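import Pool.Agent.RSV.StD

/-!
# RSV, module Od : orders in a Dedekind domain

Statement and proof: see `St_Od` in `Pool/Agent/RSV/StD.lean`.
-/

set_option autoImplicit false

namespace Pool.Agent.RSV

open IsDedekindDomain

section OdAux

variable {O : Type} [CommRing O]

private theorem Od_map (τ : O ≃+* O) (p : Ideal O) (f : O) : od (p.map τ) (τ f) = od p f := by
  have h : ∀ k : ℕ, τ f ∈ p.map τ ^ k ↔ f ∈ p ^ k := by
    intro k
    rw [← Ideal.map_pow, Ideal.mem_map_of_equiv]
    constructor
    · rintro ⟨x, hx, hxf⟩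
      rwa [← τ.injective hxf]
    · intro hf
      exact ⟨f, hf, rfl⟩
  unfold od
  simp only [h]

variable [IsDedekindDomain O]

private theorem Od_prime {p : Ideal O} (hp : p.IsMaximal) (h0 : p ≠ ⊥) : Prime p :=
  Ideal.prime_of_isPrime h0 hp.isPrime

private theorem Od_fin {p : Ideal O} (hp : p.IsMaximal) {I : Ideal O} (hI : I ≠ ⊥) :
    FiniteMultiplicity p I := by
  refine FiniteMultiplicity.of_not_isUnit ?_ hI
  rw [Ideal.isUnit_iff]
  exact hp.ne_top

private theorem Od_iff {p : Ideal O} (hp : p.IsMaximal) {f : O} (hf : f ≠ 0) (k : ℕ) :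
    f ∈ p ^ k ↔ k ≤ multiplicity p (Ideal.span {f}) := by
  have hI : Ideal.span {f} ≠ ⊥ := by
    rw [Ne, Ideal.span_singleton_eq_bot]
    exact hf
  rw [← (Od_fin hp hI).pow_dvd_iff_le_multiplicity, Ideal.dvd_iff_le,
    Ideal.span_singleton_le_iff_mem]

private theorem Od_eq {p : Ideal O} (hp : p.IsMaximal) {f : O} (hf : f ≠ 0) :
    od p f = multiplicity p (Ideal.span {f}) := by
  unfold od
  have : {k : ℕ | f ∈ p ^ k} = Set.Iic (multiplicity p (Ideal.span {f})) := by
    ext k
    exact Od_iff hp hf k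
  rw [this, csSup_Iic]

end OdAux

theorem thm_Od : St_Od := by
  intro O _ _
  refine ⟨fun p hp h0 f hf k => ?_, fun p hp h0 f g hf hg => ?_, Od_map, fun f hf => ?_,
    fun I J hI hJ h => ?_⟩
  · rw [Od_eq hp hf, Od_iff hp hf]
  · rw [Od_eq hp (mul_ne_zero hf hg), Od_eq hp hf, Od_eq hp hg,
      ← Ideal.span_singleton_mul_span_singleton]
    refine multiplicity_mul (Od_prime hp h0) (Od_fin hp ?_)
    rw [Ideal.span_singleton_mul_span_singleton, Ne, Ideal.span_singleton_eq_bot]
    exact mul_ne_zero hf hg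
  · have hI : Ideal.span {f} ≠ 0 := by
      rw [Ne, Ideal.zero_eq_bot, Ideal.span_singleton_eq_bot]
      exact hf
    refine ((Ideal.finite_factors hI).image fun v => v.asIdeal).subset ?_
    rintro p ⟨hp, h0, hne⟩
    refine ⟨⟨p, hp.isPrime, h0⟩, ?_, rfl⟩
    have h1 : f ∈ p ^ 1 := by
      rw [Od_iff hp hf, ← Od_eq hp hf]
      omega
    rw [pow_one] at h1
    show p ∣ Ideal.span {f}
    rw [Ideal.dvd_iff_le, Ideal.span_singleton_le_iff_mem]
    exact h1
  · have key : ∀ v : HeightOneSpectrum O, v.maxPowDividing I = v.maxPowDividing J := by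
      intro v
      have hv := h v.asIdeal v.isMaximal v.ne_bot
      unfold HeightOneSpectrum.maxPowDividing
      have hc : ∀ K : Ideal O, K ≠ ⊥ → ∀ k : ℕ, K ≤ v.asIdeal ^ k ↔
          k ≤ (Associates.mk v.asIdeal).count (Associates.mk K).factors := by
        intro K hK k
        rw [← Ideal.dvd_iff_le, ← Associates.prime_pow_dvd_iff_le (Associates.mk_ne_zero.2 hK)
          v.associates_irreducible, ← Associates.mk_pow, Associates.mk_le_mk_iff_dvd]
      have : (Associates.mk v.asIdeal).count (Associates.mk I).factors =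
          (Associates.mk v.asIdeal).count (Associates.mk J).factors := by
        refine le_antisymm ?_ ?_
        · rw [← hc J hJ, ← hv, hc I hI]
        · rw [← hc I hI, hv, hc J hJ]
      rw [this]
    rw [← Ideal.finprod_heightOneSpectrum_factorization hI,
      ← Ideal.finprod_heightOneSpectrum_factorization hJ]
    exact finprod_congr key

end Pool.Agent.RSV
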