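import Pool.Agent.RSV.StD

/-!
# RSV, module Par (helper77): parity of the order and sign
-/

set_option autoImplicit false

namespace Pool.Agent.RSV

open MvPolynomial Filter Topology Module
open scoped ComplexConjugate

/-! ### evaluation -/

private noncomputable def Par_ev (x y : ℂ) : BC →+* ℂ :=
  (Polynomial.evalRingHom x).comp (Polynomial.mapRingHom (Polynomial.evalRingHom y))

private theorem Par_ev_eq (x y : ℂ) (f : BC) : evc f x y = Par_ev x y f := rfl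

private noncomputable def Par_ch : TP →+* BC :=
  eval₂Hom ((Polynomial.C).comp ((Polynomial.C).comp (algebraMap ℝ ℂ)))
    ![Polynomial.X, 1, Polynomial.C (Polynomial.X ^ 2)]

private theorem Par_ch_eq (R : TP) : chc R = Par_ch R := rfl

private theorem Par_ch_C (a : ℝ) :
    Par_ch (C a) = Polynomial.C (Polynomial.C (algebraMap ℝ ℂ a)) := by
  unfold Par_ch
  rw [coe_eval₂Hom, eval₂_C]
  rfl

private theorem Par_ch_X (j : Fin 3) : Par_ch (X j) =
    (![Polynomial.X, 1, Polynomial.C (Polynomial.X ^ 2)] : Fin 3 → BC) j := by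
  unfold Par_ch
  rw [coe_eval₂Hom, eval₂_X]

/-- values of the chart -/
private theorem Par_ev_ch (R : TP) (x y : ℂ) :
    Par_ev x y (Par_ch R) = aeval (![x, 1, y ^ 2] : Fin 3 → ℂ) R := by
  induction R using MvPolynomial.induction_on with
  | C a =>
    rw [Par_ch_C, aeval_C]
    simp [Par_ev]
  | add p q hp hq => rw [map_add, map_add, map_add, hp, hq]
  | mul_X p j hp =>
    rw [map_mul, map_mul, map_mul, hp, Par_ch_X, aeval_X]
    fin_cases j <;> simp [Par_ev]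

private theorem Par_real (R : TP) (x z : ℝ) :
    aeval (![(x : ℂ), 1, (z : ℂ)] : Fin 3 → ℂ) R = ((val R x 1 z : ℝ) : ℂ) := by
  have h : (![(x : ℂ), 1, (z : ℂ)] : Fin 3 → ℂ) = fun i => ((![x, 1, z] i : ℝ) : ℂ) := by
    funext i
    fin_cases i <;> simp
  rw [h]
  unfold val
  induction R using MvPolynomial.induction_on with
  | C a => rw [aeval_C, eval_C]; rfl
  | add p q hp hq => rw [map_add, hp, hq, map_add, Complex.ofReal_add]
  | mul_X p j hp => rw [map_mul, hp, aeval_X, map_mul, eval_X, Complex.ofReal_mul]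

private theorem Par_sq (η : ℝ) : ((η : ℂ) * Complex.I) ^ 2 = ((-η ^ 2 : ℝ) : ℂ) := by
  rw [mul_pow, Complex.I_sq]
  push_cast
  ring

/-- values of the chart at the points `(x, i η)` -/
private theorem Par_ev_real (R : TP) (x η : ℝ) :
    Par_ev x (η * Complex.I) (Par_ch R) = ((val R x 1 (-η ^ 2) : ℝ) : ℂ) := by
  rw [Par_ev_ch, Par_sq, Par_real]

/-! ### derivatives -/

/-- the derivative of the chart -/
private theorem Par_der (x y : ℂ) (L : BC →+ ℂ)
    (hL : ∀ f g, L (f * g) = L f * Par_ev x y g + Par_ev x y f * L g)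
    (hC : ∀ r : ℝ, L (Polynomial.C (Polynomial.C (algebraMap ℝ ℂ r))) = 0) (R : TP) :
    L (Par_ch R) = ∑ i, Par_ev x y (Par_ch (pderiv i R)) * L (Par_ch (X i)) := by
  induction R using MvPolynomial.induction_on with
  | C a =>
    rw [Par_ch_C, hC]
    symm
    refine Finset.sum_eq_zero fun i _ => ?_
    rw [pderiv_C, map_zero, map_zero, zero_mul]
  | add p q hp hq =>
    rw [map_add, map_add, hp, hq, ← Finset.sum_add_distrib]
    refine Finset.sum_congr rfl fun i _ => ?_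
    rw [map_add, map_add, map_add, add_mul]
  | mul_X p j hp =>
    rw [map_mul, hL, hp, Finset.sum_mul]
    have h : ∀ i, Par_ev x y (Par_ch (pderiv i (p * X j))) * L (Par_ch (X i)) =
        Par_ev x y (Par_ch (pderiv i p)) * L (Par_ch (X i)) * Par_ev x y (Par_ch (X j)) +
          (if i = j then Par_ev x y (Par_ch p) * L (Par_ch (X i)) else 0) := by
      intro i
      rw [pderiv_mul, map_add, map_add, map_mul, map_mul, map_mul, map_mul]
      by_cases hij : i = j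
      · subst hij
        rw [pderiv_X_self, map_one, map_one, if_pos rfl]
        ring
      · rw [pderiv_X_of_ne (Ne.symm hij), map_zero, map_zero, if_neg hij]
        ring
    rw [Finset.sum_congr rfl fun i _ => h i, Finset.sum_add_distrib, Finset.sum_ite_eq'
      Finset.univ j, if_pos (Finset.mem_univ j)]

private noncomputable def Par_Lx (x y : ℂ) : BC →+ ℂ :=
  (Par_ev x y).toAddMonoidHom.comp (Polynomial.derivative (R := Polynomial ℂ)).toAddMonoidHom

private noncomputable def Par_Ly (x y : ℂ) : BC →+ ℂ :=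
  (Polynomial.evalRingHom y).toAddMonoidHom.comp
    ((Polynomial.derivative (R := ℂ)).toAddMonoidHom.comp
      (Polynomial.evalRingHom (Polynomial.C x)).toAddMonoidHom)

private theorem Par_Lx_app (x y : ℂ) (f : BC) :
    Par_Lx x y f = Par_ev x y (Polynomial.derivative f) := rfl

private theorem Par_Ly_app (x y : ℂ) (f : BC) : Par_Ly x y f =
    Polynomial.eval y (Polynomial.derivative (Polynomial.eval (Polynomial.C x) f)) := rfl

private theorem Par_ev_swap (x y : ℂ) (f : BC) :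
    Par_ev x y f = Polynomial.eval y (Polynomial.eval (Polynomial.C x) f) := by
  show Polynomial.eval x (f.map (Polynomial.evalRingHom y)) = _
  induction f using Polynomial.induction_on' with
  | add p q hp hq => rw [Polynomial.map_add, Polynomial.eval_add, hp, hq, Polynomial.eval_add,
      Polynomial.eval_add]
  | monomial n a =>
    rw [Polynomial.map_monomial, Polynomial.eval_monomial, Polynomial.eval_monomial,
      Polynomial.eval_mul, Polynomial.eval_pow, Polynomial.eval_C]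
    rfl

private theorem Par_Lx_mul (x y : ℂ) (f g : BC) :
    Par_Lx x y (f * g) = Par_Lx x y f * Par_ev x y g + Par_ev x y f * Par_Lx x y g := by
  rw [Par_Lx_app, Par_Lx_app, Par_Lx_app, Polynomial.derivative_mul, map_add, map_mul, map_mul]

private theorem Par_Ly_mul (x y : ℂ) (f g : BC) :
    Par_Ly x y (f * g) = Par_Ly x y f * Par_ev x y g + Par_ev x y f * Par_Ly x y g := by
  rw [Par_Ly_app, Par_Ly_app, Par_Ly_app, Par_ev_swap, Par_ev_swap, Polynomial.eval_mul,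
    Polynomial.derivative_mul, Polynomial.eval_add, Polynomial.eval_mul, Polynomial.eval_mul]

/-- `∂F/∂x` -/
private theorem Par_Lx_ch (x y : ℂ) (R : TP) :
    Par_Lx x y (Par_ch R) = Par_ev x y (Par_ch (pderiv 0 R)) := by
  rw [Par_der x y _ (Par_Lx_mul x y) (fun r => by rw [Par_Lx_app]; simp), Fin.sum_univ_three,
    Par_ch_X, Par_ch_X, Par_ch_X, Par_Lx_app, Par_Lx_app, Par_Lx_app]
  simp [Polynomial.derivative_pow]

/-- `∂F/∂y` -/
private theorem Par_Ly_ch (x y : ℂ) (R : TP) :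
    Par_Ly x y (Par_ch R) = Par_ev x y (Par_ch (pderiv 2 R)) * (2 * y) := by
  rw [Par_der x y _ (Par_Ly_mul x y) (fun r => by rw [Par_Ly_app]; simp), Fin.sum_univ_three,
    Par_ch_X, Par_ch_X, Par_ch_X, Par_Ly_app, Par_Ly_app, Par_Ly_app]
  simp [one_add_one_eq_two]

/-! ### elements of `p ^ 2` -/

private theorem Par_sq_mem (R : TP) (x y : ℂ) (h0 : Par_ev x y (Par_ch R) = 0)
    (p : Ideal (AdjoinRoot (chc R)))
    (hp : ∀ f : BC, AdjoinRoot.mk (chc R) f ∈ p ↔ evc f x y = 0)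
    (o : AdjoinRoot (chc R)) (ho : o ∈ p * p) : ∀ f : BC, AdjoinRoot.mk (chc R) f = o →
      ∃ c : ℂ, Par_Lx x y f = c * Par_Lx x y (Par_ch R) ∧
        Par_Ly x y f = c * Par_Ly x y (Par_ch R) := by
  induction ho using Submodule.mul_induction_on' with
  | mem_mul_mem a ha b hb =>
    intro f hf
    obtain ⟨fa, rfl⟩ := AdjoinRoot.mk_surjective a
    obtain ⟨fb, rfl⟩ := AdjoinRoot.mk_surjective b
    have h1 : Par_ev x y fa = 0 := (hp fa).1 ha
    have h2 : Par_ev x y fb = 0 := (hp fb).1 hb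
    rw [← map_mul, AdjoinRoot.mk_eq_mk] at hf
    obtain ⟨h, hh⟩ := hf
    have h3 : f = fa * fb + Par_ch R * h := by
      rw [← Par_ch_eq, ← hh]
      ring
    refine ⟨Par_ev x y h, ?_, ?_⟩
    · rw [h3, map_add, Par_Lx_mul, Par_Lx_mul, h1, h2, h0]
      ring
    · rw [h3, map_add, Par_Ly_mul, Par_Ly_mul, h1, h2, h0]
      ring
  | add a _ b _ iha ihb =>
    intro f hf
    obtain ⟨fa, hfa⟩ := AdjoinRoot.mk_surjective a
    obtain ⟨c1, h1, h2⟩ := iha fa hfa
    obtain ⟨c2, h3, h4⟩ := ihb (f - fa) (by rw [map_sub, hf, hfa, add_sub_cancel_left])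
    rw [map_sub] at h3 h4
    exact ⟨c1 + c2, by rw [add_mul, ← h1, ← h3]; ring, by rw [add_mul, ← h2, ← h4]; ring⟩

/-! ### sign changes -/

private theorem Par_hasDeriv (R : TP) (g : ℝ → Fin 3 → ℝ) (g' : Fin 3 → ℝ) (t : ℝ)
    (hg : ∀ i, HasDerivAt (fun u => g u i) (g' i) t) :
    HasDerivAt (fun u => eval (g u) R) (∑ i, eval (g t) (pderiv i R) * g' i) t := by
  induction R using MvPolynomial.induction_on with
  | C a =>
    have h1 : (fun u => eval (g u) (C a : TP)) = fun _ => a := by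
      funext u
      rw [eval_C]
    have h2 : ∑ i, eval (g t) (pderiv i (C a : TP)) * g' i = 0 :=
      Finset.sum_eq_zero fun i _ => by rw [pderiv_C, map_zero, zero_mul]
    rw [h1, h2]
    exact hasDerivAt_const t a
  | add p q hp hq =>
    have h1 : (fun u => eval (g u) (p + q)) = fun u => eval (g u) p + eval (g u) q := by
      funext u
      rw [map_add]
    have h2 : ∑ i, eval (g t) (pderiv i (p + q)) * g' i =
        ∑ i, eval (g t) (pderiv i p) * g' i + ∑ i, eval (g t) (pderiv i q) * g' i := by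
      rw [← Finset.sum_add_distrib]
      exact Finset.sum_congr rfl fun i _ => by rw [map_add, map_add, add_mul]
    rw [h1, h2]
    exact hp.add hq
  | mul_X p j hp =>
    have h1 : (fun u => eval (g u) (p * X j)) = fun u => eval (g u) p * g u j := by
      funext u
      rw [map_mul, eval_X]
    have h2 : ∑ i, eval (g t) (pderiv i (p * X j)) * g' i =
        (∑ i, eval (g t) (pderiv i p) * g' i) * g t j + eval (g t) p * g' j := by
      rw [Finset.sum_mul]
      have h : ∀ i, eval (g t) (pderiv i (p * X j)) * g' i =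
          eval (g t) (pderiv i p) * g' i * g t j + (if i = j then eval (g t) p * g' i else 0) := by
        intro i
        rw [pderiv_mul, map_add, map_mul, map_mul, eval_X]
        by_cases hij : i = j
        · subst hij
          rw [pderiv_X_self, map_one, if_pos rfl]
          ring
        · rw [pderiv_X_of_ne (Ne.symm hij), map_zero, if_neg hij]
          ring
      rw [Finset.sum_congr rfl fun i _ => h i, Finset.sum_add_distrib, Finset.sum_ite_eq'
        Finset.univ j, if_pos (Finset.mem_univ j)]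
    rw [h1, h2]
    exact hp.mul (hg j)

private theorem Par_dx (R : TP) (x z : ℝ) :
    HasDerivAt (fun u => val R u 1 z) (val (pderiv 0 R) x 1 z) x := by
  have hg : ∀ i, HasDerivAt (fun u : ℝ => (![u, 1, z] : Fin 3 → ℝ) i)
      ((![1, 0, 0] : Fin 3 → ℝ) i) x := by
    intro i
    fin_cases i
    · exact hasDerivAt_id x
    · exact hasDerivAt_const x 1
    · exact hasDerivAt_const x z
  have hd := Par_hasDeriv R (fun u => ![u, 1, z]) ![1, 0, 0] x hg
  have e : ∑ i, eval ((fun u : ℝ => (![u, 1, z] : Fin 3 → ℝ)) x) (pderiv i R) *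
      (![1, 0, 0] : Fin 3 → ℝ) i = val (pderiv 0 R) x 1 z := by
    rw [Fin.sum_univ_three]
    unfold val
    simp
  rw [e] at hd
  exact hd

private theorem Par_dη (R : TP) (x η : ℝ) : HasDerivAt (fun u => val R x 1 (-u ^ 2))
    (val (pderiv 2 R) x 1 (-η ^ 2) * -(2 * η)) η := by
  have hg : ∀ i, HasDerivAt (fun u : ℝ => (![x, 1, -u ^ 2] : Fin 3 → ℝ) i)
      ((![0, 0, -(2 * η)] : Fin 3 → ℝ) i) η := by
    intro i
    fin_cases i
    · exact hasDerivAt_const η x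
    · exact hasDerivAt_const η 1
    · have h2 : HasDerivAt (fun u : ℝ => -(u ^ 2)) (-(2 * η)) η := by
        have := (hasDerivAt_pow 2 η).fun_neg
        simpa using this
      exact h2
  have hd := Par_hasDeriv R (fun u => ![x, 1, -u ^ 2]) ![0, 0, -(2 * η)] η hg
  have e : ∑ i, eval ((fun u : ℝ => (![x, 1, -u ^ 2] : Fin 3 → ℝ)) η) (pderiv i R) *
      (![0, 0, -(2 * η)] : Fin 3 → ℝ) i = val (pderiv 2 R) x 1 (-η ^ 2) * -(2 * η) := by
    rw [Fin.sum_univ_three]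
    unfold val
    simp
  rw [e] at hd
  exact hd

private theorem Par_pos {h : ℝ → ℝ} {h' a : ℝ} (hd : HasDerivAt h h' a) (h0 : h a = 0)
    (hp : 0 < h') (ε : ℝ) (hε : 0 < ε) :
    ∃ x₁ x₂ : ℝ, |x₁ - a| < ε ∧ |x₂ - a| < ε ∧ h x₁ < 0 ∧ 0 < h x₂ := by
  have h1 := (hasDerivAt_iff_tendsto_slope.1 hd).eventually (lt_mem_nhds hp)
  rw [eventually_nhdsWithin_iff, Metric.eventually_nhds_iff] at h1
  obtain ⟨δ, hδ, h2⟩ := h1
  obtain ⟨r, hr0, hr1, hr2⟩ : ∃ r : ℝ, 0 < r ∧ r < δ ∧ r < ε :=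
    ⟨min δ ε / 2, by positivity, by
      have := min_le_left δ ε
      have : 0 < min δ ε := lt_min hδ hε
      linarith, by
      have := min_le_right δ ε
      have : 0 < min δ ε := lt_min hδ hε
      linarith⟩
  have d1 : dist (a - r) a < δ := by
    rw [Real.dist_eq, show a - r - a = -r by ring, abs_neg, abs_of_pos hr0]
    exact hr1
  have d2 : dist (a + r) a < δ := by
    rw [Real.dist_eq, show a + r - a = r by ring, abs_of_pos hr0]
    exact hr1
  have e1 : a - r ≠ a := by linarith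
  have e2 : a + r ≠ a := by linarith
  have h3 := @h2 (a - r) d1 e1
  have h4 := @h2 (a + r) d2 e2
  rw [slope_def_field, h0, sub_zero] at h3 h4
  refine ⟨a - r, a + r, ?_, ?_, ?_, ?_⟩
  · rw [show a - r - a = -r by ring, abs_neg, abs_of_pos hr0]
    exact hr2
  · rw [show a + r - a = r by ring, abs_of_pos hr0]
    exact hr2
  · rw [show a - r - a = -r by ring, div_neg, neg_pos] at h3
    by_contra hcon
    push Not at hcon
    have := div_nonneg hcon hr0.le
    linarith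
  · rw [show a + r - a = r by ring] at h4
    by_contra hcon
    push Not at hcon
    have := div_nonpos_of_nonpos_of_nonneg hcon hr0.le
    linarith

private theorem Par_chg {h : ℝ → ℝ} {h' a : ℝ} (hd : HasDerivAt h h' a) (h0 : h a = 0)
    (hp : h' ≠ 0) (ε : ℝ) (hε : 0 < ε) :
    ∃ x₁ x₂ : ℝ, |x₁ - a| < ε ∧ |x₂ - a| < ε ∧ h x₁ < 0 ∧ 0 < h x₂ := by
  rcases lt_or_gt_of_ne hp with hn | hn
  · obtain ⟨x₁, x₂, h1, h2, h3, h4⟩ := Par_pos (h := fun x => -h x) hd.neg (by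
      show -h a = 0
      rw [h0, neg_zero]) (neg_pos.2 hn) ε hε
    exact ⟨x₂, x₁, h2, h1, neg_pos.1 h4, neg_lt_zero.1 h3⟩
  · exact Par_pos hd h0 hn ε hε

/-- zeros near `(a, c)` with second coordinate near `c` prescribed -/
private theorem Par_ivt {Φ : ℝ → ℝ → ℝ} (hΦ : Continuous fun q : ℝ × ℝ => Φ q.1 q.2) {a c : ℝ}
    (hs : ∀ ε : ℝ, 0 < ε → ∃ x₁ x₂ : ℝ, |x₁ - a| < ε ∧ |x₂ - a| < ε ∧ Φ x₁ c < 0 ∧ 0 < Φ x₂ c)
    (ε : ℝ) (hε : 0 < ε) :
    ∃ δ : ℝ, 0 < δ ∧ ∀ u : ℝ, |u - c| < δ → ∃ x : ℝ, |x - a| < ε ∧ Φ x u = 0 := by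
  obtain ⟨x₁, x₂, h1, h2, h3, h4⟩ := hs ε hε
  have k1 : ∀ᶠ u in 𝓝 c, Φ x₁ u < 0 :=
    (hΦ.comp (Continuous.prodMk continuous_const continuous_id)).continuousAt.eventually
      (gt_mem_nhds h3)
  have k2 : ∀ᶠ u in 𝓝 c, 0 < Φ x₂ u :=
    (hΦ.comp (Continuous.prodMk continuous_const continuous_id)).continuousAt.eventually
      (lt_mem_nhds h4)
  obtain ⟨δ, hδ, hk⟩ := Metric.eventually_nhds_iff.1 (k1.and k2)
  refine ⟨δ, hδ, fun u hu => ?_⟩
  obtain ⟨k3, k4⟩ := @hk u (by rw [Real.dist_eq]; exact hu)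
  have hc : Continuous fun x => Φ x u :=
    hΦ.comp (Continuous.prodMk continuous_id continuous_const)
  have h0 : (0 : ℝ) ∈ (fun x => Φ x u) '' Set.uIcc x₁ x₂ :=
    intermediate_value_uIcc hc.continuousOn (Set.mem_uIcc.2 (Or.inl ⟨k3.le, k4.le⟩))
  obtain ⟨x, hx, hx0⟩ := h0
  refine ⟨x, ?_, hx0⟩
  rw [abs_lt] at h1 h2 ⊢
  rcases Set.mem_uIcc.1 hx with h | h
  · exact ⟨by linarith, by linarith⟩
  · exact ⟨by linarith, by linarith⟩

private theorem Par_pts {Φ : ℝ → ℝ → ℝ} (hΦ : Continuous fun q : ℝ × ℝ => Φ q.1 q.2) {a c : ℝ}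
    (hs : ∀ ε : ℝ, 0 < ε → ∃ x₁ x₂ : ℝ, |x₁ - a| < ε ∧ |x₂ - a| < ε ∧ Φ x₁ c < 0 ∧ 0 < Φ x₂ c)
    (ε : ℝ) (hε : 0 < ε) :
    (∃ x u : ℝ, |x - a| < ε ∧ |u - c| < ε ∧ Φ x u = 0 ∧ 0 < u - c) ∧
      ∃ x u : ℝ, |x - a| < ε ∧ |u - c| < ε ∧ Φ x u = 0 ∧ u - c < 0 := by
  obtain ⟨δ, hδ, h⟩ := Par_ivt hΦ hs ε hε
  obtain ⟨r, hr0, hr1, hr2⟩ : ∃ r : ℝ, 0 < r ∧ r < δ ∧ r < ε := by
    have h1 : 0 < min δ ε := lt_min hδ hε
    have h2 := min_le_left δ ε
    have h3 := min_le_right δ ε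
    exact ⟨min δ ε / 2, by linarith, by linarith, by linarith⟩
  constructor
  · obtain ⟨x, hx, hx0⟩ := h (c + r) (by rw [add_sub_cancel_left, abs_of_pos hr0]; exact hr1)
    exact ⟨x, c + r, hx, by rw [add_sub_cancel_left, abs_of_pos hr0]; exact hr2, hx0, by linarith⟩
  · obtain ⟨x, hx, hx0⟩ := h (c - r) (by
      rw [show c - r - c = -r by ring, abs_neg, abs_of_pos hr0]; exact hr1)
    exact ⟨x, c - r, hx, by rw [show c - r - c = -r by ring, abs_neg, abs_of_pos hr0]; exact hr2,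
      hx0, by linarith⟩

private theorem Par_fr {a c : ℝ} {P : ℝ × ℝ → Prop}
    (h : ∀ ε : ℝ, 0 < ε → ∃ x u : ℝ, |x - a| < ε ∧ |u - c| < ε ∧ P (x, u)) :
    ∃ᶠ q : ℝ × ℝ in 𝓝 (a, c), P q := by
  rw [frequently_iff]
  intro U hU
  obtain ⟨ε, hε, hb⟩ := Metric.mem_nhds_iff.1 hU
  obtain ⟨x, u, hx, hu, hP⟩ := h ε hε
  refine ⟨(x, u), hb ?_, hP⟩
  rw [Metric.mem_ball, Prod.dist_eq, Real.dist_eq, Real.dist_eq]
  exact max_lt hx hu

private theorem Par_sx (R : TP) (x₀ z₀ : ℝ) (h0 : val R x₀ 1 z₀ = 0)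
    (h1 : val (pderiv 0 R) x₀ 1 z₀ ≠ 0) (ε : ℝ) (hε : 0 < ε) :
    ∃ y₁ y₂ : ℝ, |y₁ - x₀| < ε ∧ |y₂ - x₀| < ε ∧ val R y₁ 1 z₀ < 0 ∧ 0 < val R y₂ 1 z₀ :=
  Par_chg (Par_dx R x₀ z₀) h0 h1 ε hε

private theorem Par_sη (R : TP) (x₀ η₀ : ℝ) (hη : η₀ ≠ 0) (h0 : val R x₀ 1 (-η₀ ^ 2) = 0)
    (h1 : val (pderiv 2 R) x₀ 1 (-η₀ ^ 2) ≠ 0) (ε : ℝ) (hε : 0 < ε) :
    ∃ y₁ y₂ : ℝ, |y₁ - η₀| < ε ∧ |y₂ - η₀| < ε ∧ val R x₀ 1 (-y₁ ^ 2) < 0 ∧
      0 < val R x₀ 1 (-y₂ ^ 2) :=
  Par_chg (Par_dη R x₀ η₀) h0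
    (mul_ne_zero h1 (neg_ne_zero.2 (mul_ne_zero two_ne_zero hη))) ε hε

private theorem Par_cv1 (R : TP) :
    Continuous fun q : ℝ × ℝ => (fun x η : ℝ => val R x 1 (-η ^ 2)) q.1 q.2 := by
  show Continuous fun q : ℝ × ℝ => eval ![q.1, 1, -q.2 ^ 2] R
  refine (MvPolynomial.continuous_eval R).comp (continuous_pi fun i => ?_)
  fin_cases i
  · exact continuous_fst
  · exact continuous_const
  · exact (continuous_snd.pow 2).neg

private theorem Par_cv2 (R : TP) :
    Continuous fun q : ℝ × ℝ => (fun η x : ℝ => val R x 1 (-η ^ 2)) q.1 q.2 := by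
  show Continuous fun q : ℝ × ℝ => eval ![q.2, 1, -q.1 ^ 2] R
  refine (MvPolynomial.continuous_eval R).comp (continuous_pi fun i => ?_)
  fin_cases i
  · exact continuous_snd
  · exact continuous_const
  · exact (continuous_fst.pow 2).neg

/-! ### the uniformizer -/

private theorem Par_t (n : ℕ) (R : TP) (a b s : Fin n → ℝ) (hG : Good R a b s)
    (x₀ η₀ : ℝ) (hη : η₀ ≠ 0) (h0 : val R x₀ 1 (-η₀ ^ 2) = 0)
    (p : Ideal (AdjoinRoot (chc R)))
    (hp : ∀ f : BC, AdjoinRoot.mk (chc R) f ∈ p ↔ evc f x₀ (η₀ * Complex.I) = 0) :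
    ∃ (t : BC) (T : ℝ × ℝ → ℝ), (∀ x η : ℝ, evc t x (η * Complex.I) = ((T (x, η) : ℝ) : ℂ)) ∧
      AdjoinRoot.mk (chc R) t ∈ p ∧ AdjoinRoot.mk (chc R) t ∉ p * p ∧
      (∃ᶠ q : ℝ × ℝ in 𝓝 (x₀, η₀), val R q.1 1 (-q.2 ^ 2) = 0 ∧ 0 < T q) ∧
      ∃ᶠ q : ℝ × ℝ in 𝓝 (x₀, η₀), val R q.1 1 (-q.2 ^ 2) = 0 ∧ T q < 0 := by
  have hev0 : Par_ev x₀ (η₀ * Complex.I) (Par_ch R) = 0 := by
    rw [Par_ev_real, h0, Complex.ofReal_zero]
  have hcont := Par_cv1 R
  have hcases : val (pderiv 0 R) x₀ 1 (-η₀ ^ 2) ≠ 0 ∨ val (pderiv 2 R) x₀ 1 (-η₀ ^ 2) ≠ 0 := by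
    by_contra hcon
    push Not at hcon
    obtain ⟨hc0, hc2⟩ := hcon
    have hv : (![(x₀ : ℂ), 1, ((-η₀ ^ 2 : ℝ) : ℂ)] : Fin 3 → ℂ) ≠ 0 := by
      intro h
      have := congrFun h 1
      simp at this
    obtain ⟨i, hi⟩ := hG.smooth _ hv (by rw [Par_real, h0, Complex.ofReal_zero])
    have hE := congrArg (fun Q : TP => val Q x₀ 1 (-η₀ ^ 2)) hG.hom.sum_X_mul_pderiv
    simp only [Fin.sum_univ_three] at hE
    unfold val at hE hc0 hc2 h0
    rw [map_add, map_add, map_mul, map_mul, map_mul, map_nsmul, h0, hc0, hc2, eval_X, eval_X,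
      eval_X] at hE
    have h1 : val (pderiv 1 R) x₀ 1 (-η₀ ^ 2) = 0 := by
      unfold val
      simpa using hE
    rw [Par_real] at hi
    apply hi
    rw [Complex.ofReal_eq_zero]
    fin_cases i
    · exact hc0
    · exact h1
    · exact hc2
  have hsq := Par_sq_mem R x₀ (η₀ * Complex.I) hev0 p hp
  by_cases hx : val (pderiv 0 R) x₀ 1 (-η₀ ^ 2) = 0
  · have hxx := hx
    have hz := hcases.resolve_left (fun h => h hx)
    have hcont2 := Par_cv2 R
    have hs2 : ∀ ε : ℝ, 0 < ε → ∃ y₁ y₂ : ℝ, |y₁ - η₀| < ε ∧ |y₂ - η₀| < ε ∧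
        (fun η x : ℝ => val R x 1 (-η ^ 2)) y₁ x₀ < 0 ∧
        0 < (fun η x : ℝ => val R x 1 (-η ^ 2)) y₂ x₀ := by
      exact Par_sη R x₀ η₀ hη h0 hz
    have hLy : Par_Ly x₀ (η₀ * Complex.I) (Par_ch R) ≠ 0 := by
      rw [Par_Ly_ch, Par_ev_real]
      refine mul_ne_zero (Complex.ofReal_ne_zero.2 hz) (mul_ne_zero two_ne_zero
        (mul_ne_zero (Complex.ofReal_ne_zero.2 hη) Complex.I_ne_zero))
    refine ⟨Polynomial.X - Polynomial.C (Polynomial.C (x₀ : ℂ)), fun q => q.1 - x₀, ?_, ?_, ?_,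
      ?_, ?_⟩
    · intro x η
      rw [Par_ev_eq]
      simp [Par_ev]
    · rw [hp, Par_ev_eq]
      simp [Par_ev]
    · intro hmem
      obtain ⟨c, h1, h2⟩ := hsq _ hmem _ rfl
      have h3 : Par_Lx x₀ (η₀ * Complex.I)
          (Polynomial.X - Polynomial.C (Polynomial.C (x₀ : ℂ))) = 1 := by
        rw [Par_Lx_app]
        simp
      have h4 : Par_Ly x₀ (η₀ * Complex.I)
          (Polynomial.X - Polynomial.C (Polynomial.C (x₀ : ℂ))) = 0 := by
        rw [Par_Ly_app]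
        simp
      rw [h4] at h2
      rcases mul_eq_zero.1 h2.symm with h5 | h5
      · rw [h3, h5, zero_mul] at h1
        exact one_ne_zero h1
      · exact hLy h5
    · refine Par_fr fun ε hε => ?_
      obtain ⟨⟨u, x, hu, hx, h1, h2⟩, -⟩ := Par_pts (Φ := fun η x : ℝ => val R x 1 (-η ^ 2))
        (a := η₀) (c := x₀) hcont2 hs2 ε hε
      exact ⟨x, u, hx, hu, h1, h2⟩
    · refine Par_fr fun ε hε => ?_
      obtain ⟨-, u, x, hu, hx, h1, h2⟩ := Par_pts (Φ := fun η x : ℝ => val R x 1 (-η ^ 2))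
        (a := η₀) (c := x₀) hcont2 hs2 ε hε
      exact ⟨x, u, hx, hu, h1, h2⟩
  · have hxx := hx
    have hs2 : ∀ ε : ℝ, 0 < ε → ∃ y₁ y₂ : ℝ, |y₁ - x₀| < ε ∧ |y₂ - x₀| < ε ∧
        (fun x η : ℝ => val R x 1 (-η ^ 2)) y₁ η₀ < 0 ∧
        0 < (fun x η : ℝ => val R x 1 (-η ^ 2)) y₂ η₀ := by
      exact Par_sx R x₀ (-η₀ ^ 2) h0 hx
    have hLx : Par_Lx x₀ (η₀ * Complex.I) (Par_ch R) ≠ 0 := by
      rw [Par_Lx_ch, Par_ev_real]
      exact Complex.ofReal_ne_zero.2 hx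
    refine ⟨Polynomial.C (Polynomial.C (-Complex.I) * Polynomial.X - Polynomial.C (η₀ : ℂ)),
      fun q => q.2 - η₀, ?_, ?_, ?_, ?_, ?_⟩
    · intro x η
      rw [Par_ev_eq]
      simp only [Par_ev, RingHom.comp_apply, Polynomial.coe_mapRingHom, Polynomial.map_C,
        Polynomial.coe_evalRingHom, Polynomial.eval_C, Polynomial.eval_sub, Polynomial.eval_mul,
        Polynomial.eval_X]
      push_cast
      linear_combination (-(η : ℂ)) * Complex.I_sq
    · rw [hp, Par_ev_eq]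
      simp only [Par_ev, RingHom.comp_apply, Polynomial.coe_mapRingHom, Polynomial.map_C,
        Polynomial.coe_evalRingHom, Polynomial.eval_C, Polynomial.eval_sub, Polynomial.eval_mul,
        Polynomial.eval_X]
      linear_combination (-(η₀ : ℂ)) * Complex.I_sq
    · intro hmem
      obtain ⟨c, h1, h2⟩ := hsq _ hmem _ rfl
      have h3 : Par_Lx x₀ (η₀ * Complex.I) (Polynomial.C (Polynomial.C (-Complex.I) *
          Polynomial.X - Polynomial.C (η₀ : ℂ))) = 0 := by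
        rw [Par_Lx_app, Polynomial.derivative_C, map_zero]
      have h4 : Par_Ly x₀ (η₀ * Complex.I) (Polynomial.C (Polynomial.C (-Complex.I) *
          Polynomial.X - Polynomial.C (η₀ : ℂ))) = -Complex.I := by
        rw [Par_Ly_app, Polynomial.eval_C]
        simp
      rw [h3] at h1
      rcases mul_eq_zero.1 h1.symm with h5 | h5
      · rw [h4, h5, zero_mul] at h2
        exact Complex.I_ne_zero (neg_eq_zero.1 h2)
      · exact hLx h5
    · refine Par_fr fun ε hε => ?_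
      obtain ⟨⟨x, u, hx, hu, h1, h2⟩, -⟩ := Par_pts (Φ := fun x η : ℝ => val R x 1 (-η ^ 2))
        (a := x₀) (c := η₀) hcont hs2 ε hε
      exact ⟨x, u, hx, hu, h1, h2⟩
    · refine Par_fr fun ε hε => ?_
      obtain ⟨-, x, u, hx, hu, h1, h2⟩ := Par_pts (Φ := fun x η : ℝ => val R x 1 (-η ^ 2))
        (a := x₀) (c := η₀) hcont hs2 ε hε
      exact ⟨x, u, hx, hu, h1, h2⟩

/-! ### the end -/

/-- continuity of the values -/
private theorem Par_cont (f : BC) :
    Continuous fun q : ℝ × ℝ => evc f q.1 (q.2 * Complex.I) := by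
  have h : (fun q : ℝ × ℝ => evc f q.1 (q.2 * Complex.I)) = fun q : ℝ × ℝ =>
      ∑ i ∈ Finset.range (f.natDegree + 1),
        Polynomial.eval ((q.2 : ℂ) * Complex.I) (f.coeff i) * (q.1 : ℂ) ^ i := by
    funext q
    unfold evc
    rw [Polynomial.eval_map, Polynomial.eval₂_eq_sum_range]
    rfl
  rw [h]
  refine continuous_finsetSum _ fun i _ => Continuous.mul ?_ ?_
  · exact (f.coeff i).continuous.comp
      ((Complex.continuous_ofReal.comp continuous_snd).mul continuous_const)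
  · exact (Complex.continuous_ofReal.comp continuous_fst).pow i

/-- the local equation `b f = q t ^ k` -/
private theorem Par_loc {O : Type} [CommRing O] [IsDedekindDomain O] (hOd : St_Od) (p : Ideal O)
    (hp : p.IsMaximal) (hp0 : p ≠ ⊥) (t : O) (ht : t ∈ p) (ht2 : t ∉ p * p) (f : O) (hf : f ≠ 0) :
    ∃ b q : O, b ∉ p ∧ q ∉ p ∧ b * f = q * t ^ od p f := by
  obtain ⟨h1, h2, -, -, -⟩ := hOd O
  have ht0 : t ≠ 0 := fun h => ht2 (h ▸ Ideal.zero_mem _)
  have hot : od p t = 1 := by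
    have k1 : 1 ≤ od p t := (h1 p hp hp0 t ht0 1).1 (by rwa [pow_one])
    have k2 : ¬ 2 ≤ od p t := fun h => ht2 (by
      have := (h1 p hp hp0 t ht0 2).2 h
      rwa [pow_two] at this)
    omega
  obtain ⟨J, hJ⟩ := Ideal.dvd_iff_le.2 ((Ideal.span_singleton_le_iff_mem p).2 ht)
  have hJp : ¬ J ≤ p := by
    intro hle
    apply ht2
    have h3 : t ∈ p * J := by
      rw [← hJ]
      exact Ideal.mem_span_singleton_self t
    exact Ideal.mul_mono_right hle h3
  obtain ⟨j, hj, hjp⟩ := SetLike.not_le_iff_exists.1 hJp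
  have hbp : j ^ od p f ∉ p := fun h => hjp (hp.isPrime.mem_of_pow_mem _ h)
  have hfk : f ∈ p ^ od p f := (h1 p hp hp0 f hf _).2 le_rfl
  have h4 : j ^ od p f * f ∈ Ideal.span {t ^ od p f} := by
    rw [← Ideal.span_singleton_pow, hJ, mul_pow, mul_comm (p ^ od p f)]
    exact Ideal.mul_mem_mul (Ideal.pow_mem_pow hj _) hfk
  obtain ⟨q, hq⟩ := Ideal.mem_span_singleton'.1 h4
  refine ⟨j ^ od p f, q, hbp, fun hqp => ?_, hq.symm⟩
  have hb0 : j ^ od p f ≠ 0 := fun h => hbp (h ▸ Ideal.zero_mem _)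
  have h5 : q * t ^ od p f ≠ 0 := by
    rw [hq]
    exact mul_ne_zero hb0 hf
  have hq0 : q ≠ 0 := left_ne_zero_of_mul h5
  have h6 : od p (j ^ od p f) = 0 := by
    by_contra h
    exact hbp (by
      have := (h1 p hp hp0 _ hb0 1).2 (Nat.one_le_iff_ne_zero.2 h)
      rwa [pow_one] at this)
  have h7 : 1 ≤ od p q := (h1 p hp hp0 q hq0 1).1 (by rwa [pow_one])
  have h8 : ∀ m : ℕ, od p (t ^ m) = m := by
    intro m
    induction m with
    | zero =>
      rw [pow_zero]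
      by_contra h
      have h9 := (h1 p hp hp0 (1 : O) one_ne_zero 1).2 (Nat.one_le_iff_ne_zero.2 h)
      rw [pow_one] at h9
      exact hp.ne_top ((Ideal.eq_top_iff_one p).2 h9)
    | succ m ih => rw [pow_succ, h2 p hp hp0 _ _ (pow_ne_zero m ht0) ht0, ih, hot]
  have h9 := congrArg (od p) hq
  rw [h2 p hp hp0 _ _ hq0 (pow_ne_zero _ ht0), h2 p hp hp0 _ _ hb0 hf, h8, h6] at h9
  omega

theorem thm_Par : St_Od → St_Ped → St_Par := by
  intro hOd hPed n R a b s hn hG x₀ η₀ hη h0 p hpm hp f hre hfd hpos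
  have hPts := hPed n R a b s hn hG
  have hded := hPts.ded
  have hp0 := (hPts.pt p hpm).1
  obtain ⟨t, T, hT, ht, ht2, hf1, hf2⟩ := Par_t n R a b s hG x₀ η₀ hη h0 p hp
  have hf0 : AdjoinRoot.mk (chc R) f ≠ 0 := fun h => hfd (AdjoinRoot.mk_eq_zero.1 h)
  obtain ⟨B, Q, hB, hQ, hBQ⟩ := Par_loc hOd p hpm hp0 _ ht ht2 _ hf0
  obtain ⟨B, rfl⟩ := AdjoinRoot.mk_surjective B
  obtain ⟨Q, rfl⟩ := AdjoinRoot.mk_surjective Q
  set k := od p (AdjoinRoot.mk (chc R) f) with hk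
  rw [← map_mul, ← map_pow, ← map_mul, AdjoinRoot.mk_eq_mk] at hBQ
  obtain ⟨h, hh⟩ := hBQ
  by_contra hodd
  rw [Nat.not_even_iff_odd] at hodd
  have hB0 : evc B x₀ (η₀ * Complex.I) ≠ 0 := fun h => hB ((hp B).2 h)
  have hQ0 : evc Q x₀ (η₀ * Complex.I) ≠ 0 := fun h => hQ ((hp Q).2 h)
  have hlim : Tendsto (fun q : ℝ × ℝ => evc Q q.1 (q.2 * Complex.I) / evc B q.1 (q.2 * Complex.I))
      (𝓝 (x₀, η₀)) (𝓝 (evc Q x₀ (η₀ * Complex.I) / evc B x₀ (η₀ * Complex.I))) :=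
    ((Par_cont Q).tendsto (x₀, η₀)).div ((Par_cont B).tendsto (x₀, η₀)) hB0
  have hBne : ∀ᶠ q : ℝ × ℝ in 𝓝 (x₀, η₀), evc B q.1 (q.2 * Complex.I) ≠ 0 :=
    ((Par_cont B).tendsto (x₀, η₀)).eventually_ne hB0
  have hquot : ∀ q : ℝ × ℝ, val R q.1 1 (-q.2 ^ 2) = 0 → T q ≠ 0 →
      evc B q.1 (q.2 * Complex.I) ≠ 0 →
      evc Q q.1 (q.2 * Complex.I) / evc B q.1 (q.2 * Complex.I) =
        (((evc f q.1 (q.2 * Complex.I)).re / T q ^ k : ℝ) : ℂ) := by
    intro q hq hTq hBq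
    have h1 := congrArg (Par_ev q.1 (q.2 * Complex.I)) hh
    rw [Par_ch_eq, map_sub, map_mul, map_mul, map_mul, map_pow, Par_ev_real, hq,
      Complex.ofReal_zero, zero_mul, ← Par_ev_eq, ← Par_ev_eq, ← Par_ev_eq, ← Par_ev_eq,
      hT q.1 q.2, sub_eq_zero] at h1
    have h2 : evc f q.1 (q.2 * Complex.I) = (((evc f q.1 (q.2 * Complex.I)).re : ℝ) : ℂ) := by
      apply Complex.ext
      · rw [Complex.ofReal_re]
      · rw [Complex.ofReal_im]
        exact hre q.1 q.2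
    have h3 : ((T q : ℝ) : ℂ) ≠ 0 := Complex.ofReal_ne_zero.2 hTq
    rw [Complex.ofReal_div, ← h2, Complex.ofReal_pow, div_eq_div_iff hBq (pow_ne_zero _ h3)]
    rw [← h1, mul_comm]
  have hcl1 : IsClosed {z : ℂ | z.im = 0 ∧ 0 ≤ z.re} :=
    (isClosed_eq Complex.continuous_im continuous_const).inter
      (isClosed_le continuous_const Complex.continuous_re)
  have hcl2 : IsClosed {z : ℂ | z.im = 0 ∧ z.re ≤ 0} :=
    (isClosed_eq Complex.continuous_im continuous_const).inter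
      (isClosed_le Complex.continuous_re continuous_const)
  have m1 := hcl1.mem_of_frequently_of_tendsto
    ((hf1.and_eventually (hpos.and hBne)).mono fun q hq => by
      obtain ⟨⟨hq0, hTq⟩, hqp, hBq⟩ := hq
      rw [hquot q hq0 hTq.ne' hBq]
      exact ⟨Complex.ofReal_im _, by
        rw [Complex.ofReal_re]
        exact div_nonneg (hqp hq0) (pow_pos hTq _).le⟩) hlim
  have m2 := hcl2.mem_of_frequently_of_tendsto
    ((hf2.and_eventually (hpos.and hBne)).mono fun q hq => by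
      obtain ⟨⟨hq0, hTq⟩, hqp, hBq⟩ := hq
      rw [hquot q hq0 hTq.ne hBq]
      exact ⟨Complex.ofReal_im _, by
        rw [Complex.ofReal_re]
        exact div_nonpos_of_nonneg_of_nonpos (hqp hq0) (hodd.pow_neg hTq).le⟩) hlim
  refine div_ne_zero hQ0 hB0 (Complex.ext ?_ ?_)
  · exact le_antisymm m2.2 m1.2
  · exact m1.1

end Pool.Agent.RSV
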