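import Pool.Agent.RSV.StD

/-!
# RSV, module Ped (helper8): points and maximal ideals of the double cover, Dedekind
-/

set_option autoImplicit false

namespace Pool.Agent.RSV

open MvPolynomial Filter Topology Module
open scoped ComplexConjugate

/-! ### evaluation -/

private theorem Ped_evc (f : BC) (x y : ℂ) : evc f x y = f.evalEval y x :=
  Polynomial.map_evalRingHom_eval y x f

private theorem Ped_evc_eval (f : BC) (x y : ℂ) :
    evc f x y = (f.eval (Polynomial.C x)).eval y := Ped_evc f x y

private theorem Ped_evc_mul (f g : BC) (x y : ℂ) : evc (f * g) x y = evc f x y * evc g x y := by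
  rw [Ped_evc, Ped_evc, Ped_evc, Polynomial.evalEval_mul]

private theorem Ped_evc_add (f g : BC) (x y : ℂ) : evc (f + g) x y = evc f x y + evc g x y := by
  rw [Ped_evc, Ped_evc, Ped_evc, Polynomial.evalEval_add]

private theorem Ped_evc_X (x y : ℂ) :
    evc (Polynomial.X - Polynomial.C (Polynomial.C x)) x y = 0 := by
  rw [Ped_evc_eval]
  simp

private theorem Ped_evc_Y (x y : ℂ) :
    evc (Polynomial.C (Polynomial.X - Polynomial.C y)) x y = 0 := by
  rw [Ped_evc_eval]
  simp

/-- division by `x - x₀`, `y - y₀` -/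
private theorem Ped_div (f : BC) (x y : ℂ) (h : evc f x y = 0) :
    ∃ (g : BC) (k : Polynomial ℂ), f = (Polynomial.X - Polynomial.C (Polynomial.C x)) * g
      + Polynomial.C ((Polynomial.X - Polynomial.C y) * k) ∧
      f.eval (Polynomial.C x) = (Polynomial.X - Polynomial.C y) * k := by
  have h1 : (f.eval (Polynomial.C x)).IsRoot y := by
    rw [Polynomial.IsRoot.def, ← Ped_evc_eval, h]
  obtain ⟨k, hk⟩ := Polynomial.dvd_iff_isRoot.mpr h1
  obtain ⟨g, hg⟩ := Polynomial.X_sub_C_dvd_sub_C_eval (a := Polynomial.C x) (p := f)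
  refine ⟨g, k, ?_, hk⟩
  rw [← hg, ← hk]
  ring

/-- every maximal ideal is the kernel of an evaluation -/
private theorem Ped_pt (F : BC) (p : Ideal (AdjoinRoot F)) (hp : p.IsMaximal) :
    ∃ x y : ℂ, ∀ f : BC, AdjoinRoot.mk F f ∈ p ↔ evc f x y = 0 := by
  let : Field (AdjoinRoot F ⧸ p) := Ideal.Quotient.field p
  have hft : Algebra.FiniteType ℂ (AdjoinRoot F ⧸ p) := by
    have : Algebra.FiniteType ℂ (AdjoinRoot F) := AdjoinRoot.finiteType F
    exact Algebra.FiniteType.of_surjective (Ideal.Quotient.mkₐ ℂ p)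
      (Ideal.Quotient.mkₐ_surjective ℂ p)
  have hfin : Module.Finite ℂ (AdjoinRoot F ⧸ p) :=
    finite_of_finite_type_of_isJacobsonRing ℂ (AdjoinRoot F ⧸ p)
  have hbij : Function.Bijective (algebraMap ℂ (AdjoinRoot F ⧸ p)) :=
    IsAlgClosed.algebraMap_bijective_of_isIntegral
  let e : ℂ ≃+* (AdjoinRoot F ⧸ p) := RingEquiv.ofBijective _ hbij
  let ψ : BC →+* ℂ := (e.symm : (AdjoinRoot F ⧸ p) →+* ℂ).comp
    ((Ideal.Quotient.mk p).comp (AdjoinRoot.mk F))
  have hC : ∀ c : ℂ, ψ (Polynomial.C (Polynomial.C c)) = c := by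
    intro c
    have h1 : (Ideal.Quotient.mk p) (AdjoinRoot.mk F (Polynomial.C (Polynomial.C c))) = e c := rfl
    change e.symm _ = c
    rw [RingHom.comp_apply, h1, RingEquiv.symm_apply_apply]
  have hψ : ∀ f : BC, ψ f = evc f (ψ Polynomial.X) (ψ (Polynomial.C Polynomial.X)) := by
    intro f
    rw [Ped_evc, ← Polynomial.coe_evalEvalRingHom]
    have h2 : ψ = Polynomial.evalEvalRingHom (ψ (Polynomial.C Polynomial.X)) (ψ Polynomial.X) := by
      refine Polynomial.ringHom_ext (fun g => ?_) ?_
      · have h3 : ψ.comp Polynomial.C = (Polynomial.evalEvalRingHom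
            (ψ (Polynomial.C Polynomial.X)) (ψ Polynomial.X)).comp Polynomial.C := by
          refine Polynomial.ringHom_ext (fun c => ?_) ?_
          · rw [RingHom.comp_apply, hC]
            simp
          · simp
        exact RingHom.congr_fun h3 g
      · simp
    exact RingHom.congr_fun h2 f
  refine ⟨ψ Polynomial.X, ψ (Polynomial.C Polynomial.X), fun f => ?_⟩
  rw [← hψ, ← Ideal.Quotient.eq_zero_iff_mem]
  exact (map_eq_zero_iff e.symm e.symm.injective).symm

/-- every point gives a maximal ideal -/
private theorem Ped_ex (F : BC) (x y : ℂ) (h : evc F x y = 0) :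
    ∃ p : Ideal (AdjoinRoot F), p.IsMaximal ∧ ∀ f : BC, AdjoinRoot.mk F f ∈ p ↔ evc f x y = 0 := by
  rw [Ped_evc] at h
  have hs : Function.Surjective (AdjoinRoot.evalEval h) := by
    intro c
    refine ⟨AdjoinRoot.mk F (Polynomial.C (Polynomial.C c)), ?_⟩
    rw [AdjoinRoot.evalEval_mk]
    simp
  refine ⟨RingHom.ker (AdjoinRoot.evalEval h), RingHom.ker_isMaximal_of_surjective _ hs, fun f => ?_⟩
  rw [RingHom.mem_ker, AdjoinRoot.evalEval_mk, Ped_evc]

/-- the ideal of a point is generated by `x - x₀`, `y - y₀` -/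
private theorem Ped_gen (F : BC) (p : Ideal (AdjoinRoot F)) (x y : ℂ)
    (h : ∀ f : BC, AdjoinRoot.mk F f ∈ p ↔ evc f x y = 0) :
    p = Ideal.span {AdjoinRoot.mk F (Polynomial.X - Polynomial.C (Polynomial.C x)),
      AdjoinRoot.mk F (Polynomial.C (Polynomial.X - Polynomial.C y))} := by
  apply le_antisymm
  · intro a ha
    obtain ⟨f, rfl⟩ := AdjoinRoot.mk_surjective a
    obtain ⟨g, k, hf, -⟩ := Ped_div f x y ((h f).mp ha)
    rw [Ideal.mem_span_pair]
    refine ⟨AdjoinRoot.mk F g, AdjoinRoot.mk F (Polynomial.C k), ?_⟩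
    rw [← map_mul, ← map_mul, ← map_add]
    congr 1
    rw [hf, Polynomial.C_mul]
    ring
  · rw [Ideal.span_le]
    intro a ha
    rcases ha with rfl | ha
    · exact (h _).mpr (Ped_evc_X x y)
    · rw [Set.mem_singleton_iff] at ha
      subst ha
      exact (h _).mpr (Ped_evc_Y x y)

/-! ### local rings -/

/-- if `u a ∈ (b)` with `u ∉ p = (a, b)` then the localization has a principal maximal ideal -/
private theorem Ped_loc {O : Type} [CommRing O] [IsDomain O] [IsNoetherianRing O] (p : Ideal O)
    [hp : p.IsPrime] (h0 : p ≠ ⊥) (a b u v : O) (hab : p = Ideal.span {a, b}) (hu : u ∉ p)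
    (huv : u * a = v * b) : IsDiscreteValuationRing (Localization.AtPrime p) := by
  have hmax : (IsLocalRing.maximalIdeal (Localization.AtPrime p)) =
      Ideal.span {algebraMap O (Localization.AtPrime p) b} := by
    rw [← Localization.AtPrime.map_eq_maximalIdeal]
    apply le_antisymm
    · rw [Ideal.map_le_iff_le_comap]
      nth_rw 1 [hab]
      rw [Ideal.span_le]
      intro c hc
      rw [SetLike.mem_coe, Ideal.mem_comap, Ideal.mem_span_singleton]
      rcases hc with rfl | hc
      · have hunit : IsUnit (algebraMap O (Localization.AtPrime p) u) :=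
          IsLocalization.map_units (M := p.primeCompl) (Localization.AtPrime p) ⟨u, hu⟩
        rw [← hunit.dvd_mul_left, ← map_mul, huv, map_mul]
        exact dvd_mul_left _ _
      · rw [Set.mem_singleton_iff] at hc
        rw [hc]
    · rw [Ideal.span_singleton_le_iff_mem]
      apply Ideal.mem_map_of_mem
      rw [hab]
      exact Ideal.subset_span (by simp)
  have hnf : ¬ IsField (Localization.AtPrime p) := by
    intro hF
    rw [IsLocalRing.isField_iff_maximalIdeal_eq] at hF
    rw [← Localization.AtPrime.map_eq_maximalIdeal] at hF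
    obtain ⟨c, hc, hc0⟩ := Submodule.exists_mem_ne_zero_of_ne_bot h0
    have h1 : algebraMap O (Localization.AtPrime p) c = 0 := by
      have := Ideal.mem_map_of_mem (algebraMap O (Localization.AtPrime p)) hc
      rw [hF] at this
      exact this
    have h2 := IsLocalization.injective (Localization.AtPrime p) p.primeCompl_le_nonZeroDivisors
    exact hc0 (h2 (by rw [h1, map_zero]))
  have : IsNoetherianRing (Localization.AtPrime p) :=
    IsLocalization.isNoetherianRing p.primeCompl _ inferInstance
  refine ((IsDiscreteValuationRing.TFAE (Localization.AtPrime p) hnf).out 0 4).mpr ?_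
  rw [hmax]
  exact ⟨⟨_, rfl⟩⟩

/-! ### derivatives -/

private theorem Ped_derX (R : TP) : Polynomial.derivative (chc R) = chc (pderiv 0 R) := by
  unfold chc
  induction R using MvPolynomial.induction_on with
  | C r => simp
  | add p q hp hq => rw [eval₂_add, Polynomial.derivative_add, map_add, eval₂_add, hp, hq]
  | mul_X p i hp =>
    rw [eval₂_mul, Polynomial.derivative_mul, hp, Derivation.leibniz, eval₂_add, smul_eq_mul,
      smul_eq_mul, eval₂_mul, eval₂_mul, eval₂_X]
    fin_cases i
    · simp
      ring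
    · simp
    · have e : Polynomial.derivative (Polynomial.C (Polynomial.X ^ 2) : BC) = 0 :=
        Polynomial.derivative_C
      simp only [Fin.reduceFinMk, Matrix.cons_val, e, pderiv_X_of_ne (show (2 : Fin 3) ≠ 0 by decide),
        eval₂_zero]
      ring

private theorem Ped_derY (R : TP) (x : ℂ) :
    Polynomial.derivative ((chc R).eval (Polynomial.C x)) =
      2 * Polynomial.X * (chc (pderiv 2 R)).eval (Polynomial.C x) := by
  unfold chc
  induction R using MvPolynomial.induction_on with
  | C r => simp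
  | add p q hp hq =>
    rw [eval₂_add, Polynomial.eval_add, Polynomial.derivative_add, map_add, eval₂_add, hp, hq,
      Polynomial.eval_add]
    ring
  | mul_X p i hp =>
    rw [eval₂_mul, Polynomial.eval_mul, Polynomial.derivative_mul, hp, Derivation.leibniz,
      eval₂_add, smul_eq_mul, smul_eq_mul, eval₂_mul, eval₂_mul, Polynomial.eval_add,
      Polynomial.eval_mul, Polynomial.eval_mul]
    fin_cases i
    · simp
      ring
    · simp
    · simp
      ring

/-- restriction to `Y = 1`, `Z = 0` -/
private noncomputable def Ped_r (R : TP) : Polynomial ℝ := aeval ![Polynomial.X, 1, 0] R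

private theorem Ped_r_der (R : TP) : Polynomial.derivative (Ped_r R) = Ped_r (pderiv 0 R) := by
  unfold Ped_r
  induction R using MvPolynomial.induction_on with
  | C r => simp
  | add p q hp hq => rw [map_add, Polynomial.derivative_add, map_add, map_add, hp, hq]
  | mul_X p i hp =>
    rw [map_mul, Polynomial.derivative_mul, hp, Derivation.leibniz, map_add, smul_eq_mul,
      smul_eq_mul, map_mul, map_mul]
    fin_cases i
    · simp
      ring
    · simp
    · simp

private theorem Ped_r_val (R : TP) (t : ℝ) : (Ped_r R).eval t = val R t 1 0 := by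
  unfold Ped_r val
  induction R using MvPolynomial.induction_on with
  | C r => simp
  | add p q hp hq => rw [map_add, Polynomial.eval_add, map_add, hp, hq]
  | mul_X p i hp =>
    rw [map_mul, Polynomial.eval_mul, map_mul, hp]
    fin_cases i <;> simp

private theorem Ped_r_aeval (R : TP) (x : ℂ) :
    Polynomial.aeval x (Ped_r R) = aeval ![x, 1, 0] R := by
  unfold Ped_r
  induction R using MvPolynomial.induction_on with
  | C r => simp
  | add p q hp hq => rw [map_add, map_add, map_add, hp, hq]
  | mul_X p i hp =>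
    rw [map_mul, map_mul, map_mul, hp]
    fin_cases i <;> simp

/-- `R (·, 1, 0)` is separable -/
private theorem Ped_sep {n : ℕ} {R : TP} {a b s : Fin n → ℝ} (hg : Good R a b s) :
    (Ped_r R).Separable := by
  have h1 : Ped_r R = ∏ i, (Polynomial.X - Polynomial.C (a i ^ 2)) := by
    apply Polynomial.funext
    intro t
    rw [Ped_r_val, hg.ra, Polynomial.eval_prod]
    simp
  rw [h1, Polynomial.separable_prod_X_sub_C_iff]
  obtain ⟨f, hf, hf'⟩ := hg.hyp 1 0 zero_le_one le_rfl (Or.inl one_ne_zero)
  have h2 : ∀ k, ∃ i, a i ^ 2 = f k := by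
    intro k
    have h3 := (hf' k).2
    rw [hg.ra, Finset.prod_eq_zero_iff] at h3
    obtain ⟨i, -, hi⟩ := h3
    exact ⟨i, by linarith⟩
  choose g hgg using h2
  have hginj : Function.Injective g := by
    intro k l hkl
    apply hf
    rw [← hgg k, ← hgg l, hkl]
  have hgsurj : Function.Surjective g := Finite.surjective_of_injective hginj
  intro i j hij
  obtain ⟨k, rfl⟩ := hgsurj i
  obtain ⟨l, rfl⟩ := hgsurj j
  have h4 : f k = f l := by
    rw [← hgg k, ← hgg l]
    exact hij
  rw [hf h4]

/-- smoothness of the double cover -/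
private theorem Ped_smooth {n : ℕ} {R : TP} {a b s : Fin n → ℝ} (hg : Good R a b s) (x y : ℂ)
    (h0 : aeval ![x, 1, y ^ 2] R = 0) (hx : aeval ![x, 1, y ^ 2] (pderiv 0 R) = 0)
    (hy : 2 * y * aeval ![x, 1, y ^ 2] (pderiv 2 R) = 0) : False := by
  by_cases hy0 : y = 0
  · subst hy0
    have e : (![x, 1, (0 : ℂ) ^ 2] : Fin 3 → ℂ) = ![x, 1, 0] := by
      rw [zero_pow two_ne_zero]
    rw [e] at h0 hx
    have h1 := (Ped_sep hg).aeval_derivative_ne_zero (x := x)
      (by rw [Ped_r_aeval]; exact h0)
    rw [Ped_r_der, Ped_r_aeval] at h1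
    exact h1 hx
  · have hz : aeval ![x, 1, y ^ 2] (pderiv 2 R) = 0 := by
      rcases mul_eq_zero.mp hy with h | h
      · rcases mul_eq_zero.mp h with h | h
        · exact absurd h two_ne_zero
        · exact absurd h hy0
      · exact h
    have h1 := congrArg (aeval ![x, 1, y ^ 2]) hg.hom.sum_X_mul_pderiv
    rw [map_sum, Fin.sum_univ_three, map_mul, map_mul, map_mul, hx, hz, map_nsmul, h0] at h1
    simp at h1
    obtain ⟨i, hi⟩ := hg.smooth ![x, 1, y ^ 2] (fun h => by
      have := congrFun h 1
      simp at this) h0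
    fin_cases i
    · exact hi hx
    · exact hi h1
    · exact hi hz

theorem thm_Ped : St_Mon → St_Irb → St_Ped := by
  intro hMon hIrb n R a b s hn hg
  obtain ⟨-, -, ⟨hmon, hdeg, -⟩, -, hev⟩ := hMon n R a b s hn hg
  have hirr := hIrb n R a b s hn hg
  have hprime : Prime (chc R) := hirr.prime
  have hdom : IsDomain (AdjoinRoot (chc R)) := AdjoinRoot.isDomain_of_prime hprime
  have hne : ∀ p : Ideal (AdjoinRoot (chc R)), p.IsMaximal → p ≠ ⊥ := by
    intro p hp h
    obtain ⟨x, y, hxy⟩ := Ped_pt (chc R) p hp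
    have h1 := (hxy (Polynomial.C (Polynomial.X - Polynomial.C y))).mpr (Ped_evc_Y x y)
    rw [h, Ideal.mem_bot, AdjoinRoot.mk_eq_zero] at h1
    have h2 := Polynomial.natDegree_le_of_dvd h1
      (Polynomial.C_ne_zero.mpr (Polynomial.X_sub_C_ne_zero y))
    rw [hdeg, Polynomial.natDegree_C] at h2
    omega
  have hcurve : ∀ (p : Ideal (AdjoinRoot (chc R))) (x y : ℂ),
      (∀ f : BC, AdjoinRoot.mk (chc R) f ∈ p ↔ evc f x y = 0) → evc (chc R) x y = 0 := by
    intro p x y h
    rw [← h, AdjoinRoot.mk_self]
    exact p.zero_mem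
  refine ⟨?_, ?_, fun x y h => Ped_ex (chc R) x y h⟩
  · have : Module.Finite (Polynomial ℂ) (AdjoinRoot (chc R)) := hmon.finite_adjoinRoot
    have : Algebra.IsIntegral (Polynomial ℂ) (AdjoinRoot (chc R)) := inferInstance
    have : Ring.DimensionLEOne (AdjoinRoot (chc R)) :=
      Ring.DimensionLEOne.of_isIntegral (Polynomial ℂ) (AdjoinRoot (chc R))
    have hN : IsNoetherianRing (AdjoinRoot (chc R)) := inferInstance
    have : IsDedekindDomainDvr (AdjoinRoot (chc R)) := by
      refine { hN with is_dvr_at_nonzero_prime := ?_ }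
      intro P hP hPp
      have hPm : P.IsMaximal := hPp.isMaximal hP
      obtain ⟨x, y, hxy⟩ := Ped_pt (chc R) P hPm
      have hc := hcurve P x y hxy
      have hgen := Ped_gen (chc R) P x y hxy
      obtain ⟨f₁, k, hF, hFe⟩ := Ped_div (chc R) x y hc
      have hrel : AdjoinRoot.mk (chc R) f₁ *
          AdjoinRoot.mk (chc R) (Polynomial.X - Polynomial.C (Polynomial.C x)) =
          AdjoinRoot.mk (chc R) (-Polynomial.C k) *
          AdjoinRoot.mk (chc R) (Polynomial.C (Polynomial.X - Polynomial.C y)) := by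
        rw [← map_mul, ← map_mul, ← sub_eq_zero, ← map_sub, AdjoinRoot.mk_eq_zero]
        refine ⟨1, ?_⟩
        rw [mul_one]
        nth_rw 1 [hF]
        rw [Polynomial.C_mul]
        ring
      by_cases h1 : AdjoinRoot.mk (chc R) f₁ ∈ P
      · have h2 : AdjoinRoot.mk (chc R) (-Polynomial.C k) ∉ P := by
          intro h2
          rw [hxy] at h1 h2
          have hx : aeval ![x, 1, y ^ 2] (pderiv 0 R) = 0 := by
            rw [← hev, ← Ped_derX]
            rw [hF, Polynomial.derivative_add, Polynomial.derivative_mul, Ped_evc_add,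
              Ped_evc_add, Ped_evc_mul, Ped_evc_mul, h1, Ped_evc_X, Polynomial.derivative_C]
            simp [evc]
          have hk : k.eval y = 0 := by
            rw [Ped_evc_eval] at h2
            simpa using h2
          have hy : 2 * y * aeval ![x, 1, y ^ 2] (pderiv 2 R) = 0 := by
            have h3 := congrArg (Polynomial.eval y) (Ped_derY R x)
            rw [hFe, Polynomial.derivative_mul, Polynomial.eval_mul, ← Ped_evc_eval, hev] at h3
            simp [hk] at h3
            rcases h3 with h3 | h3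
            · rw [h3]; ring
            · rw [h3]; ring
          have h0 : aeval ![x, 1, y ^ 2] R = 0 := by
            rw [← hev]
            exact hc
          exact Ped_smooth hg x y h0 hx hy
        rw [Set.pair_comm] at hgen
        exact Ped_loc P hP _ _ _ _ hgen h2 hrel.symm
      · exact Ped_loc P hP _ _ _ _ hgen h1 hrel
    exact IsDedekindDomainDvr.isDedekindDomain _
  · intro p hp
    obtain ⟨x, y, hxy⟩ := Ped_pt (chc R) p hp
    exact ⟨hne p hp, x, y, hcurve p x y hxy, hxy⟩

end Pool.Agent.RSV
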