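import Pool.Agent.RSV.StA

/-!
# RSV, module Pf: Pfister's argument for quaternion norm forms
-/

set_option autoImplicit false

namespace Pool.Agent.RSV

open MvPolynomial Module

/-- the norm form -/
private def Pf_N {K : Type} [Field K] (A B : K) (p : Fin 4 → K) : K :=
  p 0 ^ 2 + A * p 1 ^ 2 + B * p 2 ^ 2 + A * B * p 3 ^ 2

/-- the product of quaternions -/
private def Pf_mul {K : Type} [Field K] (A B : K) (p q : Fin 4 → K) : Fin 4 → K :=
  ![p 0 * q 0 - A * (p 1 * q 1) - B * (p 2 * q 2) - A * B * (p 3 * q 3),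
    p 0 * q 1 + p 1 * q 0 + B * (p 2 * q 3 - p 3 * q 2),
    p 0 * q 2 + p 2 * q 0 + A * (p 3 * q 1 - p 1 * q 3),
    p 0 * q 3 + p 3 * q 0 + (p 1 * q 2 - p 2 * q 1)]

private theorem Pf_N_mul {K : Type} [Field K] (A B : K) (p q : Fin 4 → K) :
    Pf_N A B (Pf_mul A B p q) = Pf_N A B p * Pf_N A B q := by
  simp only [Pf_N, Pf_mul, Matrix.cons_val_zero, Matrix.cons_val_one, Matrix.cons_val]
  ring

private theorem Pf_N_zero {K : Type} [Field K] (A B : K) : Pf_N A B 0 = 0 := by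
  simp [Pf_N]

/-- a vector orthogonal to `(a, b, c)` -/
private theorem Pf_e {K : Type} [Field K] (A B : K) (hA : A ≠ 0) (hB : B ≠ 0)
    (han : ∀ p : Fin 4 → K, Pf_N A B p = 0 → p = 0) (a b c : K) :
    ∃ f₁ f₂ f₃ E : K, E ≠ 0 ∧ ∀ S V : K,
      A * (S * a + V * f₁) ^ 2 + B * (S * b + V * f₂) ^ 2 + A * B * (S * c + V * f₃) ^ 2 =
        (A * a ^ 2 + B * b ^ 2 + A * B * c ^ 2) * (S ^ 2 + E * V ^ 2) := by
  by_cases hab : a = 0 ∧ b = 0
  · obtain ⟨rfl, rfl⟩ := hab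
    refine ⟨0, A * c, 0, A, hA, fun S V => ?_⟩
    ring
  · refine ⟨A * B * a * c, A * B * b * c, -(A * a ^ 2 + B * b ^ 2),
      A * B * (A * a ^ 2 + B * b ^ 2), fun h => hab ?_, fun S V => ?_⟩
    · have h1 : Pf_N A B ![0, B * b, -(A * a), 0] = 0 := by
        simp only [Pf_N, Matrix.cons_val_zero, Matrix.cons_val_one, Matrix.cons_val]
        linear_combination h
      have h2 := han _ h1
      have h3 : B * b = 0 := by
        have := congrFun h2 1
        simpa using this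
      have h4 : A * a = 0 := by
        have := congrFun h2 2
        simpa using this
      exact ⟨(mul_eq_zero.1 h4).resolve_left hA, (mul_eq_zero.1 h3).resolve_left hB⟩
    · ring

private theorem Pf_one {K : Type} [Field K] (h1 : ∀ x : K, x ^ 2 ≠ -1)
    (h2 : ∀ c t : K, c ≠ 0 → ∃ P Q : K, 1 + t ^ 2 = P ^ 2 + c * Q ^ 2) (A B : K) (hA : A ≠ 0)
    (hB : B ≠ 0) (han : ∀ p : Fin 4 → K, Pf_N A B p = 0 → p = 0) (w : Fin 4 → K) :
    ∃ z : Fin 4 → K, z ≠ 0 ∧ Pf_N A B z = 1 + Pf_N A B w := by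
  by_cases hW : A * w 1 ^ 2 + B * w 2 ^ 2 + A * B * w 3 ^ 2 = 0
  · obtain ⟨P, Q, hPQ⟩ := h2 A (w 0) hA
    have hN : Pf_N A B ![P, Q, 0, 0] = 1 + Pf_N A B w := by
      simp only [Pf_N, Matrix.cons_val_zero, Matrix.cons_val_one, Matrix.cons_val]
      linear_combination -hPQ - hW
    refine ⟨![P, Q, 0, 0], fun h => h1 (w 0) ?_, hN⟩
    rw [h, Pf_N_zero] at hN
    have h3 : Pf_N A B w = w 0 ^ 2 := by
      unfold Pf_N
      linear_combination hW
    rw [h3] at hN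
    linear_combination -hN
  · obtain ⟨P, Q, hPQ⟩ := h2 _ (w 0) hW
    obtain ⟨f₁, f₂, f₃, E, hE, hf⟩ := Pf_e A B hA hB han (w 1) (w 2) (w 3)
    obtain ⟨S, V, hSV⟩ := h2 E Q hE
    have hfs := hf S V
    have hN : Pf_N A B ![P, S * w 1 + V * f₁, S * w 2 + V * f₂, S * w 3 + V * f₃] =
        1 + Pf_N A B w := by
      simp only [Pf_N, Matrix.cons_val_zero, Matrix.cons_val_one, Matrix.cons_val]
      linear_combination hfs - hPQ -
        (A * w 1 ^ 2 + B * w 2 ^ 2 + A * B * w 3 ^ 2) * hSV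
    refine ⟨_, fun h => h1 Q ?_, hN⟩
    have k1 : S * w 1 + V * f₁ = 0 := by
      have := congrFun h 1
      simpa using this
    have k2 : S * w 2 + V * f₂ = 0 := by
      have := congrFun h 2
      simpa using this
    have k3 : S * w 3 + V * f₃ = 0 := by
      have := congrFun h 3
      simpa using this
    rw [k1, k2, k3, ← hSV] at hfs
    have h5 : (A * w 1 ^ 2 + B * w 2 ^ 2 + A * B * w 3 ^ 2) * (1 + Q ^ 2) = 0 := by
      rw [← hfs]
      ring
    have h6 := (mul_eq_zero.1 h5).resolve_left hW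
    linear_combination h6

private theorem Pf_add {K : Type} [Field K] (h1 : ∀ x : K, x ^ 2 ≠ -1)
    (h2 : ∀ c t : K, c ≠ 0 → ∃ P Q : K, 1 + t ^ 2 = P ^ 2 + c * Q ^ 2) (A B : K) (hA : A ≠ 0)
    (hB : B ≠ 0) (han : ∀ p : Fin 4 → K, Pf_N A B p = 0 → p = 0) (x y : Fin 4 → K) (hx : x ≠ 0) :
    ∃ z : Fin 4 → K, z ≠ 0 ∧ Pf_N A B z = Pf_N A B x + Pf_N A B y := by
  have hn : Pf_N A B x ≠ 0 := fun h => hx (han x h)
  let x' : Fin 4 → K := ![x 0 / Pf_N A B x, -(x 1 / Pf_N A B x), -(x 2 / Pf_N A B x),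
    -(x 3 / Pf_N A B x)]
  have hx' : Pf_N A B x' * Pf_N A B x = 1 := by
    have h3 : Pf_N A B x' = Pf_N A B x / Pf_N A B x ^ 2 := by
      generalize hg : Pf_N A B x = n
      show Pf_N A B ![x 0 / Pf_N A B x, -(x 1 / Pf_N A B x), -(x 2 / Pf_N A B x),
        -(x 3 / Pf_N A B x)] = _
      rw [hg]
      have h4 : n = x 0 ^ 2 + A * x 1 ^ 2 + B * x 2 ^ 2 + A * B * x 3 ^ 2 := hg.symm
      simp only [Pf_N, Matrix.cons_val_zero, Matrix.cons_val_one, Matrix.cons_val]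
      rw [neg_sq, neg_sq, neg_sq, div_pow, div_pow, div_pow, div_pow]
      rw [show n / n ^ 2 = (x 0 ^ 2 + A * x 1 ^ 2 + B * x 2 ^ 2 + A * B * x 3 ^ 2) / n ^ 2 by
        rw [← h4]]
      ring
    rw [h3]
    field_simp
  obtain ⟨z', hz', hN⟩ := Pf_one h1 h2 A B hA hB han (Pf_mul A B x' y)
  have hN2 : Pf_N A B (Pf_mul A B x z') = Pf_N A B x + Pf_N A B y := by
    rw [Pf_N_mul, hN, Pf_N_mul]
    linear_combination (Pf_N A B y) * hx'
  refine ⟨Pf_mul A B x z', fun h => hz' (han z' ?_), hN2⟩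
  have h5 : Pf_N A B x * Pf_N A B z' = 0 := by
    rw [← Pf_N_mul, h, Pf_N_zero]
  exact (mul_eq_zero.1 h5).resolve_left hn

/-- [Pf] Pfister's argument. -/
theorem thm_Pf : St_Pf := by
  intro K _ _ h1 h2 A B hA hB m v hv hsum
  by_contra hcon
  have han : ∀ p : Fin 4 → K, Pf_N A B p = 0 → p = 0 := fun p hp => by
    by_contra hne
    exact hcon ⟨p, hne, hp⟩
  have key : ∀ (m : ℕ) (v : Fin m → Fin 4 → K), (∃ j, v j ≠ 0) →
      ∃ z : Fin 4 → K, z ≠ 0 ∧ Pf_N A B z = ∑ j, Pf_N A B (v j) := by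
    intro m
    induction m with
    | zero =>
      rintro v ⟨j, _⟩
      exact j.elim0
    | succ m ih =>
      intro v hv
      rw [Fin.sum_univ_succ]
      by_cases hr : ∃ j : Fin m, v j.succ ≠ 0
      · obtain ⟨z, hz, hzN⟩ := ih (fun j => v j.succ) hr
        obtain ⟨z', hz', hz'N⟩ := Pf_add h1 h2 A B hA hB han z (v 0) hz
        exact ⟨z', hz', by rw [hz'N, hzN, add_comm]⟩
      · have hr' : ∀ j : Fin m, v j.succ = 0 := fun j => by
          by_contra hne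
          exact hr ⟨j, hne⟩
        have h0 : v 0 ≠ 0 := by
          obtain ⟨j, hj⟩ := hv
          rcases Fin.eq_zero_or_eq_succ j with rfl | ⟨i, rfl⟩
          · exact hj
          · exact absurd (hr' i) hj
        refine ⟨v 0, h0, ?_⟩
        rw [Finset.sum_eq_zero, add_zero]
        intro j _
        rw [hr' j, Pf_N_zero]
  obtain ⟨z, hz, hzN⟩ := key m v hv
  have h3 : ∑ j, Pf_N A B (v j) = 0 := hsum
  rw [h3] at hzN
  exact hz (han z hzN)

end Pool.Agent.RSV
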