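import Pool.Agent.RSV.StE

/-!
# RSV Pl: sums over the fibre are polynomials (MP_08a990_an)
-/

set_option autoImplicit false

namespace Pool.Agent.RSV

open Module
open scoped ComplexConjugate

private theorem Pl_evc_mul (f g : BC) (x y : ℂ) : evc (f * g) x y = evc f x y * evc g x y := by
  unfold evc
  rw [Polynomial.map_mul, Polynomial.eval_mul]

private theorem Pl_evc_add (f g : BC) (x y : ℂ) : evc (f + g) x y = evc f x y + evc g x y := by
  unfold evc
  rw [Polynomial.map_add, Polynomial.eval_add]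

private theorem Pl_evc_sub (f g : BC) (x y : ℂ) : evc (f - g) x y = evc f x y - evc g x y := by
  unfold evc
  rw [Polynomial.map_sub, Polynomial.eval_sub]

private theorem Pl_evc_cj (f : BC) (x y : ℝ) : evc (cj f) x y = conj (evc f x y) := by
  unfold evc cj
  rw [Polynomial.map_map]
  have h2 : (Polynomial.evalRingHom ((y : ℝ) : ℂ)).comp (Polynomial.mapRingHom (starRingEnd ℂ)) =
      (starRingEnd ℂ).comp (Polynomial.evalRingHom ((y : ℝ) : ℂ)) := by
    refine Polynomial.ringHom_ext ?_ ?_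
    · intro a
      simp
    · simp
  rw [h2, ← Polynomial.map_map]
  have h3 := Polynomial.eval_map_apply (f := starRingEnd ℂ)
    (p := f.map (Polynomial.evalRingHom ((y : ℝ) : ℂ))) ((x : ℝ) : ℂ)
  rw [Complex.conj_ofReal] at h3
  exact h3

private noncomputable def PlSp (y z : ℝ) (F : TP) : Polynomial ℝ :=
  MvPolynomial.aeval ![Polynomial.X, Polynomial.C y, Polynomial.C z] F

private theorem PlSp_eval (y z t : ℝ) (F : TP) : (PlSp y z F).eval t = val F t y z := by
  unfold PlSp val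
  induction F using MvPolynomial.induction_on with
  | C r => simp
  | add p q hp hq => rw [map_add, Polynomial.eval_add, hp, hq, map_add]
  | mul_X p i hp =>
    rw [map_mul, Polynomial.eval_mul, hp, map_mul]
    fin_cases i <;> simp

private theorem PlSp_der (y z : ℝ) (F : TP) :
    Polynomial.derivative (PlSp y z F) = PlSp y z (MvPolynomial.pderiv 0 F) := by
  unfold PlSp
  induction F using MvPolynomial.induction_on with
  | C r => simp
  | add p q hp hq => simp only [map_add, hp, hq]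
  | mul_X p i hp =>
    rw [map_mul, Polynomial.derivative_mul, hp, Derivation.leibniz, map_add, smul_eq_mul,
      smul_eq_mul, map_mul, map_mul]
    fin_cases i
    · simp
      ring
    · simp
      ring
    · simp
      ring

private theorem Pl_dR {n : ℕ} (R : TP) (z : ℝ) (X : Fin n → ℝ)
    (hp : ∀ t : ℝ, val R t 1 z = ∏ k, (t - X k)) (k : Fin n) :
    val (MvPolynomial.pderiv 0 R) (X k) 1 z = ∏ l ∈ Finset.univ.erase k, (X k - X l) := by
  have h1 : PlSp 1 z R = Lagrange.nodal Finset.univ X := by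
    refine Polynomial.funext fun t => ?_
    rw [PlSp_eval, Lagrange.eval_nodal]
    exact hp t
  rw [← PlSp_eval, ← PlSp_der, h1,
    Lagrange.eval_nodal_derivative_eval_node_eq (Finset.mem_univ k), Lagrange.eval_nodal]

theorem thm_Pl : St_Mon → St_Pl := by
  intro hMon n R a b s hn hg x hx G hG f g h hdvd
  obtain ⟨-, -, ⟨hmon, hdeg, -⟩, -, hev⟩ := hMon n R a b s hn hg
  obtain ⟨q, hq⟩ := hdvd
  refine ⟨(h %ₘ chc R).coeff (n - 1), fun y => ?_⟩
  have hyz : (0 : ℝ) ≤ 1 ∧ (0 : ℝ) ≤ y ^ 2 ∧ ((1 : ℝ) ≠ 0 ∨ y ^ 2 ≠ 0) :=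
    ⟨zero_le_one, sq_nonneg y, Or.inl one_ne_zero⟩
  set X : Fin n → ℝ := fun k => x k 1 (y ^ 2) with hX
  have hinj : Function.Injective X := (hx.mono 1 (y ^ 2) hyz.1 hyz.2.1 hyz.2.2).injective
  have hprod : ∀ t : ℝ, val R t 1 (y ^ 2) = ∏ k, (t - X k) :=
    hx.prod 1 (y ^ 2) hyz.1 hyz.2.1 hyz.2.2
  have hval : ∀ (F : TP) (t : ℝ), evc (chc F) (t : ℂ) (y : ℂ) = ((val F t 1 (y ^ 2) : ℝ) : ℂ) := by
    intro F t
    rw [hev]
    unfold val
    have h1 : (![(t : ℂ), 1, (y : ℂ) ^ 2] : Fin 3 → ℂ) =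
        fun i => ((![t, 1, y ^ 2] i : ℝ) : ℂ) := by
      funext i
      fin_cases i <;> simp
    rw [h1]
    have h2 := MvPolynomial.aeval_algebraMap_apply (R := ℝ) (A := ℝ) (B := ℂ) (![t, 1, y ^ 2]) F
    exact h2.trans (by rw [MvPolynomial.aeval_eq_eval]; rfl)
  have hF0 : ∀ k, evc (chc R) (X k : ℂ) (y : ℂ) = 0 := by
    intro k
    rw [hval, hprod, Finset.prod_eq_zero (Finset.mem_univ k) (sub_self _), Complex.ofReal_zero]
  have hh0 : ∀ k, evc h (X k : ℂ) (y : ℂ) = evc (h %ₘ chc R) (X k : ℂ) (y : ℂ) := by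
    intro k
    conv_lhs => rw [← Polynomial.modByMonic_add_div h (chc R)]
    rw [Pl_evc_add, Pl_evc_mul, hF0, zero_mul, add_zero]
  have hfg : ∀ k, evc f (X k : ℂ) (y : ℂ) * conj (evc g (X k : ℂ) (y : ℂ)) =
      ((val G (X k) 1 (y ^ 2) : ℝ) : ℂ) * evc (h %ₘ chc R) (X k : ℂ) (y : ℂ) := by
    intro k
    have h1 := congrArg (fun F => evc F (X k : ℂ) (y : ℂ)) hq
    simp only [Pl_evc_sub, Pl_evc_mul, Pl_evc_cj, hF0, hval, zero_mul] at h1
    rw [← hh0 k]
    exact sub_eq_zero.mp h1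
  -- the specialised polynomial
  set p : Polynomial ℂ := (h %ₘ chc R).map (Polynomial.evalRingHom (y : ℂ)) with hp
  have hpd : p.degree < (Finset.univ : Finset (Fin n)).card := by
    rw [Finset.card_univ, Fintype.card_fin]
    refine lt_of_le_of_lt Polynomial.degree_map_le ?_
    have h1 := Polynomial.degree_modByMonic_lt h hmon
    rwa [Polynomial.degree_eq_natDegree hmon.ne_zero, hdeg] at h1
  have hinj' : Set.InjOn (fun k : Fin n => (X k : ℂ)) ((Finset.univ : Finset (Fin n)) : Set (Fin n)) :=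
    fun k _ l _ hkl => hinj (Complex.ofReal_injective hkl)
  have hco := Lagrange.coeff_eq_sum hinj' hpd
  rw [Finset.card_univ, Fintype.card_fin, hp, Polynomial.coeff_map, Polynomial.coe_evalRingHom]
    at hco
  rw [hco]
  refine Finset.sum_congr rfl fun k _ => ?_
  have hG0 : ((val G (X k) 1 (y ^ 2) : ℝ) : ℂ) ≠ 0 := Complex.ofReal_ne_zero.mpr (hG y k)
  have hd := Pl_dR R (y ^ 2) X hprod k
  have hdc : ((val (MvPolynomial.pderiv 0 R) (X k) 1 (y ^ 2) : ℝ) : ℂ) =
      ∏ l ∈ Finset.univ.erase k, ((X k : ℂ) - (X l : ℂ)) := by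
    rw [hd]
    push_cast
    rfl
  have hgoal : evc f (X k : ℂ) (y : ℂ) * conj (evc g (X k : ℂ) (y : ℂ)) /
      ((val (MvPolynomial.pderiv 0 R) (X k) 1 (y ^ 2) * val G (X k) 1 (y ^ 2) : ℝ) : ℂ) =
      evc (h %ₘ chc R) (X k : ℂ) (y : ℂ) /
        ∏ l ∈ Finset.univ.erase k, ((X k : ℂ) - (X l : ℂ)) := by
    rw [hfg, Complex.ofReal_mul, hdc, mul_comm (((val G (X k) 1 (y ^ 2) : ℝ) : ℂ)),
      mul_div_mul_right _ _ hG0]
  exact hgoal

end Pool.Agent.RSV
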