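import Pool.Agent.RSV.StA

/-!
# RSV, part A: Polya's theorem in three variables
-/

set_option autoImplicit false

namespace Pool.Agent.RSV

open MvPolynomial
open Filter Topology

private theorem Pol_fac (μ : Fin 3 →₀ ℕ) (i : Fin 3) (h : μ i ≠ 0) :
    ∏ j, (μ j).factorial = μ i * ∏ j, ((μ - Finsupp.single i 1 : Fin 3 →₀ ℕ) j).factorial := by
  rw [← Finset.mul_prod_erase Finset.univ (fun j => (μ j).factorial) (Finset.mem_univ i),
    ← Finset.mul_prod_erase Finset.univ (fun j => ((μ - Finsupp.single i 1 : Fin 3 →₀ ℕ) j).factorial)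
      (Finset.mem_univ i)]
  have h1 : (μ - Finsupp.single i 1 : Fin 3 →₀ ℕ) i = μ i - 1 := by
    rw [Finsupp.tsub_apply, Finsupp.single_eq_same]
  rw [h1, ← mul_assoc, Nat.mul_factorial_pred h]
  congr 1
  refine Finset.prod_congr rfl fun j hj => ?_
  have h2 : (μ - Finsupp.single i 1 : Fin 3 →₀ ℕ) j = μ j := by
    rw [Finsupp.tsub_apply, Finsupp.single_eq_of_ne (Finset.ne_of_mem_erase hj), Nat.sub_zero]
  rw [h2]

private theorem Pol_sum (μ : Fin 3 →₀ ℕ) (i : Fin 3) (h : μ i ≠ 0) (N : ℕ)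
    (hμ : ∑ j, μ j = N + 1) : ∑ j, (μ - Finsupp.single i 1 : Fin 3 →₀ ℕ) j = N := by
  rw [← Finset.add_sum_erase Finset.univ (fun j => (μ j)) (Finset.mem_univ i)] at hμ
  rw [← Finset.add_sum_erase Finset.univ (fun j => ((μ - Finsupp.single i 1 : Fin 3 →₀ ℕ) j))
      (Finset.mem_univ i)]
  have h1 : (μ - Finsupp.single i 1 : Fin 3 →₀ ℕ) i = μ i - 1 := by
    rw [Finsupp.tsub_apply, Finsupp.single_eq_same]
  have h2 : ∑ j ∈ Finset.univ.erase i, (μ - Finsupp.single i 1 : Fin 3 →₀ ℕ) j =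
      ∑ j ∈ Finset.univ.erase i, μ j := by
    refine Finset.sum_congr rfl fun j hj => ?_
    rw [Finsupp.tsub_apply, Finsupp.single_eq_of_ne (Finset.ne_of_mem_erase hj), Nat.sub_zero]
  rw [h1, h2]
  omega

private theorem Pol_pow (N : ℕ) : ∀ μ : Fin 3 →₀ ℕ, ∑ i, μ i = N →
    ((∏ i, (μ i).factorial : ℕ) : ℝ) * coeff μ ((X 0 + X 1 + X 2 : TP) ^ N) =
      (N.factorial : ℝ) := by
  induction N with
  | zero =>
    intro μ hμ
    have h0 : μ = 0 := by
      ext i
      exact (Finset.sum_eq_zero_iff.1 hμ) i (Finset.mem_univ i)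
    subst h0
    simp
  | succ N ih =>
    intro μ hμ
    have step : ∀ i : Fin 3, ((∏ i, (μ i).factorial : ℕ) : ℝ) *
        coeff μ ((X 0 + X 1 + X 2 : TP) ^ N * X i) = (μ i : ℝ) * (N.factorial : ℝ) := by
      intro i
      rw [coeff_mul_X']
      by_cases h : μ i = 0
      · rw [if_neg (by simp [h]), mul_zero, h, Nat.cast_zero, zero_mul]
      · rw [if_pos (Finsupp.mem_support_iff.2 h), Pol_fac μ i h, Nat.cast_mul, mul_assoc,
          ih _ (Pol_sum μ i h N hμ)]
    rw [pow_succ, mul_add, mul_add, coeff_add, coeff_add, mul_add, mul_add, step, step, step,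
      Nat.factorial_succ, ← hμ, Fin.sum_univ_three]
    push_cast
    ring

private theorem Pol_desc (n k : ℕ) :
    (n.descFactorial k : ℝ) = ∏ j ∈ Finset.range k, ((n : ℝ) - j) := by
  induction k with
  | zero => simp
  | succ k ih =>
    rw [Finset.prod_range_succ, ← ih, Nat.descFactorial_succ]
    by_cases h : k ≤ n
    · rw [Nat.cast_mul, Nat.cast_sub h, mul_comm]
    · have h1 : n.descFactorial k = 0 := Nat.descFactorial_of_lt (not_le.1 h)
      rw [h1]
      simp

private theorem Pol_key (d : ℕ) (f : TP) (hf : f.IsHomogeneous d) (N : ℕ) (κ : Fin 3 →₀ ℕ)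
    (hκ : ∑ i, κ i = N + d) :
    ((∏ i, (κ i).factorial : ℕ) : ℝ) * coeff κ ((X 0 + X 1 + X 2) ^ N * f) =
      (N.factorial : ℝ) * ∑ γ ∈ f.support, coeff γ f *
        ∏ i, ((κ i).descFactorial (γ i) : ℝ) := by
  have h1 : (X 0 + X 1 + X 2 : TP) ^ N * f =
      ∑ γ ∈ f.support, (X 0 + X 1 + X 2 : TP) ^ N * monomial γ (coeff γ f) := by
    conv_lhs => rw [← MvPolynomial.support_sum_monomial_coeff f]
    rw [Finset.mul_sum]
  rw [h1, coeff_sum, Finset.mul_sum, Finset.mul_sum]
  refine Finset.sum_congr rfl fun γ hγ => ?_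
  have hd : ∑ i, γ i = d := by
    have h2 : γ.degree = d := by
      rw [Finsupp.degree_eq_weight_one]
      exact hf (mem_support_iff.1 hγ)
    rw [Finsupp.degree_eq_sum] at h2
    exact h2
  rw [coeff_mul_monomial']
  by_cases h : γ ≤ κ
  · rw [if_pos h]
    have h3 : ∑ i, (κ - γ : Fin 3 →₀ ℕ) i = N := by
      have h4 : ∑ i, (κ - γ : Fin 3 →₀ ℕ) i + ∑ i, γ i = ∑ i, κ i := by
        rw [← Finset.sum_add_distrib]
        refine Finset.sum_congr rfl fun i _ => ?_
        rw [Finsupp.tsub_apply]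
        exact Nat.sub_add_cancel (h i)
      omega
    have h5 := Pol_pow N (κ - γ) h3
    have h6 : ((∏ i, (κ i).factorial : ℕ) : ℝ) =
        ((∏ i, ((κ - γ) i).factorial : ℕ) : ℝ) * ∏ i, ((κ i).descFactorial (γ i) : ℝ) := by
      rw [Nat.cast_prod, Nat.cast_prod, ← Finset.prod_mul_distrib]
      refine Finset.prod_congr rfl fun i _ => ?_
      rw [Finsupp.tsub_apply, ← Nat.cast_mul, Nat.factorial_mul_descFactorial (h i)]
    rw [h6, ← h5]
    ring
  · rw [if_neg h, mul_zero]
    have h7 : ∃ i, κ i < γ i := by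
      by_contra hno
      push Not at hno
      exact h hno
    obtain ⟨i, hi⟩ := h7
    rw [Finset.prod_eq_zero (Finset.mem_univ i)
      (by rw [Nat.descFactorial_of_lt hi, Nat.cast_zero]), mul_zero, mul_zero]

/-- [Pol] Polya's theorem in three variables -/
theorem thm_Pol : St_Pol := by
  intro d f hf hpos
  have hc : Continuous (fun z : ℝ × (Fin 3 → ℝ) => ∑ γ ∈ f.support, coeff γ f *
      ∏ i, ∏ j ∈ Finset.range (γ i), (z.2 i - j * z.1)) := by
    refine continuous_finsetSum _ fun γ _ => continuous_const.mul ?_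
    refine continuous_finsetProd _ fun i _ => ?_
    refine continuous_finsetProd _ fun j _ => ?_
    exact ((continuous_apply i).comp continuous_snd).sub (continuous_const.mul continuous_fst)
  have h1 : ∀ᶠ t : ℝ in 𝓝 0, ∀ u ∈ stdSimplex ℝ (Fin 3), 0 < ∑ γ ∈ f.support, coeff γ f *
      ∏ i, ∏ j ∈ Finset.range (γ i), (u i - j * t) := by
    apply (isCompact_stdSimplex ℝ (Fin 3)).eventually_forall_of_forall_eventually
    intro u hu
    have h2 : 0 < ∑ γ ∈ f.support, coeff γ f *
        ∏ i, ∏ j ∈ Finset.range (γ i), (u i - j * (0 : ℝ)) := by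
      have h3 := hpos u hu.1 (by
        intro h0
        have := hu.2
        rw [h0] at this
        simp at this)
      rw [eval_eq'] at h3
      simpa only [mul_zero, sub_zero, Finset.prod_const, Finset.card_range] using h3
    exact hc.continuousAt.eventually (lt_mem_nhds h2)
  obtain ⟨ε, hε, hball⟩ := Metric.eventually_nhds_iff.1 h1
  obtain ⟨N₀, hN₀⟩ := exists_nat_gt (1 / ε)
  refine ⟨N₀ + 1, ?_⟩
  intro N hN κ hκ
  have hM : (0 : ℝ) < ((N + d : ℕ) : ℝ) := by
    have : 0 < N + d := by omega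
    exact_mod_cast this
  have hκ' : ∑ i, κ i = N + d := by rw [Fin.sum_univ_three]; exact hκ
  have key := Pol_key d f hf N κ hκ'
  set M : ℝ := ((N + d : ℕ) : ℝ) with hMdef
  have ht : dist (1 / M) 0 < ε := by
    rw [Real.dist_eq, sub_zero, abs_of_pos (by positivity), div_lt_iff₀ hM]
    rw [div_lt_iff₀ hε] at hN₀
    have h5 : (N₀ : ℝ) ≤ M := by
      rw [hMdef]
      have : N₀ ≤ N + d := by omega
      exact_mod_cast this
    nlinarith
  have hu : (fun i => (κ i : ℝ) / M) ∈ stdSimplex ℝ (Fin 3) := by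
    refine ⟨fun i => by positivity, ?_⟩
    rw [← Finset.sum_div, ← Nat.cast_sum, hκ']
    exact div_self hM.ne'
  have hp := hball ht _ hu
  have hsum : ∑ γ ∈ f.support, coeff γ f * ∏ i, ((κ i).descFactorial (γ i) : ℝ) =
      M ^ d * ∑ γ ∈ f.support, coeff γ f *
        ∏ i, ∏ j ∈ Finset.range (γ i), ((κ i : ℝ) / M - j * (1 / M)) := by
    rw [Finset.mul_sum]
    refine Finset.sum_congr rfl fun γ hγ => ?_
    have hd : ∑ i, γ i = d := by
      have h2 : γ.degree = d := by
        rw [Finsupp.degree_eq_weight_one]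
        exact hf (mem_support_iff.1 hγ)
      rw [Finsupp.degree_eq_sum] at h2
      exact h2
    have h6 : ∀ i, ((κ i).descFactorial (γ i) : ℝ) =
        M ^ (γ i) * ∏ j ∈ Finset.range (γ i), ((κ i : ℝ) / M - j * (1 / M)) := by
      intro i
      rw [Pol_desc]
      have h7 : M ^ (γ i) = ∏ j ∈ Finset.range (γ i), M := by
        rw [Finset.prod_const, Finset.card_range]
      rw [h7, ← Finset.prod_mul_distrib]
      refine Finset.prod_congr rfl fun j _ => ?_
      field_simp
    rw [Finset.prod_congr rfl fun i _ => h6 i, Finset.prod_mul_distrib,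
      Finset.prod_pow_eq_pow_sum, hd]
    ring
  rw [hsum] at key
  have hfac : (0 : ℝ) < ((∏ i, (κ i).factorial : ℕ) : ℝ) := by
    have : 0 < ∏ i, (κ i).factorial := Finset.prod_pos fun i _ => Nat.factorial_pos _
    exact_mod_cast this
  have hNf : (0 : ℝ) < (N.factorial : ℝ) := by exact_mod_cast Nat.factorial_pos N
  have hfin : 0 < ((∏ i, (κ i).factorial : ℕ) : ℝ) * coeff κ ((X 0 + X 1 + X 2) ^ N * f) := by
    rw [key]
    exact mul_pos hNf (mul_pos (by positivity) hp)
  exact (mul_pos_iff_of_pos_left hfac).1 hfin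

end Pool.Agent.RSV
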