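import Pool.Agent.RSV.StN

/-!
# RSV module RR: the real form of a segment of Hermitian pairs
-/

set_option autoImplicit false

namespace Pool.Agent.RSV

open Module Matrix
open scoped ComplexConjugate

/-- polynomials in `u, x, y` over `ℂ[t]` -/
private abbrev RR_W := MvPolynomial (Fin 3) (Polynomial ℂ)

/-- scaling of the variables -/
private theorem RR_coeff (c : Fin 3 → Polynomial ℂ) (F : RR_W) (κ : Fin 3 →₀ ℕ) :
    MvPolynomial.coeff κ (MvPolynomial.aeval (fun i => (MvPolynomial.C (c i) *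
      MvPolynomial.X i : RR_W)) F) = (∏ i, c i ^ κ i) * MvPolynomial.coeff κ F := by
  induction F using MvPolynomial.induction_on' with
  | monomial m a =>
    have e : MvPolynomial.aeval (fun i => (MvPolynomial.C (c i) * MvPolynomial.X i : RR_W))
        (MvPolynomial.monomial m a) = MvPolynomial.monomial m (a * ∏ i, c i ^ m i) := by
      rw [MvPolynomial.aeval_monomial, MvPolynomial.monomial_eq,
        Finsupp.prod_fintype _ _ (by simp), Finsupp.prod_fintype _ _ (by simp)]
      simp only [mul_pow, Finset.prod_mul_distrib, map_mul, map_prod, map_pow]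
      show MvPolynomial.C a * _ = _
      ring
    rw [e, MvPolynomial.coeff_monomial, MvPolynomial.coeff_monomial]
    split_ifs with h
    · subst h; ring
    · simp
  | add p q hp hq =>
    rw [map_add, MvPolynomial.coeff_add, MvPolynomial.coeff_add, hp, hq]
    ring

/-- the matrix `x A + s y B` -/
private noncomputable def RR_M {n : ℕ} (A B : Matrix (Fin n) (Fin n) (Polynomial ℂ))
    (s : Polynomial ℂ) : Matrix (Fin n) (Fin n) RR_W :=
  (MvPolynomial.X 1 : RR_W) • A.map MvPolynomial.C +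
    (MvPolynomial.C s * MvPolynomial.X 2 : RR_W) • B.map MvPolynomial.C

private noncomputable def RR_Q {n : ℕ} (A B : Matrix (Fin n) (Fin n) (Polynomial ℂ)) : RR_W :=
  (Matrix.scalar (Fin n) (MvPolynomial.X 0 : RR_W) -
    RR_M A B (-Polynomial.C Complex.I) * RR_M A B (Polynomial.C Complex.I)).det

private theorem RR_wh {n : ℕ} (A B : Matrix (Fin n) (Fin n) (Polynomial ℂ)) :
    MvPolynomial.IsWeightedHomogeneous (![2, 1, 1] : Fin 3 → ℕ) (RR_Q A B) (2 * n) := by
  have hM : ∀ s i j, MvPolynomial.IsWeightedHomogeneous (![2, 1, 1] : Fin 3 → ℕ)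
      (RR_M A B s i j) 1 := by
    intro s i j
    unfold RR_M
    rw [Matrix.add_apply, Matrix.smul_apply, Matrix.smul_apply, Matrix.map_apply,
      Matrix.map_apply, smul_eq_mul, smul_eq_mul]
    have h1 : MvPolynomial.IsWeightedHomogeneous (![2, 1, 1] : Fin 3 → ℕ)
        (MvPolynomial.X 1 : RR_W) 1 :=
      MvPolynomial.isWeightedHomogeneous_X _ _ _
    have h2 : MvPolynomial.IsWeightedHomogeneous (![2, 1, 1] : Fin 3 → ℕ)
        (MvPolynomial.X 2 : RR_W) 1 :=
      MvPolynomial.isWeightedHomogeneous_X _ _ _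
    have h3 := h1.C_mul (A i j)
    have h4 := (h2.C_mul s).C_mul (B i j)
    rw [mul_comm] at h3 h4
    exact h3.add h4
  have hX : MvPolynomial.IsWeightedHomogeneous (![2, 1, 1] : Fin 3 → ℕ)
      (MvPolynomial.X 0 : RR_W) 2 := MvPolynomial.isWeightedHomogeneous_X _ _ _
  have hE : ∀ i j, MvPolynomial.IsWeightedHomogeneous (![2, 1, 1] : Fin 3 → ℕ)
      ((Matrix.scalar (Fin n) (MvPolynomial.X 0 : RR_W) -
    RR_M A B (-Polynomial.C Complex.I) * RR_M A B (Polynomial.C Complex.I)) i j) 2 := by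
    intro i j
    rw [Matrix.sub_apply]
    refine MvPolynomial.IsWeightedHomogeneous.sub ?_ ?_
    · rw [Matrix.scalar_apply, Matrix.diagonal_apply]
      split_ifs
      · exact hX
      · exact MvPolynomial.isWeightedHomogeneous_zero _ _ _
    · rw [Matrix.mul_apply]
      exact MvPolynomial.IsWeightedHomogeneous.sum _ _ _ (fun k _ => (hM _ _ _).mul (hM _ _ _))
  unfold RR_Q
  rw [Matrix.det_apply]
  refine MvPolynomial.IsWeightedHomogeneous.sum _ _ _ (fun σ _ => ?_)
  have h1 := MvPolynomial.IsWeightedHomogeneous.prod (Finset.univ : Finset (Fin n))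
    (fun i => (Matrix.scalar (Fin n) (MvPolynomial.X 0 : RR_W) -
      RR_M A B (-Polynomial.C Complex.I) * RR_M A B (Polynomial.C Complex.I)) (σ i) i)
    (fun _ => 2) (fun i _ => hE _ _)
  have h2 : ∑ _i : Fin n, 2 = 2 * n := by simp [mul_comm]
  rw [h2] at h1
  rcases Int.units_eq_one_or (Equiv.Perm.sign σ) with h | h
  · rw [h, one_smul]; exact h1
  · rw [h, Units.neg_smul, one_smul]; exact h1.neg

private theorem RR_comm {n : ℕ} (S T : Matrix (Fin n) (Fin n) RR_W) (u : RR_W) :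
    (Matrix.scalar (Fin n) u - S * T).det = (Matrix.scalar (Fin n) u - T * S).det := by
  rw [← Matrix.eval_charpoly, ← Matrix.eval_charpoly, Matrix.charpoly_mul_comm]

private theorem RR_even {n : ℕ} (A B : Matrix (Fin n) (Fin n) (Polynomial ℂ))
    (κ : Fin 3 →₀ ℕ) (h : MvPolynomial.coeff κ (RR_Q A B) ≠ 0) : Even (κ 1) ∧ Even (κ 2) := by
  have key : ∀ (c : Fin 3 → Polynomial ℂ), (c = ![1, 1, -1] ∨ c = ![1, -1, 1]) →
      MvPolynomial.aeval (fun i => (MvPolynomial.C (c i) * MvPolynomial.X i : RR_W)) (RR_Q A B) =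
        RR_Q A B := by
    intro c hc
    obtain ⟨σ, hσ⟩ : ∃ σ : RR_W →ₐ[Polynomial ℂ] RR_W, σ = MvPolynomial.aeval
      (fun i => (MvPolynomial.C (c i) * MvPolynomial.X i : RR_W)) := ⟨_, rfl⟩
    rw [← hσ]
    have hσX : ∀ i, σ (MvPolynomial.X i) = MvPolynomial.C (c i) * MvPolynomial.X i := by
      intro i
      rw [hσ, MvPolynomial.aeval_X]
    have hσC : ∀ a, σ (MvPolynomial.C a) = MvPolynomial.C a := by
      intro a
      exact σ.commutes a
    have hprod : (RR_M A B (-Polynomial.C Complex.I) * RR_M A B (Polynomial.C Complex.I)).map σ =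
        RR_M A B (Polynomial.C Complex.I) * RR_M A B (-Polynomial.C Complex.I) := by
      rw [Matrix.map_mul]
      rcases hc with hc | hc
      · have hM : ∀ s, (RR_M A B s).map σ = RR_M A B (-s) := by
          intro s
          ext1 i j
          unfold RR_M
          simp only [Matrix.map_apply, Matrix.add_apply, Matrix.smul_apply, smul_eq_mul, map_add,
            map_mul, hσX, hσC, map_neg]
          rw [hc]
          simp only [Matrix.cons_val_one, Matrix.cons_val, map_one, map_neg]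
          ring
        rw [hM, hM, neg_neg]
      · have hM : ∀ s, (RR_M A B s).map σ = -RR_M A B (-s) := by
          intro s
          ext1 i j
          unfold RR_M
          simp only [Matrix.map_apply, Matrix.add_apply, Matrix.smul_apply, smul_eq_mul, map_add,
            map_mul, hσX, hσC, map_neg, Matrix.neg_apply]
          rw [hc]
          simp only [Matrix.cons_val_one, Matrix.cons_val, map_one, map_neg]
          ring
        rw [hM, hM, neg_neg, Matrix.neg_mul, Matrix.mul_neg, neg_neg]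
    unfold RR_Q
    rw [AlgHom.map_det, AlgHom.mapMatrix_apply, Matrix.map_sub _ (map_sub σ), hprod,
      RR_comm (RR_M A B (-Polynomial.C Complex.I))]
    congr 2
    ext1 i j
    rw [Matrix.map_apply, Matrix.scalar_apply, Matrix.diagonal_apply]
    split_ifs
    · rw [hσX]
      rcases hc with hc | hc <;> rw [hc] <;> simp
    · exact map_zero σ
  have h1 := congrArg (MvPolynomial.coeff κ) (key ![1, -1, 1] (Or.inr rfl))
  have h2 := congrArg (MvPolynomial.coeff κ) (key ![1, 1, -1] (Or.inl rfl))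
  rw [RR_coeff, Fin.prod_univ_three] at h1 h2
  simp only [Matrix.cons_val_zero, Matrix.cons_val_one, Matrix.cons_val, one_pow, one_mul,
    mul_one] at h1 h2
  have h3 : ∀ k : ℕ, (-1 : Polynomial ℂ) ^ k * MvPolynomial.coeff κ (RR_Q A B) =
      MvPolynomial.coeff κ (RR_Q A B) → Even k := by
    intro k hk
    by_contra hodd
    rw [Nat.not_even_iff_odd] at hodd
    rw [hodd.neg_one_pow] at hk
    apply h
    have h4 : (2 : Polynomial ℂ) * MvPolynomial.coeff κ (RR_Q A B) = 0 := by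
      linear_combination -hk
    rcases mul_eq_zero.mp h4 with h5 | h5
    · exact absurd h5 two_ne_zero
    · exact h5
  exact ⟨h3 _ h1, h3 _ h2⟩

private theorem RR_real {n : ℕ} (A B : Matrix (Fin n) (Fin n) (Polynomial ℂ))
    (hA : A.map (Polynomial.mapRingHom (starRingEnd ℂ)) = Aᵀ)
    (hB : B.map (Polynomial.mapRingHom (starRingEnd ℂ)) = Bᵀ) (κ : Fin 3 →₀ ℕ) :
    ∃ q : Polynomial ℝ, q.map (algebraMap ℝ ℂ) = MvPolynomial.coeff κ (RR_Q A B) := by
  obtain ⟨σ, hσ⟩ : ∃ σ : RR_W →+* RR_W,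
    σ = MvPolynomial.map (Polynomial.mapRingHom (starRingEnd ℂ)) := ⟨_, rfl⟩
  have hσX : ∀ i, σ (MvPolynomial.X i) = MvPolynomial.X i := by
    intro i
    rw [hσ, MvPolynomial.map_X]
  have hσC : ∀ a, σ (MvPolynomial.C a) =
      MvPolynomial.C (Polynomial.mapRingHom (starRingEnd ℂ) a) := by
    intro a
    rw [hσ, MvPolynomial.map_C]
  have hM : ∀ s, (RR_M A B s).map σ =
      (RR_M A B (Polynomial.mapRingHom (starRingEnd ℂ) s))ᵀ := by
    intro s
    ext1 i j
    have h1 := congrFun (congrFun hA i) j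
    have h2 := congrFun (congrFun hB i) j
    rw [Matrix.map_apply, Matrix.transpose_apply] at h1 h2
    unfold RR_M
    simp only [Matrix.map_apply, Matrix.add_apply, Matrix.smul_apply, smul_eq_mul, map_add,
      map_mul, hσX, hσC, Matrix.transpose_apply, h1, h2]
  have hI1 : Polynomial.mapRingHom (starRingEnd ℂ) (Polynomial.C Complex.I) =
      -Polynomial.C Complex.I := by
    rw [Polynomial.coe_mapRingHom, Polynomial.map_C, Complex.conj_I, Polynomial.C_neg]
  have hI2 : Polynomial.mapRingHom (starRingEnd ℂ) (-Polynomial.C Complex.I) =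
      Polynomial.C Complex.I := by
    rw [map_neg, hI1, neg_neg]
  have hQ : σ (RR_Q A B) = RR_Q A B := by
    unfold RR_Q
    rw [RingHom.map_det, RingHom.mapMatrix_apply, Matrix.map_sub _ (map_sub σ), Matrix.map_mul,
      hM, hM, hI1, hI2, ← Matrix.transpose_mul]
    conv_rhs => rw [← Matrix.det_transpose, Matrix.transpose_sub]
    congr 2
    ext1 i j
    rw [Matrix.map_apply, Matrix.transpose_apply, Matrix.scalar_apply, Matrix.diagonal_apply,
      Matrix.diagonal_apply]
    by_cases hij : i = j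
    · subst hij
      rw [if_pos rfl, hσX]
    · rw [if_neg hij, if_neg (Ne.symm hij), map_zero]
  have h1 := congrArg (MvPolynomial.coeff κ) hQ
  rw [hσ, MvPolynomial.coeff_map] at h1
  have h2 : MvPolynomial.coeff κ (RR_Q A B) ∈ Polynomial.lifts (algebraMap ℝ ℂ) := by
    rw [Polynomial.lifts_iff_coeff_lifts]
    intro k
    have h3 := congrArg (fun p => Polynomial.coeff p k) h1
    simp only [Polynomial.coe_mapRingHom, Polynomial.coeff_map] at h3
    obtain ⟨r, hr⟩ := Complex.conj_eq_iff_real.mp h3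
    exact ⟨r, hr.symm⟩
  exact (Polynomial.mem_lifts _).mp h2

/-- the entries of the segment -/
private noncomputable def RR_seg {n : ℕ} (A₀ A₁ : Matrix (Fin n) (Fin n) ℂ) :
    Matrix (Fin n) (Fin n) (Polynomial ℂ) :=
  Matrix.of fun i j => (1 - Polynomial.X) * Polynomial.C (A₀ i j) +
    Polynomial.X * Polynomial.C (A₁ i j)

private theorem RR_segc {n : ℕ} {A₀ A₁ : Matrix (Fin n) (Fin n) ℂ} (h₀ : A₀.IsHermitian)
    (h₁ : A₁.IsHermitian) :
    (RR_seg A₀ A₁).map (Polynomial.mapRingHom (starRingEnd ℂ)) = (RR_seg A₀ A₁)ᵀ := by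
  ext1 i j
  rw [Matrix.map_apply, Matrix.transpose_apply]
  unfold RR_seg
  rw [Matrix.of_apply, Matrix.of_apply, ← h₀.apply i j, ← h₁.apply i j]
  simp

private theorem RR_segt {n : ℕ} (A₀ A₁ : Matrix (Fin n) (Fin n) ℂ) (t : ℝ) (i j : Fin n) :
    Polynomial.eval (t : ℂ) (RR_seg A₀ A₁ i j) =
      (((1 - t : ℝ) : ℂ) • A₀ + ((t : ℝ) : ℂ) • A₁) i j := by
  unfold RR_seg
  rw [Matrix.of_apply]
  simp
  ring

private theorem RR_ev {n : ℕ} (A B : Matrix (Fin n) (Fin n) (Polynomial ℂ))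
    (A' B' : Matrix (Fin n) (Fin n) ℂ) (t u x y : ℂ)
    (hA : ∀ i j, Polynomial.eval t (A i j) = A' i j)
    (hB : ∀ i j, Polynomial.eval t (B i j) = B' i j) :
    MvPolynomial.eval₂Hom (Polynomial.evalRingHom t) ![u, x, y] (RR_Q A B) =
      (u • (1 : Matrix (Fin n) (Fin n) ℂ) -
        (x • A' - (Complex.I * y) • B') * (x • A' + (Complex.I * y) • B')).det := by
  obtain ⟨σ, hσ⟩ : ∃ σ : RR_W →+* ℂ,
    σ = MvPolynomial.eval₂Hom (Polynomial.evalRingHom t) ![u, x, y] := ⟨_, rfl⟩
  rw [← hσ]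
  have hσX : ∀ i, σ (MvPolynomial.X i) = (![u, x, y] : Fin 3 → ℂ) i := by
    intro i
    rw [hσ, MvPolynomial.eval₂Hom_X']
  have hσC : ∀ a, σ (MvPolynomial.C a) = Polynomial.eval t a := by
    intro a
    rw [hσ, MvPolynomial.eval₂Hom_C]
    rfl
  have hM : ∀ s, (RR_M A B s).map σ = x • A' + (Polynomial.eval t s * y) • B' := by
    intro s
    ext1 i j
    unfold RR_M
    simp only [Matrix.map_apply, Matrix.add_apply, Matrix.smul_apply, smul_eq_mul, map_add,
      map_mul, hσX, hσC, hA, hB, Matrix.cons_val_one, Matrix.cons_val]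
  unfold RR_Q
  rw [RingHom.map_det, RingHom.mapMatrix_apply, Matrix.map_sub _ (map_sub σ), Matrix.map_mul,
    hM, hM, Polynomial.eval_neg, Polynomial.eval_C]
  congr 2
  · ext1 i j
    rw [Matrix.map_apply, Matrix.scalar_apply, Matrix.diagonal_apply, Matrix.smul_apply,
      Matrix.one_apply, smul_eq_mul]
    split_ifs
    · rw [hσX, mul_one]
      rfl
    · rw [map_zero, mul_zero]
  · congr 1
    rw [sub_eq_add_neg, neg_mul, neg_smul]

/-- halving the exponents of `x` and `y` -/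
private noncomputable def RR_half (κ : Fin 3 →₀ ℕ) : Fin 3 →₀ ℕ :=
  Finsupp.equivFunOnFinite.symm ![κ 0, κ 1 / 2, κ 2 / 2]

theorem thm_RR : St_RR := by
  intro n A₀ B₀ A₁ B₁ hA₀ hB₀ hA₁ hB₁
  obtain ⟨Q, hQ⟩ : ∃ Q, Q = RR_Q (RR_seg A₀ A₁) (RR_seg B₀ B₁) := ⟨_, rfl⟩
  have hq := RR_real (RR_seg A₀ A₁) (RR_seg B₀ B₁) (RR_segc hA₀ hA₁) (RR_segc hB₀ hB₁)
  have hev : ∀ κ ∈ Q.support, Even (κ 1) ∧ Even (κ 2) := by
    intro κ hκ
    rw [hQ] at hκ
    exact RR_even _ _ κ (MvPolynomial.mem_support_iff.mp hκ)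
  have hwt : ∀ κ ∈ Q.support, 2 * κ 0 + κ 1 + κ 2 = 2 * n := by
    intro κ hκ
    rw [hQ] at hκ
    have h := RR_wh (RR_seg A₀ A₁) (RR_seg B₀ B₁) (MvPolynomial.mem_support_iff.mp hκ)
    rw [← h, Finsupp.weight_apply, Finsupp.sum_fintype _ _ (by simp), Fin.sum_univ_three]
    simp
    ring
  rw [← hQ] at hq
  choose q hq using hq
  refine ⟨∑ κ ∈ Q.support, MvPolynomial.monomial (RR_half κ) (q κ), ?_, ?_⟩
  · refine MvPolynomial.IsHomogeneous.sum _ _ _ (fun κ hκ => ?_)
    refine MvPolynomial.isHomogeneous_monomial _ ?_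
    obtain ⟨⟨k, hk⟩, ⟨l, hl⟩⟩ := hev κ hκ
    have h1 := hwt κ hκ
    rw [Finsupp.degree_eq_sum, Fin.sum_univ_three]
    show κ 0 + κ 1 / 2 + κ 2 / 2 = n
    omega
  · intro t u x y
    rw [← RR_ev (RR_seg A₀ A₁) (RR_seg B₀ B₁) _ _ (t : ℂ) u x y (RR_segt A₀ A₁ t)
      (RR_segt B₀ B₁ t), ← hQ, map_sum, map_sum]
    show _ = MvPolynomial.eval₂ (Polynomial.evalRingHom (t : ℂ)) ![u, x, y] Q
    rw [MvPolynomial.eval₂_eq']
    refine Finset.sum_congr rfl (fun κ hκ => ?_)
    rw [MvPolynomial.map_monomial, MvPolynomial.aeval_monomial, Finsupp.prod_fintype _ _ (by simp),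
      Fin.prod_univ_three, Fin.prod_univ_three]
    obtain ⟨⟨k, hk⟩, ⟨l, hl⟩⟩ := hev κ hκ
    have h1 : algebraMap ℝ ℂ (Polynomial.evalRingHom t (q κ)) =
        Polynomial.evalRingHom (t : ℂ) (MvPolynomial.coeff κ Q) := by
      rw [← hq κ, Polynomial.coe_evalRingHom, Polynomial.coe_evalRingHom, Polynomial.eval_map]
      exact (Polynomial.eval₂_at_apply (algebraMap ℝ ℂ) t).symm
    rw [h1]
    congr 1
    show u ^ κ 0 * (x ^ 2) ^ (κ 1 / 2) * (y ^ 2) ^ (κ 2 / 2) = u ^ κ 0 * x ^ κ 1 * y ^ κ 2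
    rw [← pow_mul, ← pow_mul]
    congr 3
    · omega
    · omega

end Pool.Agent.RSV
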