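import Pool.Agent.RSV.StD

set_option autoImplicit false

namespace Pool.Agent.RSV

open MvPolynomial Filter Topology

/-- `R (·, y, z)` as a polynomial -/
private noncomputable def Rt_P (R : TP) (y z : ℝ) : Polynomial ℝ :=
  ∑ d ∈ R.support, Polynomial.C (R.coeff d * (y ^ d 1 * z ^ d 2)) * Polynomial.X ^ d 0

private lemma Rt_eval (R : TP) (y z t : ℝ) : (Rt_P R y z).eval t = val R t y z := by
  unfold Rt_P val
  rw [eval_eq', Polynomial.eval_finsetSum]
  refine Finset.sum_congr rfl fun d _ => ?_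
  rw [Fin.prod_univ_three, Polynomial.eval_mul, Polynomial.eval_C, Polynomial.eval_pow,
    Polynomial.eval_X]
  simp only [Matrix.cons_val_zero, Matrix.cons_val_one, Matrix.cons_val]
  ring

private lemma Rt_deg {n : ℕ} {R : TP} (hR : R.IsHomogeneous n) {d : Fin 3 →₀ ℕ}
    (hd : d ∈ R.support) : d 0 + d 1 + d 2 = n := by
  have h := hR (mem_support_iff.1 hd)
  have h2 : Finsupp.degree d = n := by
    rw [← h, Finsupp.degree_eq_weight_one]
    rfl
  rw [Finsupp.degree_eq_sum, Fin.sum_univ_three] at h2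
  exact h2

private lemma Rt_coeff {n : ℕ} {R : TP} (hR : R.IsHomogeneous n) (y z : ℝ) :
    (∀ j, n < j → (Rt_P R y z).coeff j = 0) ∧
      (Rt_P R y z).coeff n = ∑ d ∈ R.support, if n = d 0 then R.coeff d else 0 := by
  constructor
  · intro j hj
    unfold Rt_P
    rw [Polynomial.finsetSum_coeff]
    refine Finset.sum_eq_zero fun d hd => ?_
    rw [Polynomial.coeff_C_mul_X_pow, if_neg]
    have := Rt_deg hR hd
    omega
  · unfold Rt_P
    rw [Polynomial.finsetSum_coeff]
    refine Finset.sum_congr rfl fun d hd => ?_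
    rw [Polynomial.coeff_C_mul_X_pow]
    by_cases h : n = d 0
    · rw [if_pos h, if_pos h]
      have h1 := Rt_deg hR hd
      have h2 : d 1 = 0 := by omega
      have h3 : d 2 = 0 := by omega
      rw [h2, h3]
      ring
    · rw [if_neg h, if_neg h]

private lemma Rt_prod {n : ℕ} {R : TP} {a b s : Fin n → ℝ} (hG : Good R a b s) (y z : ℝ)
    (f : Fin n → ℝ) (hf : Function.Injective f) (h0 : ∀ k, val R (f k) y z = 0) (t : ℝ) :
    val R t y z = ∏ k, (t - f k) := by
  have hmon : ∀ g : Fin n → ℝ, (∏ k, (Polynomial.X - Polynomial.C (g k))).Monic :=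
    fun g => Polynomial.monic_prod_of_monic _ _ fun k _ => Polynomial.monic_X_sub_C _
  have hnat : ∀ g : Fin n → ℝ, (∏ k, (Polynomial.X - Polynomial.C (g k))).natDegree = n := by
    intro g
    rw [Polynomial.natDegree_prod_of_monic _ _ fun k _ => Polynomial.monic_X_sub_C _]
    simp
  have hev : ∀ (g : Fin n → ℝ) (t : ℝ),
      (∏ k, (Polynomial.X - Polynomial.C (g k))).eval t = ∏ k, (t - g k) := by
    intro g t
    rw [Polynomial.eval_prod]
    refine Finset.prod_congr rfl fun k _ => ?_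
    simp
  have h1 : Rt_P R 1 0 = ∏ k, (Polynomial.X - Polynomial.C (a k ^ 2)) := by
    refine Polynomial.funext fun t => ?_
    rw [Rt_eval, hG.ra, hev]
  have h2 : (Rt_P R 1 0).coeff n = 1 := by
    rw [h1]
    have h := hmon fun k => a k ^ 2
    have h' := hnat fun k => a k ^ 2
    have h3 := h.coeff_natDegree
    rw [h'] at h3
    exact h3
  have h3 : (Rt_P R y z).coeff n = 1 := by
    rw [(Rt_coeff hG.hom y z).2, ← (Rt_coeff hG.hom 1 0).2, h2]
  have h4 : Rt_P R y z = ∏ k, (Polynomial.X - Polynomial.C (f k)) := by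
    refine Polynomial.eq_of_degree_sub_lt_of_eval_index_eq (s := Finset.univ) (v := f)
      hf.injOn ?_ ?_
    · rw [Finset.card_univ, Fintype.card_fin, Polynomial.degree_lt_iff_coeff_zero]
      intro j hj
      rw [Polynomial.coeff_sub]
      rcases hj.eq_or_lt with h | h
      · subst h
        have h5 := (hmon f).coeff_natDegree
        rw [hnat f] at h5
        rw [h3, h5, sub_self]
      · rw [(Rt_coeff hG.hom y z).1 j h, Polynomial.coeff_eq_zero_of_natDegree_lt
          (by rw [hnat f]; exact h), sub_self]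
    · intro k _
      rw [Rt_eval, h0, hev]
      exact (Finset.prod_eq_zero (Finset.mem_univ k) (sub_self _)).symm
  rw [← Rt_eval, h4, hev]

private lemma Rt_ex {n : ℕ} {R : TP} {a b s : Fin n → ℝ} (hG : Good R a b s) (y z : ℝ)
    (hy : 0 ≤ y) (hz : 0 ≤ z) (hyz : y ≠ 0 ∨ z ≠ 0) :
    ∃ g : Fin n → ℝ, StrictMono g ∧ (∀ k, 0 < g k) ∧ ∀ t, val R t y z = ∏ k, (t - g k) := by
  obtain ⟨f, hf, hf0⟩ := hG.hyp y z hy hz hyz
  refine ⟨f ∘ Tuple.sort f, (Tuple.monotone_sort f).strictMono_of_injective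
    (hf.comp (Tuple.sort f).injective), fun k => (hf0 _).1, fun t => ?_⟩
  rw [Rt_prod hG y z f hf (fun k => (hf0 k).2) t]
  exact (Equiv.prod_comp (Tuple.sort f) fun k => t - f k).symm

private lemma Rt_uni {n : ℕ} {g g' : Fin n → ℝ} (hg : StrictMono g) (hg' : StrictMono g')
    (h : ∀ t : ℝ, ∏ k, (t - g k) = 0 → ∏ k, (t - g' k) = 0) : g = g' := by
  have h1 : ∀ k, ∃ j, g' j = g k := by
    intro k
    have h2 := h (g k) (Finset.prod_eq_zero (Finset.mem_univ k) (sub_self _))
    obtain ⟨j, -, hj⟩ := Finset.prod_eq_zero_iff.1 h2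
    exact ⟨j, (sub_eq_zero.1 hj).symm⟩
  choose φ hφ using h1
  have hinj : Function.Injective φ := by
    intro k l hkl
    apply hg.injective
    rw [← hφ k, ← hφ l, hkl]
  have hsurj : Function.Surjective φ := Finite.surjective_of_injective hinj
  refine (hg.range_inj hg').1 (Set.ext fun t => ?_)
  constructor
  · rintro ⟨k, rfl⟩
    exact ⟨φ k, hφ k⟩
  · rintro ⟨j, rfl⟩
    obtain ⟨k, rfl⟩ := hsurj j
    exact ⟨k, (hφ k).symm⟩

private lemma Rt_hom {n : ℕ} {R : TP} (hR : R.IsHomogeneous n) (c t y z : ℝ) :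
    val R (c * t) (c * y) (c * z) = c ^ n * val R t y z := by
  unfold val
  rw [eval_eq', eval_eq', Finset.mul_sum]
  refine Finset.sum_congr rfl fun d hd => ?_
  have h := Rt_deg hR hd
  rw [Fin.prod_univ_three, Fin.prod_univ_three, ← h]
  simp only [Matrix.cons_val_zero, Matrix.cons_val_one, Matrix.cons_val]
  ring

private lemma Rt_cont1 (R : TP) (y z : ℝ) : Continuous fun t : ℝ => val R t y z := by
  have h : (fun t : ℝ => val R t y z) = fun t => (Rt_P R y z).eval t := by
    funext t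
    rw [Rt_eval]
  rw [h]
  exact (Rt_P R y z).continuous

private lemma Rt_cont2 (R : TP) (t : ℝ) : Continuous fun p : ℝ × ℝ => val R t p.1 p.2 := by
  unfold val
  simp_rw [eval_eq']
  refine continuous_finsetSum _ fun d _ => ?_
  simp_rw [Fin.prod_univ_three]
  simp only [Matrix.cons_val_zero, Matrix.cons_val_one, Matrix.cons_val]
  fun_prop

private lemma Rt_sep {n : ℕ} {g : Fin n → ℝ} (hg : StrictMono g) :
    ∀ᶠ δ in 𝓝[>] (0 : ℝ), ∀ k l, k < l → 2 * δ < g l - g k := by
  rw [eventually_all]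
  intro k
  rw [eventually_all]
  intro l
  by_cases hkl : k < l
  · have h1 : 0 < (g l - g k) / 2 := by
      have := hg hkl
      linarith
    have h2 : ∀ᶠ δ in 𝓝[>] (0 : ℝ), δ < (g l - g k) / 2 :=
      (eventually_lt_nhds h1).filter_mono nhdsWithin_le_nhds
    filter_upwards [h2] with δ hδ _
    linarith
  · exact Eventually.of_forall fun _ h => absurd h hkl

theorem thm_Rt : St_Rt := by
  intro n R a b s _ hG
  classical
  choose! X hX1 hX2 hX3 using fun (y z : ℝ) (hy : 0 ≤ y) (hz : 0 ≤ z) (hyz : y ≠ 0 ∨ z ≠ 0) =>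
    Rt_ex hG y z hy hz hyz
  refine ⟨fun k y z => X y z k, ?_, ?_, ?_, ?_, ?_⟩
  · intro y z hy hz hyz
    exact hX1 y z hy hz hyz
  · intro y z hy hz hyz k
    exact hX2 y z hy hz hyz k
  · intro y z hy hz hyz t
    exact hX3 y z hy hz hyz t
  · intro y z c hy hz hyz hc k
    have hcyz : c * y ≠ 0 ∨ c * z ≠ 0 := by
      rcases hyz with h | h
      · exact Or.inl (mul_ne_zero hc.ne' h)
      · exact Or.inr (mul_ne_zero hc.ne' h)
    have hcy : 0 ≤ c * y := mul_nonneg hc.le hy
    have hcz : 0 ≤ c * z := mul_nonneg hc.le hz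
    have hm : StrictMono fun k => c * X y z k := fun i j hij =>
      mul_lt_mul_of_pos_left (hX1 y z hy hz hyz hij) hc
    have h : X (c * y) (c * z) = fun k => c * X y z k := by
      refine Rt_uni (hX1 _ _ hcy hcz hcyz) hm fun t ht => ?_
      rw [← hX3 _ _ hcy hcz hcyz] at ht
      have h1 : t = c * (t / c) := by
        field_simp
      rw [h1, Rt_hom hG.hom, hX3 y z hy hz hyz] at ht
      have h2 : ∏ k, (t / c - X y z k) = 0 := by
        rcases mul_eq_zero.1 ht with h | h
        · exact absurd h (pow_ne_zero _ hc.ne')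
        · exact h
      obtain ⟨j, hj, hj0⟩ := Finset.prod_eq_zero_iff.1 h2
      refine Finset.prod_eq_zero hj ?_
      rw [← sub_eq_zero.1 hj0]
      field_simp
      ring
    show X (c * y) (c * z) k = c * X y z k
    rw [h]
  · intro k
    rintro ⟨y₀, z₀⟩ ⟨hy₀, hz₀, hyz₀⟩
    refine Metric.tendsto_nhds.2 fun ε hε => ?_
    have hg := hX1 y₀ z₀ hy₀ hz₀ hyz₀
    have hgp := hX3 y₀ z₀ hy₀ hz₀ hyz₀
    set g := X y₀ z₀ with hgdef
    have hε' : ∀ᶠ δ in 𝓝[>] (0 : ℝ), δ < ε :=
      (eventually_lt_nhds hε).filter_mono nhdsWithin_le_nhds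
    obtain ⟨δ, ⟨hsep, hδε⟩, hδ⟩ :=
      (((Rt_sep hg).and hε').and self_mem_nhdsWithin).exists
    have hδ0 : 0 < δ := hδ
    -- signs at the ends of the intervals
    have hsign : ∀ j, val R (g j - δ) y₀ z₀ * val R (g j + δ) y₀ z₀ < 0 := by
      intro j
      rw [hgp, hgp, ← Finset.prod_mul_distrib, ← Finset.mul_prod_erase _ _ (Finset.mem_univ j)]
      refine mul_neg_of_neg_of_pos ?_ (Finset.prod_pos fun i hi => ?_)
      · have : (g j - δ - g j) * (g j + δ - g j) = -(δ ^ 2) := by ring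
        rw [this]
        have := pow_pos hδ0 2
        linarith
      · rcases lt_or_gt_of_ne (Finset.ne_of_mem_erase hi) with h | h
        · have h1 := hsep i j h
          exact mul_pos (by linarith) (by linarith)
        · have h1 := hsep j i h
          exact mul_pos_of_neg_of_neg (by linarith) (by linarith)
    have hev : ∀ᶠ p : ℝ × ℝ in 𝓝 (y₀, z₀), ∀ j,
        val R (g j - δ) p.1 p.2 * val R (g j + δ) p.1 p.2 < 0 := by
      rw [eventually_all]
      intro j
      have hc : Continuous fun p : ℝ × ℝ => val R (g j - δ) p.1 p.2 * val R (g j + δ) p.1 p.2 :=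
        (Rt_cont2 R _).mul (Rt_cont2 R _)
      exact hc.continuousAt.eventually_lt_const (hsign j)
    have hin : ∀ᶠ p : ℝ × ℝ in 𝓝[{p : ℝ × ℝ | 0 ≤ p.1 ∧ 0 ≤ p.2 ∧ (p.1 ≠ 0 ∨ p.2 ≠ 0)}]
        (y₀, z₀), p ∈ {p : ℝ × ℝ | 0 ≤ p.1 ∧ 0 ≤ p.2 ∧ (p.1 ≠ 0 ∨ p.2 ≠ 0)} :=
      self_mem_nhdsWithin
    filter_upwards [hin, hev.filter_mono nhdsWithin_le_nhds] with p hp hp2
    obtain ⟨hy, hz, hyz⟩ := hp
    have hroot : ∀ j, ∃ r, g j - δ < r ∧ r < g j + δ ∧ val R r p.1 p.2 = 0 := by
      intro j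
      have hle : g j - δ ≤ g j + δ := by linarith
      have hc := (Rt_cont1 R p.1 p.2).continuousOn (s := Set.Icc (g j - δ) (g j + δ))
      rcases mul_neg_iff.1 (hp2 j) with ⟨h1, h2⟩ | ⟨h1, h2⟩
      · obtain ⟨r, hr, hr0⟩ := intermediate_value_Ioo' hle hc ⟨h2, h1⟩
        exact ⟨r, hr.1, hr.2, hr0⟩
      · obtain ⟨r, hr, hr0⟩ := intermediate_value_Ioo hle hc ⟨h1, h2⟩
        exact ⟨r, hr.1, hr.2, hr0⟩
    choose r hr1 hr2 hr3 using hroot
    have hrm : StrictMono r := by
      intro i j hij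
      have h1 := hsep i j hij
      have h2 := hr2 i
      have h3 := hr1 j
      linarith
    have hrX : r = X p.1 p.2 := by
      refine Rt_uni hrm (hX1 p.1 p.2 hy hz hyz) fun t ht => ?_
      obtain ⟨j, -, hj⟩ := Finset.prod_eq_zero_iff.1 ht
      rw [sub_eq_zero.1 hj, ← hX3 p.1 p.2 hy hz hyz]
      exact hr3 j
    show dist (X p.1 p.2 k) (g k) < ε
    rw [← hrX, Real.dist_eq, abs_lt]
    constructor
    · have := hr1 k
      linarith
    · have := hr2 k
      linarith

end Pool.Agent.RSV
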