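import Pool.Agent.RSV.StN

/-!
# RSV, module Shy (helper99): a strictly hyperbolic form and its perturbations
-/

set_option autoImplicit false

namespace Pool.Agent.RSV

open Filter Topology
open MvPolynomial (X C)

/-- the form with the roots `y + z + δ (2 i + 1 - n) √(y² + z²)` -/
private theorem Shy_form (δ : ℝ) : ∀ n : ℕ, ∃ R : TP, R.IsHomogeneous n ∧ ∀ x y z : ℝ,
    val R x y z = ∏ i ∈ Finset.range n,
      (x - y - z - δ * (2 * (i : ℝ) + 1 - (n : ℝ)) * √(y ^ 2 + z ^ 2))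
  | 0 => ⟨1, MvPolynomial.isHomogeneous_one _ _, by intro x y z; simp [val]⟩
  | 1 => by
    refine ⟨X 0 - X 1 - X 2, ?_, ?_⟩
    · exact ((MvPolynomial.isHomogeneous_X ℝ 0).sub (MvPolynomial.isHomogeneous_X ℝ 1)).sub
        (MvPolynomial.isHomogeneous_X ℝ 2)
    · intro x y z
      simp [val]
  | (n + 2) => by
    obtain ⟨R, hR, h⟩ := Shy_form δ n
    have hL : (X 0 - X 1 - X 2 : TP).IsHomogeneous 1 :=
      ((MvPolynomial.isHomogeneous_X ℝ 0).sub (MvPolynomial.isHomogeneous_X ℝ 1)).sub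
        (MvPolynomial.isHomogeneous_X ℝ 2)
    have hL2 : ((X 0 - X 1 - X 2 : TP) ^ 2).IsHomogeneous 2 := by
      have := hL.pow 2
      simpa using this
    have hq : ((X 1 : TP) ^ 2 + (X 2 : TP) ^ 2).IsHomogeneous 2 :=
      (MvPolynomial.isHomogeneous_X_pow 1 2).add (MvPolynomial.isHomogeneous_X_pow 2 2)
    refine ⟨R * ((X 0 - X 1 - X 2) ^ 2 - C (δ ^ 2 * ((n : ℝ) + 1) ^ 2) * (X 1 ^ 2 + X 2 ^ 2)), ?_, ?_⟩
    · refine hR.mul (hL2.sub ?_)
      have := (MvPolynomial.isHomogeneous_C (Fin 3) (δ ^ 2 * ((n : ℝ) + 1) ^ 2)).mul hq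
      simpa using this
    · intro x y z
      have h1 := h x y z
      have hs : √(y ^ 2 + z ^ 2) ^ 2 = y ^ 2 + z ^ 2 := Real.sq_sqrt (by positivity)
      have h2 : val (R * ((X 0 - X 1 - X 2) ^ 2 -
          C (δ ^ 2 * ((n : ℝ) + 1) ^ 2) * (X 1 ^ 2 + X 2 ^ 2))) x y z =
          val R x y z * ((x - y - z) ^ 2 - δ ^ 2 * ((n : ℝ) + 1) ^ 2 * (y ^ 2 + z ^ 2)) := by
        simp [val]
      rw [h2, h1, Finset.prod_range_succ, Finset.prod_range_succ']
      have h3 : ∏ i ∈ Finset.range n, (x - y - z - δ * (2 * ((i + 1 : ℕ) : ℝ) + 1 -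
          ((n + 2 : ℕ) : ℝ)) * √(y ^ 2 + z ^ 2)) =
          ∏ i ∈ Finset.range n, (x - y - z - δ * (2 * (i : ℝ) + 1 - (n : ℝ)) *
            √(y ^ 2 + z ^ 2)) := by
        refine Finset.prod_congr rfl fun i _ => ?_
        push_cast
        ring
      rw [h3]
      generalize ∏ i ∈ Finset.range n, (x - y - z - δ * (2 * (i : ℝ) + 1 - (n : ℝ)) *
            √(y ^ 2 + z ^ 2)) = p
      rw [← hs]
      have hr : √(√(y ^ 2 + z ^ 2) ^ 2) = √(y ^ 2 + z ^ 2) := Real.sqrt_sq (Real.sqrt_nonneg _)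
      rw [hr]
      push_cast
      ring

private theorem Shy_one_le (m : ℕ) (f : ℕ → ℝ) (h : ∀ i < m, 1 ≤ f i) :
    1 ≤ ∏ i ∈ Finset.range m, f i := by
  induction m with
  | zero => simp
  | succ m ih =>
    rw [Finset.prod_range_succ]
    have h1 := ih fun i hi => h i (hi.trans (Nat.lt_succ_self m))
    have h2 := h m (Nat.lt_succ_self m)
    nlinarith

/-- the product of the odd numbers `2 (j - i) - 1`, `i < n`, has the sign `(-1) ^ (n - j)` -/
private theorem Shy_sign (n j : ℕ) (hj : j ≤ n) :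
    1 ≤ (-1 : ℝ) ^ (n - j) * ∏ i ∈ Finset.range n, (2 * (j : ℝ) - 2 * (i : ℝ) - 1) := by
  obtain ⟨k, rfl⟩ := Nat.exists_eq_add_of_le hj
  rw [Nat.add_sub_cancel_left, Finset.prod_range_add]
  have h1 : 1 ≤ ∏ i ∈ Finset.range j, (2 * (j : ℝ) - 2 * (i : ℝ) - 1) := by
    refine Shy_one_le j _ (fun i hi => ?_)
    have : ((i + 1 : ℕ) : ℝ) ≤ j := by exact_mod_cast hi
    push_cast at this
    linarith
  have h2 : (-1 : ℝ) ^ k * ∏ i ∈ Finset.range k, (2 * (j : ℝ) - 2 * ((j + i : ℕ) : ℝ) - 1) =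
      ∏ i ∈ Finset.range k, (2 * (i : ℝ) + 1) := by
    have h4 : (-1 : ℝ) ^ k = ∏ i ∈ Finset.range k, (-1 : ℝ) := by
      rw [Finset.prod_const, Finset.card_range]
    rw [h4, ← Finset.prod_mul_distrib]
    refine Finset.prod_congr rfl fun i _ => ?_
    push_cast
    ring
  have h3 : 1 ≤ ∏ i ∈ Finset.range k, (2 * (i : ℝ) + 1) := by
    refine Shy_one_le k _ (fun i _ => ?_)
    have : (0 : ℝ) ≤ i := Nat.cast_nonneg i
    linarith
  calc (1 : ℝ) = 1 * 1 := by ring
    _ ≤ (∏ i ∈ Finset.range j, (2 * (j : ℝ) - 2 * (i : ℝ) - 1)) *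
        ∏ i ∈ Finset.range k, (2 * (i : ℝ) + 1) :=
        mul_le_mul h1 h3 zero_le_one (zero_le_one.trans h1)
    _ = _ := by rw [← h2]; ring

/-- a zero between points with signs `(-1) ^ (n - j)` -/
private theorem Shy_ivt (n : ℕ) (g : ℝ → ℝ) (hg : Continuous g) (p : ℕ → ℝ)
    (hp : ∀ j, p j < p (j + 1)) (hs : ∀ j ≤ n, 0 < (-1 : ℝ) ^ (n - j) * g (p j)) (j : ℕ)
    (hj : j < n) : ∃ x, p j < x ∧ x < p (j + 1) ∧ g x = 0 := by
  have h0 := hs j hj.le
  have h1 := hs (j + 1) hj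
  have h2 : n - j = (n - (j + 1)) + 1 := by omega
  rw [h2, pow_succ] at h0
  set e : ℝ := (-1 : ℝ) ^ (n - (j + 1)) with he
  have h3 : (0 : ℝ) ∈ Set.Ioo (e * g (p j)) (e * g (p (j + 1))) := by
    constructor <;> linarith
  obtain ⟨x, hx, hx0⟩ := intermediate_value_Ioo (hp j).le
    ((continuous_const.mul hg).continuousOn : ContinuousOn (fun x => e * g x) _) h3
  refine ⟨x, hx.1, hx.2, ?_⟩
  have he0 : e ≠ 0 := pow_ne_zero _ (by norm_num)
  exact (mul_eq_zero.1 hx0).resolve_left he0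

theorem thm_Shy : St_Shy := by
  intro n hn
  have hn0 : (0 : ℝ) < n := by exact_mod_cast hn
  have hn1 : (1 : ℝ) ≤ n := by exact_mod_cast hn
  set δ : ℝ := 1 / n with hδ
  have hδ0 : 0 < δ := by positivity
  have hδn : δ * n = 1 := by rw [hδ]; field_simp
  have hδ1 : δ ≤ 1 := by rw [hδ, div_le_one hn0]; exact hn1
  obtain ⟨R, hR, hv⟩ := Shy_form δ n
  refine ⟨R, hR, ?_, δ ^ n / (3 ^ n + 3), ?_, ?_, ?_⟩
  · rw [hv]
    simp
  · positivity
  · rw [div_lt_one (by positivity)]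
    have h1 : δ ^ n ≤ 1 := pow_le_one₀ hδ0.le hδ1
    have h2 : (0 : ℝ) < 3 ^ n := by positivity
    linarith
  · intro t ht0 ht1 y z hyz
    have hq0 : 0 < y ^ 2 + z ^ 2 := by
      rcases hyz with h | h <;> positivity
    set ρ : ℝ := √(y ^ 2 + z ^ 2) with hρ
    have hρ0 : 0 < ρ := Real.sqrt_pos.2 hq0
    have hρ2 : ρ ^ 2 = y ^ 2 + z ^ 2 := Real.sq_sqrt hq0.le
    have hy : |y| ≤ ρ := abs_le_of_sq_le_sq (by nlinarith [sq_nonneg z]) hρ0.le
    have hz : |z| ≤ ρ := abs_le_of_sq_le_sq (by nlinarith [sq_nonneg y]) hρ0.le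
    set g : ℝ → ℝ := fun x => (1 - t) * val R x y z + t * (x ^ n + y ^ n + z ^ n) with hg
    have hgv : ∀ x : ℝ, val (C (1 - t) * R + C t * (X 0 ^ n + X 1 ^ n + X 2 ^ n)) x y z = g x := by
      intro x
      simp [val, hg]
    have hgc : Continuous g := by
      have : g = fun x => (1 - t) * (∏ i ∈ Finset.range n,
          (x - y - z - δ * (2 * (i : ℝ) + 1 - (n : ℝ)) * ρ)) + t * (x ^ n + y ^ n + z ^ n) := by
        funext x
        simp only [hg, hv, ← hρ]
      rw [this]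
      fun_prop
    set p : ℕ → ℝ := fun j => y + z + δ * (2 * (j : ℝ) - n) * ρ with hp
    have hpm : ∀ j, p j < p (j + 1) := by
      intro j
      have h1 : p (j + 1) - p j = 2 * (δ * ρ) := by
        simp only [hp]; push_cast; ring
      have h2 : 0 < δ * ρ := by positivity
      linarith
    have hs : ∀ j ≤ n, 0 < (-1 : ℝ) ^ (n - j) * g (p j) := by
      intro j hj
      have hjn : (j : ℝ) ≤ n := by exact_mod_cast hj
      have hj0 : (0 : ℝ) ≤ j := Nat.cast_nonneg j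
      have h1 : val R (p j) y z = (δ * ρ) ^ n *
          ∏ i ∈ Finset.range n, (2 * (j : ℝ) - 2 * (i : ℝ) - 1) := by
        rw [hv]
        have : (δ * ρ) ^ n = ∏ i ∈ Finset.range n, (δ * ρ) := by
          rw [Finset.prod_const, Finset.card_range]
        rw [this, ← Finset.prod_mul_distrib]
        refine Finset.prod_congr rfl fun i _ => ?_
        simp only [hp]
        ring
      have h2 : δ ^ n * ρ ^ n ≤ (-1 : ℝ) ^ (n - j) * val R (p j) y z := by
        have h3 := Shy_sign n j hj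
        rw [h1, mul_pow]
        have h4 : 0 < δ ^ n * ρ ^ n := by positivity
        nlinarith
      have hpj : |p j| ≤ 3 * ρ := by
        have h3 : |δ * (2 * (j : ℝ) - n) * ρ| ≤ ρ := by
          rw [abs_le]
          constructor <;> nlinarith [mul_nonneg hδ0.le hρ0.le, mul_nonneg hδ0.le hj0,
            mul_le_mul_of_nonneg_left hjn (mul_nonneg hδ0.le hρ0.le),
            mul_nonneg (mul_nonneg hδ0.le hρ0.le) hj0]
        calc |p j| ≤ |y + z| + |δ * (2 * (j : ℝ) - n) * ρ| := abs_add_le _ _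
          _ ≤ |y| + |z| + ρ := by
            have := abs_add_le y z
            linarith
          _ ≤ 3 * ρ := by linarith
      have hpn : |(p j) ^ n + y ^ n + z ^ n| ≤ (3 ^ n + 2) * ρ ^ n := by
        have a1 : |(p j) ^ n| ≤ 3 ^ n * ρ ^ n := by
          rw [abs_pow, ← mul_pow]
          exact pow_le_pow_left₀ (abs_nonneg _) hpj n
        have a2 : |y ^ n| ≤ ρ ^ n := by
          rw [abs_pow]
          exact pow_le_pow_left₀ (abs_nonneg _) hy n
        have a3 : |z ^ n| ≤ ρ ^ n := by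
          rw [abs_pow]
          exact pow_le_pow_left₀ (abs_nonneg _) hz n
        have a4 := abs_add_three ((p j) ^ n) (y ^ n) (z ^ n)
        linarith
      have hsg : |(-1 : ℝ) ^ (n - j) * ((p j) ^ n + y ^ n + z ^ n)| ≤ (3 ^ n + 2) * ρ ^ n := by
        rw [abs_mul, abs_pow, abs_neg, abs_one, one_pow, one_mul]
        exact hpn
      have h5 : t * (3 ^ n + 3) < δ ^ n := by
        rwa [lt_div_iff₀ (by positivity)] at ht1
      have h6 : (-1 : ℝ) ^ (n - j) * g (p j) = (1 - t) * ((-1 : ℝ) ^ (n - j) * val R (p j) y z) +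
          t * ((-1 : ℝ) ^ (n - j) * ((p j) ^ n + y ^ n + z ^ n)) := by
        simp only [hg]; ring
      have h7 := (abs_le.1 hsg).1
      have h8 : δ ^ n ≤ 1 := pow_le_one₀ hδ0.le hδ1
      have h9 : (0 : ℝ) < 3 ^ n := by positivity
      have h10 : t < 1 := by nlinarith
      have h11 : 0 < ρ ^ n := by positivity
      have h12 : (1 - t) * (δ ^ n * ρ ^ n) ≤
          (1 - t) * ((-1 : ℝ) ^ (n - j) * val R (p j) y z) :=
        mul_le_mul_of_nonneg_left h2 (by linarith)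
      have h13 : t * (-((3 ^ n + 2) * ρ ^ n)) ≤
          t * ((-1 : ℝ) ^ (n - j) * ((p j) ^ n + y ^ n + z ^ n)) :=
        mul_le_mul_of_nonneg_left h7 ht0.le
      have h14 : 0 < ρ ^ n * ((1 - t) * δ ^ n - t * (3 ^ n + 2)) := by
        refine mul_pos h11 ?_
        nlinarith
      rw [h6]
      nlinarith
    choose f hf using fun j : Fin n => Shy_ivt n g hgc p hpm hs j j.2
    have hpmono : StrictMono p := strictMono_nat_of_lt_succ hpm
    have hfmono : StrictMono f := by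
      intro i j hij
      have h1 : p ((i : ℕ) + 1) ≤ p j := hpmono.monotone (by exact_mod_cast hij)
      exact ((hf i).2.1.trans_le h1).trans (hf j).1
    refine ⟨f, hfmono.injective, fun k => ?_, fun hy0 hz0 k => ?_⟩
    · rw [hgv]
      exact (hf k).2.2
    · have h1 : p 0 ≤ p k := hpmono.monotone (Nat.zero_le _)
      have h2 : 0 ≤ p 0 := by
        have h3 : ρ ≤ y + z := by
          refine abs_le_of_sq_le_sq' ?_ (by linarith) |>.2
          nlinarith [mul_nonneg hy0 hz0]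
        have h4 : p 0 = y + z - (δ * n) * ρ := by
          simp only [hp]; push_cast; ring
        rw [h4, hδn]
        linarith
      exact (h2.trans h1).trans_lt (hf k).1

end Pool.Agent.RSV
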