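import Pool.Agent.RSV.Defs

/-!
# RSV: the sign rule in terms of arcs, statement
-/

set_option autoImplicit false

namespace Pool.Agent.RSV

open Filter Topology

/-- the part `x > 0 ≥ z` of the real curve `R (x, 1, z) = 0` -/
def Gam (R : TP) : Set (ℝ × ℝ) := {p | 0 < p.1 ∧ p.2 ≤ 0 ∧ val R p.1 1 p.2 = 0}

/-- [Jn] (uses nothing) The sign rule means: whenever two of the points `(aᵢ², 0)` are joined by a path in the curve
`Gam R`, the signs of `aᵢ R_X` at them agree. Proof. From left to right: along a path in `Gam R` the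
function `c` is locally constant, so constant. From right to left: `Gam R` is locally path connected: at a point
with `z < 0` we have `R_X ≠ 0` or `R_Z ≠ 0` (otherwise by Euler `R_Y = 0` too, not smooth), so by the implicit
function theorem the curve near it is an arc (a graph over a small open interval of the `z`-axis or of the
`x`-axis); at a point with `z = 0` `R_X ≠ 0`, and the curve near it is a graph `x = φ z`, `z ∈ (- δ, 0]`. So every
`p ∈ Gam R` has a neighborhood `U` such that all points of `U ∩ Gam R` are joined to `p` in `Gam R`. Put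
`c (p) = sign (aᵢ R_X (aᵢ², 1, 0))` if `p ∈ Gam R` is joined in `Gam R` to `(aᵢ², 0)` for some `i` (by hypothesis it does
not depend on `i`), and `c (p) = 1` otherwise. -/
def St_Jn : Prop := ∀ (n : ℕ) (R : TP) (a : Fin n → ℝ), 1 ≤ n → R.IsHomogeneous n → Smooth R →
  (∀ x : ℝ, 0 < x → val R x 1 0 = 0 → val (MvPolynomial.pderiv 0 R) x 1 0 ≠ 0) →
  (∀ i, val R (a i ^ 2) 1 0 = 0 ∧ a i ≠ 0) →
  (ArcSign R a ↔ ∀ i j : Fin n, JoinedIn (Gam R) (a i ^ 2, 0) (a j ^ 2, 0) →
    0 < (a i * val (MvPolynomial.pderiv 0 R) (a i ^ 2) 1 0) *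
      (a j * val (MvPolynomial.pderiv 0 R) (a j ^ 2) 1 0))

end Pool.Agent.RSV
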