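import Pool.Agent.RSV.StE

/-!
# RSV: module [Suf], sufficiency (matrices from the ideal)
-/

set_option autoImplicit false

namespace Pool.Agent.RSV

open Filter Topology Module
open scoped ComplexConjugate

/-- evaluation as a ring homomorphism -/
private noncomputable def Suf_ev (x y : ℂ) : BC →+* ℂ :=
  (Polynomial.evalRingHom x).comp (Polynomial.mapRingHom (Polynomial.evalRingHom y))

private lemma Suf_evc (f : BC) (x y : ℂ) : evc f x y = Suf_ev x y f := by
  simp [evc, Suf_ev]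

private lemma Suf_add (f g : BC) (x y : ℂ) : evc (f + g) x y = evc f x y + evc g x y := by
  simp only [Suf_evc, map_add]

private lemma Suf_smul (c : ℂ) (f : BC) (x y : ℂ) : evc (c • f) x y = c * evc f x y := by
  have h : c • f = Polynomial.C (Polynomial.C c) * f := by
    ext i j
    simp
  rw [h, Suf_evc, Suf_evc, map_mul]
  simp [Suf_ev]

/-- a polynomial with a limit at infinity is constant -/
private lemma Suf_const (P : Polynomial ℂ) (c : ℂ)
    (h : Tendsto (fun y : ℝ => P.eval (y : ℂ)) atTop (𝓝 c)) :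
    ∀ y : ℝ, P.eval (y : ℂ) = P.eval ((0 : ℝ) : ℂ) := by
  have hdeg : ¬ 0 < P.degree := by
    intro hp
    have h1 : Tendsto (fun y : ℝ => ‖(y : ℂ)‖) atTop atTop := by
      simpa using tendsto_abs_atTop_atTop
    have h2 := P.tendsto_norm_atTop hp h1
    exact not_tendsto_nhds_of_tendsto_atTop h2 _ h.norm
  have h3 := Polynomial.eq_C_of_degree_le_zero (not_lt.1 hdeg)
  intro y
  rw [h3, Polynomial.eval_C, Polynomial.eval_C]

/-- a polynomial with `P (y) / y` convergent has degree at most one -/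
private lemma Suf_lin (P : Polynomial ℂ) (c : ℂ)
    (h : Tendsto (fun y : ℝ => P.eval (y : ℂ) / y) atTop (𝓝 c)) :
    ∃ κ₀ κ₁ : ℂ, ∀ y : ℝ, P.eval (y : ℂ) = κ₀ + κ₁ * y := by
  have hP : ∀ y : ℂ, P.eval y = P.coeff 0 + y * P.divX.eval y := by
    intro y
    have h1 := congrArg (Polynomial.eval y) P.X_mul_divX_add
    rw [Polynomial.eval_add, Polynomial.eval_mul, Polynomial.eval_X, Polynomial.eval_C] at h1
    rw [← h1]
    ring
  have h2 : Tendsto (fun y : ℝ => P.divX.eval (y : ℂ)) atTop (𝓝 c) := by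
    have h3 : Tendsto (fun y : ℝ => P.coeff 0 / (y : ℂ)) atTop (𝓝 0) := by
      have h4 : Tendsto (fun y : ℝ => ‖P.coeff 0‖ / y) atTop (𝓝 0) :=
        tendsto_const_nhds.div_atTop tendsto_id
      rw [tendsto_zero_iff_norm_tendsto_zero]
      refine h4.congr' ?_
      filter_upwards [eventually_gt_atTop 0] with y hy
      rw [norm_div, Complex.norm_real, Real.norm_eq_abs, abs_of_pos hy]
    have h4 := h.sub h3
    rw [sub_zero] at h4
    refine h4.congr' ?_
    filter_upwards [eventually_gt_atTop 0] with y hy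
    have hy' : (y : ℂ) ≠ 0 := by exact_mod_cast hy.ne'
    rw [hP]
    field_simp
    ring
  have h5 := Suf_const _ _ h2
  refine ⟨P.coeff 0, P.divX.eval ((0 : ℝ) : ℂ), fun y => ?_⟩
  rw [hP, h5 y]
  ring

/-- a factorization over the reals is one over the complex numbers -/
private lemma Suf_cx {n : ℕ} (R : TP) (y z : ℝ) (c : Fin n → ℝ)
    (h : ∀ t : ℝ, val R t y z = ∏ i, (t - c i)) (u : ℂ) :
    MvPolynomial.aeval ![u, (y : ℂ), (z : ℂ)] R = ∏ i, (u - (c i : ℂ)) := by
  let p : Polynomial ℝ :=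
    MvPolynomial.aeval ![Polynomial.X, Polynomial.C y, Polynomial.C z] R
  have h1 : ∀ t : ℝ, p.eval t = val R t y z := by
    intro t
    have h2 : (Polynomial.aeval t).comp (MvPolynomial.aeval (R := ℝ)
        ![Polynomial.X, Polynomial.C y, Polynomial.C z]) = MvPolynomial.aeval ![t, y, z] := by
      apply MvPolynomial.algHom_ext
      intro i
      fin_cases i <;> simp
    have h3 := DFunLike.congr_fun h2 R
    rw [AlgHom.comp_apply, Polynomial.coe_aeval_eq_eval, MvPolynomial.aeval_eq_eval] at h3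
    exact h3
  have h2 : p = ∏ i, (Polynomial.X - Polynomial.C (c i)) := by
    apply Polynomial.funext
    intro t
    rw [h1, h]
    simp [Polynomial.eval_prod]
  have h3 : Polynomial.aeval u p = MvPolynomial.aeval ![u, (y : ℂ), (z : ℂ)] R := by
    have h2 : (Polynomial.aeval u).comp (MvPolynomial.aeval (R := ℝ)
        ![Polynomial.X, Polynomial.C y, Polynomial.C z]) =
        MvPolynomial.aeval ![u, (y : ℂ), (z : ℂ)] := by
      apply MvPolynomial.algHom_ext
      intro i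
      fin_cases i <;> simp
    exact DFunLike.congr_fun h2 R
  rw [← h3, h2, map_prod]
  simp

/-- homogeneity, complex values -/
private lemma Suf_hom {d : ℕ} (P : TP) (hP : P.IsHomogeneous d) (c : ℂ) (v : Fin 3 → ℂ) :
    MvPolynomial.aeval (fun i => c * v i) P = c ^ d * MvPolynomial.aeval v P := by
  rw [MvPolynomial.aeval_def, MvPolynomial.aeval_def, MvPolynomial.eval₂_eq',
    MvPolynomial.eval₂_eq', Finset.mul_sum]
  refine Finset.sum_congr rfl fun m hm => ?_
  have h1 : ∑ i, m i = d := by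
    have h2 := hP (MvPolynomial.mem_support_iff.mp hm)
    rw [← h2, Finsupp.weight_apply, Finsupp.sum_fintype _ _ (by simp)]
    simp
  simp only [mul_pow, Finset.prod_mul_distrib, Finset.prod_pow_eq_pow_sum, h1]
  ring

/-- the matrix part: from real `y` and `x = 1` to all values -/
private lemma Suf_det {n : ℕ} (R : TP) (hR : R.IsHomogeneous n)
    (A B : Matrix (Fin n) (Fin n) ℂ)
    (h : ∀ (y : ℝ) (u : ℂ), MvPolynomial.aeval ![u, 1, (y : ℂ) ^ 2] R =
      (u • (1 : Matrix (Fin n) (Fin n) ℂ) -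
        (A - (Complex.I * y) • B) * (A + (Complex.I * y) • B)).det) : DetR R A B := by
  -- all complex `y`, `x = 1`
  have h1 : ∀ u y : ℂ, MvPolynomial.aeval ![u, 1, y ^ 2] R =
      (u • (1 : Matrix (Fin n) (Fin n) ℂ) -
        (A - (Complex.I * y) • B) * (A + (Complex.I * y) • B)).det := by
    intro u
    let p : Polynomial ℂ :=
      MvPolynomial.aeval ![Polynomial.C u, 1, Polynomial.X ^ 2] R
    let MA : Matrix (Fin n) (Fin n) (Polynomial ℂ) := A.map Polynomial.C
    let MB : Matrix (Fin n) (Fin n) (Polynomial ℂ) :=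
      (Polynomial.C Complex.I * Polynomial.X : Polynomial ℂ) • B.map Polynomial.C
    let q : Polynomial ℂ := (Polynomial.C u • (1 : Matrix (Fin n) (Fin n) (Polynomial ℂ)) -
      (MA - MB) * (MA + MB)).det
    have hp : ∀ y : ℂ, p.eval y = MvPolynomial.aeval ![u, 1, y ^ 2] R := by
      intro y
      have h2 : ((Polynomial.aeval y).restrictScalars ℝ).comp (MvPolynomial.aeval (R := ℝ)
          ![Polynomial.C u, 1, Polynomial.X ^ 2]) = MvPolynomial.aeval ![u, 1, y ^ 2] := by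
        apply MvPolynomial.algHom_ext
        intro i
        fin_cases i <;> simp
      have h3 := DFunLike.congr_fun h2 R
      rw [AlgHom.comp_apply, AlgHom.restrictScalars_apply, Polynomial.coe_aeval_eq_eval] at h3
      exact h3
    have hq : ∀ y : ℂ, q.eval y = (u • (1 : Matrix (Fin n) (Fin n) ℂ) -
        (A - (Complex.I * y) • B) * (A + (Complex.I * y) • B)).det := by
      intro y
      have h2 : q.eval y = (Polynomial.evalRingHom y) q := rfl
      rw [h2, RingHom.map_det]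
      have h3 : (Polynomial.evalRingHom y).mapMatrix
          (Polynomial.C u • (1 : Matrix (Fin n) (Fin n) (Polynomial ℂ)) -
            (MA - MB) * (MA + MB)) = (u • (1 : Matrix (Fin n) (Fin n) ℂ) -
        (A - (Complex.I * y) • B) * (A + (Complex.I * y) • B)) := by
        have hA : (Polynomial.evalRingHom y).mapMatrix MA = A := by
          ext i j
          simp [MA]
        have hB : (Polynomial.evalRingHom y).mapMatrix MB = (Complex.I * y) • B := by
          ext i j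
          simp [MB]
        have hu : (Polynomial.evalRingHom y).mapMatrix
            (Polynomial.C u • (1 : Matrix (Fin n) (Fin n) (Polynomial ℂ))) =
              u • (1 : Matrix (Fin n) (Fin n) ℂ) := by
          ext i j
          by_cases hij : i = j
          · subst hij
            simp
          · simp [hij]
        rw [map_sub, map_mul, map_sub, map_add, hA, hB, hu]
      rw [h3]
    have hpq : p = q := by
      apply Polynomial.eq_of_infinite_eval_eq
      have h4 : Set.range (fun y : ℝ => (y : ℂ)) ⊆ {y | p.eval y = q.eval y} := by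
        rintro _ ⟨y, rfl⟩
        change p.eval (y : ℂ) = q.eval (y : ℂ)
        rw [hp, hq]
        exact h y u
      exact (Set.infinite_range_of_injective Complex.ofReal_injective).mono h4
    intro y
    rw [← hp, ← hq, hpq]
  -- `x ≠ 0`
  have h2 : ∀ u x y : ℂ, x ≠ 0 → MvPolynomial.aeval ![u, x ^ 2, y ^ 2] R =
      (u • (1 : Matrix (Fin n) (Fin n) ℂ) -
        (x • A - (Complex.I * y) • B) * (x • A + (Complex.I * y) • B)).det := by
    intro u x y hx
    have h3 := h1 (u / x ^ 2) (y / x)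
    have h4 : MvPolynomial.aeval ![u, x ^ 2, y ^ 2] R =
        (x ^ 2) ^ n * MvPolynomial.aeval ![u / x ^ 2, 1, (y / x) ^ 2] R := by
      rw [← Suf_hom R hR]
      have h5 : (![u, x ^ 2, y ^ 2] : Fin 3 → ℂ) =
          fun i => x ^ 2 * (![u / x ^ 2, 1, (y / x) ^ 2] : Fin 3 → ℂ) i := by
        ext i
        fin_cases i
        · simp
          field_simp
        · simp
        · simp
          field_simp
      rw [h5]
    rw [h4, h3]
    have h8 : (u • (1 : Matrix (Fin n) (Fin n) ℂ) -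
        (x • A - (Complex.I * y) • B) * (x • A + (Complex.I * y) • B)) =
        (x ^ 2) • ((u / x ^ 2) • (1 : Matrix (Fin n) (Fin n) ℂ) -
        (A - (Complex.I * (y / x)) • B) * (A + (Complex.I * (y / x)) • B)) := by
      have h10 : x * (Complex.I * (y / x)) = Complex.I * y := by field_simp
      have h11 : x ^ 2 * (u / x ^ 2) = u := by field_simp
      have h9 : x • A - (Complex.I * y) • B = x • (A - (Complex.I * (y / x)) • B) := by
        rw [smul_sub, smul_smul, h10]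
      have h9' : x • A + (Complex.I * y) • B = x • (A + (Complex.I * (y / x)) • B) := by
        rw [smul_add, smul_smul, h10]
      rw [h9, h9', Matrix.smul_mul, Matrix.mul_smul, smul_smul, smul_sub, smul_smul, h11, ← sq]
    rw [h8, Matrix.det_smul, Fintype.card_fin]
  intro u x y
  have hc1 : Continuous fun x : ℂ => MvPolynomial.aeval ![u, x ^ 2, y ^ 2] R := by
    have h4 : ∀ x : ℂ, MvPolynomial.aeval ![u, x ^ 2, y ^ 2] R =
        MvPolynomial.eval ![u, x ^ 2, y ^ 2] (MvPolynomial.map (algebraMap ℝ ℂ) R) := by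
      intro x
      rw [MvPolynomial.eval_map, MvPolynomial.aeval_def]
    simp only [h4]
    refine (MvPolynomial.continuous_eval _).comp ?_
    refine continuous_pi fun i => ?_
    fin_cases i
    · exact continuous_const
    · exact continuous_pow 2
    · exact continuous_const
  have hc2 : Continuous fun x : ℂ => (u • (1 : Matrix (Fin n) (Fin n) ℂ) -
        (x • A - (Complex.I * y) • B) * (x • A + (Complex.I * y) • B)).det := by
    fun_prop
  have h3 := Continuous.ext_on (dense_compl_singleton (0 : ℂ)) hc1 hc2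
    (fun x hx => h2 u x y hx)
  exact congrFun h3 x

/-- singular values -/
private lemma Suf_sing {n : ℕ} (R : TP) (A B : Matrix (Fin n) (Fin n) ℂ) (h : DetR R A B)
    (hA : A.IsHermitian) (hB : B.IsHermitian) (s : Fin n → ℝ) (hs : ∀ i, 0 ≤ s i)
    (hr : ∀ t : ℝ, val R t 1 1 = ∏ i, (t - s i ^ 2)) : HasSing (A + Complex.I • B) s := by
  refine ⟨hs, Matrix.isHermitian_conjTranspose_mul_self _, ?_⟩
  apply Polynomial.funext
  intro u
  have h1 := h u 1 1
  have h2 := Suf_cx R 1 1 (fun i => s i ^ 2) hr u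
  have h3 : (A + Complex.I • B).conjTranspose = A - Complex.I • B := by
    rw [Matrix.conjTranspose_add, Matrix.conjTranspose_smul, hA.eq, hB.eq]
    simp [sub_eq_add_neg]
  rw [Matrix.eval_charpoly, h3, Polynomial.eval_prod]
  simp only [Polynomial.eval_sub, Polynomial.eval_X, Polynomial.eval_C]
  rw [← h2]
  simp only [one_pow, mul_one, one_smul] at h1
  simp only [Complex.ofReal_one]
  rw [h1]
  simp [Matrix.scalar_apply, Matrix.smul_one_eq_diagonal]

/-- the order of the eigenvalues does not matter -/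
private lemma Suf_perm {n : ℕ} (A : Matrix (Fin n) (Fin n) ℂ) (a : Fin n → ℝ) (i : Fin n → Fin n)
    (hi : Function.Injective i) (h : HasEig A (fun k => a (i k))) : HasEig A a := by
  refine ⟨h.1, ?_⟩
  rw [h.2]
  exact (Finite.injective_iff_bijective.1 hi).prod_comp
    (fun k => (Polynomial.X - Polynomial.C (a k : ℂ)))

/-- a polynomial of degree `< n` which vanishes at the points `x k` for all real `y` is zero -/
private lemma Suf_zero {n : ℕ} (x : Fin n → ℝ → ℝ)
    (hx : ∀ y : ℝ, Function.Injective fun k => x k y) (f : BC) (hf : f.natDegree < n)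
    (h : ∀ (y : ℝ) (k : Fin n), evc f (x k y : ℝ) y = 0) : f = 0 := by
  have h1 : ∀ y : ℝ, f.map (Polynomial.evalRingHom (y : ℂ)) = 0 := by
    intro y
    by_contra h0
    have h2 : (Finset.univ.image fun k : Fin n => ((x k y : ℝ) : ℂ)).card ≤
        (f.map (Polynomial.evalRingHom (y : ℂ))).natDegree := by
      apply Polynomial.card_le_degree_of_subset_roots
      intro t ht
      simp only [Finset.mem_val, Finset.mem_image, Finset.mem_univ, true_and] at ht
      obtain ⟨k, rfl⟩ := ht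
      rw [Polynomial.mem_roots h0]
      exact h y k
    rw [Finset.card_image_of_injective, Finset.card_univ, Fintype.card_fin] at h2
    · exact absurd (h2.trans (Polynomial.natDegree_map_le)) (not_le.2 hf)
    · intro k l hkl
      exact hx y (Complex.ofReal_injective hkl)
  ext1 j
  rw [Polynomial.coeff_zero]
  apply Polynomial.eq_zero_of_infinite_isRoot
  have h4 : Set.range (fun y : ℝ => (y : ℂ)) ⊆ {y | (f.coeff j).IsRoot y} := by
    rintro _ ⟨y, rfl⟩
    have h5 := congrArg (fun q => Polynomial.coeff q j) (h1 y)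
    simpa [Polynomial.IsRoot] using h5
  exact (Set.infinite_range_of_injective Complex.ofReal_injective).mono h4

/-- real values of `chc F` -/
private lemma Suf_real (F : TP) (x y : ℝ) :
    MvPolynomial.aeval ![(x : ℂ), 1, (y : ℂ) ^ 2] F = ((val F x 1 (y ^ 2) : ℝ) : ℂ) := by
  have h1 := MvPolynomial.aeval_algebraMap_apply (A := ℝ) (B := ℂ) ![x, 1, y ^ 2] F
  have h2 : ((algebraMap ℝ ℂ) ∘ ![x, 1, y ^ 2] : Fin 3 → ℂ) = ![(x : ℂ), 1, (y : ℂ) ^ 2] := by
    ext i
    fin_cases i <;> simp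
  rw [h2] at h1
  rw [h1]
  simp [val, MvPolynomial.aeval_eq_eval]

/-- [Suf] -/
theorem thm_Suf : St_Mon → St_Sym → St_Rt → St_NFa → St_Kap → St_Zid → St_Ud → St_Pl → St_Lim →
    St_LA → St_Suf := by
  intro hMon hSym hRt hNFa hKap hZid hUd hPl hLim hLA n R a b s hn hg
  obtain ⟨-, -, -, -, hevc⟩ := hMon n R a b s hn hg
  obtain ⟨-, -, hss, -⟩ := hSym R
  obtain ⟨x, hx⟩ := hRt n R a b s hn hg
  obtain ⟨d, α, β, ζ, nf⟩ := hNFa n R a b s hn hg (fun _ => 1) (fun _ => (-1) ^ n)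
    (fun _ => Or.inl rfl) (fun _ => neg_one_pow_eq_or ℝ n)
  obtain ⟨e, κ₁, κ₂, S, he, kap⟩ := hKap n R a b s hn hg d α β ζ nf n
  obtain ⟨J, hJF, hJ1, hJ2, hJfin, hJdim⟩ := hZid n R a b s hn hg d α β ζ e κ₁ κ₂ S nf kap
  obtain ⟨U, hU, hUfin, hUdim⟩ := hUd n (4 * d + e + 1) J hn (by omega) hJfin hJdim.le
  obtain ⟨hL1, hL2, hL3⟩ := hLim n R a b s hn hg x hx
  obtain ⟨j, hj, hjl⟩ := hL3 d α β ζ nf
  obtain ⟨G, hG⟩ : ∃ G : TP, G = ζ ^ 3 * (MvPolynomial.X 1 * α * κ₁ + MvPolynomial.X 2 * β * κ₂) :=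
    ⟨_, rfl⟩
  have hGh : G.IsHomogeneous (4 * d + e + 1) := by
    have h1 := (nf.hζ.pow 3).mul ((((MvPolynomial.isHomogeneous_X ℝ (1 : Fin 3)).mul nf.hα).mul
      kap.h₁).add (((MvPolynomial.isHomogeneous_X ℝ (2 : Fin 3)).mul nf.hβ).mul kap.h₂))
    have h2 : d * 3 + (1 + d + e) = 4 * d + e + 1 := by ring
    rw [hG, ← h2]
    exact h1
  have hcur : ∀ y z : ℝ, 0 ≤ y → 0 ≤ z → (y ≠ 0 ∨ z ≠ 0) → ∀ k, val R (x k y z) y z = 0 := by
    intro y z hy hz hyz k
    rw [hx.prod y z hy hz hyz]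
    exact Finset.prod_eq_zero (Finset.mem_univ k) (sub_self _)
  have hζp : ∀ y z : ℝ, 0 ≤ y → 0 ≤ z → (y ≠ 0 ∨ z ≠ 0) → ∀ t, 0 < val ζ t y z := by
    intro y z hy hz hyz t
    rw [nf.ζx]
    exact nf.pos y z hy hz hyz
  have hpos : ∀ y z : ℝ, 0 ≤ y → 0 ≤ z → (y ≠ 0 ∨ z ≠ 0) → ∀ k,
      0 < val (MvPolynomial.pderiv 0 R) (x k y z) y z * val G (x k y z) y z := by
    intro y z hy hz hyz k
    have h1 := kap.hI (x k y z) y z (hx.pos y z hy hz hyz k) hy hz hyz (hcur y z hy hz hyz k)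
    have h2 := hζp y z hy hz hyz (x k y z)
    have h3 : val G (x k y z) y z = val ζ (x k y z) y z ^ 3 *
        (y * val α (x k y z) y z * val κ₁ (x k y z) y z +
          z * val β (x k y z) y z * val κ₂ (x k y z) y z) := by
      rw [hG]
      simp [val]
    rw [h3]
    have h4 := mul_pos (pow_pos h2 3) h1
    calc (0 : ℝ) < _ := h4
      _ = _ := by ring
  -- the point `(x k 1 (y ^ 2), 1, y ^ 2)`
  have hy2 : ∀ y : ℝ, (0 : ℝ) ≤ 1 ∧ 0 ≤ y ^ 2 ∧ ((1 : ℝ) ≠ 0 ∨ y ^ 2 ≠ 0) := fun y =>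
    ⟨zero_le_one, sq_nonneg y, Or.inl one_ne_zero⟩
  have hdiv : ∀ q : BC, chc R ∣ q → ∀ (y : ℝ) (k : Fin n), evc q (x k 1 (y ^ 2) : ℝ) y = 0 := by
    rintro q ⟨q', rfl⟩ y k
    rw [Suf_evc, map_mul, ← Suf_evc, hevc, Suf_real,
      hcur 1 (y ^ 2) (hy2 y).1 (hy2 y).2.1 (hy2 y).2.2]
    simp
  -- weights
  obtain ⟨w, hw⟩ : ∃ w : ℝ → Fin n → ℝ, w = fun y k =>
    (val (MvPolynomial.pderiv 0 R) (x k 1 (y ^ 2)) 1 (y ^ 2) *
      val G (x k 1 (y ^ 2)) 1 (y ^ 2))⁻¹ := ⟨_, rfl⟩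
  have hwp : ∀ y k, 0 < w y k := by
    intro y k
    rw [hw]
    exact inv_pos.2 (hpos 1 (y ^ 2) (hy2 y).1 (hy2 y).2.1 (hy2 y).2.2 k)
  have hwn : ∀ y k, w (-y) k = w y k := by
    intro y k
    rw [hw]
    simp only [neg_sq]
  obtain ⟨r, hr⟩ : ∃ r : ℝ → Fin n → ℂ, r = fun y k => ((val α (x k 1 (y ^ 2)) 1 (y ^ 2) : ℂ) +
    Complex.I * y * (val β (x k 1 (y ^ 2)) 1 (y ^ 2) : ℂ)) /
      (val ζ (x k 1 (y ^ 2)) 1 (y ^ 2) : ℂ) := ⟨_, rfl⟩
  obtain ⟨E, hE⟩ : ∃ E : ℝ → U →ₗ[ℂ] (Fin n → ℂ), ∀ y f k, E y f k =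
      (√(w y k) : ℂ) * evc (f : BC) (x k 1 (y ^ 2) : ℝ) y := ⟨fun y =>
    { toFun := fun f k => (√(w y k) : ℂ) * evc (f : BC) (x k 1 (y ^ 2) : ℝ) y
      map_add' := fun f g => by
        ext k
        simp only [Submodule.coe_add, Suf_add, Pi.add_apply]
        ring
      map_smul' := fun c f => by
        ext k
        simp only [Submodule.coe_smul, Suf_smul, Pi.smul_apply, smul_eq_mul, RingHom.id_apply]
        ring }, fun _ _ _ => rfl⟩
  have hEn : ∀ y f k, E (-y) f k = (√(w y k) : ℂ) * evc (f : BC) (x k 1 (y ^ 2) : ℝ) (-y) := by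
    intro y f k
    rw [hE, hwn, neg_sq]
    simp
  have hGne : ∀ (y : ℝ) (k : Fin n), val G (x k 1 (y ^ 2)) 1 (y ^ 2) ≠ 0 := by
    intro y k h0
    have h1 := hpos 1 (y ^ 2) (hy2 y).1 (hy2 y).2.1 (hy2 y).2.2 k
    rw [h0, mul_zero] at h1
    exact lt_irrefl _ h1
  -- sums over the fibre are polynomials
  have hP : ∀ f ∈ J, ∀ g ∈ J, ∃ P : Polynomial ℂ, ∀ y : ℝ,
      ∑ k, (w y k : ℂ) * (evc f (x k 1 (y ^ 2) : ℝ) y * conj (evc g (x k 1 (y ^ 2) : ℝ) y)) =
        P.eval (y : ℂ) := by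
    intro f hf g hg'
    obtain ⟨h, hh⟩ := hJ1 f hf g hg'
    rw [← hG] at hh
    obtain ⟨P, hP⟩ := hPl n R a b s hn hg x hx G hGne f g h hh
    refine ⟨P, fun y => ?_⟩
    rw [← hP]
    refine Finset.sum_congr rfl fun k _ => ?_
    rw [hw, div_eq_mul_inv, Complex.ofReal_inv]
    ring
  have hsq : ∀ y k, (√(w y k) : ℂ) * (√(w y k) : ℂ) = (w y k : ℂ) := by
    intro y k
    rw [← Complex.ofReal_mul, Real.mul_self_sqrt (hwp y k).le]
  have hEE : ∀ (y : ℝ) (f g : U) (k : Fin n), E y f k * conj (E y g k) = (w y k : ℂ) *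
      (evc (f : BC) (x k 1 (y ^ 2) : ℝ) y * conj (evc (g : BC) (x k 1 (y ^ 2) : ℝ) y)) := by
    intro y f g k
    rw [hE, hE, map_mul, Complex.conj_ofReal, ← hsq]
    ring
  -- limits
  obtain ⟨E', hE1, hE2⟩ : ∃ E' : U → Fin n → ℂ,
      (∀ f k, Tendsto (fun y => E y f k) atTop (𝓝 (E' f k))) ∧
      (∀ f k, Tendsto (fun y => E (-y) f k) atTop (𝓝 ((((-1 : ℝ) ^ n : ℝ) : ℂ) * E' f k))) := by
    have h1 := fun f : U => hL1 (4 * d + e + 1 + n - 1) f (hU f f.2).2.2
    choose φ hφ using h1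
    have h2 := hL2 (4 * d + e + 1) G hGh
      (fun k => hpos 0 1 le_rfl zero_le_one (Or.inr one_ne_zero) k)
    choose w' hw' hwl using h2
    have h3 : ∀ k, Tendsto (fun y : ℝ => ((√(w y k) * y ^ (4 * d + e + 1 + n - 1) : ℝ) : ℂ)) atTop
        (𝓝 (√(w' k) : ℂ)) := by
      intro k
      refine (Complex.continuous_ofReal.tendsto _).comp ?_
      have h4 := (Real.continuous_sqrt.tendsto _).comp (hwl k)
      refine h4.congr' ?_
      filter_upwards [eventually_gt_atTop 0] with y hy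
      simp only [Function.comp_apply, hw]
      rw [div_eq_mul_inv, mul_comm, Real.sqrt_mul (inv_nonneg.2 (hpos 1 (y ^ 2) (hy2 y).1
        (hy2 y).2.1 (hy2 y).2.2 k).le), mul_comm 2, pow_mul, Real.sqrt_sq (pow_nonneg hy.le _)]
    have hs : ((-1 : ℂ)) ^ (4 * d + e + 1 + n - 1) = (((-1 : ℝ) ^ n : ℝ) : ℂ) := by
      obtain ⟨e', he'⟩ := kap.even
      have h5 : 4 * d + e + 1 + n - 1 = 2 * (2 * d + e') + n := by omega
      rw [h5, pow_add, pow_mul]
      simp
    refine ⟨fun f k => (√(w' k) : ℂ) * φ f k, fun f k => ?_, fun f k => ?_⟩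
    · refine ((h3 k).mul (hφ f k).1).congr' ?_
      filter_upwards [eventually_gt_atTop 0] with y hy
      have hy' : (y : ℂ) ≠ 0 := by exact_mod_cast hy.ne'
      rw [hE, Complex.ofReal_mul, Complex.ofReal_pow]
      field_simp
    · have h6 := (h3 k).mul (hφ f k).2
      rw [hs, mul_left_comm] at h6
      refine h6.congr' ?_
      filter_upwards [eventually_gt_atTop 0] with y hy
      have hy' : (y : ℂ) ≠ 0 := by exact_mod_cast hy.ne'
      rw [hEn, Complex.ofReal_mul, Complex.ofReal_pow]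
      field_simp
  have hJU : ∀ f : U, (f : BC) ∈ J := fun f => (hU f f.2).1
  have h1 : ∀ (f g : U) (y : ℝ),
      ∑ k, E y f k * conj (E y g k) = ∑ k, E 0 f k * conj (E 0 g k) := by
    intro f g y
    obtain ⟨P, hP1⟩ := hP f (hJU f) g (hJU g)
    have h2 : ∀ y : ℝ, ∑ k, E y f k * conj (E y g k) = P.eval (y : ℂ) := by
      intro y
      rw [← hP1]
      exact Finset.sum_congr rfl fun k _ => hEE y f g k
    have h3 : Tendsto (fun y : ℝ => P.eval (y : ℂ)) atTop
        (𝓝 (∑ k, E' f k * conj (E' g k))) := by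
      refine Tendsto.congr h2 ?_
      exact tendsto_finsetSum _ fun k _ =>
        (hE1 f k).mul ((Complex.continuous_conj.tendsto _).comp (hE1 g k))
    rw [h2, h2]
    exact Suf_const P _ h3 y
  have hrn : ∀ y k, r (-y) k = conj (r y k) := by
    intro y k
    rw [hr]
    simp only [neg_sq, map_div₀, map_add, map_mul, Complex.conj_I, Complex.conj_ofReal]
    push_cast
    ring
  have hCI : ∀ x y : ℂ, Suf_ev x y (Polynomial.C (Polynomial.C Complex.I * Polynomial.X)) =
      Complex.I * y := by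
    intro x y
    simp [Suf_ev]
  have hrf : ∀ f ∈ J, ∃ f' ∈ J, ∀ (y : ℝ) (k : Fin n), evc f' (x k 1 (y ^ 2) : ℝ) y =
      r y k * evc f (x k 1 (y ^ 2) : ℝ) (-y) := by
    intro f hf
    obtain ⟨f', hf', hd⟩ := hJ2 f hf
    refine ⟨f', hf', fun y k => ?_⟩
    have h2 := hdiv _ hd y k
    have h3 : (val ζ (x k 1 (y ^ 2)) 1 (y ^ 2) : ℂ) ≠ 0 := by
      exact_mod_cast (hζp 1 (y ^ 2) (hy2 y).1 (hy2 y).2.1 (hy2 y).2.2 _).ne'
    rw [Suf_evc, map_sub, map_mul, map_mul, map_add, map_mul, hCI, ← Suf_evc, ← Suf_evc,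
      ← Suf_evc, ← Suf_evc, ← Suf_evc, hevc, hevc, hevc, hss, Suf_real, Suf_real, Suf_real,
      sub_eq_zero] at h2
    rw [hr]
    simp only
    rw [div_mul_eq_mul_div, eq_div_iff h3, mul_comm, h2]
  have h2 : ∀ f g : U, ∃ κ₀ κ₁ : ℂ, ∀ y : ℝ,
      ∑ k, r y k * E (-y) f k * conj (E y g k) = κ₀ + κ₁ * y := by
    intro f g
    obtain ⟨f', hf', hff⟩ := hrf f (hJU f)
    obtain ⟨P, hP1⟩ := hP f' hf' g (hJU g)
    have h2 : ∀ y : ℝ, ∑ k, r y k * E (-y) f k * conj (E y g k) = P.eval (y : ℂ) := by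
      intro y
      rw [← hP1]
      refine Finset.sum_congr rfl fun k _ => ?_
      rw [hff, hEn, hE, map_mul, Complex.conj_ofReal, ← hsq]
      ring
    have h3 : Tendsto (fun y : ℝ => P.eval (y : ℂ) / y) atTop
        (𝓝 (∑ k, Complex.I * ((-1) ^ n * (b (j k) : ℂ)) *
          ((((-1 : ℝ) ^ n : ℝ) : ℂ) * E' f k) * conj (E' g k))) := by
      have h4 : Tendsto (fun y : ℝ => ∑ k, Complex.I * (r y k / (Complex.I * y)) *
          E (-y) f k * conj (E y g k)) atTop
          (𝓝 (∑ k, Complex.I * ((-1) ^ n * (b (j k) : ℂ)) *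
          ((((-1 : ℝ) ^ n : ℝ) : ℂ) * E' f k) * conj (E' g k))) := by
        refine tendsto_finsetSum _ fun k _ => ?_
        refine Tendsto.mul (Tendsto.mul (Tendsto.mul tendsto_const_nhds ?_) (hE2 f k))
          ((Complex.continuous_conj.tendsto _).comp (hE1 g k))
        rw [hr]
        exact (hjl k).2
      refine h4.congr' ?_
      filter_upwards [eventually_gt_atTop 0] with y hy
      have hy' : (y : ℂ) ≠ 0 := by exact_mod_cast hy.ne'
      rw [← h2, Finset.sum_div]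
      refine Finset.sum_congr rfl fun k _ => ?_
      field_simp
    obtain ⟨κ₀, κ₁, hκ⟩ := Suf_lin P _ h3
    exact ⟨κ₀, κ₁, fun y => (h2 y).trans (hκ y)⟩
  obtain ⟨i, hi, hia⟩ : ∃ i : Fin n → Fin n, Function.Injective i ∧
      ∀ k, r 0 k = (a (i k) : ℂ) := by
    have h3 : ∀ k, ∃ i, x k 1 0 = a i ^ 2 := by
      intro k
      have h4 := hcur 1 0 zero_le_one le_rfl (Or.inl one_ne_zero) k
      rw [hg.ra] at h4
      obtain ⟨i, -, hi⟩ := Finset.prod_eq_zero_iff.1 h4
      exact ⟨i, sub_eq_zero.1 hi⟩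
    choose i hi using h3
    refine ⟨i, ?_, ?_⟩
    · intro k l hkl
      apply (hx.mono 1 0 zero_le_one le_rfl (Or.inl one_ne_zero)).injective
      simp only
      rw [hi, hi, hkl]
    · intro k
      have h4 := nf.sa (i k)
      have h5 : (val ζ 0 1 0 : ℂ) ≠ 0 := by
        exact_mod_cast (nf.pos 1 0 zero_le_one le_rfl (Or.inl one_ne_zero)).ne'
      rw [hr]
      simp only [ne_eq, OfNat.ofNat_ne_zero, not_false_eq_true, zero_pow, Complex.ofReal_zero,
        mul_zero, zero_mul, add_zero]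
      rw [hi, h4, nf.ζx (a (i k) ^ 2) 1 0, one_mul, Complex.ofReal_mul, mul_div_assoc,
        div_self h5, mul_one]
  have h5 : ∀ f : U, E 0 f = 0 → f = 0 := by
    intro f hf
    apply Subtype.ext
    refine Suf_zero (fun k y => x k 1 (y ^ 2)) (fun y => (hx.mono 1 (y ^ 2) (hy2 y).1 (hy2 y).2.1
      (hy2 y).2.2).injective) f (hU f f.2).2.1 fun y k => ?_
    have h6 := h1 f f y
    rw [hf] at h6
    simp only [Pi.zero_apply, zero_mul, Finset.sum_const_zero, Complex.mul_conj] at h6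
    have h7 : ∑ k, Complex.normSq (E y f k) = 0 := by exact_mod_cast h6
    rw [Finset.sum_eq_zero_iff_of_nonneg (fun _ _ => Complex.normSq_nonneg _)] at h7
    have h8 := Complex.normSq_eq_zero.1 (h7 k (Finset.mem_univ k))
    rw [hE] at h8
    refine (mul_eq_zero.1 h8).resolve_left ?_
    exact_mod_cast (Real.sqrt_pos.2 (hwp y k)).ne'
  have hrx : ∀ y k, ‖r y k‖ ^ 2 = x k 1 (y ^ 2) := by
    intro y k
    have h3 : val ζ (x k 1 (y ^ 2)) 1 (y ^ 2) ≠ 0 :=
      (hζp 1 (y ^ 2) (hy2 y).1 (hy2 y).2.1 (hy2 y).2.2 _).ne'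
    obtain ⟨q, hq⟩ := nf.rel
    have h4 := congrArg (fun P => val P (x k 1 (y ^ 2)) 1 (y ^ 2)) hq
    have h6 := hcur 1 (y ^ 2) (hy2 y).1 (hy2 y).2.1 (hy2 y).2.2 k
    have h7 : val (R * q) (x k 1 (y ^ 2)) 1 (y ^ 2) = val R (x k 1 (y ^ 2)) 1 (y ^ 2) *
        val q (x k 1 (y ^ 2)) 1 (y ^ 2) := by simp [val]
    have h8 : val (MvPolynomial.X 1 * α ^ 2 + MvPolynomial.X 2 * β ^ 2 -
        MvPolynomial.X 0 * ζ ^ 2) (x k 1 (y ^ 2)) 1 (y ^ 2) =
        val α (x k 1 (y ^ 2)) 1 (y ^ 2) ^ 2 + y ^ 2 * val β (x k 1 (y ^ 2)) 1 (y ^ 2) ^ 2 -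
          x k 1 (y ^ 2) * val ζ (x k 1 (y ^ 2)) 1 (y ^ 2) ^ 2 := by
      simp [val]
    rw [h7, h8, h6, zero_mul] at h4
    have h9 : ((val α (x k 1 (y ^ 2)) 1 (y ^ 2) : ℂ) +
        Complex.I * y * (val β (x k 1 (y ^ 2)) 1 (y ^ 2) : ℂ)) =
        (val α (x k 1 (y ^ 2)) 1 (y ^ 2) : ℂ) +
          ((y * val β (x k 1 (y ^ 2)) 1 (y ^ 2) : ℝ) : ℂ) * Complex.I := by
      push_cast
      ring
    rw [hr]
    simp only
    rw [← Complex.normSq_eq_norm_sq, h9, Complex.normSq_div, Complex.normSq_add_mul_I,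
      Complex.normSq_ofReal, div_eq_iff (mul_ne_zero h3 h3)]
    linarith
  have hend : ∀ k, Tendsto (fun y : ℝ => r y k / (Complex.I * y)) atTop
      (𝓝 ((((-1 : ℝ) ^ n : ℝ) : ℂ) * ((b (j k) : ℝ) : ℂ))) := by
    intro k
    rw [hr]
    have h3 := (hjl k).2
    push_cast
    exact h3
  have k1 := hLA n (fun k => a (i k)) (fun k => b (j k)) U hUdim E r E' ((-1) ^ n)
  clear hLA
  have k2 := k1 h1 h2 hrn hia h5 (neg_one_pow_eq_or ℝ n) hE1 hE2 hend
  clear k1
  obtain ⟨A, B, hA, hB, hAB⟩ := k2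
  have hD : DetR R A B := by
    refine Suf_det R hg.hom A B fun y u => ?_
    rw [hAB]
    have h3 := Suf_cx R 1 (y ^ 2) (fun k => x k 1 (y ^ 2))
      (hx.prod 1 (y ^ 2) (hy2 y).1 (hy2 y).2.1 (hy2 y).2.2) u
    rw [Complex.ofReal_one, Complex.ofReal_pow] at h3
    rw [h3]
    exact Finset.prod_congr rfl fun k _ => by rw [hrx]
  have e1 := Suf_perm A a i hi hA
  have e2 := Suf_perm B b j hj hB
  have e3 := Suf_sing R A B hD hA.1 hB.1 s hg.s0 hg.rs
  exact ⟨A, B, e1, e2, e3, hD⟩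

end Pool.Agent.RSV
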