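import Pool.Agent.RSV.StA

/-!
# RSV, module Sw: exchange of `Y` and `Z`
-/

set_option autoImplicit false

namespace Pool.Agent.RSV

open MvPolynomial Filter Topology

private lemma Sw_val (R : TP) (x y z : ℝ) : val (swp R) x y z = val R x z y := by
  unfold val swp
  rw [eval_rename]
  congr 2
  funext i
  fin_cases i
  · rfl
  · rfl
  · rfl

private lemma Sw_swp (R : TP) : swp (swp R) = R := by
  unfold swp
  rw [rename_rename]
  have h : (⇑(Equiv.swap (1 : Fin 3) 2) ∘ ⇑(Equiv.swap (1 : Fin 3) 2)) = id := by
    funext i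
    simp
  rw [h, rename_id]
  rfl

private lemma Sw_pderiv (R : TP) (i : Fin 3) :
    pderiv (Equiv.swap (1 : Fin 3) 2 i) (swp R) = swp (pderiv i R) := by
  unfold swp
  exact pderiv_rename (Equiv.injective _) i R

private lemma Sw_homog {R : TP} {n : ℕ} (h : R.IsHomogeneous n) (c x y z : ℝ) :
    val R (c * x) (c * y) (c * z) = c ^ n * val R x y z := by
  unfold val
  rw [eval_eq', eval_eq', Finset.mul_sum]
  apply Finset.sum_congr rfl
  intro d hd
  have h1 : ∑ i, d i = n := by
    have h2 := h (mem_support_iff.1 hd)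
    rw [Finsupp.weight_apply, Finsupp.sum_fintype] at h2
    · simpa using h2
    · intro i
      simp
  rw [Fin.prod_univ_three, Fin.prod_univ_three, ← h1, Fin.sum_univ_three]
  simp only [Matrix.cons_val_zero, Matrix.cons_val_one, Matrix.cons_val]
  rw [mul_pow, mul_pow, mul_pow, pow_add, pow_add]
  ring

private lemma Sw_euler {R : TP} {n : ℕ} (h : R.IsHomogeneous n) (x y z : ℝ) :
    x * val (pderiv 0 R) x y z + y * val (pderiv 1 R) x y z + z * val (pderiv 2 R) x y z =
      n * val R x y z := by
  have h1 := congrArg (eval ![x, y, z]) h.sum_X_mul_pderiv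
  rw [Fin.sum_univ_three] at h1
  simp only [map_add, map_mul, eval_X, Matrix.cons_val_zero, Matrix.cons_val_one, Matrix.cons_val,
    map_nsmul, nsmul_eq_mul, map_natCast] at h1
  exact h1

private lemma Sw_smooth {R : TP} (h : Smooth R) : Smooth (swp R) := by
  intro v hv h0
  have e : ∀ P : TP, aeval v (swp P) = aeval (v ∘ Equiv.swap (1 : Fin 3) 2) P := by
    intro P
    unfold swp
    rw [aeval_rename]
  rw [e] at h0
  have hv' : v ∘ Equiv.swap (1 : Fin 3) 2 ≠ 0 := by
    intro h1
    apply hv
    funext i
    have h2 := congrFun h1 (Equiv.swap (1 : Fin 3) 2 i)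
    simpa using h2
  obtain ⟨i, hi⟩ := h _ hv' h0
  refine ⟨Equiv.swap (1 : Fin 3) 2 i, ?_⟩
  rw [Sw_pderiv, e]
  exact hi

private lemma Sw_bpos {n : ℕ} {R : TP} {a b s : Fin n → ℝ} (h : Good R a b s) (j : Fin n) :
    0 < b j ^ 2 := by
  obtain ⟨f, hf, hp⟩ := h.hyp 0 1 le_rfl zero_le_one (Or.inr one_ne_zero)
  have h1 : ∀ k, ∃ j, f k = b j ^ 2 := by
    intro k
    have h2 := (hp k).2
    rw [h.rb, Finset.prod_eq_zero_iff] at h2
    obtain ⟨j, _, hj⟩ := h2
    exact ⟨j, by linarith⟩
  choose g hg using h1
  have hgi : Function.Injective g := by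
    intro k l hkl
    apply hf
    rw [hg, hg, hkl]
  obtain ⟨k, hk⟩ := (Finite.surjective_of_injective hgi) j
  rw [← hk, ← hg]
  exact (hp k).1

private lemma Sw_tr {n : ℕ} {R : TP} {a b s : Fin n → ℝ} (h : Good R a b s) (z : ℝ)
    (h0 : val R 0 z 1 = 0) : val (pderiv 1 R) 0 z 1 ≠ 0 := by
  intro h1
  have hz : z ≠ 0 := by
    rintro rfl
    rw [h.rb, Finset.prod_eq_zero_iff] at h0
    obtain ⟨j, _, hj⟩ := h0
    have := Sw_bpos h j
    linarith
  have h2 := Sw_euler h.hom 0 z 1
  rw [h0, h1] at h2
  have h3 : val (pderiv 2 R) 0 z 1 = 0 := by linarith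
  have e1 : ∀ {P : TP} {m : ℕ}, P.IsHomogeneous m → val P 0 z 1 = z ^ m * val P 0 1 (1 / z) := by
    intro P m hP
    have h4 := Sw_homog hP z 0 1 (1 / z)
    rw [mul_zero, mul_one, mul_one_div_cancel hz] at h4
    exact h4
  have h5 : val R 0 1 (1 / z) = 0 := by
    have h6 := e1 h.hom
    rw [h0] at h6
    exact (mul_eq_zero.1 h6.symm).resolve_left (pow_ne_zero _ hz)
  have h7 : val (pderiv 2 R) 0 1 (1 / z) = 0 := by
    have h8 := e1 (h.hom.pderiv (i := 2))
    rw [h3] at h8
    exact (mul_eq_zero.1 h8.symm).resolve_left (pow_ne_zero _ hz)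
  exact h.tr _ h5 h7

theorem thm_Sw : St_Sw := by
  refine ⟨?_, ?_, Sw_swp⟩
  · intro n R a b s h
    have hp : pderiv 2 (swp R) = swp (pderiv 1 R) := by
      have := Sw_pderiv R 1
      rwa [Equiv.swap_apply_left] at this
    exact
      { hom := by
          unfold swp
          exact h.hom.rename_isHomogeneous
        ra := fun t => by rw [Sw_val, h.rb]
        rb := fun t => by rw [Sw_val, h.ra]
        rs := fun t => by rw [Sw_val, h.rs]
        s0 := h.s0
        smooth := Sw_smooth h.smooth
        hyp := fun y z hy hz hyz => by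
          obtain ⟨f, hf, hf2⟩ := h.hyp z y hz hy hyz.symm
          refine ⟨f, hf, fun k => ⟨(hf2 k).1, ?_⟩⟩
          rw [Sw_val]
          exact (hf2 k).2
        tr := fun z hz => by
          rw [Sw_val] at hz
          rw [hp, Sw_val]
          exact Sw_tr h z hz
        ca := h.cb
        cb := by
          rw [Sw_swp]
          exact h.ca }
  · intro n R a b d α β ζ ε δ h
    exact
      { hα := by
          unfold swp
          exact h.hβ.rename_isHomogeneous
        hβ := by
          unfold swp
          exact h.hα.rename_isHomogeneous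
        hζ := by
          unfold swp
          exact h.hζ.rename_isHomogeneous
        ζx := fun x y z => by rw [Sw_val, Sw_val, h.ζx]
        pos := fun y z hy hz hyz => by
          rw [Sw_val]
          exact h.pos z y hz hy hyz.symm
        rel := by
          have h1 := map_dvd (rename (R := ℝ) (Equiv.swap (1 : Fin 3) 2)) h.rel
          rw [map_sub, map_add, map_mul, map_mul, map_mul, map_pow, map_pow, map_pow, rename_X,
            rename_X, rename_X, Equiv.swap_apply_left, Equiv.swap_apply_right,
            Equiv.swap_apply_of_ne_of_ne (by decide) (by decide), add_comm (X 2 * _)] at h1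
          exact h1
        hε := h.hδ
        hδ := h.hε
        sa := fun i => by
          rw [Sw_val, Sw_val]
          exact h.sb i
        sb := fun i => by
          rw [Sw_val, Sw_val]
          exact h.sa i }

end Pool.Agent.RSV
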