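import Pool.Agent.RSV.StD

/-!
# RSV, module Sym (helper89): the two symmetries
-/

set_option autoImplicit false

namespace Pool.Agent.RSV

open MvPolynomial Filter Topology Module
open scoped ComplexConjugate

/-- `ss` as a ring homomorphism -/
private noncomputable def ssH : BC →+* BC := Polynomial.mapRingHom (Polynomial.compRingHom (-Polynomial.X))

/-- `cj` as a ring homomorphism -/
private noncomputable def cjH : BC →+* BC :=
  Polynomial.mapRingHom (Polynomial.mapRingHom (starRingEnd ℂ))

private theorem ssH_apply (f : BC) : ssH f = ss f := rfl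

private theorem cjH_apply (f : BC) : cjH f = cj f := rfl

private theorem ss_comp :
    (Polynomial.compRingHom (-Polynomial.X : Polynomial ℂ)).comp
      (Polynomial.compRingHom (-Polynomial.X)) = RingHom.id _ := by
  refine Polynomial.ringHom_ext (fun a => ?_) ?_
  · simp
  · simp

private theorem cj_comp :
    (Polynomial.mapRingHom (starRingEnd ℂ)).comp (Polynomial.mapRingHom (starRingEnd ℂ)) =
      RingHom.id _ := by
  refine Polynomial.ringHom_ext (fun a => ?_) ?_
  · simp
  · simp

private theorem sc_comp :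
    (Polynomial.compRingHom (-Polynomial.X : Polynomial ℂ)).comp
      (Polynomial.mapRingHom (starRingEnd ℂ)) =
    (Polynomial.mapRingHom (starRingEnd ℂ)).comp
      (Polynomial.compRingHom (-Polynomial.X : Polynomial ℂ)) := by
  refine Polynomial.ringHom_ext (fun a => ?_) ?_
  · simp
  · simp

private theorem ss_ss (f : BC) : ss (ss f) = f := by
  unfold ss
  rw [Polynomial.map_map, ss_comp, Polynomial.map_id]

private theorem cj_cj (f : BC) : cj (cj f) = f := by
  unfold cj
  rw [Polynomial.map_map, cj_comp, Polynomial.map_id]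

private theorem ss_cj (f : BC) : ss (cj f) = cj (ss f) := by
  unfold ss cj
  rw [Polynomial.map_map, Polynomial.map_map, sc_comp]

private theorem ss_chc (G : TP) : ss (chc G) = chc G := by
  have h : ssH.comp (eval₂Hom ((Polynomial.C).comp ((Polynomial.C).comp (algebraMap ℝ ℂ)))
      (![Polynomial.X, 1, Polynomial.C (Polynomial.X ^ 2)] : Fin 3 → BC)) =
      eval₂Hom ((Polynomial.C).comp ((Polynomial.C).comp (algebraMap ℝ ℂ)))
      (![Polynomial.X, 1, Polynomial.C (Polynomial.X ^ 2)] : Fin 3 → BC) := by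
    refine MvPolynomial.ringHom_ext (fun r => ?_) (fun i => ?_)
    · simp [ssH]
    · fin_cases i
      · simp [ssH]
      · simp [ssH]
      · simp [ssH]
        ring
  exact RingHom.congr_fun h G

private theorem cj_chc (G : TP) : cj (chc G) = chc G := by
  have h : cjH.comp (eval₂Hom ((Polynomial.C).comp ((Polynomial.C).comp (algebraMap ℝ ℂ)))
      (![Polynomial.X, 1, Polynomial.C (Polynomial.X ^ 2)] : Fin 3 → BC)) =
      eval₂Hom ((Polynomial.C).comp ((Polynomial.C).comp (algebraMap ℝ ℂ)))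
      (![Polynomial.X, 1, Polynomial.C (Polynomial.X ^ 2)] : Fin 3 → BC) := by
    refine MvPolynomial.ringHom_ext (fun r => ?_) (fun i => ?_)
    · simp [cjH]
    · fin_cases i
      · simp [cjH]
      · simp [cjH]
      · simp [cjH]
  exact RingHom.congr_fun h G

/-- the automorphism of the quotient given by an involution which fixes `F` -/
private theorem exists_quot (F : BC) (φ : BC →+* BC) (hφ : ∀ f, φ (φ f) = f) (hF : φ F = F) :
    ∃ s : AdjoinRoot F ≃+* AdjoinRoot F, ∀ f : BC, s (AdjoinRoot.mk F f) = AdjoinRoot.mk F (φ f) := by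
  have h0 : AdjoinRoot.mk F F = 0 := AdjoinRoot.mk_self
  have hv : ∀ a : BC, a ∈ Ideal.span {F} → ((AdjoinRoot.mk F).comp φ) a = 0 := by
    intro a ha
    obtain ⟨b, rfl⟩ := Ideal.mem_span_singleton'.1 ha
    rw [RingHom.comp_apply, map_mul, map_mul, hF, h0, mul_zero]
  let σ : AdjoinRoot F →+* AdjoinRoot F := Ideal.Quotient.lift (Ideal.span {F})
    ((AdjoinRoot.mk F).comp φ) hv
  have hσ : ∀ f : BC, σ (AdjoinRoot.mk F f) = AdjoinRoot.mk F (φ f) := fun f =>
    Ideal.Quotient.lift_mk _ _ _
  have hσσ : ∀ x, σ (σ x) = x := by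
    intro x
    obtain ⟨f, rfl⟩ := AdjoinRoot.mk_surjective x
    rw [hσ, hσ, hφ]
  exact ⟨RingEquiv.ofRingHom σ σ (RingHom.ext hσσ) (RingHom.ext hσσ), hσ⟩

private theorem evc_ss (f : BC) (x y : ℂ) : evc (ss f) x y = evc f x (-y) := by
  unfold evc ss
  rw [Polynomial.map_map]
  congr 2
  refine Polynomial.ringHom_ext (fun a => ?_) ?_
  · simp
  · simp

private theorem evc_cj (f : BC) (x y : ℂ) : evc (cj f) x y = conj (evc f (conj x) (conj y)) := by
  have h1 : ∀ (g : Polynomial ℂ) (c : ℂ), conj (g.eval (conj c)) = (g.map (starRingEnd ℂ)).eval c := by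
    intro g c
    have h2 := Polynomial.eval_map_apply (f := starRingEnd ℂ) (p := g) (conj c)
    rw [Complex.conj_conj] at h2
    exact h2.symm
  unfold evc cj
  rw [h1, Polynomial.map_map, Polynomial.map_map]
  congr 2
  refine Polynomial.ringHom_ext (fun a => ?_) ?_
  · simp
  · simp

theorem thm_Sym : St_Sym := by
  intro R
  refine ⟨?_, fun G => ⟨ss_chc G, cj_chc G⟩, evc_ss, evc_cj⟩
  obtain ⟨s, hs⟩ := exists_quot (chc R) ssH ss_ss (ss_chc R)
  obtain ⟨τ, hτ⟩ := exists_quot (chc R) cjH cj_cj (cj_chc R)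
  refine ⟨s, τ, hs, hτ, ?_, ?_, ?_⟩
  · intro x
    obtain ⟨f, rfl⟩ := AdjoinRoot.mk_surjective x
    rw [hs, hs, ssH_apply, ssH_apply, ss_ss]
  · intro x
    obtain ⟨f, rfl⟩ := AdjoinRoot.mk_surjective x
    rw [hτ, hτ, cjH_apply, cjH_apply, cj_cj]
  · intro x
    obtain ⟨f, rfl⟩ := AdjoinRoot.mk_surjective x
    rw [hτ, hs, hs, hτ, ssH_apply, ssH_apply, cjH_apply, cjH_apply, ss_cj]

end Pool.Agent.RSV
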