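import Pool.Agent.RSV.StA

/-!
# RSV, [Tsn]: Tsen's theorem for a plane curve, by counting
-/

set_option autoImplicit false

namespace Pool.Agent.RSV

open Polynomial

private def T (f : BC) (c : ℕ) : Prop := ∀ i j, c < i + j → (f.coeff j).coeff i = 0

private lemma wd_iff (f : BC) (c : ℕ) : WD 1 f c ↔ T f c := by
  constructor
  · intro h i j hij
    by_contra hne
    have h0 : f.coeff j ≠ 0 := by
      intro h0
      exact hne (by rw [h0, coeff_zero])
    have h1 := h j h0
    have h2 := le_natDegree_of_ne_zero hne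
    omega
  · intro h j hj
    by_contra hlt
    push Not at hlt
    have := h (f.coeff j).natDegree j (by omega)
    exact hj (leadingCoeff_eq_zero.1 this)

private lemma T_mono {f : BC} {c c' : ℕ} (h : T f c) (hc : c ≤ c') : T f c' :=
  fun i j hij => h i j (lt_of_le_of_lt hc hij)

private lemma T_sub {f g : BC} {c : ℕ} (hf : T f c) (hg : T g c) : T (f - g) c := by
  intro i j hij
  rw [coeff_sub, coeff_sub, hf i j hij, hg i j hij, sub_zero]

private lemma T_add {f g : BC} {c : ℕ} (hf : T f c) (hg : T g c) : T (f + g) c := by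
  intro i j hij
  rw [coeff_add, coeff_add, hf i j hij, hg i j hij, add_zero]

private lemma T_sum {α : Type} (s : Finset α) (f : α → BC) {c : ℕ} (hf : ∀ a ∈ s, T (f a) c) :
    T (∑ a ∈ s, f a) c := by
  intro i j hij
  rw [finsetSum_coeff, finsetSum_coeff]
  exact Finset.sum_eq_zero fun a ha => hf a ha i j hij

private lemma T_mul {f g : BC} {a b : ℕ} (hf : T f a) (hg : T g b) : T (f * g) (a + b) := by
  intro i j hij
  rw [coeff_mul, finsetSum_coeff]
  refine Finset.sum_eq_zero fun x hx => ?_
  rw [coeff_mul]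
  refine Finset.sum_eq_zero fun y hy => ?_
  have h1 := Finset.HasAntidiagonal.mem_antidiagonal.1 hx
  have h2 := Finset.HasAntidiagonal.mem_antidiagonal.1 hy
  by_cases h : a < y.1 + x.1
  · rw [hf _ _ h, zero_mul]
  · rw [hg _ _ (by omega), mul_zero]

private lemma T_mon (a : ℂ[X]) (s c : ℕ) (h : a.natDegree + s ≤ c) : T (C a * X ^ s) c := by
  intro i j hij
  rw [coeff_C_mul, coeff_X_pow]
  by_cases hj : j = s
  · rw [if_pos hj, mul_one]
    exact coeff_eq_zero_of_natDegree_lt (by omega)
  · rw [if_neg hj, mul_zero, coeff_zero]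

private lemma T_ex (f : BC) : ∃ c, T f c := by
  refine ⟨∑ j ∈ f.support, ((f.coeff j).natDegree + j), ?_⟩
  rw [← wd_iff]
  intro j hj
  rw [one_mul]
  exact Finset.single_le_sum (f := fun j => (f.coeff j).natDegree + j) (fun _ _ => Nat.zero_le _)
    (mem_support_iff.2 hj)

private lemma T_mod (n : ℕ) (P : BC) (hP : P.Monic) (hn : P.natDegree = n) (hT : T P n) (D : ℕ) :
    ∀ (m : ℕ) (f : BC), f.degree < m → T f D → T (f %ₘ P) D := by
  intro m
  induction m with
  | zero =>
    intro f hf hD
    have h0 : f = 0 := by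
      rw [← degree_eq_bot]
      by_contra h
      have h1 : (0 : WithBot ℕ) ≤ f.degree := zero_le_degree_iff.2 (fun h' => h (degree_eq_bot.2 h'))
      exact absurd (lt_of_le_of_lt h1 hf) (by norm_num)
    rw [h0, zero_modByMonic]
    intro i j _
    simp
  | succ m ih =>
    intro f hf hD
    by_cases hlt : f.degree < P.degree
    · rw [(modByMonic_eq_self_iff hP).2 hlt]
      exact hD
    push Not at hlt
    have hf0 : f ≠ 0 := by
      rintro rfl
      rw [degree_zero, le_bot_iff, degree_eq_bot] at hlt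
      exact hP.ne_zero hlt
    have hk : n ≤ f.natDegree := by
      rw [← hn]
      exact natDegree_le_natDegree hlt
    have hD2 : f.leadingCoeff.natDegree + f.natDegree ≤ D := by
      have := (wd_iff f D).2 hD f.natDegree (by
        rw [coeff_natDegree]
        exact leadingCoeff_ne_zero.2 hf0)
      rw [coeff_natDegree, one_mul] at this
      exact this
    have hdec := div_wf_lemma ⟨hlt, hf0⟩ hP
    have hT2 : T (P * (C f.leadingCoeff * X ^ (f.natDegree - P.natDegree))) D := by
      refine T_mono (T_mul hT (T_mon f.leadingCoeff (f.natDegree - P.natDegree) (D - n) ?_)) ?_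
      · omega
      · omega
    have hres := ih (f - P * (C f.leadingCoeff * X ^ (f.natDegree - P.natDegree)))
      (lt_of_lt_of_le hdec (by
        have : f.degree < ((m + 1 : ℕ) : WithBot ℕ) := hf
        rw [degree_eq_natDegree hf0] at this ⊢
        have h3 : f.natDegree < m + 1 := by exact_mod_cast this
        exact_mod_cast (Nat.lt_succ_iff.1 h3)))
      (T_sub hD hT2)
    have heq : (f - P * (C f.leadingCoeff * X ^ (f.natDegree - P.natDegree))) %ₘ P = f %ₘ P := by
      rw [sub_modByMonic, (modByMonic_eq_zero_iff_dvd hP).2 (dvd_mul_right P _), sub_zero]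
    rwa [heq] at hres

private lemma quad (hC : St_Cz) {ι κ : Type} [Fintype ι] [Fintype κ]
    (h : Fintype.card κ < Fintype.card ι) (g : κ → ι → ι → ℂ) :
    ∃ v : ι → ℂ, v ≠ 0 ∧ ∀ k, ∑ i, ∑ j, g k i j * (v i * v j) = 0 := by
  classical
  obtain ⟨v, hv, h0⟩ := hC (Fintype.card ι) (Fintype.card κ)
    (fun k => ∑ i, ∑ j, MvPolynomial.C (g ((Fintype.equivFin κ).symm k) i j) *
      (MvPolynomial.X (Fintype.equivFin ι i) * MvPolynomial.X (Fintype.equivFin ι j))) h
    (fun k => ⟨2, by norm_num, by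
      refine MvPolynomial.IsHomogeneous.sum _ _ _ fun i _ => ?_
      refine MvPolynomial.IsHomogeneous.sum _ _ _ fun j _ => ?_
      exact MvPolynomial.IsHomogeneous.C_mul
        ((MvPolynomial.isHomogeneous_X _ _).mul (MvPolynomial.isHomogeneous_X _ _)) _⟩)
  refine ⟨fun i => v (Fintype.equivFin ι i), ?_, ?_⟩
  · intro hz
    apply hv
    funext x
    have := congrFun hz ((Fintype.equivFin ι).symm x)
    simpa using this
  · intro k
    have := h0 (Fintype.equivFin κ k)
    simpa using this

/-- the functional `f ↦` coefficient of `x ^ j z ^ i` in `f %ₘ P` -/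
private noncomputable def L (P : BC) (i j : ℕ) : BC →+ ℂ :=
  ((lcoeff ℂ i).toAddMonoidHom.comp (lcoeff ℂ[X] j).toAddMonoidHom).comp
    (modByMonicHom P).toAddMonoidHom

private lemma L_apply (P : BC) (i j : ℕ) (f : BC) : L P i j f = ((f %ₘ P).coeff j).coeff i := rfl

private lemma L_smul (P : BC) (i j : ℕ) (c : ℂ) (f : BC) : L P i j (C (C c) * f) = c * L P i j f := by
  rw [L_apply, L_apply, ← smul_eq_C_mul, smul_modByMonic, coeff_smul, smul_eq_mul, coeff_C_mul]

theorem thm_Tsn : St_Cz → St_Tsn := by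
  intro hC n P hn1 hP hn hW c₁ c₂ c₃
  classical
  have hT : T P n := (wd_iff P n).1 hW
  obtain ⟨e₁, he₁⟩ := T_ex c₁
  obtain ⟨e₂, he₂⟩ := T_ex c₂
  obtain ⟨e₃, he₃⟩ := T_ex c₃
  let e := e₁ + e₂ + e₃
  let c : Fin 3 → BC := ![c₁, c₂, c₃]
  have hc : ∀ k, T (c k) e := by
    intro k
    fin_cases k
    · exact T_mono he₁ (by omega)
    · exact T_mono he₂ (by omega)
    · exact T_mono he₃ (by omega)
  let d := e + 2 * n
  let b : (Σ j : Fin n, Fin (d + 1 - j)) → BC := fun a => C (X ^ (a.2 : ℕ)) * X ^ (a.1 : ℕ)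
  have hb : ∀ a, T (b a) d := by
    intro a
    refine T_mon _ _ _ ?_
    rw [natDegree_X_pow]
    have := a.2.2
    omega
  let g : (Σ j : Fin n, Fin (2 * d + e + 1 - j)) → (Fin 3 × Σ j : Fin n, Fin (d + 1 - j)) →
      (Fin 3 × Σ j : Fin n, Fin (d + 1 - j)) → ℂ := fun t x y =>
    if x.1 = y.1 then L P t.2 t.1 (c x.1 * (b x.2 * b y.2)) else 0
  have hcard : Fintype.card (Σ j : Fin n, Fin (2 * d + e + 1 - j)) <
      Fintype.card (Fin 3 × Σ j : Fin n, Fin (d + 1 - j)) := by
    rw [Fintype.card_prod, Fintype.card_sigma, Fintype.card_sigma, Fintype.card_fin, Finset.mul_sum]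
    have : Nonempty (Fin n) := ⟨⟨0, hn1⟩⟩
    refine Finset.sum_lt_sum_of_nonempty Finset.univ_nonempty fun j _ => ?_
    rw [Fintype.card_fin, Fintype.card_fin]
    have := j.2
    omega
  obtain ⟨v, hv, h0⟩ := quad hC hcard g
  let p : Fin 3 → BC := fun k => ∑ a, C (C (v (k, a))) * b a
  have hpc : ∀ (k : Fin 3) (j i : ℕ), ((p k).coeff j).coeff i =
      ∑ a : (Σ j : Fin n, Fin (d + 1 - j)),
        if (a.1 : ℕ) = j ∧ (a.2 : ℕ) = i then v (k, a) else 0 := by
    intro k j i
    simp only [p, b]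
    rw [finsetSum_coeff, finsetSum_coeff]
    refine Finset.sum_congr rfl fun a _ => ?_
    rw [coeff_C_mul, coeff_C_mul, coeff_C_mul, coeff_X_pow]
    by_cases h1 : (a.1 : ℕ) = j
    · rw [if_pos h1.symm, mul_one, coeff_X_pow]
      by_cases h2 : (a.2 : ℕ) = i
      · rw [if_pos h2.symm, if_pos ⟨h1, h2⟩, mul_one]
      · rw [if_neg (fun h => h2 h.symm), if_neg (fun h => h2 h.2), mul_zero]
    · rw [if_neg (fun h => h1 h.symm), if_neg (fun h => h1 h.1), mul_zero, coeff_zero, mul_zero]
  have hpdeg : ∀ k, (p k).degree < P.degree := by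
    intro k
    rw [degree_eq_natDegree hP.ne_zero, hn, degree_lt_iff_coeff_zero]
    intro j hj
    ext i
    rw [hpc, coeff_zero]
    refine Finset.sum_eq_zero fun a _ => ?_
    rw [if_neg]
    rintro ⟨h1, _⟩
    have := a.1.2
    omega
  have hkey : ∀ k, P ∣ p k → ∀ a, v (k, a) = 0 := by
    intro k hk a
    have hz : p k = 0 := by
      by_contra hne
      exact absurd (degree_le_of_dvd hk hne) (not_le.2 (hpdeg k))
    have h1 := hpc k a.1 a.2
    rw [hz, coeff_zero, coeff_zero] at h1
    rw [h1, Finset.sum_eq_single a]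
    · rw [if_pos ⟨rfl, rfl⟩]
    · intro a' _ hne
      rw [if_neg]
      rintro ⟨h2, h3⟩
      apply hne
      obtain ⟨j, i⟩ := a
      obtain ⟨j', i'⟩ := a'
      simp only at h2 h3
      have h4 : j' = j := Fin.ext h2
      subst h4
      have h5 : i' = i := Fin.ext h3
      rw [h5]
    · intro h
      exact absurd (Finset.mem_univ a) h
  refine ⟨p 0, p 1, p 2, ?_, ?_⟩
  · rintro ⟨h1, h2, h3⟩
    apply hv
    funext x
    obtain ⟨k, a⟩ := x
    fin_cases k
    · exact hkey 0 h1 a
    · exact hkey 1 h2 a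
    · exact hkey 2 h3 a
  · have hQ : c₁ * p 0 ^ 2 + c₂ * p 1 ^ 2 + c₃ * p 2 ^ 2 = ∑ k, c k * p k ^ 2 := by
      rw [Fin.sum_univ_three]
      rfl
    rw [hQ, ← modByMonic_eq_zero_iff_dvd hP]
    have hpT : ∀ k, T (p k) d := by
      intro k
      refine T_sum _ _ fun a _ => ?_
      have h1 : T (C (C (v (k, a))) : BC) 0 := by
        have := T_mon (C (v (k, a))) 0 0 (by rw [natDegree_C])
        rwa [pow_zero, mul_one] at this
      have := T_mul h1 (hb a)
      rwa [zero_add] at this
    have hQT : T (∑ k, c k * p k ^ 2) (2 * d + e) := by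
      refine T_sum _ _ fun k _ => ?_
      rw [pow_two]
      exact T_mono (T_mul (hc k) (T_mul (hpT k) (hpT k))) (by omega)
    have hQM : T ((∑ k, c k * p k ^ 2) %ₘ P) (2 * d + e) := by
      refine T_mod n P hP hn hT (2 * d + e) ((∑ k, c k * p k ^ 2).natDegree + 1) _ ?_ hQT
      refine lt_of_le_of_lt degree_le_natDegree ?_
      exact_mod_cast Nat.lt_succ_self _
    ext j i
    rw [coeff_zero, coeff_zero]
    by_cases hj : n ≤ j
    · have hdeg : ((∑ k, c k * p k ^ 2) %ₘ P).degree < P.degree := degree_modByMonic_lt _ hP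
      have hPj : P.degree ≤ (j : WithBot ℕ) := by
        rw [degree_eq_natDegree hP.ne_zero, hn]
        exact_mod_cast hj
      have h9 : ((∑ k, c k * p k ^ 2) %ₘ P).coeff j = 0 :=
        coeff_eq_zero_of_degree_lt (lt_of_lt_of_le hdeg hPj)
      rw [h9, coeff_zero]
    push Not at hj
    by_cases hij : 2 * d + e < i + j
    · exact hQM i j hij
    push Not at hij
    have heq := h0 ⟨⟨j, hj⟩, ⟨i, by
      change i < 2 * d + e + 1 - j
      omega⟩⟩
    rw [← L_apply, map_sum]
    rw [← heq, Fintype.sum_prod_type]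
    refine Finset.sum_congr rfl fun k _ => ?_
    have hexp : c k * p k ^ 2 = ∑ a, ∑ a', C (C (v (k, a) * v (k, a'))) * (c k * (b a * b a')) := by
      simp only [p]
      rw [pow_two, Finset.sum_mul_sum, Finset.mul_sum]
      refine Finset.sum_congr rfl fun a _ => ?_
      rw [Finset.mul_sum]
      refine Finset.sum_congr rfl fun a' _ => ?_
      rw [C_mul, C_mul]
      ring
    rw [hexp, map_sum]
    refine Finset.sum_congr rfl fun a _ => ?_
    rw [map_sum, Fintype.sum_prod_type, Finset.sum_eq_single k]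
    · refine Finset.sum_congr rfl fun a' _ => ?_
      simp only [g, if_true]
      rw [L_smul]
      ring
    · intro k' _ hk'
      refine Finset.sum_eq_zero fun a' _ => ?_
      simp only [g]
      rw [if_neg (fun h => hk' h.symm), zero_mul]
    · intro h
      exact absurd (Finset.mem_univ k) h

end Pool.Agent.RSV
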