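import Pool.Agent.RSV.StA

/-!
# RSV, module Tw: change of signs (helper78)
-/

set_option autoImplicit false

namespace Pool.Agent.RSV

open MvPolynomial

private lemma Tw_sq_inj {n : ℕ} {R : TP} {a b s : Fin n → ℝ} (hG : Good R a b s) :
    Function.Injective fun i => a i ^ 2 := by
  obtain ⟨f, hf, h⟩ := hG.hyp 1 0 (by norm_num) le_rfl (Or.inl one_ne_zero)
  have h1 : ∀ k, ∃ i, f k = a i ^ 2 := by
    intro k
    have h2 := (h k).2
    rw [hG.ra, Finset.prod_eq_zero_iff] at h2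
    obtain ⟨i, _, hi⟩ := h2
    exact ⟨i, by linarith⟩
  choose g hg using h1
  have hgi : Function.Injective g := by
    intro x y hxy
    apply hf
    rw [hg, hg, hxy]
  have hgs : Function.Surjective g := Finite.surjective_of_injective hgi
  intro i k hik
  obtain ⟨i', rfl⟩ := hgs i
  obtain ⟨k', rfl⟩ := hgs k
  have h3 : f i' = f k' := by rw [hg, hg]; exact hik
  rw [hf h3]

/-- the form with the given zeros -/
private noncomputable def Tw_h {n : ℕ} (a : Fin n → ℝ) (J : Finset (Fin n)) : TP :=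
  X 0 ^ (n + 1 - J.card) * ∏ i ∈ J, (X 0 - C (a i ^ 2) * X 1)

private lemma Tw_h_hom {n : ℕ} (a : Fin n → ℝ) (J : Finset (Fin n)) :
    (Tw_h a J).IsHomogeneous (n + 1) := by
  have h1 : (X 0 ^ (n + 1 - J.card) : TP).IsHomogeneous (1 * (n + 1 - J.card)) :=
    (isHomogeneous_X ℝ 0).pow _
  have h2 : (∏ i ∈ J, (X 0 - C (a i ^ 2) * X 1) : TP).IsHomogeneous (∑ i ∈ J, 1) :=
    IsHomogeneous.prod _ _ _ fun i _ => (isHomogeneous_X ℝ 0).sub (isHomogeneous_C_mul_X _ _)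
  have h3 := h1.mul h2
  have h4 : J.card ≤ n := by
    have := Finset.card_le_univ J
    simpa using this
  have h5 : 1 * (n + 1 - J.card) + ∑ i ∈ J, 1 = n + 1 := by
    rw [Finset.sum_const, smul_eq_mul]
    omega
  rw [h5] at h3
  exact h3

private lemma Tw_h_val {n : ℕ} (a : Fin n → ℝ) (J : Finset (Fin n)) (x y z : ℝ) :
    val (Tw_h a J) x y z = x ^ (n + 1 - J.card) * ∏ i ∈ J, (x - a i ^ 2 * y) := by
  simp only [val, Tw_h, map_mul, map_pow, map_prod, map_sub, eval_X, eval_C]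
  rfl

/-- the derivative at a point in the direction of the tangent -/
private noncomputable def Tw_D (R : TP) (v : Fin 3 → ℝ) (f : TP) : ℝ :=
  eval v (pderiv 0 R) * eval v (pderiv 2 f) - eval v (pderiv 2 R) * eval v (pderiv 0 f)

private lemma Tw_D_mul (R : TP) (v : Fin 3 → ℝ) (f g : TP) :
    Tw_D R v (f * g) = Tw_D R v f * eval v g + eval v f * Tw_D R v g := by
  simp only [Tw_D, Derivation.leibniz, smul_eq_mul, map_add, map_mul]
  ring

private lemma Tw_D_add (R : TP) (v : Fin 3 → ℝ) (f g : TP) :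
    Tw_D R v (f + g) = Tw_D R v f + Tw_D R v g := by
  simp only [Tw_D, map_add]
  ring

private lemma Tw_D_sub (R : TP) (v : Fin 3 → ℝ) (f g : TP) :
    Tw_D R v (f - g) = Tw_D R v f - Tw_D R v g := by
  simp only [Tw_D, map_sub]
  ring

private lemma Tw_D_self (R : TP) (v : Fin 3 → ℝ) : Tw_D R v R = 0 := by
  simp only [Tw_D]
  ring

private lemma Tw_D_X2 (R : TP) (v : Fin 3 → ℝ) : Tw_D R v (X 2) = eval v (pderiv 0 R) := by
  have h1 : pderiv (2 : Fin 3) (X 2 : TP) = 1 := pderiv_X_self 2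
  have h2 : pderiv (0 : Fin 3) (X 2 : TP) = 0 := pderiv_X_of_ne (by decide)
  simp only [Tw_D, h1, h2, map_one, map_zero]
  ring

theorem thm_Tw : St_NF0 → St_Tw := by
  intro hNF0 n R a b s hn hG d α β ζ ε δ hN ε' hε'
  classical
  set J : Finset (Fin n) := Finset.univ.filter fun i => ε' i ≠ ε i with hJ
  set h₁ : TP := Tw_h a J with hh₁
  set h₂ : TP := X 0 ^ n with hh₂
  have hom1 : h₁.IsHomogeneous (n + 1) := Tw_h_hom a J
  have hom2 : h₂.IsHomogeneous n := by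
    have := (isHomogeneous_X ℝ (0 : Fin 3)).pow n
    rwa [one_mul] at this
  have hX0 : (X 0 : TP).IsHomogeneous 1 := isHomogeneous_X ℝ 0
  have hX1 : (X 1 : TP).IsHomogeneous 1 := isHomogeneous_X ℝ 1
  have hX2 : (X 2 : TP).IsHomogeneous 1 := isHomogeneous_X ℝ 2
  set A : TP := h₁ * h₁ - X 1 * X 2 * (h₂ * h₂) with hA
  set S : TP := h₁ * h₁ + X 1 * X 2 * (h₂ * h₂) with hS
  set B : TP := C 2 * (h₁ * h₂) with hB
  have e1 : n + 1 + (n + 1) = 2 * n + 2 := by ring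
  have e2 : 1 + 1 + (n + n) = 2 * n + 2 := by ring
  have e3 : 0 + (n + 1 + n) = 2 * n + 1 := by ring
  have homA : A.IsHomogeneous (2 * n + 2) := by
    have t1 := hom1.mul hom1
    have t2 := (hX1.mul hX2).mul (hom2.mul hom2)
    rw [e1] at t1
    rw [e2] at t2
    exact t1.sub t2
  have homS : S.IsHomogeneous (2 * n + 2) := by
    have t1 := hom1.mul hom1
    have t2 := (hX1.mul hX2).mul (hom2.mul hom2)
    rw [e1] at t1
    rw [e2] at t2
    exact t1.add t2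
  have homB : B.IsHomogeneous (2 * n + 1) := by
    have t1 := (isHomogeneous_C (Fin 3) (2 : ℝ)).mul (hom1.mul hom2)
    rw [e3] at t1
    exact t1
  have e4 : 1 + (d + (2 * n + 1)) = d + (2 * n + 2) := by ring
  set α₀ : TP := α * A - X 2 * (β * B) with hα₀
  set β₀ : TP := β * A + X 1 * (α * B) with hβ₀
  set u₀ : TP := ζ * S with hu₀
  have homα : α₀.IsHomogeneous (d + (2 * n + 2)) := by
    have t1 := hN.hα.mul homA
    have t2 := hX2.mul (hN.hβ.mul homB)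
    rw [e4] at t2
    exact t1.sub t2
  have homβ : β₀.IsHomogeneous (d + (2 * n + 2)) := by
    have t1 := hN.hβ.mul homA
    have t2 := hX1.mul (hN.hα.mul homB)
    rw [e4] at t2
    exact t1.add t2
  have homu : u₀.IsHomogeneous (d + (2 * n + 2)) := hN.hζ.mul homS
  have hrel : R ∣ X 1 * α₀ ^ 2 + X 2 * β₀ ^ 2 - X 0 * u₀ ^ 2 := by
    have hC : (C 2 : TP) = 2 := map_ofNat C 2
    have key : X 1 * α₀ ^ 2 + X 2 * β₀ ^ 2 - X 0 * u₀ ^ 2
        = (X 1 * α ^ 2 + X 2 * β ^ 2 - X 0 * ζ ^ 2) * S ^ 2 := by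
      rw [hα₀, hβ₀, hu₀, hA, hB, hS, hC]
      ring
    rw [key]
    exact Dvd.dvd.mul_right hN.rel _
  -- values at the real points
  have hdvd : ∀ (f : TP) (v : Fin 3 → ℝ), R ∣ f → eval v R = 0 → eval v f = 0 := by
    rintro f v ⟨q, rfl⟩ h
    rw [map_mul, h, zero_mul]
  have hnd : ¬ R ∣ u₀ := by
    intro hd
    obtain ⟨f, _, hf⟩ := hG.hyp 1 1 (by norm_num) (by norm_num) (Or.inl one_ne_zero)
    have hk := hf ⟨0, hn⟩
    have h1 := hdvd u₀ ![f ⟨0, hn⟩, 1, 1] hd hk.2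
    have h2 : eval ![f ⟨0, hn⟩, 1, 1] u₀ = val ζ (f ⟨0, hn⟩) 1 1 *
        (val h₁ (f ⟨0, hn⟩) 1 1 * val h₁ (f ⟨0, hn⟩) 1 1 + 1 * 1 * (f ⟨0, hn⟩ ^ n * f ⟨0, hn⟩ ^ n)) := by
      rw [hu₀, hS, hh₂]
      simp only [val, map_mul, map_add, map_pow, eval_X]
      rfl
    rw [h2, hN.ζx] at h1
    have h3 : 0 < val ζ 0 1 1 := hN.pos 1 1 (by norm_num) (by norm_num) (Or.inl one_ne_zero)
    have h4 : 0 < f ⟨0, hn⟩ ^ n := pow_pos hk.1 n
    have h5 : 0 < val h₁ (f ⟨0, hn⟩) 1 1 * val h₁ (f ⟨0, hn⟩) 1 1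
        + 1 * 1 * (f ⟨0, hn⟩ ^ n * f ⟨0, hn⟩ ^ n) := by
      have := mul_self_nonneg (val h₁ (f ⟨0, hn⟩) 1 1)
      have := mul_pos h4 h4
      linarith
    exact absurd h1 (mul_pos h3 h5).ne'
  obtain ⟨d', α', β', ζ', ε₂, δ₂, hN', hd1, hd2⟩ :=
    hNF0 n R a b s hn hG (d + (2 * n + 2)) α₀ β₀ u₀ homα homβ homu hrel hnd
  obtain ⟨c, _, hc⟩ := hG.ca
  obtain ⟨c', _, hc'⟩ := hG.cb
  have ha0 : ∀ i, a i ≠ 0 := by
    intro i h
    have := hc i
    rw [h] at this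
    simp at this
  have hb0 : ∀ i, b i ≠ 0 := by
    intro i h
    have := hc' i
    rw [h] at this
    simp at this
  have hR0 : ∀ i, val (pderiv 0 R) (a i ^ 2) 1 0 ≠ 0 := by
    intro i h
    have := hc i
    rw [h] at this
    simp at this
  have hz1 : 0 < val ζ 0 1 0 := hN.pos 1 0 (by norm_num) le_rfl (Or.inl one_ne_zero)
  have hz1' : 0 < val ζ' 0 1 0 := hN'.pos 1 0 (by norm_num) le_rfl (Or.inl one_ne_zero)
  have hz2 : 0 < val ζ 0 0 1 := hN.pos 0 1 le_rfl (by norm_num) (Or.inr one_ne_zero)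
  have hz2' : 0 < val ζ' 0 0 1 := hN'.pos 0 1 le_rfl (by norm_num) (Or.inr one_ne_zero)
  have hsgn : ∀ x y : ℝ, (x = 1 ∨ x = -1) → (y = 1 ∨ y = -1) → x ≠ y → x = -y := by
    rintro x y (rfl | rfl) (rfl | rfl) h
    · exact absurd rfl h
    · norm_num
    · rfl
    · exact absurd rfl h
  -- the points Q
  have hδ : δ₂ = δ := by
    funext j
    have hRQ : eval ![b j ^ 2, 0, 1] R = 0 := by
      have h1 := hG.rb (b j ^ 2)
      rw [Finset.prod_eq_zero (Finset.mem_univ j) (sub_self _)] at h1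
      exact h1
    have h1 := hdvd _ _ hd2 hRQ
    have h2 : eval ![b j ^ 2, 0, 1] (β₀ * ζ' - β' * u₀) =
        (val β (b j ^ 2) 0 1 * (val h₁ (b j ^ 2) 0 1 * val h₁ (b j ^ 2) 0 1)) * val ζ' (b j ^ 2) 0 1
        - val β' (b j ^ 2) 0 1 * (val ζ (b j ^ 2) 0 1 *
          (val h₁ (b j ^ 2) 0 1 * val h₁ (b j ^ 2) 0 1)) := by
      rw [hβ₀, hu₀, hS, hA, hB]
      have hy : eval ![b j ^ 2, 0, 1] (X 1 : TP) = 0 := by simp
      simp only [map_mul, map_add, map_sub, hy, val]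
      ring
    have h3 : val h₁ (b j ^ 2) 0 1 ≠ 0 := by
      rw [hh₁, Tw_h_val]
      have hb2 : b j ^ 2 ≠ 0 := pow_ne_zero _ (hb0 j)
      refine mul_ne_zero (pow_ne_zero _ hb2) (Finset.prod_ne_zero_iff.mpr fun i _ => ?_)
      rw [mul_zero, sub_zero]
      exact hb2
    rw [h2, hN.sb, hN'.sb, hN.ζx (b j ^ 2), hN'.ζx (b j ^ 2)] at h1
    have h4 : (δ j - δ₂ j) * (b j * (val ζ 0 0 1 * val ζ' 0 0 1 *
        (val h₁ (b j ^ 2) 0 1 * val h₁ (b j ^ 2) 0 1))) = 0 := by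
      linear_combination h1
    have h5 : b j * (val ζ 0 0 1 * val ζ' 0 0 1 *
        (val h₁ (b j ^ 2) 0 1 * val h₁ (b j ^ 2) 0 1)) ≠ 0 :=
      mul_ne_zero (hb0 j) (mul_ne_zero (mul_pos hz2 hz2').ne' (mul_ne_zero h3 h3))
    have h6 := (mul_eq_zero.mp h4).resolve_right h5
    linarith
  -- the points P
  have hε : ε₂ = ε' := by
    funext i
    have hRP : eval ![a i ^ 2, 1, 0] R = 0 := by
      have h1 := hG.ra (a i ^ 2)
      rw [Finset.prod_eq_zero (Finset.mem_univ i) (sub_self _)] at h1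
      exact h1
    have ha2 : a i ^ 2 ≠ 0 := pow_ne_zero _ (ha0 i)
    have hz : eval ![a i ^ 2, 1, 0] (X 2 : TP) = 0 := by simp
    have hy : eval ![a i ^ 2, 1, 0] (X 1 : TP) = 1 := by simp
    by_cases hi : i ∈ J
    · have hh : eval ![a i ^ 2, 1, 0] h₁ = 0 := by
        have h1 := Tw_h_val a J (a i ^ 2) 1 0
        rw [Finset.prod_eq_zero hi (by ring), mul_zero] at h1
        exact h1
      have hh2 : eval ![a i ^ 2, 1, 0] h₂ ≠ 0 := by
        rw [hh₂, map_pow]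
        refine pow_ne_zero _ ?_
        have hx : eval ![a i ^ 2, 1, 0] (X 0 : TP) = a i ^ 2 := by simp
        rw [hx]
        exact ha2
      have hD : Tw_D R ![a i ^ 2, 1, 0] (α₀ * ζ' - α' * u₀) = 0 := by
        obtain ⟨q, hq⟩ := hd1
        rw [hq, Tw_D_mul, Tw_D_self, hRP]
        ring
      have hα0 : eval ![a i ^ 2, 1, 0] α₀ = 0 := by
        rw [hα₀, hA, hB]
        simp only [map_mul, map_sub, hz, hh]
        ring
      have hu0 : eval ![a i ^ 2, 1, 0] u₀ = 0 := by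
        rw [hu₀, hS]
        simp only [map_mul, map_add, hz, hh]
        ring
      have hDα : Tw_D R ![a i ^ 2, 1, 0] α₀ = - (eval ![a i ^ 2, 1, 0] (pderiv 0 R) *
          (eval ![a i ^ 2, 1, 0] α * (eval ![a i ^ 2, 1, 0] h₂ * eval ![a i ^ 2, 1, 0] h₂))) := by
        rw [hα₀, hA, hB]
        simp only [Tw_D_mul, Tw_D_sub, Tw_D_X2, map_mul, map_sub, hz, hh, hy]
        ring
      have hDu : Tw_D R ![a i ^ 2, 1, 0] u₀ = eval ![a i ^ 2, 1, 0] (pderiv 0 R) *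
          (eval ![a i ^ 2, 1, 0] ζ * (eval ![a i ^ 2, 1, 0] h₂ * eval ![a i ^ 2, 1, 0] h₂)) := by
        rw [hu₀, hS]
        simp only [Tw_D_mul, Tw_D_add, Tw_D_X2, map_mul, map_add, hz, hh, hy]
        ring
      rw [Tw_D_sub, Tw_D_mul, Tw_D_mul, hα0, hu0, hDα, hDu] at hD
      have s1 : eval ![a i ^ 2, 1, 0] α = ε i * a i * val ζ 0 1 0 := hN.sa i
      have s2 : eval ![a i ^ 2, 1, 0] α' = ε₂ i * a i * val ζ' 0 1 0 := hN'.sa i
      have s3 : eval ![a i ^ 2, 1, 0] ζ = val ζ 0 1 0 := hN.ζx _ _ _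
      have s4 : eval ![a i ^ 2, 1, 0] ζ' = val ζ' 0 1 0 := hN'.ζx _ _ _
      rw [s1, s2, s3, s4] at hD
      have h4 : (ε i + ε₂ i) * (a i * (val ζ 0 1 0 * val ζ' 0 1 0 *
          (eval ![a i ^ 2, 1, 0] h₂ * eval ![a i ^ 2, 1, 0] h₂)) *
          eval ![a i ^ 2, 1, 0] (pderiv 0 R)) = 0 := by
        linear_combination -hD
      have h5 : a i * (val ζ 0 1 0 * val ζ' 0 1 0 *
          (eval ![a i ^ 2, 1, 0] h₂ * eval ![a i ^ 2, 1, 0] h₂)) *
          eval ![a i ^ 2, 1, 0] (pderiv 0 R) ≠ 0 :=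
        mul_ne_zero (mul_ne_zero (ha0 i) (mul_ne_zero (mul_pos hz1 hz1').ne'
          (mul_ne_zero hh2 hh2))) (hR0 i)
      have h6 := (mul_eq_zero.mp h4).resolve_right h5
      have h7 : ε' i ≠ ε i := (Finset.mem_filter.mp hi).2
      have h8 := hsgn _ _ (hε' i) (hN.hε i) h7
      linarith
    · have hh : val h₁ (a i ^ 2) 1 0 ≠ 0 := by
        rw [hh₁, Tw_h_val]
        refine mul_ne_zero (pow_ne_zero _ ha2) (Finset.prod_ne_zero_iff.mpr fun k hk => ?_)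
        rw [mul_one]
        intro h
        have h9 : i = k := Tw_sq_inj hG (sub_eq_zero.mp h)
        exact hi (h9 ▸ hk)
      have h1 := hdvd _ _ hd1 hRP
      have h2 : eval ![a i ^ 2, 1, 0] (α₀ * ζ' - α' * u₀) =
          (val α (a i ^ 2) 1 0 * (val h₁ (a i ^ 2) 1 0 * val h₁ (a i ^ 2) 1 0)) *
            val ζ' (a i ^ 2) 1 0
          - val α' (a i ^ 2) 1 0 * (val ζ (a i ^ 2) 1 0 *
            (val h₁ (a i ^ 2) 1 0 * val h₁ (a i ^ 2) 1 0)) := by
        rw [hα₀, hu₀, hS, hA, hB]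
        simp only [map_mul, map_add, map_sub, hz, val]
        ring
      rw [h2, hN.sa, hN'.sa, hN.ζx (a i ^ 2), hN'.ζx (a i ^ 2)] at h1
      have h4 : (ε i - ε₂ i) * (a i * (val ζ 0 1 0 * val ζ' 0 1 0 *
          (val h₁ (a i ^ 2) 1 0 * val h₁ (a i ^ 2) 1 0))) = 0 := by
        linear_combination h1
      have h5 : a i * (val ζ 0 1 0 * val ζ' 0 1 0 *
          (val h₁ (a i ^ 2) 1 0 * val h₁ (a i ^ 2) 1 0)) ≠ 0 :=
        mul_ne_zero (ha0 i) (mul_ne_zero (mul_pos hz1 hz1').ne' (mul_ne_zero hh hh))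
      have h6 := (mul_eq_zero.mp h4).resolve_right h5
      have h7 : ε' i = ε i := by
        by_contra h
        exact hi (Finset.mem_filter.mpr ⟨Finset.mem_univ _, h⟩)
      linarith
  rw [hδ, hε] at hN'
  exact ⟨d', α', β', ζ', hN'⟩

end Pool.Agent.RSV
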