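import Pool.Agent.RSV.StE

/-!
# RSV, module Ud (helper74): dimension of the space U
-/

set_option autoImplicit false

noncomputable section

namespace Pool.Agent.RSV

open Module Polynomial

/-- the index set of the monomials -/
private abbrev Ud_I (n m : ℕ) := (j : Fin n) × Fin (m + n - 2 * j)

private def Ud_mon {n m : ℕ} (p : Ud_I n m) : BC :=
  monomial (p.1 : ℕ) (monomial (p.2 : ℕ) (1 : ℂ))

private def Ud_phi (n m : ℕ) : (Ud_I n m → ℂ) →ₗ[ℂ] BC :=
  Fintype.linearCombination ℂ (Ud_mon (n := n) (m := m))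

private theorem Ud_coeff {n m : ℕ} (c : Ud_I n m → ℂ) (k l : ℕ) :
    ((Ud_phi n m c).coeff k).coeff l =
      ∑ p : Ud_I n m, if (p.1 : ℕ) = k ∧ (p.2 : ℕ) = l then c p else 0 := by
  rw [Ud_phi, Fintype.linearCombination_apply, Polynomial.finsetSum_coeff,
    Polynomial.finsetSum_coeff]
  refine Finset.sum_congr rfl fun p _ => ?_
  rw [Polynomial.coeff_smul, Polynomial.coeff_smul, Ud_mon, Polynomial.coeff_monomial]
  by_cases h1 : (p.1 : ℕ) = k
  · rw [if_pos h1, Polynomial.coeff_monomial]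
    by_cases h2 : (p.2 : ℕ) = l
    · rw [if_pos h2, if_pos ⟨h1, h2⟩, smul_eq_mul, mul_one]
    · rw [if_neg h2, if_neg (fun h => h2 h.2), smul_zero]
  · rw [if_neg h1, if_neg (fun h => h1 h.1), Polynomial.coeff_zero, smul_zero]

private theorem Ud_inj (n m : ℕ) : Function.Injective (Ud_phi n m) := by
  rw [injective_iff_map_eq_zero]
  intro c hc
  funext p
  have h1 := Ud_coeff c (p.1 : ℕ) (p.2 : ℕ)
  rw [hc, Polynomial.coeff_zero, Polynomial.coeff_zero, Finset.sum_eq_single p] at h1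
  · rw [if_pos ⟨rfl, rfl⟩] at h1
    exact h1.symm
  · rintro ⟨j, i⟩ _ hq
    rw [if_neg]
    rintro ⟨h2, h3⟩
    apply hq
    obtain ⟨j', i'⟩ := p
    obtain rfl : j = j' := Fin.ext h2
    obtain rfl : i = i' := Fin.ext h3
    rfl
  · intro h
    exact absurd (Finset.mem_univ _) h

private theorem Ud_deg {n m : ℕ} (hn : 1 ≤ n) (c : Ud_I n m → ℂ) :
    (Ud_phi n m c).natDegree < n := by
  rw [Nat.lt_iff_le_pred (by omega), Polynomial.natDegree_le_iff_coeff_eq_zero]
  intro k hk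
  ext l
  rw [Ud_coeff, Polynomial.coeff_zero]
  refine Finset.sum_eq_zero fun p _ => ?_
  rw [if_neg]
  rintro ⟨h1, -⟩
  have := p.1.2
  omega

private theorem Ud_wd {n m : ℕ} (hn : 1 ≤ n) (hm : n ≤ m + 1) (c : Ud_I n m → ℂ) :
    WD 2 (Ud_phi n m c) (m + n - 1) := by
  intro j hj
  have hjn : j < n := by
    by_contra h
    exact hj (Polynomial.coeff_eq_zero_of_natDegree_lt (by have := Ud_deg hn c; omega))
  have h2 : ((Ud_phi n m c).coeff j).natDegree ≤ m + n - 1 - 2 * j := by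
    rw [Polynomial.natDegree_le_iff_coeff_eq_zero]
    intro l hl
    rw [Ud_coeff]
    refine Finset.sum_eq_zero fun p _ => ?_
    rw [if_neg]
    rintro ⟨h1, h3⟩
    have := p.2.2
    omega
  omega

private theorem Ud_card {n m : ℕ} (hn : 1 ≤ n) (hm : n ≤ m + 1) :
    Fintype.card (Ud_I n m) = n * (m + 1) := by
  rw [Fintype.card_sigma]
  simp only [Fintype.card_fin]
  rw [Fin.sum_univ_eq_sum_range (fun j => m + n - 2 * j) n]
  have h1 : ∑ j ∈ Finset.range n, (m + n - 2 * j) + ∑ j ∈ Finset.range n, 2 * j = n * (m + n) := by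
    rw [← Finset.sum_add_distrib]
    rw [Finset.sum_congr rfl (g := fun _ => m + n)]
    · rw [Finset.sum_const, Finset.card_range, smul_eq_mul]
    · intro j hj
      rw [Finset.mem_range] at hj
      omega
  have h2 : ∑ j ∈ Finset.range n, 2 * j = n * (n - 1) := by
    rw [← Finset.mul_sum, mul_comm]
    exact Finset.sum_range_id_mul_two n
  obtain ⟨k, rfl⟩ : ∃ k, n = k + 1 := ⟨n - 1, by omega⟩
  rw [h2] at h1
  simp only [Nat.add_sub_cancel] at h1 ⊢
  nlinarith [h1]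

/-- [Ud] -/
theorem thm_Ud : St_Ud := by
  intro n m J hn hm hfin hr
  let q : BC →ₗ[ℂ] (BC ⧸ J) := (Ideal.Quotient.mkₐ ℂ J).toLinearMap
  let ψ : (Ud_I n m → ℂ) →ₗ[ℂ] (BC ⧸ J) := q.comp (Ud_phi n m)
  refine ⟨(LinearMap.ker ψ).map (Ud_phi n m), ?_, ?_, ?_⟩
  · rintro f ⟨c, hc, rfl⟩
    refine ⟨?_, Ud_deg hn c, Ud_wd hn hm c⟩
    have h1 : ψ c = 0 := hc
    exact Ideal.Quotient.eq_zero_iff_mem.1 h1
  · exact Module.Finite.map _ _
  · have h1 : finrank ℂ ((LinearMap.ker ψ).map (Ud_phi n m)) = finrank ℂ (LinearMap.ker ψ) :=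
      ((Submodule.equivMapOfInjective (Ud_phi n m) (Ud_inj n m) (LinearMap.ker ψ)).finrank_eq).symm
    have h2 := LinearMap.finrank_range_add_finrank_ker ψ
    have h3 : finrank ℂ (LinearMap.range ψ) ≤ n * m := (Submodule.finrank_le _).trans hr
    rw [Module.finrank_fintype_fun_eq_card, Ud_card hn hm] at h2
    rw [h1]
    nlinarith [h2, h3]

end Pool.Agent.RSV
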