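import Pool.Agent.RSV.StA

/-!
# RSV module Wit: a point of the conic over the curve (from Polya and Pfister)
-/

set_option autoImplicit false

namespace Pool.Agent.RSV

open MvPolynomial Module
open scoped ComplexConjugate

private theorem Wit_deg {n : ℕ} {F : TP} (hF : F.IsHomogeneous n) {d : Fin 3 →₀ ℕ}
    (hd : coeff d F ≠ 0) : d 0 + d 1 + d 2 = n := by
  have h := hF hd
  rw [← h, Finsupp.weight_apply, Finsupp.sum_fintype _ _ (by simp), Fin.sum_univ_three]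
  simp

private theorem Wit_scale {n : ℕ} {F : TP} (hF : F.IsHomogeneous n) (c x y z : ℝ) :
    val F (c * x) (c * y) (c * z) = c ^ n * val F x y z := by
  unfold val
  rw [eval_eq', eval_eq', Finset.mul_sum]
  refine Finset.sum_congr rfl (fun d hd => ?_)
  have h := Wit_deg hF (mem_support_iff.mp hd)
  rw [Fin.prod_univ_three, Fin.prod_univ_three]
  simp only [Matrix.cons_val_zero, Matrix.cons_val_one, Matrix.cons_val]
  rw [← h, pow_add, pow_add]
  ring

/-- a monic polynomial with enough roots is a product -/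
private theorem Wit_prod {n : ℕ} {P : Polynomial ℝ} (hm : P.Monic) (hd : P.natDegree = n)
    {f : Fin n → ℝ} (hf : Function.Injective f) (h0 : ∀ k, P.eval (f k) = 0) :
    P = ∏ k, (Polynomial.X - Polynomial.C (f k)) := by
  have hdvd : (∏ k, (Polynomial.X - Polynomial.C (f k))) ∣ P := by
    refine Finset.prod_dvd_of_coprime ?_ (fun k _ => Polynomial.dvd_iff_isRoot.mpr (h0 k))
    intro i _ j _ hij
    exact Polynomial.pairwise_coprime_X_sub_C hf hij
  have hm' : (∏ k, (Polynomial.X - Polynomial.C (f k))).Monic :=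
    Polynomial.monic_prod_of_monic _ _ (fun k _ => Polynomial.monic_X_sub_C _)
  refine Polynomial.eq_of_monic_of_dvd_of_natDegree_le hm' hm hdvd ?_
  rw [hd, Polynomial.natDegree_prod_of_monic _ _ (fun k _ => Polynomial.monic_X_sub_C _)]
  simp

/-- `R (1, 0, 0) = 1` -/
private theorem Wit_one {n : ℕ} {R : TP} {a b s : Fin n → ℝ} (hG : Good R a b s) :
    val R 1 0 0 = 1 := by
  have hc1 : Continuous (fun y : ℝ => val R 1 y 0) := by
    unfold val
    exact (MvPolynomial.continuous_eval R).comp (by fun_prop)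
  have hc2 : Continuous (fun y : ℝ => ∏ i, (1 - y * a i ^ 2)) := by fun_prop
  have h : (fun y : ℝ => val R 1 y 0) = (fun y : ℝ => ∏ i, (1 - y * a i ^ 2)) := by
    refine Continuous.ext_on (dense_compl_singleton (0 : ℝ)) hc1 hc2 ?_
    intro y hy
    have hy0 : y ≠ 0 := hy
    have h1 := Wit_scale hG.hom y (1 / y) 1 0
    rw [hG.ra, mul_one_div_cancel hy0, mul_one, mul_zero] at h1
    show val R 1 y 0 = _
    rw [h1]
    have e : y ^ n = ∏ _i : Fin n, y := by simp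
    rw [e, ← Finset.prod_mul_distrib]
    refine Finset.prod_congr rfl (fun i _ => ?_)
    field_simp
  have := congrFun h 0
  simpa using this

private theorem Wit_b {n : ℕ} {R : TP} {a b s : Fin n → ℝ} (hG : Good R a b s) (i : Fin n) :
    0 < b i ^ 2 := by
  obtain ⟨f, hf, h⟩ := hG.hyp 0 1 le_rfl zero_le_one (Or.inr one_ne_zero)
  have h1 : ∀ k, ∃ i, f k = b i ^ 2 := by
    intro k
    have := (h k).2
    rw [hG.rb, Finset.prod_eq_zero_iff] at this
    obtain ⟨i, -, hi⟩ := this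
    exact ⟨i, by linarith⟩
  choose g hg using h1
  have hgi : Function.Injective g := by
    intro k l hkl
    apply hf
    rw [hg, hg, hkl]
  obtain ⟨k, rfl⟩ := (Finite.injective_iff_surjective.mp hgi) i
  rw [← hg]
  exact (h k).1

private theorem Wit_pos {n : ℕ} {R : TP} {a b s : Fin n → ℝ} (hG : Good R a b s)
    (hm : (ch R).Monic) (hd : (ch R).natDegree = n)
    (hev : ∀ (F : TP) (x z : ℝ), evr (ch F) x z = val F x 1 z)
    {x y z : ℝ} (hx : 0 ≤ x) (hy : 0 ≤ y) (hz : 0 ≤ z) (h : x ≠ 0 ∨ y ≠ 0 ∨ z ≠ 0) :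
    0 < (-1 : ℝ) ^ n * val R (-x) y z := by
  have key : ∀ (w : ℝ) (f : Fin n → ℝ), 0 ≤ w → (∀ k, 0 < f k) →
      0 < (-1 : ℝ) ^ n * ∏ k, (-w - f k) := by
    intro w f hw hf
    have e : (-1 : ℝ) ^ n = ∏ _i : Fin n, (-1 : ℝ) := by simp
    rw [e, ← Finset.prod_mul_distrib]
    refine Finset.prod_pos (fun k _ => ?_)
    have := hf k
    linarith
  rcases hy.lt_or_eq with hy | hy
  · have h1 := Wit_scale hG.hom y (-(x / y)) 1 (z / y)
    rw [mul_one, mul_neg, mul_div_cancel₀ _ hy.ne', mul_div_cancel₀ _ hy.ne'] at h1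
    rw [h1]
    obtain ⟨f, hf, h2⟩ := hG.hyp 1 (z / y) zero_le_one (by positivity) (Or.inl one_ne_zero)
    have hP := Wit_prod (hm.map (Polynomial.evalRingHom (z / y)))
      ((hm.natDegree_map _).trans hd) hf (fun k => by
        have := hev R (f k) (z / y)
        rw [(h2 k).2] at this
        exact this)
    have h3 : val R (-(x / y)) 1 (z / y) = ∏ k, (-(x / y) - f k) := by
      rw [← hev]
      unfold evr
      rw [hP, Polynomial.eval_prod]
      simp
    rw [h3]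
    have h4 := key (x / y) f (by positivity) (fun k => (h2 k).1)
    have h5 : 0 < y ^ n := by positivity
    calc (0 : ℝ) < y ^ n * ((-1 : ℝ) ^ n * ∏ k, (-(x / y) - f k)) := mul_pos h5 h4
      _ = _ := by ring
  · subst hy
    rcases hz.lt_or_eq with hz | hz
    · have h1 := Wit_scale hG.hom z (-(x / z)) 0 1
      rw [mul_one, mul_neg, mul_div_cancel₀ _ hz.ne', mul_zero] at h1
      rw [h1, hG.rb]
      have h4 := key (x / z) (fun k => b k ^ 2) (by positivity) (fun k => Wit_b hG k)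
      have h5 : 0 < z ^ n := by positivity
      calc (0 : ℝ) < z ^ n * ((-1 : ℝ) ^ n * ∏ k, (-(x / z) - b k ^ 2)) := mul_pos h5 h4
        _ = _ := by ring
    · subst hz
      have hx0 : x ≠ 0 := by simpa using h
      have hx1 : 0 < x := lt_of_le_of_ne hx (Ne.symm hx0)
      have h1 := Wit_scale hG.hom (-x) 1 0 0
      rw [mul_one, mul_zero, Wit_one hG, mul_one] at h1
      rw [h1, ← mul_pow]
      have : (-1 : ℝ) * -x = x := by ring
      rw [this]
      positivity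

private theorem Wit_frac {B : Type} [CommRing B] (I : Ideal B) [I.IsPrime] :
    ∃ (K : Type) (_ : Field K) (φ : B →+* K), (∀ f, φ f = 0 ↔ f ∈ I) ∧
      ∀ x : K, ∃ f g, φ g ≠ 0 ∧ x = φ f / φ g := by
  have hinj : Function.Injective (algebraMap (B ⧸ I) (FractionRing (B ⧸ I))) :=
    IsFractionRing.injective _ _
  refine ⟨FractionRing (B ⧸ I), inferInstance,
    (algebraMap (B ⧸ I) (FractionRing (B ⧸ I))).comp (Ideal.Quotient.mk I), ?_, ?_⟩
  · intro f
    rw [RingHom.comp_apply, map_eq_zero_iff _ hinj, Ideal.Quotient.eq_zero_iff_mem]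
  · intro x
    obtain ⟨p, q, hq, rfl⟩ := IsFractionRing.div_surjective (A := B ⧸ I) x
    obtain ⟨f, rfl⟩ := Ideal.Quotient.mk_surjective p
    obtain ⟨g, rfl⟩ := Ideal.Quotient.mk_surjective q
    refine ⟨f, g, ?_, rfl⟩
    intro h1
    rw [RingHom.comp_apply, map_eq_zero_iff _ hinj] at h1
    exact nonZeroDivisors.ne_zero hq h1

/-- the field of functions -/
private theorem Wit_field {R : TP} (h : Irreducible (ch R)) :
    ∃ (K : Type) (_ : Field K) (_ : CharZero K) (φ : BR →+* K),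
      (∀ f, φ f = 0 ↔ ch R ∣ f) ∧ ∀ x : K, ∃ f g, φ g ≠ 0 ∧ x = φ f / φ g := by
  have hp : Prime (ch R) := h.prime
  have i1 : (Ideal.span {ch R}).IsPrime := (Ideal.span_singleton_prime hp.ne_zero).mpr hp
  obtain ⟨K, iK, φ, h1, h2⟩ := Wit_frac (Ideal.span {ch R})
  refine ⟨K, iK, ?_, φ, fun f => (h1 f).trans Ideal.mem_span_singleton, h2⟩
  exact charZero_of_injective_ringHom
      (f := (φ.comp (Polynomial.C : Polynomial ℝ →+* BR)).comp
        (Polynomial.C : ℝ →+* Polynomial ℝ)) (RingHom.injective _)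
private theorem Wit_term {K : Type} [Field K] (φ : BR →+* K) {x z : K} (hx : x ≠ 0)
    (hz : z ≠ 0) {c : ℝ} (hc : 0 < c) (i l : ℕ) :
    ∃ w : Fin 4 → K, w ≠ 0 ∧ w 0 ^ 2 + z * w 1 ^ 2 + (-x) * w 2 ^ 2 + z * (-x) * w 3 ^ 2 =
      φ (Polynomial.C (Polynomial.C c)) * ((-x) ^ i * z ^ l) := by
  obtain ⟨r, hr⟩ : ∃ r, r = φ (Polynomial.C (Polynomial.C (√c))) := ⟨_, rfl⟩
  have hr2 : r ^ 2 = φ (Polynomial.C (Polynomial.C c)) := by
    rw [hr, ← map_pow, ← map_pow, ← map_pow, Real.sq_sqrt hc.le]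
  have hr0 : r ≠ 0 := by
    intro h0
    have h1 : ((φ.comp Polynomial.C).comp Polynomial.C) (√c) = 0 := by
      rw [RingHom.comp_apply, RingHom.comp_apply, ← hr, h0]
    rw [map_eq_zero_iff _ (RingHom.injective _)] at h1
    have := Real.sqrt_pos.mpr hc
    linarith
  have hx' : -x ≠ 0 := neg_ne_zero.mpr hx
  rcases Nat.even_or_odd' i with ⟨m, rfl | rfl⟩ <;> rcases Nat.even_or_odd' l with ⟨k, rfl | rfl⟩
  · refine ⟨![r * ((-x) ^ m * z ^ k), 0, 0, 0], ?_, ?_⟩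
    · intro h
      have := congrFun h 0
      simp [hr0, hx, hz] at this
    · simp only [Matrix.cons_val_zero, Matrix.cons_val_one, Matrix.cons_val]
      rw [← hr2]; ring
  · refine ⟨![0, r * ((-x) ^ m * z ^ k), 0, 0], ?_, ?_⟩
    · intro h
      have := congrFun h 1
      simp [hr0, hx, hz] at this
    · simp only [Matrix.cons_val_zero, Matrix.cons_val_one, Matrix.cons_val]
      rw [← hr2]; ring
  · refine ⟨![0, 0, r * ((-x) ^ m * z ^ k), 0], ?_, ?_⟩
    · intro h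
      have := congrFun h 2
      simp [hr0, hx, hz] at this
    · simp only [Matrix.cons_val_zero, Matrix.cons_val_one, Matrix.cons_val]
      rw [← hr2]; ring
  · refine ⟨![0, 0, 0, r * ((-x) ^ m * z ^ k)], ?_, ?_⟩
    · intro h
      have := congrFun h 3
      simp [hr0, hx, hz] at this
    · simp only [Matrix.cons_val_zero, Matrix.cons_val_one, Matrix.cons_val]
      rw [← hr2]; ring


/-- the chart with `- X` -/
private noncomputable def Wit_th : TP →ₐ[ℝ] BR :=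
  aeval (![-(Polynomial.X : BR), 1, Polynomial.C Polynomial.X] : Fin 3 → BR)

private theorem Wit_expand (G : TP) : Wit_th G =
    ∑ κ ∈ G.support, (Polynomial.C (Polynomial.C (coeff κ G)) *
      ((-(Polynomial.X : BR)) ^ κ 0 * (Polynomial.C Polynomial.X) ^ κ 2) : BR) := by
  unfold Wit_th
  rw [aeval_def, eval₂_eq']
  refine Finset.sum_congr rfl (fun κ _ => ?_)
  rw [Fin.prod_univ_three]
  simp only [Matrix.cons_val_zero, Matrix.cons_val_one, Matrix.cons_val, one_pow, mul_one]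
  rfl

theorem thm_Wit : St_Mon → St_Ira → St_Hst → St_Pf → St_Pol → St_Hmz → St_Wit := by
  intro hMon hIra hHst hPf hPol hHmz n R a b s hn hG
  obtain ⟨⟨hm, hd, -⟩, -, -, hev, -⟩ := hMon n R a b s hn hG
  obtain ⟨K, iK, iC, φ, hφ, hφ2⟩ := Wit_field (hIra n R a b s hn hG).2
  obtain ⟨hi, hpyth, hz⟩ := hHst n R a b s hn hG K φ hφ hφ2
  -- real points of the curve
  have hpt : ∀ z : ℝ, 0 ≤ z → ∃ x : ℝ, 0 < x ∧ evr (ch R) x z = 0 := by
    intro z hz0
    obtain ⟨f, -, h2⟩ := hG.hyp 1 z zero_le_one hz0 (Or.inl one_ne_zero)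
    refine ⟨f ⟨0, hn⟩, (h2 _).1, ?_⟩
    rw [hev]
    exact (h2 _).2
  have hevm : ∀ (f g : BR) (x z : ℝ), evr (f * g) x z = evr f x z * evr g x z := by
    intro f g x z
    unfold evr
    rw [Polynomial.map_mul, Polynomial.eval_mul]
  have hx0 : φ Polynomial.X ≠ 0 := by
    intro h
    obtain ⟨q, hq⟩ := (hφ _).mp h
    obtain ⟨x, hx, h1⟩ := hpt 0 le_rfl
    have h2 := hevm (ch R) q x 0
    rw [← hq, h1, zero_mul] at h2
    unfold evr at h2
    rw [Polynomial.map_X, Polynomial.eval_X] at h2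
    exact hx.ne' h2
  have hz0 : φ (Polynomial.C Polynomial.X) ≠ 0 := by
    intro h
    obtain ⟨q, hq⟩ := (hφ _).mp h
    obtain ⟨x, hx, h1⟩ := hpt 1 zero_le_one
    have h2 := hevm (ch R) q x 1
    rw [← hq, h1, zero_mul] at h2
    unfold evr at h2
    simp at h2
  -- the positive form
  obtain ⟨F, hF⟩ : ∃ F : TP, F = C ((-1 : ℝ) ^ n) * aeval ![-X 0, X 1, X 2] R := ⟨_, rfl⟩
  have hFh : F.IsHomogeneous n := by
    rw [hF]
    refine IsHomogeneous.C_mul ?_ _
    have h1 := hG.hom.aeval (![-X 0, X 1, X 2] : Fin 3 → TP) (n := 1) (fun i => by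
      fin_cases i
      · exact (isHomogeneous_X ℝ 0).neg
      · exact isHomogeneous_X ℝ 1
      · exact isHomogeneous_X ℝ 2)
    simpa using h1
  have hFe : ∀ u : Fin 3 → ℝ, eval u F = (-1) ^ n * val R (-(u 0)) (u 1) (u 2) := by
    intro u
    rw [hF, map_mul, eval_C]
    congr 1
    have h1 : (aeval u : TP →ₐ[ℝ] ℝ).comp (aeval (![-X 0, X 1, X 2] : Fin 3 → TP)) =
        aeval ![-(u 0), u 1, u 2] := by
      refine algHom_ext (fun i => ?_)
      fin_cases i <;> simp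
    have h2 := DFunLike.congr_fun h1 R
    rw [AlgHom.comp_apply] at h2
    unfold val
    rw [← MvPolynomial.coe_aeval_eq_eval, ← MvPolynomial.coe_aeval_eq_eval]
    exact h2
  have hFp : ∀ u : Fin 3 → ℝ, (∀ i, 0 ≤ u i) → u ≠ 0 → 0 < eval u F := by
    intro u hu hu0
    rw [hFe]
    refine Wit_pos hG hm hd hev (hu 0) (hu 1) (hu 2) ?_
    by_contra hcon
    push Not at hcon
    apply hu0
    funext i
    fin_cases i
    · exact hcon.1
    · exact hcon.2.1
    · exact hcon.2.2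
  obtain ⟨N₀, hN₀⟩ := hPol n F hFh hFp
  obtain ⟨G, hGd⟩ : ∃ G : TP, G = (X 0 + X 1 + X 2) ^ N₀ * F := ⟨_, rfl⟩
  have hGh : G.IsHomogeneous (N₀ + n) := by
    rw [hGd]
    refine IsHomogeneous.mul ?_ hFh
    have h1 : (X 0 + X 1 + X 2 : TP).IsHomogeneous 1 :=
      ((isHomogeneous_X ℝ 0).add (isHomogeneous_X ℝ 1)).add (isHomogeneous_X ℝ 2)
    simpa using h1.pow N₀
  have hGc : ∀ κ ∈ G.support, 0 < coeff κ G := by
    intro κ hκ
    have h1 := Wit_deg hGh (MvPolynomial.mem_support_iff.mp hκ)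
    rw [hGd]
    exact hN₀ N₀ le_rfl κ h1
  have hGn : (G.support).Nonempty := by
    refine ⟨Finsupp.single 1 (N₀ + n), ?_⟩
    rw [MvPolynomial.mem_support_iff, hGd]
    refine (hN₀ N₀ le_rfl _ ?_).ne'
    simp
  -- the image of `G` is `0`
  have hG0 : φ (Wit_th G) = 0 := by
    have h1 : Wit_th.comp (aeval (![-X 0, X 1, X 2] : Fin 3 → TP)) =
        aeval (![Polynomial.X, 1, Polynomial.C Polynomial.X] : Fin 3 → BR) := by
      refine algHom_ext (fun i => ?_)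
      unfold Wit_th
      fin_cases i <;> simp
    have h2 := DFunLike.congr_fun h1 R
    rw [AlgHom.comp_apply] at h2
    have h3 : φ (ch R) = 0 := (hφ _).mpr dvd_rfl
    rw [hGd, hF, map_mul, map_mul, map_mul, map_mul, h2]
    show _ * (_ * φ (ch R)) = 0
    rw [h3, mul_zero, mul_zero]
  -- the terms
  have hw : ∀ κ : G.support, ∃ w : Fin 4 → K, w ≠ 0 ∧
      w 0 ^ 2 + φ (Polynomial.C Polynomial.X) * w 1 ^ 2 + (-φ Polynomial.X) * w 2 ^ 2 +
        φ (Polynomial.C Polynomial.X) * (-φ Polynomial.X) * w 3 ^ 2 =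
      φ (Polynomial.C (Polynomial.C (coeff κ.1 G))) *
        ((-φ Polynomial.X) ^ κ.1 0 * φ (Polynomial.C Polynomial.X) ^ κ.1 2) :=
    fun κ => Wit_term φ hx0 hz0 (hGc κ.1 κ.2) _ _
  choose w hw0 hw1 using hw
  have hsum : ∑ κ : G.support, (w κ 0 ^ 2 + φ (Polynomial.C Polynomial.X) * w κ 1 ^ 2 +
      (-φ Polynomial.X) * w κ 2 ^ 2 +
        φ (Polynomial.C Polynomial.X) * (-φ Polynomial.X) * w κ 3 ^ 2) = 0 := by
    have h1 := Finset.sum_coe_sort G.support (fun κ => φ (Polynomial.C (Polynomial.C (coeff κ G))) *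
        ((-φ Polynomial.X) ^ κ 0 * φ (Polynomial.C Polynomial.X) ^ κ 2))
    rw [Finset.sum_congr rfl (fun κ _ => hw1 κ), h1, ← hG0, Wit_expand, map_sum]
    refine Finset.sum_congr rfl (fun κ _ => ?_)
    rw [map_mul, map_mul, map_pow, map_pow, map_neg]
  obtain ⟨p, hp0, hp⟩ := hPf K hi hpyth (φ (Polynomial.C Polynomial.X)) (-φ Polynomial.X) hz0
    (neg_ne_zero.mpr hx0) G.support.card (fun j => w (G.support.equivFin.symm j)) (by
      obtain ⟨κ, hκ⟩ := hGn
      exact ⟨G.support.equivFin ⟨κ, hκ⟩, hw0 _⟩) (by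
      rw [← hsum]
      exact Equiv.sum_comp G.support.equivFin.symm (fun κ => w κ 0 ^ 2 +
        φ (Polynomial.C Polynomial.X) * w κ 1 ^ 2 + (-φ Polynomial.X) * w κ 2 ^ 2 +
        φ (Polynomial.C Polynomial.X) * (-φ Polynomial.X) * w κ 3 ^ 2))
  obtain ⟨x, hx⟩ : ∃ x, x = φ Polynomial.X := ⟨_, rfl⟩
  obtain ⟨z, hzz⟩ : ∃ z, z = φ (Polynomial.C Polynomial.X) := ⟨_, rfl⟩
  rw [← hx] at hx0 hp
  rw [← hzz] at hz0 hp
  have hu0 : p 2 ^ 2 + z * p 3 ^ 2 ≠ 0 := by
    intro h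
    rw [hzz] at h
    obtain ⟨h2, h3⟩ := hz _ _ h
    rw [h2, h3] at hp
    have h4 : p 0 ^ 2 + z * p 1 ^ 2 = 0 := by
      rw [← hp]; ring
    rw [hzz] at h4
    obtain ⟨h5, h6⟩ := hz _ _ h4
    apply hp0
    funext i
    fin_cases i
    · exact h5
    · exact h6
    · exact h2
    · exact h3
  obtain ⟨f₁, g₁, hg₁, e₁⟩ := hφ2 (p 0 * p 2 + z * p 1 * p 3)
  obtain ⟨f₂, g₂, hg₂, e₂⟩ := hφ2 (p 1 * p 2 - p 0 * p 3)
  obtain ⟨f₃, g₃, hg₃, e₃⟩ := hφ2 (p 2 ^ 2 + z * p 3 ^ 2)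
  have hrel : (φ f₁ / φ g₁) ^ 2 + z * (φ f₂ / φ g₂) ^ 2 = x * (φ f₃ / φ g₃) ^ 2 := by
    rw [← e₁, ← e₂, ← e₃]
    linear_combination (p 2 ^ 2 + z * p 3 ^ 2) * hp
  rw [e₃] at hu0
  have hf₃ : φ f₃ ≠ 0 := fun h => hu0 (by rw [h, zero_div])
  have hdvd : ch R ∣ (f₁ * g₂ * g₃) ^ 2 + Polynomial.C Polynomial.X * (f₂ * g₁ * g₃) ^ 2 -
      Polynomial.X * (f₃ * g₁ * g₂) ^ 2 := by
    rw [← hφ]
    simp only [map_sub, map_add, map_mul, map_pow]
    rw [← hx, ← hzz]
    field_simp at hrel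
    linear_combination hrel
  obtain ⟨hH1, -, -, hH4⟩ := hHmz
  obtain ⟨m₁, hm₁⟩ := hH1 (f₁ * g₂ * g₃)
  obtain ⟨m₂, hm₂⟩ := hH1 (f₂ * g₁ * g₃)
  obtain ⟨m₃, hm₃⟩ := hH1 (f₃ * g₁ * g₂)
  obtain ⟨e, he⟩ : ∃ e, e = max m₁ (max m₂ m₃) := ⟨_, rfl⟩
  obtain ⟨α, hα, hα'⟩ := hm₁ e (by omega)
  obtain ⟨β, hβ, hβ'⟩ := hm₂ e (by omega)
  obtain ⟨u, hu, hu'⟩ := hm₃ e (by omega)
  refine ⟨e, α, β, u, hα, hβ, hu, ?_, ?_⟩
  · have hhom : (X 1 * α ^ 2 + X 2 * β ^ 2 - X 0 * u ^ 2 : TP).IsHomogeneous (1 + e * 2) :=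
      (((isHomogeneous_X ℝ 1).mul (hα.pow 2)).add ((isHomogeneous_X ℝ 2).mul (hβ.pow 2))).sub
        ((isHomogeneous_X ℝ 0).mul (hu.pow 2))
    rw [← hH4 n R _ _ hG.hom (Wit_one hG) hhom]
    have hch : ch (X 1 * α ^ 2 + X 2 * β ^ 2 - X 0 * u ^ 2) =
        ch α ^ 2 + Polynomial.C Polynomial.X * ch β ^ 2 - Polynomial.X * ch u ^ 2 := by
      unfold ch
      simp only [map_sub, map_add, map_mul, map_pow, aeval_X, Matrix.cons_val_zero,
        Matrix.cons_val_one, Matrix.cons_val, one_mul]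
    rw [hch, hα', hβ', hu']
    exact hdvd
  · rintro ⟨q, hq⟩
    have h1 : ch u = ch R * ch q := by
      rw [hq]
      unfold ch
      rw [map_mul]
    rw [hu'] at h1
    have h2 := (hφ (f₃ * g₁ * g₂)).mpr ⟨_, h1⟩
    rw [map_mul, map_mul] at h2
    exact mul_ne_zero (mul_ne_zero hf₃ hg₁) hg₂ h2

end Pool.Agent.RSV
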