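import Pool.Agent.RSV.StD

/-!
# RSV, Zid: the ideal J
-/

set_option autoImplicit false

namespace Pool.Agent.RSV

open MvPolynomial Filter Topology Module
open scoped ComplexConjugate

/-- the chart as a ring homomorphism -/
noncomputable def Zid_h : TP →+* BC :=
  eval₂Hom ((Polynomial.C).comp ((Polynomial.C).comp (algebraMap ℝ ℂ)))
    ![Polynomial.X, 1, Polynomial.C (Polynomial.X ^ 2)]

theorem Zid_h_eq (F : TP) : chc F = Zid_h F := rfl

theorem Zid_mul (F G : TP) : chc (F * G) = chc F * chc G := by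
  rw [Zid_h_eq, map_mul]
  rfl

theorem Zid_add (F G : TP) : chc (F + G) = chc F + chc G := by
  rw [Zid_h_eq, map_add]
  rfl

theorem Zid_sub (F G : TP) : chc (F - G) = chc F - chc G := by
  rw [Zid_h_eq, map_sub]
  rfl

theorem Zid_pow (F : TP) (k : ℕ) : chc (F ^ k) = chc F ^ k := by
  rw [Zid_h_eq, map_pow]
  rfl

theorem Zid_X0 : chc (X 0) = Polynomial.X := by
  rw [Zid_h_eq]
  simp [Zid_h]

theorem Zid_X1 : chc (X 1) = 1 := by
  rw [Zid_h_eq]
  simp [Zid_h]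

theorem Zid_X2 : chc (X 2) = Polynomial.C (Polynomial.X ^ 2) := by
  rw [Zid_h_eq]
  simp [Zid_h]

/-- the value as a ring homomorphism -/
noncomputable def Zid_e (x y : ℂ) : BC →+* ℂ :=
  (Polynomial.evalRingHom x).comp (Polynomial.mapRingHom (Polynomial.evalRingHom y))

theorem Zid_e_eq (x y : ℂ) (f : BC) : evc f x y = Zid_e x y f := rfl

theorem Zid_ev_dvd {f g : BC} (h : f ∣ g) {x y : ℂ} (hf : evc f x y = 0) : evc g x y = 0 := by
  obtain ⟨q, rfl⟩ := h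
  rw [Zid_e_eq, map_mul, ← Zid_e_eq, hf, zero_mul]

theorem Zid_real (F : TP) (x y : ℝ) :
    aeval ![(x : ℂ), 1, (y : ℂ) ^ 2] F = ((val F x 1 (y ^ 2) : ℝ) : ℂ) := by
  have h : (![(x : ℂ), 1, (y : ℂ) ^ 2] : Fin 3 → ℂ) = algebraMap ℝ ℂ ∘ ![x, 1, y ^ 2] := by
    funext i
    fin_cases i <;> simp
  rw [h, MvPolynomial.aeval_algebraMap_apply]
  rfl

/-- the value of a root: `x > 0` -/
theorem Zid_pos (q : Polynomial ℝ) (n : ℕ) (hm : q.Monic) (hd : q.natDegree = n) (f : Fin n → ℝ)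
    (hf : Function.Injective f) (h : ∀ k, 0 < f k ∧ q.eval (f k) = 0) (x : ℝ)
    (hx : q.eval x = 0) : 0 < x := by
  classical
  by_contra hx0
  have h0 : q ≠ 0 := hm.ne_zero
  have h1 : insert x (Finset.univ.image f) ⊆ q.roots.toFinset := by
    intro t ht
    rw [Multiset.mem_toFinset, Polynomial.mem_roots h0]
    rcases Finset.mem_insert.1 ht with rfl | ht
    · exact hx
    · obtain ⟨k, _, rfl⟩ := Finset.mem_image.1 ht
      exact (h k).2
  have h2 : x ∉ Finset.univ.image f := by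
    intro hx1
    obtain ⟨k, _, hk⟩ := Finset.mem_image.1 hx1
    exact hx0 (hk ▸ (h k).1)
  have h3 := Finset.card_le_card h1
  rw [Finset.card_insert_of_notMem h2, Finset.card_image_of_injective _ hf, Finset.card_univ,
    Fintype.card_fin] at h3
  have h4 : q.roots.toFinset.card ≤ n :=
    (Multiset.toFinset_card_le _).trans (hd ▸ Polynomial.card_roots' q)
  omega

theorem Zid_ss_C : ss (Polynomial.C (Polynomial.C Complex.I * Polynomial.X)) =
    -Polynomial.C (Polynomial.C Complex.I * Polynomial.X) := by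
  simp [ss]
  ring

theorem Zid_cj_C : cj (Polynomial.C (Polynomial.C Complex.I * Polynomial.X)) =
    -Polynomial.C (Polynomial.C Complex.I * Polynomial.X) := by
  simp [cj]
  ring

theorem Zid_ss_mul (f g : BC) : ss (f * g) = ss f * ss g := by
  simp [ss]

theorem Zid_ss_add (f g : BC) : ss (f + g) = ss f + ss g := by
  simp [ss]

theorem Zid_cj_mul (f g : BC) : cj (f * g) = cj f * cj g := by
  simp [cj]

theorem Zid_cj_add (f g : BC) : cj (f + g) = cj f + cj g := by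
  simp [cj]

theorem Zid_smul (c : ℂ) (f : BC) : c • f = Polynomial.C (Polynomial.C c) * f := by
  ext i j
  simp

theorem Zid_cj_smul (c : ℂ) (f : BC) : cj (c • f) = conj c • cj f := by
  rw [Zid_smul, Zid_smul, Zid_cj_mul]
  congr 1
  simp [cj]

/-- the product of the two conjugates -/
theorem Zid_I (A B : BC) :
    (A + Polynomial.C (Polynomial.C Complex.I * Polynomial.X) * B) *
      (A + -Polynomial.C (Polynomial.C Complex.I * Polynomial.X) * B) =
      A ^ 2 + Polynomial.C (Polynomial.X ^ 2) * B ^ 2 := by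
  have h1 : (Polynomial.C Complex.I : Polynomial ℂ) * Polynomial.C Complex.I = -1 := by
    rw [← Polynomial.C_mul, Complex.I_mul_I, Polynomial.C_neg, Polynomial.C_1]
  have h2 : (Polynomial.C Complex.I * Polynomial.X) * (Polynomial.C Complex.I * Polynomial.X) =
      -(Polynomial.X : Polynomial ℂ) ^ 2 := by
    calc (Polynomial.C Complex.I * Polynomial.X) * (Polynomial.C Complex.I * Polynomial.X)
        = (Polynomial.C Complex.I * Polynomial.C Complex.I) * (Polynomial.X : Polynomial ℂ) ^ 2 := by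
          ring
      _ = -Polynomial.X ^ 2 := by rw [h1]; ring
  have h3 : (Polynomial.C (Polynomial.C Complex.I * Polynomial.X) : BC) *
      Polynomial.C (Polynomial.C Complex.I * Polynomial.X) =
      -(Polynomial.C (Polynomial.X ^ 2) : BC) := by
    rw [← Polynomial.C_mul, h2, Polynomial.C_neg]
  linear_combination (-(B ^ 2)) * h3

/-- a ring isomorphism and membership -/
theorem Zid_map {O : Type} [CommRing O] (τ : O ≃+* O) (p : Ideal O) (f : O) :
    τ f ∈ p.map τ ↔ f ∈ p := by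
  constructor
  · intro h
    obtain ⟨g, hg, hg'⟩ := (Ideal.mem_map_of_equiv τ _).1 h
    rwa [← τ.injective hg']
  · intro h
    exact Ideal.mem_map_of_mem _ h

/-- the main part in the ring `O` -/
theorem Zid_main (n : ℕ) (R : TP) (a b s : Fin n → ℝ) (hn : 1 ≤ n) (hG : Good R a b s)
    (hMon : St_Mon) (hPed : St_Ped) (hOd : St_Od) (hH3 : St_H3) (hIdl : St_Idl) (hNmD : St_NmD)
    (hSym2 : ∀ G : TP, ss (chc G) = chc G ∧ cj (chc G) = chc G)
    (hSym4 : ∀ (f : BC) (x y : ℂ), evc (cj f) x y = conj (evc f (conj x) (conj y)))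
    (σ τ : AdjoinRoot (chc R) ≃+* AdjoinRoot (chc R))
    (hσ : ∀ f : BC, σ (AdjoinRoot.mk (chc R) f) = AdjoinRoot.mk (chc R) (ss f))
    (hτ : ∀ f : BC, τ (AdjoinRoot.mk (chc R) f) = AdjoinRoot.mk (chc R) (cj f))
    (hσσ : ∀ x, σ (σ x) = x) (hττ : ∀ x, τ (τ x) = x) (hcom : ∀ x, σ (τ x) = τ (σ x))
    (d : ℕ) (α β ζ : TP) (e : ℕ) (κ₁ κ₂ : TP) (S : ℝ → ℝ → ℝ)
    (hNF : NF R a b d α β ζ (fun _ => 1) (fun _ => (-1) ^ n)) (hK : Kap R α β e κ₁ κ₂ S) :
    (AdjoinRoot.mk (chc R) (chc (ζ ^ 3 * (X 1 * α * κ₁ + X 2 * β * κ₂))) ≠ 0 ∧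
    Module.Finite ℂ (AdjoinRoot (chc R) ⧸ Ideal.span
      {AdjoinRoot.mk (chc R) (chc (ζ ^ 3 * (X 1 * α * κ₁ + X 2 * β * κ₂)))}) ∧
    finrank ℂ (AdjoinRoot (chc R) ⧸ Ideal.span
      {AdjoinRoot.mk (chc R) (chc (ζ ^ 3 * (X 1 * α * κ₁ + X 2 * β * κ₂)))}) =
      2 * n * (4 * d + e + 1)) ∧
    ∃ z : Ideal (AdjoinRoot (chc R)), z * z.map τ = Ideal.span
      {AdjoinRoot.mk (chc R) (chc (ζ ^ 3 * (X 1 * α * κ₁ + X 2 * β * κ₂)))} ∧
      ∀ f ∈ z, ∃ f' ∈ z, AdjoinRoot.mk (chc R) (chc ζ) * f' = AdjoinRoot.mk (chc R)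
        (chc α + Polynomial.C (Polynomial.C Complex.I * Polynomial.X) * chc β) * σ f := by
  have hP : Pts R := hPed n R a b s hn hG
  have hded : IsDedekindDomain (AdjoinRoot (chc R)) := hP.ded
  obtain ⟨⟨hm1, hm2, -⟩, -, -, hevr, hevc⟩ := hMon n R a b s hn hG
  -- real points
  have hreal : ∀ (F : TP) (x y : ℝ), evc (chc F) x y = ((val F x 1 (y ^ 2) : ℝ) : ℂ) := by
    intro F x y
    rw [hevc, Zid_real]
  -- positive roots at `(x, 1, z)`
  have hroot : ∀ x z : ℝ, 0 ≤ z → val R x 1 z = 0 → 0 < x := by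
    intro x z hz hx
    obtain ⟨f, hf1, hf2⟩ := hG.hyp 1 z zero_le_one hz (Or.inl one_ne_zero)
    refine Zid_pos ((ch R).map (Polynomial.evalRingHom z)) n (hm1.map _) ?_ f hf1 ?_ x ?_
    · rw [hm1.natDegree_map, hm2]
    · intro k
      exact ⟨(hf2 k).1, (hevr R (f k) z).trans (hf2 k).2⟩
    · exact (hevr R x z).trans hx
  -- positivity of the `b j ^ 2`
  have hb : ∀ j, 0 < b j ^ 2 := by
    intro j
    obtain ⟨f, hf1, hf2⟩ := hG.hyp 0 1 le_rfl zero_le_one (Or.inr one_ne_zero)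
    refine Zid_pos (∏ i, (Polynomial.X - Polynomial.C (b i ^ 2))) n
      (Polynomial.monic_prod_of_monic _ _ fun i _ => Polynomial.monic_X_sub_C _) ?_ f hf1 ?_ _ ?_
    · rw [Polynomial.natDegree_prod_of_monic _ _ fun i _ => Polynomial.monic_X_sub_C _]
      simp only [Polynomial.natDegree_X_sub_C]
      simp
    · intro k
      refine ⟨(hf2 k).1, ?_⟩
      rw [Polynomial.eval_prod]
      simp only [Polynomial.eval_sub, Polynomial.eval_X, Polynomial.eval_C]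
      rw [← hG.rb]
      exact (hf2 k).2
    · rw [Polynomial.eval_prod]
      exact Finset.prod_eq_zero (Finset.mem_univ j) (by simp)
  -- the value of `G` at points with `y, z ≥ 0`
  have hval : ∀ x y z : ℝ, 0 < x → 0 ≤ y → 0 ≤ z → (y ≠ 0 ∨ z ≠ 0) → val R x y z = 0 →
      val ζ x y z ≠ 0 ∧ val (X 1 * α * κ₁ + X 2 * β * κ₂) x y z ≠ 0 := by
    intro x y z hx hy hz hyz hR
    have h1 := hK.hI x y z hx hy hz hyz hR
    have h2 := hNF.pos y z hy hz hyz
    refine ⟨?_, ?_⟩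
    · rw [hNF.ζx]
      exact ne_of_gt h2
    · intro h3
      have h4 : val (X 1 * α * κ₁ + X 2 * β * κ₂) x y z =
          y * val α x y z * val κ₁ x y z + z * val β x y z * val κ₂ x y z := by
        simp [val]
      rw [← h4, h3, mul_zero] at h1
      exact lt_irrefl _ h1
  have hvalG : ∀ x y z : ℝ, 0 < x → 0 ≤ y → 0 ≤ z → (y ≠ 0 ∨ z ≠ 0) → val R x y z = 0 →
      val (ζ ^ 3 * (X 1 * α * κ₁ + X 2 * β * κ₂)) x y z ≠ 0 := by
    intro x y z hx hy hz hyz hR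
    obtain ⟨h1, h2⟩ := hval x y z hx hy hz hyz hR
    have h3 : val (ζ ^ 3 * (X 1 * α * κ₁ + X 2 * β * κ₂)) x y z =
        val ζ x y z ^ 3 * val (X 1 * α * κ₁ + X 2 * β * κ₂) x y z := by
      simp [val]
    rw [h3]
    exact mul_ne_zero (pow_ne_zero _ h1) h2
  -- homogeneity
  have hhom : (ζ ^ 3 * (X 1 * α * κ₁ + X 2 * β * κ₂)).IsHomogeneous (4 * d + e + 1) := by
    have h1 : (X 1 * α * κ₁ : TP).IsHomogeneous (1 + d + e) :=
      ((isHomogeneous_X ℝ 1).mul hNF.hα).mul hK.h₁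
    have h2 : (X 2 * β * κ₂ : TP).IsHomogeneous (1 + d + e) :=
      ((isHomogeneous_X ℝ 2).mul hNF.hβ).mul hK.h₂
    have h3 := (hNF.hζ.pow 3).mul (h1.add h2)
    have h4 : 4 * d + e + 1 = d * 3 + (1 + d + e) := by ring
    rw [h4]
    exact h3
  have hN := hNmD n R a b s hn hG (4 * d + e + 1) (ζ ^ 3 * (X 1 * α * κ₁ + X 2 * β * κ₂)) hhom
    (fun j => hvalG _ _ _ (hb j) le_rfl zero_le_one (Or.inr one_ne_zero) (by
      rw [hG.rb]
      exact Finset.prod_eq_zero (Finset.mem_univ j) (by simp)))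
  refine ⟨hN, ?_⟩
  have hN0 := hN.1
  have hOd := hOd (AdjoinRoot (chc R))
  have hH3 := hH3 n R a b s hn hG d α β ζ e κ₁ κ₂ S hNF hK σ τ hσ hτ
  have hσG := congrArg (AdjoinRoot.mk (chc R)) (hSym2 (ζ ^ 3 * (X 1 * α * κ₁ + X 2 * β * κ₂))).1
  rw [← hσ] at hσG
  have hτG := congrArg (AdjoinRoot.mk (chc R)) (hSym2 (ζ ^ 3 * (X 1 * α * κ₁ + X 2 * β * κ₂))).2
  rw [← hτ] at hτG
  have hσz := congrArg (AdjoinRoot.mk (chc R)) (hSym2 ζ).1
  rw [← hσ] at hσz
  have hτz := congrArg (AdjoinRoot.mk (chc R)) (hSym2 ζ).2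
  rw [← hτ] at hτz
  have hσρ := hσ (chc α + Polynomial.C (Polynomial.C Complex.I * Polynomial.X) * chc β)
  have hτρ := hτ (chc α + Polynomial.C (Polynomial.C Complex.I * Polynomial.X) * chc β)
  rw [Zid_ss_add, Zid_ss_mul, (hSym2 α).1, (hSym2 β).1, Zid_ss_C] at hσρ
  rw [Zid_cj_add, Zid_cj_mul, (hSym2 α).2, (hSym2 β).2, Zid_cj_C] at hτρ
  have hτσ := hτρ.trans hσρ.symm
  -- the relation
  have hrel : AdjoinRoot.mk (chc R)
      (chc α + Polynomial.C (Polynomial.C Complex.I * Polynomial.X) * chc β) *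
      σ (AdjoinRoot.mk (chc R)
        (chc α + Polynomial.C (Polynomial.C Complex.I * Polynomial.X) * chc β)) =
      AdjoinRoot.mk (chc R) Polynomial.X * AdjoinRoot.mk (chc R) (chc ζ) ^ 2 := by
    rw [hσρ, ← map_mul, ← map_pow, ← map_mul, ← sub_eq_zero, ← map_sub, AdjoinRoot.mk_eq_zero]
    obtain ⟨q, hq⟩ := hNF.rel
    refine ⟨chc q, ?_⟩
    rw [← Zid_mul, ← hq, Zid_sub, Zid_add, Zid_mul, Zid_mul, Zid_mul, Zid_pow, Zid_pow, Zid_pow,
      Zid_X0, Zid_X1, Zid_X2]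
    linear_combination Zid_I (chc α) (chc β)
  -- points
  have hGz : AdjoinRoot.mk (chc R) (chc (ζ ^ 3 * (X 1 * α * κ₁ + X 2 * β * κ₂))) =
      AdjoinRoot.mk (chc R) (chc ζ) ^ 3 *
        AdjoinRoot.mk (chc R) (chc (X 1 * α * κ₁ + X 2 * β * κ₂)) := by
    rw [Zid_mul, Zid_pow, map_mul, map_pow]
  have hX : AdjoinRoot.mk (chc R) Polynomial.X ≠ 0 := by
    intro h
    rw [AdjoinRoot.mk_eq_zero] at h
    obtain ⟨f, -, hf2⟩ := hG.hyp 1 0 zero_le_one le_rfl (Or.inl one_ne_zero)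
    have h1 := hf2 ⟨0, hn⟩
    have h2 : evc (chc R) (f ⟨0, hn⟩ : ℂ) ((0 : ℝ) : ℂ) = 0 := by
      rw [hreal]
      have h3 : val R (f ⟨0, hn⟩) 1 (0 ^ 2) = 0 := by
        rw [zero_pow two_ne_zero]
        exact h1.2
      rw [h3]
      rfl
    have h4 := Zid_ev_dvd h h2
    have h5 : evc (Polynomial.X : BC) (f ⟨0, hn⟩ : ℂ) ((0 : ℝ) : ℂ) = (f ⟨0, hn⟩ : ℂ) := by
      simp [evc]
    rw [h5] at h4
    exact (ne_of_gt h1.1) (by exact_mod_cast h4)
  have hz0 : AdjoinRoot.mk (chc R) (chc ζ) ≠ 0 := by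
    intro h
    apply hN0
    rw [hGz, h]
    ring
  have hg0 : AdjoinRoot.mk (chc R) (chc (X 1 * α * κ₁ + X 2 * β * κ₂)) ≠ 0 := by
    intro h
    apply hN0
    rw [hGz, h, mul_zero]
  have hρ0 : AdjoinRoot.mk (chc R)
      (chc α + Polynomial.C (Polynomial.C Complex.I * Polynomial.X) * chc β) ≠ 0 := by
    intro h
    rw [h, zero_mul] at hrel
    exact mul_ne_zero hX (pow_ne_zero 2 hz0) hrel.symm
  -- real points: fixed by `τ`
  have hfix : ∀ p : Ideal (AdjoinRoot (chc R)), p.IsMaximal → p ≠ ⊥ → p.map τ = p →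
      AdjoinRoot.mk (chc R) (chc (ζ ^ 3 * (X 1 * α * κ₁ + X 2 * β * κ₂))) ∉ p ∧
      AdjoinRoot.mk (chc R) (chc ζ) ∉ p ∧ AdjoinRoot.mk (chc R) Polynomial.X ∉ p := by
    intro p hp hp0 hpτ
    obtain ⟨-, x, y, hxy, hpt⟩ := hP.pt p hp
    have h1 : ∀ f : BC, evc f x y = 0 → evc f (conj x) (conj y) = 0 := by
      intro f hf
      have h2 : AdjoinRoot.mk (chc R) f ∈ p := (hpt f).2 hf
      have h3 : τ (AdjoinRoot.mk (chc R) f) ∈ p := by
        have h4 := (Zid_map τ p (AdjoinRoot.mk (chc R) f)).2 h2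
        rwa [hpτ] at h4
      rw [hτ, hpt, hSym4] at h3
      exact (map_eq_zero_iff _ (RingHom.injective _)).1 h3
    have hx : conj x = x := by
      have h2 := h1 (Polynomial.X - Polynomial.C (Polynomial.C x)) (by simp [evc])
      have h3 : evc (Polynomial.X - Polynomial.C (Polynomial.C x) : BC) (conj x) (conj y) =
          conj x - x := by simp [evc]
      rw [h3] at h2
      exact sub_eq_zero.1 h2
    have hy : conj y = y := by
      have h2 := h1 (Polynomial.C (Polynomial.X - Polynomial.C y)) (by simp [evc])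
      have h3 : evc (Polynomial.C (Polynomial.X - Polynomial.C y) : BC) (conj x) (conj y) =
          conj y - y := by simp [evc]
      rw [h3] at h2
      exact sub_eq_zero.1 h2
    obtain ⟨xr, rfl⟩ := Complex.conj_eq_iff_real.1 hx
    obtain ⟨yr, rfl⟩ := Complex.conj_eq_iff_real.1 hy
    rw [hreal] at hxy
    have hxy' : val R xr 1 (yr ^ 2) = 0 := by exact_mod_cast hxy
    have hxp := hroot xr (yr ^ 2) (sq_nonneg _) hxy'
    refine ⟨?_, ?_, ?_⟩
    · rw [hpt, hreal]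
      have := hvalG xr 1 (yr ^ 2) hxp zero_le_one (sq_nonneg _) (Or.inl one_ne_zero) hxy'
      exact_mod_cast this
    · rw [hpt, hreal]
      have := (hval xr 1 (yr ^ 2) hxp zero_le_one (sq_nonneg _) (Or.inl one_ne_zero) hxy').1
      exact_mod_cast this
    · rw [hpt]
      have h5 : evc (Polynomial.X : BC) (xr : ℂ) (yr : ℂ) = (xr : ℂ) := by
        simp [evc]
      rw [h5]
      exact_mod_cast ne_of_gt hxp
  obtain ⟨hO1, hO2, -, -, -⟩ := hOd
  have hod0 : ∀ p : Ideal (AdjoinRoot (chc R)), p.IsMaximal → p ≠ ⊥ → ∀ f, f ∉ p →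
      od p f = 0 := by
    intro p hp hp0 f hf
    have hf0 : f ≠ 0 := fun h => hf (h ▸ p.zero_mem)
    have h1 := hO1 p hp hp0 f hf0 1
    rw [pow_one] at h1
    by_contra h2
    exact hf (h1.2 (Nat.one_le_iff_ne_zero.2 h2))
  have hodG : ∀ p : Ideal (AdjoinRoot (chc R)), p.IsMaximal → p ≠ ⊥ →
      od p (AdjoinRoot.mk (chc R) (chc (ζ ^ 3 * (X 1 * α * κ₁ + X 2 * β * κ₂)))) =
        3 * od p (AdjoinRoot.mk (chc R) (chc ζ)) +
        od p (AdjoinRoot.mk (chc R) (chc (X 1 * α * κ₁ + X 2 * β * κ₂))) := by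
    intro p hp hp0
    rw [hGz, hO2 p hp hp0 _ _ (pow_ne_zero 3 hz0) hg0, pow_succ, pow_succ, pow_one,
      hO2 p hp hp0 _ _ (mul_ne_zero hz0 hz0) hz0, hO2 p hp hp0 _ _ hz0 hz0]
    ring
  refine hIdl (AdjoinRoot (chc R)) σ τ hσσ hττ hcom _ _ _ (AdjoinRoot.mk (chc R) Polynomial.X)
    hN0 hρ0 hz0 hσG hτG hσz hτz hτσ hrel ?_ ?_ ?_
  · intro p hp hp0
    rw [hodG p hp hp0]
    constructor <;> omega
  · intro p hp hp0 hpτ
    obtain ⟨h1, h2, h3⟩ := hfix p hp hp0 hpτ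
    refine ⟨hod0 p hp hp0 _ h1, hod0 p hp hp0 _ ?_, hod0 p hp hp0 _ h2⟩
    intro h4
    have h5 := p.mul_mem_right (σ (AdjoinRoot.mk (chc R)
        (chc α + Polynomial.C (Polynomial.C Complex.I * Polynomial.X) * chc β))) h4
    rw [hrel] at h5
    rcases hp.isPrime.mem_or_mem h5 with h6 | h6
    · exact h3 h6
    · exact h2 (hp.isPrime.mem_of_pow_mem 2 h6)
  · intro p hp hp0 hpτ hX0
    have h1 := hH3 p hp hpτ hX0
    rw [hodG p hp hp0]
    omega

theorem thm_Zid : St_Mon → St_Ped → St_Od → St_Sym → St_H3 → St_Idl → St_NmD → St_Hlf → St_Zid := by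
  intro hMon hPed hOd hSym hH3 hIdl hNmD hHlf n R a b s hn hG d α β ζ e κ₁ κ₂ S hNF hK
  obtain ⟨⟨σ, τ, hσ, hτ, hσσ, hττ, hcom⟩, hSym2, -, hSym4⟩ := hSym R
  obtain ⟨⟨hN0, hfin, hrank⟩, z, hz1, hz2⟩ := Zid_main n R a b s hn hG hMon hPed hOd hH3 hIdl hNmD
    hSym2 hSym4 σ τ hσ hτ hσσ hττ hcom d α β ζ e κ₁ κ₂ S hNF hK
  have hP : Pts R := hPed n R a b s hn hG
  have hded : IsDedekindDomain (AdjoinRoot (chc R)) := hP.ded
  refine ⟨z.comap (AdjoinRoot.mk (chc R)), ?_, ?_, ?_, ?_⟩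
  · rw [Ideal.mem_comap, AdjoinRoot.mk_self]
    exact z.zero_mem
  · intro f hf g hg
    rw [Ideal.mem_comap] at hf hg
    have h1 : AdjoinRoot.mk (chc R) f * τ (AdjoinRoot.mk (chc R) g) ∈ z * z.map τ :=
      Ideal.mul_mem_mul hf (Ideal.mem_map_of_mem _ hg)
    rw [hz1, Ideal.mem_span_singleton, hτ] at h1
    obtain ⟨c, hc⟩ := h1
    obtain ⟨h, rfl⟩ := AdjoinRoot.mk_surjective c
    refine ⟨h, ?_⟩
    rw [← AdjoinRoot.mk_eq_zero, map_sub, map_mul, map_mul, hc, sub_self]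
  · intro f hf
    rw [Ideal.mem_comap] at hf
    obtain ⟨f', hf', h1⟩ := hz2 _ hf
    obtain ⟨h, rfl⟩ := AdjoinRoot.mk_surjective f'
    refine ⟨h, hf', ?_⟩
    rw [← AdjoinRoot.mk_eq_zero, map_sub, map_mul, map_mul, ← hσ, h1, sub_self]
  · have hzb : z ≠ ⊥ := by
      intro h
      rw [h, Ideal.bot_mul] at hz1
      exact hN0 (Ideal.span_singleton_eq_bot.1 hz1.symm)
    have hsm : ∀ (c : ℂ) (x : AdjoinRoot (chc R)), τ (c • x) = conj c • τ x := by
      intro c x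
      obtain ⟨f, rfl⟩ := AdjoinRoot.mk_surjective x
      have h1 : ∀ (c : ℂ) (f : BC), c • AdjoinRoot.mk (chc R) f = AdjoinRoot.mk (chc R) (c • f) := by
        intro c f
        rfl
      rw [h1, hτ, hτ, h1, Zid_cj_smul]
    obtain ⟨h1, h2⟩ := hHlf (AdjoinRoot (chc R)) τ hsm z hzb (by rw [hz1]; exact hfin)
    have h3 : finrank ℂ (AdjoinRoot (chc R) ⧸ z) = n * (4 * d + e + 1) := by
      rw [hz1, hrank] at h2
      linarith
    let ψ : BC →ₐ[ℂ] (AdjoinRoot (chc R) ⧸ z) :=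
      { (Ideal.Quotient.mk z).comp (AdjoinRoot.mk (chc R)) with
        commutes' := fun c => rfl }
    have hψ : Function.Surjective ψ := by
      intro x
      obtain ⟨y, rfl⟩ := Ideal.Quotient.mk_surjective x
      obtain ⟨f, rfl⟩ := AdjoinRoot.mk_surjective y
      exact ⟨f, rfl⟩
    have hJ : z.comap (AdjoinRoot.mk (chc R)) = RingHom.ker ψ := by
      ext f
      rw [Ideal.mem_comap, RingHom.mem_ker]
      exact Ideal.Quotient.eq_zero_iff_mem.symm
    have E : (BC ⧸ z.comap (AdjoinRoot.mk (chc R))) ≃ₐ[ℂ] (AdjoinRoot (chc R) ⧸ z) :=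
      (Ideal.quotientEquivAlgOfEq ℂ hJ).trans (Ideal.quotientKerAlgEquivOfSurjective hψ)
    exact ⟨Module.Finite.equiv E.symm.toLinearEquiv,
      (LinearEquiv.finrank_eq E.toLinearEquiv).trans h3⟩

end Pool.Agent.RSV
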