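import Pool.Agent.RSV.StN
import Pool.Agent.RSV.StJ
import Pool.Agent.RSV.Cz
import Pool.Agent.RSV.Tsn
import Pool.Agent.RSV.Nst
import Pool.Agent.RSV.Pf
import Pool.Agent.RSV.Pol
import Pool.Agent.RSV.Mon
import Pool.Agent.RSV.Ira
import Pool.Agent.RSV.Irb
import Pool.Agent.RSV.Hst
import Pool.Agent.RSV.Hmz
import Pool.Agent.RSV.Wit
import Pool.Agent.RSV.NF0
import Pool.Agent.RSV.Tw
import Pool.Agent.RSV.Sw
import Pool.Agent.RSV.NFa
import Pool.Agent.RSV.Sel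
import Pool.Agent.RSV.Nn
import Pool.Agent.RSV.LcA
import Pool.Agent.RSV.LcN
import Pool.Agent.RSV.Kap
import Pool.Agent.RSV.Od
import Pool.Agent.RSV.Idl
import Pool.Agent.RSV.Ped
import Pool.Agent.RSV.Sym
import Pool.Agent.RSV.Par
import Pool.Agent.RSV.Rt
import Pool.Agent.RSV.NmD
import Pool.Agent.RSV.Hlf
import Pool.Agent.RSV.H3
import Pool.Agent.RSV.Zid
import Pool.Agent.RSV.Ud
import Pool.Agent.RSV.Pl
import Pool.Agent.RSV.Lim
import Pool.Agent.RSV.LA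
import Pool.Agent.RSV.Suf
import Pool.Agent.RSV.Fam
import Pool.Agent.RSV.RR
import Pool.Agent.RSV.HD
import Pool.Agent.RSV.Ca
import Pool.Agent.RSV.Gn
import Pool.Agent.RSV.Shy
import Pool.Agent.RSV.Ex
import Pool.Agent.RSV.Clo
import Pool.Agent.RSV.Eig
import Pool.Agent.RSV.Nec
import Pool.Agent.RSV.Jn

/-!
# RSV: assembly
-/

set_option autoImplicit false

namespace Pool.Agent.RSV

theorem asm_Tsn : St_Tsn := thm_Tsn thm_Cz
theorem asm_Ira : St_Ira := thm_Ira thm_Cz thm_Mon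
theorem asm_Irb : St_Irb := thm_Irb thm_Cz thm_Mon
theorem asm_Hst : St_Hst := thm_Hst thm_Mon thm_Nst asm_Tsn
theorem asm_Wit : St_Wit := thm_Wit thm_Mon asm_Ira asm_Hst thm_Pf thm_Pol thm_Hmz
theorem asm_NF0 : St_NF0 := thm_NF0 thm_Mon asm_Ira thm_Hmz
theorem asm_Tw : St_Tw := thm_Tw asm_NF0
theorem asm_NFa : St_NFa := thm_NFa asm_Wit asm_NF0 asm_Tw thm_Sw
theorem asm_Kap : St_Kap := thm_Kap thm_Nn thm_LcA thm_LcN thm_Sel
theorem asm_Idl : St_Idl := thm_Idl thm_Od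
theorem asm_Ped : St_Ped := thm_Ped thm_Mon asm_Irb
theorem asm_Par : St_Par := thm_Par thm_Od asm_Ped
theorem asm_NmD : St_NmD := thm_NmD thm_Mon asm_Irb thm_Rt
theorem asm_H3 : St_H3 := thm_H3 thm_Mon asm_Ped thm_Od thm_Sym asm_Par
theorem asm_Zid : St_Zid := thm_Zid thm_Mon asm_Ped thm_Od thm_Sym asm_H3 asm_Idl asm_NmD thm_Hlf
theorem asm_Pl : St_Pl := thm_Pl thm_Mon
theorem asm_Suf : St_Suf :=
  thm_Suf thm_Mon thm_Sym thm_Rt asm_NFa asm_Kap asm_Zid thm_Ud asm_Pl thm_Lim thm_LA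
theorem asm_Ca : St_Ca := thm_Ca thm_HD
theorem asm_Gn : St_Gn := thm_Gn asm_Ca
theorem asm_Ex : St_Ex := thm_Ex thm_Shy thm_Fam
theorem asm_Nec : St_Nec := thm_Nec thm_Fam thm_RR asm_Gn asm_Ex asm_Suf thm_Eig

theorem thm_Thm : St_Thm := by
  intro n a b s hn
  constructor
  · intro h
    exact asm_Nec n a b s hn h
  · intro h
    have hsub : {p : (Fin n → ℝ) × (Fin n → ℝ) × (Fin n → ℝ) |
        ∃ R : TP, Good R p.1 p.2.1 p.2.2} ⊆ {p : (Fin n → ℝ) × (Fin n → ℝ) × (Fin n → ℝ) |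
          Rz p.1 p.2.1 p.2.2} := by
      intro p hp
      rw [Set.mem_ofPred_eq] at hp ⊢
      obtain ⟨R, hR⟩ := hp
      obtain ⟨A, B, hA, hB, hS, -⟩ := asm_Suf n R p.1 p.2.1 p.2.2 hn hR
      exact ⟨A, B, hA, hB, hS⟩
    have hm := closure_minimal hsub (thm_Clo n) h
    rw [Set.mem_ofPred_eq] at hm
    exact hm

end Pool.Agent.RSV
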