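import Mathlib

/-!
# RSV: realizable triples (eigenvalues of `A`, of `B`, singular values of `A + iB`) and real ternary
forms (MP_08a990_an), all `n`.  Definitions.
-/

set_option autoImplicit false

namespace Pool.Agent.RSV

open MvPolynomial Filter Topology
open scoped ComplexConjugate

/-- real polynomials in `X`, `Y`, `Z` (the variables `0`, `1`, `2`) -/
abbrev TP := MvPolynomial (Fin 3) ℝ

/-- value -/
noncomputable def val (R : TP) (x y z : ℝ) : ℝ := eval ![x, y, z] R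

/-- no common complex zero except `0` of the polynomial and its partial derivatives -/
def Smooth (R : TP) : Prop :=
  ∀ v : Fin 3 → ℂ, v ≠ 0 → aeval v R = 0 → ∃ i, aeval v (pderiv i R) ≠ 0

/-- `c` is a sign function, locally constant on the real curve `R (x, 1, z) = 0`, `x > 0 ≥ z` -/
def LocC (R : TP) (c : ℝ → ℝ → ℝ) : Prop :=
  ∀ x z : ℝ, 0 < x → z ≤ 0 → val R x 1 z = 0 → (c x z = 1 ∨ c x z = -1) ∧
    ∀ᶠ q : ℝ × ℝ in 𝓝 (x, z), 0 < q.1 → q.2 ≤ 0 → val R q.1 1 q.2 = 0 → c q.1 q.2 = c x z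

/-- There is a sign function `c`, locally constant on the real curve `R (x, 1, z) = 0`, `x > 0 ≥ z`,
which at the point `(aᵢ², 0)` is the sign of `aᵢ * ∂R/∂X (aᵢ², 1, 0)`. -/
def ArcSign {n : ℕ} (R : TP) (a : Fin n → ℝ) : Prop :=
  ∃ c : ℝ → ℝ → ℝ, LocC R c ∧ ∀ i, 0 < c (a i ^ 2) 0 * (a i * val (pderiv 0 R) (a i ^ 2) 1 0)

/-- exchange of `Y` and `Z` -/
noncomputable def swp (R : TP) : TP := rename (Equiv.swap (1 : Fin 3) 2) R

/-- `R` is a smooth real form of degree `n` with the restrictions given by `a`, `b`, `s`, with `n`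
different positive roots in `X` for all `Y, Z ≥ 0`, and with the sign rules for `a` and `b`. -/
structure Good {n : ℕ} (R : TP) (a b s : Fin n → ℝ) : Prop where
  hom : R.IsHomogeneous n
  ra : ∀ t : ℝ, val R t 1 0 = ∏ i, (t - a i ^ 2)
  rb : ∀ t : ℝ, val R t 0 1 = ∏ i, (t - b i ^ 2)
  rs : ∀ t : ℝ, val R t 1 1 = ∏ i, (t - s i ^ 2)
  s0 : ∀ i, 0 ≤ s i
  smooth : Smooth R
  hyp : ∀ y z : ℝ, 0 ≤ y → 0 ≤ z → (y ≠ 0 ∨ z ≠ 0) →
    ∃ f : Fin n → ℝ, Function.Injective f ∧ ∀ k, 0 < f k ∧ val R (f k) y z = 0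
  tr : ∀ z : ℝ, val R 0 1 z = 0 → val (pderiv 2 R) 0 1 z ≠ 0
  ca : ArcSign R a
  cb : ArcSign (swp R) b

/-! ### charts -/

/-- real polynomials in `z` (inner variable) and `x` (outer variable) -/
abbrev BR := Polynomial (Polynomial ℝ)

/-- complex polynomials in `y` or `z` (inner variable) and `x` (outer variable) -/
abbrev BC := Polynomial (Polynomial ℂ)

/-- value of `f` at `x`, `z` -/
noncomputable def evr (f : BR) (x z : ℝ) : ℝ := (f.map (Polynomial.evalRingHom z)).eval x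

/-- value of `f` at `x`, `y` -/
noncomputable def evc (f : BC) (x y : ℂ) : ℂ := (f.map (Polynomial.evalRingHom y)).eval x

/-- the chart `R (x, 1, z)` -/
noncomputable def ch (R : TP) : BR := aeval ![Polynomial.X, 1, Polynomial.C Polynomial.X] R

/-- complexification -/
noncomputable def cx (f : BR) : BC := f.map (Polynomial.mapRingHom (algebraMap ℝ ℂ))

/-- the chart `R (x, 1, y²)`, over `ℂ` -/
noncomputable def chc (R : TP) : BC :=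
  eval₂ ((Polynomial.C).comp ((Polynomial.C).comp (algebraMap ℝ ℂ)))
    ![Polynomial.X, 1, Polynomial.C (Polynomial.X ^ 2)] R

/-- degree at most `c`, where the inner variable has weight `1` and the outer one weight `w` -/
def WD {k : Type} [CommRing k] (w : ℕ) (f : Polynomial (Polynomial k)) (c : ℕ) : Prop :=
  ∀ j, f.coeff j ≠ 0 → (f.coeff j).natDegree + w * j ≤ c

/-- `y ↦ - y` -/
noncomputable def ss (f : BC) : BC := f.map (Polynomial.compRingHom (-Polynomial.X))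

/-- conjugation of the coefficients -/
noncomputable def cj (f : BC) : BC := f.map (Polynomial.mapRingHom (starRingEnd ℂ))

/-- normal form of a point of the conic `Y α² + Z β² = X ζ²` over the curve `R = 0` -/
structure NF {n : ℕ} (R : TP) (a b : Fin n → ℝ) (d : ℕ) (α β ζ : TP) (ε δ : Fin n → ℝ) : Prop where
  hα : α.IsHomogeneous d
  hβ : β.IsHomogeneous d
  hζ : ζ.IsHomogeneous d
  ζx : ∀ x y z, val ζ x y z = val ζ 0 y z
  pos : ∀ y z : ℝ, 0 ≤ y → 0 ≤ z → (y ≠ 0 ∨ z ≠ 0) → 0 < val ζ 0 y z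
  rel : R ∣ X 1 * α ^ 2 + X 2 * β ^ 2 - X 0 * ζ ^ 2
  hε : ∀ i, ε i = 1 ∨ ε i = -1
  hδ : ∀ i, δ i = 1 ∨ δ i = -1
  sa : ∀ i, val α (a i ^ 2) 1 0 = ε i * a i * val ζ 0 1 0
  sb : ∀ j, val β (b j ^ 2) 0 1 = δ j * b j * val ζ 0 0 1

/-- signs: `κ₁`, `κ₂` are forms of even degree `e`, `S` is a sign function, locally constant on the real
curve `R (x, 1, z) = 0`, `z < 0`, `x ≠ 0` -/
structure Kap (R : TP) (α β : TP) (e : ℕ) (κ₁ κ₂ : TP) (S : ℝ → ℝ → ℝ) : Prop where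
  even : Even e
  h₁ : κ₁.IsHomogeneous e
  h₂ : κ₂.IsHomogeneous e
  hI : ∀ x y z : ℝ, 0 < x → 0 ≤ y → 0 ≤ z → (y ≠ 0 ∨ z ≠ 0) → val R x y z = 0 →
    0 < val (pderiv 0 R) x y z * (y * val α x y z * val κ₁ x y z + z * val β x y z * val κ₂ x y z)
  loc : ∀ x z : ℝ, x ≠ 0 → z < 0 → val R x 1 z = 0 → (S x z = 1 ∨ S x z = -1) ∧
    ∀ᶠ q : ℝ × ℝ in 𝓝 (x, z), q.1 ≠ 0 → q.2 < 0 → val R q.1 1 q.2 = 0 → S q.1 q.2 = S x z
  hII : ∀ x z : ℝ, 0 < x → z < 0 → val R x 1 z = 0 →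
    √(-z) * |val κ₂ x 1 z| ≤ S x z * val κ₁ x 1 z
  hIII : ∀ x z : ℝ, x < 0 → z < 0 → val R x 1 z = 0 →
    |val κ₁ x 1 z| ≤ S x z * (√(-z) * val κ₂ x 1 z)

/-- admissible pairs `(κ₁, κ₂)` at the point `v` of the curve `R = 0` -/
def Adm (R α β : TP) (c S : ℝ → ℝ → ℝ) (v : Fin 3 → ℝ) : Set (ℝ × ℝ) :=
  {k | (0 ≤ v 1 → 0 ≤ v 2 →
      0 < eval v (pderiv 0 R) * (v 1 * eval v α * k.1 + v 2 * eval v β * k.2)) ∧
    (v 1 ≤ 0 → v 2 ≤ 0 →
      0 < eval (-v) (pderiv 0 R) * (-v 1 * eval (-v) α * k.1 + -v 2 * eval (-v) β * k.2)) ∧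
    (0 < v 0 * v 1 → v 1 * v 2 < 0 →
      √|v 2| * |k.2| < √|v 1| * (c (v 0 / v 1) (v 2 / v 1) * k.1)) ∧
    (0 < v 0 * v 2 → v 1 * v 2 < 0 →
      √|v 1| * |k.1| < √|v 2| * (S (v 0 / v 2) (v 1 / v 2) * k.2))}

/-- order of `f` at the ideal `p` -/
noncomputable def od {O : Type} [CommRing O] (p : Ideal O) (f : O) : ℕ := sSup {k : ℕ | f ∈ p ^ k}

/-- smoothness of a complex form -/
def SmC {m : ℕ} (P : MvPolynomial (Fin m) ℂ) : Prop :=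
  ∀ v : Fin m → ℂ, v ≠ 0 → eval v P = 0 → ∃ i, eval v (pderiv i P) ≠ 0

/-- the sorted roots `X k y z` of `R (·, y, z)` for `y, z ≥ 0` -/
structure Rts (n : ℕ) (R : TP) (x : Fin n → ℝ → ℝ → ℝ) : Prop where
  mono : ∀ y z : ℝ, 0 ≤ y → 0 ≤ z → (y ≠ 0 ∨ z ≠ 0) → StrictMono fun k => x k y z
  pos : ∀ y z : ℝ, 0 ≤ y → 0 ≤ z → (y ≠ 0 ∨ z ≠ 0) → ∀ k, 0 < x k y z
  prod : ∀ y z : ℝ, 0 ≤ y → 0 ≤ z → (y ≠ 0 ∨ z ≠ 0) → ∀ t : ℝ,
    val R t y z = ∏ k, (t - x k y z)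
  hom : ∀ y z c : ℝ, 0 ≤ y → 0 ≤ z → (y ≠ 0 ∨ z ≠ 0) → 0 < c → ∀ k,
    x k (c * y) (c * z) = c * x k y z
  cont : ∀ k, ContinuousOn (fun p : ℝ × ℝ => x k p.1 p.2)
    {p : ℝ × ℝ | 0 ≤ p.1 ∧ 0 ≤ p.2 ∧ (p.1 ≠ 0 ∨ p.2 ≠ 0)}

end Pool.Agent.RSV
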