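import Pool.Agent.RSV.Defs

/-!
# RSV: definitions about matrices
-/

set_option autoImplicit false

namespace Pool.Agent.RSV

open Complex Matrix Polynomial
open scoped ComplexConjugate

variable {n : ℕ}

/-- `A` is Hermitian and its eigenvalues, with multiplicity, are `a 0, …, a (n-1)` -/
def HasEig (A : Matrix (Fin n) (Fin n) ℂ) (a : Fin n → ℝ) : Prop :=
  A.IsHermitian ∧ A.charpoly = ∏ i, (X - C (a i : ℂ))

/-- singular values -/
def HasSing (T : Matrix (Fin n) (Fin n) ℂ) (s : Fin n → ℝ) : Prop :=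
  (∀ i, 0 ≤ s i) ∧ HasEig (Tᴴ * T) (fun i => s i ^ 2)

/-- realizable triples -/
def Rz (a b s : Fin n → ℝ) : Prop :=
  ∃ A B : Matrix (Fin n) (Fin n) ℂ, HasEig A a ∧ HasEig B b ∧ HasSing (A + I • B) s

/-- `det (u - (x A - i y B) (x A + i y B)) = R (u, x², y²)` -/
def DetR (R : TP) (A B : Matrix (Fin n) (Fin n) ℂ) : Prop :=
  ∀ u x y : ℂ, MvPolynomial.aeval ![u, x ^ 2, y ^ 2] R =
    (u • (1 : Matrix (Fin n) (Fin n) ℂ) -
      (x • A - (I * y) • B) * (x • A + (I * y) • B)).det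

/-- the Hermitian pencil -/
noncomputable def HH (A B : Matrix (Fin n) (Fin n) ℂ) (l e : ℂ) :
    Matrix (Fin n ⊕ Fin n) (Fin n ⊕ Fin n) ℂ :=
  fromBlocks (A + l • 1) (e • B) (e • B) (A - l • 1)

end Pool.Agent.RSV
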