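import Pool.Agent.RSV.StN

/-!
# RSV, lemmas for module Gn
-/

set_option autoImplicit false

namespace Pool.Agent.RSV

open Matrix Filter Topology
open scoped ComplexConjugate

section gen

variable {m : Type} [Fintype m] [DecidableEq m]

/-- Jacobi's formula along a path -/
lemma Gn_jac (M : ℂ → Matrix m m ℂ) (M' : Matrix m m ℂ) (t : ℂ)
    (hM : ∀ i j, HasDerivAt (fun s => M s i j) (M' i j) t) :
    HasDerivAt (fun s : ℂ => (M s).det) ((M t).adjugate * M').trace t := by
  have h1 : ∀ σ : Equiv.Perm m, HasDerivAt (fun s : ℂ => ∏ i, M s (σ i) i)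
      (∑ k, (∏ j ∈ Finset.univ.erase k, M t (σ j) j) • M' (σ k) k) t := by
    intro σ
    apply HasDerivAt.fun_finsetProd
    intro i _
    exact hM _ _
  have h3 : HasDerivAt (fun s : ℂ => ∑ σ : Equiv.Perm m,
      ((Equiv.Perm.sign σ : ℤ) : ℂ) * ∏ i, M s (σ i) i)
      (∑ σ : Equiv.Perm m, ((Equiv.Perm.sign σ : ℤ) : ℂ) *
        ∑ k, (∏ j ∈ Finset.univ.erase k, M t (σ j) j) • M' (σ k) k) t := by
    apply HasDerivAt.fun_sum
    intro σ _
    exact (h1 σ).const_mul _
  have h4 : (fun s : ℂ => (M s).det) = fun s : ℂ => ∑ σ : Equiv.Perm m,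
      ((Equiv.Perm.sign σ : ℤ) : ℂ) * ∏ i, M s (σ i) i := by
    funext s
    rw [det_apply']
  rw [h4]
  have h5 : ((M t).adjugate * M').trace = ∑ σ : Equiv.Perm m, ((Equiv.Perm.sign σ : ℤ) : ℂ) *
        ∑ k, (∏ j ∈ Finset.univ.erase k, M t (σ j) j) • M' (σ k) k := by
    have h6 : ((M t).adjugate * M').trace =
        ∑ k, ((M t).updateCol k (fun i => M' i k)).det := by
      rw [trace]
      refine Finset.sum_congr rfl fun k _ => ?_
      rw [← cramer_apply, cramer_eq_adjugate_mulVec]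
      rfl
    rw [h6]
    simp_rw [det_apply']
    rw [Finset.sum_comm]
    refine Finset.sum_congr rfl fun σ _ => ?_
    rw [Finset.mul_sum]
    refine Finset.sum_congr rfl fun k _ => ?_
    congr 1
    rw [← Finset.mul_prod_erase Finset.univ _ (Finset.mem_univ k), smul_eq_mul, mul_comm]
    congr 1
    · refine Finset.prod_congr rfl fun j hj => ?_
      rw [updateCol_ne (Finset.ne_of_mem_erase hj)]
    · rw [updateCol_self]
  rw [h5]
  exact h3

/-- diagonalization of `t - H` -/
lemma Gn_diag (H : Matrix m m ℂ) (hH : H.IsHermitian) (t : ℂ) :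
    (t • (1 : Matrix m m ℂ) - H).det = ∏ i, (t - (hH.eigenvalues i : ℂ)) ∧
    ((∀ k, ∏ j ∈ Finset.univ.erase k, (t - (hH.eigenvalues j : ℂ)) = 0) →
      (t • (1 : Matrix m m ℂ) - H).adjugate = 0) := by
  set U : Matrix m m ℂ := (hH.eigenvectorUnitary : Matrix m m ℂ) with hU
  set D : Matrix m m ℂ := diagonal (RCLike.ofReal ∘ hH.eigenvalues) with hD
  have h1 : H = U * D * star U := by
    conv_lhs => rw [hH.spectral_theorem, Unitary.conjStarAlgAut_apply]
  have hUU : U * star U = 1 := Unitary.mul_star_self_of_mem hH.eigenvectorUnitary.2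
  set D' : Matrix m m ℂ := diagonal (fun i => t - (hH.eigenvalues i : ℂ)) with hD'
  have h2 : t • (1 : Matrix m m ℂ) - H = U * D' * star U := by
    have h3 : D' = t • (1 : Matrix m m ℂ) - D := by
      rw [hD', hD, smul_one_eq_diagonal, diagonal_sub]
      rfl
    rw [h3, mul_sub, sub_mul, ← h1, mul_smul_comm, mul_one, smul_mul_assoc, hUU]
  refine ⟨?_, ?_⟩
  · rw [h2, det_mul, det_mul, mul_right_comm, ← det_mul, hUU, det_one, one_mul, hD',
      det_diagonal]
  · intro h
    have h4 : D'.adjugate = 0 := by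
      rw [hD', adjugate_diagonal, ← diagonal_zero]
      congr 1
      funext i
      exact h i
    rw [h2, adjugate_mul_distrib, adjugate_mul_distrib, h4, zero_mul, mul_zero]

end gen

/-- the chain rule for a polynomial in three variables -/
lemma Gn_chain (R : TP) (v : ℂ → Fin 3 → ℂ) (v' : Fin 3 → ℂ) (t : ℂ)
    (hv : ∀ i, HasDerivAt (fun s => v s i) (v' i) t) :
    HasDerivAt (fun s => MvPolynomial.aeval (v s) R)
      (∑ i, MvPolynomial.aeval (v t) (MvPolynomial.pderiv i R) * v' i) t := by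
  induction R using MvPolynomial.induction_on with
  | C a =>
    simp only [MvPolynomial.aeval_C, MvPolynomial.pderiv_C, map_zero, zero_mul,
      Finset.sum_const_zero]
    exact hasDerivAt_const _ _
  | add p q hp hq =>
    have := hp.add hq
    simp only [map_add, add_mul, Finset.sum_add_distrib]
    exact this
  | mul_X p j hp =>
    have := hp.mul (hv j)
    simp only [map_mul, MvPolynomial.aeval_X]
    have h1 : ∑ i, MvPolynomial.aeval (v t) (MvPolynomial.pderiv i (p * MvPolynomial.X j)) * v' i =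
        (∑ i, MvPolynomial.aeval (v t) (MvPolynomial.pderiv i p) * v' i) * v t j +
          MvPolynomial.aeval (v t) p * v' j := by
      have h2 : ∀ i, MvPolynomial.aeval (v t) (MvPolynomial.pderiv i (p * MvPolynomial.X j)) *
          v' i = MvPolynomial.aeval (v t) (MvPolynomial.pderiv i p) * v' i * v t j +
            if i = j then MvPolynomial.aeval (v t) p * v' j else 0 := by
        intro i
        rw [MvPolynomial.pderiv_mul, map_add, map_mul, map_mul, MvPolynomial.aeval_X]
        by_cases h : i = j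
        · subst h
          rw [MvPolynomial.pderiv_X_self, map_one, if_pos rfl]
          ring
        · rw [MvPolynomial.pderiv_X_of_ne (Ne.symm h), map_zero, if_neg h]
          ring
      rw [Finset.sum_congr rfl fun i _ => h2 i, Finset.sum_add_distrib, Finset.sum_ite_eq',
        if_pos (Finset.mem_univ j), Finset.sum_mul]
    rw [h1]
    exact this

lemma Gn_real (R : TP) (x y z : ℝ) :
    MvPolynomial.aeval ![(x : ℂ), (y : ℂ), (z : ℂ)] R = ((val R x y z : ℝ) : ℂ) := by
  have h : (![(x : ℂ), (y : ℂ), (z : ℂ)] : Fin 3 → ℂ) = algebraMap ℝ ℂ ∘ ![x, y, z] := by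
    funext i
    fin_cases i <;> rfl
  rw [h, MvPolynomial.aeval_algebraMap_apply]
  rfl

theorem Gn_deg {n : ℕ} {F : TP} (hF : F.IsHomogeneous n) {d : Fin 3 →₀ ℕ}
    (hd : MvPolynomial.coeff d F ≠ 0) : d 0 + d 1 + d 2 = n := by
  have h := hF hd
  rw [← h, Finsupp.weight_apply, Finsupp.sum_fintype _ _ (by simp), Fin.sum_univ_three]
  simp

theorem Gn_scale {n : ℕ} {F : TP} (hF : F.IsHomogeneous n) (c x y z : ℝ) :
    val F (c * x) (c * y) (c * z) = c ^ n * val F x y z := by
  unfold val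
  rw [MvPolynomial.eval_eq', MvPolynomial.eval_eq', Finset.mul_sum]
  refine Finset.sum_congr rfl (fun d hd => ?_)
  have h := Gn_deg hF (MvPolynomial.mem_support_iff.mp hd)
  rw [Fin.prod_univ_three, Fin.prod_univ_three]
  simp only [Matrix.cons_val_zero, Matrix.cons_val_one, Matrix.cons_val]
  rw [← h, pow_add, pow_add]
  ring

/-- `det (u - A²)` -/
lemma Gn_sq {n : ℕ} {A : Matrix (Fin n) (Fin n) ℂ} {a : Fin n → ℝ} (hA : HasEig A a)
    (u : ℂ) : (u • (1 : Matrix (Fin n) (Fin n) ℂ) - A * A).det = ∏ i, (u - (a i : ℂ) ^ 2) := by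
  obtain ⟨l, hl⟩ := IsAlgClosed.exists_pow_nat_eq u (n := 2) two_pos
  have h1 : ∀ t : ℂ, (t • (1 : Matrix (Fin n) (Fin n) ℂ) - A).det = ∏ i, (t - (a i : ℂ)) := by
    intro t
    have h1 := congrArg (Polynomial.eval t) hA.2
    rw [eval_charpoly, Polynomial.eval_prod] at h1
    rw [smul_one_eq_diagonal, ← scalar_apply, h1]
    simp
  have h2 : u • (1 : Matrix (Fin n) (Fin n) ℂ) - A * A =
      -((l • (1 : Matrix (Fin n) (Fin n) ℂ) - A) * ((-l) • (1 : Matrix (Fin n) (Fin n) ℂ) - A)) := by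
    rw [← hl, sub_mul, mul_sub, mul_sub, Matrix.smul_mul, Matrix.mul_smul, Matrix.mul_smul,
      Matrix.smul_mul, one_mul, one_mul, mul_one, sq]
    module
  rw [h2, det_neg, det_mul, h1, h1, Fintype.card_fin]
  have h3 : (-1 : ℂ) ^ n = ∏ _i : Fin n, (-1 : ℂ) := by simp
  rw [h3, ← Finset.prod_mul_distrib, ← Finset.prod_mul_distrib]
  refine Finset.prod_congr rfl (fun i _ => ?_)
  rw [← hl]
  ring

end Pool.Agent.RSV
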