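import Pool.Agent.RSV.StE

/-!
# RSV, module LA: the matrices `A`, `B` from the evaluations
-/

set_option autoImplicit false

namespace Pool.Agent.RSV

open Filter Topology Module Matrix
open scoped ComplexConjugate

/-- similar matrices by a unitary one have the same characteristic polynomial -/
private theorem LA_charpoly {n : ℕ} (V B : Matrix (Fin n) (Fin n) ℂ) (hV : V * Vᴴ = 1)
    (hV' : Vᴴ * V = 1) : (Vᴴ * B * V).charpoly = B.charpoly := by
  have h : IsUnit V := ⟨⟨V, Vᴴ, hV, hV'⟩, rfl⟩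
  rw [Matrix.charpoly_mul_comm, ← Matrix.mul_assoc, hV, Matrix.one_mul]

private theorem LA_charpoly_diag {n : ℕ} (b : Fin n → ℝ) :
    (diagonal fun k => (b k : ℂ)).charpoly
      = ∏ k, (Polynomial.X - Polynomial.C (b k : ℂ)) := by
  rw [Matrix.charpoly_diagonal]

theorem thm_LA : St_LA := by
  intro n a b U _ _ _ hn E r E' ε h1 h2 h3 h4 h5 hε h6 h7 h8
  have hinj : Function.Injective (E 0) := by
    rw [← LinearMap.ker_eq_bot, LinearMap.ker_eq_bot']
    exact h5
  have hfr : finrank ℂ U = finrank ℂ (Fin n → ℂ) := by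
    apply le_antisymm
    · exact LinearMap.finrank_le_finrank_of_injective hinj
    · simpa using hn
  have hsurj : Function.Surjective (E 0) :=
    (LinearMap.injective_iff_surjective_of_finrank_eq_finrank hfr).1 hinj
  choose e he using fun j : Fin n => hsurj (Pi.single j 1)
  let V : ℝ → Matrix (Fin n) (Fin n) ℂ := fun y => Matrix.of fun k j => E y (e j) k
  let D : ℝ → Matrix (Fin n) (Fin n) ℂ := fun y => diagonal (r y)
  let T : ℝ → Matrix (Fin n) (Fin n) ℂ := fun y => (V y)ᴴ * D y * V (-y)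
  have hVe : ∀ y k j, V y k j = E y (e j) k := fun _ _ _ => rfl
  have hV0 : V 0 = 1 := by
    ext k j
    rw [hVe, he, Matrix.one_apply, Pi.single_apply]
  have hVV : ∀ y, (V y)ᴴ * V y = 1 := by
    intro y
    ext i j
    have h := h1 (e j) (e i) y
    rw [Matrix.mul_apply]
    have h' : ∑ k, (V y)ᴴ i k * V y k j = ∑ k, E y (e j) k * conj (E y (e i) k) := by
      refine Finset.sum_congr rfl fun k _ => ?_
      rw [Matrix.conjTranspose_apply, hVe, hVe, mul_comm]
      rfl
    rw [h', h, he, he, Matrix.one_apply]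
    simp [Pi.single_apply, apply_ite]
  have hVV' : ∀ y, V y * (V y)ᴴ = 1 := fun y => mul_eq_one_comm.1 (hVV y)
  have hTe : ∀ y i j, T y i j = ∑ k, r y k * E (-y) (e j) k * conj (E y (e i) k) := by
    intro y i j
    change ((V y)ᴴ * diagonal (r y) * V (-y)) i j = _
    rw [Matrix.mul_apply]
    refine Finset.sum_congr rfl fun k _ => ?_
    rw [Matrix.mul_diagonal, Matrix.conjTranspose_apply, hVe, hVe]
    change conj (E y (e i) k) * r y k * E (-y) (e j) k = _
    ring
  choose κ₀ κ₁ hκ using h2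
  let A : Matrix (Fin n) (Fin n) ℂ := Matrix.of fun i j => κ₀ (e j) (e i)
  let C : Matrix (Fin n) (Fin n) ℂ := Matrix.of fun i j => κ₁ (e j) (e i)
  have hT : ∀ y : ℝ, T y = A + (y : ℂ) • C := by
    intro y
    ext i j
    rw [hTe, hκ]
    change _ = κ₀ (e j) (e i) + (y : ℂ) * κ₁ (e j) (e i)
    ring
  have hA : A = diagonal fun k => (a k : ℂ) := by
    have h := hT 0
    have h0 : T 0 = D 0 := by
      change (V 0)ᴴ * D 0 * V (-0) = D 0
      rw [neg_zero, hV0, conjTranspose_one, one_mul, mul_one]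
    rw [h0] at h
    simp only [Complex.ofReal_zero, zero_smul, add_zero] at h
    rw [← h]
    change diagonal (r 0) = _
    congr 1
    funext k
    exact h4 k
  have hTH : ∀ y, (T y)ᴴ = T (-y) := by
    intro y
    change ((V y)ᴴ * D y * V (-y))ᴴ = (V (-y))ᴴ * D (-y) * V (- -y)
    rw [conjTranspose_mul, conjTranspose_mul, conjTranspose_conjTranspose, neg_neg, ← mul_assoc]
    have hD : (D y)ᴴ = D (-y) := by
      change (diagonal (r y))ᴴ = diagonal (r (-y))
      rw [diagonal_conjTranspose]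
      congr 1
      funext k
      rw [h3 y k]
      rfl
    rw [hD]
  have hAH : Aᴴ = A := by
    rw [hA, diagonal_conjTranspose]
    congr 1
    funext k
    exact Complex.conj_ofReal _
  have hCH : Cᴴ = -C := by
    have h := hTH 1
    rw [hT, hT, conjTranspose_add, conjTranspose_smul, hAH] at h
    simpa using h
  let B : Matrix (Fin n) (Fin n) ℂ := (-Complex.I) • C
  have hBH : Bᴴ = B := by
    change ((-Complex.I) • C)ᴴ = (-Complex.I) • C
    rw [conjTranspose_smul, hCH]
    simp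
  have hTB : ∀ y : ℝ, T y = A + (Complex.I * y) • B := by
    intro y
    rw [hT]
    change _ = A + (Complex.I * y) • ((-Complex.I) • C)
    rw [smul_smul]
    congr 2
    linear_combination (y : ℂ) * Complex.I_mul_I
  -- the limit
  let V' : Matrix (Fin n) (Fin n) ℂ := Matrix.of fun k j => E' (e j) k
  have hlV : Tendsto V atTop (𝓝 V') := by
    refine tendsto_pi_nhds.2 fun k => tendsto_pi_nhds.2 fun j => ?_
    exact h6 (e j) k
  have hlVn : Tendsto (fun y => V (-y)) atTop (𝓝 ((ε : ℂ) • V')) := by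
    refine tendsto_pi_nhds.2 fun k => tendsto_pi_nhds.2 fun j => ?_
    exact h7 (e j) k
  have hlVH : Tendsto (fun y => (V y)ᴴ) atTop (𝓝 V'ᴴ) :=
    (Continuous.tendsto (Continuous.matrix_conjTranspose continuous_id) V').comp hlV
  have hV'V' : V'ᴴ * V' = 1 := by
    have h : Tendsto (fun y => (V y)ᴴ * V y) atTop (𝓝 (V'ᴴ * V')) := hlVH.mul hlV
    have h0 : Tendsto (fun y => (V y)ᴴ * V y) atTop (𝓝 1) := by
      simp only [hVV]
      exact tendsto_const_nhds
    exact tendsto_nhds_unique h h0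
  have hV'V'2 : V' * V'ᴴ = 1 := mul_eq_one_comm.1 hV'V'
  have hlD : Tendsto (fun y : ℝ => (Complex.I * y)⁻¹ • D y) atTop
      (𝓝 ((ε : ℂ) • diagonal fun k => (b k : ℂ))) := by
    refine tendsto_pi_nhds.2 fun k => tendsto_pi_nhds.2 fun j => ?_
    by_cases hkj : k = j
    · subst hkj
      have h := h8 k
      have e1 : (fun y : ℝ => ((Complex.I * y)⁻¹ • D y) k k)
          = fun y : ℝ => r y k / (Complex.I * y) := by
        funext y
        change (Complex.I * y)⁻¹ * (diagonal (r y)) k k = _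
        rw [diagonal_apply_eq, div_eq_inv_mul]
      rw [e1]
      change Tendsto _ _ (𝓝 ((ε : ℂ) * (diagonal fun k => (b k : ℂ)) k k))
      rw [diagonal_apply_eq]
      exact h
    · have e1 : (fun y : ℝ => ((Complex.I * y)⁻¹ • D y) k j) = fun _ => 0 := by
        funext y
        change (Complex.I * y)⁻¹ * (diagonal (r y)) k j = _
        rw [diagonal_apply_ne _ hkj, mul_zero]
      rw [e1]
      change Tendsto _ _ (𝓝 ((ε : ℂ) * (diagonal fun k => (b k : ℂ)) k j))
      rw [diagonal_apply_ne _ hkj, mul_zero]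
      exact tendsto_const_nhds
  have hεε : (ε : ℂ) * ε = 1 := by
    rcases hε with h | h <;> rw [h] <;> norm_num
  have hBlim : B = V'ᴴ * (diagonal fun k => (b k : ℂ)) * V' := by
    have t1 : Tendsto (fun y : ℝ => (V y)ᴴ * ((Complex.I * y)⁻¹ • D y) * V (-y)) atTop
        (𝓝 (V'ᴴ * ((ε : ℂ) • diagonal fun k => (b k : ℂ)) * ((ε : ℂ) • V'))) :=
      (hlVH.mul hlD).mul hlVn
    have e1 : V'ᴴ * ((ε : ℂ) • diagonal fun k => (b k : ℂ)) * ((ε : ℂ) • V')
        = V'ᴴ * (diagonal fun k => (b k : ℂ)) * V' := by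
      rw [Matrix.mul_smul, Matrix.mul_smul, Matrix.smul_mul, smul_smul, hεε, one_smul]
    rw [e1] at t1
    have t2 : Tendsto (fun y : ℝ => (V y)ᴴ * ((Complex.I * y)⁻¹ • D y) * V (-y)) atTop
        (𝓝 B) := by
      have e2 : (fun y : ℝ => (Complex.I * y)⁻¹ • A + B)
          =ᶠ[atTop] fun y : ℝ => (V y)ᴴ * ((Complex.I * y)⁻¹ • D y) * V (-y) := by
        filter_upwards [eventually_gt_atTop (0 : ℝ)] with y hy
        have hy' : Complex.I * (y : ℂ) ≠ 0 :=
          mul_ne_zero Complex.I_ne_zero (Complex.ofReal_ne_zero.2 hy.ne')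
        rw [Matrix.mul_smul, Matrix.smul_mul]
        change _ = (Complex.I * y)⁻¹ • T y
        rw [hTB, smul_add, smul_smul, inv_mul_cancel₀ hy', one_smul]
      refine Tendsto.congr' e2 ?_
      have t3 : Tendsto (fun y : ℝ => (Complex.I * y)⁻¹) atTop (𝓝 (0 : ℂ)) := by
        have t4 : Tendsto (fun y : ℝ => ((y⁻¹ : ℝ) : ℂ)) atTop (𝓝 ((0 : ℝ) : ℂ)) :=
          (Complex.continuous_ofReal.tendsto 0).comp tendsto_inv_atTop_zero
        have t5 := t4.const_mul (Complex.I⁻¹)
        simp only [Complex.ofReal_zero, mul_zero] at t5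
        refine t5.congr fun y => ?_
        rw [mul_inv, Complex.ofReal_inv]
      have t6 : Tendsto (fun y : ℝ => (Complex.I * y)⁻¹ • A + B) atTop
          (𝓝 ((0 : ℂ) • A + B)) := (t3.smul_const A).add_const B
      simpa using t6
    exact tendsto_nhds_unique t2 t1
  refine ⟨A, B, ⟨hAH, ?_⟩, ⟨hBH, ?_⟩, ?_⟩
  · rw [hA]
    exact LA_charpoly_diag a
  · rw [hBlim, LA_charpoly V' _ hV'V'2 hV'V']
    exact LA_charpoly_diag b
  · intro y u
    have e1 : A + (Complex.I * y) • B = T y := (hTB y).symm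
    have e2 : A - (Complex.I * y) • B = (T y)ᴴ := by
      rw [hTH, hTB]
      rw [sub_eq_add_neg, ← neg_smul]
      congr 2
      push_cast
      ring
    rw [e1, e2]
    have e3 : (T y)ᴴ * T y
        = (V (-y))ᴴ * (diagonal fun k => ((‖r y k‖ ^ 2 : ℝ) : ℂ)) * V (-y) := by
      change ((V y)ᴴ * D y * V (-y))ᴴ * ((V y)ᴴ * D y * V (-y)) = _
      have e4 : ((V y)ᴴ * D y * V (-y))ᴴ = (V (-y))ᴴ * (D y)ᴴ * V y := by
        rw [conjTranspose_mul, conjTranspose_mul, conjTranspose_conjTranspose, ← mul_assoc]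
      rw [e4]
      have e5 : (V (-y))ᴴ * (D y)ᴴ * V y * ((V y)ᴴ * D y * V (-y))
          = (V (-y))ᴴ * ((D y)ᴴ * (V y * (V y)ᴴ) * D y) * V (-y) := by
        simp only [mul_assoc]
      rw [e5, hVV', mul_one]
      congr 2
      change (diagonal (r y))ᴴ * diagonal (r y) = _
      rw [diagonal_conjTranspose, diagonal_mul_diagonal]
      congr 1
      funext k
      change conj (r y k) * r y k = _
      rw [← Complex.normSq_eq_conj_mul_self, Complex.normSq_eq_norm_sq]
    rw [e3]
    have e6 : u • (1 : Matrix (Fin n) (Fin n) ℂ)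
          - (V (-y))ᴴ * (diagonal fun k => ((‖r y k‖ ^ 2 : ℝ) : ℂ)) * V (-y)
        = (V (-y))ᴴ * (diagonal fun k => u - ((‖r y k‖ ^ 2 : ℝ) : ℂ)) * V (-y) := by
      have e7 : (diagonal fun k => u - ((‖r y k‖ ^ 2 : ℝ) : ℂ))
          = u • (1 : Matrix (Fin n) (Fin n) ℂ)
            - diagonal fun k => ((‖r y k‖ ^ 2 : ℝ) : ℂ) := by
        rw [smul_one_eq_diagonal, diagonal_sub]
      rw [e7, Matrix.mul_sub, Matrix.sub_mul, Matrix.mul_smul, Matrix.smul_mul, mul_one, hVV]
    rw [e6, det_mul_right_comm, hVV, one_mul, det_diagonal]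

end Pool.Agent.RSV
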