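import Pool.Agent.RSV.StC

/-!
# RSV, polynomial selection
-/

set_option autoImplicit false

namespace Pool.Agent.RSV

open MvPolynomial Filter Topology

/-- coordinates on `K` -/
noncomputable def Sel_co (K : Set (Fin 3 → ℝ)) (i : Fin 3) : C(K, ℝ) :=
  ⟨fun v => v.1 i, (continuous_apply i).comp continuous_subtype_val⟩

theorem Sel_aeval (K : Set (Fin 3 → ℝ)) (p : TP) (v : K) :
    (aeval (Sel_co K) p : C(K, ℝ)) v = eval v.1 p := by
  induction p using MvPolynomial.induction_on with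
  | C a =>
    rw [aeval_C, eval_C]
    rfl
  | add p q hp hq =>
    rw [map_add, map_add, ContinuousMap.add_apply, hp, hq]
  | mul_X p i hp =>
    rw [map_mul, map_mul, ContinuousMap.mul_apply, hp, aeval_X, eval_X]
    rfl

theorem Sel_approx (K : Set (Fin 3 → ℝ)) (hK : IsCompact K) (f : C(K, ℝ)) (ε : ℝ) (hε : 0 < ε) :
    ∃ p : TP, ∀ v : K, |eval v.1 p - f v| < ε := by
  have : CompactSpace K := isCompact_iff_compactSpace.1 hK
  have hsep : (AlgHom.range (aeval (Sel_co K) : TP →ₐ[ℝ] C(K, ℝ))).SeparatesPoints := by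
    intro v w hvw
    have h1 : ∃ i, v.1 i ≠ w.1 i := by
      by_contra hcon
      push Not at hcon
      exact hvw (Subtype.ext (funext hcon))
    obtain ⟨i, hi⟩ := h1
    refine ⟨_, ⟨aeval (Sel_co K) (X i : TP), ⟨X i, rfl⟩, rfl⟩, ?_⟩
    change (aeval (Sel_co K) (X i : TP) : C(K, ℝ)) v ≠ (aeval (Sel_co K) (X i : TP) : C(K, ℝ)) w
    rw [Sel_aeval, Sel_aeval, eval_X, eval_X]
    exact hi
  obtain ⟨⟨g, hg⟩, h⟩ :=
    ContinuousMap.exists_mem_subalgebra_near_continuousMap_of_separatesPoints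
      (AlgHom.range (aeval (Sel_co K) : TP →ₐ[ℝ] C(K, ℝ))) hsep f ε hε
  obtain ⟨p, rfl⟩ := hg
  refine ⟨p, fun v => ?_⟩
  have h2 := ContinuousMap.norm_coe_le_norm ((aeval (Sel_co K) : TP →ₐ[ℝ] C(K, ℝ)) p - f) v
  have h3 : ((aeval (Sel_co K) : TP →ₐ[ℝ] C(K, ℝ)) p - f) v = eval v.1 p - f v := by
    rw [ContinuousMap.sub_apply]
    exact congrArg (fun t => t - f v) (Sel_aeval K p v)
  rw [h3, Real.norm_eq_abs] at h2
  exact lt_of_le_of_lt h2 h

/-- the sum of the squares -/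
noncomputable def Sel_N : TP := X 0 ^ 2 + X 1 ^ 2 + X 2 ^ 2

theorem Sel_N_hom : Sel_N.IsHomogeneous 2 := by
  have h : ∀ i : Fin 3, (X i ^ 2 : TP).IsHomogeneous 2 := by
    intro i
    have := (isHomogeneous_X ℝ i).pow 2
    simpa using this
  exact ((h 0).add (h 1)).add (h 2)

theorem Sel_N_eval (v : Fin 3 → ℝ) : eval v Sel_N = v 0 ^ 2 + v 1 ^ 2 + v 2 ^ 2 := by
  simp [Sel_N]

/-- homogenized odd part -/
noncomputable def Sel_H (D : ℕ) (p : TP) : TP :=
  ∑ j ∈ Finset.range (D + 1),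
    if Odd j then homogeneousComponent j p * Sel_N ^ ((D - j) / 2) else 0

theorem Sel_H_hom (D : ℕ) (hD : Odd D) (p : TP) : (Sel_H D p).IsHomogeneous D := by
  apply IsHomogeneous.sum
  intro j hj
  rw [Finset.mem_range] at hj
  split_ifs with h
  · have e : j + 2 * ((D - j) / 2) = D := by
      obtain ⟨a, rfl⟩ := hD
      obtain ⟨b, rfl⟩ := h
      omega
    have h1 := (homogeneousComponent_isHomogeneous j p).mul (Sel_N_hom.pow ((D - j) / 2))
    rwa [e] at h1
  · exact isHomogeneous_zero _ _ _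

theorem Sel_neg (j : ℕ) (p : TP) (hp : p.IsHomogeneous j) (v : Fin 3 → ℝ) :
    eval (-v) p = (-1) ^ j * eval v p := by
  rw [eval_eq', eval_eq', Finset.mul_sum]
  refine Finset.sum_congr rfl fun d hd => ?_
  have hd' : ∑ i : Fin 3, d i = j := by
    have h1 := hp (mem_support_iff.1 hd)
    rw [← h1, Finsupp.weight_apply, Finsupp.sum_fintype]
    · simp
    · simp
  have h2 : ∏ i : Fin 3, (-v) i ^ d i = (-1) ^ j * ∏ i : Fin 3, v i ^ d i := by
    rw [← hd', ← Finset.prod_pow_eq_pow_sum, ← Finset.prod_mul_distrib]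
    refine Finset.prod_congr rfl fun i _ => ?_
    rw [Pi.neg_apply, neg_pow]
  rw [h2]
  ring

theorem Sel_sum (D : ℕ) (p : TP) (hp : p.totalDegree ≤ D) :
    p = ∑ j ∈ Finset.range (D + 1), homogeneousComponent j p := by
  conv_lhs => rw [← sum_homogeneousComponent (φ := p)]
  refine Finset.sum_subset ?_ ?_
  · intro j hj
    rw [Finset.mem_range] at hj ⊢
    omega
  · intro j _ hj
    rw [Finset.mem_range] at hj
    exact homogeneousComponent_eq_zero j p (by omega)

theorem Sel_H_eval (D : ℕ) (p : TP) (hp : p.totalDegree ≤ D) (v : Fin 3 → ℝ)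
    (hv : v 0 ^ 2 + v 1 ^ 2 + v 2 ^ 2 = 1) :
    eval v (Sel_H D p) = (1 / 2) * eval v p + (1 / 2) * (-(eval (-v) p)) := by
  have h1 : eval v p = ∑ j ∈ Finset.range (D + 1), eval v (homogeneousComponent j p) := by
    conv_lhs => rw [Sel_sum D p hp]
    rw [map_sum]
  have h2 : eval (-v) p =
      ∑ j ∈ Finset.range (D + 1), (-1) ^ j * eval v (homogeneousComponent j p) := by
    conv_lhs => rw [Sel_sum D p hp]
    rw [map_sum]
    refine Finset.sum_congr rfl fun j _ => ?_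
    exact Sel_neg j _ (homogeneousComponent_isHomogeneous j p) v
  rw [h1, h2, Sel_H, map_sum, Finset.mul_sum, ← Finset.sum_neg_distrib, Finset.mul_sum,
    ← Finset.sum_add_distrib]
  refine Finset.sum_congr rfl fun j _ => ?_
  split_ifs with h
  · rw [map_mul, map_pow, Sel_N_eval, hv, one_pow, h.neg_one_pow]
    ring
  · rw [map_zero, (Nat.not_odd_iff_even.1 h).neg_one_pow]
    ring

theorem thm_Sel : St_Sel := by
  intro K T hK hS hneg hconv hsym hloc
  have : CompactSpace K := isCompact_iff_compactSpace.1 hK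
  -- uniform radius
  have hunif : ∃ ε : ℝ, 0 < ε ∧ ∀ v : K, ∃ k : ℝ × ℝ, ∀ᶠ v' : K in 𝓝 v,
      ∀ k' : ℝ × ℝ, dist k' k < ε → k' ∈ T v'.1 := by
    choose! U k ε hU hvU hε hT using hloc
    obtain ⟨t, htK⟩ := hK.elim_nhds_subcover' (fun v hv => U v)
      (fun v hv => (hU v hv).mem_nhds (hvU v hv))
    classical
    by_cases hne : t.Nonempty
    · obtain ⟨m, hm, hmin⟩ := t.exists_min_image (fun v => ε v.1) hne
      refine ⟨ε m.1, hε _ m.2, fun v => ?_⟩
      have h1 := htK v.2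
      rw [Set.mem_iUnion₂] at h1
      obtain ⟨w, hw, hvw⟩ := h1
      refine ⟨k w.1, ?_⟩
      have h2 : ∀ᶠ v' : K in 𝓝 v, v'.1 ∈ U w.1 :=
        continuous_subtype_val.continuousAt.eventually ((hU w.1 w.2).mem_nhds hvw)
      filter_upwards [h2] with v' hv' k' hk'
      exact hT w.1 w.2 v'.1 ⟨hv', v'.2⟩ k' (lt_of_lt_of_le hk' (hmin w hw))
    · rw [Finset.not_nonempty_iff_eq_empty] at hne
      subst hne
      refine ⟨1, one_pos, fun v => ?_⟩
      have h1 := htK v.2
      simp at h1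
  obtain ⟨ε, hε, hT⟩ := hunif
  -- continuous selection
  have hcv : ∀ v : K, Convex ℝ {k : ℝ × ℝ | ∀ k' : ℝ × ℝ, dist k' k < ε → k' ∈ T v.1} := by
    intro v x hx y hy a b ha hb hab k' hk'
    have h1 : x + (k' - (a • x + b • y)) ∈ T v.1 := by
      apply hx
      rw [dist_eq_norm, add_sub_cancel_left, ← dist_eq_norm]
      exact hk'
    have h2 : y + (k' - (a • x + b • y)) ∈ T v.1 := by
      apply hy
      rw [dist_eq_norm, add_sub_cancel_left, ← dist_eq_norm]
      exact hk'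
    have h3 := hconv v.1 v.2 h1 h2 ha hb hab
    have h4 : a • (x + (k' - (a • x + b • y))) + b • (y + (k' - (a • x + b • y))) = k' := by
      rw [smul_add, smul_add]
      have : a • (k' - (a • x + b • y)) + b • (k' - (a • x + b • y)) =
          k' - (a • x + b • y) := by
        rw [← add_smul, hab, one_smul]
      calc a • x + a • (k' - (a • x + b • y)) + (b • y + b • (k' - (a • x + b • y)))
          = (a • x + b • y) +
            (a • (k' - (a • x + b • y)) + b • (k' - (a • x + b • y))) := by abel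
        _ = k' := by rw [this]; abel
    rwa [h4] at h3
  obtain ⟨g, hg⟩ := exists_continuous_forall_mem_convex_of_local_const hcv (fun v => hT v)
  obtain ⟨p₁, hp₁⟩ := Sel_approx K hK ⟨fun v => (g v).1, continuous_fst.comp g.continuous⟩ ε hε
  obtain ⟨p₂, hp₂⟩ := Sel_approx K hK ⟨fun v => (g v).2, continuous_snd.comp g.continuous⟩ ε hε
  have hp : ∀ v ∈ K, (eval v p₁, eval v p₂) ∈ T v := by
    intro v hv
    apply hg ⟨v, hv⟩
    rw [Prod.dist_eq, max_lt_iff, Real.dist_eq, Real.dist_eq]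
    exact ⟨hp₁ ⟨v, hv⟩, hp₂ ⟨v, hv⟩⟩
  refine ⟨max p₁.totalDegree p₂.totalDegree, fun D hD hodd => ?_⟩
  refine ⟨Sel_H D p₁, Sel_H D p₂, Sel_H_hom D hodd p₁, Sel_H_hom D hodd p₂, fun v hv => ?_⟩
  rw [Sel_H_eval D p₁ (le_trans (le_max_left _ _) hD) v (hS v hv),
    Sel_H_eval D p₂ (le_trans (le_max_right _ _) hD) v (hS v hv)]
  have h1 := hp v hv
  have h2 := hsym (-v) (hneg v hv) _ (hp (-v) (hneg v hv))
  rw [neg_neg] at h2
  have h3 := hconv v hv h1 h2 (a := 1 / 2) (b := 1 / 2) (by norm_num) (by norm_num) (by norm_num)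
  simpa using h3

end Pool.Agent.RSV
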