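import Pool.Agent.RSV.Defs

/-!
# RSV, part A (the conic over the curve): statements

The module `Pool/Agent/RSV/<X>.lean` proves `theorem Pool.Agent.RSV.thm_<X> : St_<Y> → ... → St_<X>`, where
the hypotheses are the statements named after `uses` in the docstring, in that order (keep them all,
even if not needed).  In the proofs: `R₁ = ch R = R (x, 1, z)`, `P_i = (aᵢ², 1, 0)`, `Q_j = (bⱼ², 0, 1)`.
Facts used often: `hom` and `ra` give `val R t 0 0 = t ^ n`; by `hyp` (for `(1, 0)` and `(0, 1)`) the `aᵢ²` are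
positive and different, the `bⱼ²` too; for `y, z ≥ 0`, not both `0`, `val R t y z = ∏ (t - f k)` with the `f` of
`hyp` (a monic polynomial of degree `n` in `t` with `n` different roots).
-/

set_option autoImplicit false

namespace Pool.Agent.RSV

open MvPolynomial Module
open scoped ComplexConjugate

/-- [Cz] (uses nothing) Common zeros of forms. Proof: let `J` be the ideal of the `f i`, `m` the kernel of the
evaluation at `0` (a maximal ideal, generated by the variables). All `f i` vanish at `0`, so `J ≤ m`. If `0` is the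
only common zero, then by the Nullstellensatz (`MvPolynomial.vanishingIdeal_zeroLocus_eq_radical`)
`J.radical = m`, so `m` is a minimal prime of `J`, and by Krull (`Ideal.height_le_spanFinrank`,
`Ideal.height_le_spanRank_toENat_of_mem_minimalPrimes`) the height of `m` is at most `r`. But it is `N` (chain of
the primes `(X_0, ..., X_(k-1))`, `k = 0, ..., N`; e.g. kernels of the maps setting `k` variables to `0`). -/
def St_Cz : Prop := ∀ (N r : ℕ) (f : Fin r → MvPolynomial (Fin N) ℂ), r < N →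
  (∀ i, ∃ d, 1 ≤ d ∧ (f i).IsHomogeneous d) → ∃ v : Fin N → ℂ, v ≠ 0 ∧ ∀ i, eval v (f i) = 0

/-- [Tsn] (uses Cz) Tsen. Proof: let `W d` be the space of the `f` with `f.natDegree < n` and `WD 1 f d`; for
`d ≥ n` its dimension is `∑ (j < n), (d - j + 1) = n (d + 1) - n (n - 1) / 2` (basis `y ^ i x ^ j`). Reduction
modulo `P` (`%ₘ`) maps `WD 1 _ D` to `WD 1 _ D` (`P` is monic of degree `n` with `WD 1 P n`: replace `x ^ (n + k)`
repeatedly). Let `WD 1 c_i e` for all `i`. For `p, q, w ∈ W d` the polynomial `(c₁ p² + c₂ q² + c₃ w²) %ₘ P` is in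
`W (2 d + e)`, its coefficients are `n (2 d + e + 1) - n (n - 1) / 2` quadratic forms in the
`3 (n (d + 1) - n (n - 1) / 2)` coefficients of `p, q, w`. For large `d` there are more unknowns than
equations; `Cz` gives a nonzero solution, and `p, q, w` have degree `< n`, so they are not all divisible by `P`. -/
def St_Tsn : Prop := ∀ (n : ℕ) (P : BC), 1 ≤ n → P.Monic → P.natDegree = n → WD 1 P n →
  ∀ c₁ c₂ c₃ : BC, ∃ p q w : BC, ¬ (P ∣ p ∧ P ∣ q ∧ P ∣ w) ∧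
    P ∣ c₁ * p ^ 2 + c₂ * q ^ 2 + c₃ * w ^ 2

/-- [Nst] (uses nothing) In `K(i)`: with `p = p₁ + i p₂` etc. the two equations say
`p² + c q² = (1 + i t) w²`. Proof: let `N = w₁² + w₂²`. If `N ≠ 0`, put
`P = (p₁² + p₂² - c (q₁² + q₂²)) / N`, `Q = 2 (p₁ q₁ + p₂ q₂) / N`; then
`N² (P² + c Q²) = |p² + c q²|² = (1 + t²) N²`. If `N = 0` then `w₁ = w₂ = 0` (`- 1` is no square), so
`p² + c q² = 0`, `q ≠ 0` (else `p = 0`), `- c = (p / q)²` with `p / q = x₁ + i x₂`, `x₁ x₂ = 0` (imaginary part). If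
`x₂ = 0`: `c = - x₁²`, take `P = 1 + t² / 2`, `Q = t² / (2 x₁)`. If `x₁ = 0`: `c = x₂²`, take `P = 1`, `Q = t / x₂`. -/
def St_Nst : Prop := ∀ (K : Type) [Field K] [CharZero K], (∀ x : K, x ^ 2 ≠ -1) → ∀ c t : K, c ≠ 0 →
  ∀ p₁ p₂ q₁ q₂ w₁ w₂ : K, (p₁ ≠ 0 ∨ p₂ ≠ 0 ∨ q₁ ≠ 0 ∨ q₂ ≠ 0 ∨ w₁ ≠ 0 ∨ w₂ ≠ 0) →
  p₁ ^ 2 - p₂ ^ 2 + c * (q₁ ^ 2 - q₂ ^ 2) = w₁ ^ 2 - w₂ ^ 2 - 2 * t * w₁ * w₂ →
  2 * p₁ * p₂ + 2 * c * q₁ * q₂ = 2 * w₁ * w₂ + t * (w₁ ^ 2 - w₂ ^ 2) →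
  ∃ P Q : K, 1 + t ^ 2 = P ^ 2 + c * Q ^ 2

/-- [Pf] (uses nothing) Pfister's argument. Proof: let `H` be the quaternion algebra over `K` with `i² = - A`,
`j² = - B`, `ij = - ji` (e.g. `ℍ[K, -A, 0, -B]`); its norm form `N (x) = x * star x` is
`x₀² + A x₁² + B x₂² + A B x₃²`, multiplicative. Assume that `N (x) ≠ 0` for `x ≠ 0`. Claim: for `x ≠ 0` and any `y`
there is `z ≠ 0` with `N (z) = N (x) + N (y)`; then by induction `∑ N (v j)` is `N (z)` with `z ≠ 0` if some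
`v j ≠ 0`, a contradiction. Proof of the claim: as `N (x) + N (y) = N (x) (1 + N (x⁻¹ y))` we may take `x = 1`.
`y = t + ω` with `t ∈ K` and `ω` pure, `W = N (ω)`, `ω² = - W`, `N (y) = t² + W`. If `ω = 0`, use
`1 + t² = P² + A Q²`, `z = P + Q i`; `z ≠ 0` since `1 + t² ≠ 0`. If `ω ≠ 0`, `W ≠ 0`: `1 + t² = P² + W Q²`, so
`1 + N (y) = P² + W (1 + Q²)`. There is a pure `e ≠ 0` with `ω e = - e ω` (some `e = ω x - x ω`), `E = N (e) ≠ 0`,
`1 + Q² = S² + E V²`, and `z = P + S ω + V ω e` has `N (z) = P² + W S² + W E V²` (`1, ω, ω e` are orthogonal).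
If `z = 0` then `P = 0` and `S ω + V ω e = 0`, i.e. `ω (S + V e) = 0`, so `S = V = 0` and `1 + Q² = 0`, a
contradiction. (One can also do everything with explicit coordinates.) -/
def St_Pf : Prop := ∀ (K : Type) [Field K] [CharZero K], (∀ x : K, x ^ 2 ≠ -1) →
  (∀ c t : K, c ≠ 0 → ∃ P Q : K, 1 + t ^ 2 = P ^ 2 + c * Q ^ 2) → ∀ A B : K, A ≠ 0 → B ≠ 0 →
  ∀ (m : ℕ) (v : Fin m → Fin 4 → K), (∃ j, v j ≠ 0) →
    ∑ j, (v j 0 ^ 2 + A * v j 1 ^ 2 + B * v j 2 ^ 2 + A * B * v j 3 ^ 2) = 0 →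
  ∃ p : Fin 4 → K, p ≠ 0 ∧ p 0 ^ 2 + A * p 1 ^ 2 + B * p 2 ^ 2 + A * B * p 3 ^ 2 = 0

/-- [Pol] (uses nothing) Polya's theorem in three variables. Proof: let `f = ∑ a_γ u^γ` over `|γ| = d`. The
coefficient of `u^κ`, `|κ| = N + d`, in `(u₀ + u₁ + u₂)^N f` is
`∑_γ a_γ N! / (κ - γ)! = N! (N + d)^d / κ! * f_t (κ / (N + d))`, `t = 1 / (N + d)`, where
`f_t (u) = ∑ a_γ ∏_i u_i (u_i - t) ... (u_i - (γ_i - 1) t)` (terms with `γ ≰ κ` vanish). On the compact simplex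
`u_i ≥ 0`, `∑ u_i = 1`, `f ≥ c > 0` and `f_t → f` uniformly for `t → 0`. So `f_t > 0` for small `t`. -/
def St_Pol : Prop := ∀ (d : ℕ) (f : TP), f.IsHomogeneous d →
  (∀ u : Fin 3 → ℝ, (∀ i, 0 ≤ u i) → u ≠ 0 → 0 < eval u f) →
  ∃ N₀ : ℕ, ∀ N, N₀ ≤ N → ∀ κ : Fin 3 →₀ ℕ, κ 0 + κ 1 + κ 2 = N + d →
    0 < coeff κ ((X 0 + X 1 + X 2) ^ N * f)

/-- [Mon] (uses nothing) The charts are monic. Proof: `R` is a form of degree `n` with the coefficient `1` at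
`x ^ n` (`val R t 0 0 = t ^ n`, from `ra` and homogeneity, or `val R 1 0 0 = 1` by comparing the coefficient of `t ^ n`
in `ra`), so `ch R` is the sum of `x^i z^k` over the monomials `x^i y^j z^k` of `R`, `i + j + k = n`. Same for `chc`
with `z = y²`. Last parts: evaluation. -/
def St_Mon : Prop := ∀ (n : ℕ) (R : TP) (a b s : Fin n → ℝ), 1 ≤ n → Good R a b s →
  ((ch R).Monic ∧ (ch R).natDegree = n ∧ WD 1 (ch R) n) ∧
  ((cx (ch R)).Monic ∧ (cx (ch R)).natDegree = n ∧ WD 1 (cx (ch R)) n) ∧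
  ((chc R).Monic ∧ (chc R).natDegree = n ∧ WD 2 (chc R) (2 * n)) ∧
  (∀ (F : TP) (x z : ℝ), evr (ch F) x z = val F x 1 z) ∧
  (∀ (F : TP) (x y : ℂ), evc (chc F) x y = aeval ![x, 1, y ^ 2] F)

/-- [Ira] (uses Cz, Mon) Irreducible over `ℂ`. Proof: let `R₁ = cx (ch R) = P * Q`, both no units; as `R₁` is
monic we may take `P`, `Q` monic in `x` of degrees `p, q ≥ 1`, `p + q = n`. Let `D (P)` be the least `c` with
`WD 1 P c` (total degree); it is additive, `D (P) ≥ p`, `D (Q) ≥ q`, `D (R₁) = n`, so `D (P) = p`, `D (Q) = q`.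
Homogenize: forms `P'`, `Q'` in `MvPolynomial (Fin 3) ℂ` of degrees `p`, `q` with `P' Q' = R` (over `ℂ`; a form of
given degree is determined by its restriction to `Y = 1`). By `Cz` (two forms, three variables) there is a common
zero `v ≠ 0`; by the product rule all partial derivatives of `R` vanish at `v`: not smooth. Second part: a
factorization over `ℝ` is one over `ℂ` (monic factors). -/
def St_Ira : Prop := ∀ (n : ℕ) (R : TP) (a b s : Fin n → ℝ), 1 ≤ n → Good R a b s →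
  Irreducible (cx (ch R)) ∧ Irreducible (ch R)

/-- [Irb] (uses Cz, Mon) `F (x, y) = R (x, 1, y²)` is irreducible. Proof: let `F = P Q`, monic in `x` of degrees
`p, q ≥ 1`. With the weights `2` for `x` and `1` for `y` the degree is additive, so it is `2 p`, `2 q`. Homogenize:
`P' (X, x, y)`, `Q' (X, x, y)` with weights `(2, 1, 1)` of weighted degrees `2 p`, `2 q` and
`P' Q' = R (X, x², y²)`; `P'` is the sum of `X ^ p` and of terms with less power of `X`. The polynomials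
`P' (w², x, y)`, `Q' (w², x, y)` are forms of degrees `2 p`, `2 q` in `w, x, y`; by `Cz` there is a common zero
`(w, x, y) ≠ 0`, and `(x, y) ≠ (0, 0)` since `P' (w², 0, 0) = w ^ (2 p)`. By the product rule the derivatives of
`R (X, x², y²)` with respect to `X`, `x`, `y` vanish at `(w², x, y)`: `R_X = 0`, `2 x R_Y = 0`, `2 y R_Z = 0` at
`v = (w², x², y²)`, and `R = 0`. If `x ≠ 0`, `y ≠ 0`: not smooth. If `y = 0`: `w² / x²` is a double root of
`R (t, 1, 0) = ∏ (t - aᵢ²)` (over `ℂ`), but the `aᵢ²` are different. If `x = 0`: the same for `b`. -/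
def St_Irb : Prop := ∀ (n : ℕ) (R : TP) (a b s : Fin n → ℝ), 1 ≤ n → Good R a b s →
  Irreducible (chc R)

/-- [Hst] (uses Mon, Nst, Tsn) The field `K` is the function field of the curve. Proof of the first part: let
`x = φ f / φ g`, `x² = - 1`: `ch R ∣ f² + g²`. For every `z ≥ 0` the polynomial `R (·, 1, z)` has `n` different real
roots, there `f = g = 0`. So `g %ₘ ch R` (degree `< n` in `x`) vanishes at `n` points for every `z ≥ 0`, hence it is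
`0` (all its coefficients vanish for all `z ≥ 0`), `φ g = 0`, a contradiction. Third part: the same, with
common denominator and `z > 0`. Second part: `c = φ c₁ / φ c₂`, `t = φ t₁ / φ t₂`. By `Tsn` for
`P = cx (ch R)` and `cx (c₂ t₂)`, `cx (c₁ t₂)`, `- cx c₂ * (cx t₂ + i cx t₁)` there are `p, q, w`. Write
`p = cx p₁ + i cx p₂` (real and imaginary parts of the coefficients), etc. A real and an imaginary part of a
multiple of `cx (ch R)` are multiples of `ch R`; so the images of the `p_i, q_i, w_i` in `K`, not all `0`, satisfy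
the equations of `Nst` (after dividing by `φ (c₂ t₂)`). -/
def St_Hst : Prop := ∀ (n : ℕ) (R : TP) (a b s : Fin n → ℝ), 1 ≤ n → Good R a b s →
  ∀ (K : Type) [Field K] [CharZero K] (φ : BR →+* K), (∀ f, φ f = 0 ↔ ch R ∣ f) →
  (∀ x : K, ∃ f g, φ g ≠ 0 ∧ x = φ f / φ g) →
  (∀ x : K, x ^ 2 ≠ -1) ∧ (∀ c t : K, c ≠ 0 → ∃ P Q : K, 1 + t ^ 2 = P ^ 2 + c * Q ^ 2) ∧
  ∀ r s : K, r ^ 2 + φ (Polynomial.C Polynomial.X) * s ^ 2 = 0 → r = 0 ∧ s = 0

/-- [Hmz] (uses nothing) Homogenization. First part: `∑ c_ij z^i x^j ↦ ∑ c_ij X^j Y^(e - i - j) Z^i`. Second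
part: (only from left to right) divide: `F = R q + r` with the degree of `r` in `X` less than `n` and `q`, `r`
forms (`R` is a form with coefficient `1` at `X ^ n`: as long as `F` contains a monomial `X^i Y^j Z^k` with `i ≥ n`,
maximal `i`, subtract the multiple of `X^(i-n) Y^j Z^k R`). `ch R ∣ ch r`, `ch R` is monic of degree `n` in `x`, so
`ch r = 0`; `ch` is injective on forms of a given degree, so `r = 0`. -/
def St_Hmz : Prop :=
  (∀ f : BR, ∃ e₀ : ℕ, ∀ e, e₀ ≤ e → ∃ F : TP, F.IsHomogeneous e ∧ ch F = f) ∧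
  (∀ (f : BR) (e : ℕ), WD 1 f e → ∃ F : TP, F.IsHomogeneous e ∧ ch F = f) ∧
  (∀ (F G : TP) (e : ℕ), F.IsHomogeneous e → G.IsHomogeneous e → ch F = ch G → F = G) ∧
  ∀ (n : ℕ) (R : TP) (e : ℕ) (F : TP), R.IsHomogeneous n → val R 1 0 0 = 1 → F.IsHomogeneous e →
    (ch R ∣ ch F ↔ R ∣ F)

/-- [Wit] (uses Mon, Ira, Hst, Pf, Pol, Hmz) A point of the conic. Proof: the form
`f (u) = (- 1)^n R (- u₀, u₁, u₂)` is positive for `u ≥ 0`, `u ≠ 0` (`R (- u₀, u₁, u₂) = ∏ (- u₀ - x_k)` with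
`x_k > 0` if `(u₁, u₂) ≠ 0`, and `(- u₀)^n` otherwise). By `Pol` there is `N`, `N + n` odd, such that
`(u₀ + u₁ + u₂)^N f = ∑ c_κ u^κ` with all `c_κ > 0`, `|κ| = N + n`. Put `u₀ = - X`, `u₁ = Y = 1`, `u₂ = Z`; modulo `R₁`
(in the field `K` of fractions of `BR / (ch R)`, a domain by `Ira`) `0 = ∑ c_κ (- x)^κ₀ z^κ₂`. As `|κ|` is odd, the
parities of `(κ₀, κ₁, κ₂)` are `(1,0,0)`, `(0,1,0)`, `(0,0,1)`, `(1,1,1)`, and the term is `- x`, `1`, `z`, `- x z`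
times the square of `√c_κ` times a monomial. So this is a sum as in `Pf` with `A = z`, `B = - x` (images in `K`,
not `0`), and the term of `κ = (0, N + n, 0)` is not `0`. So there is `p ≠ 0` in `K^4` with
`p₀² + z p₁² = x (p₂² + z p₃²)`. If `p₂² + z p₃² = 0` then by `Hst` `p₂ = p₃ = 0`, and then `p₀ = p₁ = 0`. So
`α = p₀ p₂ + z p₁ p₃`, `β = p₁ p₂ - p₀ p₃`, `u = p₂² + z p₃² ≠ 0` satisfy `α² + z β² = x u²`. Clear denominators and
homogenize with a large common degree (`Hmz`; `Y α² + Z β² - X u²` is a form, its chart is divisible by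
`ch R`). -/
def St_Wit : Prop := ∀ (n : ℕ) (R : TP) (a b s : Fin n → ℝ), 1 ≤ n → Good R a b s →
  ∃ (e : ℕ) (α β u : TP), α.IsHomogeneous e ∧ β.IsHomogeneous e ∧ u.IsHomogeneous e ∧
    R ∣ X 1 * α ^ 2 + X 2 * β ^ 2 - X 0 * u ^ 2 ∧ ¬ R ∣ u

/-- [NF0] (uses Mon, Ira, Hmz) Normal form. Proof: in the chart `Y = 1`, in the domain `D = BR / (ch R)`, finite
free over `ℝ[z]` with basis `1, x, ..., x^(n-1)`. `u₀ ≠ 0` in `D`, so some multiple `u₀ v = N ∈ ℝ[z]`, `N ≠ 0` (norm).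
Let `α₁`, `β₁` be the representatives of degree `< n` in `x` of `α₀ v`, `β₀ v`; divide `N` and all
coefficients of `α₁`, `β₁` by their greatest common divisor in `ℝ[z]`: we get `ζ ∈ ℝ[z]`, `α`, `β` with
`α² + z β² ≡ x ζ²`, `α₀ ζ ≡ α u₀`, `β₀ ζ ≡ β u₀` modulo `ch R`. Claim: `ζ` has no root `z₀ ≥ 0`. Otherwise at the
`n` different real roots `x_k` of `R (·, 1, z₀)`: `α² + z₀ β² = 0`. If `z₀ > 0`: `α (x_k, z₀) = β (x_k, z₀) = 0`, so
(degree `< n`) `z - z₀` divides all coefficients of `α` and `β`, a contradiction. If `z₀ = 0`: `α = z α'`,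
`ζ = z ζ'`, and dividing by `z` (no zero divisor in `D`) `z α'² + β² ≡ x z ζ'²`, so `β (x_k, 0) = 0`, `z ∣ β`, a
contradiction. Let `d = natDegree ζ` and the sign such that `ζ > 0` on `[0, ∞)`. Claim: `WD 1 α d`,
`WD 1 β d`. Let `D₁` be the maximum of the total degrees of `α` and `β` and `D₁ > d`. If the degree of `β` is
`D₁`: the part of degree `2 D₁ + 1` of `α² + z β² - x ζ²` is `z β_top²`, and it is divisible by the top part
`∏ (x - bⱼ² z)` of `ch R` (the quotient has total degree `2 D₁ + 1 - n`); so `β_top (bⱼ², 1) = 0` for all `j`, and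
`β_top` has degree `< n` in `x`: `β_top = 0`. If the degree of `β` is `< D₁`, that of `α` is `D₁`: the part of degree
`2 D₁` is `α_top²`, the same. Homogenize with degree `d` (`Hmz`): `ζ (y, z) = y^d ζ (z / y)` is positive for
`y > 0, z ≥ 0`, and for `y = 0` it is the leading coefficient times `z^d`. At `P_i`: `α² = aᵢ² ζ²`, so
`α (P_i) = ± aᵢ ζ (P_i)`; at `Q_j`: `β² = bⱼ² ζ²` (`Z = 1`, `Y = 0`). -/
def St_NF0 : Prop := ∀ (n : ℕ) (R : TP) (a b s : Fin n → ℝ), 1 ≤ n → Good R a b s →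
  ∀ (e : ℕ) (α₀ β₀ u₀ : TP), α₀.IsHomogeneous e → β₀.IsHomogeneous e → u₀.IsHomogeneous e →
    R ∣ X 1 * α₀ ^ 2 + X 2 * β₀ ^ 2 - X 0 * u₀ ^ 2 → ¬ R ∣ u₀ →
  ∃ (d : ℕ) (α β ζ : TP) (ε δ : Fin n → ℝ), NF R a b d α β ζ ε δ ∧
    R ∣ α₀ * ζ - α * u₀ ∧ R ∣ β₀ * ζ - β * u₀

/-- [Tw] (uses NF0) Change of signs. Proof: let `J = {i : ε' i ≠ ε i}`,
`h₁ = X^(n + 1 - |J|) ∏_(i ∈ J) (X - aᵢ² Y)`, `h₂ = X^n` (forms of degrees `n + 1`, `n`; `h₁ (P_i) = 0` iff `i ∈ J`,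
`h₂ (P_i) ≠ 0`, `h₁ (Q_j) ≠ 0`), `α₀ = α (h₁² - Y Z h₂²) - 2 Z β h₁ h₂`,
`β₀ = β (h₁² - Y Z h₂²) + 2 Y α h₁ h₂`, `u₀ = ζ (h₁² + Y Z h₂²)`. Then
`Y α₀² + Z β₀² = (Y α² + Z β²) (h₁² + Y Z h₂²)²`; `u₀ > 0` at the real points of the curve with `Y, Z > 0`
(`h₂ > 0`), so `¬ R ∣ u₀`. Apply `NF0`: `α', β', ζ', ε'', δ'''` with `α₀ ζ' - α' u₀ = R q`, `β₀ ζ' - β' u₀ = R q'`.
At `Q_j`: `β h₁² ζ' = β' ζ h₁²`, so `β'/ζ' = β/ζ` there, and `bⱼ ≠ 0`. At `P_i`, `i ∉ J`: the same. At `P_i`, `i ∈ J`: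
let `D = τ ∂_X + ∂_Z` with `τ R_X + R_Z = 0` at `P_i` (`R_X (P_i) ≠ 0`, simple root). `h₁ (P_i) = 0`, `Z = 0` at
`P_i`, so `α₀ = u₀ = 0`, `D α₀ = - α h₂²`, `D u₀ = ζ h₂²` at `P_i`, and `D (R q) = 0` there. So
`- α h₂² ζ' = α' ζ h₂²`, the sign changes. -/
def St_Tw : Prop := ∀ (n : ℕ) (R : TP) (a b s : Fin n → ℝ), 1 ≤ n → Good R a b s →
  ∀ (d : ℕ) (α β ζ : TP) (ε δ : Fin n → ℝ), NF R a b d α β ζ ε δ →
  ∀ ε' : Fin n → ℝ, (∀ i, ε' i = 1 ∨ ε' i = -1) →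
  ∃ (d' : ℕ) (α' β' ζ' : TP), NF R a b d' α' β' ζ' ε' δ

/-- [Sw] (uses nothing) Exchange of `Y` and `Z`: `val (swp R) x y z = val R x z y`. Proof of `tr` for `swp R`:
let `R (0, z, 1) = 0`; `z ≠ 0` since `R (0, 0, 1) = ∏ (- bⱼ²) ≠ 0` (`bⱼ² > 0` by `hyp`). So `R (0, 1, 1/z) = 0`
(homogeneity), `R_Z (0, 1, 1/z) ≠ 0` (`tr`), `R_Z (0, z, 1) ≠ 0`, and by Euler
`0 R_X + z R_Y + R_Z = n R = 0` at `(0, z, 1)`, so `R_Y ≠ 0`. The other fields are direct. -/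
def St_Sw : Prop :=
  (∀ (n : ℕ) (R : TP) (a b s : Fin n → ℝ), Good R a b s → Good (swp R) b a s) ∧
  (∀ (n : ℕ) (R : TP) (a b : Fin n → ℝ) (d : ℕ) (α β ζ : TP) (ε δ : Fin n → ℝ),
    NF R a b d α β ζ ε δ → NF (swp R) b a d (swp β) (swp α) (swp ζ) δ ε) ∧
  ∀ R : TP, swp (swp R) = R

/-- [NFa] (uses Wit, NF0, Tw, Sw) All signs occur: `Wit`, `NF0`, `Tw`, then `Tw` for the exchanged data, and
exchange back. -/
def St_NFa : Prop := ∀ (n : ℕ) (R : TP) (a b s : Fin n → ℝ), 1 ≤ n → Good R a b s →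
  ∀ ε δ : Fin n → ℝ, (∀ i, ε i = 1 ∨ ε i = -1) → (∀ i, δ i = 1 ∨ δ i = -1) →
  ∃ (d : ℕ) (α β ζ : TP), NF R a b d α β ζ ε δ

end Pool.Agent.RSV
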