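import Pool.Agent.RSV.Defs

/-!
# RSV, part C (real signs on the curve): statements

The module `Pool/Agent/RSV/<X>.lean` proves `theorem Pool.Agent.RSV.thm_<X> : St_<Y> → ... → St_<X>`, where
the hypotheses are the statements named after `uses` in the docstring, in that order (keep them all,
even if not needed).  In the proofs: `P_i = (aᵢ², 1, 0)`, `Q_j = (bⱼ², 0, 1)`; `x, y, z` are the coordinates
`v 0, v 1, v 2` of `v`.  For `y, z ≥ 0`, not both `0`, `R (t, y, z) = ∏ (t - f k)` with `n` different positive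
numbers `f k` (`hyp`, and the coefficient of `t ^ n` is `1` by `ra`), so `R = 0` implies `x > 0`, `R_X ≠ 0`.
-/

set_option autoImplicit false

namespace Pool.Agent.RSV

open MvPolynomial Filter Topology

/-- [Sel] (uses nothing) Polynomial selection. Proof: by compactness finitely many of the sets `U` cover `K`,
`U_i`, `k_i`, and one `ε > 0` for all. With a partition of unity `φ_i` on `K` let `k (v) = ∑ φ_i (v) k_i`; the ball
of radius `ε` around `k (v)` is in `T v` (convex combination of the balls around the `k_i` with `v ∈ U_i`). The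
odd part `(k (v) - k (- v)) / 2` has the same property (`T (-v) = - T v`, convexity); so let `k` be odd. By
Stone-Weierstrass there are polynomials `p₁, p₂` in three variables with `|p_i - k_i| < ε` on `K`; take the
odd parts. Homogenize: replace the component of degree `j` (odd, `j ≤ D₀`) by its product with
`(X² + Y² + Z²)^((D - j)/2)`, which is `1` to a power on `K`. -/
def St_Sel : Prop := ∀ (K : Set (Fin 3 → ℝ)) (T : (Fin 3 → ℝ) → Set (ℝ × ℝ)), IsCompact K →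
  (∀ v ∈ K, v 0 ^ 2 + v 1 ^ 2 + v 2 ^ 2 = 1) → (∀ v ∈ K, -v ∈ K) → (∀ v ∈ K, Convex ℝ (T v)) →
  (∀ v ∈ K, ∀ k ∈ T v, -k ∈ T (-v)) →
  (∀ v ∈ K, ∃ (U : Set (Fin 3 → ℝ)) (k : ℝ × ℝ) (ε : ℝ), IsOpen U ∧ v ∈ U ∧ 0 < ε ∧
    ∀ v' ∈ U ∩ K, ∀ k' : ℝ × ℝ, dist k' k < ε → k' ∈ T v') →
  ∃ D₀ : ℕ, ∀ D, D₀ ≤ D → Odd D → ∃ k₁ k₂ : TP, k₁.IsHomogeneous D ∧ k₂.IsHomogeneous D ∧
    ∀ v ∈ K, (eval v k₁, eval v k₂) ∈ T v

/-- [Nn] (uses nothing) The curve near a point of `X = 0`. Proof: `R_Z (0, 1, z₀) ≠ 0` by `tr`, so by the implicit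
function theorem there are `δ > 0` (`2 δ < - z₀`) and a `C¹` function `φ` on `(- δ, δ)` with `φ 0 = z₀` such that the
zeros of `R (x, 1, z)` with `|x| < δ`, `|z - z₀| < δ` are exactly the points `(x, φ x)` (after making `δ` smaller;
or directly: in a small box `|R_Z| ≥ m > 0` and `|R_X| ≤ M`, so for `x` fixed `R (x, 1, ·)` is strictly monotone).
Then `|z - z₀| ≤ C |x|`. On `0 < x < δ` the function `x ↦ c x (φ x)` is locally constant (`LocC`, continuity of `φ`),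
so it is constant on this interval; same for `x ↦ c' (x / φ x) (1 / φ x)` on `- δ < x < 0`: there
`x / z > 0`, `1 / z < 0`, `val (swp R) (x / z) 1 (1 / z) = val R (x / z) (1 / z) 1 = R (x, 1, z) / z ^ n = 0`. -/
def St_Nn : Prop := ∀ (n : ℕ) (R : TP) (a b s : Fin n → ℝ), 1 ≤ n → Good R a b s →
  ∀ c c' : ℝ → ℝ → ℝ, LocC R c → LocC (swp R) c' → ∀ z₀ : ℝ, z₀ < 0 → val R 0 1 z₀ = 0 →
  ∃ sA sB δ C : ℝ, (sA = 1 ∨ sA = -1) ∧ (sB = 1 ∨ sB = -1) ∧ 0 < δ ∧ ∀ x z : ℝ, |x| < δ →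
    |z - z₀| < δ → val R x 1 z = 0 →
      |z - z₀| ≤ C * |x| ∧ (0 < x → c x z = sA) ∧ (x < 0 → c' (x / z) (1 / z) = sB)

/-- [LcA] (uses nothing) Admissible pairs near a point with `x ≠ 0`. Proof: `Adm (- v) = Adm v`, so let `x₀ > 0`.
On the curve `x > 0`, `y ≤ 0`, `z ≤ 0` is impossible (`R (- x, - y, - z) ≠ 0`, and `R (x, 0, 0) = x ^ n`).
(a) `y₀ > 0`, `z₀ > 0`: only the first clause is active near `v₀`; `k = sign (R_X (v₀)) (α (v₀), β (v₀))`: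
`R_X (y α k₁ + z β k₂) = |R_X| (y α² + z β²) = |R_X| x ζ² > 0` at `v₀`, an open condition.
(b) `y₀ > 0`, `z₀ = 0`: `x₀ / y₀ = aᵢ²` for some `i`; `k = (c₀, 0)`, `c₀ = c (aᵢ²) 0`. First clause (if `z ≥ 0`): at
`v₀`, `R_X y α c₀` has the sign of `R_X (P_i) aᵢ c₀` (`α (P_i) = aᵢ ζ (P_i)`, `y₀ > 0`), positive by `hc`. Third clause
(if `z < 0`): near `v₀` `c (x / y) (z / y) = c₀`, the right side is near `√y₀`, the left side near `0`.
(c) `y₀ = 0`, `z₀ > 0`: `x₀ / z₀ = bⱼ²`; `k = (0, S₀)`, `S₀ = (-1)^n c' (bⱼ²) 0`; first clause: `R_X z β S₀` at `v₀` has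
the sign of `R_X (Q_j) (-1)^n bⱼ S₀ > 0` (`hc'`; the derivative of `swp R` at `(bⱼ², 1, 0)` is that of `R` at
`Q_j`); fourth clause like (b). (d) `y₀ > 0 > z₀`: `k = (c (x₀ / y₀) (z₀ / y₀), 0)`. (e) `z₀ > 0 > y₀`:
`k = (0, (-1)^n c' (x₀ / z₀) (y₀ / z₀))`. -/
def St_LcA : Prop := ∀ (n : ℕ) (R : TP) (a b s : Fin n → ℝ), 1 ≤ n → Good R a b s →
  ∀ c c' : ℝ → ℝ → ℝ, LocC R c → LocC (swp R) c' →
  (∀ i, 0 < c (a i ^ 2) 0 * (a i * val (pderiv 0 R) (a i ^ 2) 1 0)) →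
  (∀ i, 0 < c' (b i ^ 2) 0 * (b i * val (pderiv 0 (swp R)) (b i ^ 2) 1 0)) →
  ∀ (d : ℕ) (α β ζ : TP), NF R a b d α β ζ (fun _ => 1) (fun _ => (-1) ^ n) →
  ∀ v₀ : Fin 3 → ℝ, v₀ 0 ≠ 0 → eval v₀ R = 0 →
  ∃ (k : ℝ × ℝ) (ε : ℝ), 0 < ε ∧ ∀ᶠ v in 𝓝 v₀, eval v R = 0 → ∀ k' : ℝ × ℝ, dist k' k < ε →
    k' ∈ Adm R α β c (fun x y => (-1) ^ n * c' x y) v

/-- [LcN] (uses nothing) Admissible pairs near a point with `x = 0`. Proof: write `v = (x, y, z)`, near `v₀`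
`y > 0 > z`, and `(x / y, 1, z / y)` is on the chart curve near `(0, 1, z₀)`, `z₀ = v₀ 2 / v₀ 1`. For `x > 0` only
the third clause is active, for `x < 0` only the fourth, for `x = 0` none. Let `S = (-1)^n sB`,
`K = (κ₁⁰ + x k'₁, κ₂⁰ + x k'₂)` at `v`. As the degree `e₀` is even, `κ₁⁰ (v₀)` has the sign `sA`, `κ₂⁰ (v₀)` the sign
`S`; so near `v₀` the third clause (`c = sA`) is `D > 0` and the fourth (`(-1)^n c' (x / z) (y / z) = S`; note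
`(x / y) / (z / y) = x / z`) is `D < 0` with `D = √y sA K₁ - √|z| S K₂`. Write `D = D⁰ + x (√y sA k'₁ - √|z| S k'₂)`.
`D⁰ = √y sA κ₁⁰ - √|z| S κ₂⁰ = √y y^e₀ (sA κ₁⁰ (x/y, 1, z/y) - √|z/y| S κ₂⁰ (x/y, 1, z/y))` vanishes at
`(0, 1, z₀)` and is a `C¹` function of `(x / y, z / y)` there, so by `|z / y - z₀| ≤ C |x / y|` we get `|D⁰| ≤ C' |x|` on
the curve near `v₀`. Take `k = (sA M, - S M)` with large `M` and `ε = 1`: the factor of `x` is at least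
`(M - 1) (√y + √|z|) > C'`. -/
def St_LcN : Prop := ∀ (n : ℕ) (R : TP) (c c' : ℝ → ℝ → ℝ) (α β : TP) (e₀ : ℕ) (κ₁ κ₂ : TP)
  (v₀ : Fin 3 → ℝ) (sA sB δ C : ℝ), R.IsHomogeneous n → Even e₀ → κ₁.IsHomogeneous e₀ →
  κ₂.IsHomogeneous e₀ → v₀ 0 = 0 → 0 < v₀ 1 → v₀ 2 < 0 → (sA = 1 ∨ sA = -1) →
  (sB = 1 ∨ sB = -1) → 0 < δ →
  (∀ x z : ℝ, |x| < δ → |z - v₀ 2 / v₀ 1| < δ → val R x 1 z = 0 →
      |z - v₀ 2 / v₀ 1| ≤ C * |x| ∧ (0 < x → c x z = sA) ∧ (x < 0 → c' (x / z) (1 / z) = sB)) →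
  val κ₁ 0 1 (v₀ 2 / v₀ 1) = sA * √(-(v₀ 2 / v₀ 1)) → val κ₂ 0 1 (v₀ 2 / v₀ 1) = (-1) ^ n * sB →
  ∃ (k : ℝ × ℝ) (ε : ℝ), 0 < ε ∧ ∀ᶠ v in 𝓝 v₀, eval v R = 0 → ∀ k' : ℝ × ℝ, dist k' k < ε →
    (eval v κ₁ + v 0 * k'.1, eval v κ₂ + v 0 * k'.2) ∈
      Adm R α β c (fun x y => (-1) ^ n * c' x y) v

/-- [Kap] (uses Nn, LcA, LcN, Sel) The forms `κ₁`, `κ₂`. Proof: `c`, `c'` from `ca`, `cb`. The real zeros `z₀` of
`R (0, 1, ·)` are negative and finitely many; `sA (z₀)`, `sB (z₀)` from `Nn`. By Lagrange interpolation there are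
real polynomials `q₁, q₂` with `q₁ (z₀) = sA √(- z₀)`, `q₂ (z₀) = (-1)^n sB` at these points; homogenize them with
`Y` to forms `κ₁⁰`, `κ₂⁰` in `Y, Z` of the same even degree `e₀'`. `K` is the set of the real `v` with
`x² + y² + z² = 1` and `R (v) = 0`, `T v = {k : (κ₁⁰ (v) + x k₁, κ₂⁰ (v) + x k₂) ∈ Adm v}`. `T v` is convex, and
`T (- v) = - T v` since `Adm (- v) = Adm v` and the degree is even. A point of `K` with `x = 0` has `y z < 0`; if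
`y > 0` use `LcN`, if `y < 0` use `LcN` for `- v` and the symmetry. If `x ≠ 0`: `LcA` and continuity (the map
`k' ↦ κ⁰ (v) + x k'` is continuous in `(v, k')` and for `v = v₀` it takes the value `k` at some `k'`). `Sel` with a
large odd `D`, `e = D + 1`: `κ_i = κ_i⁰ (X² + Y² + Z²)^((e - e₀')/2) + X k_i`. Then `(κ₁ (v), κ₂ (v)) ∈ Adm v` for
`v ∈ K` with `x ≠ 0`; scale to all real `v ≠ 0` with `R (v) = 0`, `x ≠ 0` (all polynomials are homogeneous, `e` even).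
`hI`: first clause. `hII`: third clause at `(x, 1, z)`. `hIII`: fourth clause at `(x, 1, z)`, `x < 0`, `z < 0`.
`S x z = c x z` for `x > 0` and `(-1)^n c' (x / z) (1 / z)` for `x < 0`; it is locally constant by `LocC`. -/
def St_Kap : Prop := ∀ (n : ℕ) (R : TP) (a b s : Fin n → ℝ), 1 ≤ n → Good R a b s →
  ∀ (d : ℕ) (α β ζ : TP), NF R a b d α β ζ (fun _ => 1) (fun _ => (-1) ^ n) → ∀ e₀ : ℕ,
  ∃ (e : ℕ) (κ₁ κ₂ : TP) (S : ℝ → ℝ → ℝ), e₀ ≤ e ∧ Kap R α β e κ₁ κ₂ S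

end Pool.Agent.RSV
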