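import Pool.Agent.RSV.StA

/-!
# RSV, part D (the ideal): statements

The module `Pool/Agent/RSV/<X>.lean` proves `theorem Pool.Agent.RSV.thm_<X> : St_<Y> → ... → St_<X>`, where
the hypotheses are the statements named after `uses` in the docstring, in that order (keep them all,
even if not needed; statements of part A are in `StA.lean`).  Notation in the proofs: `F = chc R`,
`O = AdjoinRoot F`, `y` the inner, `x` the outer variable, `x`, `y` also their images in `O`.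
-/

set_option autoImplicit false

namespace Pool.Agent.RSV

open MvPolynomial Filter Topology Module
open scoped ComplexConjugate

/-- [Od] (uses nothing) Orders in a Dedekind domain. Proof: `p` is a prime element of the monoid of ideals;
`f ∈ p ^ k` iff `p ^ k ∣ span {f}`; this holds for `k ≤` the multiplicity of `p` in the factorization of
`span {f}`, which is finite and additive. Third part: by `Ideal.map` under a ring isomorphism. Fourth:
finitely many prime divisors of `span {f}`. Fifth: two nonzero ideals with the same powers of every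
maximal ideal above them are equal. -/
def St_Od : Prop := ∀ (O : Type) [CommRing O] [IsDedekindDomain O],
  (∀ p : Ideal O, p.IsMaximal → p ≠ ⊥ → ∀ f : O, f ≠ 0 → ∀ k, f ∈ p ^ k ↔ k ≤ od p f) ∧
  (∀ p : Ideal O, p.IsMaximal → p ≠ ⊥ → ∀ f g : O, f ≠ 0 → g ≠ 0 →
    od p (f * g) = od p f + od p g) ∧
  (∀ (τ : O ≃+* O) (p : Ideal O) (f : O), od (p.map τ) (τ f) = od p f) ∧
  (∀ f : O, f ≠ 0 → {p : Ideal O | p.IsMaximal ∧ p ≠ ⊥ ∧ od p f ≠ 0}.Finite) ∧
  ∀ I J : Ideal O, I ≠ ⊥ → J ≠ ⊥ →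
    (∀ p : Ideal O, p.IsMaximal → p ≠ ⊥ → ∀ k : ℕ, I ≤ p ^ k ↔ J ≤ p ^ k) → I = J

/-- [Idl] (uses Od) The ideal `z`. Proof: let `g = od p G`, `e = od p ρ - od p ζ`, `e' = od p (s ρ) - od p ζ` (integers;
`e' = e (s p)`, since `s ζ = ζ`). `e + e' = od p x₀ ≥ 0`; `h1` says `g ≥ 2 P`, `P = max (0, - e, - e')`. We look for
`z : primes → ℕ` with finite support and (1) `z (p) + z (τ p) = g (p)`, (2) `z (p) - z (s p) ≤ e (p)` for all `p`. The
primes (maximal ideals `≠ ⊥`) are permuted by `s`, `τ` (commuting involutions), `g (s p) = g (τ p) = g (p)`,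
`e (τ p) = e' (p)` (from `τ ρ = s ρ`), `e (s p) = e' (p)`.
Case `τ p = p`: `z (p) = 0` (`h2`; `s p` is of the same case, and `e = e' = 0` there since `od (s p) ρ = 0` too).
Case `τ p = s p ≠ p`: choose an integer `d` with `- e' ≤ d ≤ e`, `d ≡ g mod 2`, `|d| ≤ g`, and put
`z (p) = (g + d) / 2`, `z (s p) = (g - d) / 2` (one choice for each pair `{p, s p}`). Existence of `d`: if
`e + e' = 0` then `x₀ ∉ p`, `d = e` (`h3`, and `|e| = P ≤ g`). If `e + e' ≥ 1`: if `e, e' ≥ 0`, `d = 0` for even `g`, and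
`d = 1` or `d = - 1` for odd `g ≥ 1`. If `e < 0`: `P = - e`, `d = e` or `d = e - 1` (both are `≥ - e'`, and
`|e - 1| ≤ 2 P ≤ g`). If `e' < 0`: `d = - e'` or `d = - e' + 1`.
Other `p`: the classes `{p, s p}` of these primes are permuted by `τ` without fixed class; choose one class of each
pair of classes (the upper ones). For `p` upper: `z (p) = max (0, - e' (p))`, so `z (s p) = max (0, - e (p))`; for `τ p` with
`p` upper: `z (τ p) = g (p) - z (p)`. (2) for upper `p`: if `e, e' ≥ 0` the difference is `0`; if `e < 0`, then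
`e' > 0` and it is `e`; if `e' < 0` it is `- e' ≤ e`. (2) for `τ p`: `z (τ p) - z (s τ p) = z (s p) - z (p) ≤ e (s p)
= e' (p) = e (τ p)`.
Let `z` be the product of the `p ^ z (p)`. Then `z * z.map τ = span {G}` by unique factorization ((1)), and for
`f ∈ z`: `od p (ρ * s f) ≥ od p ρ + z (s p) ≥ od p ζ + z (p)` for all `p`, so (if `f ≠ 0`) `ρ * s f ∈ span {ζ} * z`. -/
def St_Idl : Prop := ∀ (O : Type) [CommRing O] [IsDedekindDomain O] (s τ : O ≃+* O),
  (∀ x, s (s x) = x) → (∀ x, τ (τ x) = x) → (∀ x, s (τ x) = τ (s x)) →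
  ∀ G ρ ζ x₀ : O, G ≠ 0 → ρ ≠ 0 → ζ ≠ 0 → s G = G → τ G = G → s ζ = ζ → τ ζ = ζ → τ ρ = s ρ →
  ρ * s ρ = x₀ * ζ ^ 2 →
  (∀ p : Ideal O, p.IsMaximal → p ≠ ⊥ → 2 * od p ζ ≤ od p G + 2 * od p ρ ∧
    2 * od p ζ ≤ od p G + 2 * od p (s ρ)) →
  (∀ p : Ideal O, p.IsMaximal → p ≠ ⊥ → p.map τ = p → od p G = 0 ∧ od p ρ = 0 ∧ od p ζ = 0) →
  (∀ p : Ideal O, p.IsMaximal → p ≠ ⊥ → p.map τ = p.map s → x₀ ∉ p →
    (od p G + od p ρ + od p ζ) % 2 = 0) →
  ∃ z : Ideal O, z * z.map τ = Ideal.span {G} ∧ ∀ f ∈ z, ∃ f' ∈ z, ζ * f' = ρ * s f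

/-- the points of the double cover are the maximal ideals, and the ring is a Dedekind domain -/
structure Pts (R : TP) : Prop where
  ded : IsDedekindDomain (AdjoinRoot (chc R))
  pt : ∀ p : Ideal (AdjoinRoot (chc R)), p.IsMaximal → p ≠ ⊥ ∧ ∃ x y : ℂ, evc (chc R) x y = 0 ∧
    ∀ f : BC, AdjoinRoot.mk (chc R) f ∈ p ↔ evc f x y = 0
  ex : ∀ x y : ℂ, evc (chc R) x y = 0 → ∃ p : Ideal (AdjoinRoot (chc R)), p.IsMaximal ∧
    ∀ f : BC, AdjoinRoot.mk (chc R) f ∈ p ↔ evc f x y = 0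

/-- [Ped] (uses Mon, Irb) Proof: `O` is a domain (`Irb`), finite over `ℂ[y]`, so noetherian of dimension one;
for a maximal ideal `p` the field `O / p` is finite over `ℂ[y] / (p ∩ ℂ[y])`, and `p ∩ ℂ[y] ≠ 0` is maximal
(integrality), so it is finite over `ℂ`, hence `ℂ`: `p` is the kernel of an evaluation at `(x₀, y₀)`,
`F (x₀, y₀) = 0`. Dedekind: it is enough that the localizations at the maximal ideals are discrete valuation
rings, i.e. (noetherian local domain, no field) have principal maximal ideal. Smoothness at `(x₀, y₀)`: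
`F_x = R_X (x₀, 1, y₀²)` or `F_y = 2 y₀ R_Z (x₀, 1, y₀²)` is not `0`: if `F_x = 0 = F_y` and `y₀ = 0`, then `x₀` is a
double root of `R (·, 1, 0) = ∏ (t - aᵢ²)`, excluded; if `y₀ ≠ 0` then `R_X = R_Z = 0 = R`, by Euler
(`X R_X + Y R_Y + Z R_Z = n R`, `Y = 1`) `R_Y = 0`, not smooth. If `F_y (x₀, y₀) ≠ 0`: writing
`F = (x - x₀) f₁ + (y - y₀) f₂` with `f₂ (x₀, y₀) = F_y (x₀, y₀) ≠ 0`, `f₂` is a unit of the localization and
`y - y₀` is a multiple of `x - x₀`; similarly if `F_x ≠ 0`. So `p` (generated by `x - x₀`, `y - y₀`) becomes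
principal. -/
def St_Ped : Prop := ∀ (n : ℕ) (R : TP) (a b s : Fin n → ℝ), 1 ≤ n → Good R a b s → Pts R

/-- [Sym] (uses nothing) The symmetries. Proof: `ss (chc R) = chc R`, `cj (chc R) = chc R` (`F` is real and even in
`y`), so `ss` and `cj`, which are involutive ring automorphisms of `BC`, induce ring automorphisms of the
quotient `BC / (F)`. Evaluation: `evc (ss f) x y = evc f x (- y)`, `evc (cj f) x y = conj (evc f (conj x) (conj y))`. -/
def St_Sym : Prop := ∀ (R : TP), (∃ s τ : AdjoinRoot (chc R) ≃+* AdjoinRoot (chc R),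
    (∀ f : BC, s (AdjoinRoot.mk (chc R) f) = AdjoinRoot.mk (chc R) (ss f)) ∧
    (∀ f : BC, τ (AdjoinRoot.mk (chc R) f) = AdjoinRoot.mk (chc R) (cj f)) ∧
    (∀ x, s (s x) = x) ∧ (∀ x, τ (τ x) = x) ∧ ∀ x, s (τ x) = τ (s x)) ∧
  (∀ G : TP, ss (chc G) = chc G ∧ cj (chc G) = chc G) ∧
  (∀ (f : BC) (x y : ℂ), evc (ss f) x y = evc f x (-y)) ∧
  ∀ (f : BC) (x y : ℂ), evc (cj f) x y = conj (evc f (conj x) (conj y))

/-- [Par] (uses Od, Ped) Parity of the order and sign. Proof: put `f' (x, η) = evc f x (i η)`, a polynomial with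
real values for real `x, η`, so with real coefficients; similarly `F' (x, η) = R (x, 1, - η²)`. The point
`q₀ = (x₀, η₀)` is a smooth point of `F' = 0`: `F'_x = R_X`, `F'_η = - 2 η₀ R_Z` (see `Ped`, `η₀ ≠ 0`). Let `t` be
`η - η₀` if `F'_x (q₀) ≠ 0` and `x - x₀` otherwise (then `F'_η (q₀) ≠ 0`). Claim: for a real polynomial `h`, not
divisible by `F'` (over `ℂ`), there are `k` and real polynomials `b, q` with `b (q₀) ≠ 0`, `q (q₀) ≠ 0` and
`b h ≡ q t^k` modulo `F'`: if `h (q₀) ≠ 0`, `k = 0`. If `h (q₀) = 0`, then `h = (x - x₀) h₁ + (η - η₀) h₂`, and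
`F' = (x - x₀) F₁ + (η - η₀) F₂`; in the first case `F₁ (q₀) = F'_x (q₀) ≠ 0` and
`F₁ h ≡ (η - η₀) (F₁ h₂ - F₂ h₁)`: `b h ≡ t h'`. Continue with `h'`; it stops since the order `od p` (of the
polynomial in `x`, `y = i η`, in `O`) decreases by at least one in each step (`t ∈ p`). For `h = f'`: `od p t = 1`
(`t ∉ p ^ 2`: by the same division `p` is generated by `t` locally: for all `h ∈ p` there is `b ∉ p` with
`b h ∈ (t)`; so `t ∈ p ^ 2` would give `p = p ^ 2` locally, e.g. `od p h ≥ od p t` for all `h ∈ p`, and some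
`h ∈ p` has `od p h = 1`), so `od p f = k`. Suppose that `k` is odd. `q / b` has constant sign near `q₀`. The real
curve `F' = 0` contains points near `q₀` with `t > 0` and with `t < 0` small: e.g. in the first case
`F' (·, η)` changes its sign near `x₀` for `η` near `η₀` (intermediate value theorem). At these points
`f' = q t^k / b` has both strict signs, in contradiction to `f' ≥ 0`. -/
def St_Par : Prop := ∀ (n : ℕ) (R : TP) (a b s : Fin n → ℝ), 1 ≤ n → Good R a b s →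
  ∀ x₀ η₀ : ℝ, η₀ ≠ 0 → val R x₀ 1 (-η₀ ^ 2) = 0 →
  ∀ p : Ideal (AdjoinRoot (chc R)), p.IsMaximal →
    (∀ f : BC, AdjoinRoot.mk (chc R) f ∈ p ↔ evc f x₀ (η₀ * Complex.I) = 0) →
  ∀ f : BC, (∀ x η : ℝ, (evc f x (η * Complex.I)).im = 0) → ¬ chc R ∣ f →
    (∀ᶠ q : ℝ × ℝ in 𝓝 (x₀, η₀), val R q.1 1 (-q.2 ^ 2) = 0 →
      0 ≤ (evc f q.1 (q.2 * Complex.I)).re) →
    Even (od p (AdjoinRoot.mk (chc R) f))

/-- [Rt] (uses nothing) Sorted roots. Proof: sort the values of the `f` of `hyp`; `R (·, y, z)` is monic of degree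
`n` (the coefficient of `t ^ n` is a constant by homogeneity, `1` by `ra`). `hom`: homogeneity. Continuity at a
point `(y₀, z₀)`: choose disjoint intervals around the `x k y₀ z₀` at whose ends `R (·, y₀, z₀)` has opposite
signs; for `(y, z)` in the quadrant near `(y₀, z₀)` the signs at the ends are the same, so every interval
contains a root of `R (·, y, z)`, hence exactly one, and it is the `k`-th one. For `n = 0` nothing to do. -/
def St_Rt : Prop := ∀ (n : ℕ) (R : TP) (a b s : Fin n → ℝ), 1 ≤ n → Good R a b s →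
  ∃ x : Fin n → ℝ → ℝ → ℝ, Rts n R x

/-- [NmD] (uses Mon, Irb, Rt) Proof: `O` is a domain, free over `ℂ[y]` with basis `1, x, ..., x^(n-1)` (power basis);
by `finrank_quotient_span_eq_natDegree_norm` the dimension is the degree of the norm `N ∈ ℂ[y]` of
`chc G`, if `chc G ≠ 0` in `O`. For real `y` the value of `N` at `y` is the product of
`G (x_k, 1, y²)` over the roots `x_k` of `F (·, y) = R (·, 1, y²)` (the norm is the determinant of the
multiplication; evaluate the matrix at `y`: it is the multiplication by `G (x, 1, y²)` in `ℂ[x] / (F (x, y))`,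
whose eigenvalues are the values at the different roots). With the `x k` of `Rt`, for `y > 0`:
`x_k = x k 1 (y²) = y² (x k (y⁻²) 1)`, `G (x_k, 1, y²) = y^(2m) G (x k (y⁻²) 1, y⁻², 1)`, and for
`y → ∞` the last factor tends to `G (x k 0 1, 0, 1) ≠ 0` (the `x k 0 1` are the `bⱼ²`). So `N (y) / y^(2 n m)` has a
nonzero limit, `natDegree N = 2 n m`, and `N ≠ 0`, so `chc G ≠ 0` in `O`. -/
def St_NmD : Prop := ∀ (n : ℕ) (R : TP) (a b s : Fin n → ℝ), 1 ≤ n → Good R a b s →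
  ∀ (m : ℕ) (G : TP), G.IsHomogeneous m → (∀ j, val G (b j ^ 2) 0 1 ≠ 0) →
  AdjoinRoot.mk (chc R) (chc G) ≠ 0 ∧
  Module.Finite ℂ (AdjoinRoot (chc R) ⧸ Ideal.span {AdjoinRoot.mk (chc R) (chc G)}) ∧
  finrank ℂ (AdjoinRoot (chc R) ⧸ Ideal.span {AdjoinRoot.mk (chc R) (chc G)}) = 2 * n * m

/-- [Hlf] (uses nothing) Half of the dimension. Proof: put `w = z.map τ`. `O / z` is a quotient of
`O / (z w)`, `dim O / (z w) = dim O / z + dim z / (z w)`, and `z / (z w) ≅ O / w` as `O`-modules (in a Dedekind domain: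
choose `c ∈ z` with `span {c} ⊔ z w = z`; multiplication by `c` induces the isomorphism, since `c h ∈ z w` iff
`h ∈ w`; or `z` is invertible). `τ` induces an additive bijection `O / z → O / w`, semilinear for the
conjugation, so the dimensions are the same. -/
def St_Hlf : Prop := ∀ (O : Type) [CommRing O] [IsDedekindDomain O] [Algebra ℂ O] (τ : O ≃+* O),
  (∀ (c : ℂ) (x : O), τ (c • x) = conj c • τ x) → ∀ z : Ideal O, z ≠ ⊥ →
  Module.Finite ℂ (O ⧸ (z * z.map τ)) →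
  Module.Finite ℂ (O ⧸ z) ∧ 2 * finrank ℂ (O ⧸ z) = finrank ℂ (O ⧸ (z * z.map τ))

/-- [H3] (uses Mon, Ped, Od, Sym, Par) The parity. Here `G₂ = Y α κ₁ + Z β κ₂`,
`ρ = α (x, 1, y²) + i y β (x, 1, y²)`. Proof: `p` is the ideal of a point `(x₀, y₀)` (`Ped`); `p.map τ` is that of
`(conj x₀, conj y₀)`, `p.map s` that of `(x₀, - y₀)` (`Sym`), so `x₀` is real and `y₀ = i η₀`, `η₀` real. `x₀ ≠ 0`. If
`η₀ = 0`: then `x₀` is a root of `R (·, 1, 0)`, and neither `G₂` nor `ρ` vanishes there: `hI` and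
`ρ ss(ρ) = x ζ² ≠ 0` in `O` at the point; so the order of both is `0`. Let `η₀ ≠ 0`. For real `x, η` the value of
`ρ G₂` at `(x, i η)` is real: `ρ = α - η β`, `G₂ = α κ₁ - η² β κ₂` at `(x, 1, - η²)`. We use `Par` for
`f = ± ρ G₂` (`ρ, G₂` are not divisible by `F`: `ρ` since `ρ ss(ρ) ≡ x ζ²`; `G₂` by `hI`). On the curve near the point
`S (x, - η²)` is constant, `S₀` (`loc`), and `α² - η² β² = x ζ²` there.
If `x > 0`: `|α| ≥ |η β|`, so `ρ α ≥ 0` and (if `α = 0` then `β = 0`, `ρ = 0`) it is enough that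
`S₀ α G₂ ≥ 0`: `S₀ α G₂ = α² S₀ κ₁ - η² α β S₀ κ₂ ≥ α² S₀ κ₁ - |η| α² |κ₂| ≥ 0` by `hII` (`√(- z) = |η|`). So
`S₀ ρ G₂ ≥ 0`. If `x < 0`: `|α| ≤ |η β|`, `ρ` has the sign of `- η β` (weakly: `- η β ρ ≥ 0`, and `β = 0` implies
`ρ = 0`), and `- S₀ β G₂ = - S₀ α β κ₁ + η² β² S₀ κ₂ ≥ |η| β² (|η| S₀ κ₂ - |κ₁|) ≥ 0` by `hIII`. So
`S₀ sign (η₀) ρ G₂ ≥ 0`. -/
def St_H3 : Prop := ∀ (n : ℕ) (R : TP) (a b s : Fin n → ℝ), 1 ≤ n → Good R a b s →
  ∀ (d : ℕ) (α β ζ : TP) (e : ℕ) (κ₁ κ₂ : TP) (S : ℝ → ℝ → ℝ),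
  NF R a b d α β ζ (fun _ => 1) (fun _ => (-1) ^ n) → Kap R α β e κ₁ κ₂ S →
  ∀ s τ : AdjoinRoot (chc R) ≃+* AdjoinRoot (chc R),
    (∀ f : BC, s (AdjoinRoot.mk (chc R) f) = AdjoinRoot.mk (chc R) (ss f)) →
    (∀ f : BC, τ (AdjoinRoot.mk (chc R) f) = AdjoinRoot.mk (chc R) (cj f)) →
  ∀ p : Ideal (AdjoinRoot (chc R)), p.IsMaximal → p.map τ = p.map s →
    AdjoinRoot.mk (chc R) Polynomial.X ∉ p →
    (od p (AdjoinRoot.mk (chc R) (chc (X 1 * α * κ₁ + X 2 * β * κ₂))) +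
      od p (AdjoinRoot.mk (chc R)
        (chc α + Polynomial.C (Polynomial.C Complex.I * Polynomial.X) * chc β))) % 2 = 0

/-- [Zid] (uses Mon, Ped, Od, Sym, H3, Idl, NmD, Hlf) The ideal. Proof: in `O` (Dedekind by `Ped`) put
`G = mk (chc (ζ³ (Y α κ₁ + Z β κ₂)))`, a form of degree `m = 4 d + e + 1`, `ρ` as in `H3`, `ζ = mk (chc ζ)`,
`x₀ = mk x`. `ss ρ = α - i y β = cj ρ` (as polynomials), `ρ s(ρ) = α² + y² β² = x ζ²` in `O`. `G (Q_j) ≠ 0`
(`hI` at `Q_j`), so `NmD` applies. Hypotheses of `Idl`: h1: `od ζ ≤ od G / 3`-type: `od p G ≥ 3 od p ζ ≥ 2 od p ζ`.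
h2: `p.map τ = p`: the point `(x₀, y₀)` of `p` is real, so `R (x₀, 1, y₀²) = 0` with `y₀² ≥ 0`, `x₀ > 0`; by `hI` and
`pos` `G ≠ 0` and `ζ ≠ 0` there, and `ρ s(ρ) = x ζ² ≠ 0`, so all three orders are `0`. h3: by `H3`,
`od G + od ρ + od ζ = 4 od ζ + od G₂ + od ρ`. Let `z` be the ideal of `Idl`, `J` its inverse image in `BC`.
`G ∣ f * τ g` in `O` for `f, g ∈ z`. The dimension: `Hlf` and `NmD` (`z ≠ ⊥` since `G ≠ 0`), and
`BC / J ≅ O / z` over `ℂ`. -/
def St_Zid : Prop := ∀ (n : ℕ) (R : TP) (a b s : Fin n → ℝ), 1 ≤ n → Good R a b s →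
  ∀ (d : ℕ) (α β ζ : TP) (e : ℕ) (κ₁ κ₂ : TP) (S : ℝ → ℝ → ℝ),
  NF R a b d α β ζ (fun _ => 1) (fun _ => (-1) ^ n) → Kap R α β e κ₁ κ₂ S →
  ∃ J : Ideal BC, chc R ∈ J ∧
    (∀ f ∈ J, ∀ g ∈ J, ∃ h : BC,
      chc R ∣ f * cj g - chc (ζ ^ 3 * (X 1 * α * κ₁ + X 2 * β * κ₂)) * h) ∧
    (∀ f ∈ J, ∃ f' ∈ J, chc R ∣ chc ζ * f' -
      (chc α + Polynomial.C (Polynomial.C Complex.I * Polynomial.X) * chc β) * ss f) ∧
    Module.Finite ℂ (BC ⧸ J) ∧ finrank ℂ (BC ⧸ J) = n * (4 * d + e + 1)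

end Pool.Agent.RSV
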