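import Pool.Agent.RSV.Defs2
import Pool.Agent.RSV.StA
import Pool.Agent.RSV.StC
import Pool.Agent.RSV.StD

/-!
# RSV, part E (matrices from the ideal): statements

The module `Pool/Agent/RSV/<X>.lean` proves `theorem Pool.Agent.RSV.thm_<X> : St_<Y> → ... → St_<X>`, where
the hypotheses are the statements named after `uses` in the docstring, in that order (keep them all,
even if not needed).  `x k y z` are the sorted roots (`Rts`); for real `y` put `x_k = x k 1 (y²)`.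
-/

set_option autoImplicit false

namespace Pool.Agent.RSV

open Filter Topology Module
open scoped ComplexConjugate

/-- [Ud] (uses nothing) Dimension. Proof: let `W` be the space of the `f` with `f.natDegree < n` and
`WD 2 f (m + n - 1)`; it has the basis `y ^ i x ^ j`, `j < n`, `i + 2 j ≤ m + n - 1`, so its dimension is
`∑ (j < n), (m + n - 2 j) = n (m + n) - n (n - 1) = n (m + 1)` (all terms are `≥ 0` as `m + 1 ≥ n`; `m + n - 1` is a
natural number as `n ≥ 1`). `U = W ∩ J` is the kernel of `W → BC / J`, so its dimension is at least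
`n (m + 1) - n m = n`. -/
def St_Ud : Prop := ∀ (n m : ℕ) (J : Ideal BC), 1 ≤ n → n ≤ m + 1 → Module.Finite ℂ (BC ⧸ J) →
  finrank ℂ (BC ⧸ J) ≤ n * m → ∃ U : Submodule ℂ BC,
    (∀ f ∈ U, f ∈ J ∧ f.natDegree < n ∧ WD 2 f (m + n - 1)) ∧ Module.Finite ℂ U ∧
    n ≤ finrank ℂ U

/-- [Pl] (uses Mon) Sums over the fibre are polynomials. Proof: let `F = chc R`, `h₀ = h %ₘ F`, of degree `< n` in `x`,
`P` its coefficient at `x ^ (n - 1)`. For real `y` the polynomial `F (·, y) = R (·, 1, y²)` is `∏ (t - x_k)` with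
different real `x_k`, so `h (x_k, y) = h₀ (x_k, y)`, `R_X (x_k, 1, y²) = ∏_(l ≠ k) (x_k - x_l)`, and by Lagrange
interpolation `∑ h₀ (x_k, y) / ∏_(l ≠ k) (x_k - x_l)` is the coefficient of `t ^ (n - 1)` of `h₀ (t, y)`, that is
`P (y)`. Finally `f (x_k, y) conj (g (x_k, y)) = f * cj g (x_k, y) = G (x_k, 1, y²) h (x_k, y)` for real `x_k, y`. -/
def St_Pl : Prop := ∀ (n : ℕ) (R : TP) (a b s : Fin n → ℝ), 1 ≤ n → Good R a b s →
  ∀ x : Fin n → ℝ → ℝ → ℝ, Rts n R x → ∀ G : TP,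
  (∀ (y : ℝ) (k : Fin n), val G (x k 1 (y ^ 2)) 1 (y ^ 2) ≠ 0) →
  ∀ f g h : BC, chc R ∣ f * cj g - chc G * h → ∃ P : Polynomial ℂ, ∀ y : ℝ,
    ∑ k, evc f (x k 1 (y ^ 2) : ℝ) y * conj (evc g (x k 1 (y ^ 2) : ℝ) y) /
      ((val (MvPolynomial.pderiv 0 R) (x k 1 (y ^ 2)) 1 (y ^ 2) *
        val G (x k 1 (y ^ 2)) 1 (y ^ 2) : ℝ) : ℂ) = P.eval (y : ℂ)

/-- [Lim] (uses nothing) Limits for `y → ∞`. Proof: for `y > 0` `x_k = y² x k (y⁻²) 1` (`Rts.hom`), and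
`x k (y⁻²) 1 → x k 0 1` (`Rts.cont`), so `x_k / y² → x k 0 1`. First part: a monomial `y ^ i x ^ j` of `f` has
`i + 2 j ≤ M`, `x_k ^ j (± y) ^ i / y ^ M → 0` if `i + 2 j < M` and `→ (± 1)^i (x k 0 1)^j`,
`(- 1)^i = (- 1)^M`, if `i + 2 j = M`. Second part: `R_X` is a form of degree `n - 1`:
`R_X (x_k, 1, y²) = y^(2 (n-1)) R_X (x_k / y², y⁻², 1)`, and `G` similarly. Third part: `x k 0 1` is a root of
`R (·, 0, 1) = ∏ (t - bⱼ²)`, so it is some `bⱼ²`; `α, β, ζ` at `(x_k, 1, y²)` are `y^(2 d)` times their values at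
`(x_k / y², y⁻², 1)`, which tend to those at `Q_j = (bⱼ², 0, 1)`; `ζ (Q_j) = ζ (0, 0, 1) > 0`. So
`(α + i y β) / (ζ i y) = α / (ζ i y) + β / ζ → 0 + (- 1)^n bⱼ` (`NF.sb`). -/
def St_Lim : Prop := ∀ (n : ℕ) (R : TP) (a b s : Fin n → ℝ), 1 ≤ n → Good R a b s →
  ∀ x : Fin n → ℝ → ℝ → ℝ, Rts n R x →
  (∀ (M : ℕ) (f : BC), WD 2 f M → ∃ φ : Fin n → ℂ, ∀ k,
    Tendsto (fun y : ℝ => evc f (x k 1 (y ^ 2) : ℝ) y / y ^ M) atTop (𝓝 (φ k)) ∧
    Tendsto (fun y : ℝ => evc f (x k 1 (y ^ 2) : ℝ) (-y) / y ^ M) atTop (𝓝 ((-1) ^ M * φ k))) ∧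
  (∀ (m : ℕ) (G : TP), G.IsHomogeneous m →
    (∀ k, 0 < val (MvPolynomial.pderiv 0 R) (x k 0 1) 0 1 * val G (x k 0 1) 0 1) →
    ∀ k, ∃ w : ℝ, 0 < w ∧ Tendsto (fun y : ℝ => y ^ (2 * (m + n - 1)) /
      (val (MvPolynomial.pderiv 0 R) (x k 1 (y ^ 2)) 1 (y ^ 2) *
        val G (x k 1 (y ^ 2)) 1 (y ^ 2))) atTop (𝓝 w)) ∧
  ∀ (d : ℕ) (α β ζ : TP), NF R a b d α β ζ (fun _ => 1) (fun _ => (-1) ^ n) →
    ∃ j : Fin n → Fin n, Function.Injective j ∧ ∀ k, x k 0 1 = b (j k) ^ 2 ∧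
      Tendsto (fun y : ℝ => ((val α (x k 1 (y ^ 2)) 1 (y ^ 2) : ℂ) +
          Complex.I * y * (val β (x k 1 (y ^ 2)) 1 (y ^ 2) : ℂ)) /
            (val ζ (x k 1 (y ^ 2)) 1 (y ^ 2) : ℂ) / (Complex.I * y)) atTop
        (𝓝 ((-1) ^ n * (b (j k) : ℂ)))

/-- [LA] (uses nothing) Linear algebra. Proof: `E 0` is injective and `n ≤ finrank U`, so it is bijective; let
`e j` be the preimages of the standard basis, `V y` the matrix with entries `E y (e j) k` (row `k`, column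
`j`); by `h1` `V y` is unitary for all `y`, `V 0 = 1`. Let `D y = diagonal (r y)` and
`T y = (V y)ᴴ * D y * V (- y)`; its entry `(i, j)` is the sum in `h2` for `f = e j`, `g = e i`, so `T y = A + y C` with
`A = T 0 = diagonal a`. By `h3` `(T y)ᴴ = T (- y)`, so `Cᴴ = - C`; put `B = - i C`, Hermitian, `T y = A + i y B`.
`(T y)ᴴ * T y = (V (- y))ᴴ * diagonal ‖r y k‖² * V (- y)` gives the determinant. The limit of
`T y / (i y)` for `y → ∞` is `B`, and it is `(V')ᴴ * (ε diagonal b) * (ε V')`, where `V'` (entries `E' (e j) k`) is the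
limit of `V y`, unitary. So `B = (V')ᴴ diagonal b V'`. -/
def St_LA : Prop := ∀ (n : ℕ) (a b : Fin n → ℝ) (U : Type) [AddCommGroup U] [Module ℂ U]
  [Module.Finite ℂ U], n ≤ finrank ℂ U → ∀ (E : ℝ → U →ₗ[ℂ] (Fin n → ℂ)) (r : ℝ → Fin n → ℂ)
  (E' : U → Fin n → ℂ) (ε : ℝ),
  (∀ f g y, ∑ k, E y f k * conj (E y g k) = ∑ k, E 0 f k * conj (E 0 g k)) →
  (∀ f g, ∃ κ₀ κ₁ : ℂ, ∀ y : ℝ, ∑ k, r y k * E (-y) f k * conj (E y g k) = κ₀ + κ₁ * y) →
  (∀ y k, r (-y) k = conj (r y k)) → (∀ k, r 0 k = a k) → (∀ f, E 0 f = 0 → f = 0) →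
  (ε = 1 ∨ ε = -1) → (∀ f k, Tendsto (fun y => E y f k) atTop (𝓝 (E' f k))) →
  (∀ f k, Tendsto (fun y => E (-y) f k) atTop (𝓝 (ε * E' f k))) →
  (∀ k, Tendsto (fun y : ℝ => r y k / (Complex.I * y)) atTop (𝓝 (ε * b k))) →
  ∃ A B : Matrix (Fin n) (Fin n) ℂ, HasEig A a ∧ HasEig B b ∧
    ∀ (y : ℝ) (u : ℂ), (u • (1 : Matrix (Fin n) (Fin n) ℂ) -
      (A - (Complex.I * y) • B) * (A + (Complex.I * y) • B)).det = ∏ k, (u - (‖r y k‖ ^ 2 : ℝ))

/-- [Suf] (uses Mon, Sym, Rt, NFa, Kap, Zid, Ud, Pl, Lim, LA) Sufficiency. Proof: take `NF` with `ε = 1`,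
`δ = (-1)^n`, `Kap` with `e ≥ n`, `J` from `Zid`, `m = 4 d + e + 1` (odd), `G = ζ³ (Y α κ₁ + Z β κ₂)`, a form of degree `m` with
`R_X G > 0` on the curve for `Y, Z ≥ 0` (`hI`, `pos`, `ζx`), `U` from `Ud`, `M = m + n - 1`, so
`(- 1)^M = (- 1)^n`. For real `y` let `w y k = 1 / (R_X G) (x_k, 1, y²) > 0` (even in `y`),
`E y f k = √(w y k) f (x_k, y)`, `r y k = (α + i y β) / ζ` at `(x_k, 1, y²)`, `|r y k|² = x_k`
(`α² + y² β² = x_k ζ²`). h1: by `Pl` (the first property of `J`) the sum is a polynomial in `y`; for `y → ∞` it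
converges (`Lim`: `√(w y k) y^M → √w`, `f (x_k, y) / y^M → φ k`), so it is constant. h2: for `f ∈ U` there is
`f' ∈ J` with `ζ f' = ρ * ss f` modulo `F`, so `f' (x_k, y) = r y k f (x_k, - y)`; by `Pl` for `f'`, `g` the sum in h2
is a polynomial in `y`, and divided by `y` it converges (`Lim`), so its degree is at most `1`. h4:
`x k 1 0` is a root of `R (·, 1, 0)`, so it is `a (i k)²` with a permutation `i`, and `r 0 k = a (i k)`
(`NF.sa`). h5: if `E 0 f = 0` then by h1 `f (x_k, y) = 0` for all real `y` and `k`, so `f (·, y) = 0` (degree `< n`) for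
all real `y`, `f = 0`. `ε = (- 1)^n`; limits by `Lim` (`E (- y) f k = √(w y k) f (x_k, - y)`), `b` permuted by
`j`. `LA` gives `A`, `B` with the spectra `a ∘ i`, `b ∘ j`, i.e. `a`, `b`, and
`det (u - (A - i y B) (A + i y B)) = ∏ (u - x_k) = R (u, 1, y²)` for real `y`, `u ∈ ℂ`. Both sides of `DetR` are
polynomials in `u, x, y`, homogeneous with weights `(2, 1, 1)`, so `DetR` follows: for `x ≠ 0` divide by
`x^(2 n)`, both sides are polynomials in `y / x`, equal for real values; for `x = 0` by continuity. Singular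
values: `x = y = 1`: the characteristic polynomial of `(A + i B)ᴴ (A + i B)` is `∏ (t - sᵢ²)` (`rs`). -/
def St_Suf : Prop := ∀ (n : ℕ) (R : TP) (a b s : Fin n → ℝ), 1 ≤ n → Good R a b s →
  ∃ A B : Matrix (Fin n) (Fin n) ℂ, HasEig A a ∧ HasEig B b ∧ HasSing (A + Complex.I • B) s ∧
    DetR R A B

end Pool.Agent.RSV
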