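import Pool.Agent.RSV.StE

/-!
# RSV, part N (necessity) and the theorem: statements

The module `Pool/Agent/RSV/<X>.lean` proves `theorem Pool.Agent.RSV.thm_<X> : St_<Y> → ... → St_<X>`, where
the hypotheses are the statements named after `uses` in the docstring, in that order (keep them all,
even if not needed).
-/

set_option autoImplicit false

namespace Pool.Agent.RSV

open Filter Topology Module Matrix
open scoped ComplexConjugate

/-- [Fam] (uses nothing) Families of forms. Proof: by Euler (`∑ X_i ∂_i P = d P`, `d ≥ 1`) `P_t` is smooth iff its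
partial derivatives, forms of degree `d - 1`, have no common zero except `0`. If `d = 1` they are constants,
polynomials in `t`, not all zero at `t = 1`. Let `d ≥ 2`. At `t = 1` by the Nullstellensatz some power of the ideal of
the variables is in the ideal of the partial derivatives, so for some `N ≥ d` all forms of degree `N` are
`∑ q_i ∂_i P₁` with forms `q_i` of degree `N - d + 1`. The linear map `(q_i) ↦ ∑ q_i ∂_i P_t` has in the monomial
bases a matrix with entries polynomial in `t`; at `t = 1` it has a right inverse, so some maximal minor is not `0`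
at `t = 1` (or: `det (M_t * M'_1)`, `M'_1` a right inverse of `M_1`, is a polynomial in `t` with the value `1` at
`t = 1`). For all `t` where it is not `0` the map is onto, so a common zero `v ≠ 0` of the partial
derivatives would be a zero of all forms of degree `N`, which is impossible. -/
def St_Fam : Prop := ∀ (m d : ℕ) (P : MvPolynomial (Fin m) (Polynomial ℂ)), 1 ≤ d →
  P.IsHomogeneous d → SmC (MvPolynomial.map (Polynomial.evalRingHom 1) P) →
  {t : ℂ | ¬ SmC (MvPolynomial.map (Polynomial.evalRingHom t) P)}.Finite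

/-- [RR] (uses nothing) The form of a pair, in a segment of Hermitian pairs. Proof: let
`Q (t, u, x, y) = det (u - (x A_t - i y B_t) (x A_t + i y B_t))`, a polynomial over `ℂ`, for fixed `t` homogeneous of
degree `2 n` with the weights `(2, 1, 1)` of `u, x, y`. Since `det (u - S T) = det (u - T S)` it is even in `y`; for
`x ↦ - x` the two factors are exchanged (up to the signs), so it is even in `x`. So `Q` is a polynomial `P` in
`t, u, x², y²`, homogeneous of degree `n` in the last three. Its coefficients are real: for real `t, u, x, y` the value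
is the determinant of a Hermitian matrix (`(x A + i y B)ᴴ = x A - i y B`), hence real. (For Hermitian matrices: write
`A₀ = A₀' + i A₀''` is not needed.) -/
def St_RR : Prop := ∀ (n : ℕ) (A₀ B₀ A₁ B₁ : Matrix (Fin n) (Fin n) ℂ), A₀.IsHermitian →
  B₀.IsHermitian → A₁.IsHermitian → B₁.IsHermitian →
  ∃ P : MvPolynomial (Fin 3) (Polynomial ℝ), P.IsHomogeneous n ∧ ∀ t : ℝ,
    DetR (MvPolynomial.map (Polynomial.evalRingHom t) P)
      (((1 - t : ℝ) : ℂ) • A₀ + ((t : ℝ) : ℂ) • A₁) (((1 - t : ℝ) : ℂ) • B₀ + ((t : ℝ) : ℂ) • B₁)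

/-- [HD] (uses nothing) The determinant of the pencil. Proof: conjugation by `[[1, 1], [1, -1]]` gives
`[[A + e B, l], [l, A - e B]]`, whose determinant is `det ((A + e B) (A - e B) - l²)` (the blocks `l` commute with
everything) `= (-1)^n det (l² - (A - i y B) (A + i y B))` with `i y = - e`, `y² = - e²`, `x = 1`. -/
def St_HD : Prop := ∀ (n : ℕ) (R : TP) (A B : Matrix (Fin n) (Fin n) ℂ), DetR R A B →
  ∀ l e : ℂ, (HH A B l e).det = (-1) ^ n * MvPolynomial.aeval ![l ^ 2, 1, -e ^ 2] R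

/-- [Ca] (uses HD) The sign rule. Proof: for `x > 0 ≥ z` let `l = √x`, `e = √(- z)`, real; `H = HH A B l e` is
Hermitian. Put `c x z = (-1)^(n-1)` times the sign of the real part of `tr (adjugate H)`. Let `R (x, 1, z) = 0`, so
`det H = 0` (`HD`). Claim: `adjugate H ≠ 0`. Otherwise the derivatives of `det (HH A B l e)` with respect to `l` and
`e` vanish (`d det = tr (adjugate * d)`), so by `HD` `2 l R_X = 0` and `- 2 e R_Z = 0` at `(x, 1, z)`; `R_X = 0`. If
`z = 0`, then `x` is a root of `R (·, 1, 0) = det (t - A²) = ∏ (t - aᵢ²)` (`DetR` for `y = 0`), `x = aᵢ²`, excluded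
by the hypothesis. If `z < 0`: `R_Z = 0`, and by Euler `R_Y = 0`: not smooth. So the rank of `H` is `2 n - 1`,
`adjugate H` is a nonzero Hermitian matrix of rank one (`H * adjugate H = 0`), so its trace is not `0`, and it is
real. `tr (adjugate H)` is continuous in `(x, z)`, so `c` is locally constant on the curve. At `(aᵢ², 0)`: `e = 0`,
`det (H + u) = ∏ ((a_j + u)² - aᵢ²)`, its derivative at `u = 0`, the trace of the adjugate, is
`2 aᵢ ∏_(j ≠ i) (a_j² - aᵢ²) = 2 aᵢ (-1)^(n-1) R_X (aᵢ², 1, 0)`. -/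
def St_Ca : Prop := ∀ (n : ℕ) (R : TP) (A B : Matrix (Fin n) (Fin n) ℂ) (a : Fin n → ℝ), 1 ≤ n →
  R.IsHomogeneous n → B.IsHermitian → DetR R A B → Smooth R → HasEig A a → (∀ i, a i ≠ 0) →
  (∀ i, val (MvPolynomial.pderiv 0 R) (a i ^ 2) 1 0 ≠ 0) → ArcSign R a

/-- [Gn] (uses Ca) A generic pair gives `Good`. Proof: `ra`, `rb`, `rs` from `DetR` at `(x, y) = (1, 0)`, `(0, 1)`,
`(1, 1)`. `hyp`: for `y, z ≥ 0` let `x' = √y`, `y' = √z`, `T = x' A + i y' B`, `R (t, y, z) = det (t - Tᴴ T)`: `n` real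
roots `≥ 0` with multiplicity. If `t₀` is a multiple root, then `t₀ - Tᴴ T` has corank `≥ 2`, its adjugate is `0`, so
the derivatives of `det (t - (x A - i y B) (x A + i y B))` with respect to `t`, `x`, `y` vanish at `(t₀, x', y')`:
`R_X = 0`, `2 x' R_Y = 0`, `2 y' R_Z = 0`. If `x', y' ≠ 0`: not smooth. If `y' = 0`: by homogeneity
`R_X (t₀ / y, 1, 0) = 0 = R`, excluded; similarly `x' = 0`. Let `R (0, y, z) = 0`; `y, z > 0` by the
hypotheses about `(0, 1, 0)` and `(0, 0, 1)`. With `y₀ = y' / x' ≠ 0` and `δ (w) = det (A + i w B)` we have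
`R (0, 1, w²) = (-1)^n δ (- w) δ (w)`; `δ (y₀) δ (- y₀) = 0` and `δ (- y₀) = conj (δ (y₀))`, so both vanish and the
derivative of `R (0, 1, w²)` at `y₀` is `0`: `2 y₀ R_Z (0, 1, y₀²) = 0`, excluded. `ca`: `Ca` (`a_i ≠ 0` as
`R (0, 1, 0) = ∏ (- aᵢ²) ≠ 0`). `cb`: `Ca` for `swp R` and the pair `(B, - A)`:
`(x B + i y A) (x B - i y A) = (y A - i x B) (y A + i x B)`, so `DetR (swp R) B (- A)`. -/
def St_Gn : Prop := ∀ (n : ℕ) (R : TP) (A B : Matrix (Fin n) (Fin n) ℂ) (a b s : Fin n → ℝ), 1 ≤ n →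
  R.IsHomogeneous n → DetR R A B → Smooth R → HasEig A a → HasEig B b →
  HasSing (A + Complex.I • B) s →
  (∀ t : ℝ, val R t 1 0 = 0 → val (MvPolynomial.pderiv 0 R) t 1 0 ≠ 0) →
  (∀ t : ℝ, val R t 0 1 = 0 → val (MvPolynomial.pderiv 0 R) t 0 1 ≠ 0) →
  (∀ z : ℝ, val R 0 1 z = 0 → val (MvPolynomial.pderiv 2 R) 0 1 z ≠ 0) →
  val R 0 1 0 ≠ 0 → val R 0 0 1 ≠ 0 → Good R a b s

/-- [Shy] (uses nothing) A strictly hyperbolic form and its perturbations. Proof: with `L = X - Y - Z`,
`ε = 1 / (2 n)` let `R` be the product of the `L² - k² ε² (Y² + Z²)`, `1 ≤ k ≤ n / 2`, and of `L` if `n` is odd. Its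
roots in `X` for `(y, z) ≠ 0` are `y + z ± k ε √(y² + z²)` (and `y + z`), different, and for `y, z ≥ 0` positive, since
`y + z ≥ √(y² + z²)`. Let `R_t` be the perturbed form. For `(y, z)` on the unit circle choose points between and
around the roots where `R` alternates in sign with absolute value `≥ m > 0` (uniformly: between neighbouring roots the
middle `y + z + (k ± 1/2) ε`; outside `y + z ± n ε`, all `≥` some positive number if `y, z ≥ 0`); for small `t` the
signs of `R_t` there are the same, so `R_t (·, y, z)` has `n` different real roots, positive if `y, z ≥ 0`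
(take the lowest point positive). For other `(y, z)`: homogeneity. -/
def St_Shy : Prop := ∀ n : ℕ, 1 ≤ n → ∃ R : TP, R.IsHomogeneous n ∧ val R 1 0 0 = 1 ∧
  ∃ t₀ : ℝ, 0 < t₀ ∧ t₀ < 1 ∧ ∀ t : ℝ, 0 < t → t < t₀ → ∀ y z : ℝ, (y ≠ 0 ∨ z ≠ 0) →
    ∃ f : Fin n → ℝ, Function.Injective f ∧ (∀ k, val (MvPolynomial.C (1 - t) * R +
      MvPolynomial.C t * (MvPolynomial.X 0 ^ n + MvPolynomial.X 1 ^ n + MvPolynomial.X 2 ^ n))
        (f k) y z = 0) ∧ (0 ≤ y → 0 ≤ z → ∀ k, 0 < f k)

/-- [Ex] (uses Shy, Fam) A good form whose restriction to `X = 0` is smooth over `ℂ`. Proof: let `R` be from `Shy`,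
`R_t = (1 - t) R + t (X^n + Y^n + Z^n)`. `R_1` is smooth, and so is `R_1 (0, Y, Z) = Y^n + Z^n`; by `Fam` (three and two
variables) we find a real `t ∈ (0, t₀)` with `R_t` and `R_t (0, Y, Z)` smooth over `ℂ`. `R_t` is a form of degree `n`
with coefficient `1` at `X^n`. Let `aᵢ`, `bᵢ`, `sᵢ > 0` be the square roots of the roots of `R_t (·, 1, 0)`,
`R_t (·, 0, 1)`, `R_t (·, 1, 1)`. `tr`: a common real zero `(0, 1, z)` of `R_t` and `∂_Z R_t` is by Euler a zero of
`∂_Y R_t` too (`X = 0`). `ca`: all real zeros `(x, 1, z)` of `R_t` have `R_X ≠ 0` (simple root), so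
`c x z = sign (R_X (x, 1, z))` is locally constant, and at `(aᵢ², 0)` it is the sign of `aᵢ R_X`. `cb`: the same for
`swp R_t`. -/
def St_Ex : Prop := ∀ n : ℕ, 1 ≤ n → ∃ (R : TP) (a b s : Fin n → ℝ), Good R a b s ∧
  ∀ v : Fin 2 → ℂ, v ≠ 0 → MvPolynomial.aeval ![0, v 0, v 1] R = 0 →
    MvPolynomial.aeval ![0, v 0, v 1] (MvPolynomial.pderiv 1 R) ≠ 0 ∨
    MvPolynomial.aeval ![0, v 0, v 1] (MvPolynomial.pderiv 2 R) ≠ 0

/-- [Clo] (uses nothing) Closedness. Proof: `(a, b, s)` is realizable iff `s ≥ 0` and there are unitary `U`, `V`, `W`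
with `Tᴴ T = W diag(s²) Wᴴ` for `T = U diag(a) Uᴴ + i V diag(b) Vᴴ`. The set of all `(U, V, W, a, b, s)` with this
is closed and the unitary matrices form a compact set, so the projection is closed. -/
def St_Clo : Prop := ∀ n : ℕ, IsClosed {p : (Fin n → ℝ) × (Fin n → ℝ) × (Fin n → ℝ) |
  Rz p.1 p.2.1 p.2.2}

/-- [Eig] (uses nothing) Continuity of eigenvalues. Proof: let `α m` be the sorted eigenvalues of `M m`, and
`a = α₀ ∘ σ` with `α₀` sorted, `σ` a permutation. The `α m` are bounded; every limit point of the sequence is sorted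
and has `∏ (X - α i) = charpoly M₀` (continuity of the coefficients), so it is `α₀`; so `α m → α₀`. Put
`a' m = α m ∘ σ`. Second part: first part for `(T m)ᴴ * T m`, whose eigenvalues are `≥ 0`, and square roots. -/
def St_Eig : Prop := (∀ (n : ℕ) (M : ℕ → Matrix (Fin n) (Fin n) ℂ) (M₀ : Matrix (Fin n) (Fin n) ℂ)
    (a : Fin n → ℝ), (∀ m, (M m).IsHermitian) → Tendsto M atTop (𝓝 M₀) → HasEig M₀ a →
    ∃ a' : ℕ → Fin n → ℝ, (∀ m, HasEig (M m) (a' m)) ∧ Tendsto a' atTop (𝓝 a)) ∧
  ∀ (n : ℕ) (T : ℕ → Matrix (Fin n) (Fin n) ℂ) (T₀ : Matrix (Fin n) (Fin n) ℂ)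
    (s : Fin n → ℝ), Tendsto T atTop (𝓝 T₀) → HasSing T₀ s →
    ∃ s' : ℕ → Fin n → ℝ, (∀ m, HasSing (T m) (s' m)) ∧ Tendsto s' atTop (𝓝 s)

/-- [Nec] (uses Fam, RR, Gn, Ex, Suf, Eig) Necessity. Proof: let `A₀, B₀` realize `(a, b, s)`, let `R₁` be from `Ex`
and `A₁, B₁` from `Suf` with `DetR R₁ A₁ B₁`, `P` from `RR`, `R_t` its value at `t`. `R_1` (`t = 1`) is `R₁`: both
have the same values at all `(u, x², y²)`. Over `ℂ`, by `Fam` `R_t` is smooth for all but finitely many `t`, and so are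
the binary forms `R_t (X, Y, 0)`, `R_t (X, 0, Z)`, `R_t (0, Y, Z)` (at `t = 1`: `∏ (X - aᵢ² Y)` with different
`aᵢ²`, similarly `b`, and `Ex`); `R_t (0, 1, 0)` and `R_t (0, 0, 1)` are polynomials in `t`, not `0` at `t = 1`. So there
is a sequence of real `t_m > 0`, `t_m → 0`, for which all this holds. The hypotheses of `Gn` for
`A_t, B_t, R_t`: e.g. if `R = R_X = 0` at `(t', 1, 0)`, then by Euler `R_Y = 0` there, and `R (X, Y, 0)` is not smooth.
`A_t → A₀`, `B_t → B₀`; `Eig` gives spectra and singular values which tend to `a`, `b`, `s`. -/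
def St_Nec : Prop := ∀ (n : ℕ) (a b s : Fin n → ℝ), 1 ≤ n → Rz a b s →
  (a, b, s) ∈ closure {p : (Fin n → ℝ) × (Fin n → ℝ) × (Fin n → ℝ) |
    ∃ R : TP, Good R p.1 p.2.1 p.2.2}

/-- [Thm] (uses Suf, Nec, Clo) The theorem. -/
def St_Thm : Prop := ∀ (n : ℕ) (a b s : Fin n → ℝ), 1 ≤ n →
  (Rz a b s ↔ (a, b, s) ∈ closure {p : (Fin n → ℝ) × (Fin n → ℝ) × (Fin n → ℝ) |
    ∃ R : TP, Good R p.1 p.2.1 p.2.2})

end Pool.Agent.RSV
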